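import Pool.Agent.Helper34_CStar.Valn

/-!
# Polynomials in two variables on the double point curve `f s = f t`
-/

namespace Pool.Agent.Helper34_CStar

open Polynomial

/-- evaluation of a polynomial in two variables -/
noncomputable def ev {L : Type*} [CommRing L] [Algebra ℂ L] (t s : L) : (ℂ[X])[X] →+* L :=
  Polynomial.eval₂RingHom ((Polynomial.aeval t : ℂ[X] →ₐ[ℂ] L) : ℂ[X] →+* L) s

section

variable {L : Type*} [CommRing L] [Algebra ℂ L] (t s : L)

@[simp] theorem ev_C (p : ℂ[X]) : ev t s (C p) = aeval t p := by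
  simp [ev]

@[simp] theorem ev_X : ev t s X = s := by
  simp [ev]

@[simp] theorem ev_map_C (p : ℂ[X]) : ev t s (p.map C) = aeval s p := by
  have h : (ev t s).comp (mapRingHom C) = ((Polynomial.aeval s : ℂ[X] →ₐ[ℂ] L) : ℂ[X] →+* L) := by
    apply Polynomial.ringHom_ext
    · intro a; simp [ev]
    · simp [ev]
  have := congrArg (fun φ : ℂ[X] →+* L => φ p) h
  simpa using this

theorem ev_eq_sum (g : (ℂ[X])[X]) (n : ℕ) (hn : g.natDegree < n) :
    ev t s g = ∑ i ∈ Finset.range n, aeval t (g.coeff i) * s ^ i := by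
  simp only [ev, coe_eval₂RingHom]
  rw [eval₂_eq_sum_range' _ hn]
  rfl

end

/-- the divided difference: `(Y - X) * Dl f = f(Y) - f(X)` -/
noncomputable def Dl (f : ℂ[X]) : (ℂ[X])[X] := (f.map C - C f) /ₘ (X - C X)

theorem Dl_mul (f : ℂ[X]) : (X - C X) * Dl f = f.map C - C f := by
  have h : (f.map C - C f).IsRoot X := by
    simp [IsRoot.def, eval_map, eval₂_C_X]
  have := mul_divByMonic_eq_iff_isRoot.mpr h
  exact this

theorem Dl_ev {L : Type*} [CommRing L] [Algebra ℂ L] (f : ℂ[X]) (t s : L) :
    (s - t) * ev t s (Dl f) = aeval s f - aeval t f := by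
  have := congrArg (ev t s) (Dl_mul f)
  simpa using this

theorem Dl_ev_ne {L : Type*} [Field L] [Algebra ℂ L] {f : ℂ[X]} {t s : L}
    (h : aeval s f = aeval t f) (hne : s ≠ t) : ev t s (Dl f) = 0 := by
  have h1 := Dl_ev f t s
  rw [h, sub_self] at h1
  exact (mul_eq_zero.mp h1).resolve_left (sub_ne_zero.mpr hne)

/-- on the diagonal the divided difference is the derivative -/
theorem Dl_ev_diag (f : ℂ[X]) (t : ℂ) : ev t t (Dl f) = f.derivative.eval t := by
  have h := congrArg derivative (Dl_mul f)
  have h2 := congrArg (ev t t) h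
  simp only [derivative_mul, derivative_X, derivative_C, sub_zero, one_mul,
    map_add, map_mul, map_sub, ev_X, ev_C, aeval_X, sub_self, zero_mul, add_zero,
    derivative_map, ev_map_C] at h2
  rw [h2]
  simp

theorem Dl_natDegree {f : ℂ[X]} (hf : f.Monic) (hd : f.natDegree ≠ 0) :
    (Dl f).Monic ∧ (Dl f).natDegree = f.natDegree - 1 := by
  have hm : (f.map (C : ℂ →+* ℂ[X])).Monic := hf.map C
  have hdeg : (f.map (C : ℂ →+* ℂ[X])).natDegree = f.natDegree := hf.natDegree_map _
  have hlt : (C f : (ℂ[X])[X]).degree < (f.map (C : ℂ →+* ℂ[X])).degree := by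
    apply lt_of_le_of_lt degree_C_le
    rw [← natDegree_pos_iff_degree_pos, hdeg]
    omega
  have hPm : (f.map (C : ℂ →+* ℂ[X]) - C f).Monic := hm.sub_of_left hlt
  have hPd : (f.map (C : ℂ →+* ℂ[X]) - C f).natDegree = f.natDegree := by
    rw [natDegree_sub_C, hdeg]
  have hx : (X - C X : (ℂ[X])[X]).Monic := monic_X_sub_C X
  have h1 := Dl_mul f
  have hDm : (Dl f).Monic := by
    apply hx.of_mul_monic_left
    rw [h1]; exact hPm
  refine ⟨hDm, ?_⟩
  have h2 := hx.natDegree_mul hDm
  rw [h1, hPd, natDegree_X_sub_C] at h2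
  omega

section Close

variable {L : Type*} [Field L] {Γ : Type*} [LinearOrderedCommGroupWithZero Γ]
  {v : Valuation L Γ}

/-- close quantities multiply -/
theorem close_mul {A B : Γ} {p q P Q : L} (h1 : v (p - P) < A) (h2 : v (q - Q) < B)
    (hP : v P ≤ A) (hQ : v Q ≤ B) : v (p * q - P * Q) < A * B := by
  have e : p * q - P * Q = (p - P) * q + P * (q - Q) := by ring
  have hB : 0 < B := lt_of_le_of_lt zero_le h2
  have hA : 0 < A := lt_of_le_of_lt zero_le h1
  have hqB : v q ≤ B := by
    have : q = (q - Q) + Q := by ring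
    rw [this]
    exact Valuation.map_add_le v h2.le hQ
  rw [e]
  apply Valuation.map_add_lt
  · rw [map_mul]
    calc v (p - P) * v q ≤ v (p - P) * B := mul_le_mul_right hqB _
      _ < A * B := mul_lt_mul_of_pos_right h1 hB
  · rw [map_mul]
    calc v P * v (q - Q) ≤ A * v (q - Q) := mul_le_mul_left hP _
      _ < A * B := mul_lt_mul_of_pos_left h2 hA

theorem close_pow {A : Γ} {p P : L} (h1 : v (p - P) < A) (hP : v P ≤ A) (n : ℕ) :
    v (p ^ n - P ^ n) < A ^ n := by
  induction n with
  | zero => simp
  | succ n ih =>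
    rw [pow_succ, pow_succ, pow_succ]
    apply close_mul ih h1 _ hP
    rw [map_pow]
    exact pow_le_pow_left' hP n

end Close

section Bounded

variable {L : Type*} [Field L] [Algebra ℂ L] {Γ : Type*} [LinearOrderedCommGroupWithZero Γ]
  {v : Valuation L Γ}

/-- the number of roots of unity different from one -/
theorem card_roots_of_unity (d : ℕ) (hd : d ≠ 0) :
    ((nthRootsFinset d (1 : ℂ)).erase 1).card = d - 1 := by
  rw [Finset.card_erase_of_mem]
  · rw [(Complex.isPrimitiveRoot_exp d hd).card_nthRootsFinset]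
  · rw [mem_nthRootsFinset (Nat.pos_of_ne_zero hd)]; simp

/-- A polynomial in two variables of small degree in the second variable which is bounded on the
double point curve is a constant. -/
theorem bounded_const_of_natDegree [IsAlgClosed L] (hv : TrivOn v) {t : L} (ht : 1 < v t)
    {f : ℂ[X]} (hf : f.Monic) (hd : f.natDegree ≠ 0) (r : (ℂ[X])[X])
    (hr : r.natDegree < f.natDegree - 1)
    (hb : ∀ s : L, aeval s f = aeval t f → s ≠ t → v (ev t s r) ≤ 1) :
    ∃ c : ℂ, r = C (C c) := by
  classical
  set d := f.natDegree with hdd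
  by_cases hr0 : r = 0
  · exact ⟨0, by simp [hr0]⟩
  have hvt0 : 0 < v t := lt_trans zero_lt_one ht
  -- the weighted degree
  set W := r.support.sup fun l => (r.coeff l).natDegree + l with hW
  have hle : ∀ l, r.coeff l ≠ 0 → (r.coeff l).natDegree + l ≤ W := by
    intro l hl
    exact Finset.le_sup (f := fun l => (r.coeff l).natDegree + l) (mem_support_iff.mpr hl)
  obtain ⟨l₀, hl₀, hWl₀⟩ := Finset.exists_mem_eq_sup r.support
    (by rwa [Finset.nonempty_iff_ne_empty, ne_eq, support_eq_empty])
    fun l => (r.coeff l).natDegree + l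
  rw [← hW] at hWl₀
  by_cases hW0 : W = 0
  · refine ⟨(r.coeff 0).coeff 0, ?_⟩
    have h1 : ∀ l, l ≠ 0 → r.coeff l = 0 := by
      intro l hl
      by_contra hne
      have := hle l hne
      omega
    have h2 : (r.coeff 0).natDegree = 0 := by
      by_cases h0 : r.coeff 0 = 0
      · rw [h0]; simp
      · have := hle 0 h0
        omega
    ext l m
    by_cases hl : l = 0
    · subst hl
      rw [coeff_C_zero]
      rw [eq_C_of_natDegree_eq_zero h2]
      simp
    · rw [h1 l hl, coeff_C_ne_zero hl]
  · exfalso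
    -- the polynomial of leading coefficients
    set c : ℂ[X] := ∑ l ∈ Finset.range (d - 1), C ((r.coeff l).coeff (W - l)) * X ^ l with hc
    have hcoeff : ∀ l, l ∈ r.support → c.coeff l = (r.coeff l).coeff (W - l) := by
      intro l hl
      have hl2 : l < d - 1 := lt_of_le_of_lt (le_natDegree_of_mem_supp l hl) hr
      rw [hc, finset_sum_coeff]
      simp only [coeff_C_mul, coeff_X_pow]
      rw [Finset.sum_eq_single l]
      · simp
      · intro b _ hb; simp [Ne.symm hb]
      · intro h; exact absurd (Finset.mem_range.mpr hl2) h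
    have hc0 : c ≠ 0 := by
      intro h
      have h1 := hcoeff l₀ hl₀
      rw [h, coeff_zero] at h1
      have h2 : W - l₀ = (r.coeff l₀).natDegree := by omega
      rw [h2] at h1
      have h3 : r.coeff l₀ ≠ 0 := mem_support_iff.mp hl₀
      exact h3 (leadingCoeff_eq_zero.mp h1.symm)
    have hcd : c.natDegree < d - 1 := by
      have : c.degree < ((d - 1 : ℕ) : WithBot ℕ) := by
        rw [hc]
        apply lt_of_le_of_lt (degree_sum_le _ _)
        rw [Finset.sup_lt_iff (WithBot.bot_lt_coe _)]
        intro l hl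
        apply lt_of_le_of_lt (degree_C_mul_X_pow_le _ _)
        exact_mod_cast Finset.mem_range.mp hl
      rwa [← natDegree_lt_iff_degree_lt hc0] at this
    -- all the roots of unity except one are zeros
    have hzero : ∀ ζ ∈ (nthRootsFinset d (1 : ℂ)).erase 1, c.IsRoot ζ := by
      intro ζ hζ
      rw [Finset.mem_erase, mem_nthRootsFinset (Nat.pos_of_ne_zero hd)] at hζ
      obtain ⟨hζ1, hζd⟩ := hζ
      obtain ⟨s, hs1, hs2⟩ := hv.exists_root ht hf hd hζd
      have hζ0 : ζ ≠ 0 := by
        rintro rfl
        rw [zero_pow hd] at hζd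
        exact zero_ne_one hζd
      have hst : s ≠ t := by
        rintro rfl
        have : s - algebraMap ℂ L ζ * s = algebraMap ℂ L (1 - ζ) * s := by
          rw [map_sub, map_one]; ring
        rw [this, map_mul, hv _ (sub_ne_zero.mpr (Ne.symm hζ1)), one_mul] at hs2
        exact lt_irrefl _ hs2
      have hbs := hb s hs1 hst
      have hzt : v (algebraMap ℂ L ζ * t) = v t := by rw [map_mul, hv ζ hζ0, one_mul]
      -- compare
      have hcmp : v (ev t s r - algebraMap ℂ L (c.eval ζ) * t ^ W) < v t ^ W := by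
        rw [ev_eq_sum t s r _ hr, hc, eval_finset_sum, map_sum, Finset.sum_mul,
          ← Finset.sum_sub_distrib]
        apply Valuation.map_sum_lt _ (pow_pos hvt0 _).ne'
        intro l _
        simp only [eval_mul, eval_C, eval_pow, eval_X, map_mul, map_pow]
        by_cases hl : r.coeff l = 0
        · rw [hl]; simp [pow_pos hvt0]
        · have hlW := hle l hl
          have e1 : algebraMap ℂ L ((r.coeff l).coeff (W - l)) * algebraMap ℂ L ζ ^ l * t ^ W =
            (algebraMap ℂ L ((r.coeff l).coeff (W - l)) * t ^ (W - l)) *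
              (algebraMap ℂ L ζ * t) ^ l := by
            rw [mul_pow]
            have : t ^ W = t ^ (W - l) * t ^ l := by rw [← pow_add]; congr 1; omega
            rw [this]; ring
          have e2 : v t ^ W = v t ^ (W - l) * v t ^ l := by rw [← pow_add]; congr 1; omega
          rw [e1, e2]
          apply close_mul
          · exact hv.lead ht _ _ (by omega)
          · exact close_pow hs2 hzt.le l
          · rw [map_mul, map_pow]
            calc v (algebraMap ℂ L ((r.coeff l).coeff (W - l))) * v t ^ (W - l)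
                ≤ 1 * v t ^ (W - l) := mul_le_mul_left (hv.le_one _) _
              _ = v t ^ (W - l) := one_mul _
          · rw [map_pow, hzt]
      have h1 : v (ev t s r) < v t ^ W := lt_of_le_of_lt hbs (one_lt_pow₀ ht hW0)
      have h2 : v (algebraMap ℂ L (c.eval ζ) * t ^ W) < v t ^ W := by
        have e : algebraMap ℂ L (c.eval ζ) * t ^ W =
          ev t s r - (ev t s r - algebraMap ℂ L (c.eval ζ) * t ^ W) := by ring
        rw [e]
        exact Valuation.map_sub_lt v h1 hcmp
      rw [map_mul, map_pow] at h2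
      have h3 : v (algebraMap ℂ L (c.eval ζ)) < 1 := by
        by_contra hcon
        rw [not_lt] at hcon
        have : v t ^ W ≤ v (algebraMap ℂ L (c.eval ζ)) * v t ^ W := by
          calc v t ^ W = 1 * v t ^ W := (one_mul _).symm
            _ ≤ _ := mul_le_mul_left hcon _
        exact absurd h2 (not_lt.mpr this)
      exact hv.eq_zero h3
    have hcard := card_roots_of_unity d hd
    have hsub : (nthRootsFinset d (1 : ℂ)).erase 1 ⊆ c.roots.toFinset := by
      intro ζ hζ
      rw [Multiset.mem_toFinset, mem_roots hc0]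
      exact hzero ζ hζ
    have h5 := Finset.card_le_card hsub
    have h6 := Multiset.toFinset_card_le c.roots
    have h7 := c.card_roots'
    omega

/-- A polynomial in two variables which is bounded on the double point curve is a constant
there. -/
theorem bounded_const [IsAlgClosed L] (hv : TrivOn v) {t : L} (ht : 1 < v t)
    {f : ℂ[X]} (hf : f.Monic) (hd : 2 ≤ f.natDegree) (g : (ℂ[X])[X])
    (hb : ∀ s : L, aeval s f = aeval t f → s ≠ t → v (ev t s g) ≤ 1) :
    ∃ (c : ℂ) (q : (ℂ[X])[X]), g = C (C c) + Dl f * q := by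
  obtain ⟨hDm, hDd⟩ := Dl_natDegree hf (by omega)
  have hdiv := modByMonic_add_div g (Dl f)
  have hrd : (g %ₘ Dl f).natDegree < f.natDegree - 1 := by
    rw [← hDd]
    apply natDegree_modByMonic_lt _ hDm
    intro h
    have : (Dl f).natDegree = 0 := by rw [h]; simp
    omega
  obtain ⟨c, hc⟩ := bounded_const_of_natDegree hv ht hf (by omega) (g %ₘ Dl f) hrd (by
    intro s hs hst
    have h1 := hb s hs hst
    have h2 : ev t s g = ev t s (g %ₘ Dl f) := by
      conv_lhs => rw [← hdiv]
      rw [map_add, map_mul, Dl_ev_ne hs hst, zero_mul, add_zero]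
    rwa [h2] at h1)
  exact ⟨c, g /ₘ Dl f, by rw [← hc, hdiv]⟩

end Bounded

end Pool.Agent.Helper34_CStar
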