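import Pool.Agent.Helper34_CStar.KernelPrime

/-!
# Polynomials with a fibre isomorphic to the punctured line
-/

namespace Pool.Agent.Helper34_CStar

open Polynomial LaurentPolynomial

theorem exists_rep {f : ℂ[X]} (h3 : 3 ≤ f.natDegree)
    (hf1 : f.coeff 1 ≠ 0) (φ : P2 →ₐ[ℂ] ℂ[T;T⁻¹]) (hφ : Function.Surjective φ)
    (hφ0 : φ (MvPolynomial.X 0) = toLaurent f)
    (hpair : OnePair f.natDegree φ (MvPolynomial.X 0) (MvPolynomial.X 1)) :
    ∃ (β : P2 ≃ₐ[ℂ] P2) (q : P2), (∀ p, φ p = 0 ↔ β q ∣ p) ∧ IsRep f.natDegree q := by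
  have hf0 : f ≠ 0 := by rintro rfl; simp at hf1
  set l := f.leadingCoeff with hl
  have hl0 : l ≠ 0 := leadingCoeff_ne_zero.mpr hf0
  set a := f.coeff 0 with ha
  set f' : ℂ[X] := Polynomial.C l⁻¹ * f + Polynomial.C (-(l⁻¹ * a)) with hf'
  have hd1 : (Polynomial.C l⁻¹ * f).natDegree = f.natDegree := natDegree_C_mul (inv_ne_zero hl0)
  have hd : f'.natDegree = f.natDegree := by rw [hf', natDegree_add_C, hd1]
  have hmon : f'.Monic := by
    rw [Monic, leadingCoeff, hd, hf', coeff_add, coeff_C_mul, coeff_C_of_ne_zero (by omega),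
      add_zero, coeff_natDegree, ← hl, inv_mul_cancel₀ hl0]
  have hc0 : f'.coeff 0 = 0 := by
    rw [hf', coeff_add, coeff_C_mul, coeff_C_zero, ← ha]; ring
  have hc1 : f'.coeff 1 ≠ 0 := by
    rw [hf', coeff_add, coeff_C_mul, coeff_C_succ, add_zero]
    exact mul_ne_zero (inv_ne_zero hl0) hf1
  set β₀ := tri l⁻¹ (-(l⁻¹ * a)) 1 (inv_ne_zero hl0) one_ne_zero 0 with hβ₀
  have hφ' : Function.Surjective (φ.comp (β₀ : P2 →ₐ[ℂ] P2)) := by
    rw [AlgHom.coe_comp]
    exact hφ.comp β₀.surjective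
  have hβ0 : β₀ (MvPolynomial.X 0) = aeval (MvPolynomial.X 0 : P2)
      (Polynomial.C l⁻¹ * X + Polynomial.C (-(l⁻¹ * a))) := by
    have := tri_X0 l⁻¹ (-(l⁻¹ * a)) 1 (inv_ne_zero hl0) one_ne_zero 0 (AlgHom.id ℂ P2)
    rw [map_add, map_mul, aeval_C, aeval_C, aeval_X]
    exact this
  have hβ1 : β₀ (MvPolynomial.X 1) = MvPolynomial.X 1 := by
    have := tri_X1 l⁻¹ (-(l⁻¹ * a)) 1 (inv_ne_zero hl0) one_ne_zero 0 (AlgHom.id ℂ P2)
    rw [map_one, one_mul, map_zero, add_zero] at this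
    exact this
  obtain ⟨β, q, h1, h2⟩ := exists_rep_monic hmon (by rw [hd]; exact h3)
    hc0 hc1 (φ.comp (β₀ : P2 →ₐ[ℂ] P2)) hφ' (by
      have : (φ.comp (β₀ : P2 →ₐ[ℂ] P2)) (MvPolynomial.X 0) = φ (β₀ (MvPolynomial.X 0)) := rfl
      rw [this, hβ₀, tri_X0, hφ0, hf', map_add, map_mul, toLaurent_C, toLaurent_C,
        ← LaurentPolynomial.C_eq_algebraMap, ← LaurentPolynomial.C_eq_algebraMap]) (by
      rw [hd]
      intro A P F k hF hk
      apply hpair (A.comp (Polynomial.C l⁻¹ * X + Polynomial.C (-(l⁻¹ * a))))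
        (P.comp (Polynomial.C l⁻¹ * X + Polynomial.C (-(l⁻¹ * a)))) F k _ hk
      rw [← hF]
      congr 1
      have h4 : ∀ B : ℂ[X], β₀ (aeval (MvPolynomial.X 0 : P2) B) =
          aeval (MvPolynomial.X 0 : P2)
            (B.comp (Polynomial.C l⁻¹ * X + Polynomial.C (-(l⁻¹ * a)))) := by
        intro B
        have h5 := aeval_algHom_apply (β₀ : P2 →ₐ[ℂ] P2) (MvPolynomial.X 0 : P2) B
        have h6 : (β₀ : P2 →ₐ[ℂ] P2) (MvPolynomial.X 0) = β₀ (MvPolynomial.X 0) := rfl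
        rw [h6, hβ0] at h5
        rw [aeval_comp]
        exact h5.symm
      have h5 : (φ.comp (β₀ : P2 →ₐ[ℂ] P2)) (aeval (MvPolynomial.X 0 : P2) A *
          MvPolynomial.X 1 - aeval (MvPolynomial.X 0 : P2) P) =
          φ (β₀ (aeval (MvPolynomial.X 0 : P2) A *
          MvPolynomial.X 1 - aeval (MvPolynomial.X 0 : P2) P)) := rfl
      rw [h5, map_sub β₀, map_mul β₀, h4, h4, hβ1])
  rw [hd] at h2
  refine ⟨β.trans β₀, q, ?_, h2⟩
  intro p
  obtain ⟨r, rfl⟩ := β₀.surjective p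
  have h3 := h1 r
  have h4 : (φ.comp (β₀ : P2 →ₐ[ℂ] P2)) r = φ (β₀ r) := rfl
  rw [h4] at h3
  rw [h3, AlgEquiv.trans_apply, map_dvd_iff]

/-- a fibre of a primitive polynomial isomorphic to the punctured line is reduced and defined by
a generator of the kernel -/
theorem eq_of_primitive {p q : P2} {c : ℂ} (hp : Primitive p) {φ : P2 →ₐ[ℂ] ℂ[T;T⁻¹]}
    (hker : RingHom.ker φ = (Ideal.span {p - MvPolynomial.C c}).radical)
    (hq : ∀ r, φ r = 0 ↔ q ∣ r) : ∃ a : ℂ, a ≠ 0 ∧ p = MvPolynomial.C a * q +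
      MvPolynomial.C c := by
  classical
  set P := p - MvPolynomial.C c with hP
  have hqP : q ∣ P := by
    rw [← hq]
    have : P ∈ RingHom.ker φ := by
      rw [hker]
      exact Ideal.le_radical (Ideal.mem_span_singleton_self P)
    exact this
  have hq0 : φ q = 0 := (hq q).mpr dvd_rfl
  have hqrad : ∃ N, P ∣ q ^ N := by
    have h1 : q ∈ RingHom.ker φ := hq0
    rw [hker, Ideal.mem_radical_iff] at h1
    obtain ⟨N, hN⟩ := h1
    exact ⟨N, Ideal.mem_span_singleton.mp hN⟩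
  have hP0 : P ≠ 0 := by
    intro h0
    have h1 : p = aeval (MvPolynomial.C c : P2) (X ^ 2 + Polynomial.C (c - c ^ 2)) := by
      rw [hP, sub_eq_zero] at h0
      rw [h0, map_add, map_pow, aeval_X, aeval_C, MvPolynomial.algebraMap_eq, ← map_pow,
        ← map_add]
      congr 1; ring
    have h2 := hp _ _ h1
    rw [natDegree_add_C, natDegree_X_pow] at h2
    omega
  have hqne : q ≠ 0 := by
    rintro rfl
    exact hP0 (zero_dvd_iff.mp hqP)
  have hqunit : ¬ IsUnit q := by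
    intro hu
    have := hu.map φ
    rw [hq0] at this
    exact not_isUnit_zero this
  have hqprime : Prime q := by
    refine ⟨hqne, hqunit, ?_⟩
    intro a b hab
    rw [← hq, map_mul] at hab
    rcases mul_eq_zero.mp hab with h | h
    · exact Or.inl ((hq a).mp h)
    · exact Or.inr ((hq b).mp h)
  obtain ⟨N, hN⟩ := hqrad
  obtain ⟨m, _, hm⟩ := (dvd_prime_pow hqprime N).mp hN
  obtain ⟨u, hu⟩ := hm
  -- the unit is a constant
  obtain ⟨a, ha⟩ : ∃ a : ℂ, ((u⁻¹ : P2ˣ) : P2) = MvPolynomial.C a := by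
    have h1 : IsUnit ((u⁻¹ : P2ˣ) : P2) := (u⁻¹).isUnit
    rw [MvPolynomial.isUnit_iff_eq_C_of_isReduced] at h1
    obtain ⟨a, _, ha⟩ := h1
    exact ⟨a, ha⟩
  have ha0 : a ≠ 0 := by
    rintro rfl
    rw [map_zero] at ha
    exact (u⁻¹).isUnit.ne_zero ha
  have hPm : P = MvPolynomial.C a * q ^ m := by
    have : P = q ^ m * ((u⁻¹ : P2ˣ) : P2) := by
      rw [← hu, mul_assoc, Units.mul_inv, mul_one]
    rw [this, ha]; ring
  have hpm : p = aeval q (Polynomial.C a * X ^ m + Polynomial.C c) := by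
    rw [map_add, map_mul, aeval_C, aeval_C, map_pow, aeval_X, MvPolynomial.algebraMap_eq,
      ← hPm, hP]
    ring
  have h1 := hp _ _ hpm
  rw [natDegree_add_C, natDegree_C_mul_X_pow _ _ ha0] at h1
  have hm1 : m = 1 := by
    rcases Nat.le_one_iff_eq_zero_or_eq_one.mp h1 with h2 | h2
    · exfalso
      rw [h2, pow_zero, mul_one] at hPm
      apply hqunit
      apply isUnit_of_dvd_unit hqP
      rw [hPm]
      exact (isUnit_iff_ne_zero.mpr ha0).map MvPolynomial.C
    · exact h2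
  refine ⟨a, ha0, ?_⟩
  rw [hm1, pow_one] at hPm
  rw [← hPm, hP]; ring

/-- a polynomial with a prime member in its pencil is primitive -/
theorem primitive_of_prime {p : P2} {c : ℂ} (h : Prime (p - MvPolynomial.C c)) :
    Primitive p := by
  intro g z hz
  by_contra hcon
  rw [not_le] at hcon
  set g' := g - Polynomial.C c with hg'
  have hg'd : g'.natDegree = g.natDegree := natDegree_sub_C
  have hPz : p - MvPolynomial.C c = aeval z g' := by
    rw [hg', map_sub, aeval_C, ← hz, MvPolynomial.algebraMap_eq]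
  obtain ⟨r, hr⟩ := IsAlgClosed.exists_root g' (by
    rw [degree_eq_natDegree (by rintro h0; rw [h0] at hg'd; simp at hg'd; omega), hg'd]
    intro h0
    have : g.natDegree = 0 := by exact_mod_cast h0
    omega)
  obtain ⟨g₁, hg₁⟩ := dvd_iff_isRoot.mpr hr
  have hg₁0 : g₁ ≠ 0 := by
    rintro rfl
    rw [mul_zero] at hg₁
    rw [hg₁] at hg'd
    simp at hg'd
    omega
  have hg₁d : 1 ≤ g₁.natDegree := by
    have := natDegree_mul (X_sub_C_ne_zero r) hg₁0
    rw [← hg₁, hg'd, natDegree_X_sub_C] at this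
    omega
  have hfac : p - MvPolynomial.C c = (z - MvPolynomial.C r) * aeval z g₁ := by
    rw [hPz, hg₁, map_mul, map_sub, aeval_X, aeval_C, MvPolynomial.algebraMap_eq]
  -- if `z` is a constant then `p - c` is a constant
  have hconst : (∃ b : ℂ, z = MvPolynomial.C b) → False := by
    rintro ⟨b, rfl⟩
    have h1 : p - MvPolynomial.C c = MvPolynomial.C (g'.eval b) := by
      rw [hPz]
      have := aeval_algebraMap_apply P2 b g'
      rw [MvPolynomial.algebraMap_eq, coe_aeval_eq_eval] at this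
      exact this
    by_cases h2 : g'.eval b = 0
    · rw [h2, map_zero] at h1
      exact h.ne_zero h1
    · apply h.not_isUnit
      rw [h1]
      exact (isUnit_iff_ne_zero.mpr h2).map MvPolynomial.C
  have hunit : ∀ w : P2, IsUnit w → ∃ b : ℂ, w = MvPolynomial.C b := by
    intro w hw
    rw [MvPolynomial.isUnit_iff_eq_C_of_isReduced] at hw
    obtain ⟨b, _, hb⟩ := hw
    exact ⟨b, hb⟩
  have hdvd : (z - MvPolynomial.C r) ∣ p - MvPolynomial.C c := ⟨_, hfac⟩
  rcases (h.irreducible.isUnit_or_isUnit hfac) with h1 | h1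
  · obtain ⟨b, hb⟩ := hunit _ h1
    apply hconst
    exact ⟨b + r, by rw [map_add, ← hb]; ring⟩
  · obtain ⟨b, hb⟩ := hunit _ h1
    -- `z` is a root of `g₁ - b`
    have h2 : aeval z (g₁ - Polynomial.C b) = 0 := by
      rw [map_sub, hb, aeval_C, MvPolynomial.algebraMap_eq, sub_self]
    have h3 : g₁ - Polynomial.C b ≠ 0 := by
      intro h0
      have h4 : (g₁ - Polynomial.C b).natDegree = g₁.natDegree := natDegree_sub_C
      rw [h0] at h4
      simp at h4
      omega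
    have h4 := (IsAlgClosed.splits (g₁ - Polynomial.C b)).eq_prod_roots
    rw [h4, map_mul, aeval_C, MvPolynomial.algebraMap_eq] at h2
    have h5 : (MvPolynomial.C (g₁ - Polynomial.C b).leadingCoeff : P2) ≠ 0 := by
      rw [ne_eq, MvPolynomial.C_eq_zero]
      exact leadingCoeff_ne_zero.mpr h3
    have h6 := (mul_eq_zero.mp h2).resolve_left h5
    rw [map_multiset_prod, Multiset.prod_eq_zero_iff, Multiset.map_map, Multiset.mem_map] at h6
    obtain ⟨a, _, ha⟩ := h6
    apply hconst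
    refine ⟨a, ?_⟩
    simp only [Function.comp_apply, map_sub, aeval_X, aeval_C, MvPolynomial.algebraMap_eq] at ha
    exact sub_eq_zero.mp ha

theorem prime_of_ker {p : P2} {φ : P2 →ₐ[ℂ] ℂ[T;T⁻¹]} (hp0 : p ≠ 0)
    (hq : ∀ r, φ r = 0 ↔ p ∣ r) : Prime p := by
  have hp : φ p = 0 := (hq p).mpr dvd_rfl
  refine ⟨hp0, ?_, ?_⟩
  · intro hu
    have := hu.map φ
    rw [hp] at this
    exact not_isUnit_zero this
  · intro a b hab
    rw [← hq, map_mul] at hab
    rcases mul_eq_zero.mp hab with h | h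
    · exact Or.inl ((hq a).mp h)
    · exact Or.inr ((hq b).mp h)

theorem isFibre_of_ker {p : P2} {c : ℂ} {φ : P2 →ₐ[ℂ] ℂ[T;T⁻¹]} (hs : Function.Surjective φ)
    (hp : Prime (p - MvPolynomial.C c))
    (hq : ∀ r, φ r = 0 ↔ p - MvPolynomial.C c ∣ r) : IsFibre p c φ := by
  refine ⟨hs, ?_⟩
  have h1 : (Ideal.span {p - MvPolynomial.C c}).IsPrime :=
    (Ideal.span_singleton_prime hp.ne_zero).mpr hp
  rw [h1.radical]
  ext r
  rw [RingHom.mem_ker, Ideal.mem_span_singleton]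
  exact hq r

/-- the class is invariant under equivalence -/
theorem inClass_of_equivalent {d : ℕ} {p q : P2} (h : Equivalent p q) (hq : InClass d q) :
    InClass d p := by
  obtain ⟨α, a, b, ha, hpq⟩ := h
  obtain ⟨hprim, c, φ, u, f, ⟨hs, hker⟩, ⟨γ, hγ⟩, hu, hfd, hf1⟩ := hq
  have hCa : (MvPolynomial.C a⁻¹ : P2) * MvPolynomial.C a = 1 := by
    rw [← map_mul, inv_mul_cancel₀ ha, map_one]
  have hαC : ∀ (e : P2 ≃ₐ[ℂ] P2) (x : ℂ), e (MvPolynomial.C x) = MvPolynomial.C x := by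
    intro e x
    rw [← MvPolynomial.algebraMap_eq]; exact e.commutes x
  refine ⟨?_, a * c + b, φ.comp (α.symm : P2 →ₐ[ℂ] P2), α u, f, ⟨?_, ?_⟩, ⟨γ.trans α, ?_⟩, ?_,
    hfd, hf1⟩
  · intro g z hz
    have h1 : q = aeval (α.symm z) (Polynomial.C a⁻¹ * g + Polynomial.C (-(a⁻¹ * b))) := by
      apply α.injective
      have h2 : α (aeval (α.symm z) (Polynomial.C a⁻¹ * g + Polynomial.C (-(a⁻¹ * b)))) =
          aeval z (Polynomial.C a⁻¹ * g + Polynomial.C (-(a⁻¹ * b))) := by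
        have h3 := aeval_algHom_apply (α : P2 →ₐ[ℂ] P2) (α.symm z)
          (Polynomial.C a⁻¹ * g + Polynomial.C (-(a⁻¹ * b)))
        have h4 : (α : P2 →ₐ[ℂ] P2) (α.symm z) = z := α.apply_symm_apply z
        rw [h4] at h3
        exact h3.symm
      rw [h2, map_add, map_mul, aeval_C, aeval_C, ← hz, MvPolynomial.algebraMap_eq, hpq, map_neg,
        map_mul]
      linear_combination (-(α q)) * hCa
    have h2 := hprim _ _ h1
    rwa [natDegree_add_C, natDegree_C_mul (inv_ne_zero ha)] at h2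
  · rw [AlgHom.coe_comp]
    exact hs.comp α.symm.surjective
  · ext r
    rw [RingHom.mem_ker, AlgHom.comp_apply]
    have h1 : (φ (α.symm r) = 0) ↔ (α.symm r) ∈ RingHom.ker φ := Iff.rfl
    have h2 : ((α.symm : P2 →ₐ[ℂ] P2) r) = α.symm r := rfl
    rw [h2, h1, hker, Ideal.mem_radical_iff, Ideal.mem_radical_iff]
    apply exists_congr
    intro N
    rw [Ideal.mem_span_singleton, Ideal.mem_span_singleton, ← map_dvd_iff α, map_pow,
      AlgEquiv.apply_symm_apply, map_sub, hαC]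
    have h3 : p - MvPolynomial.C (a * c + b) =
        MvPolynomial.C a * (α q - MvPolynomial.C c) := by
      rw [hpq, map_add, map_mul]; ring
    rw [h3]
    have h4 : IsUnit (MvPolynomial.C a : P2) := (isUnit_iff_ne_zero.mpr ha).map MvPolynomial.C
    exact h4.mul_left_dvd.symm
  · rw [AlgEquiv.trans_apply, hγ]
  · rw [AlgHom.comp_apply]
    have h2 : ((α.symm : P2 →ₐ[ℂ] P2) (α u)) = u := α.symm_apply_apply u
    rw [h2, hu]

end Pool.Agent.Helper34_CStar
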