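import Pool.Agent.Helper34_CStar.Std3

/-!
# The list of representatives of degree at most three, and reductions
-/

namespace Pool.Agent.Helper34_CStar

open Polynomial LaurentPolynomial

/-- the representatives of degree at most three in `y` -/
def IsRepr (q : P2) : Prop :=
  (∃ (k : ℕ) (g : ℂ[X]), 1 ≤ k ∧ g.natDegree < k ∧ g.coeff 0 = 0 ∧ q = r₀ k g) ∨
  (∃ (d n l : ℕ) (g : ℂ[X]), (d = 2 ∨ d = 3) ∧ 1 ≤ l ∧ Nat.Coprime l d ∧ g.natDegree < n ∧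
    g.coeff 0 = 1 ∧ q = r₁ d n l g) ∨
  (∃ (d n l : ℕ) (g : ℂ[X]), (d = 2 ∨ d = 3) ∧ 1 ≤ l ∧ Nat.Coprime l d ∧
    ((n = 0 ∧ g = 0 ∧ d < l) ∨ (g.natDegree < n ∧ g.coeff 0 = 1)) ∧ q = r₂ d n l g) ∨
  (∃ i, 3 ≤ i ∧ IsTrunc 0 i q) ∨
  (∃ (j : Fin 4) (i : ℕ), j ≠ 0 ∧ 2 ≤ i ∧ IsTrunc j i q) ∨
  q = q₃ 3

/-- the kernel is generated by an image of a member of a pencil of a representative -/
def Cls (φ : P2 →ₐ[ℂ] ℂ[T;T⁻¹]) : Prop :=
  ∃ (β : P2 ≃ₐ[ℂ] P2) (q : P2) (c : ℂ), IsRepr q ∧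
    ∀ p, φ p = 0 ↔ β (q - MvPolynomial.C c) ∣ p

theorem Cls.of_comp {φ : P2 →ₐ[ℂ] ℂ[T;T⁻¹]} (α : P2 ≃ₐ[ℂ] P2)
    (h : Cls (φ.comp (α : P2 →ₐ[ℂ] P2))) : Cls φ := by
  obtain ⟨β, q, c, hq, h1⟩ := h
  refine ⟨β.trans α, q, c, hq, ?_⟩
  intro p
  obtain ⟨r, rfl⟩ := α.surjective p
  have h3 := h1 r
  have h4 : (φ.comp (α : P2 →ₐ[ℂ] P2)) r = φ (α r) := rfl
  rw [h4] at h3
  rw [h3, AlgEquiv.trans_apply, map_dvd_iff]

theorem Cls.of_aut {φ : P2 →ₐ[ℂ] ℂ[T;T⁻¹]} (ψ : ℂ[T;T⁻¹] →ₐ[ℂ] ℂ[T;T⁻¹])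
    (hψ : Function.Injective ψ) (h : Cls (ψ.comp φ)) : Cls φ := by
  obtain ⟨β, q, c, hq, h1⟩ := h
  refine ⟨β, q, c, hq, ?_⟩
  intro p
  rw [← h1, AlgHom.comp_apply]
  constructor
  · intro h; rw [h, map_zero]
  · intro h; exact hψ (by rw [h, map_zero])

theorem cls_of_std {φ : P2 →ₐ[ℂ] ℂ[T;T⁻¹]} {x₁ y₁ : ℂ[T;T⁻¹]} {q : P2} {c : ℂ}
    (hstd : IsStd x₁ y₁ (q - MvPolynomial.C c)) (hq : IsRepr q)
    (h0 : φ (MvPolynomial.X 0) = x₁) (h1 : φ (MvPolynomial.X 1) = y₁) : Cls φ := by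
  refine ⟨AlgEquiv.refl, q, c, hq, ?_⟩
  intro p
  rw [eq_hom2 φ, h0, h1]
  exact hstd.mem_ker_iff p

/-- the inversion of the parameter as a homomorphism -/
noncomputable def inv' : ℂ[T;T⁻¹] →ₐ[ℂ] ℂ[T;T⁻¹] :=
  ((invert : ℂ[T;T⁻¹] ≃ₐ[ℂ] ℂ[T;T⁻¹]) : ℂ[T;T⁻¹] →ₐ[ℂ] ℂ[T;T⁻¹])

theorem inv'_injective : Function.Injective inv' := AlgEquiv.injective _

theorem inv'_surjective : Function.Surjective inv' := AlgEquiv.surjective _

@[simp] theorem inv'_T (n : ℤ) : inv' (T n) = T (-n) := invert_T n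

@[simp] theorem inv'_C (c : ℂ) : inv' (LaurentPolynomial.C c) = LaurentPolynomial.C c :=
  invert_C c

theorem levA_sc_injective (s : ℂ) (hs : s ≠ 0) : Function.Injective (levA (sc s hs)) := by
  rw [injective_iff_map_eq_zero]
  intro z hz
  exact sc_injective s hs z hz

theorem levA_sc_surjective (s : ℂ) (hs : s ≠ 0) : Function.Surjective (levA (sc s hs)) := by
  intro z
  refine ⟨lev (sc s⁻¹ (inv_ne_zero hs)) z, ?_⟩
  rw [levA_apply]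
  have h1 := map_lev (levA (sc s hs)) (sc s⁻¹ (inv_ne_zero hs)) z
  have h2 : lev (Units.map ((levA (sc s hs) : ℂ[T;T⁻¹] →ₐ[ℂ] ℂ[T;T⁻¹]) :
      ℂ[T;T⁻¹] →* ℂ[T;T⁻¹]) (sc s⁻¹ (inv_ne_zero hs))) = RingHom.id ℂ[T;T⁻¹] := by
    apply laurent_ringHom_ext
    · intro c
      rw [lev_C, ← LaurentPolynomial.C_eq_algebraMap]; rfl
    · rw [lev_T, zpow_one]
      change levA (sc s hs) (LaurentPolynomial.C s⁻¹ * T 1) = _
      rw [levA_apply, map_mul, lev_C, lev_T, zpow_one, sc_val, ← LaurentPolynomial.C_eq_algebraMap,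
        ← mul_assoc, ← map_mul, inv_mul_cancel₀ hs, map_one, one_mul]
      rfl
  rw [h2] at h1
  exact h1

theorem lev_sc_T (s : ℂ) (hs : s ≠ 0) (n : ℤ) :
    lev (sc s hs) (T n) = LaurentPolynomial.C (s ^ n) * T n := by
  rcases Int.eq_nat_or_neg n with ⟨m, rfl | rfl⟩
  · rw [lev_sc_nat, zpow_natCast]
  · rw [lev_sc_neg, zpow_neg, zpow_natCast, inv_pow]

theorem surjective_comp_equiv {φ : P2 →ₐ[ℂ] ℂ[T;T⁻¹]} (hφ : Function.Surjective φ)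
    (α : P2 ≃ₐ[ℂ] P2) : Function.Surjective (φ.comp (α : P2 →ₐ[ℂ] P2)) := by
  rw [AlgHom.coe_comp]; exact hφ.comp α.surjective

theorem comp_tri_X0 (φ : P2 →ₐ[ℂ] ℂ[T;T⁻¹]) (μ ν κ : ℂ) (hμ : μ ≠ 0) (hκ : κ ≠ 0) (H : ℂ[X]) :
    (φ.comp (tri μ ν κ hμ hκ H : P2 →ₐ[ℂ] P2)) (MvPolynomial.X 0) =
      LaurentPolynomial.C μ * φ (MvPolynomial.X 0) + LaurentPolynomial.C ν := by
  change φ (tri μ ν κ hμ hκ H (MvPolynomial.X 0)) = _
  rw [tri_X0, ← LaurentPolynomial.C_eq_algebraMap, ← LaurentPolynomial.C_eq_algebraMap]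

theorem comp_tri_X1 (φ : P2 →ₐ[ℂ] ℂ[T;T⁻¹]) (μ ν κ : ℂ) (hμ : μ ≠ 0) (hκ : κ ≠ 0) (H : ℂ[X]) :
    (φ.comp (tri μ ν κ hμ hκ H : P2 →ₐ[ℂ] P2)) (MvPolynomial.X 1) =
      LaurentPolynomial.C κ * φ (MvPolynomial.X 1) + aeval (φ (MvPolynomial.X 0)) H := by
  change φ (tri μ ν κ hμ hκ H (MvPolynomial.X 1)) = _
  rw [tri_X1, ← LaurentPolynomial.C_eq_algebraMap]

/-- **The class of embeddings having the parameter as a coordinate.** -/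
theorem cls_lin {φ : P2 →ₐ[ℂ] ℂ[T;T⁻¹]} (hφ : Function.Surjective φ)
    (h0 : φ (MvPolynomial.X 0) = T 1) : Cls φ := by
  have hadj := adjoin_of_surjective hφ
  have h0' : φ (MvPolynomial.X 0) = toLaurent X := by rw [h0, toLaurent_X]
  rw [h0'] at hadj
  obtain ⟨Y, k, hk, hY, hy⟩ := exists_pole hadj
  -- `Y = c + g + X ^ k H`
  have hm : (X ^ k : ℂ[X]).Monic := monic_X_pow k
  set R := Y %ₘ X ^ k with hR
  set H := Y /ₘ X ^ k with hH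
  have hYRH : R + X ^ k * H = Y := modByMonic_add_div Y _
  have hRd : R.natDegree < k := by
    have := natDegree_modByMonic_lt Y hm (by
      intro h1
      have := congrArg natDegree h1
      rw [natDegree_X_pow, natDegree_one] at this
      omega)
    rwa [natDegree_X_pow] at this
  set c := R.coeff 0 with hc
  have hcY : c = Y.coeff 0 := by
    rw [← hYRH, coeff_add, coeff_X_pow_mul', if_neg (by omega), add_zero]
  set g := R - Polynomial.C c with hg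
  have hg0 : g.coeff 0 = 0 := by rw [hg, coeff_sub, coeff_C_zero, ← hc, sub_self]
  have hgd : g.natDegree < k := by rwa [hg, natDegree_sub_C]
  apply Cls.of_comp (tri 1 0 1 one_ne_zero one_ne_zero (-H))
  have hc0 : c ≠ 0 := by rw [hcY]; exact hY
  refine cls_of_std (c := c) (isStd_r₀ hk hc0 hg0)
    (Or.inl ⟨k, g, hk, hgd, hg0, rfl⟩) ?_ ?_
  · rw [comp_tri_X0, h0, map_one, one_mul, map_zero, add_zero]
  · rw [comp_tri_X1, h0', hy, map_one, one_mul, aeval_toLaurent, comp_X, yLin]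
    have e1 : Polynomial.C c + g = R := by rw [hg]; ring
    have e2 : (T (k : ℤ) : ℂ[T;T⁻¹]) * T (-(k : ℤ)) = 1 := by rw [← T_add]; simp
    rw [e1, ← hYRH, map_add, map_mul, toLaurent_X_pow, map_neg]
    linear_combination toLaurent H * e2

end Pool.Agent.Helper34_CStar
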