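import Pool.Agent.Helper34_CStar.Spor

/-!
# The list of representatives of degree at most four, and reductions
-/

namespace Pool.Agent.Helper34_CStar

open Polynomial LaurentPolynomial

/-- the representatives of degree at most four in `y` -/
def IsRepr₄ (q : P2) : Prop :=
  IsRepr q ∨
  (∃ (n l : ℕ) (g : ℂ[X]), 1 ≤ l ∧ Nat.Coprime l 4 ∧ g.natDegree < n ∧
    g.coeff 0 = 1 ∧ q = r₁ 4 n l g) ∨
  (∃ (n l : ℕ) (g : ℂ[X]), 1 ≤ l ∧ Nat.Coprime l 4 ∧
    ((n = 0 ∧ g = 0 ∧ 4 < l) ∨ (g.natDegree < n ∧ g.coeff 0 = 1)) ∧ q = r₂ 4 n l g) ∨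
  (∃ (j : Fin 6) (i : ℕ), 1 ≤ i ∧ (j = 3 ∨ 2 ≤ i) ∧ IsTrunc₄ j i q) ∨
  q = q₃ 4 ∨ q = qR

/-- the kernel is generated by an image of a member of a pencil of a representative -/
def Cls₄ (φ : P2 →ₐ[ℂ] ℂ[T;T⁻¹]) : Prop :=
  ∃ (β : P2 ≃ₐ[ℂ] P2) (q : P2) (c : ℂ), IsRepr₄ q ∧
    ∀ p, φ p = 0 ↔ β (q - MvPolynomial.C c) ∣ p

theorem Cls.cls₄ {φ : P2 →ₐ[ℂ] ℂ[T;T⁻¹]} (h : Cls φ) : Cls₄ φ := by
  obtain ⟨β, q, c, hq, h1⟩ := h
  exact ⟨β, q, c, Or.inl hq, h1⟩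

theorem Cls₄.of_comp {φ : P2 →ₐ[ℂ] ℂ[T;T⁻¹]} (α : P2 ≃ₐ[ℂ] P2)
    (h : Cls₄ (φ.comp (α : P2 →ₐ[ℂ] P2))) : Cls₄ φ := by
  obtain ⟨β, q, c, hq, h1⟩ := h
  refine ⟨β.trans α, q, c, hq, ?_⟩
  intro p
  obtain ⟨r, rfl⟩ := α.surjective p
  have h3 := h1 r
  have h4 : (φ.comp (α : P2 →ₐ[ℂ] P2)) r = φ (α r) := rfl
  rw [h4] at h3
  rw [h3, AlgEquiv.trans_apply, map_dvd_iff]

theorem Cls₄.of_aut {φ : P2 →ₐ[ℂ] ℂ[T;T⁻¹]} (ψ : ℂ[T;T⁻¹] →ₐ[ℂ] ℂ[T;T⁻¹])
    (hψ : Function.Injective ψ) (h : Cls₄ (ψ.comp φ)) : Cls₄ φ := by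
  obtain ⟨β, q, c, hq, h1⟩ := h
  refine ⟨β, q, c, hq, ?_⟩
  intro p
  rw [← h1, AlgHom.comp_apply]
  constructor
  · intro h; rw [h, map_zero]
  · intro h; exact hψ (by rw [h, map_zero])

theorem cls₄_of_std {φ : P2 →ₐ[ℂ] ℂ[T;T⁻¹]} {x₁ y₁ : ℂ[T;T⁻¹]} {q : P2} {c : ℂ}
    (hstd : IsStd x₁ y₁ (q - MvPolynomial.C c)) (hq : IsRepr₄ q)
    (h0 : φ (MvPolynomial.X 0) = x₁) (h1 : φ (MvPolynomial.X 1) = y₁) : Cls₄ φ := by
  refine ⟨AlgEquiv.refl, q, c, hq, ?_⟩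
  intro p
  rw [eq_hom2 φ, h0, h1]
  exact hstd.mem_ker_iff p

theorem cls₄_affine {φ : P2 →ₐ[ℂ] ℂ[T;T⁻¹]} (hφ : Function.Surjective φ) {μ ν : ℂ} (hμ : μ ≠ 0)
    {x : ℂ[T;T⁻¹]} (h0 : φ (MvPolynomial.X 0) = LaurentPolynomial.C μ * x + LaurentPolynomial.C ν)
    (h : ∀ φ' : P2 →ₐ[ℂ] ℂ[T;T⁻¹], Function.Surjective φ' → φ' (MvPolynomial.X 0) = x → Cls₄ φ') :
    Cls₄ φ := by
  apply Cls₄.of_comp (tri μ⁻¹ (-(μ⁻¹ * ν)) 1 (inv_ne_zero hμ) one_ne_zero 0)
  apply h _ (surjective_comp_equiv hφ _)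
  have h1 : (LaurentPolynomial.C μ⁻¹ : ℂ[T;T⁻¹]) * LaurentPolynomial.C μ = 1 := by
    rw [← map_mul, inv_mul_cancel₀ hμ, map_one]
  rw [comp_tri_X0, h0, map_neg, map_mul]
  linear_combination x * h1

theorem cls₄_scale {φ : P2 →ₐ[ℂ] ℂ[T;T⁻¹]} (hφ : Function.Surjective φ) {s : ℂ} (hs : s ≠ 0)
    (h : ∀ φ' : P2 →ₐ[ℂ] ℂ[T;T⁻¹], Function.Surjective φ' →
      φ' (MvPolynomial.X 0) = lev (sc s hs) (φ (MvPolynomial.X 0)) → Cls₄ φ') : Cls₄ φ := by
  apply Cls₄.of_aut (levA (sc s hs)) (levA_sc_injective s hs)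
  apply h
  · rw [AlgHom.coe_comp]; exact (levA_sc_surjective s hs).comp hφ
  · rfl

theorem cls₄_inv {φ : P2 →ₐ[ℂ] ℂ[T;T⁻¹]} (hφ : Function.Surjective φ)
    (h : ∀ φ' : P2 →ₐ[ℂ] ℂ[T;T⁻¹], Function.Surjective φ' →
      φ' (MvPolynomial.X 0) = inv' (φ (MvPolynomial.X 0)) → Cls₄ φ') : Cls₄ φ := by
  apply Cls₄.of_aut inv' inv'_injective
  apply h
  · rw [AlgHom.coe_comp]; exact inv'_surjective.comp hφ
  · rfl

/-- a second coordinate of degree at most three up to a polynomial in the first one -/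
theorem cls_of_X1_degree {φ : P2 →ₐ[ℂ] ℂ[T;T⁻¹]} (hφ : Function.Surjective φ) {F : ℂ[X]} {k : ℕ}
    (hF : F.natDegree ≤ 3) (hk : k ≤ 3) {a : ℂ} (ha : a ≠ 0) {H : ℂ[X]}
    (h1 : φ (MvPolynomial.X 1) = LaurentPolynomial.C a * (toLaurent F * T (-(k : ℤ))) +
      aeval (φ (MvPolynomial.X 0)) H) : Cls φ := by
  set α := tri 1 0 a⁻¹ one_ne_zero (inv_ne_zero ha) (Polynomial.C (-a⁻¹) * H) with hα
  have h2 : (φ.comp (α : P2 →ₐ[ℂ] P2)) (MvPolynomial.X 1) = toLaurent F * T (-(k : ℤ)) := by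
    rw [hα, comp_tri_X1, h1, map_mul, aeval_C, ← LaurentPolynomial.C_eq_algebraMap, map_neg]
    have h3 : (LaurentPolynomial.C a⁻¹ : ℂ[T;T⁻¹]) * LaurentPolynomial.C a = 1 := by
      rw [← map_mul, inv_mul_cancel₀ ha, map_one]
    linear_combination (toLaurent F * T (-(k : ℤ))) * h3
  apply Cls.of_comp α
  apply Cls.of_comp swapXY
  refine cls_degree (surjective_comp_equiv (surjective_comp_equiv hφ _) _) hF hk ?_
  change (φ.comp (α : P2 →ₐ[ℂ] P2)) (swapXY (MvPolynomial.X 0)) = _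
  rw [swapXY_X0, h2]

/-- membership in the class for truncated equations -/
theorem cls₄_of_norm (j : Fin 6) {φ : P2 →ₐ[ℂ] ℂ[T;T⁻¹]} (h0 : φ (MvPolynomial.X 0) = x₄ j)
    {i : ℕ} (hi : 1 ≤ i) (hij : j = 3 ∨ 2 ≤ i) {a : ℂ} {H τ : ℂ[X]}
    (ha : a ≠ 0) (hd : τ.natDegree < i) (hτ0 : τ.coeff 0 = 1) (hdvd : X ^ i ∣ rel₄ j X τ)
    (h : x₄ j ^ i * (LaurentPolynomial.C a * φ (MvPolynomial.X 1) + aeval (x₄ j) H) +
      aeval (x₄ j) τ = w₄ j) : Cls₄ φ := by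
  obtain ⟨q, hq⟩ := rel₄_trunc_dvd j hdvd
  have hqT : IsTrunc₄ j i q := ⟨τ, hd, hτ0, hq⟩
  have hqR : IsRepr₄ q := Or.inr (Or.inr (Or.inr (Or.inl ⟨j, i, hi, hij, hqT⟩)))
  apply Cls₄.of_comp (tri 1 0 a one_ne_zero ha H)
  refine cls₄_of_std (c := 0) (x₁ := x₄ j) (q := q) ?_ hqR ?_ rfl
  · rw [map_zero, sub_zero]
    apply isStd_trunc₄ j hi hτ0 hq
    rw [comp_tri_X1, h0]
    exact h
  · rw [comp_tri_X0, h0, map_one, one_mul, map_zero, add_zero]

/-- for `i = 1` the truncation is `1` -/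
theorem norm₄_one (j : Fin 6) {τ : ℂ[X]} (hd : τ.natDegree < 1) (h0 : τ.coeff 0 = 1)
    {y : ℂ[T;T⁻¹]} (h : x₄ j ^ 1 * y + aeval (x₄ j) τ = w₄ j) : x₄ j * y = w₄ j - 1 := by
  have h1 : τ = 1 := by
    rw [eq_C_of_natDegree_le_zero (p := τ) (by omega), h0, map_one]
  rw [h1, map_one, pow_one] at h
  linear_combination h

/-- the normal form of the second coordinate -/
theorem exists_norm₄ (j : Fin 6) {y : ℂ[T;T⁻¹]} {N i : ℕ} (hi : 1 ≤ i) (hiN : i ≤ N) {c : ℂ}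
    (hc : c ≠ 0) {G : ℂ[X]}
    (h : x₄ j ^ N * y = LaurentPolynomial.C c * x₄ j ^ (N - i) * w₄ j + aeval (x₄ j) G) :
    ∃ (a : ℂ) (H τ : ℂ[X]), a ≠ 0 ∧ τ.natDegree < i ∧ τ.coeff 0 = 1 ∧ X ^ i ∣ rel₄ j X τ ∧
      x₄ j ^ i * (LaurentPolynomial.C a * y + aeval (x₄ j) H) + aeval (x₄ j) τ = w₄ j := by
  have hx := x₄_ne_zero j
  have hx1 := lev_x₄_one j
  obtain ⟨M, rfl⟩ : ∃ M, N = M + i := ⟨N - i, by omega⟩
  rw [Nat.add_sub_cancel] at h
  have hdvd : X ^ M ∣ G := by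
    apply dvd_of_aeval_dvd hx hx1
    refine ⟨x₄ j ^ i * y - LaurentPolynomial.C c * w₄ j, ?_⟩
    rw [pow_add] at h
    linear_combination -h
  obtain ⟨G', rfl⟩ := hdvd
  have h1 : x₄ j ^ i * y = LaurentPolynomial.C c * w₄ j + aeval (x₄ j) G' := by
    apply mul_left_cancel₀ (pow_ne_zero M hx)
    rw [map_mul, map_pow, aeval_X, pow_add] at h
    linear_combination h
  set R := G' %ₘ X ^ i with hR
  set H := G' /ₘ X ^ i with hH
  have hGRH : R + X ^ i * H = G' := modByMonic_add_div G' _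
  have hRd : R.natDegree < i := by
    have := natDegree_modByMonic_lt G' (monic_X_pow i) (by
      intro h1
      have := congrArg natDegree h1
      rw [natDegree_X_pow, natDegree_one] at this
      omega)
    rwa [natDegree_X_pow] at this
  have hci : c⁻¹ ≠ 0 := inv_ne_zero hc
  have hcc : (LaurentPolynomial.C c⁻¹ : ℂ[T;T⁻¹]) * LaurentPolynomial.C c = 1 := by
    rw [← map_mul, inv_mul_cancel₀ hc, map_one]
  obtain ⟨τ, hτ⟩ : ∃ τ, τ = Polynomial.C (-c⁻¹) * R := ⟨_, rfl⟩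
  obtain ⟨H', hH'⟩ : ∃ H', H' = Polynomial.C (-c⁻¹) * H := ⟨_, rfl⟩
  have h2 : x₄ j ^ i * (LaurentPolynomial.C c⁻¹ * y + aeval (x₄ j) H') + aeval (x₄ j) τ =
      w₄ j := by
    rw [hτ, hH', map_mul, map_mul, aeval_C, ← LaurentPolynomial.C_eq_algebraMap, map_neg]
    rw [← hGRH, map_add, map_mul, map_pow, aeval_X] at h1
    linear_combination LaurentPolynomial.C c⁻¹ * h1 + w₄ j * hcc
  have hτd : τ.natDegree < i := by
    rw [hτ, natDegree_C_mul (neg_ne_zero.mpr hci)]; exact hRd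
  refine ⟨c⁻¹, H', τ, hci, hτd, ?_, ?_, h2⟩
  · have h3 := congrArg (levA (S := ℂ) 1) h2
    rw [map_add, map_mul, map_pow, ← aeval_algHom_apply, levA_apply, levA_apply, levA_apply,
      hx1, zero_pow (by omega), zero_mul, zero_add, coe_aeval_eq_eval, lev_w₄_one,
      ← coeff_zero_eq_eval_zero] at h3
    exact h3
  · apply dvd_of_aeval_dvd hx hx1
    have h3 := rel₄_sub j (x₄ j) (w₄ j) (aeval (x₄ j) τ)
    rw [rel₄_std, zero_sub] at h3
    have h4 : aeval (x₄ j) (rel₄ j X τ) = rel₄ j (x₄ j) (aeval (x₄ j) τ) := by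
      rw [map_rel₄, aeval_X]
    rw [h4]
    refine ⟨-((LaurentPolynomial.C c⁻¹ * y + aeval (x₄ j) H') *
      relD₄ j (x₄ j) (w₄ j) (aeval (x₄ j) τ)), ?_⟩
    linear_combination -h3 + relD₄ j (x₄ j) (w₄ j) (aeval (x₄ j) τ) * h2

/-- **The class of embeddings having the fourth power of the parameter as a coordinate.** -/
theorem cls₄_pow {φ : P2 →ₐ[ℂ] ℂ[T;T⁻¹]}
    (hφ : Function.Surjective φ) (h0 : φ (MvPolynomial.X 0) = T ((4 : ℕ) : ℤ)) : Cls₄ φ := by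
  obtain ⟨d, hd⟩ : ∃ d : ℕ, d = 4 := ⟨4, rfl⟩
  have h0 : φ (MvPolynomial.X 0) = T (d : ℤ) := by rw [hd]; exact h0
  have hd2 : 2 ≤ d := by omega
  have hadj := adjoin_of_surjective hφ
  obtain ⟨y, hy⟩ : ∃ y, y = φ (MvPolynomial.X 1) := ⟨_, rfl⟩
  rw [← hy, h0] at hadj
  obtain ⟨c, m, N, G, hc, hm, hG⟩ := pow_structure hd2 (y := y) (by
    intro t s hts hy
    apply lev_ext hadj t s _ hy
    rw [lev_T, lev_T, zpow_natCast, zpow_natCast, hts])
  have hTd : (T (d : ℤ) : ℂ[T;T⁻¹]) ≠ 0 := (isUnit_T _).ne_zero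
  -- the exponent is odd
  have hodd : ¬ (2 : ℤ) ∣ m := by
    rintro ⟨e, rfl⟩
    have h1 : (-1 : ℂˣ) = 1 := by
      have hx : lev (-1 : ℂˣ) (T (d : ℤ)) = lev (1 : ℂˣ) (T (d : ℤ)) := by
        rw [lev_T, lev_T, hd]
        simp
        exact Even.neg_one_pow ⟨2, rfl⟩
      apply lev_ext hadj _ _ hx
      have h2 := congrArg (lev (-1 : ℂˣ)) hG
      have h3 := congrArg (lev (1 : ℂˣ)) hG
      have h4 : ∀ u : ℂˣ, lev u (aeval (T (d : ℤ)) G) = aeval (lev u (T (d : ℤ))) G := by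
        intro u
        exact (aeval_algHom_apply (levA u) (T (d : ℤ)) G).symm
      rw [h4, map_mul, map_pow, map_sub, map_mul, lev_C] at h2 h3
      rw [hx] at h2
      rw [← h2] at h3
      have h5 : lev (1 : ℂˣ) (T (d : ℤ)) = 1 := by simp
      have h6 : lev (-1 : ℂˣ) (T (2 * e)) = 1 := by
        rw [lev_T, zpow_mul]; simp
      have h7 : lev (1 : ℂˣ) (T (2 * e)) = 1 := by simp
      rw [h5, h6, h7] at h3
      linear_combination -h3
    have h2 := congrArg Units.val h1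
    simp only [Units.val_neg, Units.val_one] at h2
    norm_num at h2
  have hcop : IsCoprime m (d : ℤ) := by
    have h1 : IsCoprime m (2 : ℤ) :=
      (Int.prime_two.coprime_iff_not_dvd.mpr hodd).symm
    have h2 : (d : ℤ) = 2 * 2 := by rw [hd]; norm_num
    rw [h2]
    exact h1.mul_right h1
  have hm0 : m ≠ 0 := by rintro rfl; exact hm (dvd_zero _)
  -- division of `G` by `X ^ N`
  set R := G %ₘ X ^ N with hR
  set H := G /ₘ X ^ N with hH
  have hGRH : R + X ^ N * H = G := modByMonic_add_div G _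
  have h1 : T (d : ℤ) ^ N * (y - LaurentPolynomial.C c * T m -
      aeval (T (d : ℤ) : ℂ[T;T⁻¹]) H) = aeval (T (d : ℤ) : ℂ[T;T⁻¹]) R := by
    rw [← hGRH, map_add, map_mul, map_pow, aeval_X] at hG
    linear_combination hG
  have hTl : (T (d : ℤ) : ℂ[T;T⁻¹]) = toLaurent (X ^ d) := by rw [toLaurent_X_pow]
  by_cases hR0 : R = 0
  · -- `y = c T ^ m + H(x)`
    rw [hR0, map_zero] at h1
    have h2 := (mul_eq_zero.mp h1).resolve_left (pow_ne_zero N hTd)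
    have hmneg : m < 0 := by
      by_contra hcon
      rw [hTl] at hadj
      obtain ⟨k, rfl⟩ : ∃ k : ℕ, m = k := ⟨m.toNat, by omega⟩
      apply not_poly hadj (Polynomial.C c * X ^ k + H.comp (X ^ d))
      rw [map_add, map_mul, toLaurent_C, toLaurent_X_pow, ← aeval_toLaurent, ← hTl]
      linear_combination h2
    obtain ⟨l, hl⟩ : ∃ l : ℕ, m = -(l : ℤ) := ⟨(-m).toNat, by omega⟩
    have hld : Nat.Coprime l d := by
      rw [← Nat.isCoprime_iff_coprime]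
      rw [hl] at hcop
      exact IsCoprime.neg_left_iff _ _ |>.mp hcop
    by_cases hdl : d < l
    · set α := tri 1 0 c⁻¹ one_ne_zero (inv_ne_zero hc) (Polynomial.C (-c⁻¹) * H) with hα
      have hx1 : (φ.comp (α : P2 →ₐ[ℂ] P2)) (MvPolynomial.X 0) = T (d : ℤ) := by
        rw [hα, comp_tri_X0, h0, map_one, one_mul, map_zero, add_zero]
      have hy1 : (φ.comp (α : P2 →ₐ[ℂ] P2)) (MvPolynomial.X 1) = T (-(l : ℤ)) := by
        rw [hα, comp_tri_X1, h0, ← hy, map_mul, aeval_C, ← hl, map_neg]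
        have h3 : (LaurentPolynomial.C c⁻¹ : ℂ[T;T⁻¹]) * LaurentPolynomial.C c = 1 := by
          rw [← map_mul, inv_mul_cancel₀ hc, map_one]
        rw [← LaurentPolynomial.C_eq_algebraMap]
        linear_combination LaurentPolynomial.C c⁻¹ * h2 + T m * h3
      have hyP : ∀ (d l : ℕ), yPow d 0 (-(l : ℤ)) 0 = T (-(l : ℤ)) := by
        intro d l
        rw [yPow, map_zero, zero_add, zero_mul, Nat.cast_zero, neg_zero, T_zero, one_mul]
      apply Cls₄.of_comp α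
      exact cls₄_of_std (c := 1) (isStd_r₂ (n := 0) (by omega) (by omega) hld 0)
        (Or.inr (Or.inr (Or.inl ⟨0, l, 0, by omega, by rw [← hd]; exact hld,
          Or.inl ⟨rfl, rfl, by omega⟩, by rw [hd]⟩)))
        hx1 (by rw [hy1, hyP])
    · have hne : l ≠ d := by
        rintro rfl
        rw [Nat.coprime_self] at hld
        omega
      apply Cls.cls₄
      refine cls_of_X1_degree hφ (F := 1) (k := l) (by simp) (by omega) hc (H := H) ?_
      rw [h0, ← hy, map_one, one_mul, ← hl]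
      linear_combination h2
  · -- `R = X ^ e R₁`
    obtain ⟨R₁, hRR, hRd⟩ := exists_eq_pow_rootMultiplicity_mul_and_not_dvd R hR0 0
    set e := rootMultiplicity 0 R with he
    rw [map_zero, sub_zero] at hRR hRd
    have hR₁0 : R₁.coeff 0 ≠ 0 := by
      intro h; exact hRd (X_dvd_iff.mpr h)
    have hR₁ne : R₁ ≠ 0 := by rintro rfl; simp at hR₁0
    have hN1 : X ^ N ≠ (1 : ℂ[X]) := by
      intro h
      apply hR0
      rw [hR, h, modByMonic_one]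
    have hRlt : R.natDegree < N := by
      have := natDegree_modByMonic_lt G (monic_X_pow N) hN1
      rwa [natDegree_X_pow] at this
    have hRde : R.natDegree = e + R₁.natDegree := by
      rw [hRR, natDegree_mul (pow_ne_zero _ X_ne_zero) hR₁ne, natDegree_X_pow]
    obtain ⟨n, hn⟩ : ∃ n, N = e + n := ⟨N - e, by omega⟩
    have hn1 : R₁.natDegree < n := by omega
    have h2 : T (d : ℤ) ^ n * (y - LaurentPolynomial.C c * T m -
        aeval (T (d : ℤ) : ℂ[T;T⁻¹]) H) = aeval (T (d : ℤ) : ℂ[T;T⁻¹]) R₁ := by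
      rw [hRR, map_mul, map_pow, aeval_X, hn, pow_add, mul_assoc] at h1
      exact mul_left_cancel₀ (pow_ne_zero e hTd) h1
    set m' := m + n * d with hm'
    have hcop' : IsCoprime m' (d : ℤ) := by
      rw [hm']
      exact IsCoprime.add_mul_right_left hcop n
    have hm'0 : m' ≠ 0 := by
      intro h
      rw [h, isCoprime_zero_left, Int.isUnit_iff] at hcop'
      omega
    obtain ⟨s, hs0, hs⟩ := exists_zpow_eq hm'0 (div_ne_zero hR₁0 hc)
    set r := R₁.coeff 0 with hr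
    set g : ℂ[X] := Polynomial.C r⁻¹ * R₁.comp (Polynomial.C (s ^ d) * X) with hg
    have hg0 : g.coeff 0 = 1 := by
      rw [hg, coeff_C_mul, comp_C_mul_X_coeff, ← hr, pow_zero, mul_one, inv_mul_cancel₀ hR₁0]
    have hgd : g.natDegree < n := by
      rw [hg, natDegree_C_mul (inv_ne_zero hR₁0), natDegree_comp_scale _ (pow_ne_zero _ hs0)]
      exact hn1
    obtain ⟨κ, hκ⟩ : ∃ κ, κ = s ^ (n * d) * r⁻¹ := ⟨_, rfl⟩
    have hκ0 : κ ≠ 0 := by
      rw [hκ]; exact mul_ne_zero (pow_ne_zero _ hs0) (inv_ne_zero hR₁0)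
    set φ' := ((levA (sc s hs0)).comp φ).comp
      (tri (s ^ d)⁻¹ 0 κ (inv_ne_zero (pow_ne_zero _ hs0)) hκ0
        (Polynomial.C (-κ) * H) : P2 →ₐ[ℂ] P2) with hφ'
    have hx' : φ' (MvPolynomial.X 0) = T (d : ℤ) := by
      rw [hφ', comp_tri_X0, AlgHom.comp_apply, levA_apply, h0, map_zero, add_zero,
        lev_sc_T, ← mul_assoc, ← map_mul, zpow_natCast,
        inv_mul_cancel₀ (pow_ne_zero _ hs0), map_one, one_mul]
    have hy' : φ' (MvPolynomial.X 1) = yPow d n m' g := by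
      have h3 := congrArg (levA (sc s hs0)) h2
      rw [map_mul, map_pow, map_sub, map_sub, map_mul, ← aeval_algHom_apply,
        ← aeval_algHom_apply] at h3
      simp only [levA_apply, lev_C, lev_sc_T, zpow_natCast] at h3
      rw [← LaurentPolynomial.C_eq_algebraMap] at h3
      rw [hφ', comp_tri_X1, AlgHom.comp_apply, AlgHom.comp_apply, levA_apply, levA_apply, h0,
        lev_sc_T, zpow_natCast, ← hy, map_mul, aeval_C, ← LaurentPolynomial.C_eq_algebraMap]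
      apply mul_left_cancel₀ (pow_ne_zero n hTd)
      have h5 := yPow_eq d n m' g
      have h6 : aeval (T (d : ℤ) : ℂ[T;T⁻¹]) g = LaurentPolynomial.C r⁻¹ *
          aeval (LaurentPolynomial.C (s ^ d) * T (d : ℤ) : ℂ[T;T⁻¹]) R₁ := by
        rw [hg, map_mul, aeval_C, aeval_comp, map_mul, aeval_C, aeval_X,
          ← LaurentPolynomial.C_eq_algebraMap, ← LaurentPolynomial.C_eq_algebraMap]
      rw [h6] at h5
      have e1 : (LaurentPolynomial.C κ : ℂ[T;T⁻¹]) = LaurentPolynomial.C r⁻¹ *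
          LaurentPolynomial.C (s ^ d) ^ n := by
        rw [← map_pow, ← map_mul, hκ]; congr 1; rw [← pow_mul, mul_comm d n]; ring
      have e2 : (LaurentPolynomial.C r⁻¹ : ℂ[T;T⁻¹]) * LaurentPolynomial.C c *
          LaurentPolynomial.C (s ^ m) * LaurentPolynomial.C (s ^ d) ^ n = 1 := by
        rw [← map_pow, ← map_mul, ← map_mul, ← map_mul, ← map_one LaurentPolynomial.C]
        congr 1
        have e3 : s ^ m * (s ^ d) ^ n = s ^ m' := by
          rw [hm', zpow_add₀ hs0, ← pow_mul]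
          congr 1
          rw [← zpow_natCast]; congr 1; push_cast; ring
        calc r⁻¹ * c * s ^ m * (s ^ d) ^ n = r⁻¹ * c * (s ^ m * (s ^ d) ^ n) := by ring
          _ = 1 := by rw [e3, hs]; field_simp
      have e4 : (T m : ℂ[T;T⁻¹]) * T (d : ℤ) ^ n = T m' := by
        rw [T_pow, ← T_add]
      rw [map_neg]
      rw [e1]
      linear_combination LaurentPolynomial.C r⁻¹ * h3 - h5 + T m * T (d : ℤ) ^ n * e2 + e4
    apply Cls₄.of_aut (levA (sc s hs0)) (levA_sc_injective s hs0)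
    apply Cls₄.of_comp
    rw [← hφ']
    rcases lt_or_gt_of_ne hm'0 with hneg | hpos
    · obtain ⟨l, hl⟩ : ∃ l : ℕ, m' = -(l : ℤ) := ⟨(-m').toNat, by omega⟩
      have hld : Nat.Coprime l d := by
        rw [← Nat.isCoprime_iff_coprime]
        rw [hl] at hcop'
        exact IsCoprime.neg_left_iff _ _ |>.mp hcop'
      rw [hl] at hy'
      exact cls₄_of_std (c := 1) (isStd_r₂ (by omega) (by omega) hld g)
        (Or.inr (Or.inr (Or.inl ⟨n, l, g, by omega, by rw [← hd]; exact hld,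
          Or.inr ⟨hgd, hg0⟩, by rw [hd]⟩))) hx' hy'
    · obtain ⟨l, hl⟩ : ∃ l : ℕ, m' = (l : ℤ) := ⟨m'.toNat, by omega⟩
      have hld : Nat.Coprime l d := by
        rw [← Nat.isCoprime_iff_coprime]
        rw [hl] at hcop'
        exact hcop'
      rw [hl] at hy'
      refine cls₄_of_std (c := 0) (q := r₁ d n l g) ?_
        (Or.inr (Or.inl ⟨n, l, g, by omega, by rw [← hd]; exact hld, hgd, hg0, by rw [hd]⟩))
        hx' hy'
      rw [map_zero, sub_zero]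
      exact isStd_r₁ (by omega) (by omega) (by omega) hld hg0

end Pool.Agent.Helper34_CStar
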