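import Pool.Agent.Helper34_CStar.ClsQuad

/-!
# Embeddings with the coordinate `T ^ 3 - T ^ 2`
-/

namespace Pool.Agent.Helper34_CStar

open Polynomial LaurentPolynomial

/-- reduction of a polynomial modulo a quadratic polynomial depending on a parameter -/
theorem quad_reduce (σ π : ℂ[X]) (P : ℂ[X]) : ∃ A B : ℂ[X], ∀ u t : ℂ,
    t ^ 2 = σ.eval u * t - π.eval u → P.eval t = A.eval u * t + B.eval u ∧
      (2 * t = σ.eval u → P.derivative.eval t = A.eval u) := by
  induction P using Polynomial.induction_on with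
  | C a => exact ⟨0, Polynomial.C a, fun u t _ => ⟨by simp, by simp⟩⟩
  | add p q hp hq =>
    obtain ⟨A, B, h⟩ := hp
    obtain ⟨A', B', h'⟩ := hq
    refine ⟨A + A', B + B', fun u t ht => ?_⟩
    obtain ⟨h1, h2⟩ := h u t ht
    obtain ⟨h1', h2'⟩ := h' u t ht
    refine ⟨by rw [eval_add, h1, h1', eval_add, eval_add]; ring, fun h3 => ?_⟩
    rw [derivative_add, eval_add, h2 h3, h2' h3, eval_add]
  | monomial n a ih =>
    obtain ⟨A, B, h⟩ := ih
    refine ⟨A * σ + B, -A * π, fun u t ht => ?_⟩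
    obtain ⟨h1, h2⟩ := h u t ht
    have e : (Polynomial.C a * X ^ (n + 1) : ℂ[X]) = Polynomial.C a * X ^ n * X := by
      rw [pow_succ]; ring
    refine ⟨?_, fun h3 => ?_⟩
    · rw [e, eval_mul_X, h1]
      simp only [eval_add, eval_mul, eval_neg]
      linear_combination A.eval u * ht
    · rw [e, derivative_mul, derivative_X, mul_one, eval_add, eval_mul_X, h1, h2 h3]
      simp only [eval_add, eval_mul]
      linear_combination A.eval u * h3

/-- the polynomials `H_m` -/
noncomputable def Hm : ℕ → ℂ[X]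
  | 0 => 0
  | 1 => 0
  | 2 => 1
  | (n + 3) => Hm (n + 2) + X * Hm n

theorem Hm_zero : ∀ m, 2 ≤ m → (Hm m).eval 0 = 1
  | 0, h => by omega
  | 1, h => by omega
  | 2, _ => by simp [Hm]
  | (n + 3), _ => by
    rw [Hm, eval_add, eval_mul, eval_X, zero_mul, add_zero]
    exact Hm_zero (n + 2) (by omega)

theorem Hm_spec {t s u x : ℂ} (ht : t ^ 3 = t ^ 2 + x) (hs : s ^ 3 = s ^ 2 + x)
    (hu : u ^ 3 = u ^ 2 + x) : ∀ m, (t - s) * u ^ m + (s - u) * t ^ m + (u - t) * s ^ m =
      ((t - s) * u ^ 2 + (s - u) * t ^ 2 + (u - t) * s ^ 2) * (Hm m).eval x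
  | 0 => by simp [Hm]
  | 1 => by simp only [Hm, eval_zero]; ring
  | 2 => by simp only [Hm, eval_one]; ring
  | (n + 3) => by
    have h1 := Hm_spec ht hs hu (n + 2)
    have h2 := Hm_spec ht hs hu n
    rw [Hm, eval_add, eval_mul, eval_X, mul_add, ← h1]
    have h3 : ((t - s) * u ^ 2 + (s - u) * t ^ 2 + (u - t) * s ^ 2) * (x * (Hm n).eval x) =
        x * ((t - s) * u ^ n + (s - u) * t ^ n + (u - t) * s ^ n) := by rw [h2]; ring
    rw [h3]
    linear_combination (t - s) * u ^ n * hu + (s - u) * t ^ n * ht + (u - t) * s ^ n * hs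

/-- the polynomials `K_m` -/
noncomputable def Km : ℕ → ℂ[X]
  | 0 => 0
  | 1 => 1
  | 2 => 0
  | (n + 3) => X ^ 2 * Km n - X * Km (n + 1)

theorem Km_spec {p q r x : ℂ} (hp : p ^ 3 = x ^ 2 - x * p) (hq : q ^ 3 = x ^ 2 - x * q)
    (hr : r ^ 3 = x ^ 2 - x * r) {a b c : ℂ} (h0 : a + b + c = 0)
    (h2 : a * p ^ 2 + b * q ^ 2 + c * r ^ 2 = 0) : ∀ m, a * p ^ m + b * q ^ m + c * r ^ m =
      (a * p + b * q + c * r) * (Km m).eval x
  | 0 => by simp [Km, h0]
  | 1 => by simp only [Km, eval_one]; ring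
  | 2 => by simp [Km, h2]
  | (n + 3) => by
    have h1 := Km_spec hp hq hr h0 h2 (n + 1)
    have h3 := Km_spec hp hq hr h0 h2 n
    rw [Km, eval_sub, eval_mul, eval_mul, eval_X, eval_pow, eval_X]
    have h4 : (a * p + b * q + c * r) * (x ^ 2 * (Km n).eval x - x * (Km (n + 1)).eval x) =
        x ^ 2 * (a * p ^ n + b * q ^ n + c * r ^ n) -
        x * (a * p ^ (n + 1) + b * q ^ (n + 1) + c * r ^ (n + 1)) := by rw [h1, h3]; ring
    rw [h4]
    linear_combination a * p ^ n * hp + b * q ^ n * hq + c * r ^ n * hr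

/-- the leading coefficients of the `K_m` -/
theorem Km_lead (j : ℕ) : (Km (3 * (j + 1))).natDegree ≤ 2 * j + 1 ∧
    (Km (3 * (j + 1))).coeff (2 * j + 1) = -((j : ℂ) + 1) ∧
    (Km (3 * (j + 1) + 1)).natDegree ≤ 2 * j + 2 ∧ (Km (3 * (j + 1) + 1)).coeff (2 * j + 2) = 1 ∧
    (Km (3 * (j + 1) + 2)).natDegree ≤ 2 * j + 2 ∧
    (Km (3 * (j + 1) + 2)).coeff (2 * j + 2) = ((j : ℂ) + 1) * (j + 2) / 2 := by
  induction j with
  | zero =>
    have h3 : Km 3 = -X := by simp [Km]
    have h4 : Km 4 = X ^ 2 := by simp [Km]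
    have h5 : Km 5 = X ^ 2 := by
      have : Km 5 = X ^ 2 * Km 2 - X * Km 3 := rfl
      rw [this, h3]
      simp only [Km]
      ring
    norm_num [h3, h4, h5]
  | succ j ih =>
    obtain ⟨h1, h2, h3, h4, h5, h6⟩ := ih
    have e3 : 3 * (j + 1 + 1) = 3 * (j + 1) + 3 := by ring
    have k3 : Km (3 * (j + 1) + 3) = X ^ 2 * Km (3 * (j + 1)) - X * Km (3 * (j + 1) + 1) := rfl
    have k4 : Km (3 * (j + 1) + 3 + 1) =
        X ^ 2 * Km (3 * (j + 1) + 1) - X * Km (3 * (j + 1) + 2) := rfl
    have k5 : Km (3 * (j + 1) + 3 + 2) =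
        X ^ 2 * Km (3 * (j + 1) + 2) - X * Km (3 * (j + 1) + 3) := rfl
    have hc2 : ∀ (P : ℂ[X]) (n : ℕ), (X ^ 2 * P).coeff (n + 2) = P.coeff n := by
      intro P n; rw [coeff_X_pow_mul]
    have hd2 : ∀ (P : ℂ[X]) (n : ℕ), P.natDegree ≤ n → (X ^ 2 * P).natDegree ≤ n + 2 := by
      intro P n hP
      refine natDegree_mul_le.trans ?_
      rw [natDegree_X_pow]; omega
    have hd1 : ∀ (P : ℂ[X]) (n : ℕ), P.natDegree ≤ n → (X * P).natDegree ≤ n + 1 := by
      intro P n hP
      refine natDegree_mul_le.trans ?_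
      rw [natDegree_X]; omega
    have hds : ∀ (P Q : ℂ[X]) (n : ℕ), P.natDegree ≤ n → Q.natDegree ≤ n →
        (P - Q).natDegree ≤ n := by
      intro P Q n hP hQ
      exact (natDegree_sub_le _ _).trans (max_le hP hQ)
    have e6 : 2 * (j + 1) + 1 = (2 * j + 1) + 2 := by ring
    have e7 : 2 * (j + 1) + 2 = (2 * j + 2) + 2 := by ring
    have d3 : (Km (3 * (j + 1) + 3)).natDegree ≤ (2 * j + 1) + 2 := by
      rw [k3]
      exact hds _ _ _ (hd2 _ _ h1) ((hd1 _ _ h3))
    have c3 : (Km (3 * (j + 1) + 3)).coeff ((2 * j + 1) + 2) = -((j : ℂ) + 1) - 1 := by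
      rw [k3, coeff_sub, hc2, h2, coeff_X_mul, h4]
    rw [e3, e6, e7]
    refine ⟨d3, ?_, ?_, ?_, ?_, ?_⟩
    · rw [c3]; push_cast; ring
    · rw [k4]
      exact hds _ _ _ (hd2 _ _ h3) ((hd1 _ _ h5).trans (by omega))
    · rw [k4, coeff_sub, hc2, h4, coeff_X_mul, coeff_eq_zero_of_natDegree_lt (by omega), sub_zero]
    · rw [k5]
      exact hds _ _ _ (hd2 _ _ h5) ((hd1 _ _ d3))
    · rw [k5, coeff_sub, hc2, h6, coeff_X_mul, c3]; push_cast; ring

theorem Km_ne_zero {m : ℕ} (h1 : 1 ≤ m) (h2 : m ≠ 2) : Km m ≠ 0 := by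
  by_cases h : m = 1
  · subst h; simp [Km]
  obtain ⟨j, rfl | rfl | rfl⟩ : ∃ j, m = 3 * (j + 1) ∨ m = 3 * (j + 1) + 1 ∨
      m = 3 * (j + 1) + 2 := ⟨m / 3 - 1, by omega⟩
  · intro h0
    have := (Km_lead j).2.1
    rw [h0, coeff_zero] at this
    have h3 : ((j : ℂ) + 1) ≠ 0 := by exact_mod_cast Nat.succ_ne_zero j
    exact h3 (by linear_combination this)
  · intro h0
    have := (Km_lead j).2.2.2.1
    rw [h0, coeff_zero] at this
    exact zero_ne_one this
  · intro h0
    have := (Km_lead j).2.2.2.2.2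
    rw [h0, coeff_zero] at this
    have h3 : ((j : ℂ) + 1) ≠ 0 := by exact_mod_cast Nat.succ_ne_zero j
    have h4 : ((j : ℂ) + 2) ≠ 0 := by exact_mod_cast Nat.succ_ne_zero (j + 1)
    have h5 := mul_ne_zero h3 h4
    exact h5 (by linear_combination -2 * this)

/-- the other two points of a fibre -/
theorem exists_pair (u : ℂ) : ∃ t s : ℂ, t + s = 1 - u ∧ t * s = u ^ 2 - u := by
  obtain ⟨r, hr⟩ := IsAlgClosed.exists_pow_nat_eq ((1 - u) ^ 2 - 4 * (u ^ 2 - u))
    (by norm_num : 0 < 2)
  refine ⟨(1 - u + r) / 2, (1 - u - r) / 2, by ring, ?_⟩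
  linear_combination (-1 / 4) * hr

/-- a polynomial function of `u ^ 3 - u ^ 2` vanishing at all good `u` is zero -/
theorem eq_zero_of_good (P : ℂ[X]) (h : ∀ t s u : ℂ, t + s = 1 - u → t * s = u ^ 2 - u →
    u ^ 3 - u ^ 2 ≠ 0 → (t - s) * (s - u) * (u - t) ≠ 0 → P.eval (u ^ 3 - u ^ 2) = 0) :
    P = 0 := by
  have h1 : P.comp (X ^ 3 - X ^ 2) = 0 := by
    apply eq_zero_of_infinite_isRoot
    have hfin : ({0, 1, -1 / 3, 2 / 3} : Set ℂ).Finite := by simp
    apply (hfin.infinite_compl).mono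
    intro u hu
    simp only [Set.mem_compl_iff, Set.mem_insert_iff, Set.mem_singleton_iff, not_or] at hu
    obtain ⟨hu0, hu1, hu2, hu3⟩ := hu
    rw [Set.mem_ofPred_eq, IsRoot.def, eval_comp]
    obtain ⟨t, s, hts, hp⟩ := exists_pair u
    simp only [eval_sub, eval_pow, eval_X]
    apply h t s u hts hp
    · intro h0
      have : u ^ 2 * (u - 1) = 0 := by linear_combination h0
      rcases mul_eq_zero.mp this with h2 | h2
      · exact hu0 (pow_eq_zero_iff (by norm_num) |>.mp h2)
      · exact hu1 (sub_eq_zero.mp h2)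
    · intro h0
      rcases mul_eq_zero.mp h0 with h2 | h2
      · rcases mul_eq_zero.mp h2 with h3 | h3
        · have h4 : (1 - u) * (1 + 3 * u) = 0 := by
            linear_combination (t - s) * h3 - (t + s + 1 - u) * hts + 4 * hp
          rcases mul_eq_zero.mp h4 with h5 | h5
          · exact hu1 (by linear_combination -h5)
          · exact hu2 (by linear_combination h5 / 3)
        · have h4 : u * (3 * u - 2) = 0 := by
            linear_combination (u - t) * (-h3) + u * hts - hp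
          rcases mul_eq_zero.mp h4 with h5 | h5
          · exact hu0 h5
          · exact hu3 (by linear_combination h5 / 3)
      · have h4 : u * (3 * u - 2) = 0 := by
          linear_combination (u - s) * h2 + u * hts - hp
        rcases mul_eq_zero.mp h4 with h5 | h5
        · exact hu0 h5
        · exact hu3 (by linear_combination h5 / 3)
  rw [comp_eq_zero_iff] at h1
  rcases h1 with h1 | ⟨_, h2⟩
  · exact h1
  · exfalso
    have : (X ^ 3 - X ^ 2 : ℂ[X]).natDegree = 3 := by compute_degree!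
    rw [h2] at this
    simp at this

/-- The structure of the second coordinate. -/
theorem cubic_structure {Y : ℂ[X]} {k : ℕ} (hk : 1 ≤ k) (hY : Y.coeff 0 ≠ 0)
    (hinj : ∀ t s : ℂ, t ≠ 0 → s ≠ 0 → (X ^ 3 - X ^ 2 : ℂ[X]).eval t =
      (X ^ 3 - X ^ 2 : ℂ[X]).eval s → s ^ k * Y.eval t = t ^ k * Y.eval s → t = s)
    (himm : ∀ t : ℂ, t ≠ 0 → (X ^ 3 - X ^ 2 : ℂ[X]).derivative.eval t = 0 →
      t * Y.derivative.eval t - k * Y.eval t ≠ 0) :
    ∃ (c : ℂ) (b : ℕ), c ≠ 0 ∧ (k = 2 * b ∨ k = 2 * b + 1 ∨ k + 2 = 2 * b) ∧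
      ∀ t s u : ℂ, t + s = 1 - u → t * s = u ^ 2 - u →
        s ^ k * Y.eval t - t ^ k * Y.eval s = c * (t - s) * (u - 1) ^ b := by
  obtain ⟨A, B, hAB⟩ := quad_reduce (1 - X) (X ^ 2 - X) Y
  obtain ⟨A', B', hAB'⟩ := quad_reduce (1 - X) (X ^ 2 - X) (X ^ k)
  set N := A * B' - B * A' with hN
  have hroot : ∀ t s u : ℂ, t + s = 1 - u → t * s = u ^ 2 - u →
      t ^ 2 = (1 - X : ℂ[X]).eval u * t - (X ^ 2 - X : ℂ[X]).eval u := by
    intro t s u h1 h2
    simp only [eval_sub, eval_one, eval_X, eval_pow]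
    linear_combination t * h1 - h2
  have key : ∀ t s u : ℂ, t + s = 1 - u → t * s = u ^ 2 - u →
      s ^ k * Y.eval t - t ^ k * Y.eval s = (t - s) * N.eval u := by
    intro t s u h1 h2
    have ht := hroot t s u h1 h2
    have hs := hroot s t u (by rw [add_comm]; exact h1) (by rw [mul_comm]; exact h2)
    have e1 := (hAB u t ht).1
    have e2 := (hAB u s hs).1
    have e3 := (hAB' u t ht).1
    have e4 := (hAB' u s hs).1
    rw [eval_pow, eval_X] at e3 e4
    rw [e1, e2, e3, e4, hN, eval_sub, eval_mul, eval_mul]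
    ring
  have hN0 : N.eval 0 = -Y.coeff 0 := by
    have := key 1 0 0 (by ring) (by ring)
    rw [zero_pow (by omega), one_pow, zero_mul, ← coeff_zero_eq_eval_zero] at this
    linear_combination -this
  have hNne : N ≠ 0 := by
    intro h
    rw [h, eval_zero] at hN0
    exact hY (by linear_combination hN0)
  obtain ⟨c, b, hc, hNe⟩ := eq_of_root hNne (a := 1) (by
    intro u hu
    by_contra hu1
    by_cases hu0 : u = 0
    · subst hu0
      rw [hu] at hN0
      exact hY (by linear_combination hN0)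
    · obtain ⟨t, s, hts, hp⟩ := exists_pair u
      have hp0 : t * s ≠ 0 := by
        rw [hp]
        intro h0
        have : u * (u - 1) = 0 := by linear_combination h0
        rcases mul_eq_zero.mp this with h2 | h2
        · exact hu0 h2
        · exact hu1 (sub_eq_zero.mp h2)
      have ht0 : t ≠ 0 := left_ne_zero_of_mul hp0
      have hs0 : s ≠ 0 := right_ne_zero_of_mul hp0
      have h1 := key t s u hts hp
      rw [hu, mul_zero] at h1
      have h2 : t = s := by
        apply hinj t s ht0 hs0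
        · simp only [eval_sub, eval_pow, eval_X]
          have e1 := hroot t s u hts hp
          have e2 := hroot s t u (by rw [add_comm]; exact hts) (by rw [mul_comm]; exact hp)
          simp only [eval_sub, eval_one, eval_X, eval_pow] at e1 e2
          linear_combination (t - u) * e1 - (s - u) * e2
        · linear_combination h1
      subst h2
      have h3 : 2 * t = (1 - X : ℂ[X]).eval u := by
        simp only [eval_sub, eval_one, eval_X]; linear_combination hts
      have ht := hroot t t u hts hp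
      obtain ⟨e1, e1'⟩ := hAB u t ht
      obtain ⟨e2, e2'⟩ := hAB' u t ht
      have e1' := e1' h3
      have e2' := e2' h3
      apply himm t ht0
      · simp only [derivative_sub, derivative_X_pow, eval_sub, eval_mul, eval_pow, eval_X,
          eval_natCast, map_natCast]
        norm_num
        have hu' : u = 1 - 2 * t := by linear_combination hts
        rw [hu'] at hp
        linear_combination -hp
      · obtain ⟨k', rfl⟩ : ∃ k', k = k' + 1 := ⟨k - 1, by omega⟩
        rw [derivative_X_pow, eval_mul, eval_pow, eval_X, Nat.add_sub_cancel, map_natCast,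
          eval_natCast] at e2'
        rw [eval_pow, eval_X] at e2
        rw [hN, eval_sub, eval_mul, eval_mul, ← e1', ← e2'] at hu
        have e3 : B.eval u = Y.eval t - Y.derivative.eval t * t := by
          rw [e1, e1']; ring
        have e4 : B'.eval u = t ^ (k' + 1) - ((k' + 1 : ℕ) : ℂ) * t ^ k' * t := by
          rw [e2, e2']; ring
        rw [e3, e4] at hu
        have e5 : t ^ k' * (t * Y.derivative.eval t - ((k' + 1 : ℕ) : ℂ) * Y.eval t) = 0 := by
          linear_combination hu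
        exact (mul_eq_zero.mp e5).resolve_left (pow_ne_zero _ ht0))
  have key2 : ∀ t s u : ℂ, t + s = 1 - u → t * s = u ^ 2 - u →
        s ^ k * Y.eval t - t ^ k * Y.eval s = c * (t - s) * (u - 1) ^ b := by
    intro t s u h1 h2
    rw [key t s u h1 h2, hNe]
    simp only [eval_mul, eval_C, eval_pow, eval_sub, eval_X]
    ring
  -- the cocycle relation
  have hcyc : ∀ t s u : ℂ, t + s = 1 - u → t * s = u ^ 2 - u →
      (t - s) * (u ^ k * (u - 1) ^ b) + (s - u) * (t ^ k * (t - 1) ^ b) +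
        (u - t) * (s ^ k * (s - 1) ^ b) = 0 := by
    intro t s u h1 h2
    have e1 := key2 t s u h1 h2
    have e2 := key2 s u t (by linear_combination h1) (by linear_combination h2 + (u - t) * h1)
    have e3 := key2 u t s (by linear_combination h1) (by linear_combination h2 + (u - s) * h1)
    apply mul_left_cancel₀ hc
    linear_combination -(u ^ k) * e1 - t ^ k * e2 - s ^ k * e3
  have hx : ∀ t s u : ℂ, t + s = 1 - u → t * s = u ^ 2 - u → t ^ 3 = t ^ 2 + (u ^ 3 - u ^ 2) := by
    intro t s u h1 h2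
    have e1 := hroot t s u h1 h2
    simp only [eval_sub, eval_one, eval_X, eval_pow] at e1
    linear_combination (t - u) * e1
  refine ⟨c, b, hc, ?_, key2⟩
  by_cases hkb : 2 * b ≤ k
  · obtain ⟨m, hm⟩ : ∃ m, k = 2 * b + m := ⟨k - 2 * b, by omega⟩
    by_cases hm2 : 2 ≤ m
    · exfalso
      have h1 : Hm m = 0 := by
        apply eq_zero_of_good
        intro t s u hts hp hx0 hV
        have e1 := hcyc t s u hts hp
        have ht := hx t s u hts hp
        have hs := hx s t u (by rw [add_comm]; exact hts) (by rw [mul_comm]; exact hp)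
        have hp3 : ∀ r : ℂ, r ^ 3 = r ^ 2 + (u ^ 3 - u ^ 2) →
            r ^ k * (r - 1) ^ b = (u ^ 3 - u ^ 2) ^ b * r ^ m := by
          intro r hr
          have : u ^ 3 - u ^ 2 = r ^ 2 * (r - 1) := by linear_combination -hr
          rw [this, hm, mul_pow, ← pow_mul, pow_add]; ring
        rw [hp3 t ht, hp3 s hs, hp3 u (by ring)] at e1
        have e2 : (u ^ 3 - u ^ 2) ^ b * ((t - s) * u ^ m + (s - u) * t ^ m + (u - t) * s ^ m) =
            0 := by linear_combination e1
        have e3 := (mul_eq_zero.mp e2).resolve_left (pow_ne_zero _ hx0)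
        rw [Hm_spec ht hs (by ring : u ^ 3 = u ^ 2 + (u ^ 3 - u ^ 2)) m] at e3
        refine (mul_eq_zero.mp e3).resolve_left ?_
        intro h0
        apply hV
        linear_combination -h0
      have h2 := Hm_zero m hm2
      rw [h1, eval_zero] at h2
      exact zero_ne_one h2
    · omega
  · obtain ⟨m, hm⟩ : ∃ m, k + m = 2 * b := ⟨2 * b - k, by omega⟩
    by_cases hm2 : m = 2
    · omega
    · exfalso
      apply Km_ne_zero (m := m) (by omega) hm2
      apply eq_zero_of_good
      intro t s u hts hp hx0 hV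
      have e1 := hcyc t s u hts hp
      have ht := hx t s u hts hp
      have hs := hx s t u (by rw [add_comm]; exact hts) (by rw [mul_comm]; exact hp)
      have he2 : t * s + s * u + u * t = 0 := by linear_combination u * hts + hp
      have hxe : t * s * u = u ^ 3 - u ^ 2 := by rw [hp]; ring
      have hp3 : ∀ r q : ℂ, r ^ 3 = r ^ 2 + (u ^ 3 - u ^ 2) → q * r = u ^ 3 - u ^ 2 →
          (u ^ 3 - u ^ 2) ^ m * (r ^ k * (r - 1) ^ b) = (u ^ 3 - u ^ 2) ^ b * q ^ m := by
        intro r q hr hq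
        have e : u ^ 3 - u ^ 2 = r ^ 2 * (r - 1) := by linear_combination -hr
        have e5 : (u ^ 3 - u ^ 2) ^ b = r ^ k * r ^ m * (r - 1) ^ b := by
          rw [e, mul_pow, ← pow_mul, ← hm, pow_add]
        rw [e5, ← hq, mul_pow]; ring
      have f1 := hp3 u (t * s) (by ring) hxe
      have f2 := hp3 t (s * u) ht (by linear_combination hxe)
      have f3 := hp3 s (u * t) hs (by linear_combination hxe)
      have e2 : (u ^ 3 - u ^ 2) ^ b * ((t - s) * (t * s) ^ m + (s - u) * (s * u) ^ m +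
          (u - t) * (u * t) ^ m) = 0 := by
        linear_combination (u ^ 3 - u ^ 2) ^ m * e1 - (t - s) * f1 - (s - u) * f2 - (u - t) * f3
      have e3 := (mul_eq_zero.mp e2).resolve_left (pow_ne_zero _ hx0)
      obtain ⟨x, hxd⟩ : ∃ x, x = u ^ 3 - u ^ 2 := ⟨_, rfl⟩
      rw [← hxd] at hxe ⊢
      have g : ∀ p q r : ℂ, p + q + r = 1 → p * q + q * r + r * p = 0 → p * q * r = x →
          (p * q) ^ 3 = x ^ 2 - x * (p * q) := by
        intro p q r h1 h2 h3
        rw [← h3]
        linear_combination (p * q) ^ 2 * h2 - (p * q) ^ 2 * r * h1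
      rw [Km_spec (x := x) (g t s u (by linear_combination hts) he2 hxe)
        (g s u t (by linear_combination hts) (by linear_combination he2)
          (by linear_combination hxe))
        (g u t s (by linear_combination hts) (by linear_combination he2)
          (by linear_combination hxe)) (by ring)
        (by linear_combination (-(t - s) * (s - u) * (u - t)) * he2) m] at e3
      refine (mul_eq_zero.mp e3).resolve_left ?_
      intro h0
      apply hV
      linear_combination -h0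

/-- **The class of embeddings having `T ^ 3 - T ^ 2` as a coordinate.** -/
theorem cls_cubic {φ : P2 →ₐ[ℂ] ℂ[T;T⁻¹]} (hφ : Function.Surjective φ)
    (h0 : φ (MvPolynomial.X 0) = T 1 ^ 3 - T 1 ^ 2) : Cls φ := by
  have hadj := adjoin_of_surjective hφ
  set f : ℂ[X] := X ^ 3 - X ^ 2 with hf
  have hfm : f.Monic := by rw [hf]; monicity!
  have hfd : f.natDegree = 3 := by rw [hf]; compute_degree!
  obtain ⟨x, hxd⟩ : ∃ x, x = (T 1 ^ 3 - T 1 ^ 2 : ℂ[T;T⁻¹]) := ⟨_, rfl⟩
  have hx : x = toLaurent f := by rw [hxd]; simp [hf]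
  have h0' : φ (MvPolynomial.X 0) = toLaurent f := by rw [h0, ← hx, hxd]
  rw [h0'] at hadj
  obtain ⟨Y, k, hk, hY, hy⟩ := exists_pole hadj
  rw [hy] at hadj
  obtain ⟨c, b, hc, hcase, hkey⟩ := cubic_structure hk hY (geom_inj hadj) (geom_imm hk hadj)
  -- the polynomial `P₀`
  obtain ⟨P₀, hP₀⟩ : ∃ P₀ : ℂ[X], P₀ = (X ^ 2 - X) ^ k * Y := ⟨_, rfl⟩
  have hL : x ^ k * φ (MvPolynomial.X 1) = toLaurent P₀ := by
    have e2 : (T 1 : ℂ[T;T⁻¹]) ^ k * T (-(k : ℤ)) = 1 := by
      rw [← T_natCast_pow, ← T_add]; simp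
    have e3 : x ^ k = (T 1 ^ 2 - T 1) ^ k * T 1 ^ k := by
      rw [← mul_pow, hxd]; congr 1; ring
    rw [hy, hP₀, e3, map_mul, map_pow, map_sub, map_pow, toLaurent_X]
    linear_combination (T 1 ^ 2 - T 1) ^ k * toLaurent Y * e2
  have hdiff : ∀ t s u : ℂ, t + s = 1 - u → t * s = u ^ 2 - u →
      P₀.eval t - P₀.eval s = c * (t - s) * (u ^ k * (u - 1) ^ b) := by
    intro t s u h1 h2
    have e1 := hkey t s u h1 h2
    have e2 : t ^ 2 - t = s * u := by linear_combination -h2 - (u - t) * h1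
    have e3 : s ^ 2 - s = t * u := by linear_combination -h2 - (u - s) * h1
    rw [hP₀]
    simp only [eval_mul, eval_pow, eval_sub, eval_X]
    rw [e2, e3, mul_pow, mul_pow]
    linear_combination u ^ k * e1
  have htriple : ∀ t s : ℂ, f.eval t = f.eval s → t ≠ s → ∃ u : ℂ, t + s = 1 - u ∧
      t * s = u ^ 2 - u ∧ f.eval t = u ^ 3 - u ^ 2 := by
    intro t s hts hne
    simp only [hf, eval_sub, eval_pow, eval_X] at hts ⊢
    have h1 : t ^ 2 + t * s + s ^ 2 - (t + s) = 0 := by
      have : (t - s) * (t ^ 2 + t * s + s ^ 2 - (t + s)) = 0 := by linear_combination hts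
      exact (mul_eq_zero.mp this).resolve_left (sub_ne_zero.mpr hne)
    refine ⟨1 - t - s, by ring, by linear_combination -h1, ?_⟩
    linear_combination (2 * t + s - 1) * h1
  -- symmetric polynomials
  have hsym : ∀ Q : ℂ[X], (∀ t s u : ℂ, t + s = 1 - u → t * s = u ^ 2 - u →
      c * (t - s) * (u ^ k * (u - 1) ^ b) = Q.eval t - Q.eval s) →
      ∃ G : ℂ[X], P₀ = Q + G.comp f := by
    intro Q hQ
    obtain ⟨G, hG⟩ := exists_comp hfm (by omega) (P₀ - Q) 0 (by
      intro t s hts _
      by_cases hne : t = s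
      · rw [hne]
      obtain ⟨u, h1, h2, _⟩ := htriple t s hts hne
      have e1 := hdiff t s u h1 h2
      have e2 := hQ t s u h1 h2
      rw [eval_sub, eval_sub]
      linear_combination e1 + e2)
    exact ⟨G, by rw [← hG]; ring⟩
  have hxcomp : ∀ G : ℂ[X], toLaurent (G.comp f) = aeval x G := by
    intro G; rw [← aeval_toLaurent, hx]
  have hCi : ∀ a : ℂ, a ≠ 0 → (LaurentPolynomial.C a⁻¹ : ℂ[T;T⁻¹]) * LaurentPolynomial.C a = 1 := by
    intro a ha
    rw [← map_mul, inv_mul_cancel₀ ha, map_one]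
  have hx1 : x₀ 1 = x := by rw [hxd]; rfl
  have hx2 : x₀ 2 = x := by rw [hxd]; rfl
  have hx3 : x₀ 3 = x := by rw [hxd]; rfl
  have hxne : x ≠ 0 := by rw [← hx1]; exact x₀_ne_zero 1
  have hTx : x = (T 1 - 1) * T 1 ^ 2 := by rw [hxd]; ring
  have hTT := T_mul_T_neg
  rcases hcase with hkb | hkb | hkb
  · -- `w = T`
    obtain ⟨G, hG⟩ := hsym (Polynomial.C c * X * f ^ b) (by
      intro t s u h1 h2
      have e1 : t ^ 2 - t = s * u := by linear_combination -h2 - (u - t) * h1
      have e2 : s ^ 2 - s = t * u := by linear_combination -h2 - (u - s) * h1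
      have e3 : t ^ 3 - t ^ 2 = u ^ 2 * (u - 1) := by linear_combination t * e1 + u * h2
      have e4 : s ^ 3 - s ^ 2 = u ^ 2 * (u - 1) := by linear_combination s * e2 + u * h2
      simp only [hf, eval_mul, eval_C, eval_X, eval_pow, eval_sub]
      rw [e3, e4, hkb, mul_pow, ← pow_mul]; ring)
    have hN : x₀ 1 ^ k * φ (MvPolynomial.X 1) =
        LaurentPolynomial.C c * x₀ 1 ^ (k - b) * w₀ 1 + aeval (x₀ 1) G := by
      have e1 : k - b = b := by omega
      rw [hx1, hL, hG, map_add, hxcomp, e1, map_mul, map_mul, map_pow, toLaurent_C, toLaurent_X,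
        ← hx]
      simp only [w₀]
      ring
    obtain ⟨a, H, τ, ha, hτd, hτ0, hdvd, hn⟩ := exists_norm 1 (by omega) (by omega) hc hN
    by_cases hb2 : 2 ≤ b
    · exact cls_of_norm 1 (by rw [h0, hx1, hxd]) (by omega) (Or.inr ⟨by decide, hb2⟩) ha hτd hτ0
        hdvd hn
    · obtain rfl : b = 1 := by omega
      have h1 := norm_one 1 hτd hτ0 hn
      rw [hx1] at h1
      have h2 : LaurentPolynomial.C a * φ (MvPolynomial.X 1) + aeval x H = T (-2) := by
        apply mul_left_cancel₀ hxne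
        rw [h1, hTx]
        have e4 : (T (-2) : ℂ[T;T⁻¹]) = T (-1) ^ 2 := T_neg_natCast_pow 2
        rw [e4]
        simp only [w₀]
        linear_combination (-(T 1 - 1)) * (T 1 * T (-1) + 1) * hTT
      refine cls_of_X1 hφ (n := 2) (by omega) (inv_ne_zero ha)
        (H := Polynomial.C (-a⁻¹) * H) ?_
      have e5 : ((-((2 : ℕ) : ℤ))) = (-2 : ℤ) := by norm_num
      rw [h0, ← hxd, map_mul, aeval_C, ← LaurentPolynomial.C_eq_algebraMap, map_neg, e5]
      linear_combination LaurentPolynomial.C a⁻¹ * h2 - φ (MvPolynomial.X 1) * hCi a ha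
  · -- `w = 1 / T`
    obtain ⟨G, hG⟩ := hsym (Polynomial.C (-c) * (X ^ 2 - X) * f ^ b) (by
      intro t s u h1 h2
      have e1 : t ^ 2 - t = s * u := by linear_combination -h2 - (u - t) * h1
      have e2 : s ^ 2 - s = t * u := by linear_combination -h2 - (u - s) * h1
      have e3 : t ^ 3 - t ^ 2 = u ^ 2 * (u - 1) := by linear_combination t * e1 + u * h2
      have e4 : s ^ 3 - s ^ 2 = u ^ 2 * (u - 1) := by linear_combination s * e2 + u * h2
      simp only [hf, eval_mul, eval_C, eval_X, eval_pow, eval_sub]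
      rw [e3, e4, e1, e2, hkb, mul_pow, ← pow_mul]; ring)
    have hN : x₀ 3 ^ k * φ (MvPolynomial.X 1) =
        LaurentPolynomial.C (-c) * x₀ 3 ^ (k - b) * w₀ 3 + aeval (x₀ 3) G := by
      have e1 : k - b = b + 1 := by omega
      rw [hx3, hL, hG, map_add, hxcomp, e1, map_mul, map_mul, map_pow, toLaurent_C, map_sub,
        map_pow, toLaurent_X, ← hx, pow_succ]
      have e2 : x * w₀ 3 = T 1 ^ 2 - T 1 := by
        rw [hTx]
        simp only [w₀]
        linear_combination (T 1 - 1) * T 1 * hTT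
      linear_combination (-(LaurentPolynomial.C (-c) * x ^ b)) * e2
    have hc' : -c ≠ 0 := neg_ne_zero.mpr hc
    by_cases hb0 : b = 0
    · subst hb0
      obtain rfl : k = 1 := by omega
      rw [hx3, Nat.sub_zero, pow_one] at hN
      have hw : w₀ 3 = T (-1) := rfl
      rw [hw] at hN
      have hG1 : X ^ 1 ∣ G := by
        apply dvd_of_aeval_dvd hxne (a := 1) (by rw [← hx1]; exact lev_x₀_one 1)
        refine ⟨φ (MvPolynomial.X 1) - LaurentPolynomial.C (-c) * T (-1), ?_⟩
        rw [pow_one]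
        linear_combination -hN
      obtain ⟨G', hG'⟩ := hG1
      rw [hG', pow_one, map_mul, aeval_X] at hN
      refine cls_of_X1 hφ (n := 1) (by omega) hc' (H := G') ?_
      rw [h0, ← hxd, Nat.cast_one]
      apply mul_left_cancel₀ hxne
      linear_combination hN
    obtain ⟨a, H, τ, ha, hτd, hτ0, hdvd, hn⟩ := exists_norm 3 (by omega) (by omega) hc' hN
    by_cases hb2 : 2 ≤ b
    · exact cls_of_norm 3 (by rw [h0, hx3, hxd]) (by omega) (Or.inr ⟨by decide, hb2⟩) ha hτd hτ0
        hdvd hn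
    · obtain rfl : b = 1 := by omega
      have h1 := norm_one 3 hτd hτ0 hn
      rw [hx3] at h1
      have h2 : LaurentPolynomial.C a * φ (MvPolynomial.X 1) + aeval x H = -T (-3) := by
        apply mul_left_cancel₀ hxne
        rw [h1, hTx]
        have e4 : (T (-3) : ℂ[T;T⁻¹]) = T (-1) ^ 3 := T_neg_natCast_pow 3
        rw [e4]
        simp only [w₀]
        linear_combination ((T 1 - 1) * T (-1) * (T 1 * T (-1) + 1) + 1) * hTT
      refine cls_of_X1 hφ (n := 3) (by omega) (a := -a⁻¹) (neg_ne_zero.mpr (inv_ne_zero ha))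
        (H := Polynomial.C (-a⁻¹) * H) ?_
      have e5 : ((-((3 : ℕ) : ℤ))) = (-3 : ℤ) := by norm_num
      rw [h0, ← hxd, map_mul, aeval_C, ← LaurentPolynomial.C_eq_algebraMap, map_neg, e5]
      linear_combination LaurentPolynomial.C a⁻¹ * h2 - φ (MvPolynomial.X 1) * hCi a ha
  · -- `w = T ^ 2`
    obtain ⟨b', rfl⟩ : ∃ b', b = b' + 1 := ⟨b - 1, by omega⟩
    obtain ⟨G, hG⟩ := hsym (Polynomial.C (-c) * X ^ 2 * f ^ b') (by
      intro t s u h1 h2
      have e1 : t ^ 2 - t = s * u := by linear_combination -h2 - (u - t) * h1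
      have e2 : s ^ 2 - s = t * u := by linear_combination -h2 - (u - s) * h1
      have e3 : t ^ 3 - t ^ 2 = u ^ 2 * (u - 1) := by linear_combination t * e1 + u * h2
      have e4 : s ^ 3 - s ^ 2 = u ^ 2 * (u - 1) := by linear_combination s * e2 + u * h2
      have e5 : k = 2 * b' := by omega
      simp only [hf, eval_mul, eval_C, eval_X, eval_pow, eval_sub]
      rw [e3, e4, e5, mul_pow, ← pow_mul, pow_succ]
      linear_combination (c * (t - s) * u ^ (2 * b') * (u - 1) ^ b') * h1)
    have hN : x₀ 2 ^ k * φ (MvPolynomial.X 1) =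
        LaurentPolynomial.C (-c) * x₀ 2 ^ (k - b') * w₀ 2 + aeval (x₀ 2) G := by
      have e1 : k - b' = b' := by omega
      rw [hx2, hL, hG, map_add, hxcomp, e1, map_mul, map_mul, map_pow, map_pow, toLaurent_C,
        toLaurent_X, ← hx]
      simp only [w₀]
      ring
    have hc' : -c ≠ 0 := neg_ne_zero.mpr hc
    obtain ⟨a, H, τ, ha, hτd, hτ0, hdvd, hn⟩ := exists_norm 2 (by omega) (by omega) hc' hN
    by_cases hb2 : 2 ≤ b'
    · exact cls_of_norm 2 (by rw [h0, hx2, hxd]) (by omega) (Or.inr ⟨by decide, hb2⟩) ha hτd hτ0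
        hdvd hn
    · obtain rfl : b' = 1 := by omega
      have h1 := norm_one 2 hτd hτ0 hn
      rw [hx2] at h1
      have h2 : LaurentPolynomial.C a * φ (MvPolynomial.X 1) + aeval x H = T (-1) + T (-2) := by
        apply mul_left_cancel₀ hxne
        rw [h1, hTx]
        have e4 : (T (-2) : ℂ[T;T⁻¹]) = T (-1) ^ 2 := T_neg_natCast_pow 2
        rw [e4]
        simp only [w₀]
        linear_combination (-(T 1 - 1)) * (T 1 + T 1 * T (-1) + 1) * hTT
      -- exchange the coordinates
      set α := tri 1 0 a one_ne_zero ha H with hα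
      apply Cls.of_comp α
      apply Cls.of_aut inv' inv'_injective
      apply Cls.of_aut (levA (sc (-1) (by norm_num))) (levA_sc_injective _ _)
      apply Cls.of_comp swapXY
      apply cls_quad
      · apply surjective_comp_equiv
        rw [AlgHom.coe_comp, AlgHom.coe_comp]
        exact (levA_sc_surjective _ _).comp
          (inv'_surjective.comp (surjective_comp_equiv hφ α))
      · change lev _ (inv' ((φ.comp (α : P2 →ₐ[ℂ] P2)) (swapXY (MvPolynomial.X 0)))) = _
        rw [swapXY_X0, hα, comp_tri_X1, h0, ← hxd, h2, map_add, inv'_T, inv'_T, neg_neg, neg_neg,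
          map_add, lev_sc_T, lev_sc_T]
        simp only [x₀]
        have e4 : (T 2 : ℂ[T;T⁻¹]) = T 1 ^ 2 := T_natCast_pow 2
        rw [e4]
        norm_num
        ring

end Pool.Agent.Helper34_CStar
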