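import Pool.Agent.Helper34_CStar.PairStd

/-!
# The classification theorem for one-ended coordinates with one characteristic pair
-/

namespace Pool.Agent.Helper34_CStar

open Polynomial LaurentPolynomial

theorem inPairClass_of_std {d : ℕ} {q : P2} {c : ℂ} {x₀ y₀ : ℂ[T;T⁻¹]}
    (hstd : IsStd x₀ y₀ (q - MvPolynomial.C c)) (hq0 : q - MvPolynomial.C c ≠ 0) {f : ℂ[X]}
    (hf : x₀ = toLaurent f) (hfd : f.natDegree = d) (hf1 : f.coeff 1 ≠ 0)
    (hpair : OnePair d (hom2 x₀ y₀) (MvPolynomial.X 0) (MvPolynomial.X 1)) : InPairClass d q := by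
  have hp := prime_of_ker hq0 hstd.mem_ker_iff
  exact ⟨primitive_of_prime hp, c, hom2 x₀ y₀, AlgEquiv.refl, f,
    isFibre_of_ker hstd.surjective hp hstd.mem_ker_iff,
    (by rw [← hf]; exact hom2_X0 _ _), hfd, hf1, hpair⟩

theorem inPairClass_q₁ {d : ℕ} (hd : 2 ≤ d) {g : ℂ[X]} (hg : g.Monic) (hgd : g.natDegree = d - 1)
    (hg0 : g.coeff 0 = 0) : InPairClass d (q₁ d g) := by
  set h : ℂ[X] := Polynomial.C 1 + g with hh
  have hhd : h.natDegree = d - 1 := by rw [hh, add_comm, natDegree_add_C, hgd]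
  have hh0 : h.coeff 0 = 1 := by rw [hh, coeff_add, coeff_C_zero, hg0, add_zero]
  have hhl : h.leadingCoeff = 1 := by
    rw [leadingCoeff, hhd, hh, coeff_add, coeff_C_of_ne_zero (by omega), zero_add, ← hgd]
    exact hg
  have hrd : h.reverse.natDegree = d - 1 := by
    rw [reverse_natDegree, hhd]
    have : h.natTrailingDegree = 0 := by
      apply natTrailingDegree_eq_zero_of_constantCoeff_ne_zero
      rw [constantCoeff_apply, hh0]; exact one_ne_zero
    rw [this, Nat.sub_zero]
  have hr0 : h.reverse.coeff 0 = 1 := by rw [coeff_zero_reverse, hhl]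
  have hx0 : (T (d : ℤ) * invert (toLaurent h) : ℂ[T;T⁻¹]) = toLaurent (X * h.reverse) :=
    first_coord hd hhd
  have hfd : (X * h.reverse).natDegree = d := by
    rw [natDegree_X_mul (by intro h0; rw [h0] at hr0; simp at hr0), hrd]; omega
  refine inPairClass_of_std (isStd_first (by omega) hg0 one_ne_zero) ?_ (f := X * h.reverse)
    hx0 hfd ?_ ?_
  · intro h1
    have h2 := congrArg (hom2 (0 : ℂ) (0 : ℂ)) h1
    rw [map_sub, hom2_q₁, hom2_C, map_zero, zero_mul, zero_sub, coe_aeval_eq_eval,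
      ← coeff_zero_eq_eval_zero, hg0] at h2
    simp at h2
  · rw [coeff_X_mul, hr0]; exact one_ne_zero
  · exact onePair_first hd (f := X * h.reverse) (by rw [hom2_X0, ← hx0]) hfd (hom2_X1 _ _)

theorem inPairClass_q₂ {d : ℕ} (hd : 2 ≤ d) : InPairClass d (q₂ d) := by
  have h0 : q₂ d - MvPolynomial.C 0 = q₂ d := by rw [map_zero, sub_zero]
  refine inPairClass_of_std (c := 0) (by rw [h0]; exact isStd_second hd) ?_ (f := X ^ d - X)
    ?_ ?_ ?_ ?_
  · rw [h0]
    intro h1
    have h2 := congrArg (hom2 (0 : ℂ) (0 : ℂ)) h1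
    rw [hom2_q₂, map_zero, zero_pow (by omega)] at h2
    simp at h2
  · simp
  · rw [natDegree_sub_eq_left_of_natDegree_lt]
    · simp
    · simp; omega
  · rw [coeff_sub, coeff_X_pow, if_neg (by omega), coeff_X_one]; simp
  · exact onePair_second hd (by rw [hom2_X0, map_sub, toLaurent_X_pow, toLaurent_X])
      (hom2_X1 _ _)

theorem inPairClass_q₃ {d : ℕ} (hd : 2 ≤ d) : InPairClass d (q₃ d) := by
  have h0 : q₃ d - MvPolynomial.C 0 = q₃ d := by rw [map_zero, sub_zero]
  have hco : ∀ n, 1 ≤ n → n ≤ d → (∑ i ∈ Finset.range d, (X : ℂ[X]) ^ (i + 1)).coeff n = 1 := by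
    intro n hn hnd
    rw [finsetSum_coeff, Finset.sum_eq_single (n - 1)]
    · rw [coeff_X_pow, if_pos (by omega)]
    · intro b _ hb
      rw [coeff_X_pow, if_neg (by omega)]
    · intro h
      exact absurd (Finset.mem_range.mpr (by omega)) h
  have hx0 : (∑ i ∈ Finset.range d, T ((i + 1 : ℕ) : ℤ) : ℂ[T;T⁻¹]) =
      toLaurent (∑ i ∈ Finset.range d, X ^ (i + 1)) := by
    rw [map_sum]
    apply Finset.sum_congr rfl
    intro i _
    rw [toLaurent_X_pow]
  refine inPairClass_of_std (c := 0) (by rw [h0]; exact isStd_third (by omega)) ?_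
    (f := ∑ i ∈ Finset.range d, X ^ (i + 1)) hx0 ?_ ?_ ?_
  · rw [h0]
    intro h1
    have h2 := congrArg (hom2 (0 : ℂ) (0 : ℂ)) h1
    rw [hom2_q₃, map_zero] at h2
    simp at h2
    omega
  · apply le_antisymm
    · apply natDegree_sum_le_of_forall_le
      intro i hi
      rw [Finset.mem_range] at hi
      rw [natDegree_X_pow]; omega
    · apply le_natDegree_of_ne_zero
      rw [hco d (by omega) le_rfl]; exact one_ne_zero
  · rw [hco 1 le_rfl (by omega)]; exact one_ne_zero
  · exact onePair_third hd (by rw [hom2_X0, hx0]) (hom2_X1 _ _)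

/-- **Classification for all degrees, one characteristic pair.** -/
theorem classification_pair {d : ℕ} (h3 : 3 ≤ d) (p : P2) :
    InPairClass d p ↔ ∃ q, IsRepresentative d q ∧ Equivalent p q := by
  constructor
  · exact inPairClass_imp h3
  · rintro ⟨q, hq, hpq⟩
    apply inPairClass_of_equivalent hpq
    rcases hq with ⟨g, hg, hgd, hg0, rfl⟩ | rfl | rfl
    · exact inPairClass_q₁ (by omega) hg hgd hg0
    · exact inPairClass_q₂ (by omega)
    · exact inPairClass_q₃ (by omega)

end Pool.Agent.Helper34_CStar
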