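import Pool.Agent.Helper34_CStar.ClsTwoOne
import Pool.Agent.Helper34_CStar.MainPair

/-!
# Embeddings with a coordinate of degree at most three
-/

namespace Pool.Agent.Helper34_CStar

open Polynomial LaurentPolynomial

theorem cls_affine {φ : P2 →ₐ[ℂ] ℂ[T;T⁻¹]} (hφ : Function.Surjective φ) {μ ν : ℂ} (hμ : μ ≠ 0)
    {x : ℂ[T;T⁻¹]} (h0 : φ (MvPolynomial.X 0) = LaurentPolynomial.C μ * x + LaurentPolynomial.C ν)
    (h : ∀ φ' : P2 →ₐ[ℂ] ℂ[T;T⁻¹], Function.Surjective φ' → φ' (MvPolynomial.X 0) = x → Cls φ') :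
    Cls φ := by
  apply Cls.of_comp (tri μ⁻¹ (-(μ⁻¹ * ν)) 1 (inv_ne_zero hμ) one_ne_zero 0)
  apply h _ (surjective_comp_equiv hφ _)
  have h1 : (LaurentPolynomial.C μ⁻¹ : ℂ[T;T⁻¹]) * LaurentPolynomial.C μ = 1 := by
    rw [← map_mul, inv_mul_cancel₀ hμ, map_one]
  rw [comp_tri_X0, h0, map_neg, map_mul]
  linear_combination x * h1

theorem cls_scale {φ : P2 →ₐ[ℂ] ℂ[T;T⁻¹]} (hφ : Function.Surjective φ) {s : ℂ} (hs : s ≠ 0)
    (h : ∀ φ' : P2 →ₐ[ℂ] ℂ[T;T⁻¹], Function.Surjective φ' →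
      φ' (MvPolynomial.X 0) = lev (sc s hs) (φ (MvPolynomial.X 0)) → Cls φ') : Cls φ := by
  apply Cls.of_aut (levA (sc s hs)) (levA_sc_injective s hs)
  apply h
  · rw [AlgHom.coe_comp]; exact (levA_sc_surjective s hs).comp hφ
  · rfl

theorem cls_inv {φ : P2 →ₐ[ℂ] ℂ[T;T⁻¹]} (hφ : Function.Surjective φ)
    (h : ∀ φ' : P2 →ₐ[ℂ] ℂ[T;T⁻¹], Function.Surjective φ' →
      φ' (MvPolynomial.X 0) = inv' (φ (MvPolynomial.X 0)) → Cls φ') : Cls φ := by
  apply Cls.of_aut inv' inv'_injective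
  apply h
  · rw [AlgHom.coe_comp]; exact inv'_surjective.comp hφ
  · rfl

theorem T_ne_C (n : ℤ) (hn : n ≠ 0) (r : ℂ) : (T n : ℂ[T;T⁻¹]) ≠ LaurentPolynomial.C r := by
  intro h
  have h1 := congrArg (lev (1 : ℂˣ)) h
  have h2 := congrArg (lev (Units.mk0 (2 : ℂ) two_ne_zero)) h
  rw [lev_T, lev_C, one_zpow, Units.val_one] at h1
  rw [lev_T, lev_C, ← h1, Units.val_zpow_eq_zpow_val, Units.val_mk0] at h2
  have h3 : ((2 : ℝ) : ℂ) ^ n = ((1 : ℝ) : ℂ) := by push_cast; exact h2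
  rw [← Complex.ofReal_zpow, Complex.ofReal_inj] at h3
  exact hn ((zpow_eq_one_iff_right₀ (by norm_num) (by norm_num)).mp h3)

/-- a coordinate is not constant on an embedded punctured line -/
theorem coord_ne_C {φ : P2 →ₐ[ℂ] ℂ[T;T⁻¹]} (hφ : Function.Surjective φ) (r : ℂ) :
    φ (MvPolynomial.X 0) ≠ LaurentPolynomial.C r := by
  intro h
  have key : ∀ p : P2, ∃ P : ℂ[X], φ p = aeval (φ (MvPolynomial.X 1)) P := by
    intro p
    induction p using MvPolynomial.induction_on with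
    | C a =>
      refine ⟨Polynomial.C a, ?_⟩
      rw [aeval_C, ← MvPolynomial.algebraMap_eq, AlgHom.commutes]
    | add p q hp hq =>
      obtain ⟨P, hP⟩ := hp
      obtain ⟨Q, hQ⟩ := hq
      exact ⟨P + Q, by rw [map_add, map_add, hP, hQ]⟩
    | mul_X p i hp =>
      obtain ⟨P, hP⟩ := hp
      fin_cases i
      · refine ⟨P * Polynomial.C r, ?_⟩
        have : φ (MvPolynomial.X 0) = algebraMap ℂ _ r := by
          rw [h, LaurentPolynomial.C_eq_algebraMap]
        change φ (p * MvPolynomial.X 0) = _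
        rw [map_mul, map_mul, hP, aeval_C, this]
      · refine ⟨P * X, ?_⟩
        change φ (p * MvPolynomial.X 1) = _
        rw [map_mul, map_mul, hP, aeval_X]
  obtain ⟨p, hp⟩ := hφ (T 1)
  obtain ⟨q, hq⟩ := hφ (T (-1))
  obtain ⟨P, hP⟩ := key p
  obtain ⟨Q, hQ⟩ := key q
  rw [hp] at hP
  rw [hq] at hQ
  by_cases hy : ∃ c, φ (MvPolynomial.X 1) = LaurentPolynomial.C c
  · obtain ⟨c, hc⟩ := hy
    rw [hc, LaurentPolynomial.C_eq_algebraMap, aeval_algebraMap_apply,
      ← LaurentPolynomial.C_eq_algebraMap] at hP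
    exact T_ne_C 1 (by norm_num) _ hP
  · push Not at hy
    have h1 : P * Q - 1 = 0 := by
      apply aeval_laurent_inj (x := φ (MvPolynomial.X 1)) (fun c => hy c)
      rw [map_sub, map_mul, map_one, ← hP, ← hQ, T_mul_T_neg, sub_self]
    have h2 : IsUnit P := IsUnit.of_mul_eq_one Q (sub_eq_zero.mp h1)
    obtain ⟨c, _, hc⟩ := Polynomial.isUnit_iff.mp h2
    rw [← hc, aeval_C, ← LaurentPolynomial.C_eq_algebraMap] at hP
    exact T_ne_C 1 (by norm_num) _ hP

theorem swap_r₀ (k : ℕ) (g : ℂ[X]) (c : ℂ) :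
    swapXY (r₀ k g - MvPolynomial.C c) = q₁ k g - MvPolynomial.C c := by
  change hom2 (MvPolynomial.X 1) (MvPolynomial.X 0) (r₀ k g - MvPolynomial.C c) = _
  rw [map_sub, hom2_r₀, hom2_C, q₁, MvPolynomial.algebraMap_eq]
  ring

/-- the second family in degree three -/
theorem q₂_three : ∃ γ : P2 ≃ₐ[ℂ] P2, γ (r₁ 3 1 2 1) = -q₂ 3 := by
  have hI : Complex.I ≠ 0 := Complex.I_ne_zero
  refine ⟨(tri Complex.I 0 (-Complex.I) hI (neg_ne_zero.mpr hI) 0).trans swapXY, ?_⟩
  have h0 : ((tri Complex.I 0 (-Complex.I) hI (neg_ne_zero.mpr hI) 0).trans swapXY)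
      (MvPolynomial.X 0) = MvPolynomial.C Complex.I * MvPolynomial.X 1 := by
    rw [AlgEquiv.trans_apply]
    have := tri_X0 Complex.I 0 (-Complex.I) hI (neg_ne_zero.mpr hI) 0 (swapXY : P2 →ₐ[ℂ] P2)
    rw [map_zero, add_zero] at this
    refine this.trans ?_
    change _ * hom2 _ _ (MvPolynomial.X 0) = _
    rw [hom2_X0]; rfl
  have h1 : ((tri Complex.I 0 (-Complex.I) hI (neg_ne_zero.mpr hI) 0).trans swapXY)
      (MvPolynomial.X 1) = MvPolynomial.C (-Complex.I) * MvPolynomial.X 0 := by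
    rw [AlgEquiv.trans_apply]
    have := tri_X1 Complex.I 0 (-Complex.I) hI (neg_ne_zero.mpr hI) 0 (swapXY : P2 →ₐ[ℂ] P2)
    rw [map_zero, add_zero] at this
    refine this.trans ?_
    change _ * hom2 _ _ (MvPolynomial.X 1) = _
    rw [hom2_X1]; rfl
  have hII : (MvPolynomial.C Complex.I : P2) ^ 2 = -1 := by
    rw [← map_pow, Complex.I_sq, map_neg, map_one]
  rw [r₁, q₂]
  simp only [map_sub, map_mul, map_pow, map_one, h0, h1, map_neg, pow_one]
  linear_combination (-(MvPolynomial.X 1 : P2) ^ 2 +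
    (-(MvPolynomial.X 0 : P2) * MvPolynomial.X 1) *
    ((-(MvPolynomial.C Complex.I : P2) ^ 2 * MvPolynomial.X 0 * MvPolynomial.X 1 - 1) ^ 2 +
      (-(MvPolynomial.C Complex.I : P2) ^ 2 * MvPolynomial.X 0 * MvPolynomial.X 1 - 1) *
        (MvPolynomial.X 0 * MvPolynomial.X 1 - 1) +
      (MvPolynomial.X 0 * MvPolynomial.X 1 - 1) ^ 2)) * hII

/-- **One-ended coordinates of degree at most three.** -/
theorem cls_poly {φ : P2 →ₐ[ℂ] ℂ[T;T⁻¹]} (hφ : Function.Surjective φ) {V : ℂ[X]}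
    (hV : V.natDegree ≤ 3) (h0 : φ (MvPolynomial.X 0) = toLaurent V) : Cls φ := by
  have hVe : V = Polynomial.C (V.coeff 3) * X ^ 3 + Polynomial.C (V.coeff 2) * X ^ 2 +
      Polynomial.C (V.coeff 1) * X + Polynomial.C (V.coeff 0) := by
    conv_lhs => rw [as_sum_range_C_mul_X_pow' (n := 4) V (by omega)]
    simp only [Finset.sum_range_succ, Finset.sum_range_zero, pow_zero, mul_one, pow_one]
    ring
  obtain ⟨p, hp⟩ : ∃ p, p = V.coeff 3 := ⟨_, rfl⟩
  obtain ⟨q, hq⟩ : ∃ q, q = V.coeff 2 := ⟨_, rfl⟩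
  obtain ⟨r, hr⟩ : ∃ r, r = V.coeff 1 := ⟨_, rfl⟩
  obtain ⟨s, hs⟩ : ∃ s, s = V.coeff 0 := ⟨_, rfl⟩
  rw [← hp, ← hq, ← hr, ← hs] at hVe
  have h0' : φ (MvPolynomial.X 0) = LaurentPolynomial.C p * T 1 ^ 3 +
      LaurentPolynomial.C q * T 1 ^ 2 + LaurentPolynomial.C r * T 1 + LaurentPolynomial.C s := by
    rw [h0, hVe]
    simp only [map_add, map_mul, map_pow, toLaurent_C, toLaurent_X]
  have hdivC : ∀ a b : ℂ, b ≠ 0 → (LaurentPolynomial.C b : ℂ[T;T⁻¹]) *
      LaurentPolynomial.C (a / b) = LaurentPolynomial.C a := by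
    intro a b hb
    rw [← map_mul, mul_div_cancel₀ _ hb]
  by_cases hp0 : p = 0
  · rw [hp0, map_zero, zero_mul, zero_add] at h0'
    by_cases hq0 : q = 0
    · rw [hq0, map_zero, zero_mul, zero_add] at h0'
      by_cases hr0 : r = 0
      · rw [hr0, map_zero, zero_mul, zero_add] at h0'
        exact absurd h0' (coord_ne_C hφ s)
      · exact cls_affine hφ hr0 h0' (fun φ' h1 h2 => cls_lin h1 h2)
    · by_cases hr0 : r = 0
      · rw [hr0, map_zero, zero_mul, add_zero] at h0'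
        refine cls_affine hφ hq0 h0' (fun φ' h1 h2 => cls_pow (d := 2) (Or.inl rfl) h1 ?_)
        rw [h2, T_natCast_pow]
      · -- `T ^ 2 - T`
        have hs0 : -(r / q) ≠ 0 := neg_ne_zero.mpr (div_ne_zero hr0 hq0)
        refine cls_scale hφ hs0 (fun φ' h1 h2 => ?_)
        have hm : r ^ 2 / q ≠ 0 := div_ne_zero (pow_ne_zero 2 hr0) hq0
        refine cls_affine h1 hm (x := x₀ 0) (ν := s) ?_ (fun φ'' h3 h4 => cls_quad h3 h4)
        rw [h2, h0']
        simp only [map_add, map_mul, map_pow, lev_C, lev_sc_T, zpow_one, x₀,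
          ← LaurentPolynomial.C_eq_algebraMap]
        have e1 : (LaurentPolynomial.C (r ^ 2 / q) : ℂ[T;T⁻¹]) =
            LaurentPolynomial.C q * LaurentPolynomial.C (-(r / q)) ^ 2 := by
          rw [← map_pow, ← map_mul]; congr 1; field_simp
        have e2 : (LaurentPolynomial.C (r ^ 2 / q) : ℂ[T;T⁻¹]) =
            -(LaurentPolynomial.C r * LaurentPolynomial.C (-(r / q))) := by
          rw [← map_mul, ← map_neg]; congr 1; field_simp
        linear_combination (-(T 1) ^ 2) * e1 + T 1 * e2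
  · by_cases hr0 : r = 0
    · rw [hr0, map_zero, zero_mul, add_zero] at h0'
      by_cases hq0 : q = 0
      · rw [hq0, map_zero, zero_mul, add_zero] at h0'
        refine cls_affine hφ hp0 h0' (fun φ' h1 h2 => cls_pow (d := 3) (Or.inr rfl) h1 ?_)
        rw [h2, T_natCast_pow]
      · -- `T ^ 3 - T ^ 2`
        have hs0 : -(q / p) ≠ 0 := neg_ne_zero.mpr (div_ne_zero hq0 hp0)
        refine cls_scale hφ hs0 (fun φ' h1 h2 => ?_)
        have hm : -(q ^ 3 / p ^ 2) ≠ 0 :=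
          neg_ne_zero.mpr (div_ne_zero (pow_ne_zero 3 hq0) (pow_ne_zero 2 hp0))
        refine cls_affine h1 hm (x := T 1 ^ 3 - T 1 ^ 2) (ν := s) ?_
          (fun φ'' h3 h4 => cls_cubic h3 h4)
        rw [h2, h0']
        simp only [map_add, map_mul, map_pow, lev_C, lev_sc_T, zpow_one,
          ← LaurentPolynomial.C_eq_algebraMap]
        have e1 : (LaurentPolynomial.C (-(q ^ 3 / p ^ 2)) : ℂ[T;T⁻¹]) =
            LaurentPolynomial.C p * LaurentPolynomial.C (-(q / p)) ^ 3 := by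
          rw [← map_pow, ← map_mul]; congr 1; field_simp
        have e2 : (LaurentPolynomial.C (-(q ^ 3 / p ^ 2)) : ℂ[T;T⁻¹]) =
            -(LaurentPolynomial.C q * LaurentPolynomial.C (-(q / p)) ^ 2) := by
          rw [← map_pow, ← map_mul, ← map_neg]; congr 1; field_simp
        linear_combination (-(T 1) ^ 3) * e1 + T 1 ^ 2 * e2
    · -- `f'(0) ≠ 0`
      have hV3 : V.natDegree = 3 := by
        apply le_antisymm hV
        apply le_natDegree_of_ne_zero
        rw [← hp]; exact hp0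
      obtain ⟨β, w, h1, h2⟩ := exists_rep (by omega) (by rw [← hr]; exact hr0) φ hφ h0
        (onePair_of_prime (by rw [hV3]; exact Nat.prime_three) _ _ _)
      rw [hV3] at h2
      rcases h2 with ⟨g, c, hg, hgd, hg0, _, rfl⟩ | rfl | rfl
      · refine ⟨swapXY.trans β, r₀ 3 g, c, Or.inl ⟨3, g, by omega, by omega, hg0, rfl⟩, ?_⟩
        intro z
        rw [AlgEquiv.trans_apply, swap_r₀]
        exact h1 z
      · obtain ⟨γ, hγ⟩ := q₂_three
        refine ⟨γ.trans β, r₁ 3 1 2 1, 0, Or.inr (Or.inl ⟨3, 1, 2, 1, Or.inr rfl, by omega,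
          by decide, by simp, by simp, rfl⟩), ?_⟩
        intro z
        rw [map_zero, sub_zero, AlgEquiv.trans_apply, hγ, map_neg, neg_dvd]
        exact h1 z
      · refine ⟨β, q₃ 3, 0, Or.inr (Or.inr (Or.inr (Or.inr (Or.inr rfl)))), ?_⟩
        intro z
        rw [map_zero, sub_zero]
        exact h1 z

/-- **Coordinates with at most a simple pole at one end and at most a double pole at the other.** -/
theorem cls_two_ended {φ : P2 →ₐ[ℂ] ℂ[T;T⁻¹]} (hφ : Function.Surjective φ) {p q r s : ℂ}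
    (h0 : φ (MvPolynomial.X 0) = LaurentPolynomial.C p * T 1 ^ 2 + LaurentPolynomial.C q * T 1 +
      LaurentPolynomial.C r + LaurentPolynomial.C s * T (-1)) : Cls φ := by
  have hdivC : ∀ a b : ℂ, b ≠ 0 → (LaurentPolynomial.C b : ℂ[T;T⁻¹]) *
      LaurentPolynomial.C (a / b) = LaurentPolynomial.C a := by
    intro a b hb
    rw [← map_mul, mul_div_cancel₀ _ hb]
  by_cases hs : s = 0
  · apply cls_poly hφ (V := Polynomial.C p * X ^ 2 + Polynomial.C q * X + Polynomial.C r)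
    · have : (Polynomial.C p * X ^ 2 + Polynomial.C q * X + Polynomial.C r).natDegree ≤ 2 := by
        compute_degree
      omega
    · rw [h0, hs]
      simp only [map_add, map_mul, map_pow, toLaurent_C, toLaurent_X, map_zero, zero_mul, add_zero]
  · by_cases hp : p = 0
    · by_cases hq : q = 0
      · apply cls_inv hφ
        intro φ' h1 h2
        apply cls_poly h1 (V := Polynomial.C s * X + Polynomial.C r)
        · have : (Polynomial.C s * X + Polynomial.C r).natDegree ≤ 1 := by compute_degree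
          omega
        · rw [h2, h0, hp, hq]
          simp only [map_add, map_mul, map_pow, toLaurent_C, toLaurent_X, map_zero, zero_mul,
            zero_add, inv'_C, inv'_T, neg_neg]
          ring
      · refine cls_affine hφ hq (x := T 1 + LaurentPolynomial.C (s / q) * T (-1)) (ν := r) ?_
          (fun φ' h1 h2 => cls_hyp (div_ne_zero hs hq) h1 h2)
        rw [h0, hp, map_zero, zero_mul, zero_add]
        linear_combination (-(T (-1))) * hdivC s q hq
    · refine cls_affine hφ hp (x := T 1 ^ 2 + LaurentPolynomial.C (q / p) * T 1 +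
        LaurentPolynomial.C (s / p) * T (-1)) (ν := r) ?_
        (fun φ' h1 h2 => cls_two_one (div_ne_zero hs hp) h1 h2)
      rw [h0]
      linear_combination (-(T 1)) * hdivC q p hp - T (-1) * hdivC s p hp

/-- **Embeddings with a coordinate of degree at most three.** -/
theorem cls_degree {φ : P2 →ₐ[ℂ] ℂ[T;T⁻¹]} (hφ : Function.Surjective φ) {F : ℂ[X]} {k : ℕ}
    (hF : F.natDegree ≤ 3) (hk : k ≤ 3)
    (h0 : φ (MvPolynomial.X 0) = toLaurent F * T (-(k : ℤ))) : Cls φ := by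
  have hFe : F = Polynomial.C (F.coeff 3) * X ^ 3 + Polynomial.C (F.coeff 2) * X ^ 2 +
      Polynomial.C (F.coeff 1) * X + Polynomial.C (F.coeff 0) := by
    conv_lhs => rw [as_sum_range_C_mul_X_pow' (n := 4) F (by omega)]
    simp only [Finset.sum_range_succ, Finset.sum_range_zero, pow_zero, mul_one, pow_one]
    ring
  obtain ⟨p, hp⟩ : ∃ p, p = F.coeff 3 := ⟨_, rfl⟩
  obtain ⟨q, hq⟩ : ∃ q, q = F.coeff 2 := ⟨_, rfl⟩
  obtain ⟨r, hr⟩ : ∃ r, r = F.coeff 1 := ⟨_, rfl⟩
  obtain ⟨s, hs⟩ : ∃ s, s = F.coeff 0 := ⟨_, rfl⟩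
  rw [← hp, ← hq, ← hr, ← hs] at hFe
  have hTT := T_mul_T_neg
  obtain rfl | rfl | rfl | rfl : k = 0 ∨ k = 1 ∨ k = 2 ∨ k = 3 := by omega
  · apply cls_poly hφ hF
    rw [h0]; simp
  · apply cls_two_ended hφ (p := p) (q := q) (r := r) (s := s)
    rw [h0, hFe, Nat.cast_one]
    simp only [map_add, map_mul, map_pow, toLaurent_C, toLaurent_X]
    linear_combination (LaurentPolynomial.C p * T 1 ^ 2 + LaurentPolynomial.C q * T 1 +
      LaurentPolynomial.C r) * hTT
  · apply cls_inv hφ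
    intro φ' h1 h2
    apply cls_two_ended h1 (p := s) (q := r) (r := q) (s := p)
    rw [h2, h0, hFe, T_neg_natCast_pow]
    simp only [map_add, map_mul, map_pow, toLaurent_C, toLaurent_X, inv'_C, inv'_T, neg_neg]
    linear_combination (LaurentPolynomial.C p * T (-1) * (T 1 * T (-1) + 1) +
      LaurentPolynomial.C q * (T 1 * T (-1) + 1) + LaurentPolynomial.C r * T 1) * hTT
  · apply cls_inv hφ
    intro φ' h1 h2
    apply cls_poly h1 (V := Polynomial.C s * X ^ 3 + Polynomial.C r * X ^ 2 +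
      Polynomial.C q * X + Polynomial.C p)
    · compute_degree
    · rw [h2, h0, hFe, T_neg_natCast_pow]
      simp only [map_add, map_mul, map_pow, toLaurent_C, toLaurent_X, inv'_C, inv'_T, neg_neg]
      linear_combination (LaurentPolynomial.C p * ((T 1 * T (-1)) ^ 2 + T 1 * T (-1) + 1) +
        LaurentPolynomial.C q * T 1 * (T 1 * T (-1) + 1) + LaurentPolynomial.C r * T 1 ^ 2) * hTT

end Pool.Agent.Helper34_CStar
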