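import Pool.Agent.Helper34_CStar.ClsForty1

/-!
# Decomposable polynomials of degree four
-/

namespace Pool.Agent.Helper34_CStar

open Polynomial LaurentPolynomial

/-- reduction with one parameter -/
theorem param_reduce (S P Q : ℂ[X]) : ∃ A B : ℂ[X],
    ∀ (R : Type) [CommRing R] [Algebra ℂ R] (t u : R),
      t ^ 2 = aeval u S * t - aeval u P → aeval t Q = aeval u A * t + aeval u B := by
  induction Q using Polynomial.induction_on with
  | C r =>
    refine ⟨0, Polynomial.C r, ?_⟩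
    intro R _ _ t u _
    simp
  | add p q hp hq =>
    obtain ⟨A, B, h⟩ := hp
    obtain ⟨A', B', h'⟩ := hq
    refine ⟨A + A', B + B', ?_⟩
    intro R _ _ t u h1
    rw [map_add, h R t u h1, h' R t u h1, map_add, map_add]
    ring
  | monomial n r ih =>
    obtain ⟨A, B, h⟩ := ih
    refine ⟨A * S + B, -(A * P), ?_⟩
    intro R _ _ t u h1
    have e : (Polynomial.C r * X ^ (n + 1) : ℂ[X]) = Polynomial.C r * X ^ n * X := by
      rw [pow_succ]; ring
    rw [e, map_mul, aeval_X, h R t u h1]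
    simp only [map_add, map_mul, map_neg]
    linear_combination (aeval u A) * h1

/-- the difference quotient on a curve of pairs with one parameter -/
theorem param_structure {f Y : ℂ[X]} {k : ℕ} (hk : 1 ≤ k) (hY : Y.coeff 0 ≠ 0)
    (hadj : Algebra.adjoin ℂ {toLaurent f, toLaurent Y * T (-(k : ℤ))} = ⊤) (S P : ℂ[X])
    (hf : ∀ (R : Type) [CommRing R] [Algebra ℂ R] (t s u : R),
      t ^ 2 = aeval u S * t - aeval u P → s ^ 2 = aeval u S * s - aeval u P →
      aeval t f = aeval s f) :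
    ∃ N : ℂ[X], (∀ u, (S.eval u ≠ 0 ∨ P.eval u ≠ 0) → N.eval u ≠ 0) ∧
      ∀ (R : Type) [CommRing R] [Algebra ℂ R] (t s u : R),
        t ^ 2 = aeval u S * t - aeval u P → s ^ 2 = aeval u S * s - aeval u P →
        s ^ k * aeval t Y - t ^ k * aeval s Y = aeval u N * (t - s) := by
  obtain ⟨A₁, B₁, h₁⟩ := param_reduce S P Y
  obtain ⟨A₂, B₂, h₂⟩ := param_reduce S P (X ^ k)
  have key : ∀ (R : Type) [CommRing R] [Algebra ℂ R] (t s u : R),
      t ^ 2 = aeval u S * t - aeval u P → s ^ 2 = aeval u S * s - aeval u P →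
      s ^ k * aeval t Y - t ^ k * aeval s Y = aeval u (A₁ * B₂ - B₁ * A₂) * (t - s) := by
    intro R _ _ t s u ht hs
    have e1 := h₁ R t u ht
    have e2 := h₁ R s u hs
    have e3 := h₂ R t u ht
    have e4 := h₂ R s u hs
    rw [map_pow, aeval_X] at e3 e4
    rw [e1, e2, e3, e4, map_sub, map_mul, map_mul]
    ring
  refine ⟨A₁ * B₂ - B₁ * A₂, ?_, key⟩
  obtain ⟨N, hN⟩ : ∃ N, N = A₁ * B₂ - B₁ * A₂ := ⟨_, rfl⟩
  rw [← hN] at key ⊢
  intro u hSP hN0
  obtain ⟨t, s, hsum, hprod, _⟩ := exists_sum_prod (S.eval u) (P.eval u)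
  have ht2 : t ^ 2 = aeval u S * t - aeval u P := by
    rw [coe_aeval_eq_eval]
    linear_combination t * hsum - hprod
  have hs2 : s ^ 2 = aeval u S * s - aeval u P := by
    rw [coe_aeval_eq_eval]
    linear_combination s * hsum - hprod
  have hkey := key ℂ t s u ht2 hs2
  simp only [coe_aeval_eq_eval] at hkey
  rw [hN0, zero_mul] at hkey
  have horig : ∀ t s : ℂ, s = 0 → t + s = S.eval u → t * s = P.eval u →
      s ^ k * Y.eval t - t ^ k * Y.eval s = 0 → False := by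
    rintro t s rfl h1 h2 h3
    rw [zero_pow (by omega), zero_mul, zero_sub, neg_eq_zero, ← coeff_zero_eq_eval_zero] at h3
    have h4 : t = 0 := by
      have := (mul_eq_zero.mp h3).resolve_right hY
      exact (pow_eq_zero_iff (by omega)).mp this
    rw [h4, add_zero] at h1
    rw [mul_zero] at h2
    rcases hSP with h | h
    · exact h h1.symm
    · exact h h2.symm
  by_cases hs0 : s = 0
  · exact horig t s hs0 hsum hprod hkey
  by_cases ht0 : t = 0
  · exact horig s t ht0 (by rw [add_comm]; exact hsum) (by rw [mul_comm]; exact hprod)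
      (by linear_combination -hkey)
  have hts : t = s := by
    apply geom_inj hadj t s ht0 hs0
    · have := hf ℂ t s u ht2 hs2
      rw [coe_aeval_eq_eval, coe_aeval_eq_eval] at this
      exact this
    · linear_combination hkey
  subst hts
  obtain ⟨τ, hτ⟩ : ∃ τ : ℂˣ, (τ : ℂ) = t := ⟨Units.mk0 t ht0, rfl⟩
  apply dualUnit_ne τ
  obtain ⟨e, he⟩ : ∃ e : DualNumber ℂ, e = DualNumber.eps := ⟨_, rfl⟩
  have he2 : e ^ 2 = 0 := by rw [he]; exact eps_sq
  have hu1 : ((dualUnit τ : (DualNumber ℂ)ˣ) : DualNumber ℂ) =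
    algebraMap ℂ _ t * (1 + e) := by rw [he, ← hτ]; rfl
  have hu2 : ((constUnit τ : (DualNumber ℂ)ˣ) : DualNumber ℂ) = algebraMap ℂ _ t := by
    rw [← hτ]; rfl
  have gS : aeval (algebraMap ℂ (DualNumber ℂ) u) S = 2 * algebraMap ℂ (DualNumber ℂ) t := by
    rw [aeval_algebraMap_apply, coe_aeval_eq_eval, ← hsum, map_add]; ring
  have gP : aeval (algebraMap ℂ (DualNumber ℂ) u) P = algebraMap ℂ (DualNumber ℂ) t ^ 2 := by
    rw [aeval_algebraMap_apply, coe_aeval_eq_eval, ← hprod, map_mul]; ring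
  have g1 : ((dualUnit τ : (DualNumber ℂ)ˣ) : DualNumber ℂ) ^ 2 =
      aeval (algebraMap ℂ (DualNumber ℂ) u) S * (dualUnit τ : (DualNumber ℂ)ˣ) -
      aeval (algebraMap ℂ (DualNumber ℂ) u) P := by
    rw [gS, gP, hu1]
    linear_combination (algebraMap ℂ (DualNumber ℂ) t) ^ 2 * he2
  have g2 : ((constUnit τ : (DualNumber ℂ)ˣ) : DualNumber ℂ) ^ 2 =
      aeval (algebraMap ℂ (DualNumber ℂ) u) S * (constUnit τ : (DualNumber ℂ)ˣ) -
      aeval (algebraMap ℂ (DualNumber ℂ) u) P := by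
    rw [gS, gP, hu2]; ring
  have g3 := key (DualNumber ℂ) _ _ _ g1 g2
  have g4 : aeval (algebraMap ℂ (DualNumber ℂ) u) N = 0 := by
    rw [aeval_algebraMap_apply, coe_aeval_eq_eval, hN0, map_zero]
  rw [g4, zero_mul] at g3
  apply lev_ext hadj
  · rw [lev_toLaurent, lev_toLaurent]
    exact hf _ _ _ _ g1 g2
  · have f1 := lev_y (dualUnit τ) Y k
    have f2 := lev_y (constUnit τ) Y k
    rw [← f1, ← f2] at g3
    have hun : IsUnit (((dualUnit τ : (DualNumber ℂ)ˣ) : DualNumber ℂ) ^ k *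
        ((constUnit τ : (DualNumber ℂ)ˣ) : DualNumber ℂ) ^ k) :=
      ((dualUnit τ).isUnit.pow k).mul ((constUnit τ).isUnit.pow k)
    apply hun.mul_left_cancel
    linear_combination g3

/-- the two components of the curve of pairs -/
structure Comps (α b : ℂ) (k : ℕ) (Y N₁ N₂ : ℂ[X]) : Prop where
  nz₁ : ∀ p, (α ≠ 0 ∨ p ≠ 0) → N₁.eval p ≠ 0
  nz₂ : ∀ σ, (b ≠ 0 ∨ σ ≠ 0) → N₂.eval σ ≠ 0
  rel₁ : ∀ t s : ℂ, 2 * (t + s) = -α → s ^ k * Y.eval t - t ^ k * Y.eval s =
    N₁.eval (t * s) * (t - s)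
  rel₂ : ∀ t s : ℂ, 4 * (t * s) = 2 * (t + s) ^ 2 + α * (t + s) + 2 * b →
    s ^ k * Y.eval t - t ^ k * Y.eval s = N₂.eval (t + s) * (t - s)
  meet : (α ≠ 0 ∨ b ≠ 0) → N₁.eval (b / 2) = N₂.eval (-α / 2)

theorem exists_comps {α b : ℂ} {Y : ℂ[X]} {k : ℕ} (hk : 1 ≤ k) (hY : Y.coeff 0 ≠ 0)
    (hadj : Algebra.adjoin ℂ {toLaurent (f40 α (α ^ 2 / 4 + b) (α * b / 2)),
      toLaurent Y * T (-(k : ℤ))} = ⊤) :
    ∃ N₁ N₂ : ℂ[X], Comps α b k Y N₁ N₂ := by
  have two : ∀ (R : Type) [CommRing R] [Algebra ℂ R], (algebraMap ℂ R (1 / 2)) * 2 = 1 := by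
    intro R _ _
    rw [← map_ofNat (algebraMap ℂ R) 2, ← map_mul, ← map_one (algebraMap ℂ R)]
    congr 1
    norm_num
  obtain ⟨N₁, n1, r1⟩ := param_structure hk hY hadj (Polynomial.C (-α / 2)) X (by
    intro R _ _ t s u ht hs
    simp only [aeval_C, aeval_X] at ht hs
    rw [f40_aeval, f40_aeval]
    have hα : algebraMap ℂ R α = -2 * algebraMap ℂ R (-α / 2) := by
      rw [← map_ofNat (algebraMap ℂ R) 2, ← map_neg, ← map_mul]; congr 1; ring
    have hβ : algebraMap ℂ R (α ^ 2 / 4 + b) = algebraMap ℂ R (-α / 2) ^ 2 +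
        algebraMap ℂ R b := by
      rw [← map_pow, ← map_add]; congr 1; ring
    have hγ : algebraMap ℂ R (α * b / 2) = -(algebraMap ℂ R (-α / 2) * algebraMap ℂ R b) := by
      rw [← map_mul, ← map_neg]; congr 1; ring
    rw [hα, hβ, hγ]
    obtain ⟨a, ha⟩ : ∃ a, a = algebraMap ℂ R (-α / 2) := ⟨_, rfl⟩
    obtain ⟨b', hb'⟩ : ∃ b', b' = algebraMap ℂ R b := ⟨_, rfl⟩
    rw [← ha] at ht hs ⊢
    rw [← hb']
    linear_combination (t ^ 2 - a * t - u + b') * ht - (s ^ 2 - a * s - u + b') * hs)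
  obtain ⟨N₂, n2, r2⟩ := param_structure hk hY hadj X
    (Polynomial.C (1 / 2) * (X ^ 2 + Polynomial.C (α / 2) * X + Polynomial.C b)) (by
    intro R _ _ t s u ht hs
    simp only [map_add, map_mul, map_pow, aeval_C, aeval_X] at ht hs
    rw [f40_aeval, f40_aeval]
    have h2 := two R
    have hα : algebraMap ℂ R α = 2 * algebraMap ℂ R (α / 2) := by
      rw [← map_ofNat (algebraMap ℂ R) 2, ← map_mul]; congr 1; ring
    have hβ : algebraMap ℂ R (α ^ 2 / 4 + b) = algebraMap ℂ R (α / 2) ^ 2 +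
        algebraMap ℂ R b := by
      rw [← map_pow, ← map_add]; congr 1; ring
    have hγ : algebraMap ℂ R (α * b / 2) = algebraMap ℂ R (α / 2) * algebraMap ℂ R b := by
      rw [← map_mul]; congr 1; ring
    rw [hα, hβ, hγ]
    obtain ⟨a, ha⟩ : ∃ a, a = algebraMap ℂ R (α / 2) := ⟨_, rfl⟩
    obtain ⟨b', hb'⟩ : ∃ b', b' = algebraMap ℂ R b := ⟨_, rfl⟩
    obtain ⟨q, hq⟩ : ∃ q, q = algebraMap ℂ R (1 / 2) := ⟨_, rfl⟩
    rw [← ha, ← hb', ← hq] at ht hs
    rw [← ha, ← hb']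
    rw [← hq] at h2
    obtain ⟨p, hp⟩ : ∃ p, p = q * (u ^ 2 + a * u + b') := ⟨_, rfl⟩
    have hp2 : 2 * p = u ^ 2 + a * u + b' := by
      rw [hp]; linear_combination (u ^ 2 + a * u + b') * h2
    rw [← hp] at ht hs
    have e : ∀ w : R, w ^ 2 = u * w - p → w ^ 4 + 2 * a * w ^ 3 + (a ^ 2 + b') * w ^ 2 +
        a * b' * w = p ^ 2 - (u + a) ^ 2 * p - b' * p := by
      intro w hw
      linear_combination (w ^ 2 + (u + 2 * a) * w + (u + a) ^ 2 - p + b') * hw -
        ((u + a) * w) * hp2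
    rw [e t ht, e s hs])
  refine ⟨N₁, N₂, ?_, ?_, ?_, ?_, ?_⟩
  · intro p hp
    apply n1
    rcases hp with h | h
    · left
      rw [eval_C]
      exact div_ne_zero (neg_ne_zero.mpr h) two_ne_zero
    · right
      rw [eval_X]; exact h
  · intro σ hσ
    apply n2
    by_cases h : σ = 0
    · right
      have hb : b ≠ 0 := hσ.resolve_right (by simp [h])
      rw [h]
      simp only [eval_mul, eval_add, eval_pow, eval_X, eval_C]
      intro h0
      apply hb
      linear_combination 2 * h0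
    · left
      rw [eval_X]; exact h
  · intro t s h
    have := r1 ℂ t s (t * s) (by
      simp only [aeval_C, aeval_X, Algebra.algebraMap_self, RingHom.id_apply]
      linear_combination (t / 2) * h) (by
      simp only [aeval_C, aeval_X, Algebra.algebraMap_self, RingHom.id_apply]
      linear_combination (s / 2) * h)
    simpa only [coe_aeval_eq_eval] using this
  · intro t s h
    have := r2 ℂ t s (t + s) (by
      simp only [map_add, map_mul, map_pow, aeval_C, aeval_X, Algebra.algebraMap_self,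
        RingHom.id_apply]
      linear_combination (-1 / 4) * h) (by
      simp only [map_add, map_mul, map_pow, aeval_C, aeval_X, Algebra.algebraMap_self,
        RingHom.id_apply]
      linear_combination (-1 / 4) * h)
    simpa only [coe_aeval_eq_eval] using this
  · intro hab
    obtain ⟨t, s, hsum, hprod, hdisc⟩ := exists_sum_prod (-α / 2) (b / 2)
    by_cases hts : t = s
    · -- a double point
      subst hts
      have ht0 : t ≠ 0 := by
        rintro rfl
        rcases hab with h | h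
        · apply h; linear_combination 2 * hsum
        · apply h; linear_combination (-2) * hprod
      obtain ⟨e, he⟩ : ∃ e : DualNumber ℂ, e = DualNumber.eps := ⟨_, rfl⟩
      have he2 : e ^ 2 = 0 := by rw [he]; exact eps_sq
      obtain ⟨τ, hτ⟩ : ∃ τ, τ = algebraMap ℂ (DualNumber ℂ) t := ⟨_, rfl⟩
      have q1 := r1 (DualNumber ℂ) (τ + e) τ (algebraMap ℂ _ (b / 2)) (by
        rw [aeval_C, aeval_X, ← hsum, ← hprod, map_add, map_mul, ← hτ]
        linear_combination he2) (by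
        rw [aeval_C, aeval_X, ← hsum, ← hprod, map_add, map_mul, ← hτ]
        ring)
      have hPe : aeval (algebraMap ℂ (DualNumber ℂ) (-α / 2))
          (Polynomial.C (1 / 2) * (X ^ 2 + Polynomial.C (α / 2) * X + Polynomial.C b)) =
          τ * τ := by
        rw [aeval_algebraMap_apply, coe_aeval_eq_eval, hτ, ← map_mul]
        congr 1
        rw [hprod]
        simp only [eval_mul, eval_add, eval_pow, eval_X, eval_C]
        ring
      have q2 := r2 (DualNumber ℂ) (τ + e) τ (algebraMap ℂ _ (-α / 2)) (by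
        rw [hPe, aeval_X, ← hsum, map_add, ← hτ]
        linear_combination he2) (by
        rw [hPe, aeval_X, ← hsum, map_add, ← hτ]
        ring)
      rw [q1, aeval_algebraMap_apply, aeval_algebraMap_apply, coe_aeval_eq_eval,
        coe_aeval_eq_eval] at q2
      have q3 := congrArg (TrivSqZeroExt.snd) q2
      have : τ + e - τ = DualNumber.eps := by rw [he]; ring
      have hh : ∀ c : ℂ, TrivSqZeroExt.snd (algebraMap ℂ (DualNumber ℂ) c * DualNumber.eps) =
          c := by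
        intro c
        rw [← Algebra.smul_def, TrivSqZeroExt.snd_smul, DualNumber.snd_eps, smul_eq_mul, mul_one]
      rw [this, hh, hh] at q3
      exact q3
    · have hts' := sub_ne_zero.mpr hts
      have q1 := r1 ℂ t s (b / 2) (by
        simp only [aeval_C, aeval_X, Algebra.algebraMap_self, RingHom.id_apply]
        linear_combination t * hsum - hprod) (by
        simp only [aeval_C, aeval_X, Algebra.algebraMap_self, RingHom.id_apply]
        linear_combination s * hsum - hprod)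
      have q2 := r2 ℂ t s (-α / 2) (by
        simp only [map_add, map_mul, map_pow, aeval_C, aeval_X, Algebra.algebraMap_self,
          RingHom.id_apply]
        linear_combination t * hsum - hprod) (by
        simp only [map_add, map_mul, map_pow, aeval_C, aeval_X, Algebra.algebraMap_self,
          RingHom.id_apply]
        linear_combination s * hsum - hprod)
      simp only [coe_aeval_eq_eval] at q1 q2
      exact mul_right_cancel₀ hts' (q1.symm.trans q2)

/-- the two kinds of pairs -/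
theorem fib_kinds {α β γ b t s : ℂ} (hβ : β = α ^ 2 / 4 + b) (hγ : γ = α * b / 2) (hts : t ≠ s)
    (hf : (f40 α β γ).eval t = (f40 α β γ).eval s) :
    2 * (t + s) = -α ∨ 4 * (t * s) = 2 * (t + s) ^ 2 + α * (t + s) + 2 * b := by
  rw [f40_eval, f40_eval, hβ, hγ] at hf
  have h1 : (t - s) * ((2 * (t + s) + α) *
      (2 * (t + s) ^ 2 + α * (t + s) + 2 * b - 4 * (t * s))) = 0 := by
    linear_combination 4 * hf
  have h2 := (mul_eq_zero.mp h1).resolve_left (sub_ne_zero.mpr hts)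
  rcases mul_eq_zero.mp h2 with h | h
  · left; linear_combination h
  · right; linear_combination -h

/-- a polynomial without zeros is constant -/
theorem const_of_no_zero {P : ℂ[X]} (h : ∀ u, P.eval u ≠ 0) :
    ∃ c : ℂ, c ≠ 0 ∧ P = Polynomial.C c := by
  have h1 : P.natDegree = 0 := by
    by_contra hne
    obtain ⟨r, hr⟩ := IsAlgClosed.exists_root P (by
      intro h0
      exact hne (natDegree_eq_of_degree_eq_some h0))
    exact h r hr
  obtain ⟨c, hc⟩ := natDegree_eq_zero.mp h1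
  refine ⟨c, ?_, hc.symm⟩
  rintro rfl
  apply h 0
  rw [← hc]; simp

theorem pluecker (T₁ T₂ T₃ T₄ Y₁ Y₂ Y₃ Y₄ : ℂ) :
    (T₂ * Y₁ - T₁ * Y₂) * (T₄ * Y₃ - T₃ * Y₄) - (T₃ * Y₁ - T₁ * Y₃) * (T₄ * Y₂ - T₂ * Y₄) +
      (T₄ * Y₁ - T₁ * Y₄) * (T₃ * Y₂ - T₂ * Y₃) = 0 := by ring

theorem pow_compare {n : ℕ} (h : (4 : ℂ) * 2 ^ n = 3 ^ (n + 1) + (-1) ^ n) : n = 0 ∨ n = 1 := by
  have h1 : (4 : ℤ) * 2 ^ n = 3 ^ (n + 1) + (-1) ^ n := by exact_mod_cast h
  by_contra hcon
  push Not at hcon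
  obtain ⟨m, rfl⟩ : ∃ m, n = m + 2 := ⟨n - 2, by omega⟩
  have h2 : ∀ m : ℕ, (4 : ℤ) * 2 ^ (m + 2) + 2 ≤ 3 ^ (m + 2 + 1) := by
    intro m
    induction m with
    | zero => norm_num
    | succ m ih =>
      have e1 : (2 : ℤ) ^ (m + 1 + 2) = 2 * 2 ^ (m + 2) := by ring
      have e2 : (3 : ℤ) ^ (m + 1 + 2 + 1) = 3 * 3 ^ (m + 2 + 1) := by ring
      have e3 : (0 : ℤ) < 2 ^ (m + 2) := by positivity
      rw [e1, e2]
      linarith
  have h3 : (-1 : ℤ) ≤ (-1) ^ (m + 2) := by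
    rcases neg_one_pow_eq_or ℤ (m + 2) with h | h <;> rw [h]
    norm_num
  have := h2 m
  linarith

/-- the exponent for `b = 0` -/
theorem comps_exponent {α : ℂ} {k : ℕ} {Y N₁ N₂ : ℂ[X]} (h : Comps α 0 k Y N₁ N₂) (hα : α ≠ 0)
    {c₁ c₂ : ℂ} {n : ℕ} (hc₂ : c₂ ≠ 0) (h₁ : N₁ = Polynomial.C c₁)
    (h₂ : N₂ = Polynomial.C c₂ * X ^ n) (hm : c₁ = c₂ * (-α / 2) ^ n) : n = 0 ∨ n = 1 := by
  obtain ⟨p, hp⟩ := IsAlgClosed.exists_pow_nat_eq (3 * α ^ 2 / 2) (by norm_num : 0 < 2)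
  obtain ⟨q, hq⟩ := IsAlgClosed.exists_pow_nat_eq (-α ^ 2 / 2) (by norm_num : 0 < 2)
  obtain ⟨t₁, ht₁⟩ : ∃ t, t = (-α / 2 + (p + q) / 2) / 2 := ⟨_, rfl⟩
  obtain ⟨t₂, ht₂⟩ : ∃ t, t = (-α / 2 - (p + q) / 2) / 2 := ⟨_, rfl⟩
  obtain ⟨t₃, ht₃⟩ : ∃ t, t = (-α / 2 + (p - q) / 2) / 2 := ⟨_, rfl⟩
  obtain ⟨t₄, ht₄⟩ : ∃ t, t = (-α / 2 - (p - q) / 2) / 2 := ⟨_, rfl⟩
  have r12 := h.rel₁ t₁ t₂ (by rw [ht₁, ht₂]; ring)
  have r34 := h.rel₁ t₃ t₄ (by rw [ht₃, ht₄]; ring)
  have r13 := h.rel₂ t₁ t₃ (by rw [ht₁, ht₃]; linear_combination (-1 / 4) * hp - (1 / 4) * hq)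
  have r24 := h.rel₂ t₂ t₄ (by rw [ht₂, ht₄]; linear_combination (-1 / 4) * hp - (1 / 4) * hq)
  have r14 := h.rel₂ t₁ t₄ (by rw [ht₁, ht₄]; linear_combination (-1 / 4) * hp - (1 / 4) * hq)
  have r23 := h.rel₂ t₂ t₃ (by rw [ht₂, ht₃]; linear_combination (-1 / 4) * hp - (1 / 4) * hq)
  rw [h₁, eval_C] at r12 r34
  rw [h₂, eval_mul, eval_C, eval_pow, eval_X] at r13 r24 r14 r23
  have pl := pluecker (t₁ ^ k) (t₂ ^ k) (t₃ ^ k) (t₄ ^ k) (Y.eval t₁) (Y.eval t₂) (Y.eval t₃)
    (Y.eval t₄)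
  rw [r12, r34, r13, r24, r14, r23] at pl
  have e1 : (t₁ + t₃) ^ n * (t₂ + t₄) ^ n = (-1) ^ n * (α ^ 2 / 8) ^ n := by
    rw [← mul_pow, ← mul_pow]
    congr 1
    rw [ht₁, ht₂, ht₃, ht₄]
    linear_combination (-1 / 4) * hp
  have e2 : (t₁ + t₄) ^ n * (t₂ + t₃) ^ n = 3 ^ n * (α ^ 2 / 8) ^ n := by
    rw [← mul_pow, ← mul_pow]
    congr 1
    rw [ht₁, ht₂, ht₃, ht₄]
    linear_combination (-1 / 4) * hq
  have e3 : ((-α / 2) ^ n) ^ 2 = 2 ^ n * (α ^ 2 / 8) ^ n := by
    rw [← mul_pow, ← pow_mul, mul_comm n 2, pow_mul]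
    congr 1
    ring
  have g1 : (t₁ - t₂) * (t₃ - t₄) = α ^ 2 / 2 := by
    rw [ht₁, ht₂, ht₃, ht₄]; linear_combination (1 / 4) * hp - (1 / 4) * hq
  have g2 : (t₁ - t₃) * (t₂ - t₄) = α ^ 2 / 8 := by
    rw [ht₁, ht₂, ht₃, ht₄]; linear_combination (-1 / 4) * hq
  have g3 : (t₁ - t₄) * (t₂ - t₃) = -(3 * α ^ 2 / 8) := by
    rw [ht₁, ht₂, ht₃, ht₄]; linear_combination (-1 / 4) * hp
  have hD : (α ^ 2 / 8) ^ n ≠ 0 := pow_ne_zero n (div_ne_zero (pow_ne_zero 2 hα) (by norm_num))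
  apply pow_compare
  apply mul_left_cancel₀ (mul_ne_zero (mul_ne_zero (pow_ne_zero 2 hc₂) hD) (pow_ne_zero 2 hα))
  rw [hm] at pl
  have pl2 : c₂ ^ 2 * (((-α / 2) ^ n) ^ 2 * ((t₁ - t₂) * (t₃ - t₄)) -
      ((t₁ + t₃) ^ n * (t₂ + t₄) ^ n) * ((t₁ - t₃) * (t₂ - t₄)) +
      ((t₁ + t₄) ^ n * (t₂ + t₃) ^ n) * ((t₁ - t₄) * (t₂ - t₃))) = 0 := by
    linear_combination pl
  rw [e1, e2, e3, g1, g2, g3] at pl2
  rw [pow_succ]
  linear_combination 8 * pl2

/-- the exponent for `α = 0` -/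
theorem comps_exponent' {b : ℂ} {k : ℕ} {Y N₁ N₂ : ℂ[X]} (h : Comps 0 b k Y N₁ N₂)
    {c₁ c₂ : ℂ} {j : ℕ} (hc₂ : c₂ ≠ 0) (h₁ : N₁ = Polynomial.C c₁ * X ^ j)
    (h₂ : N₂ = Polynomial.C c₂) : j = 0 := by
  have key : ∀ w : ℂ, w ≠ 0 → c₁ ^ 2 * (w ^ 2) ^ j = c₂ ^ 2 := by
    intro w hw
    obtain ⟨p, hp⟩ := IsAlgClosed.exists_pow_nat_eq (-b + 2 * w) (by norm_num : 0 < 2)
    obtain ⟨q, hq⟩ := IsAlgClosed.exists_pow_nat_eq (-b - 2 * w) (by norm_num : 0 < 2)
    obtain ⟨t, ht⟩ : ∃ t, t = (p + q) / 2 := ⟨_, rfl⟩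
    obtain ⟨s, hs⟩ : ∃ s, s = (p - q) / 2 := ⟨_, rfl⟩
    have hts : t * s = w := by rw [ht, hs]; linear_combination (1 / 4) * hp - (1 / 4) * hq
    have hsum : t ^ 2 + s ^ 2 = -b := by
      rw [ht, hs]; linear_combination (1 / 2) * hp + (1 / 2) * hq
    have r12 := h.rel₁ t (-t) (by ring)
    have r34 := h.rel₁ s (-s) (by ring)
    have r13 := h.rel₂ t s (by linear_combination (-2) * hsum)
    have r24 := h.rel₂ (-t) (-s) (by linear_combination (-2) * hsum)
    have r14 := h.rel₂ t (-s) (by linear_combination (-2) * hsum)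
    have r23 := h.rel₂ (-t) s (by linear_combination (-2) * hsum)
    rw [h₁, eval_mul, eval_C, eval_pow, eval_X] at r12 r34
    rw [h₂, eval_C] at r13 r24 r14 r23
    have pl := pluecker (t ^ k) ((-t) ^ k) (s ^ k) ((-s) ^ k) (Y.eval t) (Y.eval (-t))
      (Y.eval s) (Y.eval (-s))
    rw [r12, r34, r13, r24, r14, r23] at pl
    have e1 : (t * -t) ^ j * (s * -s) ^ j = (w ^ 2) ^ j := by
      rw [← mul_pow]
      congr 1
      rw [← hts]; ring
    apply mul_left_cancel₀ hw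
    rw [← e1]
    linear_combination pl / 4 + (c₁ ^ 2 * ((t * -t) ^ j * (s * -s) ^ j) - c₂ ^ 2) * (-hts)
  have k1 := key 1 one_ne_zero
  have k2 := key 2 two_ne_zero
  rw [one_pow, one_pow, mul_one] at k1
  rw [k1] at k2
  have h4 : ((2 : ℂ) ^ 2) ^ j = 1 := by
    apply mul_left_cancel₀ (pow_ne_zero 2 hc₂)
    rw [k2, mul_one]
  have h5 : (4 : ℕ) ^ j = 1 := by
    have : ((4 : ℕ) : ℂ) ^ j = 1 := by
      rw [← h4]; norm_num
    exact_mod_cast this
  by_contra hj
  exact absurd h5 (Nat.one_lt_pow hj (by norm_num)).ne'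

variable {α β : ℂ}

theorem key1_cases (h : ∀ l : ℕ, ((l : ℂ) + 2) * α ^ 2 ≠ 2 * β) {k : ℕ} (hk : 1 ≤ k)
    (h1 : C40 α β 0 k = 0) (h2 : C40 α β 0 (k + 1) = 0) : k = 1 := by
  rcases exists_nat_cases hk with rfl | rfl | ⟨l, rfl | rfl | rfl | rfl⟩
  · rfl
  · exfalso
    have e3 : C40 α β 0 3 = 1 := rfl
    rw [e3] at h2
    exact one_ne_zero h2
  · exfalso
    have c := (C40_lead4 α β 0 l).1
    rw [h1, coeff_zero] at c
    exact zero_ne_one c
  · exfalso
    obtain ⟨_, c4, c5, _⟩ := C40_lead4 α β 0 l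
    have hl := cast_add_ne l 1 one_ne_zero
    push_cast at hl
    rw [h1, coeff_zero] at c4
    rw [show 4 * l + 4 + 1 = 4 * l + 5 by ring] at h2
    rw [h2, coeff_zero] at c5
    have hα : α = 0 := by
      have : ((l : ℂ) + 1) * α = 0 := by linear_combination c4
      exact (mul_eq_zero.mp this).resolve_left hl
    have hβ : β = 0 := by
      have : ((l : ℂ) + 1) * β = 0 := by rw [hα] at c5; linear_combination c5
      exact (mul_eq_zero.mp this).resolve_left hl
    apply h 0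
    rw [hα, hβ]; ring
  · exfalso
    obtain ⟨_, _, c5, _⟩ := C40_lead4 α β 0 l
    have hl := cast_add_ne l 1 one_ne_zero
    push_cast at hl
    rw [h1, coeff_zero] at c5
    apply h l
    apply mul_left_cancel₀ hl
    linear_combination -2 * c5
  · exfalso
    have c := (C40_lead4 α β 0 (l + 1)).1
    rw [show 4 * l + 6 + 1 = 4 * (l + 1) + 3 by ring] at h2
    rw [h2, coeff_zero] at c
    exact zero_ne_one c

theorem key2_cases (hα : α ≠ 0) (hβ : 4 * β = α ^ 2) {k : ℕ} (hk : 1 ≤ k)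
    (h1 : C40 α β 0 k = 0)
    (h2 : C40 α β 0 (k + 2) + Polynomial.C α * C40 α β 0 (k + 1) = 0) : k = 2 := by
  rcases exists_nat_cases hk with rfl | rfl | ⟨l, rfl | rfl | rfl | rfl⟩
  · exfalso
    have e3 : C40 α β 0 3 = 1 := rfl
    have e2 : C40 α β 0 2 = 0 := rfl
    rw [e3, e2, mul_zero, add_zero] at h2
    exact one_ne_zero h2
  · rfl
  · exfalso
    have c := (C40_lead4 α β 0 l).1
    rw [h1, coeff_zero] at c
    exact zero_ne_one c
  · exfalso
    obtain ⟨_, c4, _, _⟩ := C40_lead4 α β 0 l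
    have hl := cast_add_ne l 1 one_ne_zero
    push_cast at hl
    rw [h1, coeff_zero] at c4
    apply mul_ne_zero hl hα
    linear_combination c4
  · exfalso
    obtain ⟨_, _, c5, _⟩ := C40_lead4 α β 0 l
    have hl := cast_add_ne l 1 one_ne_zero
    have hl' := cast_add_ne (2 * l) 3 (by norm_num)
    push_cast at hl hl'
    rw [h1, coeff_zero] at c5
    apply mul_ne_zero (mul_ne_zero hl hl') (pow_ne_zero 2 hα)
    linear_combination (-4) * c5 + ((l : ℂ) + 1) * hβ
  · exfalso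
    obtain ⟨_, _, _, c6⟩ := C40_lead4 α β 0 l
    have hl := cast_add_ne l 1 one_ne_zero
    have hl2 := cast_add_ne l 2 (by norm_num)
    have hl' := cast_add_ne (2 * l) 3 (by norm_num)
    push_cast at hl hl' hl2
    rw [h1, coeff_zero] at c6
    apply mul_ne_zero (mul_ne_zero (mul_ne_zero hl hl2) hl') (pow_ne_zero 3 hα)
    linear_combination 12 * c6 + 3 * ((l : ℂ) + 1) * (l + 2) * α * hβ

/-- **The class of embeddings having a decomposable polynomial of degree four as a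
coordinate.** -/
theorem cls_forty_zero {α β γ b : ℂ} (hβ : β = α ^ 2 / 4 + b) (hγ : γ = α * b / 2)
    (hab : α ≠ 0 ∨ b ≠ 0) {φ : P2 →ₐ[ℂ] ℂ[T;T⁻¹]} (hφ : Function.Surjective φ)
    (h0 : φ (MvPolynomial.X 0) = x40 α β γ) : Cls₄ φ := by
  have hadj := adjoin_of_surjective hφ
  rw [h0] at hadj
  have hadj' := hadj
  unfold x40 at hadj'
  obtain ⟨Y, k, hk, hY, hy⟩ := exists_pole hadj'
  have hadj2 := hadj'
  rw [hy] at hadj2
  have hadj3 := hadj2
  rw [hβ, hγ] at hadj3
  obtain ⟨N₁, N₂, hN⟩ := exists_comps hk hY hadj3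
  have hmeet := hN.meet hab
  -- the conclusion for two polynomial expressions
  have hyval : ∀ t : ℂˣ, (t : ℂ) ^ k * lev t (φ (MvPolynomial.X 1)) = Y.eval (t : ℂ) := by
    intro t
    have := lev_y t Y k
    rw [coe_aeval_eq_eval, ← hy] at this
    rw [mul_comm]; exact this
  have hval : ∀ t s : ℂˣ, (t : ℂ) ^ k * (s : ℂ) ^ k *
        (lev t (φ (MvPolynomial.X 1)) - lev s (φ (MvPolynomial.X 1))) =
        (s : ℂ) ^ k * Y.eval (t : ℂ) - (t : ℂ) ^ k * Y.eval (s : ℂ) := by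
    intro t s
    rw [← hyval t, ← hyval s]
    ring
  have hone : ∀ c : ℂ, c ≠ 0 → (∃ r : ℂˣ, (f40 α β 0).eval (r : ℂ) = 0) → γ = 0 →
      (∀ l : ℕ, ((l : ℂ) + 2) * α ^ 2 ≠ 2 * β) →
      (∀ t s : ℂ, t ≠ s → (f40 α β γ).eval t = (f40 α β γ).eval s →
        s ^ k * Y.eval t - t ^ k * Y.eval s = c * (t - s)) → Cls₄ φ := by
    rintro c hc ⟨r, hr⟩ hγ0 hne hK
    subst hγ0
    obtain ⟨h1, h2⟩ := span_key (c := c) (g₂ := 0) (g₁ := 1) hadj (by
      intro t s hts hf
      rw [hval t s, hK t s (fun h => hts (Units.ext h)) hf]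
      ring)
    rw [map_one, map_zero, zero_mul, one_mul] at h2
    obtain rfl := key1_cases hne hk h1 h2
    obtain ⟨G, hG⟩ := const40 hr (z := φ (MvPolynomial.X 1) +
      LaurentPolynomial.C c * T (-1)) (by
      intro t s hts hf
      have h3 := hval t s
      rw [hK t s (fun h => hts (Units.ext h)) hf] at h3
      simp only [map_add, map_mul, lev_C, lev_invT, Algebra.algebraMap_self,
        RingHom.id_apply]
      have ht := t.ne_zero
      have hs := s.ne_zero
      field_simp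
      linear_combination h3)
    apply Cls.cls₄
    refine cls_of_X1_degree hφ (F := 1) (k := 1) (by compute_degree!) (by omega)
      (a := -c) (neg_ne_zero.mpr hc) (H := G) ?_
    simp only [Nat.cast_one]
    rw [h0, map_one, one_mul, ← hG, map_neg]
    ring
  by_cases hα : α = 0
  · -- `α = 0`
    have hb : b ≠ 0 := hab.resolve_left (by simp [hα])
    obtain ⟨c₂, hc₂, e₂⟩ := const_of_no_zero (P := N₂) (fun u => hN.nz₂ u (Or.inl hb))
    have hN₁ : N₁ ≠ 0 := by
      rintro h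
      apply hN.nz₁ 1 (Or.inr one_ne_zero)
      rw [h, eval_zero]
    obtain ⟨c₁, j, hc₁, e₁⟩ := eq_of_root hN₁ (a := 0) (by
      intro u hu
      by_contra hu0
      exact hN.nz₁ u (Or.inr hu0) hu)
    rw [map_zero, sub_zero] at e₁
    have hj : j = 0 := by
      rw [hα] at hN
      exact comps_exponent' hN hc₂ e₁ e₂
    rw [hj, pow_zero, mul_one] at e₁
    rw [e₁, e₂, eval_C, eval_C] at hmeet
    obtain ⟨r, hr⟩ := IsAlgClosed.exists_pow_nat_eq (-b) (by norm_num : 0 < 2)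
    have hr0 : r ≠ 0 := by
      rintro rfl
      apply hb
      linear_combination hr
    have hγ0 : γ = 0 := by rw [hγ, hα]; ring
    apply hone c₂ hc₂ ⟨Units.mk0 r hr0, ?_⟩ hγ0
    · intro l
      rw [hα, hβ, hα]
      intro h
      apply hb
      linear_combination (-1 / 2) * h
    · intro t s hts hf
      rcases fib_kinds hβ hγ hts hf with h | h
      · rw [hN.rel₁ t s h, e₁, eval_C, hmeet]
      · rw [hN.rel₂ t s h, e₂, eval_C]
    · rw [Units.val_mk0, f40_eval, hβ, hα]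
      linear_combination r ^ 2 * hr
  · by_cases hb : b = 0
    · -- `b = 0`
      obtain ⟨c₁, hc₁, e₁⟩ := const_of_no_zero (P := N₁) (fun u => hN.nz₁ u (Or.inl hα))
      have hN₂ : N₂ ≠ 0 := by
        rintro h
        apply hN.nz₂ 1 (Or.inr one_ne_zero)
        rw [h, eval_zero]
      obtain ⟨c₂, n, hc₂, e₂⟩ := eq_of_root hN₂ (a := 0) (by
        intro u hu
        by_contra hu0
        exact hN.nz₂ u (Or.inr hu0) hu)
      rw [map_zero, sub_zero] at e₂
      rw [e₁, e₂, eval_C, eval_mul, eval_C, eval_pow, eval_X] at hmeet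
      have hn : n = 0 ∨ n = 1 := by
        rw [hb] at hN
        exact comps_exponent hN hα hc₂ e₁ e₂ hmeet
      have hγ0 : γ = 0 := by rw [hγ, hb]; ring
      have hβ4 : 4 * β = α ^ 2 := by rw [hβ, hb]; ring
      obtain ⟨r, hr⟩ : ∃ r : ℂˣ, (f40 α β 0).eval (r : ℂ) = 0 := by
        refine ⟨Units.mk0 (-α / 2) (div_ne_zero (neg_ne_zero.mpr hα) two_ne_zero), ?_⟩
        rw [Units.val_mk0, f40_eval]
        linear_combination (α ^ 2 / 16) * hβ4
      rcases hn with rfl | rfl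
      · rw [pow_zero, mul_one] at e₂ hmeet
        apply hone c₂ hc₂ ⟨r, hr⟩ hγ0
        · intro l h
          have hl := cast_add_ne (2 * l) 3 (by norm_num)
          push_cast at hl
          apply mul_ne_zero hl (pow_ne_zero 2 hα)
          linear_combination 2 * h + hβ4
        · intro t s hts hf
          rcases fib_kinds hβ hγ hts hf with h | h
          · rw [hN.rel₁ t s h, e₁, eval_C, hmeet]
          · rw [hN.rel₂ t s h, e₂, eval_C]
      · rw [pow_one] at e₂ hmeet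
        have hK : ∀ t s : ℂ, t ≠ s → (f40 α β γ).eval t = (f40 α β γ).eval s →
            s ^ k * Y.eval t - t ^ k * Y.eval s = c₂ * (t ^ 2 - s ^ 2) := by
          intro t s hts hf
          rcases fib_kinds hβ hγ hts hf with h | h
          · rw [hN.rel₁ t s h, e₁, eval_C, hmeet]
            linear_combination (-c₂ * (t - s) / 2) * h
          · rw [hN.rel₂ t s h, e₂, eval_mul, eval_C, eval_X]
            ring
        subst hγ0
        obtain ⟨h1, h2⟩ := span_key (c := c₂) (g₂ := 1) (g₁ := 0) hadj (by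
          intro t s hts hf
          rw [hval t s, hK t s (fun h => hts (Units.ext h)) hf]
          ring)
        rw [map_one, map_zero, zero_mul, one_mul] at h2
        obtain rfl := key2_cases hα hβ4 hk h1 h2.symm
        obtain ⟨G, hG⟩ := const40 hr (z := φ (MvPolynomial.X 1) +
          LaurentPolynomial.C c₂ * T (-1) ^ 2) (by
          intro t s hts hf
          have h3 := hval t s
          rw [hK t s (fun h => hts (Units.ext h)) hf] at h3
          simp only [map_add, map_mul, map_pow, lev_C, lev_invT, Algebra.algebraMap_self,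
            RingHom.id_apply]
          have ht := t.ne_zero
          have hs := s.ne_zero
          field_simp
          linear_combination h3)
        apply Cls.cls₄
        refine cls_of_X1_degree hφ (F := 1) (k := 2) (by compute_degree!) (by omega)
          (a := -c₂) (neg_ne_zero.mpr hc₂) (H := G) ?_
        have h4 : (T (-((2 : ℕ) : ℤ)) : ℂ[T;T⁻¹]) = T (-1) ^ 2 := by rw [T_pow]; congr 1
        rw [h0, map_one, one_mul, h4, ← hG, map_neg]
        ring
    · -- both parameters are nonzero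
      obtain ⟨c₁, hc₁, e₁⟩ := const_of_no_zero (P := N₁) (fun u => hN.nz₁ u (Or.inl hα))
      obtain ⟨c₂, hc₂, e₂⟩ := const_of_no_zero (P := N₂) (fun u => hN.nz₂ u (Or.inl hb))
      rw [e₁, e₂, eval_C, eval_C] at hmeet
      refine cls_of_key hφ (f40_monic α β γ) (f40_natDegree α β γ) (f40_coeff_zero α β γ)
        (by rw [f40_coeff_one, hγ]; exact div_ne_zero (mul_ne_zero hα hb) two_ne_zero)
        (by rw [h0, x40]) hk hy hc₂ ?_
      intro t s hf
      by_cases hts : t = s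
      · subst hts; ring
      · rcases fib_kinds hβ hγ hts hf with h | h
        · rw [hN.rel₁ t s h, e₁, eval_C, hmeet]
        · rw [hN.rel₂ t s h, e₂, eval_C]

end Pool.Agent.Helper34_CStar
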