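import Pool.Agent.Helper34_CStar.Pow40

/-!
# Polynomials of degree four with a simple zero at the origin
-/

namespace Pool.Agent.Helper34_CStar

open Polynomial LaurentPolynomial

/-- the exponents of collinear powers on the fibres of `T ^ 2 + a T + b / T` -/
theorem zpow_cyc_cases {a b : ℂ} (hb : b ≠ 0) {j : ℤ}
    (hcyc : ∀ t s u : ℂˣ, Fib a b t s u → ((t : ℂ) - s) * (s - u) * (u - t) ≠ 0 →
      ((t : ℂ) - s) * (u : ℂ) ^ j + ((s : ℂ) - u) * (t : ℂ) ^ j + ((u : ℂ) - t) * (s : ℂ) ^ j = 0) :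
    j = 0 ∨ j = 1 ∨ (a = 0 ∧ j = 3) := by
  have hcub : ∀ t s u : ℂˣ, Fib a b t s u → (u : ℂ) ^ 3 =
      -a * (u : ℂ) ^ 2 + (-((t : ℂ) * s + s * u + u * t)) * u - b := by
    intro t s u hf
    linear_combination (u : ℂ) ^ 2 * hf.1 + hf.2
  rcases Int.eq_nat_or_neg j with ⟨m, rfl | rfl⟩
  · by_contra hcon
    push Not at hcon
    apply Hn_ne_zero (a := a) hb (m := m) (by omega) (by
      by_cases ha : a = 0
      · right
        intro h3
        exact hcon.2.2 ha (by rw [h3]; rfl)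
      · exact Or.inl ha)
    apply eq_zero_of_fib hb
    intro t s u hf hd
    have e1 := hcyc t s u hf hd
    simp only [zpow_natCast] at e1
    rw [Hn_spec (x := -((t : ℂ) * s + s * u + u * t)) (a := a) (b := b)
      (by rw [hcub s u t hf.rot]; ring) (by rw [hcub u t s hf.rot.rot]; ring)
      (hcub t s u hf)] at e1
    refine (mul_eq_zero.mp e1).resolve_left ?_
    intro h0
    apply hd
    linear_combination -h0
  · by_contra hcon
    push Not at hcon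
    have hm : 1 ≤ m := by
      by_contra hm0
      obtain rfl : m = 0 := by omega
      exact hcon.1 (by simp)
    apply Kn_ne_zero a b hm
    apply eq_zero_of_fib hb
    intro t s u hf hd
    have e1 := hcyc t s u hf hd
    simp only [zpow_neg, zpow_natCast] at e1
    have hpow : ∀ (r : ℂˣ) (q : ℂ), q * r = -b →
        (-b) ^ m * ((r : ℂ) ^ m)⁻¹ = q ^ m := by
      intro r q hq
      have := pow_ne_zero m r.ne_zero
      rw [← hq, mul_pow]
      field_simp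
    have f1 := hpow u ((t : ℂ) * s) hf.2
    have f2 := hpow t ((s : ℂ) * u) (by linear_combination hf.2)
    have f3 := hpow s ((u : ℂ) * t) (by linear_combination hf.2)
    have e2 : ((t : ℂ) - s) * ((t : ℂ) * s) ^ m + ((s : ℂ) - u) * ((s : ℂ) * u) ^ m +
        ((u : ℂ) - t) * ((u : ℂ) * t) ^ m = 0 := by
      linear_combination (-b) ^ m * e1 - ((t : ℂ) - s) * f1 - ((s : ℂ) - u) * f2 -
        ((u : ℂ) - t) * f3
    obtain ⟨x', hx'⟩ : ∃ x', x' = -((t : ℂ) * s + s * u + u * t) := ⟨_, rfl⟩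
    rw [← hx']
    have g : ∀ p q r : ℂ, p + q + r = -a → p * q * r = -b → x' = -(p * q + q * r + r * p) →
        (p * q) ^ 3 = -x' * (p * q) ^ 2 - a * b * (p * q) + b ^ 2 := by
      intro p q r h1 h2 h3
      rw [h3]
      linear_combination b * (p * q) * h1 - ((p + q) * (p * q) + b) * h2
    rw [Kn_spec (x := x') (a := a) (b := b) (g t s u hf.1 hf.2 hx')
      (g s u t (by linear_combination hf.1) (by linear_combination hf.2)
        (by rw [hx']; ring))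
      (g u t s (by linear_combination hf.1) (by linear_combination hf.2)
        (by rw [hx']; ring)) (by ring) (by rw [hx']; ring) m] at e2
    refine (mul_eq_zero.mp e2).resolve_left ?_
    intro h0
    apply hd
    linear_combination -h0

variable {α β γ : ℂ}

theorem fpair {t s Θ P : ℂ} (h1 : 2 * (t + s) = Θ - α)
    (h2 : 16 * (t * s) = (Θ - α) ^ 2 - (3 * α ^ 2 - 8 * β) + Θ ^ 2 - 2 * P)
    (h3 : Θ * P = -(α ^ 3 - 4 * α * β + 8 * γ)) :
    (f40 α β γ).eval t = (f40 α β γ).eval s := by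
  have hσ : t + s = (Θ - α) / 2 := by linear_combination h1 / 2
  have hp : t * s = ((Θ - α) ^ 2 - (3 * α ^ 2 - 8 * β) + Θ ^ 2 - 2 * P) / 16 := by
    linear_combination h2 / 16
  have e : (t + s) ^ 3 - 2 * (t * s) * (t + s) + α * ((t + s) ^ 2 - t * s) + β * (t + s) + γ =
      0 := by
    rw [hσ, hp]
    linear_combination (1 / 8) * h3
  rw [f40_eval, f40_eval]
  linear_combination (t - s) * e

/-- the exponents -/
theorem exponent_cases (hh : α ^ 3 - 4 * α * β + 8 * γ ≠ 0) {Y : ℂ[X]} {k : ℕ} {c : ℂ} {m : ℤ}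
    (hc : c ≠ 0) (hrel : ∀ t s : ℂ, t ≠ s → (f40 α β γ).eval t = (f40 α β γ).eval s →
      s ^ k * Y.eval t - t ^ k * Y.eval s = c * (2 * (t + s) + α) ^ m * (t - s)) :
    m = 0 ∨ m = 1 ∨ (3 * α ^ 2 = 8 * β ∧ m = 3) := by
  obtain ⟨h, hhd⟩ : ∃ h, h = α ^ 3 - 4 * α * β + 8 * γ := ⟨_, rfl⟩
  rw [← hhd] at hh
  have key := zpow_cyc_cases (a := -(3 * α ^ 2 - 8 * β)) (b := -h ^ 2) (j := m)
    (neg_ne_zero.mpr (pow_ne_zero 2 hh)) (by
    intro w₁ w₂ w₃ hF hd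
    obtain ⟨Θ₁, hΘ₁⟩ := IsAlgClosed.exists_pow_nat_eq (w₁ : ℂ) (by norm_num : 0 < 2)
    obtain ⟨Θ₂, hΘ₂⟩ := IsAlgClosed.exists_pow_nat_eq (w₂ : ℂ) (by norm_num : 0 < 2)
    obtain ⟨F1, F2⟩ := hF
    have hw₁ := w₁.ne_zero
    have hw₂ := w₂.ne_zero
    have hw₃ := w₃.ne_zero
    obtain ⟨w₁, rfl⟩ : ∃ w, w = (w₁ : ℂ) := ⟨_, rfl⟩
    have n1 : Θ₁ ≠ 0 := by
      rintro rfl
      rw [zero_pow two_ne_zero] at hΘ₁
      exact hw₁ hΘ₁.symm
    have n2 : Θ₂ ≠ 0 := by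
      rintro rfl
      rw [zero_pow two_ne_zero] at hΘ₂
      exact hw₂ hΘ₂.symm
    obtain ⟨Θ₃, hΘ₃d⟩ : ∃ Θ, Θ = -h / (Θ₁ * Θ₂) := ⟨_, rfl⟩
    have hprod : Θ₁ * Θ₂ * Θ₃ = -h := by
      rw [hΘ₃d]
      field_simp
    have hΘ₃ : Θ₃ ^ 2 = w₃ := by
      apply mul_left_cancel₀ (mul_ne_zero hw₁ hw₂)
      rw [← hΘ₁, ← hΘ₂] at F2 ⊢
      linear_combination (Θ₁ * Θ₂ * Θ₃ - h) * hprod - F2
    rw [← hΘ₁, ← hΘ₂, ← hΘ₃] at F1 F2 hd ⊢
    obtain ⟨t₁, ht₁⟩ : ∃ t, t = (-α + Θ₁ + Θ₂ + Θ₃) / 4 := ⟨_, rfl⟩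
    obtain ⟨t₂, ht₂⟩ : ∃ t, t = (-α + Θ₁ - Θ₂ - Θ₃) / 4 := ⟨_, rfl⟩
    obtain ⟨t₃, ht₃⟩ : ∃ t, t = (-α - Θ₁ + Θ₂ - Θ₃) / 4 := ⟨_, rfl⟩
    obtain ⟨t₄, ht₄⟩ : ∃ t, t = (-α - Θ₁ - Θ₂ + Θ₃) / 4 := ⟨_, rfl⟩
    have g1 : (t₁ - t₂) * (t₃ - t₄) = (Θ₂ ^ 2 - Θ₃ ^ 2) / 4 := by
      rw [ht₁, ht₂, ht₃, ht₄]; ring
    have g2 : (t₁ - t₃) * (t₂ - t₄) = (Θ₁ ^ 2 - Θ₃ ^ 2) / 4 := by
      rw [ht₁, ht₂, ht₃, ht₄]; ring
    have g3 : (t₁ - t₄) * (t₂ - t₃) = (Θ₁ ^ 2 - Θ₂ ^ 2) / 4 := by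
      rw [ht₁, ht₂, ht₃, ht₄]; ring
    have d1 : (Θ₂ ^ 2 - Θ₃ ^ 2) / 4 ≠ 0 := by
      intro h0
      apply hd
      linear_combination (4 * (Θ₁ ^ 2 - Θ₂ ^ 2) * (Θ₃ ^ 2 - Θ₁ ^ 2)) * h0
    have d2 : (Θ₁ ^ 2 - Θ₃ ^ 2) / 4 ≠ 0 := by
      intro h0
      apply hd
      linear_combination (-4 * (Θ₁ ^ 2 - Θ₂ ^ 2) * (Θ₂ ^ 2 - Θ₃ ^ 2)) * h0
    have d3 : (Θ₁ ^ 2 - Θ₂ ^ 2) / 4 ≠ 0 := by
      intro h0
      apply hd
      linear_combination (4 * (Θ₂ ^ 2 - Θ₃ ^ 2) * (Θ₃ ^ 2 - Θ₁ ^ 2)) * h0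
    rw [← g1] at d1
    rw [← g2] at d2
    rw [← g3] at d3
    have n12 := sub_ne_zero.mp (left_ne_zero_of_mul d1)
    have n34 := sub_ne_zero.mp (right_ne_zero_of_mul d1)
    have n13 := sub_ne_zero.mp (left_ne_zero_of_mul d2)
    have n24 := sub_ne_zero.mp (right_ne_zero_of_mul d2)
    have n14 := sub_ne_zero.mp (left_ne_zero_of_mul d3)
    have n23 := sub_ne_zero.mp (right_ne_zero_of_mul d3)
    rw [hhd] at hprod
    have r12 := hrel t₁ t₂ n12 (fpair (Θ := Θ₁) (P := Θ₂ * Θ₃) (by rw [ht₁, ht₂]; ring)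
      (by rw [ht₁, ht₂]; linear_combination -F1) (by linear_combination hprod))
    have r34 := hrel t₃ t₄ n34 (fpair (Θ := -Θ₁) (P := -(Θ₂ * Θ₃)) (by rw [ht₃, ht₄]; ring)
      (by rw [ht₃, ht₄]; linear_combination -F1) (by linear_combination hprod))
    have r13 := hrel t₁ t₃ n13 (fpair (Θ := Θ₂) (P := Θ₁ * Θ₃) (by rw [ht₁, ht₃]; ring)
      (by rw [ht₁, ht₃]; linear_combination -F1) (by linear_combination hprod))
    have r24 := hrel t₂ t₄ n24 (fpair (Θ := -Θ₂) (P := -(Θ₁ * Θ₃)) (by rw [ht₂, ht₄]; ring)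
      (by rw [ht₂, ht₄]; linear_combination -F1) (by linear_combination hprod))
    have r14 := hrel t₁ t₄ n14 (fpair (Θ := Θ₃) (P := Θ₁ * Θ₂) (by rw [ht₁, ht₄]; ring)
      (by rw [ht₁, ht₄]; linear_combination -F1) (by linear_combination hprod))
    have r23 := hrel t₂ t₃ n23 (fpair (Θ := -Θ₃) (P := -(Θ₁ * Θ₂)) (by rw [ht₂, ht₃]; ring)
      (by rw [ht₂, ht₃]; linear_combination -F1) (by linear_combination hprod))
    rw [show 2 * (t₁ + t₂) + α = Θ₁ by rw [ht₁, ht₂]; ring] at r12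
    rw [show 2 * (t₃ + t₄) + α = -Θ₁ by rw [ht₃, ht₄]; ring] at r34
    rw [show 2 * (t₁ + t₃) + α = Θ₂ by rw [ht₁, ht₃]; ring] at r13
    rw [show 2 * (t₂ + t₄) + α = -Θ₂ by rw [ht₂, ht₄]; ring] at r24
    rw [show 2 * (t₁ + t₄) + α = Θ₃ by rw [ht₁, ht₄]; ring] at r14
    rw [show 2 * (t₂ + t₃) + α = -Θ₃ by rw [ht₂, ht₃]; ring] at r23
    have hz : ∀ Θ : ℂ, Θ ^ m * (-Θ) ^ m = (-1) ^ m * (Θ ^ 2) ^ m := by
      intro Θ
      rw [← mul_zpow, ← mul_zpow]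
      congr 1
      ring
    have z1 := hz Θ₁
    have z2 := hz Θ₂
    have z3 := hz Θ₃
    have hone : ((-1 : ℂ)) ^ m ≠ 0 := zpow_ne_zero _ (by norm_num)
    apply mul_left_cancel₀ (mul_ne_zero (pow_ne_zero 2 hc) hone)
    obtain ⟨A₁, hA₁⟩ : ∃ A, A = Θ₁ ^ m := ⟨_, rfl⟩
    obtain ⟨A₂, hA₂⟩ : ∃ A, A = Θ₂ ^ m := ⟨_, rfl⟩
    obtain ⟨A₃, hA₃⟩ : ∃ A, A = Θ₃ ^ m := ⟨_, rfl⟩
    obtain ⟨B₁, hB₁⟩ : ∃ A, A = (-Θ₁) ^ m := ⟨_, rfl⟩
    obtain ⟨B₂, hB₂⟩ : ∃ A, A = (-Θ₂) ^ m := ⟨_, rfl⟩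
    obtain ⟨B₃, hB₃⟩ : ∃ A, A = (-Θ₃) ^ m := ⟨_, rfl⟩
    rw [← hA₁] at r12 z1
    rw [← hA₂] at r13 z2
    rw [← hA₃] at r14 z3
    rw [← hB₁] at r34 z1
    rw [← hB₂] at r24 z2
    rw [← hB₃] at r23 z3
    -- the Plücker relation
    obtain ⟨p₁, hp₁⟩ : ∃ p, p = t₁ ^ k := ⟨_, rfl⟩
    obtain ⟨p₂, hp₂⟩ : ∃ p, p = t₂ ^ k := ⟨_, rfl⟩
    obtain ⟨p₃, hp₃⟩ : ∃ p, p = t₃ ^ k := ⟨_, rfl⟩
    obtain ⟨p₄, hp₄⟩ : ∃ p, p = t₄ ^ k := ⟨_, rfl⟩
    rw [← hp₁] at r12 r13 r14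
    rw [← hp₂] at r12 r23 r24
    rw [← hp₃] at r13 r23 r34
    rw [← hp₄] at r14 r24 r34
    have pl : (c * A₁ * (t₁ - t₂)) * (c * B₁ * (t₃ - t₄)) -
        (c * A₂ * (t₁ - t₃)) * (c * B₂ * (t₂ - t₄)) +
        (c * A₃ * (t₁ - t₄)) * (c * B₃ * (t₂ - t₃)) = 0 := by
      rw [← r12, ← r34, ← r13, ← r24, ← r14, ← r23]; ring
    have pl2 : c ^ 2 * ((-1) ^ m * (Θ₁ ^ 2) ^ m * ((Θ₂ ^ 2 - Θ₃ ^ 2) / 4) -
        (-1) ^ m * (Θ₂ ^ 2) ^ m * ((Θ₁ ^ 2 - Θ₃ ^ 2) / 4) +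
        (-1) ^ m * (Θ₃ ^ 2) ^ m * ((Θ₁ ^ 2 - Θ₂ ^ 2) / 4)) = 0 := by
      rw [← z1, ← z2, ← z3, ← g1, ← g2, ← g3]
      linear_combination pl
    linear_combination 4 * pl2)
  rcases key with h1 | h1 | ⟨h1, h2⟩
  · exact Or.inl h1
  · exact Or.inr (Or.inl h1)
  · right; right
    exact ⟨by linear_combination -h1, h2⟩

/-- the second coordinate is a multiple of `T ^ (-4)` up to a polynomial in the first one -/
theorem cls₄_of_inv_four {φ : P2 →ₐ[ℂ] ℂ[T;T⁻¹]} (hφ : Function.Surjective φ) {a : ℂ}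
    (ha : a ≠ 0) {H : ℂ[X]} (h1 : φ (MvPolynomial.X 1) = LaurentPolynomial.C a * T (-1) ^ 4 +
      aeval (φ (MvPolynomial.X 0)) H) : Cls₄ φ := by
  apply Cls₄.of_comp (tri 1 0 a⁻¹ one_ne_zero (inv_ne_zero ha) (Polynomial.C (-a⁻¹) * H))
  apply Cls₄.of_comp swapXY
  apply cls₄_inv (surjective_comp_equiv (surjective_comp_equiv hφ _) _)
  intro φ' hφ' h0'
  apply cls₄_pow hφ'
  rw [h0']
  have haa : (LaurentPolynomial.C a⁻¹ : ℂ[T;T⁻¹]) * LaurentPolynomial.C a = 1 := by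
    rw [← map_mul, inv_mul_cancel₀ ha, map_one]
  have h4 : ((φ.comp (tri 1 0 a⁻¹ one_ne_zero (inv_ne_zero ha) (Polynomial.C (-a⁻¹) * H) :
      P2 →ₐ[ℂ] P2)).comp (swapXY : P2 →ₐ[ℂ] P2)) (MvPolynomial.X 0) = T (-1) ^ 4 := by
    change (φ.comp (tri 1 0 a⁻¹ one_ne_zero (inv_ne_zero ha) (Polynomial.C (-a⁻¹) * H) :
      P2 →ₐ[ℂ] P2)) (swapXY (MvPolynomial.X 0)) = _
    rw [swapXY_X0, comp_tri_X1, h1, map_mul, aeval_C, ← LaurentPolynomial.C_eq_algebraMap,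
      map_neg]
    linear_combination T (-1) ^ 4 * haa
  rw [h4, map_pow, inv'_T, T_pow]
  congr 1

/-- the case of a constant difference quotient -/
theorem cls_of_key {φ : P2 →ₐ[ℂ] ℂ[T;T⁻¹]} (hφ : Function.Surjective φ) {f : ℂ[X]}
    (hf : f.Monic) (hd : f.natDegree = 4) (hf0 : f.coeff 0 = 0) (hf1 : f.coeff 1 ≠ 0)
    (h0 : φ (MvPolynomial.X 0) = toLaurent f) {Y : ℂ[X]} {k : ℕ} (hk : 1 ≤ k)
    (hy : φ (MvPolynomial.X 1) = toLaurent Y * T (-(k : ℤ))) {c : ℂ} (hc : c ≠ 0)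
    (hkey : ∀ t s : ℂ, f.eval t = f.eval s →
      s ^ k * Y.eval t - t ^ k * Y.eval s = c * (t - s)) : Cls₄ φ := by
  obtain ⟨c', G, hc', hcase⟩ := poly_classification hf (by omega) hf0 hf1 hk hc hkey
  have hTT := T_mul_T_neg
  rw [hd] at hcase
  rcases hcase with ⟨hk1, hYe⟩ | ⟨hkd, _, hYe⟩ | ⟨hkd, r, hr, hfr, hYe⟩
  · apply Cls.cls₄
    refine cls_of_X1_degree hφ (F := 1) (k := 1) (by compute_degree!) (by omega) hc' (H := G) ?_
    rw [hy, h0, hYe, hk1, map_add, map_mul, toLaurent_C, toLaurent_X, aeval_toLaurent, map_one]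
    simp only [Nat.cast_one]
    linear_combination toLaurent (G.comp f) * hTT
  · refine cls₄_of_inv_four hφ hc' (H := G) ?_
    have h4 : (T (-((4 : ℕ) : ℤ)) : ℂ[T;T⁻¹]) = T (-1) ^ 4 := by rw [T_pow]; congr 1
    have h5 : (T 1 ^ 4 * T (-1) ^ 4 : ℂ[T;T⁻¹]) = 1 := by rw [← mul_pow, hTT, one_pow]
    rw [hy, h0, hYe, hkd, map_add, map_mul, map_pow, toLaurent_C, toLaurent_X, aeval_toLaurent, h4]
    linear_combination toLaurent (G.comp f) * h5
  · have hfs : f = Polynomial.C (r ^ 3) * X + Polynomial.C (r ^ 2) * X ^ 2 +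
        Polynomial.C r * X ^ 3 + X ^ 4 := by
      apply mul_right_cancel₀ (X_sub_C_ne_zero r)
      rw [hfr]
      simp only [map_pow]
      ring
    have hY : φ (MvPolynomial.X 1) = LaurentPolynomial.C c' * (T (-1) ^ 4 -
        LaurentPolynomial.C r * T (-1) ^ 5) + aeval (φ (MvPolynomial.X 0)) G := by
      have h4 : (T (-((5 : ℕ) : ℤ)) : ℂ[T;T⁻¹]) = T (-1) ^ 5 := by rw [T_pow]; congr 1
      have h5 : (T 1 ^ 5 * T (-1) ^ 5 : ℂ[T;T⁻¹]) = 1 := by rw [← mul_pow, hTT, one_pow]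
      rw [hy, h0, hYe, hkd, map_add, map_mul, map_mul, map_pow, map_sub, toLaurent_C,
        toLaurent_C, toLaurent_X, aeval_toLaurent, h4]
      linear_combination toLaurent (G.comp f) * h5 + LaurentPolynomial.C c' * T (-1) ^ 4 * hTT
    obtain ⟨μ, hμ⟩ : ∃ μ, μ = (r ^ 4)⁻¹ := ⟨_, rfl⟩
    obtain ⟨κ, hκ⟩ : ∃ κ, κ = r ^ 4 * c'⁻¹ := ⟨_, rfl⟩
    have hμ0 : μ ≠ 0 := by rw [hμ]; exact inv_ne_zero (pow_ne_zero _ hr)
    have hκ0 : κ ≠ 0 := by
      rw [hκ]; exact mul_ne_zero (pow_ne_zero _ hr) (inv_ne_zero hc')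
    apply Cls₄.of_aut (levA (sc r hr)) (levA_sc_injective r hr)
    apply Cls₄.of_comp (tri μ 0 κ hμ0 hκ0 (Polynomial.C (-κ) * G))
    have e1 : levA (sc r hr) (T 1 : ℂ[T;T⁻¹]) = LaurentPolynomial.C r * T 1 := by
      rw [levA_apply, lev_sc_T, zpow_one]
    have e2 : levA (sc r hr) (T (-1) : ℂ[T;T⁻¹]) = LaurentPolynomial.C r⁻¹ * T (-1) := by
      rw [levA_apply, lev_sc_T, zpow_neg_one]
    have e3 : ∀ z, levA (sc r hr) (LaurentPolynomial.C z : ℂ[T;T⁻¹]) = LaurentPolynomial.C z := by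
      intro z
      rw [levA_apply, lev_C, LaurentPolynomial.C_eq_algebraMap]
    have c3 : (LaurentPolynomial.C r : ℂ[T;T⁻¹]) * LaurentPolynomial.C r⁻¹ = 1 := by
      rw [← map_mul, mul_inv_cancel₀ hr, map_one]
    have hxx : levA (sc r hr) (toLaurent f) = LaurentPolynomial.C (r ^ 4) *
        (T 1 + T 1 ^ 2 + T 1 ^ 3 + T 1 ^ 4) := by
      rw [hfs]
      simp only [map_add, map_mul, map_pow, toLaurent_C, toLaurent_X, e1, e3]
      ring
    have hyy : levA (sc r hr) (T (-1) ^ 4 - LaurentPolynomial.C r * T (-1) ^ 5) =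
        LaurentPolynomial.C (r ^ 4)⁻¹ * (T (-1) ^ 4 - T (-1) ^ 5) := by
      simp only [map_sub, map_mul, map_pow, e2, e3, ← inv_pow]
      linear_combination (-(LaurentPolynomial.C r⁻¹) ^ 4 * T (-1) ^ 5) * c3
    refine cls₄_of_std (c := 0) (x₁ := ∑ i ∈ Finset.range 4, T ((i + 1 : ℕ) : ℤ))
      (y₁ := T (-((4 : ℕ) : ℤ)) - T (-((4 + 1 : ℕ) : ℤ))) (q := q₃ 4) ?_
      (Or.inr (Or.inr (Or.inr (Or.inr (Or.inl rfl))))) ?_ ?_
    · rw [map_zero, sub_zero]; exact isStd_third (d := 4) (by omega)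
    · rw [comp_tri_X0, AlgHom.comp_apply, h0, hxx, map_zero, add_zero, ← mul_assoc, ← map_mul]
      have : μ * r ^ 4 = 1 := by rw [hμ]; exact inv_mul_cancel₀ (pow_ne_zero _ hr)
      rw [this, map_one, one_mul]
      simp only [Finset.sum_range_succ, Finset.sum_range_zero, zero_add, T_pow]
      norm_num
    · rw [comp_tri_X1, AlgHom.comp_apply, AlgHom.comp_apply, hY, map_add, map_mul, e3, hyy,
        ← aeval_algHom_apply, map_mul, aeval_C, ← LaurentPolynomial.C_eq_algebraMap, map_neg]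
      have : (LaurentPolynomial.C κ : ℂ[T;T⁻¹]) * LaurentPolynomial.C c' *
          LaurentPolynomial.C (r ^ 4)⁻¹ = 1 := by
        rw [← map_mul, ← map_mul, ← map_one LaurentPolynomial.C]; congr 1
        rw [hκ]; field_simp
      have h4 : (T (-((4 : ℕ) : ℤ)) : ℂ[T;T⁻¹]) = T (-1) ^ 4 := by rw [T_pow]; congr 1
      have h5 : (T (-((4 + 1 : ℕ) : ℤ)) : ℂ[T;T⁻¹]) = T (-1) ^ 5 := by rw [T_pow]; congr 1
      rw [h4, h5]
      linear_combination (T (-1) ^ 4 - T (-1) ^ 5) * this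

theorem f40_coeff_zero (α β γ : ℂ) : (f40 α β γ).coeff 0 = 0 := by
  unfold f40; simp

theorem f40_coeff_one (α β γ : ℂ) : (f40 α β γ).coeff 1 = γ := by
  unfold f40; simp [coeff_X_pow]

theorem exists_nat_cases {k : ℕ} (hk : 1 ≤ k) : k = 1 ∨ k = 2 ∨
    ∃ l, k = 4 * l + 3 ∨ k = 4 * l + 4 ∨ k = 4 * l + 5 ∨ k = 4 * l + 6 := by
  by_cases h1 : k = 1
  · exact Or.inl h1
  · by_cases h2 : k = 2
    · exact Or.inr (Or.inl h2)
    · right; right
      exact ⟨(k - 3) / 4, by omega⟩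

theorem cast_add_ne (m n : ℕ) (hn : n ≠ 0) : ((m : ℂ) + n) ≠ 0 := by
  rw [← Nat.cast_add]
  exact_mod_cast (by omega : m + n ≠ 0)

/-- the consequences of `span_key` for `2 T ^ 2 + α T` -/
theorem theta_cases {k : ℕ} (hγ : γ ≠ 0) (hk : 1 ≤ k) (h1 : C40 α β γ k = 0)
    (h2 : Polynomial.C α * C40 α β γ (k + 1) =
      Polynomial.C 2 * (C40 α β γ (k + 2) + Polynomial.C α * C40 α β γ (k + 1))) :
    k = 2 ∧ α = 0 := by
  have h2' : ∀ n, α * (C40 α β γ (k + 1)).coeff n =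
      2 * ((C40 α β γ (k + 2)).coeff n + α * (C40 α β γ (k + 1)).coeff n) := by
    intro n
    have := congrArg (fun p : ℂ[X] => p.coeff n) h2
    simpa only [coeff_C_mul, coeff_add] using this
  have e1 : C40 α β γ 1 = 0 := rfl
  have e2 : C40 α β γ 2 = 0 := rfl
  rcases exists_nat_cases hk with rfl | rfl | ⟨l, rfl | rfl | rfl | rfl⟩
  · have h := h2' 0
    obtain ⟨c3, _, _, _⟩ := C40_lead4 α β γ 0
    norm_num only at c3 h
    rw [c3, e2, coeff_zero] at h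
    exfalso
    have : (2 : ℂ) = 0 := by linear_combination -h
    norm_num at this
  · refine ⟨rfl, ?_⟩
    have h := h2' 0
    obtain ⟨c3, c4, _, _⟩ := C40_lead4 α β γ 0
    norm_num only at c3 c4 h
    rw [c3, c4] at h
    linear_combination h
  · exfalso
    have h := (C40_lead4 α β γ l).1
    rw [h1, coeff_zero] at h
    exact zero_ne_one h
  · exfalso
    obtain ⟨_, c4, _, c6⟩ := C40_lead4 α β γ l
    rw [h1, coeff_zero] at c4
    have hl := cast_add_ne l 1 one_ne_zero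
    push_cast at hl
    have hα : α = 0 := by
      have : ((l : ℂ) + 1) * α = 0 := by linear_combination c4
      exact (mul_eq_zero.mp this).resolve_left hl
    have h := h2' l
    rw [show 4 * l + 4 + 2 = 4 * l + 6 by ring, c6, hα] at h
    apply mul_ne_zero hl hγ
    linear_combination h / 2
  · exfalso
    obtain ⟨c7, _, _, _⟩ := C40_lead4 α β γ (l + 1)
    have h := h2' (l + 1)
    rw [show 4 * l + 5 + 2 = 4 * (l + 1) + 3 by ring, c7,
      C40_coeff_zero α β γ (i := 4 * l + 5 + 1) (by omega)] at h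
    have : (2 : ℂ) = 0 := by linear_combination -h
    norm_num at this
  · exfalso
    obtain ⟨c7, c8, _, _⟩ := C40_lead4 α β γ (l + 1)
    obtain ⟨_, _, _, c6⟩ := C40_lead4 α β γ l
    have hl := cast_add_ne l 1 one_ne_zero
    push_cast at hl
    have h := h2' (l + 1)
    rw [show 4 * l + 6 + 2 = 4 * (l + 1) + 4 by ring, show 4 * l + 6 + 1 = 4 * (l + 1) + 3 by ring,
      c7, c8] at h
    push_cast at h
    have h3 := cast_add_ne (2 * l) 3 (by norm_num)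
    push_cast at h3
    have hα : α = 0 := by
      have : (2 * (l : ℂ) + 3) * α = 0 := by linear_combination h
      exact (mul_eq_zero.mp this).resolve_left h3
    rw [h1, coeff_zero, hα] at c6
    apply mul_ne_zero hl hγ
    linear_combination c6

/-- the consequences of `span_key3` -/
theorem cube_cases {k : ℕ} {a : ℂ} (hα : α = 4 * a) (hβ : β = 6 * a ^ 2) (hγ : γ ≠ 0)
    (hk : 1 ≤ k)
    (h1 : C40 α β γ (k + 1) + Polynomial.C α * C40 α β γ k = Polynomial.C (3 * a) * C40 α β γ k)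
    (h2 : C40 α β γ (k + 3) + Polynomial.C α * C40 α β γ (k + 2) +
      Polynomial.C β * C40 α β γ (k + 1) + Polynomial.C γ * C40 α β γ k =
      Polynomial.C a * (C40 α β γ (k + 2) + Polynomial.C α * C40 α β γ (k + 1) +
        Polynomial.C β * C40 α β γ k) +
        Polynomial.C ((γ - 4 * a ^ 3) / 2 - 2 * a ^ 3) * C40 α β γ k) :
    k = 1 ∧ a = 0 := by
  have h1' : ∀ n, (C40 α β γ (k + 1)).coeff n + α * (C40 α β γ k).coeff n =
      3 * a * (C40 α β γ k).coeff n := by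
    intro n
    have := congrArg (fun p : ℂ[X] => p.coeff n) h1
    simpa only [coeff_C_mul, coeff_add] using this
  have h2' : ∀ n, (C40 α β γ (k + 3)).coeff n + α * (C40 α β γ (k + 2)).coeff n +
      β * (C40 α β γ (k + 1)).coeff n + γ * (C40 α β γ k).coeff n =
      a * ((C40 α β γ (k + 2)).coeff n + α * (C40 α β γ (k + 1)).coeff n +
        β * (C40 α β γ k).coeff n) +
        ((γ - 4 * a ^ 3) / 2 - 2 * a ^ 3) * (C40 α β γ k).coeff n := by
    intro n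
    have := congrArg (fun p : ℂ[X] => p.coeff n) h2
    simpa only [coeff_C_mul, coeff_add] using this
  have e1 : C40 α β γ 1 = 0 := rfl
  have e2 : C40 α β γ 2 = 0 := rfl
  rcases exists_nat_cases hk with rfl | rfl | ⟨l, rfl | rfl | rfl | rfl⟩
  · refine ⟨rfl, ?_⟩
    have h := h2' 0
    obtain ⟨c3, c4, _, _⟩ := C40_lead4 α β γ 0
    norm_num only at c3 c4 h
    rw [c3, c4, e1, e2, coeff_zero] at h
    push_cast at h
    linear_combination -h
  · exfalso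
    have h := h1' 0
    obtain ⟨c3, _, _, _⟩ := C40_lead4 α β γ 0
    norm_num only at c3 h
    rw [c3, e2, coeff_zero] at h
    have : (1 : ℂ) = 0 := by linear_combination h
    norm_num at this
  · exfalso
    obtain ⟨c3, c4, _, c6⟩ := C40_lead4 α β γ l
    have h := h1' l
    rw [show 4 * l + 3 + 1 = 4 * l + 4 by ring, c3, c4, hα] at h
    have h3 := cast_add_ne (4 * l) 3 (by norm_num)
    push_cast at h3
    have ha : a = 0 := by
      have : (4 * (l : ℂ) + 3) * a = 0 := by linear_combination -h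
      exact (mul_eq_zero.mp this).resolve_left h3
    have h := h2' l
    have z5 := (C40_lead4 α β γ l).2.2.1
    rw [show 4 * l + 3 + 3 = 4 * l + 6 by ring, show 4 * l + 3 + 2 = 4 * l + 5 by ring,
      show 4 * l + 3 + 1 = 4 * l + 4 by ring, c3, c4, z5, c6, hα, hβ, ha] at h
    have h4 := cast_add_ne (2 * l) 1 (by norm_num)
    push_cast at h4
    apply mul_ne_zero h4 hγ
    linear_combination -2 * h
  · exfalso
    obtain ⟨c3, c4, c5, c6⟩ := C40_lead4 α β γ l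
    have h := h1' l
    rw [show 4 * l + 4 + 1 = 4 * l + 5 by ring, c4, c5, hα, hβ] at h
    have hl := cast_add_ne l 1 one_ne_zero
    have h3 := cast_add_ne (4 * l) 3 (by norm_num)
    push_cast at h3 hl
    have ha : a = 0 := by
      have : ((l : ℂ) + 1) * (4 * (l : ℂ) + 3) * a ^ 2 = 0 := by linear_combination h / 2
      exact pow_eq_zero_iff two_ne_zero |>.mp
        ((mul_eq_zero.mp this).resolve_left (mul_ne_zero hl h3))
    obtain ⟨c7, _, _, _⟩ := C40_lead4 α β γ (l + 1)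
    have h := h2' (l + 1)
    rw [show 4 * l + 4 + 3 = 4 * (l + 1) + 3 by ring, c7,
      C40_coeff_zero α β γ (i := 4 * l + 4 + 2) (by omega),
      C40_coeff_zero α β γ (i := 4 * l + 4 + 1) (by omega),
      C40_coeff_zero α β γ (i := 4 * l + 4) (by omega)] at h
    have : (1 : ℂ) = 0 := by linear_combination h
    norm_num at this
  · exfalso
    obtain ⟨c7, c8, _, _⟩ := C40_lead4 α β γ (l + 1)
    obtain ⟨_, _, _, c6⟩ := C40_lead4 α β γ l
    have h := h2' (l + 1)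
    rw [show 4 * l + 5 + 3 = 4 * (l + 1) + 4 by ring, show 4 * l + 5 + 2 = 4 * (l + 1) + 3 by ring,
      c7, c8, C40_coeff_zero α β γ (i := 4 * l + 5 + 1) (by omega),
      C40_coeff_zero α β γ (i := 4 * l + 5) (by omega), hα] at h
    push_cast at h
    have h3 := cast_add_ne (4 * l) 5 (by norm_num)
    push_cast at h3
    have ha : a = 0 := by
      have : (4 * (l : ℂ) + 5) * a = 0 := by linear_combination -h
      exact (mul_eq_zero.mp this).resolve_left h3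
    have h := h1' l
    rw [show 4 * l + 5 + 1 = 4 * l + 6 by ring, c6, hα, ha] at h
    have hl := cast_add_ne l 1 one_ne_zero
    push_cast at hl
    apply mul_ne_zero hl hγ
    linear_combination -h
  · exfalso
    obtain ⟨c7, _, _, _⟩ := C40_lead4 α β γ (l + 1)
    have h := h1' (l + 1)
    rw [show 4 * l + 6 + 1 = 4 * (l + 1) + 3 by ring, c7,
      C40_coeff_zero α β γ (i := 4 * l + 6) (by omega)] at h
    have : (1 : ℂ) = 0 := by linear_combination h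
    norm_num at this

/-- **The class of embeddings having `T ^ 4 + α T ^ 3 + β T ^ 2 + γ T` as a coordinate**, with
`γ ≠ 0` and `α ^ 3 - 4 α β + 8 γ ≠ 0`. -/
theorem cls_forty_one (hγ : γ ≠ 0) (hh : α ^ 3 - 4 * α * β + 8 * γ ≠ 0)
    {φ : P2 →ₐ[ℂ] ℂ[T;T⁻¹]} (hφ : Function.Surjective φ)
    (h0 : φ (MvPolynomial.X 0) = x40 α β γ) : Cls₄ φ := by
  have hadj := adjoin_of_surjective hφ
  rw [h0] at hadj
  have hadj' := hadj
  unfold x40 at hadj'
  obtain ⟨Y, k, hk, hY, hy⟩ := exists_pole hadj'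
  have hadj2 := hadj'
  rw [hy] at hadj2
  obtain ⟨c, m, n, hc, hn, hrel⟩ := forty_structure hh hk hY hadj2
  have hn0 := hn hγ
  subst hn0
  have hrel' : ∀ t s : ℂ, t ≠ s → (f40 α β γ).eval t = (f40 α β γ).eval s →
      s ^ k * Y.eval t - t ^ k * Y.eval s = c * (2 * (t + s) + α) ^ m * (t - s) := by
    intro t s hts hf
    rw [(hrel t s hts hf).2, pow_zero, mul_one]
  have hTT := T_mul_T_neg
  -- the relation for the values of the second coordinate
  have hyval : ∀ t : ℂˣ, (t : ℂ) ^ k * lev t (φ (MvPolynomial.X 1)) = Y.eval (t : ℂ) := by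
    intro t
    have := lev_y t Y k
    rw [coe_aeval_eq_eval, ← hy] at this
    rw [mul_comm]; exact this
  have hval : ∀ t s : ℂˣ, t ≠ s → (f40 α β γ).eval (t : ℂ) = (f40 α β γ).eval (s : ℂ) →
      (t : ℂ) ^ k * (s : ℂ) ^ k *
        (lev t (φ (MvPolynomial.X 1)) - lev s (φ (MvPolynomial.X 1))) =
        c * (2 * ((t : ℂ) + s) + α) ^ m * (t - s) := by
    intro t s hts hf
    rw [← hrel' t s (fun h => hts (Units.ext h)) hf, ← hyval t, ← hyval s]
    ring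
  -- a nonzero zero
  obtain ⟨r, hr⟩ : ∃ r : ℂˣ, (f40 α β γ).eval (r : ℂ) = 0 := by
    obtain ⟨P, hP⟩ : ∃ P : ℂ[X], P = X ^ 3 + Polynomial.C α * X ^ 2 + Polynomial.C β * X +
        Polynomial.C γ := ⟨_, rfl⟩
    have hd : P.natDegree = 3 := by rw [hP]; compute_degree!
    obtain ⟨r, hr⟩ := IsAlgClosed.exists_root P (by
      intro h0
      have h1 := natDegree_eq_of_degree_eq_some h0
      rw [hd] at h1
      norm_num at h1)
    rw [IsRoot.def, hP] at hr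
    simp only [eval_add, eval_mul, eval_pow, eval_X, eval_C] at hr
    have hr0 : r ≠ 0 := by
      rintro rfl
      apply hγ
      linear_combination hr
    refine ⟨Units.mk0 r hr0, ?_⟩
    rw [Units.val_mk0, f40_eval]
    linear_combination r * hr
  rcases exponent_cases hh hc hrel' with rfl | rfl | ⟨hab, rfl⟩
  · refine cls_of_key hφ (f40_monic α β γ) (f40_natDegree α β γ) (f40_coeff_zero α β γ)
      (by rw [f40_coeff_one]; exact hγ) (by rw [h0, x40]) hk hy hc ?_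
    intro t s hf
    by_cases hts : t = s
    · subst hts; ring
    · rw [hrel' t s hts hf, zpow_zero, mul_one]
  · obtain ⟨h1, h2⟩ := span_key (c := c) (g₂ := 2) (g₁ := α) hadj (by
      intro t s hts hf
      rw [hval t s hts hf, zpow_one]
      ring)
    obtain ⟨rfl, rfl⟩ := theta_cases hγ hk h1 h2
    obtain ⟨G, hG⟩ := const40 hr (z := φ (MvPolynomial.X 1) +
      LaurentPolynomial.C (2 * c) * T (-1) ^ 2) (by
      intro t s hts hf
      have h3 := hval t s hts hf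
      simp only [map_add, map_mul, map_pow, lev_C, lev_invT, Algebra.algebraMap_self,
        RingHom.id_apply, map_ofNat]
      have ht := t.ne_zero
      have hs := s.ne_zero
      rw [zpow_one] at h3
      field_simp
      linear_combination h3)
    apply Cls.cls₄
    refine cls_of_X1_degree hφ (F := 1) (k := 2) (by compute_degree!) (by omega)
      (a := -(2 * c)) (neg_ne_zero.mpr (mul_ne_zero two_ne_zero hc)) (H := G) ?_
    have h4 : (T (-((2 : ℕ) : ℤ)) : ℂ[T;T⁻¹]) = T (-1) ^ 2 := by rw [T_pow]; congr 1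
    rw [h0, map_one, one_mul, h4, ← hG, map_neg]
    ring
  · obtain ⟨a, ha⟩ : ∃ a, a = α / 4 := ⟨_, rfl⟩
    have hα : α = 4 * a := by rw [ha]; ring
    have hβ : β = 6 * a ^ 2 := by rw [ha]; linear_combination (-1 / 8) * hab
    obtain ⟨h1, h2⟩ := span_key3 (c := 8 * c) (a := a) (g := γ - 4 * a ^ 3) hadj (by
      intro t s hts hf
      rw [hval t s hts hf, zpow_ofNat]
      rw [f40_eval, f40_eval, hα, hβ] at hf
      rw [hα]
      linear_combination 8 * c * hf)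
    obtain ⟨rfl, rfl⟩ := cube_cases hα hβ hγ hk h1 h2
    have hα0 : α = 0 := by rw [hα]; ring
    have hβ0 : β = 0 := by rw [hβ]; ring
    subst hα0
    subst hβ0
    obtain ⟨G, hG⟩ := const40 hr (z := φ (MvPolynomial.X 1) -
      LaurentPolynomial.C (8 * c) * (2 * T 1 ^ 2 + LaurentPolynomial.C γ * T (-1))) (by
      intro t s hts hf
      have h3 := hval t s hts hf
      simp only [map_add, map_sub, map_mul, map_pow, lev_C, lev_invT, lev_T1,
        Algebra.algebraMap_self, RingHom.id_apply, map_ofNat]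
      have ht := t.ne_zero
      have hs := s.ne_zero
      rw [zpow_ofNat] at h3
      rw [f40_eval, f40_eval] at hf
      field_simp
      linear_combination h3 + 8 * c * hf)
    apply Cls.cls₄
    refine cls_of_X1_degree hφ (F := 2 * X ^ 3 + Polynomial.C γ) (k := 1) (by compute_degree!)
      (by omega) (a := 8 * c) (mul_ne_zero (by norm_num) hc) (H := G) ?_
    have hF : (toLaurent (2 * X ^ 3 + Polynomial.C γ : ℂ[X]) : ℂ[T;T⁻¹]) =
        2 * T 1 ^ 3 + LaurentPolynomial.C γ := by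
      simp only [map_add, map_mul, map_pow, toLaurent_X, toLaurent_C, map_ofNat]
    rw [h0, ← hG, hF]
    simp only [Nat.cast_one]
    linear_combination (-2 * LaurentPolynomial.C (8 * c) * T 1 ^ 2) * hTT

end Pool.Agent.Helper34_CStar
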