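import Pool.Agent.Helper34_CStar.Seq40

/-!
# Polynomials of degree four with a double zero at the origin
-/

namespace Pool.Agent.Helper34_CStar

open Polynomial LaurentPolynomial

variable {α β γ : ℂ}

theorem exists_ref40 (hh : α ^ 3 - 4 * α * β + 8 * γ ≠ 0) {φ : P2 →ₐ[ℂ] ℂ[T;T⁻¹]}
    (hφ : Function.Surjective φ) (h0 : φ (MvPolynomial.X 0) = x40 α β γ) :
    ∃ (κ : ℤ) (ε : ℂ), (ε = 1 ∨ ε = -1) ∧ Ref40 α β γ κ ε (φ (MvPolynomial.X 1)) ∧
      Algebra.adjoin ℂ {x40 α β γ, φ (MvPolynomial.X 1)} = ⊤ := by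
  have hadj := adjoin_of_surjective hφ
  rw [h0] at hadj
  have hadj' := hadj
  unfold x40 at hadj'
  obtain ⟨Y, k, hk, hY, hy⟩ := exists_pole hadj'
  have hadj2 := hadj
  rw [hy] at hadj2
  obtain ⟨κ, ε, hε, _, hr⟩ := ref40_of_structure hh hk hY hadj2
  rw [← hy] at hr
  exact ⟨κ, ε, hε, hr, hadj⟩

/-- a pair of points with equal values excludes a reference function -/
theorem excl40 {y w : ℂ[T;T⁻¹]} (hadj : Algebra.adjoin ℂ {x40 α β γ, y} = ⊤) {N : ℕ}
    {A B : ℂ[X]} (h : x40 α β γ ^ N * y = aeval (x40 α β γ) A * w + aeval (x40 α β γ) B)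
    {t s : ℂˣ} (hts : t ≠ s) (hv : (f40 α β γ).eval (t : ℂ) = (f40 α β γ).eval (s : ℂ))
    (hv0 : (f40 α β γ).eval (t : ℂ) ≠ 0) (hw : lev t w = lev s w) : False := by
  apply sep40 hadj t s hts hv
  have h1 := congrArg (lev t) h
  have h2 := congrArg (lev s) h
  simp only [map_add, map_mul, map_pow, lev_aeval40, lev_x40] at h1 h2
  rw [← hv, ← hw] at h2
  apply mul_left_cancel₀ (pow_ne_zero N hv0)
  rw [h1, h2]

/-- conclusion in the presence of two nonzero zeros of the coordinate -/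
theorem cls_of_final {φ : P2 →ₐ[ℂ] ℂ[T;T⁻¹]} (hφ : Function.Surjective φ)
    (h0 : φ (MvPolynomial.X 0) = x40 α β γ) {r₁ r₂ : ℂˣ}
    (h₁ : (f40 α β γ).eval (r₁ : ℂ) = 0) (h₂ : (f40 α β γ).eval (r₂ : ℂ) = 0)
    {w : ℂ[T;T⁻¹]} {F : ℂ[X]} {d : ℕ} (hF : F.natDegree ≤ 3) (hd : d ≤ 3)
    (hwF : w = toLaurent F * T (-1) ^ d) (hw : lev r₁ w ≠ lev r₂ w) {N : ℕ} {A B : ℂ[X]}
    (h : x40 α β γ ^ N * φ (MvPolynomial.X 1) = aeval (x40 α β γ) A * w +
      aeval (x40 α β γ) B) : Cls φ := by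
  have hadj := adjoin_of_surjective hφ
  rw [h0] at hadj
  obtain ⟨c, B', hc, hy⟩ := final40 hadj h₁ h₂ hw h
  refine cls_of_X1_degree hφ hF hd hc (H := B') ?_
  rw [h0, hy, hwF, T_pow]
  congr 4
  ring

section algebra

variable {t₁ t₂ t₃ t₄ : ℂ}

theorem f40_aux1 (s₁ : t₁ + t₂ + t₃ + t₄ = -α)
    (s₂ : t₁ * t₂ + t₁ * t₃ + t₁ * t₄ + t₂ * t₃ + t₂ * t₄ + t₃ * t₄ = β) :
    ((t₃ ^ 3 + α * t₃ ^ 2 + β * t₃) - (t₄ ^ 3 + α * t₄ ^ 2 + β * t₄)) * (t₁ - t₂) * (t₃ * t₄) =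
      1 * (t₁ * t₂) * ((t₁ ^ 3 + α * t₁ ^ 2 + β * t₁) - (t₂ ^ 3 + α * t₂ ^ 2 + β * t₂)) *
        (t₃ - t₄) := by
  linear_combination (t₁ - t₂) * (t₃ - t₄) * (((t₃ + t₄) * (t₃ * t₄) -
    (t₁ + t₂) * (t₁ * t₂)) * s₁ - (t₃ * t₄ - t₁ * t₂) * s₂)

theorem f40_aux2 (s₁ : t₁ + t₂ + t₃ + t₄ = -α)
    (s₃ : t₁ * t₂ * t₃ + t₁ * t₂ * t₄ + t₁ * t₃ * t₄ + t₂ * t₃ * t₄ = 0) :
    ((t₃ ^ 2 + α * t₃) - (t₄ ^ 2 + α * t₄)) * (t₁ - t₂) * (t₃ * t₄) =
      -1 * (t₁ * t₂) * ((t₁ ^ 2 + α * t₁) - (t₂ ^ 2 + α * t₂)) * (t₃ - t₄) := by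
  linear_combination (t₁ - t₂) * (t₃ - t₄) * ((t₃ * t₄ + t₁ * t₂) * s₁ - s₃)

theorem f40_aux3 (s₁ : t₁ + t₂ + t₃ + t₄ = -α) :
    ((2 * t₃ ^ 2 + α * t₃) - (2 * t₄ ^ 2 + α * t₄)) * (t₁ - t₂) =
      -1 * ((2 * t₁ ^ 2 + α * t₁) - (2 * t₂ ^ 2 + α * t₂)) * (t₃ - t₄) := by
  linear_combination (t₁ - t₂) * (t₃ - t₄) * (2 * s₁)

theorem f40_aux4 (s₃ : t₁ * t₂ * t₃ + t₁ * t₂ * t₄ + t₁ * t₃ * t₄ + t₂ * t₃ * t₄ = 0) :
    (t₃ ^ 2 - t₄ ^ 2) * (t₁ - t₂) * (t₁ * t₂) =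
      -1 * (t₃ * t₄) * (t₁ ^ 2 - t₂ ^ 2) * (t₃ - t₄) := by
  linear_combination (t₁ - t₂) * (t₃ - t₄) * s₃

theorem f40_aux5 (s₁ : t₁ + t₂ + t₃ + t₄ = -α)
    (s₃ : t₁ * t₂ * t₃ + t₁ * t₂ * t₄ + t₁ * t₃ * t₄ + t₂ * t₃ * t₄ = 0) :
    ((2 * t₃ ^ 3 + α * t₃ ^ 2) - (2 * t₄ ^ 3 + α * t₄ ^ 2)) * (t₁ - t₂) * (t₁ * t₂) =
      1 * (t₃ * t₄) * ((2 * t₁ ^ 3 + α * t₁ ^ 2) - (2 * t₂ ^ 3 + α * t₂ ^ 2)) * (t₃ - t₄) := by
  have hα : α = -(t₁ + t₂ + t₃ + t₄) := by linear_combination s₁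
  rw [hα]
  linear_combination (t₁ - t₂) * (t₃ - t₄) * ((t₃ + t₄) - (t₁ + t₂)) * s₃

theorem f40_aux6 (hα : α ≠ 0) (hb : α ^ 2 = 2 * β) (h1 : t₁ * t₂ ≠ 0)
    (s₁ : t₁ + t₂ + t₃ + t₄ = -α)
    (s₂ : t₁ * t₂ + t₁ * t₃ + t₁ * t₄ + t₂ * t₃ + t₂ * t₄ + t₃ * t₄ = β)
    (s₃ : t₁ * t₂ * t₃ + t₁ * t₂ * t₄ + t₁ * t₃ * t₄ + t₂ * t₃ * t₄ = 0) :
    ((2 * t₃ ^ 3 + 3 * α * t₃ ^ 2 + (2 * β + α ^ 2) * t₃) -
      (2 * t₄ ^ 3 + 3 * α * t₄ ^ 2 + (2 * β + α ^ 2) * t₄)) * (t₁ - t₂) * (t₃ * t₄) ^ 3 =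
      1 * (t₁ * t₂) ^ 3 * ((2 * t₁ ^ 3 + 3 * α * t₁ ^ 2 + (2 * β + α ^ 2) * t₁) -
        (2 * t₂ ^ 3 + 3 * α * t₂ ^ 2 + (2 * β + α ^ 2) * t₂)) * (t₃ - t₄) := by
  obtain ⟨p, hp⟩ : ∃ p, p = t₁ * t₂ := ⟨_, rfl⟩
  obtain ⟨q, hq⟩ : ∃ q, q = t₃ * t₄ := ⟨_, rfl⟩
  obtain ⟨σ, hσ⟩ : ∃ σ, σ = t₁ + t₂ := ⟨_, rfl⟩
  obtain ⟨ρ, hρ⟩ : ∃ ρ, ρ = t₃ + t₄ := ⟨_, rfl⟩
  have a1 : σ + ρ = -α := by rw [hσ, hρ]; linear_combination s₁
  have a2 : p + q + σ * ρ = β := by rw [hσ, hρ, hp, hq]; linear_combination s₂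
  have a3 : σ * q + ρ * p = 0 := by rw [hσ, hρ, hp, hq]; linear_combination s₃
  rw [← hp] at h1
  have hσ0 : σ ≠ 0 := by
    intro h
    rw [h, zero_mul, zero_add] at a3
    have hρ0 := (mul_eq_zero.mp a3).resolve_right h1
    apply hα
    rw [h, hρ0] at a1
    linear_combination a1
  obtain ⟨l, hl⟩ : ∃ l, l = p / σ := ⟨_, rfl⟩
  have hpl : p = l * σ := by rw [hl]; field_simp
  have hql : q = -(l * ρ) := by
    apply mul_left_cancel₀ hσ0
    rw [hpl] at a3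
    linear_combination a3
  have e : (2 * p - α * σ) * q ^ 3 = (2 * q - α * ρ) * p ^ 3 := by
    have hα' : α = -(σ + ρ) := by linear_combination a1
    have hβ' : β = p + q + σ * ρ := a2.symm
    rw [hα', hβ', hpl, hql] at hb
    rw [hα', hpl, hql]
    linear_combination (-(l ^ 3 * σ * ρ * (σ + ρ))) * hb
  rw [← hp, ← hq]
  have d12 : (2 * t₁ ^ 3 + 3 * α * t₁ ^ 2 + (2 * β + α ^ 2) * t₁) -
        (2 * t₂ ^ 3 + 3 * α * t₂ ^ 2 + (2 * β + α ^ 2) * t₂) =
        (t₁ - t₂) * (2 * q - α * ρ) := by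
    rw [hq, hρ]
    linear_combination (t₁ - t₂) * ((2 * (t₁ + t₂) + α) * s₁ - 2 * s₂)
  have d34 : (2 * t₃ ^ 3 + 3 * α * t₃ ^ 2 + (2 * β + α ^ 2) * t₃) -
      (2 * t₄ ^ 3 + 3 * α * t₄ ^ 2 + (2 * β + α ^ 2) * t₄) =
        (t₃ - t₄) * (2 * p - α * σ) := by
    rw [hp, hσ]
    linear_combination (t₃ - t₄) * ((2 * (t₃ + t₄) + α) * s₁ - 2 * s₂)
  rw [d12, d34]
  linear_combination (t₁ - t₂) * (t₃ - t₄) * e

theorem f40_aux7 (hb : α ^ 2 = 2 * β) (h1 : t₁ ≠ 0) (h2 : t₂ ≠ 0) (h3 : t₃ ≠ 0) (h4 : t₄ ≠ 0)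
    (s₁ : t₁ + t₂ + t₃ + t₄ = -α)
    (s₂ : t₁ * t₂ + t₁ * t₃ + t₁ * t₄ + t₂ * t₃ + t₂ * t₄ + t₃ * t₄ = β)
    (s₃ : t₁ * t₂ * t₃ + t₁ * t₂ * t₄ + t₁ * t₃ * t₄ + t₂ * t₃ * t₄ = 0) :
    ((t₃ + α) * t₃⁻¹ ^ 3 - (t₄ + α) * t₄⁻¹ ^ 3) * (t₁ - t₂) * (t₃ * t₄) ^ 3 =
      -1 * (t₁ * t₂) ^ 3 * ((t₁ + α) * t₁⁻¹ ^ 3 - (t₂ + α) * t₂⁻¹ ^ 3) * (t₃ - t₄) := by
  have i1 : ∀ t s : ℂ, t ≠ 0 → s ≠ 0 →
      ((t + α) * t⁻¹ ^ 3 - (s + α) * s⁻¹ ^ 3) * (t * s) ^ 3 =
        (s ^ 3 * (t + α) - t ^ 3 * (s + α)) := by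
    intro t s ht hs
    field_simp
  have e12 := i1 t₁ t₂ h1 h2
  have e34 := i1 t₃ t₄ h3 h4
  have hα' : α = -(t₁ + t₂ + t₃ + t₄) := by linear_combination s₁
  have key : (t₄ ^ 3 * (t₃ + α) - t₃ ^ 3 * (t₄ + α)) * (t₁ - t₂) =
      -((t₂ ^ 3 * (t₁ + α) - t₁ ^ 3 * (t₂ + α)) * (t₃ - t₄)) := by
    have hb' : (t₁ + t₂) ^ 2 + (t₃ + t₄) ^ 2 = 2 * (t₁ * t₂ + t₃ * t₄) := by
      linear_combination hb - 2 * s₂ + (t₁ + t₂ + t₃ + t₄ - α) * s₁
    rw [hα']
    linear_combination (t₁ - t₂) * (t₃ - t₄) * ((t₁ + t₂ + t₃ + t₄) * hb' + s₃)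
  linear_combination (t₁ - t₂) * e34 + (t₃ - t₄) * e12 + key

end algebra

/-- two numbers with given sum and product -/
theorem exists_sum_prod (s q : ℂ) : ∃ t u : ℂ, t + u = s ∧ t * u = q ∧ (t - u) ^ 2 = s ^ 2 - 4 * q := by
  obtain ⟨r, hr⟩ := IsAlgClosed.exists_pow_nat_eq (s ^ 2 - 4 * q) (by norm_num : 0 < 2)
  exact ⟨(s + r) / 2, (s - r) / 2, by ring, by linear_combination (-1 / 4) * hr,
    by linear_combination hr⟩

/-- Russell's embedding -/
theorem cls_russell (hα : α ≠ 0) (hb : α ^ 2 = 2 * β) {φ : P2 →ₐ[ℂ] ℂ[T;T⁻¹]}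
    (h0 : φ (MvPolynomial.X 0) = x40 α β 0) {c : ℂ} (hc : c ≠ 0) {B : ℂ[X]}
    (h1 : φ (MvPolynomial.X 1) = LaurentPolynomial.C c * (T (-1) ^ 4 - LaurentPolynomial.C α *
      T (-1) ^ 5 + LaurentPolynomial.C β * T (-1) ^ 6) + aeval (x40 α β 0) B) : Cls₄ φ := by
  have hβ : β = α ^ 2 / 2 := by linear_combination (-1 / 2) * hb
  obtain ⟨μ, hμ⟩ : ∃ μ, μ = 2 * (α ^ 4)⁻¹ := ⟨_, rfl⟩
  obtain ⟨κ, hκ⟩ : ∃ κ, κ = 2 * α ^ 4 * c⁻¹ := ⟨_, rfl⟩
  have hμ0 : μ ≠ 0 := by rw [hμ]; exact mul_ne_zero two_ne_zero (inv_ne_zero (pow_ne_zero _ hα))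
  have hκ0 : κ ≠ 0 := by
    rw [hκ]; exact mul_ne_zero (mul_ne_zero two_ne_zero (pow_ne_zero _ hα)) (inv_ne_zero hc)
  apply Cls₄.of_aut (levA (sc α hα)) (levA_sc_injective α hα)
  apply Cls₄.of_comp (tri μ 0 κ hμ0 hκ0 (Polynomial.C (-κ) * B))
  have e1 : levA (sc α hα) (T 1 : ℂ[T;T⁻¹]) = LaurentPolynomial.C α * T 1 := by
    rw [levA_apply, lev_sc_T, zpow_one]
  have e2 : levA (sc α hα) (T (-1) : ℂ[T;T⁻¹]) = LaurentPolynomial.C α⁻¹ * T (-1) := by
    rw [levA_apply, lev_sc_T, zpow_neg_one]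
  have e3 : ∀ z, levA (sc α hα) (LaurentPolynomial.C z : ℂ[T;T⁻¹]) = LaurentPolynomial.C z := by
    intro z
    rw [levA_apply, lev_C, LaurentPolynomial.C_eq_algebraMap]
  have hxx : levA (sc α hα) (x40 α β 0) = LaurentPolynomial.C (α ^ 4 / 2) * xR := by
    rw [x40_eq, xR]
    simp only [map_add, map_mul, map_pow, e1, e3, map_zero]
    have c1 : (LaurentPolynomial.C (α ^ 4 / 2) : ℂ[T;T⁻¹]) * 2 = LaurentPolynomial.C α ^ 4 := by
      rw [← map_ofNat LaurentPolynomial.C, ← map_mul, ← map_pow]; congr 1; ring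
    have c2 : (LaurentPolynomial.C (α ^ 4 / 2) : ℂ[T;T⁻¹]) = LaurentPolynomial.C β *
        LaurentPolynomial.C α ^ 2 := by
      rw [← map_pow, ← map_mul]; congr 1; rw [hβ]; ring
    linear_combination (-T 1 ^ 4 - T 1 ^ 3) * c1 - T 1 ^ 2 * c2
  have hyy : levA (sc α hα) (T (-1) ^ 4 - LaurentPolynomial.C α *
      T (-1) ^ 5 + LaurentPolynomial.C β * T (-1) ^ 6) =
      LaurentPolynomial.C ((α ^ 4)⁻¹ / 2) * yR := by
    rw [yR]
    simp only [map_add, map_sub, map_mul, map_pow, e2, e3]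
    have c1 : (LaurentPolynomial.C ((α ^ 4)⁻¹ / 2) : ℂ[T;T⁻¹]) * 2 =
        LaurentPolynomial.C α⁻¹ ^ 4 := by
      rw [← map_ofNat LaurentPolynomial.C, ← map_mul, ← map_pow]; congr 1
      rw [inv_pow]; ring
    have c2 : (LaurentPolynomial.C ((α ^ 4)⁻¹ / 2) : ℂ[T;T⁻¹]) = LaurentPolynomial.C β *
        LaurentPolynomial.C α⁻¹ ^ 6 := by
      rw [← map_pow, ← map_mul]; congr 1; rw [hβ]; field_simp
    have c3 : (LaurentPolynomial.C α : ℂ[T;T⁻¹]) * LaurentPolynomial.C α⁻¹ = 1 := by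
      rw [← map_mul, mul_inv_cancel₀ hα, map_one]
    linear_combination (-T (-1) ^ 4 + T (-1) ^ 5) * c1 - T (-1) ^ 6 * c2 -
      T (-1) ^ 5 * LaurentPolynomial.C α⁻¹ ^ 4 * c3
  refine cls₄_of_std (c := 0) (x₁ := xR) (y₁ := yR) (q := qR) ?_
    (Or.inr (Or.inr (Or.inr (Or.inr (Or.inr rfl))))) ?_ ?_
  · rw [map_zero, sub_zero]; exact isStd_qR
  · rw [comp_tri_X0, AlgHom.comp_apply, h0, hxx, map_zero, add_zero, ← mul_assoc, ← map_mul]
    have : μ * (α ^ 4 / 2) = 1 := by rw [hμ]; field_simp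
    rw [this, map_one, one_mul]
  · rw [comp_tri_X1, AlgHom.comp_apply, AlgHom.comp_apply, h0, h1, map_add, map_mul, e3, hyy,
      ← aeval_algHom_apply, map_mul, aeval_C, ← LaurentPolynomial.C_eq_algebraMap, map_neg]
    have : (LaurentPolynomial.C κ : ℂ[T;T⁻¹]) * LaurentPolynomial.C c *
        LaurentPolynomial.C ((α ^ 4)⁻¹ / 2) = 1 := by
      rw [← map_mul, ← map_mul, ← map_one LaurentPolynomial.C]; congr 1
      rw [hκ]; field_simp
    linear_combination yR * this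

theorem lev_T1 (t : ℂˣ) : lev t (T 1 : ℂ[T;T⁻¹]) = (t : ℂ) := by
  rw [lev_T, zpow_one]

theorem lev_invT (t : ℂˣ) : lev t (T (-1) : ℂ[T;T⁻¹]) = (t : ℂ)⁻¹ := by
  rw [lev_T, zpow_neg_one, Units.val_inv_eq_inv_val]

/-- **The class of embeddings having `T ^ 4 + α T ^ 3 + β T ^ 2` as a coordinate**, with
`α β (α ^ 2 - 4 β) ≠ 0`. -/
theorem cls_forty_two (hα : α ≠ 0) (hβ : β ≠ 0) (h4 : α ^ 2 ≠ 4 * β)
    {φ : P2 →ₐ[ℂ] ℂ[T;T⁻¹]} (hφ : Function.Surjective φ)
    (h0 : φ (MvPolynomial.X 0) = x40 α β 0) : Cls₄ φ := by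
  have hh : α ^ 3 - 4 * α * β + 8 * 0 ≠ 0 := by
    intro h
    apply h4
    apply mul_left_cancel₀ hα
    linear_combination h
  obtain ⟨κ, ε, hε, hr, hadj⟩ := exists_ref40 hh hφ h0
  have hε2 : ε ^ 2 = 1 := by rcases hε with rfl | rfl <;> norm_num
  have hκ := copl40_two hα hβ (copl_of_ref40 hε2 hadj hr)
  have hTT := T_mul_T_neg
  -- the nonzero zeros
  obtain ⟨a, b, hsum, hab, hdisc⟩ := exists_sum_prod (-α) β
  have hne : a ≠ b := by
    intro h
    apply h4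
    rw [h, sub_self] at hdisc
    linear_combination -hdisc
  have ha0 : a ≠ 0 := by
    rintro rfl
    apply hβ
    linear_combination -hab
  have hb0 : b ≠ 0 := by
    rintro rfl
    apply hβ
    linear_combination -hab
  obtain ⟨r₁, hr₁⟩ : ∃ u : ℂˣ, (u : ℂ) = a := ⟨Units.mk0 a ha0, rfl⟩
  obtain ⟨r₂, hr₂⟩ : ∃ u : ℂˣ, (u : ℂ) = b := ⟨Units.mk0 b hb0, rfl⟩
  have e1 : (f40 α β 0).eval (r₁ : ℂ) = 0 := by
    rw [hr₁, f40_eval]
    linear_combination a ^ 2 * (a * hsum - hab)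
  have e2 : (f40 α β 0).eval (r₂ : ℂ) = 0 := by
    rw [hr₂, f40_eval]
    linear_combination b ^ 2 * (b * hsum - hab)
  have qa : a ^ 2 + α * a + β = 0 := by linear_combination a * hsum - hab
  have qb : b ^ 2 + α * b + β = 0 := by linear_combination b * hsum - hab
  have habs : a - b ≠ 0 := sub_ne_zero.mpr hne
  -- the coordinate
  obtain ⟨x, hx⟩ : ∃ x, x = x40 α β 0 := ⟨_, rfl⟩
  have hxe : x = T 1 ^ 4 + LaurentPolynomial.C α * T 1 ^ 3 + LaurentPolynomial.C β * T 1 ^ 2 := by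
    rw [hx, x40_eq, map_zero, zero_mul, add_zero]
  have hxT1 : x * T (-1) = T 1 ^ 3 + LaurentPolynomial.C α * T 1 ^ 2 +
      LaurentPolynomial.C β * T 1 := by
    rw [hxe]
    linear_combination (T 1 ^ 3 + LaurentPolynomial.C α * T 1 ^ 2 +
      LaurentPolynomial.C β * T 1) * hTT
  have hxT2 : x * T (-1) ^ 2 = T 1 ^ 2 + LaurentPolynomial.C α * T 1 +
      LaurentPolynomial.C β := by
    linear_combination T (-1) * hxT1 + (T 1 ^ 2 + LaurentPolynomial.C α * T 1 +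
      LaurentPolynomial.C β) * hTT
  have hxT3 : x * T (-1) ^ 3 = T 1 + LaurentPolynomial.C α +
      LaurentPolynomial.C β * T (-1) := by
    linear_combination T (-1) * hxT2 + (T 1 + LaurentPolynomial.C α) * hTT
  have hxT4 : x * T (-1) ^ 4 = 1 + LaurentPolynomial.C α * T (-1) +
      LaurentPolynomial.C β * T (-1) ^ 2 := by
    linear_combination T (-1) * hxT3 + hTT
  have s3 : ∀ {v : ℂ} {t₁ t₂ t₃ t₄ : ℂ}, Fib40 α β 0 v t₁ t₂ t₃ t₄ →
      t₁ * t₂ * t₃ + t₁ * t₂ * t₄ + t₁ * t₃ * t₄ + t₂ * t₃ * t₄ = 0 := by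
    intro v t₁ t₂ t₃ t₄ hf
    have := hf.s₃
    rwa [neg_zero] at this
  rcases hκ with rfl | rfl | rfl | ⟨rfl, hb⟩
  · -- exponent `-1`
    have hform : ∀ {w : ℂ[T;T⁻¹]}, (∀ (v : ℂ) (t₁ t₂ t₃ t₄ : ℂˣ), Fib40 α β 0 v t₁ t₂ t₃ t₄ →
        (lev t₃ w - lev t₄ w) * ((t₁ : ℂ) - t₂) * ((t₁ : ℂ) * t₂) =
          ε * ((t₃ : ℂ) * t₄) * (lev t₁ w - lev t₂ w) * ((t₃ : ℂ) - t₄)) →
        Ref40 α β 0 (-1) ε w := by
      intro w h v t₁ t₂ t₃ t₄ hf
      have h1 := h v t₁ t₂ t₃ t₄ hf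
      rw [zpow_neg_one, zpow_neg_one]
      have n12 : (t₁ : ℂ) * t₂ ≠ 0 := mul_ne_zero hf.ne₁ hf.ne₂
      have n34 : (t₃ : ℂ) * t₄ ≠ 0 := mul_ne_zero hf.ne₃ hf.ne₄
      apply mul_left_cancel₀ (mul_ne_zero n12 n34)
      have i12 := mul_inv_cancel₀ n12
      have i34 := mul_inv_cancel₀ n34
      linear_combination h1 + (lev t₃ w - lev t₄ w) * ((t₁ : ℂ) - t₂) * (t₁ * t₂) * i34 -
        ε * ((t₃ : ℂ) * t₄) * (lev t₁ w - lev t₂ w) * ((t₃ : ℂ) - t₄) * i12
    rcases hε with rfl | rfl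
    · obtain ⟨N, A, B, hN⟩ := compare40 (w := 2 * T 1 ^ 3 + LaurentPolynomial.C α * T 1 ^ 2)
        hadj hr (by
          apply hform
          intro v t₁ t₂ t₃ t₄ hf
          simp only [map_add, map_mul, map_pow, map_ofNat, lev_C, lev_T, zpow_one,
            Algebra.algebraMap_self, RingHom.id_apply]
          exact f40_aux5 hf.s₁ (s3 hf))
        (Q₃ := Polynomial.C 2) (Q₂ := Polynomial.C α) (Q₁ := 0) (Q₀ := 0) (by
          simp only [map_zero, aeval_C, ← LaurentPolynomial.C_eq_algebraMap, map_ofNat]; ring)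
        two_ne_zero (Or.inl rfl)
      rw [← hx] at hN
      by_cases hb : α ^ 2 = 2 * β
      · apply Cls.cls₄
        refine cls_of_final hφ h0 e1 e2 (F := 2 * X - Polynomial.C α) (d := 2)
          (w := (2 * T 1 - LaurentPolynomial.C α) * T (-1) ^ 2)
          (by compute_degree!) (by omega) (by
            simp only [map_sub, map_mul, toLaurent_X, toLaurent_C, map_ofNat]) ?_
          (N := N) (A := A * X) (B := B + A * Polynomial.C (α * β)) ?_
        · rw [map_mul, map_mul, map_sub, map_sub, map_mul, map_mul, map_pow, map_pow, lev_invT,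
            lev_invT, lev_T, lev_T, zpow_one, zpow_one, lev_C, map_ofNat, map_ofNat, hr₁, hr₂,
            Algebra.algebraMap_self, RingHom.id_apply, lev_C, Algebra.algebraMap_self,
            RingHom.id_apply]
          intro h
          have h' : (2 * a - α) * b ^ 2 = (2 * b - α) * a ^ 2 := by
            field_simp at h
            linear_combination h
          have h5 : (a - b) * (4 * β) = 0 := by
            linear_combination (-1) * h' + (a - b) * (-2 * hab + α * hsum - hb)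
          exact mul_ne_zero habs (mul_ne_zero (by norm_num) hβ) h5
        · rw [← hx]
          simp only [map_add, map_mul, aeval_X, aeval_C, ← LaurentPolynomial.C_eq_algebraMap]
          rw [hN]
          have hc : (LaurentPolynomial.C α : ℂ[T;T⁻¹]) ^ 2 = 2 * LaurentPolynomial.C β := by
            rw [← map_pow, hb, map_mul, map_ofNat]
          linear_combination aeval x A * ((-(2 * T 1 - LaurentPolynomial.C α)) * hxT2 +
            T 1 * hc)
      · apply Cls.cls₄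
        refine cls_of_final hφ h0 e1 e2 (F := 2 * X ^ 3 + Polynomial.C α * X ^ 2) (d := 0)
          (by compute_degree!) (by omega) (by
            simp only [map_add, map_mul, map_pow, toLaurent_X, toLaurent_C, map_ofNat, pow_zero,
              mul_one]) ?_ (hx ▸ hN)
        simp only [map_add, map_mul, map_pow, map_ofNat, lev_C, lev_T, zpow_one,
          Algebra.algebraMap_self, RingHom.id_apply, hr₁, hr₂]
        intro h
        apply hb
        apply mul_left_cancel₀ habs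
        linear_combination h + (a - b) * (2 * hab - 2 * (a + b - α) * hsum - α * hsum)
    · obtain ⟨N, A, B, hN⟩ := compare40 (w := T 1 ^ 2)
        hadj hr (by
          apply hform
          intro v t₁ t₂ t₃ t₄ hf
          simp only [map_pow, lev_T, zpow_one]
          exact f40_aux4 (s3 hf))
        (Q₃ := 0) (Q₂ := Polynomial.C 1) (Q₁ := 0) (Q₀ := 0) (by simp)
        one_ne_zero (Or.inr (Or.inl rfl))
      apply Cls.cls₄
      refine cls_of_final hφ h0 e1 e2 (F := X ^ 2) (d := 0)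
        (by compute_degree!) (by omega) (by
          simp only [map_pow, toLaurent_X, pow_zero, mul_one]) ?_ hN
      simp only [map_pow, lev_T, zpow_one, hr₁, hr₂]
      intro h
      apply mul_ne_zero habs hα
      linear_combination -h + (a - b) * hsum
  · -- exponent `0`
    have hform : ∀ {w : ℂ[T;T⁻¹]}, (∀ (v : ℂ) (t₁ t₂ t₃ t₄ : ℂˣ), Fib40 α β 0 v t₁ t₂ t₃ t₄ →
        (lev t₃ w - lev t₄ w) * ((t₁ : ℂ) - t₂) =
          ε * (lev t₁ w - lev t₂ w) * ((t₃ : ℂ) - t₄)) →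
        Ref40 α β 0 0 ε w := by
      intro w h v t₁ t₂ t₃ t₄ hf
      have h1 := h v t₁ t₂ t₃ t₄ hf
      rw [zpow_zero, zpow_zero]
      linear_combination h1
    rcases hε with rfl | rfl
    · obtain ⟨N, A, B, hN⟩ := compare40 (w := T 1)
        hadj hr (by
          apply hform
          intro v t₁ t₂ t₃ t₄ hf
          simp only [lev_T, zpow_one]
          ring)
        (Q₃ := 0) (Q₂ := 0) (Q₁ := Polynomial.C 1) (Q₀ := 0) (by simp)
        one_ne_zero (Or.inr (Or.inr rfl))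
      apply Cls.cls₄
      refine cls_of_final hφ h0 e1 e2 (F := X) (d := 0)
        (by compute_degree!) (by omega) (by
          simp only [toLaurent_X, pow_zero, mul_one]) ?_ hN
      simp only [lev_T, zpow_one, hr₁, hr₂]
      exact hne
    · obtain ⟨N, A, B, hN⟩ := compare40 (w := 2 * T 1 ^ 2 + LaurentPolynomial.C α * T 1)
        hadj hr (by
          apply hform
          intro v t₁ t₂ t₃ t₄ hf
          simp only [map_add, map_mul, map_pow, map_ofNat, lev_C, lev_T, zpow_one,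
            Algebra.algebraMap_self, RingHom.id_apply]
          exact f40_aux3 hf.s₁)
        (Q₃ := 0) (Q₂ := Polynomial.C 2) (Q₁ := Polynomial.C α) (Q₀ := 0) (by
          simp only [map_zero, aeval_C, ← LaurentPolynomial.C_eq_algebraMap, map_ofNat]; ring)
        two_ne_zero (Or.inr (Or.inl rfl))
      apply Cls.cls₄
      refine cls_of_final hφ h0 e1 e2 (F := 2 * X ^ 2 + Polynomial.C α * X) (d := 0)
        (by compute_degree!) (by omega) (by
          simp only [map_add, map_mul, map_pow, toLaurent_X, toLaurent_C, map_ofNat, pow_zero,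
            mul_one]) ?_ hN
      simp only [map_add, map_mul, map_pow, map_ofNat, lev_C, lev_T, zpow_one,
        Algebra.algebraMap_self, RingHom.id_apply, hr₁, hr₂]
      intro h
      apply mul_ne_zero habs hα
      linear_combination -h + 2 * (a - b) * hsum
  · -- exponent `1`
    rcases hε with rfl | rfl
    · obtain ⟨N, A, B, hN⟩ := compare40 (w := T 1 ^ 3 + LaurentPolynomial.C α * T 1 ^ 2 +
          LaurentPolynomial.C β * T 1) hadj hr (by
          intro v t₁ t₂ t₃ t₄ hf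
          rw [zpow_one, zpow_one]
          simp only [map_add, map_mul, map_pow, lev_C, lev_T, zpow_one,
            Algebra.algebraMap_self, RingHom.id_apply]
          exact f40_aux1 hf.s₁ hf.s₂)
        (Q₃ := Polynomial.C 1) (Q₂ := Polynomial.C α) (Q₁ := Polynomial.C β) (Q₀ := 0) (by
          simp only [map_zero, aeval_C, ← LaurentPolynomial.C_eq_algebraMap, map_one]; ring)
        one_ne_zero (Or.inl rfl)
      rw [← hx] at hN
      apply Cls.cls₄
      refine cls_of_final hφ h0 e1 e2 (F := 1) (d := 1) (w := T (-1))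
        (by compute_degree!) (by omega) (by
          rw [map_one, pow_one, one_mul]) ?_ (N := N) (A := A * X) (B := B) ?_
      · rw [lev_invT, lev_invT, hr₁, hr₂]
        exact fun h => hne (inv_injective h)
      · rw [← hx, hN, map_mul, aeval_X]
        linear_combination (-aeval x A) * hxT1
    · obtain ⟨N, A, B, hN⟩ := compare40 (w := T 1 ^ 2 + LaurentPolynomial.C α * T 1) hadj hr (by
          intro v t₁ t₂ t₃ t₄ hf
          rw [zpow_one, zpow_one]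
          simp only [map_add, map_mul, map_pow, lev_C, lev_T, zpow_one,
            Algebra.algebraMap_self, RingHom.id_apply]
          exact f40_aux2 hf.s₁ (s3 hf))
        (Q₃ := 0) (Q₂ := Polynomial.C 1) (Q₁ := Polynomial.C α) (Q₀ := 0) (by
          simp only [map_zero, aeval_C, ← LaurentPolynomial.C_eq_algebraMap, map_one]; ring)
        one_ne_zero (Or.inr (Or.inl rfl))
      rw [← hx] at hN
      apply Cls.cls₄
      refine cls_of_final hφ h0 e1 e2 (F := 1) (d := 2) (w := T (-1) ^ 2)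
        (by compute_degree!) (by omega) (by
          rw [map_one, one_mul]) ?_ (N := N) (A := A * X)
          (B := B - A * Polynomial.C β) ?_
      · rw [map_pow, map_pow, lev_invT, lev_invT, hr₁, hr₂]
        intro h
        have h' : b ^ 2 = a ^ 2 := by
          field_simp at h
          linear_combination h
        apply mul_ne_zero habs hα
        linear_combination h' + (a - b) * hsum
      · rw [← hx, hN]
        simp only [map_sub, map_mul, aeval_X, aeval_C, ← LaurentPolynomial.C_eq_algebraMap]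
        linear_combination (-aeval x A) * hxT2
  · -- exponent `3`
    have hc2 : (LaurentPolynomial.C α : ℂ[T;T⁻¹]) ^ 2 = 2 * LaurentPolynomial.C β := by
      rw [← map_pow, hb, map_mul, map_ofNat]
    rcases hε with rfl | rfl
    · obtain ⟨N, A, B, hN⟩ := compare40 (w := 2 * T 1 ^ 3 + 3 * LaurentPolynomial.C α * T 1 ^ 2 +
          (2 * LaurentPolynomial.C β + LaurentPolynomial.C α ^ 2) * T 1) hadj hr (by
          intro v t₁ t₂ t₃ t₄ hf
          rw [zpow_ofNat, zpow_ofNat]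
          simp only [map_add, map_mul, map_pow, lev_C, lev_T, zpow_one, map_ofNat,
            Algebra.algebraMap_self, RingHom.id_apply]
          exact f40_aux6 hα hb (mul_ne_zero hf.ne₁ hf.ne₂) hf.s₁ hf.s₂ (s3 hf))
        (Q₃ := Polynomial.C 2) (Q₂ := Polynomial.C (3 * α)) (Q₁ := Polynomial.C (2 * β + α ^ 2))
        (Q₀ := 0) (by
          simp only [map_zero, aeval_C, ← LaurentPolynomial.C_eq_algebraMap, map_add, map_mul,
            map_pow, map_ofNat]; ring)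
        two_ne_zero (Or.inl rfl)
      rw [← hx] at hN
      obtain ⟨μ, hμ⟩ : ∃ μ, μ = (β ^ 2 * α / 2)⁻¹ := ⟨_, rfl⟩
      have hfin : x40 α β 0 ^ N * φ (MvPolynomial.X 1) =
          aeval (x40 α β 0) (A * (Polynomial.C μ * X ^ 3)) * (T (-1) ^ 4 -
            LaurentPolynomial.C α * T (-1) ^ 5 + LaurentPolynomial.C β * T (-1) ^ 6) +
          aeval (x40 α β 0) (B - A * (Polynomial.C μ * (X ^ 2 + Polynomial.C (β ^ 2) * X)) -
            A * Polynomial.C (α * β)) := by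
        rw [← hx, hN]
        simp only [map_sub, map_add, map_mul, map_pow, aeval_X, aeval_C,
          ← LaurentPolynomial.C_eq_algebraMap]
        have hw' : x * (T (-1) ^ 4 - LaurentPolynomial.C α * T (-1) ^ 5 +
            LaurentPolynomial.C β * T (-1) ^ 6) = 1 + LaurentPolynomial.C β ^ 2 * T (-1) ^ 4 := by
          linear_combination (1 - LaurentPolynomial.C α * T (-1) +
            LaurentPolynomial.C β * T (-1) ^ 2) * hxT4 - T (-1) ^ 2 * hc2
        have hβ' : β = α ^ 2 / 2 := by linear_combination (-1 / 2) * hb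
        have hν1 : (LaurentPolynomial.C (2 * α⁻¹) : ℂ[T;T⁻¹]) * LaurentPolynomial.C α = 2 := by
          rw [← map_mul, ← map_ofNat LaurentPolynomial.C]
          congr 1
          field_simp
        have hν2 : (LaurentPolynomial.C (2 * α⁻¹) : ℂ[T;T⁻¹]) * LaurentPolynomial.C β =
            LaurentPolynomial.C α := by
          rw [← map_mul]
          congr 1
          rw [hβ']
          field_simp
        have hμν : (LaurentPolynomial.C μ : ℂ[T;T⁻¹]) * LaurentPolynomial.C β ^ 2 =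
            LaurentPolynomial.C (2 * α⁻¹) := by
          rw [← map_pow, ← map_mul]
          congr 1
          rw [hμ]
          field_simp
        have hw2 : (2 * T 1 + LaurentPolynomial.C α) * T (-1) ^ 2 =
            LaurentPolynomial.C (2 * α⁻¹) * (x * T (-1) ^ 4 - 1) := by
          linear_combination (-LaurentPolynomial.C (2 * α⁻¹)) * hxT4 +
            2 * T (-1) * hTT - T (-1) * hν1 - T (-1) ^ 2 * hν2
        have hw3 : 2 * T 1 ^ 3 + 3 * LaurentPolynomial.C α * T 1 ^ 2 +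
            (2 * LaurentPolynomial.C β + LaurentPolynomial.C α ^ 2) * T 1 =
            x * ((2 * T 1 + LaurentPolynomial.C α) * T (-1) ^ 2) -
              LaurentPolynomial.C α * LaurentPolynomial.C β := by
          linear_combination (-(2 * T 1 + LaurentPolynomial.C α)) * hxT2
        rw [hw3]
        obtain ⟨z, hz⟩ : ∃ z, z = T (-1) ^ 4 - LaurentPolynomial.C α * T (-1) ^ 5 +
            LaurentPolynomial.C β * T (-1) ^ 6 := ⟨_, rfl⟩
        obtain ⟨w, hw⟩ : ∃ w, w = (2 * T 1 + LaurentPolynomial.C α) * T (-1) ^ 2 := ⟨_, rfl⟩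
        rw [← hz] at hw' ⊢
        rw [← hw] at hw2 ⊢
        linear_combination (aeval x A) * (x * hw2 - LaurentPolynomial.C μ * x ^ 2 * hw' +
          (x - x ^ 2 * T (-1) ^ 4) * hμν)
      obtain ⟨c, B', hc, hy⟩ := final40 hadj e1 e2 (by
        simp only [map_add, map_sub, map_mul, map_pow, lev_invT, lev_C,
          Algebra.algebraMap_self, RingHom.id_apply, hr₁, hr₂]
        intro h
        have h' : (a ^ 2 - α * a + β) * b ^ 6 = (b ^ 2 - α * b + β) * a ^ 6 := by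
          field_simp at h
          linear_combination h
        have hs : a ^ 2 + b ^ 2 = 0 := by
          linear_combination hb + (a + b - α) * hsum - 2 * hab
        have h5 : 2 * α * (a * b) * b ^ 4 * (a - b) = 0 := by
          linear_combination h' - b ^ 6 * qa + a ^ 6 * qb +
            2 * α * a ^ 2 * b * (b ^ 2 - a ^ 2) * hs
        exact mul_ne_zero (mul_ne_zero (mul_ne_zero (mul_ne_zero two_ne_zero hα)
          (mul_ne_zero ha0 hb0)) (pow_ne_zero 4 hb0)) habs h5) hfin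
      exact cls_russell hα hb h0 hc hy
    · exfalso
      obtain ⟨N, A, B, hN⟩ := compare40 (w := aeval (x40 α β 0) (X ^ 2 : ℂ[X]) *
          ((T 1 + LaurentPolynomial.C α) * T (-1) ^ 3)) hadj hr (by
          apply Ref40.mul_aeval
          intro v t₁ t₂ t₃ t₄ hf
          rw [zpow_ofNat, zpow_ofNat]
          simp only [map_add, map_mul, map_pow, lev_C, lev_invT, lev_T1,
            Algebra.algebraMap_self, RingHom.id_apply]
          exact f40_aux7 hb hf.ne₁ hf.ne₂ hf.ne₃ hf.ne₄ hf.s₁ hf.s₂ (s3 hf))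
        (Q₃ := Polynomial.C (α * β)) (Q₂ := X + Polynomial.C (α ^ 2 * β))
        (Q₁ := Polynomial.C (2 * α) * X + Polynomial.C (α * β ^ 2))
        (Q₀ := Polynomial.C (α ^ 2 + β) * X) (by
          rw [← hx]
          simp only [aeval_C, ← LaurentPolynomial.C_eq_algebraMap, map_add, map_mul,
            map_pow, map_ofNat, aeval_X]
          linear_combination x * (T 1 + LaurentPolynomial.C α) * hxT3 +
            x * LaurentPolynomial.C β * hTT +
            LaurentPolynomial.C α * LaurentPolynomial.C β * hxT1)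
        (mul_ne_zero hα hβ) (Or.inl rfl)
      -- a bad pair of points
      obtain ⟨s, hs⟩ : ∃ s : ℂ, 2 * s ^ 2 + 2 * s - 1 = 0 := by
        obtain ⟨r, hr⟩ := IsAlgClosed.exists_pow_nat_eq (3 : ℂ) (by norm_num : 0 < 2)
        exact ⟨(r - 1) / 2, by linear_combination (1 / 2) * hr⟩
      obtain ⟨q, hq⟩ : ∃ q, q = (1 - s) / 3 := ⟨_, rfl⟩
      obtain ⟨τ₁, τ₂, h1, h2, h3⟩ := exists_sum_prod s q
      have hq0 : q ≠ 0 := by
        intro h
        have : s = 1 := by linear_combination 3 * hq - 3 * h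
        rw [this] at hs
        norm_num at hs
      have hq1 : 1 - q ≠ 0 := by
        intro h
        have : s = -2 := by linear_combination 3 * hq + 3 * h
        rw [this] at hs
        norm_num at hs
      have hτ₁ : τ₁ ≠ 0 := by rintro rfl; apply hq0; linear_combination -h2
      have hτ₂ : τ₂ ≠ 0 := by rintro rfl; apply hq0; linear_combination -h2
      have hττ : τ₁ ≠ τ₂ := by
        intro h
        rw [h, sub_self, hq] at h3
        have : s = 5 / 2 := by linear_combination -3 * h3 - (3 / 2) * hs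
        rw [this] at hs
        norm_num at hs
      have hval : ∀ τ : ℂ, τ ^ 2 = s * τ - q → (f40 α β 0).eval (α * τ) =
          α ^ 4 * (-(q * (1 - q))) := by
        intro τ hτ
        have hβ' : β = α ^ 2 / 2 := by linear_combination (-1 / 2) * hb
        rw [f40_eval, hβ']
        have e : τ ^ 4 + τ ^ 3 + τ ^ 2 / 2 = -(q * (1 - q)) := by
          rw [hq] at hτ ⊢
          linear_combination (τ ^ 2 + (1 + s) * τ + 1 / 2 + s + s ^ 2 - (1 - s) / 3) * hτ +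
            (τ * (s / 2 + 1 / 3) - (1 - s) / 3 / 2) * hs
        linear_combination α ^ 4 * e
      have v1 := hval τ₁ (by linear_combination τ₁ * h1 - h2)
      have v2 := hval τ₂ (by linear_combination τ₂ * h1 - h2)
      have n1 : α * τ₁ ≠ 0 := mul_ne_zero hα hτ₁
      have n2 : α * τ₂ ≠ 0 := mul_ne_zero hα hτ₂
      refine excl40 hadj hN (t := Units.mk0 (α * τ₁) n1) (s := Units.mk0 (α * τ₂) n2) ?_ ?_ ?_ ?_
      · intro h
        apply hττ
        apply mul_left_cancel₀ hα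
        have := congrArg (fun u : ℂˣ => (u : ℂ)) h
        simpa using this
      · rw [Units.val_mk0, Units.val_mk0, v1, v2]
      · rw [Units.val_mk0, v1]
        exact mul_ne_zero (pow_ne_zero _ hα) (neg_ne_zero.mpr (mul_ne_zero hq0 hq1))
      · simp only [map_add, map_mul, map_pow, lev_C, lev_invT, lev_T1, lev_aeval40,
          Algebra.algebraMap_self, RingHom.id_apply, Units.val_mk0, v1, v2, eval_X]
        congr 1
        have e : τ₂ ^ 3 * (τ₁ + 1) = τ₁ ^ 3 * (τ₂ + 1) := by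
          rw [hq] at h2
          linear_combination (τ₂ - τ₁) * (τ₁ * τ₂ + τ₁ + τ₂ + s) * h1 +
            (τ₂ - τ₁) * (s - 1) * h2 + (τ₂ - τ₁) / 3 * hs
        field_simp
        linear_combination e

end Pool.Agent.Helper34_CStar
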