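import Pool.Agent.Helper34_CStar.ClsForty2

/-!
# Polynomials of degree four with a triple zero at the origin
-/

namespace Pool.Agent.Helper34_CStar

open Polynomial LaurentPolynomial

theorem x40_three (j : Fin 6) : x40 (-1) 0 0 = x₄ j := by
  rw [x40_eq, x₄]; simp only [map_neg, map_one, map_zero]; ring

theorem ref40_neg {α β γ ε : ℂ} {w : ℂ[T;T⁻¹]} (n : ℕ)
    (h : ∀ (v : ℂ) (t₁ t₂ t₃ t₄ : ℂˣ), Fib40 α β γ v t₁ t₂ t₃ t₄ →
        (lev t₃ w - lev t₄ w) * ((t₁ : ℂ) - t₂) * ((t₁ : ℂ) * t₂) ^ n =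
          ε * ((t₃ : ℂ) * t₄) ^ n * (lev t₁ w - lev t₂ w) * ((t₃ : ℂ) - t₄)) :
    Ref40 α β γ (-(n : ℤ)) ε w := by
  intro v t₁ t₂ t₃ t₄ hf
  have h1 := h v t₁ t₂ t₃ t₄ hf
  rw [zpow_neg, zpow_neg, zpow_natCast, zpow_natCast]
  have n12 : ((t₁ : ℂ) * t₂) ^ n ≠ 0 := pow_ne_zero n (mul_ne_zero hf.ne₁ hf.ne₂)
  have n34 : ((t₃ : ℂ) * t₄) ^ n ≠ 0 := pow_ne_zero n (mul_ne_zero hf.ne₃ hf.ne₄)
  apply mul_left_cancel₀ (mul_ne_zero n12 n34)
  have i12 := mul_inv_cancel₀ n12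
  have i34 := mul_inv_cancel₀ n34
  linear_combination h1 + (lev t₃ w - lev t₄ w) * ((t₁ : ℂ) - t₂) * (t₁ * t₂) ^ n * i34 -
    ε * ((t₃ : ℂ) * t₄) ^ n * (lev t₁ w - lev t₂ w) * ((t₃ : ℂ) - t₄) * i12

section algebra

variable {t₁ t₂ t₃ t₄ : ℂ}

/-- the form of the sums and products -/
theorem three_aux (h1 : t₁ * t₂ ≠ 0) (s₁ : t₁ + t₂ + t₃ + t₄ = 1)
    (s₂ : t₁ * t₂ + t₁ * t₃ + t₁ * t₄ + t₂ * t₃ + t₂ * t₄ + t₃ * t₄ = 0)
    (s₃ : t₁ * t₂ * t₃ + t₁ * t₂ * t₄ + t₁ * t₃ * t₄ + t₂ * t₃ * t₄ = 0) :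
    ∃ l σ ρ : ℂ, t₁ + t₂ = σ ∧ t₃ + t₄ = ρ ∧ t₁ * t₂ = l * σ ∧ t₃ * t₄ = -(l * ρ) ∧ σ + ρ = 1 ∧
      l * σ - l * ρ + σ * ρ = 0 := by
  obtain ⟨p, hp⟩ : ∃ p, p = t₁ * t₂ := ⟨_, rfl⟩
  obtain ⟨q, hq⟩ : ∃ q, q = t₃ * t₄ := ⟨_, rfl⟩
  obtain ⟨σ, hσ⟩ : ∃ σ, σ = t₁ + t₂ := ⟨_, rfl⟩
  obtain ⟨ρ, hρ⟩ : ∃ ρ, ρ = t₃ + t₄ := ⟨_, rfl⟩
  have a1 : σ + ρ = 1 := by rw [hσ, hρ]; linear_combination s₁
  have a2 : p + q + σ * ρ = 0 := by rw [hσ, hρ, hp, hq]; linear_combination s₂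
  have a3 : σ * q + ρ * p = 0 := by rw [hσ, hρ, hp, hq]; linear_combination s₃
  rw [← hp] at h1
  have hσ0 : σ ≠ 0 := by
    intro h
    rw [h, zero_mul, zero_add] at a3
    have hρ0 := (mul_eq_zero.mp a3).resolve_right h1
    rw [h, hρ0] at a1
    norm_num at a1
  obtain ⟨l, hl⟩ : ∃ l, l = p / σ := ⟨_, rfl⟩
  have hpl : p = l * σ := by rw [hl]; field_simp
  have hql : q = -(l * ρ) := by
    apply mul_left_cancel₀ hσ0
    rw [hpl] at a3
    linear_combination a3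
  refine ⟨l, σ, ρ, hσ.symm, hρ.symm, by rw [← hp, hpl], by rw [← hq, hql], a1, ?_⟩
  rw [hpl, hql] at a2
  linear_combination a2

theorem f40_aux8 (h1 : t₁ * t₂ ≠ 0) (s₁ : t₁ + t₂ + t₃ + t₄ = 1)
    (s₂ : t₁ * t₂ + t₁ * t₃ + t₁ * t₄ + t₂ * t₃ + t₂ * t₄ + t₃ * t₄ = 0)
    (s₃ : t₁ * t₂ * t₃ + t₁ * t₂ * t₄ + t₁ * t₃ * t₄ + t₂ * t₃ * t₄ = 0) :
    (t₃ ^ 3 - t₄ ^ 3) * (t₁ - t₂) * (t₁ * t₂) ^ 3 =
      1 * (t₃ * t₄) ^ 3 * (t₁ ^ 3 - t₂ ^ 3) * (t₃ - t₄) := by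
  obtain ⟨l, σ, ρ, e1, e2, e3, e4, e5, e6⟩ := three_aux h1 s₁ s₂ s₃
  have d12 : t₁ ^ 3 - t₂ ^ 3 = (t₁ - t₂) * (σ ^ 2 - l * σ) := by rw [← e3, ← e1]; ring
  have d34 : t₃ ^ 3 - t₄ ^ 3 = (t₃ - t₄) * (ρ ^ 2 - -(l * ρ)) := by rw [← e4, ← e2]; ring
  rw [d12, d34, e3, e4]
  linear_combination (t₁ - t₂) * (t₃ - t₄) * (l ^ 3 * ρ * σ * (σ + ρ)) * e6

theorem f40_aux9 (h1 : t₁ * t₂ ≠ 0) (s₁ : t₁ + t₂ + t₃ + t₄ = 1)
    (s₂ : t₁ * t₂ + t₁ * t₃ + t₁ * t₄ + t₂ * t₃ + t₂ * t₄ + t₃ * t₄ = 0)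
    (s₃ : t₁ * t₂ * t₃ + t₁ * t₂ * t₄ + t₁ * t₃ * t₄ + t₂ * t₃ * t₄ = 0)
    {v : ℂ} (s₄ : t₁ * t₂ * t₃ * t₄ = -v) :
    ((2 * v * t₃ ^ 2 + 2 * v * t₃ + t₃ ^ 3) - (2 * v * t₄ ^ 2 + 2 * v * t₄ + t₄ ^ 3)) *
      (t₁ - t₂) * (t₁ * t₂) ^ 3 =
      -1 * (t₃ * t₄) ^ 3 * ((2 * v * t₁ ^ 2 + 2 * v * t₁ + t₁ ^ 3) -
        (2 * v * t₂ ^ 2 + 2 * v * t₂ + t₂ ^ 3)) * (t₃ - t₄) := by
  obtain ⟨l, σ, ρ, e1, e2, e3, e4, e5, e6⟩ := three_aux h1 s₁ s₂ s₃
  have hv : v = l ^ 2 * σ * ρ := by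
    have : v = -((t₁ * t₂) * (t₃ * t₄)) := by linear_combination s₄
    rw [this, e3, e4]; ring
  have d12 : (2 * v * t₁ ^ 2 + 2 * v * t₁ + t₁ ^ 3) - (2 * v * t₂ ^ 2 + 2 * v * t₂ + t₂ ^ 3) =
      (t₁ - t₂) * (2 * v * (σ + 1) + σ ^ 2 - l * σ) := by rw [← e3, ← e1]; ring
  have d34 : (2 * v * t₃ ^ 2 + 2 * v * t₃ + t₃ ^ 3) - (2 * v * t₄ ^ 2 + 2 * v * t₄ + t₄ ^ 3) =
      (t₃ - t₄) * (2 * v * (ρ + 1) + ρ ^ 2 - -(l * ρ)) := by rw [← e4, ← e2]; ring
  rw [d12, d34, e3, e4, hv]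
  have hρ : ρ = 1 - σ := by linear_combination e5
  subst hρ
  linear_combination (t₁ - t₂) * (t₃ - t₄) * (l ^ 3 * σ * (1 - σ) * (2 * l + 2 * σ - 1)) * e6

end algebra

/-- the final form of the second coordinate for `T ^ 4 - T ^ 3` -/
theorem cls_three_finish (j : Fin 6) {φ : P2 →ₐ[ℂ] ℂ[T;T⁻¹]} (hφ : Function.Surjective φ)
    (h0 : φ (MvPolynomial.X 0) = x₄ j) {N n : ℕ} {c : ℂ} (hc : c ≠ 0) {B : ℂ[X]}
    (h : x₄ j ^ N * φ (MvPolynomial.X 1) = LaurentPolynomial.C c * x₄ j ^ n * w₄ j +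
      aeval (x₄ j) B) : Cls₄ φ := by
  have hx := x₄_ne_zero j
  have hx1 := lev_x₄_one j
  have hTT := T_mul_T_neg
  have hxe : x₄ j = T 1 ^ 3 * (T 1 - 1) := by rw [x₄]; ring
  have hxp : x₄ j = toLaurent (X ^ 4 - X ^ 3) := by
    rw [x₄, map_sub, map_pow, map_pow, toLaurent_X]
  rcases lt_or_ge n N with hnN | hnN
  · obtain ⟨i, hi⟩ : ∃ i, N = n + i := ⟨N - n, by omega⟩
    have hi1 : 1 ≤ i := by omega
    have hiN : i ≤ N := by omega
    have hn : n = N - i := by omega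
    rw [hn] at h
    obtain ⟨a, H, τ, ha, hτd, hτ0, hdvd, hfin⟩ := exists_norm₄ j hi1 hiN hc h
    by_cases hij : j = 3 ∨ 2 ≤ i
    · exact cls₄_of_norm j h0 hi1 hij ha hτd hτ0 hdvd hfin
    · push Not at hij
      obtain ⟨hj, hi2⟩ := hij
      have hi' : i = 1 := by omega
      subst hi'
      have h2 := norm₄_one j hτd hτ0 hfin
      have haa : (LaurentPolynomial.C a⁻¹ : ℂ[T;T⁻¹]) * LaurentPolynomial.C a = 1 := by
        rw [← map_mul, inv_mul_cancel₀ ha, map_one]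
      have hT1 : (T 1 - 1 : ℂ[T;T⁻¹]) ≠ 0 := by
        have := T_ne_C 1 one_ne_zero 1
        rw [map_one] at this
        exact sub_ne_zero.mpr this
      -- division by `T - 1`
      have hdiv : ∀ e : ℂ[T;T⁻¹], w₄ j - 1 = (T 1 - 1) * e →
          LaurentPolynomial.C a * φ (MvPolynomial.X 1) + aeval (x₄ j) H = e * T (-1) ^ 3 := by
        intro e he
        have h3 : T 1 ^ 3 * (LaurentPolynomial.C a * φ (MvPolynomial.X 1) +
            aeval (x₄ j) H) = e := by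
          apply mul_left_cancel₀ hT1
          rw [he, hxe] at h2
          rw [hxe]
          linear_combination h2
        have h4 : (T 1 ^ 3 * T (-1) ^ 3 : ℂ[T;T⁻¹]) = 1 := by rw [← mul_pow, hTT, one_pow]
        linear_combination T (-1) ^ 3 * h3 - (LaurentPolynomial.C a * φ (MvPolynomial.X 1) +
            aeval (x₄ j) H) * h4
      have hcls : ∀ F : ℂ[X], F.natDegree ≤ 3 → w₄ j - 1 = (T 1 - 1) * toLaurent F → Cls φ := by
        intro F hF he
        have h3 := hdiv _ he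
        refine cls_of_X1_degree hφ hF (k := 3) le_rfl (inv_ne_zero ha)
          (H := -Polynomial.C a⁻¹ * H) ?_
        have h5 : (T (-1) ^ 3 : ℂ[T;T⁻¹]) = T (-((3 : ℕ) : ℤ)) := by
          rw [T_pow]; congr 1
        rw [h0, map_mul, map_neg, aeval_C, ← LaurentPolynomial.C_eq_algebraMap, ← h5]
        linear_combination LaurentPolynomial.C a⁻¹ * h3 - φ (MvPolynomial.X 1) * haa
      have hj1 : j = 0 ∨ j = 1 ∨ j = 2 ∨ j = 4 ∨ j = 5 := by omega
      rcases hj1 with rfl | rfl | rfl | rfl | rfl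
      · apply Cls.cls₄
        apply hcls 1 (by compute_degree!)
        rw [w₄, map_one, mul_one]
      · -- the inverse of the fourth power
        have h3 := hdiv (-T (-1)) (by rw [w₄]; linear_combination hTT)
        apply Cls₄.of_comp (tri 1 0 (-a) one_ne_zero (neg_ne_zero.mpr ha) (-H))
        apply Cls₄.of_comp swapXY
        apply cls₄_inv (surjective_comp_equiv (surjective_comp_equiv hφ _) _)
        intro φ' hφ' h0'
        apply cls₄_pow hφ'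
        rw [h0']
        have h4 : ((φ.comp (tri 1 0 (-a) one_ne_zero (neg_ne_zero.mpr ha) (-H) :
            P2 →ₐ[ℂ] P2)).comp (swapXY : P2 →ₐ[ℂ] P2)) (MvPolynomial.X 0) = T (-1) ^ 4 := by
          change (φ.comp (tri 1 0 (-a) one_ne_zero (neg_ne_zero.mpr ha) (-H) :
            P2 →ₐ[ℂ] P2)) (swapXY (MvPolynomial.X 0)) = _
          rw [swapXY_X0, comp_tri_X1, h0, map_neg, map_neg]
          linear_combination -h3
        rw [h4, map_pow, inv'_T, T_pow]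
        congr 1
      · apply Cls.cls₄
        apply hcls (X + 1) (by compute_degree!)
        rw [w₄, map_add, map_one, toLaurent_X]
        ring
      · apply Cls.cls₄
        apply hcls (2 * X + 1) (by compute_degree!)
        rw [w₄, map_add, map_mul, map_one, toLaurent_X, map_ofNat]
        ring
      · apply Cls.cls₄
        apply hcls (X ^ 2 + X + 1) (by compute_degree!)
        rw [w₄, map_add, map_add, map_pow, map_one, toLaurent_X]
        ring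
  · obtain ⟨m, rfl⟩ : ∃ m, n = N + m := ⟨n - N, by omega⟩
    have hdvd : X ^ N ∣ B := by
      apply dvd_of_aeval_dvd hx hx1
      refine ⟨φ (MvPolynomial.X 1) - LaurentPolynomial.C c * x₄ j ^ m * w₄ j, ?_⟩
      rw [pow_add] at h
      linear_combination -h
    obtain ⟨B', rfl⟩ := hdvd
    have h1 : φ (MvPolynomial.X 1) = LaurentPolynomial.C c * x₄ j ^ m * w₄ j +
        aeval (x₄ j) B' := by
      apply mul_left_cancel₀ (pow_ne_zero N hx)
      rw [map_mul, map_pow, aeval_X, pow_add] at h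
      linear_combination h
    have hadj := adjoin_of_surjective hφ
    rw [h0, hxp] at hadj
    have hpoly : ∀ W : ℂ[X], x₄ j ^ m * w₄ j = toLaurent W → False := by
      intro W hW
      apply not_poly hadj (Polynomial.C c * W + B'.comp (X ^ 4 - X ^ 3))
      rw [h1, mul_assoc, hW, map_add, map_mul, toLaurent_C, ← aeval_toLaurent, ← hxp]
    have hpoly' : ∀ W : ℂ[X], w₄ j = toLaurent W → False := by
      intro W hW
      apply hpoly ((X ^ 4 - X ^ 3) ^ m * W)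
      rw [hW, hxp, map_mul, map_pow]
    have hj1 : j = 0 ∨ j = 1 ∨ j = 2 ∨ j = 3 ∨ j = 4 ∨ j = 5 := by omega
    rcases hj1 with rfl | rfl | rfl | rfl | rfl | rfl
    · exact (hpoly' X (by rw [w₄, toLaurent_X])).elim
    · rcases m with _ | m
      · apply Cls.cls₄
        refine cls_of_X1_degree hφ (F := 1) (k := 1) (by compute_degree!) (by omega) hc (H := B') ?_
        rw [h1, h0, w₄, map_one, pow_zero, mul_one, one_mul]
        simp only [Nat.cast_one]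
      · exfalso
        apply hpoly ((X ^ 4 - X ^ 3) ^ m * (X ^ 3 - X ^ 2))
        rw [map_mul, map_pow, ← hxp, map_sub, map_pow, map_pow, toLaurent_X, w₄, pow_succ, hxe]
        linear_combination (T 1 ^ 3 * (T 1 - 1)) ^ m * T 1 ^ 2 * (T 1 - 1) * hTT
    · exact (hpoly' (X ^ 2) (by rw [w₄, map_pow, toLaurent_X])).elim
    · rcases m with _ | m
      · apply Cls.cls₄
        refine cls_of_X1_degree hφ (F := 1) (k := 2) (by compute_degree!) (by omega) hc (H := B') ?_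
        rw [h1, h0, w₄, map_one, pow_zero, mul_one, one_mul, T_pow]
        norm_num
      · exfalso
        apply hpoly ((X ^ 4 - X ^ 3) ^ m * (X ^ 2 - X))
        rw [map_mul, map_pow, ← hxp, map_sub, map_pow, toLaurent_X, w₄, pow_succ, hxe]
        linear_combination (T 1 ^ 3 * (T 1 - 1)) ^ m * T 1 * (T 1 - 1) *
          (T 1 * T (-1) + 1) * hTT
    · exact (hpoly' (2 * X ^ 2 - X) (by
        rw [w₄, map_sub, map_mul, map_pow, toLaurent_X, map_ofNat])).elim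
    · exact (hpoly' (X ^ 3) (by rw [w₄, map_pow, toLaurent_X])).elim

/-- **The class of embeddings having `T ^ 4 - T ^ 3` as a coordinate.** -/
theorem cls_forty_three {φ : P2 →ₐ[ℂ] ℂ[T;T⁻¹]} (hφ : Function.Surjective φ)
    (h0 : φ (MvPolynomial.X 0) = T 1 ^ 4 - T 1 ^ 3) : Cls₄ φ := by
  have h0' : φ (MvPolynomial.X 0) = x40 (-1) 0 0 := by rw [h0, x40_three 0, x₄]
  have h0j : ∀ j, φ (MvPolynomial.X 0) = x₄ j := by intro j; rw [h0, x₄]
  obtain ⟨κ, ε, hε, hr, hadj⟩ := exists_ref40 (α := -1) (β := 0) (γ := 0) (by norm_num) hφ h0'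
  have hε2 : ε ^ 2 = 1 := by rcases hε with rfl | rfl <;> norm_num
  have hκ := copl40_three (copl_of_ref40 hε2 hadj hr)
  have hTT := T_mul_T_neg
  obtain ⟨x, hx⟩ : ∃ x, x = x40 (-1) 0 0 := ⟨_, rfl⟩
  have hxj : ∀ j, x = x₄ j := by intro j; rw [hx, x40_three j]
  have hxe : x = T 1 ^ 4 - T 1 ^ 3 := by rw [hxj 0, x₄]
  have s1 : ∀ {v : ℂ} {t₁ t₂ t₃ t₄ : ℂ}, Fib40 (-1) 0 0 v t₁ t₂ t₃ t₄ →
      t₁ + t₂ + t₃ + t₄ = 1 := by
    intro v t₁ t₂ t₃ t₄ hf
    linear_combination hf.s₁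
  have s3 : ∀ {v : ℂ} {t₁ t₂ t₃ t₄ : ℂ}, Fib40 (-1) 0 0 v t₁ t₂ t₃ t₄ →
      t₁ * t₂ * t₃ + t₁ * t₂ * t₄ + t₁ * t₃ * t₄ + t₂ * t₃ * t₄ = 0 := by
    intro v t₁ t₂ t₃ t₄ hf
    have := hf.s₃
    rwa [neg_zero] at this
  -- the conclusion for a reference function
  have hfin : ∀ (w : ℂ[T;T⁻¹]) (j : Fin 6) (m : ℕ), Ref40 (-1) 0 0 κ ε w →
      w = x ^ m * w₄ j → (∃ (Q₃ Q₂ Q₁ Q₀ : ℂ[X]) (r : ℂ), r ≠ 0 ∧
        w = aeval (x40 (-1) 0 0) Q₃ * T 1 ^ 3 + aeval (x40 (-1) 0 0) Q₂ * T 1 ^ 2 +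
          aeval (x40 (-1) 0 0) Q₁ * T 1 + aeval (x40 (-1) 0 0) Q₀ ∧
        (Q₃ = Polynomial.C r ∨ Q₂ = Polynomial.C r ∨ Q₁ = Polynomial.C r)) → Cls₄ φ := by
    rintro w j m hw hwj ⟨Q₃, Q₂, Q₁, Q₀, r, hr0, hwQ, hQ⟩
    obtain ⟨N, A, B, hN⟩ := compare40 hadj hr hw hwQ hr0 hQ
    have hA0 : A ≠ 0 := by
      rintro rfl
      exact coeff_ne40 hadj hN one_ne_zero (by rw [eval_zero])
    obtain ⟨c, n, hc, hA⟩ := eq_of_root hA0 (a := 0) (by
      intro u hu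
      by_contra hu0
      exact coeff_ne40 hadj hN hu0 hu)
    apply cls_three_finish j hφ (h0j j) hc (N := N) (n := n + m) (B := B)
    rw [← hx] at hN
    rw [← hxj j, hN, hwj, hA, map_zero, sub_zero, map_mul, map_pow, aeval_C, aeval_X,
      ← LaurentPolynomial.C_eq_algebraMap, pow_add]
    ring
  -- a pair of points
  have hexcl : ∀ (w : ℂ[T;T⁻¹]), Ref40 (-1) 0 0 κ ε w → (∃ (Q₃ Q₂ Q₁ Q₀ : ℂ[X]) (r : ℂ), r ≠ 0 ∧
        w = aeval (x40 (-1) 0 0) Q₃ * T 1 ^ 3 + aeval (x40 (-1) 0 0) Q₂ * T 1 ^ 2 +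
          aeval (x40 (-1) 0 0) Q₁ * T 1 + aeval (x40 (-1) 0 0) Q₀ ∧
        (Q₃ = Polynomial.C r ∨ Q₂ = Polynomial.C r ∨ Q₁ = Polynomial.C r)) →
      (∃ s p : ℂ, p ≠ 0 ∧ s ^ 2 - s - p ≠ 0 ∧ s ^ 2 - 4 * p ≠ 0 ∧
        p * (2 * s - 1) = s ^ 3 - s ^ 2 ∧ ∀ t u : ℂˣ, (t : ℂ) + u = s → (t : ℂ) * u = p →
          (f40 (-1) 0 0).eval (t : ℂ) = -(p * (s ^ 2 - s - p)) →
          (f40 (-1) 0 0).eval (u : ℂ) = -(p * (s ^ 2 - s - p)) → lev t w = lev u w) → False := by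
    rintro w hw ⟨Q₃, Q₂, Q₁, Q₀, r, hr0, hwQ, hQ⟩ ⟨s, p, hp0, hp1, hp2, hps, hpair⟩
    obtain ⟨N, A, B, hN⟩ := compare40 hadj hr hw hwQ hr0 hQ
    obtain ⟨t, u, h1, h2, h3⟩ := exists_sum_prod s p
    have ht0 : t ≠ 0 := by rintro rfl; apply hp0; linear_combination -h2
    have hu0 : u ≠ 0 := by rintro rfl; apply hp0; linear_combination -h2
    have htu : t ≠ u := by
      intro h
      rw [h, sub_self] at h3
      apply hp2
      linear_combination -h3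
    have hval : ∀ τ : ℂ, τ ^ 2 = s * τ - p → (f40 (-1) 0 0).eval τ =
        -(p * (s ^ 2 - s - p)) := by
      intro τ hτ
      rw [f40_eval]
      linear_combination (τ ^ 2 + (s - 1) * τ + s ^ 2 - s - p) * hτ - τ * hps
    have v1 := hval t (by linear_combination t * h1 - h2)
    have v2 := hval u (by linear_combination u * h1 - h2)
    obtain ⟨t', rfl⟩ : ∃ t' : ℂˣ, (t' : ℂ) = t := ⟨Units.mk0 _ ht0, rfl⟩
    obtain ⟨u', rfl⟩ : ∃ u' : ℂˣ, (u' : ℂ) = u := ⟨Units.mk0 _ hu0, rfl⟩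
    refine excl40 hadj hN (t := t') (s := u') ?_ ?_ ?_ (hpair t' u' h1 h2 v1 v2)
    · rintro rfl; exact htu rfl
    · rw [v1, v2]
    · rw [v1]; exact neg_ne_zero.mpr (mul_ne_zero hp0 hp1)
  rcases hκ with rfl | rfl | rfl | rfl
  · -- exponent `-3`
    rcases hε with rfl | rfl
    · apply hfin (T 1 ^ 3) 5 0
      · apply ref40_neg 3
        intro v t₁ t₂ t₃ t₄ hf
        simp only [map_pow, lev_T1]
        exact f40_aux8 (mul_ne_zero hf.ne₁ hf.ne₂) (s1 hf) hf.s₂ (s3 hf)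
      · rw [w₄, pow_zero, one_mul]
      · exact ⟨Polynomial.C 1, 0, 0, 0, 1, one_ne_zero, by simp, Or.inl rfl⟩
    · exfalso
      apply hexcl (aeval (x40 (-1) 0 0) (2 * X : ℂ[X]) * T 1 ^ 2 +
        aeval (x40 (-1) 0 0) (2 * X : ℂ[X]) * T 1 + T 1 ^ 3)
      · apply ref40_neg 3
        intro v t₁ t₂ t₃ t₄ hf
        simp only [map_add, map_mul, map_pow, lev_T1, lev_aeval40, hf.eval₁, hf.swap₁₂.eval₁,
          hf.swapPairs.eval₁, hf.swapPairs.swap₁₂.eval₁, eval_ofNat, eval_X]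
        exact f40_aux9 (mul_ne_zero hf.ne₁ hf.ne₂) (s1 hf) hf.s₂ (s3 hf) hf.s₄
      · refine ⟨Polynomial.C 1, 2 * X, 2 * X, 0, 1, one_ne_zero, ?_, Or.inl rfl⟩
        rw [map_one, map_one, map_zero]; ring
      · obtain ⟨s, hs⟩ : ∃ s : ℂ, 2 * s ^ 4 - 4 * s ^ 3 + 2 * s - 1 = 0 := by
          have hd : (2 * X ^ 4 - 4 * X ^ 3 + 2 * X - 1 : ℂ[X]).natDegree = 4 := by
            compute_degree!
          obtain ⟨s, hs⟩ := IsAlgClosed.exists_root (2 * X ^ 4 - 4 * X ^ 3 + 2 * X - 1 : ℂ[X]) (by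
            intro h0
            have h1 := natDegree_eq_of_degree_eq_some h0
            rw [hd] at h1
            norm_num at h1)
          refine ⟨s, ?_⟩
          have := hs
          simp only [IsRoot.def, eval_sub, eval_add, eval_mul, eval_pow, eval_X, eval_ofNat,
            eval_one] at this
          exact this
        have hs0 : s ≠ 0 := by rintro rfl; norm_num at hs
        have hs1 : s - 1 ≠ 0 := by
          intro h
          have : s = 1 := by linear_combination h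
          rw [this] at hs; norm_num at hs
        have hs2 : 2 * s - 1 ≠ 0 := by
          intro h
          have : s = 1 / 2 := by linear_combination h / 2
          rw [this] at hs; norm_num at hs
        have hs3 : 3 - 2 * s ≠ 0 := by
          intro h
          have : s = 3 / 2 := by linear_combination -h / 2
          rw [this] at hs; norm_num at hs
        obtain ⟨p, hp⟩ : ∃ p, p = (s ^ 3 - s ^ 2) / (2 * s - 1) := ⟨_, rfl⟩
        have hps : p * (2 * s - 1) = s ^ 3 - s ^ 2 := by rw [hp, div_mul_cancel₀ _ hs2]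
        refine ⟨s, p, ?_, ?_, ?_, hps, ?_⟩
        · intro h
          rw [h, zero_mul] at hps
          exact mul_ne_zero (pow_ne_zero 2 hs0) hs1 (by linear_combination -hps)
        · intro h
          apply mul_ne_zero hs0 (pow_ne_zero 2 hs1)
          linear_combination (2 * s - 1) * h + hps
        · intro h
          apply mul_ne_zero (pow_ne_zero 2 hs0) hs3
          linear_combination (2 * s - 1) * h + 4 * hps
        · intro t u h1 h2 h3 h4
          simp only [map_add, map_mul, map_pow, lev_T1, lev_aeval40, h3, h4,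
            eval_ofNat, eval_X]
          have e : 2 * (-(p * (s ^ 2 - s - p))) * (s + 1) + s ^ 2 - p = 0 := by
            apply mul_left_cancel₀ (pow_ne_zero 2 hs2)
            linear_combination (-s ^ 3) * hs + (-2 * (s + 1) * ((2 * s - 1) * (s ^ 2 - s) -
              p * (2 * s - 1) - (s ^ 3 - s ^ 2)) - (2 * s - 1)) * hps
          have e12 : (t : ℂ) ^ 2 + t * u + (u : ℂ) ^ 2 = s ^ 2 - p := by
            rw [← h1, ← h2]; ring
          linear_combination ((t : ℂ) - u) * e + ((t : ℂ) - u) * e12 +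
            2 * (-(p * (s ^ 2 - s - p))) * ((t : ℂ) - u) * h1
  · -- exponent `-1`
    rcases hε with rfl | rfl
    · exfalso
      apply hexcl (2 * T 1 ^ 3 - T 1 ^ 2)
      · apply ref40_neg 1
        intro v t₁ t₂ t₃ t₄ hf
        simp only [map_sub, map_mul, map_pow, map_ofNat, lev_T1, pow_one]
        have := f40_aux5 (α := -1) hf.s₁ (s3 hf)
        linear_combination this
      · refine ⟨Polynomial.C 2, Polynomial.C (-1), 0, 0, 2, two_ne_zero, ?_, Or.inl rfl⟩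
        simp only [map_neg, map_one, map_ofNat,
          map_zero]
        ring
      · obtain ⟨s, hs⟩ : ∃ s : ℂ, 2 * s ^ 2 - 2 * s + 1 = 0 := by
          obtain ⟨r, hr⟩ := IsAlgClosed.exists_pow_nat_eq (-1 : ℂ) (by norm_num : 0 < 2)
          exact ⟨(r + 1) / 2, by linear_combination (1 / 2) * hr⟩
        refine ⟨s, (s - 1) / 2, ?_, ?_, ?_, ?_, ?_⟩
        · intro h
          have : s = 1 := by linear_combination 2 * h
          rw [this] at hs; norm_num at hs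
        · intro h
          have : s = 0 := by linear_combination hs - 2 * h
          rw [this] at hs; norm_num at hs
        · intro h
          have : s = 3 / 2 := by linear_combination hs / 2 - h
          rw [this] at hs; norm_num at hs
        · linear_combination (-(s - 1) / 2) * hs
        · intro t u h1 h2 h3 h4
          simp only [map_sub, map_mul, map_pow, map_ofNat, lev_T1]
          linear_combination ((t : ℂ) - u) * hs + ((t : ℂ) - u) * (2 * ((t : ℂ) + u + s) - 1) * h1 -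
            2 * ((t : ℂ) - u) * h2
    · apply hfin (T 1 ^ 2) 2 0
      · apply ref40_neg 1
        intro v t₁ t₂ t₃ t₄ hf
        simp only [map_pow, lev_T1, pow_one]
        exact f40_aux4 (s3 hf)
      · rw [w₄, pow_zero, one_mul]
      · exact ⟨0, Polynomial.C 1, 0, 0, 1, one_ne_zero, by simp, Or.inr (Or.inl rfl)⟩
  · -- exponent `0`
    rcases hε with rfl | rfl
    · apply hfin (T 1) 0 0
      · intro v t₁ t₂ t₃ t₄ hf
        rw [zpow_zero, zpow_zero, lev_T1, lev_T1, lev_T1, lev_T1]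
        ring
      · rw [w₄, pow_zero, one_mul]
      · exact ⟨0, 0, Polynomial.C 1, 0, 1, one_ne_zero, by simp, Or.inr (Or.inr rfl)⟩
    · apply hfin (2 * T 1 ^ 2 - T 1) 4 0
      · intro v t₁ t₂ t₃ t₄ hf
        rw [zpow_zero, zpow_zero]
        simp only [map_sub, map_mul, map_pow, map_ofNat, lev_T1]
        have := f40_aux3 hf.s₁
        linear_combination this
      · rw [w₄, pow_zero, one_mul]
      · refine ⟨0, Polynomial.C 2, Polynomial.C (-1), 0, 2, two_ne_zero, ?_, Or.inr (Or.inl rfl)⟩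
        simp only [map_neg, map_one, map_ofNat,
          map_zero]
        ring
  · -- exponent `1`
    rcases hε with rfl | rfl
    · apply hfin (T 1 ^ 3 - T 1 ^ 2) 1 1
      · intro v t₁ t₂ t₃ t₄ hf
        rw [zpow_one, zpow_one]
        simp only [map_sub, map_pow, lev_T1]
        have := f40_aux1 hf.s₁ hf.s₂
        linear_combination this
      · rw [w₄, pow_one, hxe]
        linear_combination (-(T 1 ^ 3 - T 1 ^ 2)) * hTT
      · refine ⟨Polynomial.C 1, Polynomial.C (-1), 0, 0, 1, one_ne_zero, ?_, Or.inl rfl⟩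
        simp only [map_neg, map_one,
          map_zero]
        ring
    · apply hfin (T 1 ^ 2 - T 1) 3 1
      · intro v t₁ t₂ t₃ t₄ hf
        rw [zpow_one, zpow_one]
        simp only [map_sub, map_pow, lev_T1]
        have := f40_aux2 hf.s₁ (s3 hf)
        linear_combination this
      · rw [w₄, pow_one, hxe]
        linear_combination (-(T 1 ^ 2 - T 1) * (T 1 * T (-1) + 1)) * hTT
      · refine ⟨0, Polynomial.C 1, Polynomial.C (-1), 0, 1, one_ne_zero, ?_, Or.inr (Or.inl rfl)⟩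
        simp only [map_neg, map_one,
          map_zero]
        ring

end Pool.Agent.Helper34_CStar
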