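import Pool.Agent.Helper34_CStar.ClsCubic

/-!
# Embeddings with a coordinate having a simple pole at one end and degree one or two at the other
-/

namespace Pool.Agent.Helper34_CStar

open Polynomial LaurentPolynomial

/-- a Laurent polynomial with infinitely many zeros is zero -/
theorem zero_of_infinite {z : ℂ[T;T⁻¹]}
    (h : {u : ℂ | ∃ hu : u ≠ 0, lev (Units.mk0 u hu) z = 0}.Infinite) : z = 0 := by
  obtain ⟨n, Y, hY⟩ := exists_T_pow z
  have hz : z = toLaurent Y * T (-(n : ℤ)) := by rw [hY, mul_T_assoc]; simp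
  have hY0 : Y = 0 := by
    apply eq_zero_of_infinite_isRoot
    refine h.mono ?_
    rintro u ⟨hu, h1⟩
    rw [Set.mem_ofPred_eq, IsRoot.def]
    have h2 := lev_y (Units.mk0 u hu) Y n
    rw [← hz, h1, zero_mul, Units.val_mk0, coe_aeval_eq_eval] at h2
    exact h2.symm
  rw [hz, hY0, map_zero, zero_mul]

/-- a nonconstant Laurent polynomial is transcendental -/
theorem aeval_laurent_inj {x : ℂ[T;T⁻¹]} (hx : ∀ r : ℂ, x ≠ LaurentPolynomial.C r) {P : ℂ[X]}
    (h : aeval x P = 0) : P = 0 := by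
  by_contra hP
  have h4 := (IsAlgClosed.splits P).eq_prod_roots
  rw [h4, map_mul, aeval_C, ← LaurentPolynomial.C_eq_algebraMap] at h
  have h5 : (LaurentPolynomial.C P.leadingCoeff : ℂ[T;T⁻¹]) ≠ 0 := by
    intro h0
    have h1 := congrArg (lev (1 : ℂˣ)) h0
    rw [lev_C, map_zero] at h1
    exact leadingCoeff_ne_zero.mpr hP (by simpa using h1)
  have h6 := (mul_eq_zero.mp h).resolve_left h5
  rw [map_multiset_prod, Multiset.prod_eq_zero_iff, Multiset.map_map, Multiset.mem_map] at h6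
  obtain ⟨a, _, ha⟩ := h6
  apply hx a
  simp only [Function.comp_apply, map_sub, aeval_X, aeval_C] at ha
  rw [LaurentPolynomial.C_eq_algebraMap]
  exact sub_eq_zero.mp ha

/-- the infinitely near unit -/
noncomputable def dualUnit (t : ℂˣ) : (DualNumber ℂ)ˣ :=
  ⟨algebraMap ℂ _ (t : ℂ) * (1 + DualNumber.eps), algebraMap ℂ _ ((t⁻¹ : ℂˣ) : ℂ) *
    (1 - DualNumber.eps), by
      have h1 : (algebraMap ℂ (DualNumber ℂ) (t : ℂ)) * algebraMap ℂ _ ((t⁻¹ : ℂˣ) : ℂ) = 1 := by
        rw [← map_mul, Units.mul_inv, map_one]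
      have h2 : (DualNumber.eps : DualNumber ℂ) ^ 2 = 0 := DualNumber.eps_pow_two
      linear_combination (1 - DualNumber.eps ^ 2) * h1 - h2, by
      have h1 : (algebraMap ℂ (DualNumber ℂ) (t : ℂ)) * algebraMap ℂ _ ((t⁻¹ : ℂˣ) : ℂ) = 1 := by
        rw [← map_mul, Units.mul_inv, map_one]
      have h2 : (DualNumber.eps : DualNumber ℂ) ^ 2 = 0 := DualNumber.eps_pow_two
      linear_combination (1 - DualNumber.eps ^ 2) * h1 - h2⟩

/-- the constant unit -/
noncomputable def constUnit (t : ℂˣ) : (DualNumber ℂ)ˣ :=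
  Units.map ((algebraMap ℂ (DualNumber ℂ)) : ℂ →* DualNumber ℂ) t

theorem dualUnit_ne (t : ℂˣ) : dualUnit t ≠ constUnit t := by
  intro h
  have h1 := congrArg (fun u : (DualNumber ℂ)ˣ => TrivSqZeroExt.snd (u : DualNumber ℂ)) h
  have h2 : TrivSqZeroExt.snd ((dualUnit t : (DualNumber ℂ)ˣ) : DualNumber ℂ) = (t : ℂ) := by
    change TrivSqZeroExt.snd (algebraMap ℂ (DualNumber ℂ) (t : ℂ) * (1 + DualNumber.eps)) = _
    rw [TrivSqZeroExt.algebraMap_eq_inl]
    simp [TrivSqZeroExt.snd_mul, DualNumber.snd_eps, DualNumber.fst_eps]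
  have h3 : TrivSqZeroExt.snd ((constUnit t : (DualNumber ℂ)ˣ) : DualNumber ℂ) = 0 := by
    change TrivSqZeroExt.snd (algebraMap ℂ (DualNumber ℂ) (t : ℂ)) = _
    rw [TrivSqZeroExt.algebraMap_eq_inl]
    simp
  rw [h2, h3] at h1
  exact t.ne_zero h1

/-- an induction principle -/
theorem laurent_ind {M : ℂ[T;T⁻¹] → Prop} (hC : ∀ a : ℂ, M (LaurentPolynomial.C a))
    (hadd : ∀ p q, M p → M q → M (p + q)) (hT : ∀ z, M z → M (z * T 1))
    (hT' : ∀ z, M z → M (z * T (-1))) (z : ℂ[T;T⁻¹]) : M z := by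
  induction z using LaurentPolynomial.induction_on with
  | h_C a => exact hC a
  | h_add hp hq => exact hadd _ _ hp hq
  | h_C_mul_T n a ih =>
    have := hT _ ih
    rwa [mul_assoc, ← T_add] at this
  | h_C_mul_T_Z n a ih =>
    have := hT' _ ih
    rwa [mul_assoc, ← T_add] at this

/-- decomposition over the ring generated by `T + b / T` -/
theorem span_two {b : ℂ} (hb : b ≠ 0) {x : ℂ[T;T⁻¹]}
    (hx : x = T 1 + LaurentPolynomial.C b * T (-1)) (z : ℂ[T;T⁻¹]) :
    ∃ A B : ℂ[X], z = aeval x A * T 1 + aeval x B := by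
  have hTT := T_mul_T_neg
  have hCb : (LaurentPolynomial.C b⁻¹ : ℂ[T;T⁻¹]) * LaurentPolynomial.C b = 1 := by
    rw [← map_mul, inv_mul_cancel₀ hb, map_one]
  induction z using laurent_ind with
  | hC a =>
    exact ⟨0, Polynomial.C a, by
      rw [map_zero, zero_mul, zero_add, aeval_C, LaurentPolynomial.C_eq_algebraMap]⟩
  | hadd p q hp hq =>
    obtain ⟨A, B, h⟩ := hp
    obtain ⟨A', B', h'⟩ := hq
    exact ⟨A + A', B + B', by rw [h, h', map_add, map_add]; ring⟩
  | hT z ih =>
    obtain ⟨A, B, h⟩ := ih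
    refine ⟨A * X + B, Polynomial.C (-b) * A, ?_⟩
    rw [h]
    simp only [map_add, map_mul, map_neg, aeval_C, aeval_X, ← LaurentPolynomial.C_eq_algebraMap]
    linear_combination (-(aeval x A * T 1)) * hx - aeval x A * LaurentPolynomial.C b * hTT
  | hT' z ih =>
    obtain ⟨A, B, h⟩ := ih
    refine ⟨-Polynomial.C b⁻¹ * B, A + Polynomial.C b⁻¹ * X * B, ?_⟩
    rw [h]
    simp only [map_add, map_mul, map_neg, aeval_C, aeval_X, ← LaurentPolynomial.C_eq_algebraMap]
    linear_combination (aeval x A) * hTT - aeval x B * LaurentPolynomial.C b⁻¹ * hx -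
      aeval x B * T (-1) * hCb

/-- evaluation of a scalar multiple of the parameter -/
theorem lev_unit_C_T {S : Type*} [CommRing S] [Algebra ℂ S] (u : Sˣ) (b : ℂ) (n : ℤ) :
    lev u (LaurentPolynomial.C b * T n) = algebraMap ℂ S b * ((u ^ n : Sˣ) : S) := by
  rw [map_mul, lev_C, lev_T]

theorem eps_sq : (DualNumber.eps : DualNumber ℂ) ^ 2 = 0 := DualNumber.eps_pow_two

/-- **The class of embeddings having `T + b / T` as a coordinate.** -/
theorem cls_hyp {b : ℂ} (hb : b ≠ 0) {φ : P2 →ₐ[ℂ] ℂ[T;T⁻¹]} (hφ : Function.Surjective φ)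
    (h0 : φ (MvPolynomial.X 0) = T 1 + LaurentPolynomial.C b * T (-1)) : Cls φ := by
  have hadj := adjoin_of_surjective hφ
  obtain ⟨x, hx⟩ : ∃ x, x = (T 1 + LaurentPolynomial.C b * T (-1) : ℂ[T;T⁻¹]) := ⟨_, rfl⟩
  rw [← hx] at h0
  rw [h0] at hadj
  obtain ⟨A, B, hAB⟩ := span_two hb hx (φ (MvPolynomial.X 1))
  -- values at units
  have hval : ∀ {S : Type} [CommRing S] [Algebra ℂ S] (u : Sˣ) (v : ℂ),
      (u : S) ^ 2 - algebraMap ℂ S v * u + algebraMap ℂ S b = 0 → lev u x = algebraMap ℂ S v := by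
    intro S _ _ u v h
    rw [hx, map_add, lev_unit_C_T, lev_T, zpow_one, zpow_neg, zpow_one]
    have h1 : (u : S) * ((u⁻¹ : Sˣ) : S) = 1 := Units.mul_inv u
    apply u.isUnit.mul_left_cancel
    linear_combination h + algebraMap ℂ S b * h1
  have hval2 : ∀ {S : Type} [CommRing S] [Algebra ℂ S] (u : Sˣ) (v : ℂ),
      lev u x = algebraMap ℂ S v → lev u (φ (MvPolynomial.X 1)) =
        algebraMap ℂ S (A.eval v) * u + algebraMap ℂ S (B.eval v) := by
    intro S _ _ u v h
    rw [hAB, map_add, map_mul, lev_T, zpow_one]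
    have h1 : ∀ P : ℂ[X], lev u (aeval x P) = algebraMap ℂ S (P.eval v) := by
      intro P
      have := aeval_algHom_apply (levA u) x P
      rw [levA_apply, levA_apply, h] at this
      rw [← this, aeval_algebraMap_apply, coe_aeval_eq_eval]
    rw [h1, h1]
  have hA : ∀ v, A.eval v ≠ 0 := by
    intro v hv
    obtain ⟨r, hr⟩ := IsAlgClosed.exists_pow_nat_eq (v ^ 2 - 4 * b) (by norm_num : 0 < 2)
    set t := (v + r) / 2 with ht
    set s := (v - r) / 2 with hs
    have hsum : t + s = v := by rw [ht, hs]; ring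
    have hprod : t * s = b := by rw [ht, hs]; linear_combination (-1 / 4) * hr
    have ht0 : t ≠ 0 := by rintro h; rw [h, zero_mul] at hprod; exact hb hprod.symm
    have hs0 : s ≠ 0 := by rintro h; rw [h, mul_zero] at hprod; exact hb hprod.symm
    have h1 : lev (Units.mk0 t ht0) x = v := by
      have := hval (S := ℂ) (Units.mk0 t ht0) v (by
        simp only [Units.val_mk0, Algebra.algebraMap_self, RingHom.id_apply]
        linear_combination t * hsum - hprod)
      simpa using this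
    have h2 : lev (Units.mk0 s hs0) x = v := by
      have := hval (S := ℂ) (Units.mk0 s hs0) v (by
        simp only [Units.val_mk0, Algebra.algebraMap_self, RingHom.id_apply]
        linear_combination s * hsum - hprod)
      simpa using this
    have h3 := lev_ext hadj (Units.mk0 t ht0) (Units.mk0 s hs0) (by rw [h1, h2]) (by
      rw [hval2 (S := ℂ) _ v (by simpa using h1), hval2 (S := ℂ) _ v (by simpa using h2), hv]
      simp)
    have hts : t = s := congrArg Units.val h3
    -- the infinitely near point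
    apply dualUnit_ne (Units.mk0 t ht0)
    have e1 : lev (dualUnit (Units.mk0 t ht0)) x = algebraMap ℂ (DualNumber ℂ) v := by
      apply hval
      have hu : ((dualUnit (Units.mk0 t ht0) : (DualNumber ℂ)ˣ) : DualNumber ℂ) =
        algebraMap ℂ _ t * (1 + DualNumber.eps) := rfl
      rw [hu]
      have h4 : algebraMap ℂ (DualNumber ℂ) v = 2 * algebraMap ℂ _ t := by
        rw [← hsum, ← hts, map_add]; ring
      have h5 : algebraMap ℂ (DualNumber ℂ) b = (algebraMap ℂ _ t) ^ 2 := by
        rw [← hprod, ← hts, map_mul]; ring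
      rw [h4, h5]
      linear_combination (algebraMap ℂ (DualNumber ℂ) t) ^ 2 * eps_sq
    have e2 : lev (constUnit (Units.mk0 t ht0)) x = algebraMap ℂ (DualNumber ℂ) v := by
      apply hval
      have hu : ((constUnit (Units.mk0 t ht0) : (DualNumber ℂ)ˣ) : DualNumber ℂ) =
        algebraMap ℂ _ t := rfl
      rw [hu, ← map_pow, ← map_mul, ← map_sub, ← map_add]
      have : t ^ 2 - v * t + b = 0 := by linear_combination t * hsum - hprod
      rw [this, map_zero]
    apply lev_ext hadj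
    · rw [e1, e2]
    · rw [hval2 _ v e1, hval2 _ v e2, hv, map_zero, zero_mul, zero_mul]
  obtain ⟨c, hc⟩ : ∃ c, A = Polynomial.C c := by
    have h1 : A.natDegree = 0 := by
      by_contra hne
      obtain ⟨r, hr⟩ := IsAlgClosed.exists_root A (by
        intro h0
        exact hne (natDegree_eq_of_degree_eq_some h0))
      exact hA r hr
    obtain ⟨c, hc⟩ := natDegree_eq_zero.mp h1
    exact ⟨c, hc.symm⟩
  have hc0 : c ≠ 0 := by
    rintro rfl
    apply hA 0
    rw [hc]; simp
  apply Cls.of_aut inv' inv'_injective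
  refine cls_of_X1 (φ := inv'.comp φ) (n := 1) ?_ (by omega) hc0 (H := B) ?_
  · rw [AlgHom.coe_comp]; exact inv'_surjective.comp hφ
  · rw [AlgHom.comp_apply, AlgHom.comp_apply, h0, hAB, hc, map_add, map_mul, aeval_C,
      ← LaurentPolynomial.C_eq_algebraMap, inv'_C, inv'_T, Nat.cast_one, ← aeval_algHom_apply]

end Pool.Agent.Helper34_CStar
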