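import Pool.Agent.Helper34_CStar.ClsPow

/-!
# Normalization of the second coordinate
-/

namespace Pool.Agent.Helper34_CStar

open Polynomial LaurentPolynomial

/-- a negative power of the parameter as a second coordinate -/
theorem cls_of_X1 {φ : P2 →ₐ[ℂ] ℂ[T;T⁻¹]} (hφ : Function.Surjective φ) {n : ℕ}
    (hn : n = 1 ∨ n = 2 ∨ n = 3) {a : ℂ} (ha : a ≠ 0) {H : ℂ[X]}
    (h1 : φ (MvPolynomial.X 1) = LaurentPolynomial.C a * T (-(n : ℤ)) +
      aeval (φ (MvPolynomial.X 0)) H) : Cls φ := by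
  set α := tri 1 0 a⁻¹ one_ne_zero (inv_ne_zero ha) (Polynomial.C (-a⁻¹) * H) with hα
  have h2 : (φ.comp (α : P2 →ₐ[ℂ] P2)) (MvPolynomial.X 1) = T (-(n : ℤ)) := by
    rw [hα, comp_tri_X1, h1, map_mul, aeval_C, ← LaurentPolynomial.C_eq_algebraMap, map_neg]
    have h3 : (LaurentPolynomial.C a⁻¹ : ℂ[T;T⁻¹]) * LaurentPolynomial.C a = 1 := by
      rw [← map_mul, inv_mul_cancel₀ ha, map_one]
    linear_combination T (-(n : ℤ)) * h3
  apply Cls.of_comp α
  apply Cls.of_aut inv' inv'_injective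
  apply Cls.of_comp swapXY
  have hs : Function.Surjective ((inv'.comp (φ.comp (α : P2 →ₐ[ℂ] P2))).comp
      (swapXY : P2 →ₐ[ℂ] P2)) := by
    apply surjective_comp_equiv
    rw [AlgHom.coe_comp]
    exact inv'_surjective.comp (surjective_comp_equiv hφ α)
  have h3 : ((inv'.comp (φ.comp (α : P2 →ₐ[ℂ] P2))).comp
      (swapXY : P2 →ₐ[ℂ] P2)) (MvPolynomial.X 0) = T (n : ℤ) := by
    change inv' ((φ.comp (α : P2 →ₐ[ℂ] P2)) (swapXY (MvPolynomial.X 0))) = _
    rw [swapXY_X0, h2, inv'_T, neg_neg]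
  rcases hn with rfl | hn
  · exact cls_lin hs (by rw [h3]; rfl)
  · exact cls_pow hn hs h3

/-- the normal form of the second coordinate -/
theorem exists_norm (j : Fin 4) {y : ℂ[T;T⁻¹]} {N i : ℕ} (hi : 1 ≤ i) (hiN : i ≤ N) {c : ℂ}
    (hc : c ≠ 0) {G : ℂ[X]}
    (h : x₀ j ^ N * y = LaurentPolynomial.C c * x₀ j ^ (N - i) * w₀ j + aeval (x₀ j) G) :
    ∃ (a : ℂ) (H τ : ℂ[X]), a ≠ 0 ∧ τ.natDegree < i ∧ τ.coeff 0 = 1 ∧ X ^ i ∣ rel j X τ ∧
      x₀ j ^ i * (LaurentPolynomial.C a * y + aeval (x₀ j) H) + aeval (x₀ j) τ = w₀ j := by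
  have hx := x₀_ne_zero j
  have hx1 := lev_x₀_one j
  obtain ⟨M, rfl⟩ : ∃ M, N = M + i := ⟨N - i, by omega⟩
  rw [Nat.add_sub_cancel] at h
  have hdvd : X ^ M ∣ G := by
    apply dvd_of_aeval_dvd hx hx1
    refine ⟨x₀ j ^ i * y - LaurentPolynomial.C c * w₀ j, ?_⟩
    rw [pow_add] at h
    linear_combination -h
  obtain ⟨G', rfl⟩ := hdvd
  have h1 : x₀ j ^ i * y = LaurentPolynomial.C c * w₀ j + aeval (x₀ j) G' := by
    apply mul_left_cancel₀ (pow_ne_zero M hx)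
    rw [map_mul, map_pow, aeval_X, pow_add] at h
    linear_combination h
  set R := G' %ₘ X ^ i with hR
  set H := G' /ₘ X ^ i with hH
  have hGRH : R + X ^ i * H = G' := modByMonic_add_div G' _
  have hRd : R.natDegree < i := by
    have := natDegree_modByMonic_lt G' (monic_X_pow i) (by
      intro h1
      have := congrArg natDegree h1
      rw [natDegree_X_pow, natDegree_one] at this
      omega)
    rwa [natDegree_X_pow] at this
  have hci : c⁻¹ ≠ 0 := inv_ne_zero hc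
  have hcc : (LaurentPolynomial.C c⁻¹ : ℂ[T;T⁻¹]) * LaurentPolynomial.C c = 1 := by
    rw [← map_mul, inv_mul_cancel₀ hc, map_one]
  obtain ⟨τ, hτ⟩ : ∃ τ, τ = Polynomial.C (-c⁻¹) * R := ⟨_, rfl⟩
  obtain ⟨H', hH'⟩ : ∃ H', H' = Polynomial.C (-c⁻¹) * H := ⟨_, rfl⟩
  have h2 : x₀ j ^ i * (LaurentPolynomial.C c⁻¹ * y + aeval (x₀ j) H') + aeval (x₀ j) τ =
      w₀ j := by
    rw [hτ, hH', map_mul, map_mul, aeval_C, ← LaurentPolynomial.C_eq_algebraMap, map_neg]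
    rw [← hGRH, map_add, map_mul, map_pow, aeval_X] at h1
    linear_combination LaurentPolynomial.C c⁻¹ * h1 + w₀ j * hcc
  have hτd : τ.natDegree < i := by
    rw [hτ, natDegree_C_mul (neg_ne_zero.mpr hci)]; exact hRd
  refine ⟨c⁻¹, H', τ, hci, hτd, ?_, ?_, h2⟩
  · have h3 := congrArg (levA (S := ℂ) 1) h2
    rw [map_add, map_mul, map_pow, ← aeval_algHom_apply, levA_apply, levA_apply, levA_apply,
      hx1, zero_pow (by omega), zero_mul, zero_add, coe_aeval_eq_eval, lev_w₀_one,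
      ← coeff_zero_eq_eval_zero] at h3
    exact h3
  · apply dvd_of_aeval_dvd hx hx1
    have h3 := rel_sub j (x₀ j) (w₀ j) (aeval (x₀ j) τ)
    rw [rel_std, zero_sub] at h3
    have h4 : aeval (x₀ j) (rel j X τ) = rel j (x₀ j) (aeval (x₀ j) τ) := by
      rw [map_rel, aeval_X]
    rw [h4]
    refine ⟨-((LaurentPolynomial.C c⁻¹ * y + aeval (x₀ j) H') *
      relD j (x₀ j) (w₀ j) (aeval (x₀ j) τ)), ?_⟩
    linear_combination -h3 + relD j (x₀ j) (w₀ j) (aeval (x₀ j) τ) * h2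

/-- membership in the class for large `i` -/
theorem cls_of_norm (j : Fin 4) {φ : P2 →ₐ[ℂ] ℂ[T;T⁻¹]} (h0 : φ (MvPolynomial.X 0) = x₀ j)
    {i : ℕ} (hi : 1 ≤ i) (hij : (j = 0 ∧ 3 ≤ i) ∨ (j ≠ 0 ∧ 2 ≤ i)) {a : ℂ} {H τ : ℂ[X]}
    (ha : a ≠ 0) (hd : τ.natDegree < i) (hτ0 : τ.coeff 0 = 1) (hdvd : X ^ i ∣ rel j X τ)
    (h : x₀ j ^ i * (LaurentPolynomial.C a * φ (MvPolynomial.X 1) + aeval (x₀ j) H) +
      aeval (x₀ j) τ = w₀ j) : Cls φ := by
  obtain ⟨q, hq⟩ := rel_trunc_dvd j hdvd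
  have hqT : IsTrunc j i q := ⟨τ, hd, hτ0, hq⟩
  have hqR : IsRepr q := by
    rcases hij with ⟨rfl, h3⟩ | ⟨hj, h2⟩
    · exact Or.inr (Or.inr (Or.inr (Or.inl ⟨i, h3, hqT⟩)))
    · exact Or.inr (Or.inr (Or.inr (Or.inr (Or.inl ⟨j, i, hj, h2, hqT⟩))))
  apply Cls.of_comp (tri 1 0 a one_ne_zero ha H)
  refine cls_of_std (c := 0) (x₁ := x₀ j) (q := q) ?_ hqR ?_ rfl
  · rw [map_zero, sub_zero]
    apply isStd_trunc j hi hτ0 hq
    rw [comp_tri_X1, h0]
    exact h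
  · rw [comp_tri_X0, h0, map_one, one_mul, map_zero, add_zero]

/-- for `i = 1` the truncation is `1` -/
theorem norm_one (j : Fin 4) {τ : ℂ[X]} (hd : τ.natDegree < 1) (h0 : τ.coeff 0 = 1)
    {y : ℂ[T;T⁻¹]} (h : x₀ j ^ 1 * y + aeval (x₀ j) τ = w₀ j) : x₀ j * y = w₀ j - 1 := by
  have h1 : τ = 1 := by
    rw [eq_C_of_natDegree_le_zero (p := τ) (by omega), h0, map_one]
  rw [h1, map_one, pow_one] at h
  linear_combination h

theorem exists_comp {f : ℂ[X]} (hf : f.Monic) (hd : 2 ≤ f.natDegree) (P : ℂ[X]) (x₀ : ℂ)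
    (h : ∀ t s : ℂ, f.eval t = f.eval s → f.eval t ≠ x₀ → P.eval t = P.eval s) :
    ∃ G : ℂ[X], P = G.comp f := by
  classical
  obtain ⟨A, B, hAB⟩ := exists_decomp hf hd P x₀ (by
    intro a b c hab hbc ha
    have h1 := h a b hab ha
    have h2 := h a c (hab.trans hbc) ha
    rw [← h1, ← h2]; ring)
  have hA : A = 0 := by
    apply eq_zero_of_infinite_isRoot
    apply (infinite_good' (f := f) (by omega) x₀).mono
    intro x hx
    rw [Set.mem_ofPred_eq] at hx ⊢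
    obtain ⟨hx, hxx₀⟩ := hx
    have hcard := card_fibre f x
    have hfx : f - Polynomial.C x ≠ 0 := by
      intro h
      have : (f - Polynomial.C x).natDegree = f.natDegree := natDegree_sub_C
      rw [h] at this
      simp at this
      omega
    have hmem : ∀ t, t ∈ (f - Polynomial.C x).roots ↔ f.eval t = x := by
      intro t
      rw [mem_roots hfx, IsRoot.def, eval_sub, eval_C, sub_eq_zero]
    have hfc : 1 < (f - Polynomial.C x).roots.toFinset.card := by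
      rw [Multiset.toFinset_card_of_nodup hx, hcard]; omega
    obtain ⟨a, ha, b, hb, hab⟩ := Finset.one_lt_card.mp hfc
    rw [Multiset.mem_toFinset, hmem] at ha hb
    have h1 := h a b (by rw [ha, hb]) (by rw [ha]; exact hxx₀)
    have h2 : ∀ t, P.eval t = A.eval (f.eval t) * t + B.eval (f.eval t) := by
      intro t
      rw [hAB]
      simp
    rw [h2, h2, ha, hb] at h1
    have h3 : A.eval x * (a - b) = 0 := by linear_combination h1
    exact (mul_eq_zero.mp h3).resolve_right (sub_ne_zero.mpr hab)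
  refine ⟨B, ?_⟩
  rw [hAB, hA]; simp

end Pool.Agent.Helper34_CStar
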