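import Pool.Agent.Helper34_CStar.Cls

/-!
# Embeddings with a power of the parameter as a coordinate
-/

namespace Pool.Agent.Helper34_CStar

open Polynomial LaurentPolynomial

/-- a function without poles at zero cannot generate -/
theorem not_poly {f : ℂ[X]} {y : ℂ[T;T⁻¹]} (h : Algebra.adjoin ℂ {toLaurent f, y} = ⊤) :
    ∀ Y : ℂ[X], y ≠ toLaurent Y := by
  rintro Y rfl
  have h1 : Algebra.adjoin ℂ {toLaurent f, toLaurent Y} ≤ (toLaurentAlg : ℂ[X] →ₐ[ℂ] _).range := by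
    rw [Algebra.adjoin_le_iff]
    rintro z (rfl | rfl)
    · exact ⟨f, by simp⟩
    · exact ⟨Y, by simp⟩
  rw [h] at h1
  have h2 : (T (-1) : ℂ[T;T⁻¹]) ∈ (toLaurentAlg : ℂ[X] →ₐ[ℂ] _).range := h1 trivial
  obtain ⟨P, hP⟩ := h2
  have hP' : toLaurent P = (T (-1) : ℂ[T;T⁻¹]) := by simpa using hP
  have h3 : toLaurent (P * X) = toLaurent (1 : ℂ[X]) := by
    rw [map_mul, hP', toLaurent_X, map_one, ← T_add]
    simp
  have h4 := toLaurent_injective h3
  have h5 := congrArg (fun q : ℂ[X] => q.coeff 0) h4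
  simp at h5

/-- a Laurent polynomial without zeros is a unit -/
theorem unit_of_no_zero {u : ℂ[T;T⁻¹]} (h : ∀ t : ℂˣ, lev t u ≠ 0) :
    ∃ (c : ℂ) (m : ℤ), c ≠ 0 ∧ u = LaurentPolynomial.C c * T m := by
  obtain ⟨n, Y, hY⟩ := exists_T_pow u
  have hu : u = toLaurent Y * T (-(n : ℤ)) := by rw [hY, mul_T_assoc]; simp
  have hY0 : Y ≠ 0 := by
    rintro rfl
    apply h 1
    rw [hu, map_zero, zero_mul, map_zero]
  obtain ⟨Q, hQ, hQd⟩ := exists_eq_pow_rootMultiplicity_mul_and_not_dvd Y hY0 0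
  set e := rootMultiplicity 0 Y
  rw [map_zero, sub_zero] at hQ hQd
  have hQ0 : Q.natDegree = 0 := by
    by_contra hne
    obtain ⟨r, hr⟩ := IsAlgClosed.exists_root Q (by
      intro h0
      exact hne (natDegree_eq_of_degree_eq_some h0))
    by_cases hr0 : r = 0
    · rw [hr0] at hr
      apply hQd
      rw [X_dvd_iff, coeff_zero_eq_eval_zero]
      exact hr
    · apply h (Units.mk0 r hr0)
      rw [hu, map_mul, lev_toLaurent, hQ, Units.val_mk0, coe_aeval_eq_eval, eval_mul, hr.eq_zero,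
        mul_zero, zero_mul]
  obtain ⟨c, hc⟩ := natDegree_eq_zero.mp hQ0
  refine ⟨c, (e : ℤ) - n, ?_, ?_⟩
  · rintro rfl
    rw [map_zero] at hc
    rw [← hc, mul_zero] at hQ
    exact hY0 hQ
  · rw [hu, hQ, ← hc, map_mul, toLaurent_C, toLaurent_X_pow, mul_comm (T (e : ℤ)), mul_assoc,
      ← T_add]
    rfl

theorem lev_lev_sc (t : ℂˣ) (s : ℂ) (hs : s ≠ 0) (z : ℂ[T;T⁻¹]) :
    lev t (lev (sc s hs) z) = lev (Units.mk0 s hs * t) z := by
  have h1 := map_lev (levA (S := ℂ) t) (sc s hs) z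
  rw [levA_apply] at h1
  rw [h1]
  congr 2
  apply Units.ext
  change levA (S := ℂ) t (LaurentPolynomial.C s * T 1) = _
  rw [levA_apply, map_mul, lev_C, lev_T, zpow_one]
  rfl

theorem lev_inv' (t : ℂˣ) (z : ℂ[T;T⁻¹]) : lev t (inv' z) = lev t⁻¹ z := by
  have h : (lev t).comp (inv' : ℂ[T;T⁻¹] →+* ℂ[T;T⁻¹]) = lev (S := ℂ) t⁻¹ := by
    apply laurent_ringHom_ext
    · intro c
      simp only [RingHom.comp_apply, RingHom.coe_coe, inv'_C, lev_C]
    · simp only [RingHom.comp_apply, RingHom.coe_coe, inv'_T, lev_T]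
      simp
  exact congrArg (fun ψ : ℂ[T;T⁻¹] →+* ℂ => ψ z) h

theorem pow_structure {d : ℕ} (hd : 2 ≤ d) {y : ℂ[T;T⁻¹]}
    (hinj : ∀ t s : ℂˣ, t ^ d = s ^ d → lev t y = lev s y → t = s) :
    ∃ (c : ℂ) (m : ℤ) (N : ℕ) (G : ℂ[X]), c ≠ 0 ∧ ¬ (d : ℤ) ∣ m ∧
      T (d : ℤ) ^ N * (y - LaurentPolynomial.C c * T m) = aeval (T (d : ℤ) : ℂ[T;T⁻¹]) G := by
  have hprim := Complex.isPrimitiveRoot_exp d (by omega)
  obtain ⟨ζ, hζ⟩ := hprim.isUnit (by omega)
  rw [← hζ] at hprim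
  have hζ0 : (ζ : ℂ) ≠ 0 := ζ.ne_zero
  have hmk : Units.mk0 (ζ : ℂ) hζ0 = ζ := Units.ext rfl
  have hζd : ζ ^ d = 1 := by
    apply Units.ext
    rw [Units.val_pow_eq_pow_val, hprim.pow_eq_one, Units.val_one]
  have hζ1 : ζ ≠ 1 := by
    rintro rfl
    have := hprim.unique IsPrimitiveRoot.one
    omega
  have hlev : ∀ (t : ℂˣ) (z : ℂ[T;T⁻¹]), lev t (lev (sc (ζ : ℂ) hζ0) z) = lev (ζ * t) z := by
    intro t z
    rw [lev_lev_sc, hmk]
  obtain ⟨c, m, hc, hu⟩ := unit_of_no_zero (u := lev (sc (ζ : ℂ) hζ0) y - y) (by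
    intro t h
    rw [map_sub, hlev, sub_eq_zero] at h
    have h1 := hinj _ _ (by rw [mul_pow, hζd, one_mul]) h
    rw [mul_eq_right] at h1
    exact hζ1 h1)
  have hstep : ∀ t : ℂˣ, lev (ζ * t) y = lev t y + c * ((t ^ m : ℂˣ) : ℂ) := by
    intro t
    have h1 := congrArg (lev t) hu
    rw [map_sub, hlev, map_mul, lev_C, lev_T] at h1
    simp only [Algebra.algebraMap_self, RingHom.id_apply] at h1
    linear_combination h1
  have hm : ¬ (d : ℤ) ∣ m := by
    rintro ⟨k, rfl⟩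
    have hζm : ζ ^ ((d : ℤ) * k) = 1 := by rw [zpow_mul, zpow_natCast, hζd, one_zpow]
    have hiter : ∀ n : ℕ, lev (ζ ^ n) y = lev 1 y + n * c := by
      intro n
      induction n with
      | zero => simp
      | succ n ih =>
        rw [pow_succ', hstep, ih, ← zpow_natCast, ← zpow_mul, mul_comm (n : ℤ), zpow_mul, hζm,
          one_zpow]
        push_cast
        ring
    have h1 := hiter d
    rw [hζd] at h1
    have h2 : (d : ℂ) * c = 0 := by linear_combination -h1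
    rcases mul_eq_zero.mp h2 with h3 | h3
    · rw [Nat.cast_eq_zero] at h3; omega
    · exact hc h3
  have hζm : (ζ : ℂ) ^ m ≠ 1 := by
    intro h
    exact hm ((hprim.zpow_eq_one_iff_dvd m).mp h)
  have hζm' : (ζ : ℂ) ^ m - 1 ≠ 0 := sub_ne_zero.mpr hζm
  set c' := c / ((ζ : ℂ) ^ m - 1) with hc'
  have hc'e : c' * ((ζ : ℂ) ^ m - 1) = c := div_mul_cancel₀ _ hζm'
  set z := y - LaurentPolynomial.C c' * T m with hz
  have hzinv : lev (sc (ζ : ℂ) hζ0) z = z := by
    have h1 : (LaurentPolynomial.C c' : ℂ[T;T⁻¹]) * (LaurentPolynomial.C ((ζ : ℂ) ^ m) - 1) =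
        LaurentPolynomial.C c := by
      rw [← map_one (LaurentPolynomial.C : ℂ →+* ℂ[T;T⁻¹]), ← map_sub, ← map_mul, hc'e]
    rw [hz, map_sub, map_mul, lev_C, lev_sc_T, ← LaurentPolynomial.C_eq_algebraMap]
    linear_combination hu - T m * h1
  obtain ⟨n, Z, hZ⟩ := exists_T_pow z
  obtain ⟨e, rfl⟩ : ∃ e, d = e + 1 := ⟨d - 1, by omega⟩
  have hW : (T ((e + 1 : ℕ) : ℤ) : ℂ[T;T⁻¹]) ^ n * z = toLaurent (Z * X ^ (e * n)) := by
    rw [map_mul, hZ, toLaurent_X_pow, T_pow]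
    have : (T ((n : ℤ) * ((e + 1 : ℕ) : ℤ)) : ℂ[T;T⁻¹]) = T (n : ℤ) * T ((e * n : ℕ) : ℤ) := by
      rw [← T_add]; congr 1; push_cast; ring
    rw [this]; ring
  set W := Z * X ^ (e * n) with hWd
  have hWinv : W.comp (Polynomial.C (ζ : ℂ) * X) = W := by
    apply toLaurent_injective
    rw [← lev_sc_toLaurent (ζ : ℂ) hζ0, ← hW, map_mul, map_pow, hzinv, lev_sc_T]
    rw [zpow_natCast, hprim.pow_eq_one, map_one, one_mul]
  have hcoef : ∀ i, ¬ (e + 1) ∣ i → W.coeff i = 0 := by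
    intro i hi
    have h1 := congrArg (fun p : ℂ[X] => p.coeff i) hWinv
    simp only [comp_C_mul_X_coeff] at h1
    have h2 : (ζ : ℂ) ^ i ≠ 1 := fun h => hi ((hprim.pow_eq_one_iff_dvd i).mp h)
    have h3 : W.coeff i * ((ζ : ℂ) ^ i - 1) = 0 := by linear_combination h1
    exact (mul_eq_zero.mp h3).resolve_right (sub_ne_zero.mpr h2)
  refine ⟨c', m, n, contract (e + 1) W, ?_, hm, ?_⟩
  · intro h0
    rw [h0, zero_mul] at hc'e
    exact hc hc'e.symm
  · rw [hW]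
    have h1 : (T ((e + 1 : ℕ) : ℤ) : ℂ[T;T⁻¹]) = toLaurent (X ^ (e + 1)) := by
      rw [toLaurent_X_pow]
    rw [h1, aeval_toLaurent, ← expand_eq_comp_X_pow]
    congr 1
    ext i
    rw [coeff_expand (by omega)]
    split_ifs with hi
    · rw [coeff_contract (by omega), Nat.div_mul_cancel hi]
    · exact hcoef i hi

theorem exists_zpow_eq {m : ℤ} (hm : m ≠ 0) {a : ℂ} (ha : a ≠ 0) :
    ∃ s : ℂ, s ≠ 0 ∧ s ^ m = a := by
  have hn : 0 < m.natAbs := by omega
  rcases Int.natAbs_eq m with h | h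
  · obtain ⟨s, hs⟩ := IsAlgClosed.exists_pow_nat_eq a hn
    refine ⟨s, ?_, by rw [h, zpow_natCast, hs]⟩
    rintro rfl
    rw [zero_pow (by omega)] at hs
    exact ha hs.symm
  · obtain ⟨s, hs⟩ := IsAlgClosed.exists_pow_nat_eq a⁻¹ hn
    refine ⟨s, ?_, by rw [h, zpow_neg, zpow_natCast, hs, inv_inv]⟩
    rintro rfl
    rw [zero_pow (by omega)] at hs
    exact inv_ne_zero ha hs.symm

theorem isCoprime_of_prime {d : ℕ} (hd : d.Prime) {m : ℤ} (hm : ¬ (d : ℤ) ∣ m) :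
    IsCoprime m (d : ℤ) :=
  ((Int.prime_iff_natAbs_prime.mpr (by simpa using hd)).coprime_iff_not_dvd.mpr hm).symm

/-- **The class of embeddings having the `d`-th power of the parameter as a coordinate**, for
`d = 2` and `d = 3`. -/
theorem cls_pow {d : ℕ} (hd : d = 2 ∨ d = 3) {φ : P2 →ₐ[ℂ] ℂ[T;T⁻¹]}
    (hφ : Function.Surjective φ) (h0 : φ (MvPolynomial.X 0) = T (d : ℤ)) : Cls φ := by
  have hd2 : 2 ≤ d := by omega
  have hdp : d.Prime := by
    rcases hd with rfl | rfl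
    · exact Nat.prime_two
    · exact Nat.prime_three
  have hadj := adjoin_of_surjective hφ
  obtain ⟨y, hy⟩ : ∃ y, y = φ (MvPolynomial.X 1) := ⟨_, rfl⟩
  rw [← hy, h0] at hadj
  obtain ⟨c, m, N, G, hc, hm, hG⟩ := pow_structure hd2 (y := y) (by
    intro t s hts hy
    apply lev_ext hadj t s _ hy
    rw [lev_T, lev_T, zpow_natCast, zpow_natCast, hts])
  have hcop := isCoprime_of_prime hdp hm
  have hm0 : m ≠ 0 := by rintro rfl; exact hm (dvd_zero _)
  -- division of `G` by `X ^ N`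
  set R := G %ₘ X ^ N with hR
  set H := G /ₘ X ^ N with hH
  have hGRH : R + X ^ N * H = G := modByMonic_add_div G _
  have hTd : (T (d : ℤ) : ℂ[T;T⁻¹]) ≠ 0 := (isUnit_T _).ne_zero
  have h1 : T (d : ℤ) ^ N * (y - LaurentPolynomial.C c * T m -
      aeval (T (d : ℤ) : ℂ[T;T⁻¹]) H) = aeval (T (d : ℤ) : ℂ[T;T⁻¹]) R := by
    rw [← hGRH, map_add, map_mul, map_pow, aeval_X] at hG
    linear_combination hG
  have hTl : (T (d : ℤ) : ℂ[T;T⁻¹]) = toLaurent (X ^ d) := by rw [toLaurent_X_pow]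
  by_cases hR0 : R = 0
  · -- `y = c T ^ m + H(x)`
    rw [hR0, map_zero] at h1
    have h2 := (mul_eq_zero.mp h1).resolve_left (pow_ne_zero N hTd)
    have hmneg : m < 0 := by
      by_contra hcon
      rw [hTl] at hadj
      obtain ⟨k, rfl⟩ : ∃ k : ℕ, m = k := ⟨m.toNat, by omega⟩
      apply not_poly hadj (Polynomial.C c * X ^ k + H.comp (X ^ d))
      rw [map_add, map_mul, toLaurent_C, toLaurent_X_pow, ← aeval_toLaurent, ← hTl]
      linear_combination h2
    obtain ⟨l, hl⟩ : ∃ l : ℕ, m = -(l : ℤ) := ⟨(-m).toNat, by omega⟩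
    have hld : Nat.Coprime l d := by
      rw [← Nat.isCoprime_iff_coprime]
      rw [hl] at hcop
      exact IsCoprime.neg_left_iff _ _ |>.mp hcop
    set α := tri 1 0 c⁻¹ one_ne_zero (inv_ne_zero hc) (Polynomial.C (-c⁻¹) * H) with hα
    have hx1 : (φ.comp (α : P2 →ₐ[ℂ] P2)) (MvPolynomial.X 0) = T (d : ℤ) := by
      rw [hα, comp_tri_X0, h0, map_one, one_mul, map_zero, add_zero]
    have hy1 : (φ.comp (α : P2 →ₐ[ℂ] P2)) (MvPolynomial.X 1) = T (-(l : ℤ)) := by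
      rw [hα, comp_tri_X1, h0, ← hy, map_mul, aeval_C, ← hl, map_neg]
      have h3 : (LaurentPolynomial.C c⁻¹ : ℂ[T;T⁻¹]) * LaurentPolynomial.C c = 1 := by
        rw [← map_mul, inv_mul_cancel₀ hc, map_one]
      rw [← LaurentPolynomial.C_eq_algebraMap]
      linear_combination LaurentPolynomial.C c⁻¹ * h2 + T m * h3
    have hyP : ∀ (d l : ℕ), yPow d 0 (-(l : ℤ)) 0 = T (-(l : ℤ)) := by
      intro d l
      rw [yPow, map_zero, zero_add, zero_mul, Nat.cast_zero, neg_zero, T_zero, one_mul]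
    apply Cls.of_comp α
    by_cases hdl : d < l
    · exact cls_of_std (c := 1) (isStd_r₂ (n := 0) (by omega) (by omega) hld 0)
        (Or.inr (Or.inr (Or.inl ⟨d, 0, l, 0, hd, by omega, hld, Or.inl ⟨rfl, rfl, hdl⟩, rfl⟩)))
        hx1 (by rw [hy1, hyP])
    · have hne : l ≠ d := by
        rintro rfl
        rw [Nat.coprime_self] at hld
        omega
      apply Cls.of_aut inv' inv'_injective
      apply Cls.of_comp swapXY
      have hx2 : ((inv'.comp (φ.comp (α : P2 →ₐ[ℂ] P2))).comp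
          (swapXY : P2 →ₐ[ℂ] P2)) (MvPolynomial.X 0) = T (l : ℤ) := by
        change inv' ((φ.comp (α : P2 →ₐ[ℂ] P2)) (swapXY (MvPolynomial.X 0))) = _
        rw [swapXY_X0, hy1, inv'_T, neg_neg]
      have hy2 : ((inv'.comp (φ.comp (α : P2 →ₐ[ℂ] P2))).comp
          (swapXY : P2 →ₐ[ℂ] P2)) (MvPolynomial.X 1) = T (-(d : ℤ)) := by
        change inv' ((φ.comp (α : P2 →ₐ[ℂ] P2)) (hom2 _ _ (MvPolynomial.X 1))) = _
        rw [hom2_X1, hx1, inv'_T]
      by_cases hl1 : l = 1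
      · subst hl1
        have hq : r₂ 1 0 d 0 = r₀ d 0 := by
          rw [r₂, r₀, pow_zero, one_mul, pow_one, map_zero, sub_zero, sub_zero]
        have hstd := isStd_r₂ (n := 0) (d := 1) (l := d) le_rfl (by omega) (by simp) 0
        rw [hq] at hstd
        exact cls_of_std (c := 1) hstd (Or.inl ⟨d, 0, by omega, by simp; omega, by simp, rfl⟩)
          hx2 (by rw [hy2, hyP])
      · exact cls_of_std (c := 1) (isStd_r₂ (n := 0) (d := l) (l := d) (by omega) (by omega)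
          hld.symm 0) (Or.inr (Or.inr (Or.inl ⟨l, 0, d, 0, by omega, by omega, hld.symm,
            Or.inl ⟨rfl, rfl, by omega⟩, rfl⟩))) hx2 (by rw [hy2, hyP])
  · -- `R = X ^ e R₁`
    obtain ⟨R₁, hRR, hRd⟩ := exists_eq_pow_rootMultiplicity_mul_and_not_dvd R hR0 0
    set e := rootMultiplicity 0 R with he
    rw [map_zero, sub_zero] at hRR hRd
    have hR₁0 : R₁.coeff 0 ≠ 0 := by
      intro h; exact hRd (X_dvd_iff.mpr h)
    have hR₁ne : R₁ ≠ 0 := by rintro rfl; simp at hR₁0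
    have hN1 : X ^ N ≠ (1 : ℂ[X]) := by
      intro h
      apply hR0
      rw [hR, h, modByMonic_one]
    have hRlt : R.natDegree < N := by
      have := natDegree_modByMonic_lt G (monic_X_pow N) hN1
      rwa [natDegree_X_pow] at this
    have hRde : R.natDegree = e + R₁.natDegree := by
      rw [hRR, natDegree_mul (pow_ne_zero _ X_ne_zero) hR₁ne, natDegree_X_pow]
    obtain ⟨n, hn⟩ : ∃ n, N = e + n := ⟨N - e, by omega⟩
    have hn1 : R₁.natDegree < n := by omega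
    have h2 : T (d : ℤ) ^ n * (y - LaurentPolynomial.C c * T m -
        aeval (T (d : ℤ) : ℂ[T;T⁻¹]) H) = aeval (T (d : ℤ) : ℂ[T;T⁻¹]) R₁ := by
      rw [hRR, map_mul, map_pow, aeval_X, hn, pow_add, mul_assoc] at h1
      exact mul_left_cancel₀ (pow_ne_zero e hTd) h1
    set m' := m + n * d with hm'
    have hm'd : ¬ (d : ℤ) ∣ m' := by
      rw [hm', dvd_add_left (Dvd.intro_left _ rfl)]; exact hm
    have hcop' := isCoprime_of_prime hdp hm'd
    have hm'0 : m' ≠ 0 := by rintro h; rw [h] at hm'd; exact hm'd (dvd_zero _)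
    obtain ⟨s, hs0, hs⟩ := exists_zpow_eq hm'0 (div_ne_zero hR₁0 hc)
    set r := R₁.coeff 0 with hr
    set g : ℂ[X] := Polynomial.C r⁻¹ * R₁.comp (Polynomial.C (s ^ d) * X) with hg
    have hg0 : g.coeff 0 = 1 := by
      rw [hg, coeff_C_mul, comp_C_mul_X_coeff, ← hr, pow_zero, mul_one, inv_mul_cancel₀ hR₁0]
    have hgd : g.natDegree < n := by
      rw [hg, natDegree_C_mul (inv_ne_zero hR₁0), natDegree_comp_scale _ (pow_ne_zero _ hs0)]
      exact hn1
    obtain ⟨κ, hκ⟩ : ∃ κ, κ = s ^ (n * d) * r⁻¹ := ⟨_, rfl⟩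
    have hκ0 : κ ≠ 0 := by
      rw [hκ]; exact mul_ne_zero (pow_ne_zero _ hs0) (inv_ne_zero hR₁0)
    set φ' := ((levA (sc s hs0)).comp φ).comp
      (tri (s ^ d)⁻¹ 0 κ (inv_ne_zero (pow_ne_zero _ hs0)) hκ0
        (Polynomial.C (-κ) * H) : P2 →ₐ[ℂ] P2) with hφ'
    have hx' : φ' (MvPolynomial.X 0) = T (d : ℤ) := by
      rw [hφ', comp_tri_X0, AlgHom.comp_apply, levA_apply, h0, map_zero, add_zero,
        lev_sc_T, ← mul_assoc, ← map_mul, zpow_natCast,
        inv_mul_cancel₀ (pow_ne_zero _ hs0), map_one, one_mul]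
    have hy' : φ' (MvPolynomial.X 1) = yPow d n m' g := by
      have h3 := congrArg (levA (sc s hs0)) h2
      rw [map_mul, map_pow, map_sub, map_sub, map_mul, ← aeval_algHom_apply,
        ← aeval_algHom_apply] at h3
      simp only [levA_apply, lev_C, lev_sc_T, zpow_natCast] at h3
      rw [← LaurentPolynomial.C_eq_algebraMap] at h3
      rw [hφ', comp_tri_X1, AlgHom.comp_apply, AlgHom.comp_apply, levA_apply, levA_apply, h0,
        lev_sc_T, zpow_natCast, ← hy, map_mul, aeval_C, ← LaurentPolynomial.C_eq_algebraMap]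
      apply mul_left_cancel₀ (pow_ne_zero n hTd)
      have h5 := yPow_eq d n m' g
      have h6 : aeval (T (d : ℤ) : ℂ[T;T⁻¹]) g = LaurentPolynomial.C r⁻¹ *
          aeval (LaurentPolynomial.C (s ^ d) * T (d : ℤ) : ℂ[T;T⁻¹]) R₁ := by
        rw [hg, map_mul, aeval_C, aeval_comp, map_mul, aeval_C, aeval_X,
          ← LaurentPolynomial.C_eq_algebraMap, ← LaurentPolynomial.C_eq_algebraMap]
      rw [h6] at h5
      have e1 : (LaurentPolynomial.C κ : ℂ[T;T⁻¹]) = LaurentPolynomial.C r⁻¹ *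
          LaurentPolynomial.C (s ^ d) ^ n := by
        rw [← map_pow, ← map_mul, hκ]; congr 1; rw [← pow_mul, mul_comm d n]; ring
      have e2 : (LaurentPolynomial.C r⁻¹ : ℂ[T;T⁻¹]) * LaurentPolynomial.C c *
          LaurentPolynomial.C (s ^ m) * LaurentPolynomial.C (s ^ d) ^ n = 1 := by
        rw [← map_pow, ← map_mul, ← map_mul, ← map_mul, ← map_one LaurentPolynomial.C]
        congr 1
        have e3 : s ^ m * (s ^ d) ^ n = s ^ m' := by
          rw [hm', zpow_add₀ hs0, ← pow_mul]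
          congr 1
          rw [← zpow_natCast]; congr 1; push_cast; ring
        calc r⁻¹ * c * s ^ m * (s ^ d) ^ n = r⁻¹ * c * (s ^ m * (s ^ d) ^ n) := by ring
          _ = 1 := by rw [e3, hs]; field_simp
      have e4 : (T m : ℂ[T;T⁻¹]) * T (d : ℤ) ^ n = T m' := by
        rw [T_pow, ← T_add]
      rw [map_neg]
      rw [e1]
      linear_combination LaurentPolynomial.C r⁻¹ * h3 - h5 + T m * T (d : ℤ) ^ n * e2 + e4
    apply Cls.of_aut (levA (sc s hs0)) (levA_sc_injective s hs0)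
    apply Cls.of_comp
    rw [← hφ']
    rcases lt_or_gt_of_ne hm'0 with hneg | hpos
    · obtain ⟨l, hl⟩ : ∃ l : ℕ, m' = -(l : ℤ) := ⟨(-m').toNat, by omega⟩
      have hld : Nat.Coprime l d := by
        rw [← Nat.isCoprime_iff_coprime]
        rw [hl] at hcop'
        exact IsCoprime.neg_left_iff _ _ |>.mp hcop'
      rw [hl] at hy'
      exact cls_of_std (c := 1) (isStd_r₂ (by omega) (by omega) hld g)
        (Or.inr (Or.inr (Or.inl ⟨d, n, l, g, hd, by omega, hld, Or.inr ⟨hgd, hg0⟩, rfl⟩))) hx' hy'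
    · obtain ⟨l, hl⟩ : ∃ l : ℕ, m' = (l : ℤ) := ⟨m'.toNat, by omega⟩
      have hld : Nat.Coprime l d := by
        rw [← Nat.isCoprime_iff_coprime]
        rw [hl] at hcop'
        exact hcop'
      rw [hl] at hy'
      refine cls_of_std (c := 0) (q := r₁ d n l g) ?_
        (Or.inr (Or.inl ⟨d, n, l, g, hd, by omega, hld, hgd, hg0, rfl⟩)) hx' hy'
      rw [map_zero, sub_zero]
      exact isStd_r₁ (by omega) (by omega) (by omega) hld hg0

end Pool.Agent.Helper34_CStar
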