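import Pool.Agent.Helper34_CStar.ClsNorm

/-!
# Embeddings with the coordinate `T ^ 2 - T`
-/

namespace Pool.Agent.Helper34_CStar

open Polynomial LaurentPolynomial

/-- a polynomial whose only root is `a` -/
theorem eq_of_root {P : ℂ[X]} (hP : P ≠ 0) {a : ℂ} (h : ∀ u, P.eval u = 0 → u = a) :
    ∃ (c : ℂ) (b : ℕ), c ≠ 0 ∧ P = Polynomial.C c * (X - Polynomial.C a) ^ b := by
  obtain ⟨Q, hQ, hQd⟩ := exists_eq_pow_rootMultiplicity_mul_and_not_dvd P hP a
  have hQ0 : Q.natDegree = 0 := by
    by_contra hne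
    obtain ⟨r, hr⟩ := IsAlgClosed.exists_root Q (by
      intro h0
      exact hne (natDegree_eq_of_degree_eq_some h0))
    have h1 : r = a := by
      apply h
      rw [hQ, eval_mul, hr.eq_zero, mul_zero]
    rw [h1] at hr
    exact hQd (dvd_iff_isRoot.mpr hr)
  obtain ⟨c, hc⟩ := natDegree_eq_zero.mp hQ0
  refine ⟨c, _, ?_, by rw [hQ, ← hc]; ring⟩
  rintro rfl
  rw [map_zero] at hc
  rw [← hc, mul_zero] at hQ
  exact hP hQ

theorem toLaurent_x₀ (j : Fin 4) : ∃ f : ℂ[X], x₀ j = toLaurent f ∧
    ((j = 0 ∧ f = X ^ 2 - X) ∨ (j ≠ 0 ∧ f = X ^ 3 - X ^ 2)) := by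
  fin_cases j
  · exact ⟨X ^ 2 - X, by simp [x₀], Or.inl ⟨rfl, rfl⟩⟩
  all_goals exact ⟨X ^ 3 - X ^ 2, by simp [x₀], Or.inr ⟨by decide, rfl⟩⟩

/-- **The class of embeddings having `T ^ 2 - T` as a coordinate.** -/
theorem cls_quad {φ : P2 →ₐ[ℂ] ℂ[T;T⁻¹]} (hφ : Function.Surjective φ)
    (h0 : φ (MvPolynomial.X 0) = x₀ 0) : Cls φ := by
  have hadj := adjoin_of_surjective hφ
  set f : ℂ[X] := X ^ 2 - X with hf
  have hfm : f.Monic := by rw [hf]; monicity!
  have hfd : f.natDegree = 2 := by rw [hf]; compute_degree!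
  have hx : x₀ 0 = toLaurent f := by simp [x₀, hf]
  have h0' : φ (MvPolynomial.X 0) = toLaurent f := by rw [h0, hx]
  rw [h0'] at hadj
  obtain ⟨Y, k, hk, hY, hy⟩ := exists_pole hadj
  rw [hy] at hadj
  have hinj := geom_inj hadj
  have himm := geom_imm hk hadj
  obtain ⟨G, hG⟩ := exists_basis_repr hfm (by omega) _ ((X - 1) ^ k * Y) le_rfl
  rw [hfd, Finset.sum_range_succ, Finset.sum_range_succ, Finset.sum_range_zero, zero_add,
    pow_zero, mul_one, pow_one] at hG
  obtain ⟨A, hA⟩ : ∃ A, A = G 1 := ⟨_, rfl⟩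
  obtain ⟨B, hB⟩ : ∃ B, B = G 0 := ⟨_, rfl⟩
  rw [← hA, ← hB] at hG
  have hev : ∀ t : ℂ, (t - 1) ^ k * Y.eval t =
      B.eval (t ^ 2 - t) + A.eval (t ^ 2 - t) * t := by
    intro t
    have := congrArg (eval t) hG
    simpa [hf] using this
  -- `A` has no zeros
  have hA0 : ∀ x, A.eval x ≠ 0 := by
    intro x hAx
    by_cases hx0 : x = 0
    · subst hx0
      have h1 := hev 0
      have h2 := hev 1
      simp only [zero_sub, mul_zero, add_zero, one_pow, sub_self, ne_eq, OfNat.ofNat_ne_zero,
        not_false_eq_true, zero_pow, mul_one, hAx] at h1 h2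
      rw [zero_pow (by omega), zero_mul] at h2
      rw [← h2, ← coeff_zero_eq_eval_zero] at h1
      rcases mul_eq_zero.mp h1 with h3 | h3
      · have : (-1 : ℂ) ≠ 0 := by norm_num
        exact pow_ne_zero _ this h3
      · exact hY h3
    · obtain ⟨t, ht⟩ := IsAlgClosed.exists_root (f - Polynomial.C x) (by
        have h1 : (f - Polynomial.C x).natDegree = 2 := by rw [natDegree_sub_C, hfd]
        intro h2
        have h3 : (f - Polynomial.C x).natDegree = 0 :=
          natDegree_eq_of_degree_eq_some h2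
        omega)
      have htx : t ^ 2 - t = x := by
        have := ht.eq_zero
        simp only [hf, eval_sub, eval_pow, eval_X, eval_C] at this
        linear_combination this
      have ht0 : t ≠ 0 := by rintro rfl; apply hx0; rw [← htx]; ring
      have ht1 : 1 - t ≠ 0 := by
        intro h; apply hx0; rw [← htx]; linear_combination -t * h
      have hsx : (1 - t) ^ 2 - (1 - t) = x := by rw [← htx]; ring
      have e1 := hev t
      have e2 := hev (1 - t)
      rw [htx, hAx, zero_mul, add_zero] at e1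
      rw [hsx, hAx, zero_mul, add_zero] at e2
      have e3 : (1 - t - 1) ^ k = (-1) ^ k * t ^ k := by rw [← mul_pow]; congr 1; ring
      have e4 : (t - 1) ^ k = (-1) ^ k * (1 - t) ^ k := by rw [← mul_pow]; congr 1; ring
      rw [e3] at e2
      rw [e4] at e1
      have e5 : (-1 : ℂ) ^ k ≠ 0 := pow_ne_zero _ (by norm_num)
      have h3 : t = 1 - t := by
        apply hinj t (1 - t) ht0 ht1
        · simp only [hf, eval_sub, eval_pow, eval_X]; ring
        · apply mul_left_cancel₀ e5
          linear_combination e1 - e2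
      -- the double root
      have hder := congrArg (fun p : ℂ[X] => (derivative p).eval t) hG
      have hf't : f.derivative.eval t = 0 := by
        simp only [hf, derivative_sub, derivative_X_pow, derivative_X, eval_sub, eval_mul,
          eval_one, eval_X, eval_pow]
        norm_num
        linear_combination h3
      simp only [derivative_mul, derivative_add, derivative_comp, eval_add, eval_mul,
        derivative_X, eval_comp, eval_X, mul_one, eval_one, hf't, zero_mul, zero_add,
        derivative_pow, derivative_sub, derivative_one, sub_zero, eval_pow, eval_sub,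
        map_natCast, eval_natCast] at hder
      have hft : f.eval t = x := by simpa [hf] using htx
      rw [hft, hAx] at hder
      apply himm t ht0 hf't
      have e6 : t - 1 = -t := by linear_combination h3
      rw [e6] at hder
      obtain ⟨k', rfl⟩ : ∃ k', k = k' + 1 := ⟨k - 1, by omega⟩
      rw [Nat.add_sub_cancel] at hder
      have e7 : (-t) ^ k' * (((k' + 1 : ℕ) : ℂ) * Y.eval t + (-t) * Y.derivative.eval t) = 0 := by
        rw [pow_succ] at hder
        linear_combination hder
      have e8 := (mul_eq_zero.mp e7).resolve_left (pow_ne_zero _ (neg_ne_zero.mpr ht0))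
      linear_combination -e8
  obtain ⟨c, hc⟩ : ∃ c, A = Polynomial.C c := by
    have h1 : A.natDegree = 0 := by
      by_contra hne
      obtain ⟨r, hr⟩ := IsAlgClosed.exists_root A (by
        intro h0
        exact hne (natDegree_eq_of_degree_eq_some h0))
      exact hA0 r hr
    obtain ⟨c, hc⟩ := natDegree_eq_zero.mp h1
    exact ⟨c, hc.symm⟩
  have hc0 : c ≠ 0 := by
    rintro rfl
    apply hA0 0
    rw [hc]; simp
  have hL : x₀ 0 ^ k * φ (MvPolynomial.X 1) =
      LaurentPolynomial.C c * x₀ 0 ^ (k - k) * w₀ 0 + aeval (x₀ 0) B := by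
    have h1 := congrArg toLaurent hG
    rw [map_add, map_mul, map_mul, ← aeval_toLaurent, ← hx, hc, map_pow, map_sub, map_one,
      C_comp, toLaurent_C, toLaurent_X] at h1
    have e2 : (T 1 : ℂ[T;T⁻¹]) ^ k * T (-(k : ℤ)) = 1 := by
      rw [← T_natCast_pow, ← T_add]; simp
    have e3 : (x₀ 0 : ℂ[T;T⁻¹]) ^ k = (T 1 - 1) ^ k * T 1 ^ k := by
      rw [← mul_pow]; congr 1; simp only [x₀]; ring
    rw [Nat.sub_self, pow_zero, mul_one, hy, e3]
    change _ = LaurentPolynomial.C c * T 1 + _
    linear_combination (T 1 - 1) ^ k * toLaurent Y * e2 + h1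
  obtain ⟨a, H, τ, ha, hτd, hτ0, hdvd, hn⟩ := exists_norm 0 hk le_rfl hc0 hL
  by_cases hk3 : 3 ≤ k
  · exact cls_of_norm 0 h0 hk (Or.inl ⟨rfl, hk3⟩) ha hτd hτ0 hdvd hn
  · have hxne := x₀_ne_zero 0
    have hCa : (LaurentPolynomial.C a⁻¹ : ℂ[T;T⁻¹]) * LaurentPolynomial.C a = 1 := by
      rw [← map_mul, inv_mul_cancel₀ ha, map_one]
    obtain rfl | rfl : k = 1 ∨ k = 2 := by omega
    · have h1 := norm_one 0 hτd hτ0 hn
      have h2 : LaurentPolynomial.C a * φ (MvPolynomial.X 1) + aeval (x₀ 0) H = T (-1) := by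
        apply mul_left_cancel₀ hxne
        rw [h1]
        simp only [x₀, w₀]
        linear_combination (-(T 1 - 1)) * T_mul_T_neg
      refine cls_of_X1 hφ (n := 1) (by omega) (inv_ne_zero ha)
        (H := Polynomial.C (-a⁻¹) * H) ?_
      rw [h0, map_mul, aeval_C, ← LaurentPolynomial.C_eq_algebraMap, map_neg, Nat.cast_one]
      linear_combination LaurentPolynomial.C a⁻¹ * h2 - φ (MvPolynomial.X 1) * hCa
    · have hτ : τ = 1 + X := by
        apply series_unique 0 hτd _ hτ0 _ hdvd
        · refine ⟨1, ?_⟩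
          simp only [rel]; ring
        · rw [add_comm]
          rw [show (1 : ℂ[X]) = Polynomial.C 1 by simp, natDegree_X_add_C]; omega
        · simp
      have h2 : LaurentPolynomial.C a * φ (MvPolynomial.X 1) + aeval (x₀ 0) H = -T (-2) := by
        apply mul_left_cancel₀ (pow_ne_zero 2 hxne)
        rw [hτ, map_add, map_one, aeval_X] at hn
        have e4 : (T (-2) : ℂ[T;T⁻¹]) = T (-1) ^ 2 := T_neg_natCast_pow 2
        rw [e4]
        simp only [x₀, w₀] at hn ⊢
        linear_combination hn + (T 1 - 1) ^ 2 * (T 1 * T (-1) + 1) * T_mul_T_neg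
      refine cls_of_X1 hφ (n := 2) (by omega) (a := -a⁻¹) (neg_ne_zero.mpr (inv_ne_zero ha))
        (H := Polynomial.C (-a⁻¹) * H) ?_
      have e5 : ((-((2 : ℕ) : ℤ))) = (-2 : ℤ) := by norm_num
      rw [h0, map_mul, aeval_C, ← LaurentPolynomial.C_eq_algebraMap, map_neg, e5]
      linear_combination LaurentPolynomial.C a⁻¹ * h2 - φ (MvPolynomial.X 1) * hCa

end Pool.Agent.Helper34_CStar
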