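import Pool.Agent.Helper34_CStar.Quart

/-!
# Embeddings with the coordinate `T ^ 3 + a T ^ 2 + b T + c / T`
-/

namespace Pool.Agent.Helper34_CStar

open Polynomial LaurentPolynomial

theorem norm_parity_zero {κ c c' : ℂ} {P Q : ℂ[X]}
    (h : X * P ^ 2 - Q ^ 2 * (X ^ 2 + Polynomial.C κ * X + Polynomial.C c) =
      Polynomial.C c') : Q = 0 := by
  by_contra hQ
  obtain ⟨R, hRd⟩ : ∃ R, R = (X ^ 2 + Polynomial.C κ * X + Polynomial.C c) := ⟨_, rfl⟩
  have hR : R.natDegree = 2 := by rw [hRd]; compute_degree!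
  have hR0 : R ≠ 0 := by
    intro h0; rw [h0, natDegree_zero] at hR; omega
  rw [← hRd] at h
  have h1 : X * P ^ 2 = Q ^ 2 * R + Polynomial.C c' := by linear_combination h
  have h2 := congrArg natDegree h1
  rw [natDegree_add_C, natDegree_mul (pow_ne_zero _ hQ) hR0, natDegree_pow, hR] at h2
  by_cases hP : P = 0
  · rw [hP, zero_pow two_ne_zero, mul_zero, natDegree_zero] at h2; omega
  · rw [natDegree_mul X_ne_zero (pow_ne_zero _ hP), natDegree_X, natDegree_pow] at h2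
    omega

theorem norm_parity_one {κ c c' : ℂ} {P Q : ℂ[X]}
    (h : P ^ 2 - X * (Q ^ 2 * (X ^ 2 + Polynomial.C κ * X + Polynomial.C c)) =
      Polynomial.C c') : Q = 0 := by
  by_contra hQ
  obtain ⟨R, hRd⟩ : ∃ R, R = (X ^ 2 + Polynomial.C κ * X + Polynomial.C c) := ⟨_, rfl⟩
  have hR : R.natDegree = 2 := by rw [hRd]; compute_degree!
  have hR0 : R ≠ 0 := by
    intro h0; rw [h0, natDegree_zero] at hR; omega
  rw [← hRd] at h
  have h1 : P ^ 2 = X * (Q ^ 2 * R) + Polynomial.C c' := by linear_combination h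
  have h2 := congrArg natDegree h1
  rw [natDegree_add_C, natDegree_mul X_ne_zero (mul_ne_zero (pow_ne_zero _ hQ) hR0),
      natDegree_mul (pow_ne_zero _ hQ) hR0, natDegree_pow, natDegree_pow, hR, natDegree_X] at h2
  omega

theorem norm_parity_step {κ c c' : ℂ} (hc : c ≠ 0) {M : ℕ} {P Q : ℂ[X]}
    (h : X * P ^ 2 - Q ^ 2 * (X ^ 2 + Polynomial.C κ * X + Polynomial.C c) =
      Polynomial.C c' * X ^ (M + 1)) : ∃ Q', Q = X * Q' ∧
      P ^ 2 - X * (Q' ^ 2 * (X ^ 2 + Polynomial.C κ * X + Polynomial.C c)) =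
        Polynomial.C c' * X ^ M := by
  have h0 := congrArg (eval 0) h
  simp only [eval_sub, eval_mul, eval_add, eval_pow, eval_X, eval_C, zero_mul, mul_zero,
    zero_add, zero_pow (two_ne_zero), pow_succ, zero_sub, neg_eq_zero] at h0
  have hQ0 : Q.eval 0 = 0 := by
    rcases mul_eq_zero.mp h0 with h1 | h1
    · rcases mul_eq_zero.mp h1 with h2 | h2
      · simpa using h2
      · exact h2
    · exact absurd h1 hc
  obtain ⟨Q', rfl⟩ : X ∣ Q := by rw [X_dvd_iff, coeff_zero_eq_eval_zero, hQ0]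
  refine ⟨Q', rfl, ?_⟩
  apply mul_left_cancel₀ (X_ne_zero (R := ℂ))
  rw [pow_succ] at h
  linear_combination h

theorem norm_parity_step' {κ c c' : ℂ} {M : ℕ} {P Q : ℂ[X]}
    (h : P ^ 2 - X * (Q ^ 2 * (X ^ 2 + Polynomial.C κ * X + Polynomial.C c)) =
      Polynomial.C c' * X ^ (M + 1)) : ∃ P',
      X * P' ^ 2 - Q ^ 2 * (X ^ 2 + Polynomial.C κ * X + Polynomial.C c) =
        Polynomial.C c' * X ^ M := by
  have h0 := congrArg (eval 0) h
  simp only [eval_sub, eval_mul, eval_add, eval_pow, eval_X, eval_C, zero_mul, mul_zero,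
    sub_zero, pow_succ] at h0
  have hP0 : P.eval 0 = 0 := by simpa using h0
  obtain ⟨P', rfl⟩ : X ∣ P := by rw [X_dvd_iff, coeff_zero_eq_eval_zero, hP0]
  refine ⟨P', ?_⟩
  apply mul_left_cancel₀ (X_ne_zero (R := ℂ))
  rw [pow_succ] at h
  linear_combination h

/-- a parity argument -/
theorem norm_parity {κ c c' : ℂ} (hc : c ≠ 0) (M : ℕ) : ∀ (P Q : ℂ[X]),
    X * P ^ 2 - Q ^ 2 * (X ^ 2 + Polynomial.C κ * X + Polynomial.C c) =
      Polynomial.C c' * X ^ M → Q = 0 := by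
  induction M using Nat.strong_induction_on with
  | h M ih =>
    intro P Q h
    rcases M with _ | M
    · rw [pow_zero, mul_one] at h
      exact norm_parity_zero h
    · obtain ⟨Q', rfl, h1⟩ := norm_parity_step hc h
      rcases M with _ | M
      · rw [pow_zero, mul_one] at h1
        rw [norm_parity_one h1, mul_zero]
      · obtain ⟨P', h2⟩ := norm_parity_step' h1
        rw [ih M (by omega) P' Q' h2, mul_zero]

section

variable {a b c : ℂ}

/-- reduction on the curve of pairs -/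
theorem pair_reduce_to (z : ℂ[T;T⁻¹]) : ∃ A₀ A₁ B₀ B₁ : ℂ[T;T⁻¹],
    ∀ (S : Type) [CommRing S] [Algebra ℂ S] (p t : Sˣ) (σ : S),
      (t : S) ^ 2 = σ * t - p →
      σ ^ 2 = p + algebraMap ℂ S c * ((p⁻¹ : Sˣ) : S) - algebraMap ℂ S b - algebraMap ℂ S a * σ →
      lev t z = (lev p A₀ + lev p A₁ * σ) + (lev p B₀ + lev p B₁ * σ) * t := by
  induction z using laurent_ind with
  | hC r =>
    refine ⟨LaurentPolynomial.C r, 0, 0, 0, ?_⟩
    intro S _ _ p t σ _ _
    rw [map_zero, zero_mul, lev_C, lev_C]; ring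
  | hadd z w hz hw =>
    obtain ⟨A₀, A₁, B₀, B₁, h⟩ := hz
    obtain ⟨A₀', A₁', B₀', B₁', h'⟩ := hw
    refine ⟨A₀ + A₀', A₁ + A₁', B₀ + B₀', B₁ + B₁', ?_⟩
    intro S _ _ p t σ h1 h2
    rw [map_add, h S p t σ h1 h2, h' S p t σ h1 h2, map_add, map_add, map_add, map_add]; ring
  | hT z ih =>
    obtain ⟨A₀, A₁, B₀, B₁, h⟩ := ih
    refine ⟨-T 1 * B₀, -T 1 * B₁, A₀ + B₁ * (T 1 + LaurentPolynomial.C c * T (-1) -
      LaurentPolynomial.C b), A₁ + B₀ - LaurentPolynomial.C a * B₁, ?_⟩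
    intro S _ _ p t σ h1 h2
    rw [map_mul, h S p t σ h1 h2]
    simp only [map_add, map_sub, map_mul, map_neg, lev_C, lev_T, zpow_one, zpow_neg]
    linear_combination (lev p B₀ + lev p B₁ * σ) * h1 + lev p B₁ * (t : S) * h2
  | hT' z ih =>
    obtain ⟨A₀, A₁, B₀, B₁, h⟩ := ih
    refine ⟨B₀ + A₁ * (T 1 + LaurentPolynomial.C c * T (-1) - LaurentPolynomial.C b) * T (-1),
      B₁ + (A₀ - LaurentPolynomial.C a * A₁) * T (-1), -A₀ * T (-1), -A₁ * T (-1), ?_⟩
    intro S _ _ p t σ h1 h2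
    have ht : (t : S) * ((t⁻¹ : Sˣ) : S) = 1 := Units.mul_inv t
    have hp : (p : S) * ((p⁻¹ : Sˣ) : S) = 1 := Units.mul_inv p
    have h3 : ((t⁻¹ : Sˣ) : S) = (σ - t) * ((p⁻¹ : Sˣ) : S) := by
      apply t.isUnit.mul_left_cancel
      linear_combination ht - hp + ((p⁻¹ : Sˣ) : S) * h1
    rw [map_mul, h S p t σ h1 h2]
    simp only [map_add, map_sub, map_mul, map_neg, lev_C, lev_T, zpow_one, zpow_neg]
    linear_combination (lev p A₀ + lev p A₁ * σ) * h3 + (lev p B₀ + lev p B₁ * σ) * ht +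
      lev p A₁ * ((p⁻¹ : Sˣ) : S) * h2

/-- the value of `x` in terms of the pair -/
theorem lev_pair_to {x : ℂ[T;T⁻¹]} (hx : x = T 1 ^ 3 + LaurentPolynomial.C a * T 1 ^ 2 +
    LaurentPolynomial.C b * T 1 + LaurentPolynomial.C c * T (-1))
    {S : Type*} [CommRing S] [Algebra ℂ S] (p t : Sˣ) (σ : S) (h1 : (t : S) ^ 2 = σ * t - p)
    (h2 : σ ^ 2 = p + algebraMap ℂ S c * ((p⁻¹ : Sˣ) : S) - algebraMap ℂ S b -
      algebraMap ℂ S a * σ) :
    lev t x = -p * (σ + algebraMap ℂ S a) + algebraMap ℂ S c * σ * ((p⁻¹ : Sˣ) : S) := by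
  have ht : (t : S) * ((t⁻¹ : Sˣ) : S) = 1 := Units.mul_inv t
  have hp : (p : S) * ((p⁻¹ : Sˣ) : S) = 1 := Units.mul_inv p
  have h3 : ((t⁻¹ : Sˣ) : S) = (σ - t) * ((p⁻¹ : Sˣ) : S) := by
    apply t.isUnit.mul_left_cancel
    linear_combination ht - hp + ((p⁻¹ : Sˣ) : S) * h1
  rw [hx]
  simp only [map_add, map_mul, map_pow, lev_C, lev_T, zpow_one, zpow_neg]
  linear_combination ((t : S) + σ + algebraMap ℂ S a) * h1 + algebraMap ℂ S c * h3 + (t : S) * h2

/-- the structure of the second coordinate -/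
theorem three_one_structure (hc : c ≠ 0) {x y : ℂ[T;T⁻¹]}
    (hx : x = T 1 ^ 3 + LaurentPolynomial.C a * T 1 ^ 2 +
      LaurentPolynomial.C b * T 1 + LaurentPolynomial.C c * T (-1))
    (hadj : Algebra.adjoin ℂ {x, y} = ⊤) :
    ∃ (r : ℂ) (j : ℤ), r ≠ 0 ∧ ∀ t s : ℂˣ, t ≠ s → lev t x = lev s x →
      lev t y - lev s y = r * (((t * s) ^ j : ℂˣ) : ℂ) * (t - s) := by
  obtain ⟨A₀, A₁, B₀, B₁, hAB⟩ := pair_reduce_to (a := a) (b := b) (c := c) y
  have hE : ∀ (p : ℂˣ) (σ : ℂ), σ ^ 2 = p + c * ((p⁻¹ : ℂˣ) : ℂ) - b - a * σ →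
      lev p B₀ + lev p B₁ * σ ≠ 0 := by
    intro p σ hσ h0
    obtain ⟨r, hr⟩ := IsAlgClosed.exists_pow_nat_eq (σ ^ 2 - 4 * (p : ℂ)) (by norm_num : 0 < 2)
    have hprod : (σ + r) / 2 * ((σ - r) / 2) = p := by linear_combination (-1 / 4) * hr
    have hne : (σ + r) / 2 * ((σ - r) / 2) ≠ 0 := by rw [hprod]; exact p.ne_zero
    obtain ⟨t, ht⟩ : ∃ t : ℂˣ, (t : ℂ) = (σ + r) / 2 :=
      ⟨Units.mk0 _ (left_ne_zero_of_mul hne), rfl⟩
    obtain ⟨s, hs⟩ : ∃ s : ℂˣ, (s : ℂ) = (σ - r) / 2 :=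
      ⟨Units.mk0 _ (right_ne_zero_of_mul hne), rfl⟩
    rw [← ht, ← hs] at hprod
    have hsum : (t : ℂ) + s = σ := by rw [ht, hs]; ring
    have ht2 : (t : ℂ) ^ 2 = σ * t - p := by linear_combination -hprod + (t : ℂ) * hsum
    have hs2 : (s : ℂ) ^ 2 = σ * s - p := by linear_combination -hprod + (s : ℂ) * hsum
    have hσ' : σ ^ 2 = p + algebraMap ℂ ℂ c * ((p⁻¹ : ℂˣ) : ℂ) - algebraMap ℂ ℂ b -
      algebraMap ℂ ℂ a * σ := hσ
    have hts := lev_ext hadj t s
      (by rw [lev_pair_to hx p t σ ht2 hσ', lev_pair_to hx p s σ hs2 hσ'])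
      (by rw [hAB ℂ p t σ ht2 hσ', hAB ℂ p s σ hs2 hσ', h0, zero_mul, zero_mul])
    subst hts
    apply dualUnit_ne t
    obtain ⟨e, he⟩ : ∃ e : DualNumber ℂ, e = DualNumber.eps := ⟨_, rfl⟩
    have he2 : e ^ 2 = 0 := by rw [he]; exact eps_sq
    have hu1 : ((dualUnit t : (DualNumber ℂ)ˣ) : DualNumber ℂ) =
      algebraMap ℂ _ (t : ℂ) * (1 + e) := by rw [he]; rfl
    have hu2 : ((constUnit t : (DualNumber ℂ)ˣ) : DualNumber ℂ) = algebraMap ℂ _ (t : ℂ) := rfl
    have hu3 : ((constUnit p : (DualNumber ℂ)ˣ) : DualNumber ℂ) = algebraMap ℂ _ (p : ℂ) := rfl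
    have hu4 : (((constUnit p)⁻¹ : (DualNumber ℂ)ˣ) : DualNumber ℂ) =
      algebraMap ℂ _ ((p⁻¹ : ℂˣ) : ℂ) := rfl
    have g1 : ((dualUnit t : (DualNumber ℂ)ˣ) : DualNumber ℂ) ^ 2 =
        algebraMap ℂ _ σ * (dualUnit t : (DualNumber ℂ)ˣ) -
          ((constUnit p : (DualNumber ℂ)ˣ) : DualNumber ℂ) := by
      rw [hu1, hu3, ← hprod, ← hsum, map_add, map_mul]
      linear_combination (algebraMap ℂ (DualNumber ℂ) (t : ℂ)) ^ 2 * he2
    have g2 : ((constUnit t : (DualNumber ℂ)ˣ) : DualNumber ℂ) ^ 2 =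
        algebraMap ℂ _ σ * (constUnit t : (DualNumber ℂ)ˣ) -
          ((constUnit p : (DualNumber ℂ)ˣ) : DualNumber ℂ) := by
      rw [hu2, hu3, ← hprod, ← hsum, map_add, map_mul]
      ring
    have g3 : (algebraMap ℂ (DualNumber ℂ) σ) ^ 2 =
        ((constUnit p : (DualNumber ℂ)ˣ) : DualNumber ℂ) + algebraMap ℂ (DualNumber ℂ) c *
          (((constUnit p)⁻¹ : (DualNumber ℂ)ˣ) : DualNumber ℂ) - algebraMap ℂ (DualNumber ℂ) b -
          algebraMap ℂ (DualNumber ℂ) a * algebraMap ℂ (DualNumber ℂ) σ := by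
      rw [hu3, hu4, ← map_mul, ← map_mul, ← map_add, ← map_sub, ← map_sub, ← map_pow, hσ]
    have g4 : lev (constUnit p) B₀ + lev (constUnit p) B₁ * algebraMap ℂ (DualNumber ℂ) σ = 0 := by
      have h5 := map_lev (Algebra.ofId ℂ (DualNumber ℂ)) p B₀
      have h6 := map_lev (Algebra.ofId ℂ (DualNumber ℂ)) p B₁
      have h7 := congrArg (Algebra.ofId ℂ (DualNumber ℂ)) h0
      rw [map_add, map_mul, h5, h6, map_zero] at h7
      exact h7
    apply lev_ext hadj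
    · rw [lev_pair_to hx _ _ _ g1 g3, lev_pair_to hx _ _ _ g2 g3]
    · rw [hAB _ _ _ _ g1 g3, hAB _ _ _ _ g2 g3, g4, zero_mul, zero_mul]
  -- the norm
  obtain ⟨N, hN⟩ : ∃ N, N = B₀ ^ 2 - LaurentPolynomial.C a * B₀ * B₁ +
    B₁ ^ 2 * (LaurentPolynomial.C b - T 1 - LaurentPolynomial.C c * T (-1)) := ⟨_, rfl⟩
  have hroots : ∀ p : ℂˣ, ∃ σ σ' : ℂ, σ + σ' = -a ∧
      σ * σ' = b - p - c * ((p⁻¹ : ℂˣ) : ℂ) := by
    intro p
    obtain ⟨r, hr⟩ := IsAlgClosed.exists_pow_nat_eq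
      (a ^ 2 - 4 * (b - p - c * ((p⁻¹ : ℂˣ) : ℂ))) (by norm_num : 0 < 2)
    refine ⟨(-a + r) / 2, (-a - r) / 2, by ring, ?_⟩
    linear_combination (-1 / 4) * hr
  have hNz : ∀ p : ℂˣ, lev p N ≠ 0 := by
    intro p
    obtain ⟨σ, σ', h1, h2⟩ := hroots p
    have h3 := hE p σ (by linear_combination σ * h1 - h2)
    have h4 := hE p σ' (by linear_combination σ' * h1 - h2)
    have h5 : lev p N = (lev p B₀ + lev p B₁ * σ) * (lev p B₀ + lev p B₁ * σ') := by
      rw [hN]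
      simp only [map_add, map_sub, map_mul, map_pow, lev_C, lev_T, zpow_one, zpow_neg,
        Algebra.algebraMap_self, RingHom.id_apply]
      linear_combination (-(lev p B₀ * lev p B₁)) * h1 - lev p B₁ ^ 2 * h2
    rw [h5]; exact mul_ne_zero h3 h4
  obtain ⟨c', j', hc', hNj⟩ := unit_of_no_zero hNz
  have hB₁ : B₁ = 0 := by
    obtain ⟨n₁, P₁, hP₁⟩ := exists_T_pow (B₀ - LaurentPolynomial.C (a / 2) * B₁)
    obtain ⟨n₂, P₂, hP₂⟩ := exists_T_pow B₁
    set n := n₁ + n₂ + j'.natAbs + 1 with hn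
    obtain ⟨M, hM⟩ : ∃ M : ℕ, (M : ℤ) = j' + 1 + 2 * n := ⟨(j' + 1 + 2 * n).toNat, by omega⟩
    have e1 : toLaurent (P₁ * X ^ (n - n₁)) =
        (B₀ - LaurentPolynomial.C (a / 2) * B₁) * T n := by
      rw [map_mul, hP₁, toLaurent_X_pow, mul_assoc, ← T_add]
      congr 2; omega
    have e2 : toLaurent (P₂ * X ^ (n - n₂)) = B₁ * T n := by
      rw [map_mul, hP₂, toLaurent_X_pow, mul_assoc, ← T_add]
      congr 2; omega
    have hTT := T_mul_T_neg
    have hC : (LaurentPolynomial.C a : ℂ[T;T⁻¹]) = 2 * LaurentPolynomial.C (a / 2) := by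
      rw [← map_ofNat LaurentPolynomial.C 2, ← map_mul]; congr 1; ring
    have hC2 : (LaurentPolynomial.C (a ^ 2 / 4 - b) : ℂ[T;T⁻¹]) =
        LaurentPolynomial.C (a / 2) ^ 2 - LaurentPolynomial.C b := by
      rw [← map_pow, ← map_sub]; congr 1; ring
    have e3 : X * (P₁ * X ^ (n - n₁)) ^ 2 - (P₂ * X ^ (n - n₂)) ^ 2 *
        (X ^ 2 + Polynomial.C (a ^ 2 / 4 - b) * X + Polynomial.C c) =
        Polynomial.C c' * X ^ M := by
      apply toLaurent_injective
      rw [map_sub, map_mul toLaurent X, map_mul, map_pow, map_pow, e1, e2, map_add, map_add,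
        map_mul, map_mul, map_pow, toLaurent_C, toLaurent_C, toLaurent_C, toLaurent_X,
        toLaurent_X_pow, hM]
      have e4 : (T (j' + 1 + 2 * (n : ℤ)) : ℂ[T;T⁻¹]) = T j' * T 1 * (T n) ^ 2 := by
        rw [T_pow, ← T_add, ← T_add]; congr 1
      rw [e4, hC2]
      rw [hN] at hNj
      rw [hC] at hNj
      linear_combination (T 1 * (T n) ^ 2) * hNj + (B₁ ^ 2 * T n ^ 2 * LaurentPolynomial.C c) * hTT
    have e5 := norm_parity hc M _ _ e3
    rw [e5, map_zero] at e2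
    have e6 : (B₁ * T n) * T (-(n : ℤ)) = B₁ := by rw [mul_T_assoc]; simp
    rw [← e6, ← e2, zero_mul]
  have hB₀ : ∀ p : ℂˣ, lev p B₀ ≠ 0 := by
    intro p
    obtain ⟨σ, σ', h1, h2⟩ := hroots p
    have h3 := hE p σ (by linear_combination σ * h1 - h2)
    rwa [hB₁, map_zero, zero_mul, add_zero] at h3
  obtain ⟨r, j, hr, hBr⟩ := unit_of_no_zero hB₀
  refine ⟨r, j, hr, ?_⟩
  intro t s hts hlev
  have hd : (t : ℂ) - s ≠ 0 := sub_ne_zero.mpr fun h => hts (Units.ext h)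
  have htt : (t : ℂ) * ((t⁻¹ : ℂˣ) : ℂ) = 1 := Units.mul_inv t
  have hss : (s : ℂ) * ((s⁻¹ : ℂˣ) : ℂ) = 1 := Units.mul_inv s
  have hp : ((t : ℂ) + s) ^ 2 = ((t * s : ℂˣ) : ℂ) + algebraMap ℂ ℂ c *
      (((t * s)⁻¹ : ℂˣ) : ℂ) - algebraMap ℂ ℂ b - algebraMap ℂ ℂ a * ((t : ℂ) + s) := by
    apply mul_left_cancel₀ hd
    rw [hx] at hlev
    simp only [map_add, map_mul, map_pow, lev_C, lev_T, zpow_one, zpow_neg,
      Algebra.algebraMap_self, RingHom.id_apply] at hlev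
    rw [Units.val_mul, mul_inv, Units.val_mul, Algebra.algebraMap_self, RingHom.id_apply,
      RingHom.id_apply, RingHom.id_apply]
    linear_combination hlev - c * ((s⁻¹ : ℂˣ) : ℂ) * htt + c * ((t⁻¹ : ℂˣ) : ℂ) * hss
  have g1 : (t : ℂ) ^ 2 = ((t : ℂ) + s) * t - ((t * s : ℂˣ) : ℂ) := by
    rw [Units.val_mul]; ring
  have g2 : (s : ℂ) ^ 2 = ((t : ℂ) + s) * s - ((t * s : ℂˣ) : ℂ) := by
    rw [Units.val_mul]; ring
  rw [hAB ℂ _ _ _ g1 hp, hAB ℂ _ _ _ g2 hp, hB₁, hBr, lev_unit_C_T, map_zero,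
    Algebra.algebraMap_self, RingHom.id_apply]
  ring

/-- the differential equation in the case `(3, 1)` -/
theorem ode_three_one (hc : c ≠ 0) {A B : ℂ[X]} {k : ℤ}
    (h3 : -Polynomial.C a * derivative A + 4 * derivative B = 0)
    (h2 : -2 * Polynomial.C b * derivative A + 3 * Polynomial.C a * derivative B = 0)
    (h1 : 3 * X * derivative A + (1 - Polynomial.C (k : ℂ)) * A +
      2 * Polynomial.C b * derivative B = 0)
    (h0 : -4 * Polynomial.C c * derivative A - X * derivative B - Polynomial.C (k : ℂ) * B = 0)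
    (hAB : A ≠ 0 ∨ B ≠ 0) : k = 0 ∨ k = 1 ∨ (k = 4 ∧ a = 0 ∧ b = 0) := by
  have hconst : ∀ P : ℂ[X], derivative P = 0 → ∃ r, P = Polynomial.C r := by
    intro P hP
    exact ⟨_, eq_C_of_natDegree_eq_zero (Polynomial.derivative_eq_zero.mp hP)⟩
  by_cases hA' : derivative A = 0
  · have hB' : derivative B = 0 := by
      rw [hA', mul_zero, zero_add] at h3
      exact (mul_eq_zero.mp h3).resolve_left (by norm_num)
    rw [hA', hB', mul_zero, mul_zero, zero_add, add_zero] at h1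
    rw [hA', hB', mul_zero, mul_zero, zero_sub, neg_zero, zero_sub, neg_eq_zero] at h0
    rcases hAB with h | h
    · right; left
      have h4 := (mul_eq_zero.mp h1).resolve_right h
      have h5 : (k : ℂ) = 1 := by
        apply Polynomial.C_injective
        rw [map_one]; linear_combination -h4
      exact_mod_cast h5
    · left
      have h4 := (mul_eq_zero.mp h0).resolve_right h
      have h5 : (k : ℂ) = 0 := by
        apply Polynomial.C_injective
        rw [map_zero]; exact h4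
      exact_mod_cast h5
  · right; right
    have hn : A.natDegree ≠ 0 := by
      intro h
      apply hA'
      rw [eq_C_of_natDegree_eq_zero h, derivative_C]
    obtain ⟨m, hm⟩ : ∃ m, A.natDegree = m + 1 := ⟨A.natDegree - 1, by omega⟩
    have hlead : A.coeff (m + 1) ≠ 0 := by
      rw [← hm]; exact leadingCoeff_ne_zero.mpr (by rintro rfl; simp at hn)
    have hA2 : A.coeff (m + 1 + 1) = 0 := coeff_eq_zero_of_natDegree_lt (by omega)
    have e3 : ∀ i, -a * (A.coeff (i + 1) * (i + 1)) + 4 * (B.coeff (i + 1) * (i + 1)) = 0 := by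
      intro i
      have := congrArg (fun P : ℂ[X] => P.coeff i) h3
      simpa only [coeff_add, coeff_C_mul, neg_mul, coeff_neg, coeff_ofNat_mul, coeff_derivative,
        coeff_zero] using this
    have e1 := congrArg (fun P : ℂ[X] => P.coeff (m + 1)) h1
    simp only [coeff_add, coeff_sub, mul_assoc, sub_mul, one_mul, coeff_C_mul, coeff_ofNat_mul,
      coeff_X_mul, coeff_derivative, coeff_zero, hA2] at e1
    have e0 := congrArg (fun P : ℂ[X] => P.coeff (m + 1)) h0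
    simp only [coeff_add, coeff_sub, mul_assoc, neg_mul, coeff_neg, coeff_C_mul, coeff_ofNat_mul,
      coeff_X_mul, coeff_derivative, coeff_zero, hA2] at e0
    have e3m := e3 m
    have e3m1 := e3 (m + 1)
    have hm1 : ((m : ℂ) + 1) ≠ 0 := by exact_mod_cast Nat.succ_ne_zero m
    have hm2 : (((m + 1 : ℕ) : ℂ) + 1) ≠ 0 := by exact_mod_cast Nat.succ_ne_zero (m + 1)
    have hB2 : B.coeff (m + 1 + 1) = 0 := by
      rw [hA2] at e3m1
      have : B.coeff (m + 1 + 1) * (((m + 1 : ℕ) : ℂ) + 1) = 0 := by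
        linear_combination (1 / 4) * e3m1
      exact (mul_eq_zero.mp this).resolve_right hm2
    have hBA : 4 * B.coeff (m + 1) = a * A.coeff (m + 1) := by
      apply mul_left_cancel₀ hm1
      linear_combination e3m
    have hk : (k : ℂ) = 3 * (m + 1) + 1 := by
      apply mul_left_cancel₀ hlead
      rw [hB2] at e1
      linear_combination -e1
    have ha : a = 0 := by
      have h5 : (4 * (m : ℂ) + 5) * (a * A.coeff (m + 1)) = 0 := by
        rw [hk] at e0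
        linear_combination (-4) * e0 - (4 * (m : ℂ) + 5) * hBA
      have h6 : (4 * (m : ℂ) + 5) ≠ 0 := by exact_mod_cast (by omega : 4 * m + 5 ≠ 0)
      exact (mul_eq_zero.mp ((mul_eq_zero.mp h5).resolve_left h6)).resolve_right hlead
    have hB' : derivative B = 0 := by
      rw [ha, map_zero, neg_zero, zero_mul, zero_add] at h3
      exact (mul_eq_zero.mp h3).resolve_left (by norm_num)
    have hb : b = 0 := by
      rw [hB', mul_zero, add_zero] at h2
      have h5 := (mul_eq_zero.mp h2).resolve_right hA'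
      have h6 := (mul_eq_zero.mp h5).resolve_left (by norm_num)
      exact Polynomial.C_eq_zero.mp h6
    obtain ⟨β, hβ⟩ := hconst B hB'
    have hm0 : m = 0 := by
      by_contra hm0
      have e4 := congrArg (fun P : ℂ[X] => P.coeff m) h0
      have h8 : (Polynomial.C (k : ℂ) * B).coeff m = 0 := by
        rw [hβ, ← map_mul, coeff_C, if_neg hm0]
      simp only [hB', mul_zero, sub_zero, coeff_sub, h8, mul_assoc, neg_mul, coeff_neg,
        coeff_C_mul, coeff_ofNat_mul, coeff_derivative, coeff_zero, neg_eq_zero] at e4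
      have h7 := (mul_eq_zero.mp ((mul_eq_zero.mp e4).resolve_left (by norm_num))).resolve_left hc
      exact (mul_ne_zero hlead hm1) h7
    refine ⟨?_, ha, hb⟩
    rw [hm0] at hk
    have h9 : (k : ℂ) = ((4 : ℤ) : ℂ) := by rw [hk]; push_cast; ring
    exact_mod_cast h9

theorem aux_to {c t s v w : ℂ} (h5 : t * v = 1) (h6 : s * w = 1)
    (h7 : t ^ 2 + t * s + s ^ 2 = c * v * w) :
    v ^ 3 - w ^ 3 = -((t - s) * c * v ^ 4 * w ^ 4) := by
  grind

/-- **The class of embeddings having `T ^ 3 + a T ^ 2 + b T + c / T` as a coordinate.** -/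
theorem cls_three_one (hc : c ≠ 0) {φ : P2 →ₐ[ℂ] ℂ[T;T⁻¹]} (hφ : Function.Surjective φ)
    (h0 : φ (MvPolynomial.X 0) = T 1 ^ 3 + LaurentPolynomial.C a * T 1 ^ 2 +
      LaurentPolynomial.C b * T 1 + LaurentPolynomial.C c * T (-1)) : Cls φ := by
  have hadj := adjoin_of_surjective hφ
  have hTT := T_mul_T_neg
  obtain ⟨x, hx⟩ : ∃ x, x = (T 1 ^ 3 + LaurentPolynomial.C a * T 1 ^ 2 +
      LaurentPolynomial.C b * T 1 + LaurentPolynomial.C c * T (-1) : ℂ[T;T⁻¹]) := ⟨_, rfl⟩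
  rw [← hx] at h0
  rw [h0] at hadj
  obtain ⟨r, j, hr, hrel⟩ := three_one_structure hc hx hadj
  have hQ : Quart x 1 a b 0 c := ⟨Or.inl rfl, hc, by
    rw [hx, map_zero]; linear_combination LaurentPolynomial.C c * hTT⟩
  have hpinv : ∀ q : ℂˣ, ((q ^ j : ℂˣ) : ℂ) * ((q ^ (-j) : ℂˣ) : ℂ) = 1 := by
    intro q
    rw [zpow_neg]; exact Units.mul_inv _
  have hmulpow : ∀ (p q : ℂˣ) (i : ℤ), (((p * q) ^ i : ℂˣ) : ℂ) =
      ((p ^ i : ℂˣ) : ℂ) * ((q ^ i : ℂˣ) : ℂ) := by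
    intro p q i
    rw [mul_zpow, Units.val_mul]
  obtain ⟨A, B, hAB⟩ := hQ.collinear (z := T (-j)) (by
    intro t s u h1 h2 h3 h4 h5
    have e1 := hrel t s h1 h4
    have e2 := hrel s u h2 h5
    have e3 := hrel u t h3 (by rw [h4, h5])
    rw [hmulpow] at e1 e2 e3
    have f1 := hpinv t
    have f2 := hpinv s
    have f3 := hpinv u
    rw [lev_T, lev_T, lev_T]
    obtain ⟨tj, htj⟩ : ∃ w, w = ((t ^ j : ℂˣ) : ℂ) := ⟨_, rfl⟩
    obtain ⟨sj, hsj⟩ : ∃ w, w = ((s ^ j : ℂˣ) : ℂ) := ⟨_, rfl⟩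
    obtain ⟨uj, huj⟩ : ∃ w, w = ((u ^ j : ℂˣ) : ℂ) := ⟨_, rfl⟩
    obtain ⟨tk, htk⟩ : ∃ w, w = ((t ^ (-j) : ℂˣ) : ℂ) := ⟨_, rfl⟩
    obtain ⟨sk, hsk⟩ : ∃ w, w = ((s ^ (-j) : ℂˣ) : ℂ) := ⟨_, rfl⟩
    obtain ⟨uk, huk⟩ : ∃ w, w = ((u ^ (-j) : ℂˣ) : ℂ) := ⟨_, rfl⟩
    rw [← htj, ← hsj] at e1
    rw [← hsj, ← huj] at e2
    rw [← huj, ← htj] at e3
    rw [← htj, ← htk] at f1
    rw [← hsj, ← hsk] at f2
    rw [← huj, ← huk] at f3
    rw [← htk, ← hsk, ← huk]
    apply mul_left_cancel₀ hr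
    have e4 : r * ((tj * sj) * ((t : ℂ) - s) + (sj * uj) * ((s : ℂ) - u) +
      (uj * tj) * ((u : ℂ) - t)) = 0 := by linear_combination -e1 - e2 - e3
    linear_combination (tk * sk * uk) * e4 - r * ((t : ℂ) - s) * uk * (tk * tj * f2 + f1) -
      r * ((s : ℂ) - u) * tk * (sk * sj * f3 + f2) -
      r * ((u : ℂ) - t) * sk * (uk * uj * f1 + f3))
  have hD : LaurentPolynomial.C ((-j : ℤ) : ℂ) * (aeval x A * T 1 + aeval x B) =
      (aeval x (derivative A) * tD x) * T 1 + aeval x A * T 1 +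
        aeval x (derivative B) * tD x := by
    have := congrArg tD hAB
    rw [tD_T, map_add, tD_mul, tD_T_one, tD_aeval, tD_aeval, hAB] at this
    rw [this]; ring
  have hDx : tD x = 3 * T 1 ^ 3 + 2 * LaurentPolynomial.C a * T 1 ^ 2 +
      LaurentPolynomial.C b * T 1 - LaurentPolynomial.C c * T (-1) := by
    rw [hx]
    simp only [map_add, tD_mul, tD_C, pow_succ, pow_zero, one_mul, tD_T, mul_zero, add_zero,
      tD_T_one, Int.cast_neg, Int.cast_one, map_neg, map_one]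
    ring
  obtain ⟨g3, g2, g1, g0⟩ := hQ.free (P₃ := -Polynomial.C a * derivative A + 4 * derivative B)
    (P₂ := -2 * Polynomial.C b * derivative A + 3 * Polynomial.C a * derivative B)
    (P₁ := 3 * X * derivative A + (1 - Polynomial.C ((-j : ℤ) : ℂ)) * A +
      2 * Polynomial.C b * derivative B)
    (P₀ := -4 * Polynomial.C c * derivative A - X * derivative B -
      Polynomial.C ((-j : ℤ) : ℂ) * B) (by
      simp only [map_add, map_sub, map_mul, map_neg, aeval_C, aeval_X, map_ofNat, map_one,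
        ← LaurentPolynomial.C_eq_algebraMap]
      rw [hDx] at hD
      linear_combination -hD + (3 * aeval x (derivative A) * T 1 - aeval x (derivative B)) * hx -
        LaurentPolynomial.C c * aeval x (derivative A) * hTT * (-1 - 3 + 0))
  have hne : A ≠ 0 ∨ B ≠ 0 := by
    by_contra hcon
    push Not at hcon
    rw [hcon.1, hcon.2, map_zero, zero_mul, add_zero] at hAB
    have h1 := congrArg (lev (1 : ℂˣ)) hAB
    rw [lev_T, one_zpow, map_zero] at h1
    exact one_ne_zero h1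
  have hlevj : ∀ t : ℂˣ, (t : ℂ) * ((t⁻¹ : ℂˣ) : ℂ) = 1 := fun t => Units.mul_inv t
  rcases ode_three_one hc g3 g2 g1 g0 hne with hk | hk | ⟨hk, ha, hb⟩
  · obtain rfl : j = 0 := by omega
    obtain ⟨G, hG⟩ := hQ.const (z := φ (MvPolynomial.X 1) - LaurentPolynomial.C r * T 1) (by
      intro t s h1 h2
      have e1 := hrel t s h1 h2
      rw [zpow_zero, Units.val_one] at e1
      simp only [map_sub, map_mul, lev_C, lev_T, zpow_one, Algebra.algebraMap_self,
        RingHom.id_apply]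
      linear_combination e1)
    refine cls_of_X1_degree (F := X) (k := 0) hφ (by rw [natDegree_X]; omega) (by omega) hr
      (H := G) ?_
    rw [h0, ← hG, toLaurent_X]
    simp
  · obtain rfl : j = -1 := by omega
    obtain ⟨G, hG⟩ := hQ.const (z := φ (MvPolynomial.X 1) + LaurentPolynomial.C r * T (-1)) (by
      intro t s h1 h2
      have e1 := hrel t s h1 h2
      rw [hmulpow] at e1
      simp only [zpow_neg, zpow_one] at e1
      simp only [map_add, map_mul, lev_C, lev_T, zpow_one, zpow_neg, Algebra.algebraMap_self,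
        RingHom.id_apply]
      linear_combination e1 + r * ((s⁻¹ : ℂˣ) : ℂ) * hlevj t - r * ((t⁻¹ : ℂˣ) : ℂ) * hlevj s)
    refine cls_of_X1_degree (F := 1) (k := 1) hφ (by rw [natDegree_one]; omega) (by omega)
      (neg_ne_zero.mpr hr) (H := G) ?_
    rw [h0, ← hG, map_one, map_neg, Nat.cast_one]
    ring
  · obtain rfl : j = -4 := by omega
    subst ha hb
    obtain ⟨G, hG⟩ := hQ.const (z := φ (MvPolynomial.X 1) +
        LaurentPolynomial.C (r / c) * T (-3)) (by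
      intro t s h1 h2
      have e1 := hrel t s h1 h2
      rw [hmulpow] at e1
      have e2 : ∀ (q : ℂˣ) (n : ℕ), ((q ^ (-(n : ℤ)) : ℂˣ) : ℂ) = ((q⁻¹ : ℂˣ) : ℂ) ^ n := by
        intro q n
        rw [zpow_neg, zpow_natCast, ← inv_pow, Units.val_pow_eq_pow_val]
      have e3 : ∀ q : ℂˣ, ((q ^ (-4 : ℤ) : ℂˣ) : ℂ) = ((q⁻¹ : ℂˣ) : ℂ) ^ 4 := fun q => e2 q 4
      have e4 : ∀ q : ℂˣ, ((q ^ (-3 : ℤ) : ℂˣ) : ℂ) = ((q⁻¹ : ℂˣ) : ℂ) ^ 3 := fun q => e2 q 3
      rw [e3, e3] at e1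
      simp only [map_add, map_mul, lev_C, lev_T, e4, Algebra.algebraMap_self, RingHom.id_apply]
      have h5 := hlevj t
      have h6 := hlevj s
      rw [hx] at h2
      simp only [map_add, map_mul, map_pow, lev_C, lev_T, zpow_one, zpow_neg, map_zero,
        Algebra.algebraMap_self, RingHom.id_apply, zero_mul, add_zero] at h2
      obtain ⟨v, hv⟩ : ∃ v, v = ((t⁻¹ : ℂˣ) : ℂ) := ⟨_, rfl⟩
      obtain ⟨w, hw⟩ : ∃ w, w = ((s⁻¹ : ℂˣ) : ℂ) := ⟨_, rfl⟩
      rw [← hv] at h5 e1 h2 ⊢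
      rw [← hw] at h6 e1 h2 ⊢
      have hd : (t : ℂ) - s ≠ 0 := sub_ne_zero.mpr fun h => h1 (Units.ext h)
      have h7 : (t : ℂ) ^ 2 + t * s + s ^ 2 = c * v * w := by
        apply mul_left_cancel₀ hd
        linear_combination h2 - c * w * h5 + c * v * h6
      have h8 := aux_to h5 h6 h7
      have h11 : r / c * v ^ 3 - r / c * w ^ 3 = -(r * ((t : ℂ) - s) * v ^ 4 * w ^ 4) := by
        have h12 : r / c * c = r := div_mul_cancel₀ r hc
        linear_combination (r / c) * h8 + ((t : ℂ) - s) * v ^ 4 * w ^ 4 * h12 * (-1)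
      linear_combination e1 + h11)
    refine cls_of_X1_degree (F := 1) (k := 3) hφ (by rw [natDegree_one]; omega) (by omega)
      (neg_ne_zero.mpr (div_ne_zero hr hc)) (H := G) ?_
    rw [h0, ← hG, map_one, map_neg]
    push_cast
    ring

end

end Pool.Agent.Helper34_CStar
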