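import Pool.Agent.Helper34_CStar.ClsHyp

/-!
# Embeddings with the coordinate `T ^ 2 + a T + b / T`
-/

namespace Pool.Agent.Helper34_CStar

open Polynomial LaurentPolynomial

section

variable {a b : ℂ}

/-- decomposition over the ring generated by `T ^ 2 + a T + b / T` -/
theorem span_three (hb : b ≠ 0) {x : ℂ[T;T⁻¹]}
    (hx : x = T 1 ^ 2 + LaurentPolynomial.C a * T 1 + LaurentPolynomial.C b * T (-1))
    (z : ℂ[T;T⁻¹]) :
    ∃ A B D : ℂ[X], z = aeval x A * T 1 ^ 2 + aeval x B * T 1 + aeval x D := by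
  have hTT := T_mul_T_neg
  have hCb : (LaurentPolynomial.C b⁻¹ : ℂ[T;T⁻¹]) * LaurentPolynomial.C b = 1 := by
    rw [← map_mul, inv_mul_cancel₀ hb, map_one]
  induction z using laurent_ind with
  | hC a =>
    exact ⟨0, 0, Polynomial.C a, by
      rw [map_zero, zero_mul, zero_mul, zero_add, zero_add, aeval_C,
        LaurentPolynomial.C_eq_algebraMap]⟩
  | hadd p q hp hq =>
    obtain ⟨A, B, D, h⟩ := hp
    obtain ⟨A', B', D', h'⟩ := hq
    exact ⟨A + A', B + B', D + D', by rw [h, h', map_add, map_add, map_add]; ring⟩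
  | hT z ih =>
    obtain ⟨A, B, D, h⟩ := ih
    refine ⟨B - Polynomial.C a * A, D + X * A, Polynomial.C (-b) * A, ?_⟩
    rw [h]
    simp only [map_add, map_sub, map_mul, map_neg, aeval_C, aeval_X,
      ← LaurentPolynomial.C_eq_algebraMap]
    linear_combination (-(aeval x A * T 1)) * hx - aeval x A * LaurentPolynomial.C b * hTT
  | hT' z ih =>
    obtain ⟨A, B, D, h⟩ := ih
    refine ⟨-Polynomial.C b⁻¹ * D, A - Polynomial.C (b⁻¹ * a) * D,
      B + Polynomial.C b⁻¹ * X * D, ?_⟩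
    rw [h]
    simp only [map_add, map_sub, map_mul, map_neg, aeval_C, aeval_X,
      ← LaurentPolynomial.C_eq_algebraMap]
    linear_combination (aeval x A * T 1 + aeval x B) * hTT -
      aeval x D * LaurentPolynomial.C b⁻¹ * hx - aeval x D * T (-1) * hCb

/-- the value at a point of a fibre as a function of a second point of the fibre -/
theorem pair_reduce (hb : b ≠ 0) (z : ℂ[T;T⁻¹]) : ∃ A B : ℂ[T;T⁻¹],
    ∀ (S : Type) [CommRing S] [Algebra ℂ S] (u t : Sˣ),
      (t : S) ^ 2 = -(algebraMap ℂ S a + u) * t + algebraMap ℂ S b * ((u⁻¹ : Sˣ) : S) →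
      lev t z = lev u A * t + lev u B := by
  induction z using laurent_ind with
  | hC c =>
    refine ⟨0, LaurentPolynomial.C c, ?_⟩
    intro S _ _ u t _
    rw [map_zero, zero_mul, zero_add, lev_C, lev_C]
  | hadd p q hp hq =>
    obtain ⟨A, B, h⟩ := hp
    obtain ⟨A', B', h'⟩ := hq
    refine ⟨A + A', B + B', ?_⟩
    intro S _ _ u t hut
    rw [map_add, h S u t hut, h' S u t hut, map_add, map_add]; ring
  | hT z ih =>
    obtain ⟨A, B, h⟩ := ih
    refine ⟨B - A * (LaurentPolynomial.C a + T 1), A * (LaurentPolynomial.C b * T (-1)), ?_⟩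
    intro S _ _ u t hut
    rw [map_mul, h S u t hut, lev_T, zpow_one, map_sub, map_mul, map_mul, map_add,
      lev_unit_C_T, lev_C, lev_T, zpow_one, zpow_neg, zpow_one]
    linear_combination lev u A * hut
  | hT' z ih =>
    obtain ⟨A, B, h⟩ := ih
    refine ⟨B * (LaurentPolynomial.C b⁻¹ * T 1),
      A + B * (LaurentPolynomial.C b⁻¹ * T 1) * (LaurentPolynomial.C a + T 1), ?_⟩
    intro S _ _ u t hut
    have hbb : algebraMap ℂ S b⁻¹ * algebraMap ℂ S b = 1 := by
      rw [← map_mul, inv_mul_cancel₀ hb, map_one]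
    rw [map_mul, h S u t hut]
    simp only [map_mul, map_add, lev_C, lev_T, zpow_one, zpow_neg]
    have ht : (t : S) * ((t⁻¹ : Sˣ) : S) = 1 := Units.mul_inv t
    have hu : (u : S) * ((u⁻¹ : Sˣ) : S) = 1 := Units.mul_inv u
    have h3 : ((t⁻¹ : Sˣ) : S) = algebraMap ℂ S b⁻¹ * u * (t + (algebraMap ℂ S a + u)) := by
      apply t.isUnit.mul_left_cancel
      linear_combination ht - algebraMap ℂ S b⁻¹ * u * hut -
        (algebraMap ℂ S b⁻¹ * algebraMap ℂ S b) * hu - hbb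
    linear_combination lev u A * ht + lev u B * h3

/-- the polynomials `H_m` -/
noncomputable def Hn (a b : ℂ) : ℕ → ℂ[X]
  | 0 => 0
  | 1 => 0
  | 2 => 1
  | (n + 3) => Polynomial.C (-a) * Hn a b (n + 2) + X * Hn a b (n + 1) -
      Polynomial.C b * Hn a b n

theorem Hn_spec {t s u x : ℂ} (ht : t ^ 3 = -a * t ^ 2 + x * t - b)
    (hs : s ^ 3 = -a * s ^ 2 + x * s - b) (hu : u ^ 3 = -a * u ^ 2 + x * u - b) :
    ∀ m, (t - s) * u ^ m + (s - u) * t ^ m + (u - t) * s ^ m =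
      ((t - s) * u ^ 2 + (s - u) * t ^ 2 + (u - t) * s ^ 2) * (Hn a b m).eval x
  | 0 => by simp [Hn]
  | 1 => by simp only [Hn, eval_zero]; ring
  | 2 => by simp only [Hn, eval_one]; ring
  | (n + 3) => by
    have h1 := Hn_spec ht hs hu (n + 2)
    have h2 := Hn_spec ht hs hu (n + 1)
    have h3 := Hn_spec ht hs hu n
    rw [Hn, eval_sub, eval_add, eval_mul, eval_mul, eval_mul, eval_X, eval_C, eval_C]
    linear_combination (t - s) * u ^ n * hu + (s - u) * t ^ n * ht + (u - t) * s ^ n * hs -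
      a * h1 + x * h2 - b * h3

/-- the polynomials `K_m` -/
noncomputable def Kn (a b : ℂ) : ℕ → ℂ[X]
  | 0 => 0
  | 1 => 1
  | 2 => -X
  | (n + 3) => -X * Kn a b (n + 2) - Polynomial.C (a * b) * Kn a b (n + 1) +
      Polynomial.C (b ^ 2) * Kn a b n

theorem Kn_spec {p q r x : ℂ} (hp : p ^ 3 = -x * p ^ 2 - a * b * p + b ^ 2)
    (hq : q ^ 3 = -x * q ^ 2 - a * b * q + b ^ 2)
    (hr : r ^ 3 = -x * r ^ 2 - a * b * r + b ^ 2) {α β γ : ℂ} (h0 : α + β + γ = 0)
    (h2 : α * p ^ 2 + β * q ^ 2 + γ * r ^ 2 = -x * (α * p + β * q + γ * r)) :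
    ∀ m, α * p ^ m + β * q ^ m + γ * r ^ m = (α * p + β * q + γ * r) * (Kn a b m).eval x
  | 0 => by simp [Kn, h0]
  | 1 => by simp only [Kn, eval_one]; ring
  | 2 => by rw [h2, Kn, eval_neg, eval_X]; ring
  | (n + 3) => by
    have h4 := Kn_spec hp hq hr h0 h2 (n + 2)
    have h5 := Kn_spec hp hq hr h0 h2 (n + 1)
    have h6 := Kn_spec hp hq hr h0 h2 n
    rw [Kn, eval_add, eval_sub, eval_mul, eval_mul, eval_mul, eval_neg, eval_X, eval_C, eval_C]
    linear_combination α * p ^ n * hp + β * q ^ n * hq + γ * r ^ n * hr - x * h4 - a * b * h5 +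
      b ^ 2 * h6

theorem Kn_lead (a b : ℂ) : ∀ m, (Kn a b (m + 1)).natDegree ≤ m ∧
    (Kn a b (m + 1)).coeff m = (-1) ^ m
  | 0 => by simp [Kn]
  | 1 => by simp [Kn]
  | (n + 2) => by
    obtain ⟨h1, h2⟩ := Kn_lead a b (n + 1)
    obtain ⟨h3, h4⟩ := Kn_lead a b n
    have h1 : (Kn a b (n + 2)).natDegree ≤ n + 1 := h1
    have h2 : (Kn a b (n + 2)).coeff (n + 1) = (-1) ^ (n + 1) := h2
    have h5 : (Kn a b n).natDegree ≤ n := by
      cases n with
      | zero => simp [Kn]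
      | succ n => exact (Kn_lead a b n).1.trans (by omega)
    have e : Kn a b (n + 2 + 1) = -X * Kn a b (n + 2) - Polynomial.C (a * b) * Kn a b (n + 1) +
      Polynomial.C (b ^ 2) * Kn a b n := rfl
    rw [e]
    constructor
    · refine (natDegree_add_le _ _).trans (max_le ((natDegree_sub_le _ _).trans
        (max_le ?_ ?_)) ?_)
      · refine natDegree_mul_le.trans ?_
        rw [natDegree_neg, natDegree_X]; omega
      · exact (natDegree_C_mul_le _ _).trans (by omega)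
      · exact (natDegree_C_mul_le _ _).trans (by omega)
    · rw [coeff_add, coeff_sub, coeff_C_mul, coeff_C_mul, neg_mul, coeff_neg, coeff_X_mul, h2,
        coeff_eq_zero_of_natDegree_lt (p := Kn a b (n + 1)) (by omega),
        coeff_eq_zero_of_natDegree_lt (p := Kn a b n) (by omega)]
      ring

theorem Kn_ne_zero (a b : ℂ) {m : ℕ} (h : 1 ≤ m) : Kn a b m ≠ 0 := by
  obtain ⟨n, rfl⟩ : ∃ n, m = n + 1 := ⟨m - 1, by omega⟩
  intro h0
  have h1 := (Kn_lead a b n).2
  rw [h0, coeff_zero] at h1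
  exact pow_ne_zero n (by norm_num : (-1 : ℂ) ≠ 0) h1.symm

theorem Hn_lead (a b : ℂ) : ∀ m, (Hn a b (2 * m + 2)).natDegree ≤ m ∧
    (Hn a b (2 * m + 2)).coeff m = 1 ∧ (Hn a b (2 * m + 3)).natDegree ≤ m ∧
    (Hn a b (2 * m + 3)).coeff m = -((m : ℂ) + 1) * a
  | 0 => by simp [Hn]
  | (n + 1) => by
    obtain ⟨h1, h2, h3, h4⟩ := Hn_lead a b n
    have h5 : (Hn a b (2 * n + 1)).natDegree ≤ n := by
      cases n with
      | zero => simp [Hn]
      | succ n => exact (Hn_lead a b n).2.2.1.trans (by omega)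
    have e4 : Hn a b (2 * (n + 1) + 2) = Polynomial.C (-a) * Hn a b (2 * n + 3) +
        X * Hn a b (2 * n + 2) - Polynomial.C b * Hn a b (2 * n + 1) := rfl
    have e5 : Hn a b (2 * (n + 1) + 3) = Polynomial.C (-a) * Hn a b (2 * (n + 1) + 2) +
        X * Hn a b (2 * n + 3) - Polynomial.C b * Hn a b (2 * n + 2) := rfl
    have hx : ∀ (P : ℂ[X]) (n : ℕ), P.natDegree ≤ n → (X * P).natDegree ≤ n + 1 := by
      intro P n hP
      refine natDegree_mul_le.trans ?_
      rw [natDegree_X]; omega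
    have d4 : (Hn a b (2 * (n + 1) + 2)).natDegree ≤ n + 1 := by
      rw [e4]
      refine (natDegree_sub_le _ _).trans (max_le ((natDegree_add_le _ _).trans
        (max_le ?_ (hx _ _ h1))) ?_)
      · exact (natDegree_C_mul_le _ _).trans (by omega)
      · exact (natDegree_C_mul_le _ _).trans (by omega)
    have c4 : (Hn a b (2 * (n + 1) + 2)).coeff (n + 1) = 1 := by
      rw [e4, coeff_sub, coeff_add, coeff_C_mul, coeff_C_mul, coeff_X_mul, h2,
        coeff_eq_zero_of_natDegree_lt (p := Hn a b (2 * n + 3)) (by omega),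
        coeff_eq_zero_of_natDegree_lt (p := Hn a b (2 * n + 1)) (by omega)]
      ring
    refine ⟨d4, c4, ?_, ?_⟩
    · rw [e5]
      refine (natDegree_sub_le _ _).trans (max_le ((natDegree_add_le _ _).trans
        (max_le ?_ (hx _ _ h3))) ?_)
      · exact (natDegree_C_mul_le _ _).trans (by omega)
      · exact (natDegree_C_mul_le _ _).trans (by omega)
    · rw [e5, coeff_sub, coeff_add, coeff_C_mul, coeff_C_mul, coeff_X_mul, h4, c4,
        coeff_eq_zero_of_natDegree_lt (p := Hn a b (2 * n + 2)) (by omega)]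
      push_cast
      ring

theorem Hn_lead_zero (b : ℂ) : ∀ m, (Hn 0 b (2 * m + 5)).natDegree ≤ m ∧
    (Hn 0 b (2 * m + 5)).coeff m = -((m : ℂ) + 1) * b
  | 0 => by
    have h3 : Hn 0 b 3 = 0 := by simp [Hn]
    have e : Hn 0 b (2 * 0 + 5) = Polynomial.C (-0) * Hn 0 b 4 + X * Hn 0 b 3 -
        Polynomial.C b * Hn 0 b 2 := rfl
    rw [e, h3]
    simp [Hn]
  | (n + 1) => by
    obtain ⟨h1, h2⟩ := Hn_lead_zero b n
    obtain ⟨h3, h4, _, _⟩ := Hn_lead 0 b (n + 1)
    have e : Hn 0 b (2 * (n + 1) + 5) = Polynomial.C (-0) * Hn 0 b (2 * (n + 1) + 4) +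
        X * Hn 0 b (2 * n + 5) - Polynomial.C b * Hn 0 b (2 * (n + 1) + 2) := rfl
    rw [e, neg_zero, map_zero, zero_mul, zero_add]
    constructor
    · refine (natDegree_sub_le _ _).trans (max_le ?_ ?_)
      · refine natDegree_mul_le.trans ?_
        rw [natDegree_X]; omega
      · exact (natDegree_C_mul_le _ _).trans (by omega)
    · rw [coeff_sub, coeff_C_mul, coeff_X_mul, h2, h4]
      push_cast
      ring

theorem Hn_ne_zero (hb : b ≠ 0) {m : ℕ} (h : 2 ≤ m) (h3 : a ≠ 0 ∨ m ≠ 3) : Hn a b m ≠ 0 := by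
  intro h0
  obtain ⟨n, rfl | rfl⟩ : ∃ n, m = 2 * n + 2 ∨ m = 2 * n + 3 := ⟨(m - 2) / 2, by omega⟩
  · have h1 := (Hn_lead a b n).2.1
    rw [h0, coeff_zero] at h1
    exact zero_ne_one h1
  · have hcast : ∀ k : ℕ, ((k : ℂ) + 1) ≠ 0 := fun k => by exact_mod_cast Nat.succ_ne_zero k
    by_cases ha : a = 0
    · subst ha
      have h3' : 2 * n + 3 ≠ 3 := h3.resolve_left (by simp)
      obtain ⟨k, rfl⟩ : ∃ k, n = k + 1 := ⟨n - 1, by omega⟩
      have h1 := (Hn_lead_zero b k).2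
      rw [show 2 * k + 5 = 2 * (k + 1) + 3 by ring, h0, coeff_zero] at h1
      exact mul_ne_zero (neg_ne_zero.mpr (hcast k)) hb h1.symm
    · have h1 := (Hn_lead a b n).2.2.2
      rw [h0, coeff_zero] at h1
      exact mul_ne_zero (neg_ne_zero.mpr (hcast n)) ha h1.symm

/-- the value of `T ^ 2 + a T + b / T` is constant on fibres -/
theorem lev_fibre {x : ℂ[T;T⁻¹]}
    (hx : x = T 1 ^ 2 + LaurentPolynomial.C a * T 1 + LaurentPolynomial.C b * T (-1))
    {S : Type*} [CommRing S] [Algebra ℂ S] (u t : Sˣ)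
    (h : (t : S) ^ 2 = -(algebraMap ℂ S a + u) * t + algebraMap ℂ S b * ((u⁻¹ : Sˣ) : S)) :
    lev t x = lev u x := by
  have ht : (t : S) * ((t⁻¹ : Sˣ) : S) = 1 := Units.mul_inv t
  have hu : (u : S) * ((u⁻¹ : Sˣ) : S) = 1 := Units.mul_inv u
  rw [hx]
  simp only [map_add, map_mul, map_pow, lev_C, lev_T, zpow_one, zpow_neg]
  apply t.isUnit.mul_left_cancel
  linear_combination (t - u : S) * h + algebraMap ℂ S b * ht - algebraMap ℂ S b * hu

/-- the condition defining a fibre -/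
def Fib (a b : ℂ) (t s u : ℂˣ) : Prop :=
  (t : ℂ) + s + u = -a ∧ (t : ℂ) * s * u = -b

theorem Fib.rot {t s u : ℂˣ} (h : Fib a b t s u) : Fib a b s u t :=
  ⟨by linear_combination h.1, by linear_combination h.2⟩

theorem Fib.swap {t s u : ℂˣ} (h : Fib a b t s u) : Fib a b s t u :=
  ⟨by linear_combination h.1, by linear_combination h.2⟩

theorem Fib.quad {t s u : ℂˣ} (h : Fib a b t s u) :
    (t : ℂ) ^ 2 = -(algebraMap ℂ ℂ a + u) * t + algebraMap ℂ ℂ b * ((u⁻¹ : ℂˣ) : ℂ) := by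
  have hu : (u : ℂ) * ((u⁻¹ : ℂˣ) : ℂ) = 1 := Units.mul_inv u
  simp only [Algebra.algebraMap_self, RingHom.id_apply]
  linear_combination (t : ℂ) * h.1 - ((u⁻¹ : ℂˣ) : ℂ) * h.2 + (t : ℂ) * s * hu

theorem exists_fib (hb : b ≠ 0) (u : ℂˣ) : ∃ t s : ℂˣ, Fib a b t s u := by
  have hu : (u : ℂ) * (u : ℂ)⁻¹ = 1 := mul_inv_cancel₀ u.ne_zero
  obtain ⟨r, hr⟩ := IsAlgClosed.exists_pow_nat_eq ((a + u) ^ 2 + 4 * b * (u : ℂ)⁻¹)
    (by norm_num : 0 < 2)
  have hprod : (-(a + u) + r) / 2 * ((-(a + u) - r) / 2) = -b * (u : ℂ)⁻¹ := by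
    linear_combination (-1 / 4) * hr
  have hne : -b * (u : ℂ)⁻¹ ≠ 0 := mul_ne_zero (neg_ne_zero.mpr hb) (inv_ne_zero u.ne_zero)
  rw [← hprod] at hne
  refine ⟨Units.mk0 _ (left_ne_zero_of_mul hne), Units.mk0 _ (right_ne_zero_of_mul hne), ?_, ?_⟩
  · simp only [Units.val_mk0]; ring
  · simp only [Units.val_mk0]
    linear_combination (u : ℂ) * hprod - b * hu

/-- the value of `x` in terms of the fibre -/
theorem Fib.value {x : ℂ[T;T⁻¹]}
    (hx : x = T 1 ^ 2 + LaurentPolynomial.C a * T 1 + LaurentPolynomial.C b * T (-1))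
    {t s u : ℂˣ} (h : Fib a b t s u) :
    lev u x = -((t : ℂ) * s + s * u + u * t) := by
  have hu : (u : ℂ) * ((u⁻¹ : ℂˣ) : ℂ) = 1 := Units.mul_inv u
  rw [hx]
  simp only [map_add, map_mul, map_pow, lev_C, lev_T, zpow_one, zpow_neg,
    Algebra.algebraMap_self, RingHom.id_apply]
  linear_combination (u : ℂ) * h.1 + ((u⁻¹ : ℂˣ) : ℂ) * h.2 - (t : ℂ) * s * hu

/-- a polynomial in `x` vanishing at all good values is zero -/
theorem eq_zero_of_fib (hb : b ≠ 0) (P : ℂ[X]) (h : ∀ t s u : ℂˣ, Fib a b t s u →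
    ((t : ℂ) - s) * (s - u) * (u - t) ≠ 0 → P.eval (-((t : ℂ) * s + s * u + u * t)) = 0) :
    P = 0 := by
  obtain ⟨x, hx⟩ : ∃ x, x = (T 1 ^ 2 + LaurentPolynomial.C a * T 1 +
    LaurentPolynomial.C b * T (-1) : ℂ[T;T⁻¹]) := ⟨_, rfl⟩
  apply aeval_laurent_inj (x := x)
  · intro r hr
    have hTT := T_mul_T_neg
    have h1 : toLaurent (X ^ 3 + Polynomial.C a * X ^ 2 + Polynomial.C b) =
        toLaurent (Polynomial.C r * X) := by
      rw [map_add, map_add, map_mul, map_mul, map_pow, map_pow, toLaurent_C, toLaurent_C,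
        toLaurent_C, toLaurent_X, ← hr, hx]
      linear_combination (-(LaurentPolynomial.C b)) * hTT
    have h2 := congrArg (fun p : ℂ[X] => p.coeff 3) (toLaurent_injective h1)
    simp at h2
  · apply zero_of_infinite
    set Q : ℂ[X] := X * (X * (Polynomial.C a + X) ^ 2 + Polynomial.C (4 * b)) *
      (Polynomial.C 2 * X ^ 3 + Polynomial.C a * X ^ 2 - Polynomial.C b) with hQ
    have hQ0 : Q ≠ 0 := by
      rw [hQ]
      refine mul_ne_zero (mul_ne_zero X_ne_zero ?_) ?_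
      · intro h0
        have := congrArg (eval 0) h0
        simp at this
        exact hb this
      · intro h0
        have := congrArg (eval 0) h0
        simp at this
        exact hb this
    have hfin : {u : ℂ | Q.IsRoot u}.Finite := finite_setOfPred_isRoot hQ0
    apply (hfin.infinite_compl).mono
    intro u hu
    simp only [Set.mem_compl_iff, Set.mem_ofPred_eq, IsRoot.def] at hu
    have hu0 : u ≠ 0 := by
      rintro rfl
      apply hu
      rw [hQ]; simp
    refine ⟨hu0, ?_⟩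
    obtain ⟨t, s, hf⟩ := exists_fib (a := a) hb (Units.mk0 u hu0)
    have h1 := aeval_algHom_apply (levA (S := ℂ) (Units.mk0 u hu0)) x P
    rw [levA_apply, levA_apply, coe_aeval_eq_eval, Fib.value hx hf] at h1
    rw [← h1]
    apply h t s _ hf
    obtain ⟨h2, h3⟩ := hf
    simp only [Units.val_mk0] at h2 h3 ⊢
    intro h0
    apply hu
    rw [hQ]
    simp only [eval_mul, eval_add, eval_sub, eval_pow, eval_X, eval_C]
    rcases mul_eq_zero.mp h0 with h4 | h4
    · rcases mul_eq_zero.mp h4 with h5 | h5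
      · have h6 : u * (a + u) ^ 2 + 4 * b = 0 := by
          linear_combination u * ((t : ℂ) - s) * h5 +
            u * (a + u - t - s) * h2 + 4 * h3
        rw [h6]; ring
      · have h6 : 2 * u ^ 3 + a * u ^ 2 - b = 0 := by
          linear_combination (-u) * (u - (t : ℂ)) * h5 + u ^ 2 * h2 - h3
        rw [h6]; ring
    · have h6 : 2 * u ^ 3 + a * u ^ 2 - b = 0 := by
        linear_combination u * (u - (s : ℂ)) * h4 + u ^ 2 * h2 - h3
      rw [h6]; ring

/-- functions constant on fibres -/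
theorem const_on_fib (hb : b ≠ 0) {x : ℂ[T;T⁻¹]}
    (hx : x = T 1 ^ 2 + LaurentPolynomial.C a * T 1 + LaurentPolynomial.C b * T (-1))
    (z : ℂ[T;T⁻¹]) (h : ∀ t s u : ℂˣ, Fib a b t s u → lev t z = lev s z) :
    ∃ G : ℂ[X], z = aeval x G := by
  obtain ⟨A, B, D, hz⟩ := span_three hb hx z
  have hval : ∀ (t s u : ℂˣ), Fib a b t s u → ∀ r : ℂˣ, (r = t ∨ r = s ∨ r = u) →
      lev r z = A.eval (-((t : ℂ) * s + s * u + u * t)) * (r : ℂ) ^ 2 +
        B.eval (-((t : ℂ) * s + s * u + u * t)) * r +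
        D.eval (-((t : ℂ) * s + s * u + u * t)) := by
    intro t s u hf r hr
    have hx' : lev r x = -((t : ℂ) * s + s * u + u * t) := by
      rcases hr with rfl | rfl | rfl
      · rw [Fib.value hx hf.rot]; ring
      · rw [Fib.value hx hf.rot.rot]; ring
      · rw [Fib.value hx hf]
    have h1 : ∀ P : ℂ[X], lev r (aeval x P) = P.eval (-((t : ℂ) * s + s * u + u * t)) := by
      intro P
      have := aeval_algHom_apply (levA (S := ℂ) r) x P
      rw [levA_apply, levA_apply, hx', coe_aeval_eq_eval] at this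
      exact this.symm
    rw [hz]
    simp only [map_add, map_mul, map_pow, lev_T, zpow_one, h1]
  have hmain : ∀ t s u : ℂˣ, Fib a b t s u → ((t : ℂ) - s) * (s - u) * (u - t) ≠ 0 →
      A.eval (-((t : ℂ) * s + s * u + u * t)) = 0 ∧
      B.eval (-((t : ℂ) * s + s * u + u * t)) = 0 := by
    intro t s u hf hd
    have e1 := h t s u hf
    have e2 := h s u t hf.rot
    rw [hval t s u hf t (Or.inl rfl), hval t s u hf s (Or.inr (Or.inl rfl))] at e1
    rw [hval t s u hf s (Or.inr (Or.inl rfl)), hval t s u hf u (Or.inr (Or.inr rfl))] at e2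
    obtain ⟨v, hv⟩ : ∃ v, v = -((t : ℂ) * s + s * u + u * t) := ⟨_, rfl⟩
    rw [← hv] at e1 e2 ⊢
    have hA : A.eval v = 0 := by
      have : ((t : ℂ) - s) * (s - u) * (u - t) * A.eval v = 0 := by
        linear_combination (-((s : ℂ) - u)) * e1 + ((t : ℂ) - s) * e2
      exact (mul_eq_zero.mp this).resolve_left hd
    refine ⟨hA, ?_⟩
    rw [hA] at e1
    have h3 : B.eval v * ((t : ℂ) - s) = 0 := by linear_combination e1
    exact (mul_eq_zero.mp h3).resolve_right (left_ne_zero_of_mul (left_ne_zero_of_mul hd))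
  have hA0 : A = 0 := eq_zero_of_fib hb A (fun t s u hf hd => (hmain t s u hf hd).1)
  have hB0 : B = 0 := eq_zero_of_fib hb B (fun t s u hf hd => (hmain t s u hf hd).2)
  exact ⟨D, by rw [hz, hA0, hB0, map_zero]; ring⟩

/-- the structure of the second coordinate -/
theorem two_one_structure (hb : b ≠ 0) {x y : ℂ[T;T⁻¹]}
    (hx : x = T 1 ^ 2 + LaurentPolynomial.C a * T 1 + LaurentPolynomial.C b * T (-1))
    (hadj : Algebra.adjoin ℂ {x, y} = ⊤) :
    ∃ (c : ℂ) (j : ℤ), c ≠ 0 ∧ (j = 0 ∨ j = 1 ∨ (a = 0 ∧ j = 3)) ∧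
      ∀ t s u : ℂˣ, Fib a b t s u → lev t y - lev s y = c * ((u ^ j : ℂˣ) : ℂ) * (t - s) := by
  obtain ⟨A, B, hAB⟩ := pair_reduce (a := a) hb y
  have hA : ∀ u : ℂˣ, lev u A ≠ 0 := by
    intro u hu
    obtain ⟨t, s, hf⟩ := exists_fib (a := a) hb u
    have h1 := hAB ℂ u t hf.quad
    have h2 := hAB ℂ u s hf.swap.quad
    rw [hu, zero_mul, zero_add] at h1 h2
    have h3 := lev_fibre hx u t hf.quad
    have h4 := lev_fibre hx u s hf.swap.quad
    have hts := lev_ext hadj t s (by rw [h3, h4]) (by rw [h1, h2])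
    subst hts
    apply dualUnit_ne t
    obtain ⟨e, he⟩ : ∃ e : DualNumber ℂ, e = DualNumber.eps := ⟨_, rfl⟩
    have he2 : e ^ 2 = 0 := by rw [he]; exact eps_sq
    have hq : ((dualUnit t : (DualNumber ℂ)ˣ) : DualNumber ℂ) ^ 2 =
        -(algebraMap ℂ _ a + (constUnit u : (DualNumber ℂ)ˣ)) * (dualUnit t : (DualNumber ℂ)ˣ) +
        algebraMap ℂ _ b * (((constUnit u)⁻¹ : (DualNumber ℂ)ˣ) : DualNumber ℂ) := by
      have hu1 : ((dualUnit t : (DualNumber ℂ)ˣ) : DualNumber ℂ) =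
        algebraMap ℂ _ (t : ℂ) * (1 + e) := by rw [he]; rfl
      have hu2 : ((constUnit u : (DualNumber ℂ)ˣ) : DualNumber ℂ) =
        algebraMap ℂ _ (u : ℂ) := rfl
      have hu3 : (((constUnit u)⁻¹ : (DualNumber ℂ)ˣ) : DualNumber ℂ) =
        algebraMap ℂ _ ((u⁻¹ : ℂˣ) : ℂ) := rfl
      have e1 : algebraMap ℂ (DualNumber ℂ) a + algebraMap ℂ _ (u : ℂ) =
          -2 * algebraMap ℂ _ (t : ℂ) := by
        have : a + (u : ℂ) = -2 * t := by linear_combination hf.1
        rw [← map_add, this, map_mul, map_neg, map_ofNat]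
      have e2 : algebraMap ℂ (DualNumber ℂ) b * algebraMap ℂ _ ((u⁻¹ : ℂˣ) : ℂ) =
          -(algebraMap ℂ _ (t : ℂ)) ^ 2 := by
        have huu : (u : ℂ) * ((u⁻¹ : ℂˣ) : ℂ) = 1 := Units.mul_inv u
        have : b * ((u⁻¹ : ℂˣ) : ℂ) = -(t : ℂ) ^ 2 := by
          linear_combination ((u⁻¹ : ℂˣ) : ℂ) * hf.2 - (t : ℂ) ^ 2 * huu
        rw [← map_mul, this, map_neg, map_pow]
      rw [hu1, hu2, hu3, e1, e2]
      linear_combination (algebraMap ℂ (DualNumber ℂ) (t : ℂ)) ^ 2 * he2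
    have hq' : ((constUnit t : (DualNumber ℂ)ˣ) : DualNumber ℂ) ^ 2 =
        -(algebraMap ℂ _ a + (constUnit u : (DualNumber ℂ)ˣ)) * (constUnit t : (DualNumber ℂ)ˣ) +
        algebraMap ℂ _ b * (((constUnit u)⁻¹ : (DualNumber ℂ)ˣ) : DualNumber ℂ) := by
      have h5 := congrArg (algebraMap ℂ (DualNumber ℂ)) hf.quad
      simp only [map_add, map_mul, map_neg, map_pow, Algebra.algebraMap_self,
        RingHom.id_apply] at h5
      exact h5
    have hA0 : lev (constUnit u) A = 0 := by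
      have h5 := map_lev (Algebra.ofId ℂ (DualNumber ℂ)) u A
      rw [hu, map_zero] at h5
      exact h5.symm
    apply lev_ext hadj
    · rw [lev_fibre hx _ _ hq, lev_fibre hx _ _ hq']
    · rw [hAB _ _ _ hq, hAB _ _ _ hq', hA0, zero_mul, zero_mul]
  obtain ⟨c, j, hc, hAc⟩ := unit_of_no_zero hA
  have hrel : ∀ t s u : ℂˣ, Fib a b t s u →
      lev t y - lev s y = c * ((u ^ j : ℂˣ) : ℂ) * (t - s) := by
    intro t s u hf
    rw [hAB ℂ u t hf.quad, hAB ℂ u s hf.swap.quad, hAc, lev_unit_C_T]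
    simp only [Algebra.algebraMap_self, RingHom.id_apply]
    ring
  have hcyc : ∀ t s u : ℂˣ, Fib a b t s u → ((t : ℂ) - s) * ((u ^ j : ℂˣ) : ℂ) +
      ((s : ℂ) - u) * ((t ^ j : ℂˣ) : ℂ) + ((u : ℂ) - t) * ((s ^ j : ℂˣ) : ℂ) = 0 := by
    intro t s u hf
    have e1 := hrel t s u hf
    have e2 := hrel s u t hf.rot
    have e3 := hrel u t s hf.rot.rot
    apply mul_left_cancel₀ hc
    linear_combination -e1 - e2 - e3
  have hcub : ∀ t s u : ℂˣ, Fib a b t s u → (u : ℂ) ^ 3 =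
      -a * (u : ℂ) ^ 2 + (-((t : ℂ) * s + s * u + u * t)) * u - b := by
    intro t s u hf
    linear_combination (u : ℂ) ^ 2 * hf.1 + hf.2
  refine ⟨c, j, hc, ?_, hrel⟩
  rcases Int.eq_nat_or_neg j with ⟨m, rfl | rfl⟩
  · by_contra hcon
    push Not at hcon
    apply Hn_ne_zero (a := a) hb (m := m) (by omega) (by
      by_cases ha : a = 0
      · right
        intro h3
        exact hcon.2.2 ha (by rw [h3]; rfl)
      · exact Or.inl ha)
    apply eq_zero_of_fib hb
    intro t s u hf hd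
    have e1 := hcyc t s u hf
    simp only [zpow_natCast, Units.val_pow_eq_pow_val] at e1
    rw [Hn_spec (x := -((t : ℂ) * s + s * u + u * t)) (a := a) (b := b)
      (by rw [hcub s u t hf.rot]; ring) (by rw [hcub u t s hf.rot.rot]; ring)
      (hcub t s u hf)] at e1
    refine (mul_eq_zero.mp e1).resolve_left ?_
    intro h0
    apply hd
    linear_combination -h0
  · by_contra hcon
    push Not at hcon
    have hm : 1 ≤ m := by
      by_contra hm0
      obtain rfl : m = 0 := by omega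
      exact hcon.1 (by simp)
    apply Kn_ne_zero a b hm
    apply eq_zero_of_fib hb
    intro t s u hf hd
    have e1 := hcyc t s u hf
    simp only [zpow_neg, zpow_natCast] at e1
    have hpow : ∀ r q : ℂˣ, (q : ℂ) * r = -b →
        (-b) ^ m * (((r ^ m)⁻¹ : ℂˣ) : ℂ) = (q : ℂ) ^ m := by
      intro r q hq
      rw [← hq, mul_pow, mul_assoc, ← Units.val_pow_eq_pow_val r, Units.mul_inv, mul_one]
    have f1 := hpow u (t * s) (by rw [Units.val_mul]; exact hf.2)
    have f2 := hpow t (s * u) (by rw [Units.val_mul]; linear_combination hf.2)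
    have f3 := hpow s (u * t) (by rw [Units.val_mul]; linear_combination hf.2)
    rw [Units.val_mul] at f1 f2 f3
    have e2 : ((t : ℂ) - s) * ((t : ℂ) * s) ^ m + ((s : ℂ) - u) * ((s : ℂ) * u) ^ m +
        ((u : ℂ) - t) * ((u : ℂ) * t) ^ m = 0 := by
      linear_combination (-b) ^ m * e1 - ((t : ℂ) - s) * f1 - ((s : ℂ) - u) * f2 -
        ((u : ℂ) - t) * f3
    obtain ⟨x', hx'⟩ : ∃ x', x' = -((t : ℂ) * s + s * u + u * t) := ⟨_, rfl⟩
    rw [← hx']
    have g : ∀ p q r : ℂ, p + q + r = -a → p * q * r = -b → x' = -(p * q + q * r + r * p) →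
        (p * q) ^ 3 = -x' * (p * q) ^ 2 - a * b * (p * q) + b ^ 2 := by
      intro p q r h1 h2 h3
      rw [h3]
      linear_combination b * (p * q) * h1 - ((p + q) * (p * q) + b) * h2
    rw [Kn_spec (x := x') (a := a) (b := b) (g t s u hf.1 hf.2 hx')
      (g s u t (by linear_combination hf.1) (by linear_combination hf.2)
        (by rw [hx']; ring))
      (g u t s (by linear_combination hf.1) (by linear_combination hf.2)
        (by rw [hx']; ring)) (by ring) (by rw [hx']; ring) m] at e2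
    refine (mul_eq_zero.mp e2).resolve_left ?_
    intro h0
    apply hd
    linear_combination -h0

/-- **The class of embeddings having `T ^ 2 + a T + b / T` as a coordinate.** -/
theorem cls_two_one (hb : b ≠ 0) {φ : P2 →ₐ[ℂ] ℂ[T;T⁻¹]} (hφ : Function.Surjective φ)
    (h0 : φ (MvPolynomial.X 0) =
      T 1 ^ 2 + LaurentPolynomial.C a * T 1 + LaurentPolynomial.C b * T (-1)) : Cls φ := by
  have hadj := adjoin_of_surjective hφ
  obtain ⟨x, hx⟩ : ∃ x, x = (T 1 ^ 2 + LaurentPolynomial.C a * T 1 +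
    LaurentPolynomial.C b * T (-1) : ℂ[T;T⁻¹]) := ⟨_, rfl⟩
  rw [← hx] at h0
  rw [h0] at hadj
  obtain ⟨c, j, hc, hj, hrel⟩ := two_one_structure hb hx hadj
  rcases hj with rfl | rfl | ⟨ha, rfl⟩
  · obtain ⟨G, hG⟩ := const_on_fib hb hx (φ (MvPolynomial.X 1) - LaurentPolynomial.C c * T 1) (by
      intro t s u hf
      have h1 := hrel t s u hf
      rw [zpow_zero, Units.val_one] at h1
      simp only [map_sub, map_mul, lev_C, lev_T, zpow_one, Algebra.algebraMap_self,
        RingHom.id_apply]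
      linear_combination h1)
    apply Cls.of_aut inv' inv'_injective
    refine cls_of_X1 (φ := inv'.comp φ) (n := 1) ?_ (by omega) hc (H := G) ?_
    · rw [AlgHom.coe_comp]; exact inv'_surjective.comp hφ
    · have h2 : φ (MvPolynomial.X 1) = LaurentPolynomial.C c * T 1 + aeval x G := by
        rw [← hG]; ring
      rw [AlgHom.comp_apply, AlgHom.comp_apply, h0, h2, map_add, map_mul, inv'_C, inv'_T,
        Nat.cast_one, ← aeval_algHom_apply]
  · obtain ⟨G, hG⟩ := const_on_fib hb hx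
      (φ (MvPolynomial.X 1) - LaurentPolynomial.C (c * b) * T (-1)) (by
      intro t s u hf
      have h1 := hrel t s u hf
      have ht : (t : ℂ) * ((t⁻¹ : ℂˣ) : ℂ) = 1 := Units.mul_inv t
      have hs : (s : ℂ) * ((s⁻¹ : ℂˣ) : ℂ) = 1 := Units.mul_inv s
      simp only [map_sub, map_mul, lev_C, lev_T, zpow_one, Algebra.algebraMap_self,
        RingHom.id_apply, zpow_neg] at h1 ⊢
      have e : b * (((t⁻¹ : ℂˣ) : ℂ) - ((s⁻¹ : ℂˣ) : ℂ)) = u * (t - s) := by
        linear_combination (((t⁻¹ : ℂˣ) : ℂ) - ((s⁻¹ : ℂˣ) : ℂ)) * hf.2 -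
          (s : ℂ) * u * ht + (t : ℂ) * u * hs
      linear_combination h1 - c * e)
    refine cls_of_X1 (n := 1) hφ (by omega) (mul_ne_zero hc hb) (H := G) ?_
    rw [h0, ← hG, Nat.cast_one]; ring
  · obtain ⟨G, hG⟩ := const_on_fib hb hx
      (φ (MvPolynomial.X 1) - LaurentPolynomial.C (c * b ^ 2) * T (-2)) (by
      intro t s u hf
      have h1 := hrel t s u hf
      have ht : (t : ℂ) * ((t⁻¹ : ℂˣ) : ℂ) = 1 := Units.mul_inv t
      have hs : (s : ℂ) * ((s⁻¹ : ℂˣ) : ℂ) = 1 := Units.mul_inv s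
      have h3 : ((u ^ (3 : ℤ) : ℂˣ) : ℂ) = (u : ℂ) ^ 3 := by
        rw [show (3 : ℤ) = ((3 : ℕ) : ℤ) by norm_num, zpow_natCast, Units.val_pow_eq_pow_val]
      have h4 : ∀ r : ℂˣ, ((r ^ (-2 : ℤ) : ℂˣ) : ℂ) = (((r⁻¹ : ℂˣ) : ℂ)) ^ 2 := by
        intro r
        rw [show (-2 : ℤ) = -((2 : ℕ) : ℤ) by norm_num, zpow_neg, zpow_natCast, ← inv_pow,
          Units.val_pow_eq_pow_val]
      rw [h3] at h1
      simp only [map_sub, map_mul, lev_C, lev_T, h4, Algebra.algebraMap_self,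
        RingHom.id_apply] at h1 ⊢
      obtain ⟨h5, h6⟩ := hf
      rw [ha, neg_zero] at h5
      obtain ⟨v, hv⟩ : ∃ v, v = ((t⁻¹ : ℂˣ) : ℂ) := ⟨_, rfl⟩
      obtain ⟨w, hw⟩ : ∃ w, w = ((s⁻¹ : ℂˣ) : ℂ) := ⟨_, rfl⟩
      rw [← hv] at ht ⊢
      rw [← hw] at hs ⊢
      have e1 : b * v = -((s : ℂ) * u) := by
        linear_combination v * h6 - (s : ℂ) * u * ht
      have e2 : b * w = -((t : ℂ) * u) := by
        linear_combination w * h6 - (t : ℂ) * u * hs
      have e3 : b ^ 2 * (v ^ 2 - w ^ 2) = (u : ℂ) ^ 3 * (t - s) := by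
        linear_combination (b * v - (s : ℂ) * u) * e1 - (b * w - (t : ℂ) * u) * e2 +
          (-(u : ℂ) ^ 2 * (t - s)) * h5
      linear_combination h1 - c * e3)
    refine cls_of_X1 (n := 2) hφ (by omega) (mul_ne_zero hc (pow_ne_zero 2 hb)) (H := G) ?_
    have e5 : ((-((2 : ℕ) : ℤ))) = (-2 : ℤ) := by norm_num
    rw [h0, ← hG, e5]; ring

end

end Pool.Agent.Helper34_CStar
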