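import Pool.Agent.Helper34_CStar.Copl

/-!
# Embeddings with the coordinate `T ^ 2 + a T + b / T + 1 / T ^ 2`, general case
-/

namespace Pool.Agent.Helper34_CStar

open Polynomial LaurentPolynomial

/-- the value of a difference quotient at a pair -/
noncomputable def Ev (c : ℂ) (l m n : ℤ) (p : ℂ) : ℂ := c * p ^ l * (p - 1) ^ m * (p + 1) ^ n

theorem Ev_inv {c : ℂ} {l m n : ℤ} {p q : ℂ} (hpq : p * q = 1) (hp : p ^ 2 ≠ 1) :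
    Ev c l m n q = (-1) ^ m * p ^ (-(2 * l + m + n)) * Ev c l m n p := by
  have hp0 : p ≠ 0 := left_ne_zero_of_mul_eq_one hpq
  have hq : q = p⁻¹ := eq_inv_of_mul_eq_one_right hpq
  have hpm : p - 1 ≠ 0 := by
    intro h1; apply hp; linear_combination (p + 1) * h1
  have hpp : p + 1 ≠ 0 := by
    intro h1; apply hp; linear_combination (p - 1) * h1
  have e1 : q - 1 = -1 * ((p - 1) * p⁻¹) := by rw [hq]; field_simp; ring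
  have e2 : q + 1 = (p + 1) * p⁻¹ := by rw [hq]; field_simp; ring
  have e3 : p ^ (-(2 * l + m + n)) = p ^ (-l) * p ^ (-l) * p ^ (-m) * p ^ (-n) := by
    rw [← zpow_add₀ hp0, ← zpow_add₀ hp0, ← zpow_add₀ hp0]; congr 1; ring
  have e4 : p ^ (-l) * p ^ l = 1 := by rw [← zpow_add₀ hp0]; simp
  unfold Ev
  rw [e1, e2, mul_zpow, mul_zpow, mul_zpow, e3, hq, inv_zpow', inv_zpow', inv_zpow']
  linear_combination (-(c * p ^ (-l) * ((-1) ^ m * ((p - 1) ^ m * p ^ (-m))) *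
    ((p + 1) ^ n * p ^ (-n)))) * e4

theorem Ev_ne_zero {c : ℂ} {l m n : ℤ} {p : ℂ} (hc : c ≠ 0) (hp0 : p ≠ 0) (hp : p ^ 2 ≠ 1) :
    Ev c l m n p ≠ 0 := by
  have hpm : p - 1 ≠ 0 := by
    intro h1; apply hp; linear_combination (p + 1) * h1
  have hpp : p + 1 ≠ 0 := by
    intro h1; apply hp; linear_combination (p - 1) * h1
  exact mul_ne_zero (mul_ne_zero (mul_ne_zero hc (zpow_ne_zero _ hp0)) (zpow_ne_zero _ hpm))
    (zpow_ne_zero _ hpp)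

/-- the determinant of the system given by the triples of a fibre -/
theorem det_zero {t₁ t₂ t₃ t₄ τ₁ τ₂ τ₃ τ₄ E₂ E₃ E₄ ε : ℂ} (hε : ε ^ 2 = 1)
    (hτ : τ₁ * τ₂ * τ₃ * τ₄ = 1) (hE : E₄ ≠ 0)
    (h1 : (t₁ - t₂) * E₂ - (t₁ - t₃) * E₃ + (t₂ - t₃) * (ε * (τ₁ * τ₄) * E₄) = 0)
    (h2 : (t₁ - t₂) * E₂ + (t₂ - t₄) * (ε * (τ₁ * τ₃) * E₃) - (t₁ - t₄) * E₄ = 0)
    (h3 : (t₃ - t₄) * (ε * (τ₁ * τ₂) * E₂) + (t₁ - t₃) * E₃ - (t₁ - t₄) * E₄ = 0) :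
    V3 t₁ t₂ t₃ t₄ τ₁ τ₂ τ₃ τ₄ = 0 := by
  have hε0 : ε ≠ 0 := by
    rintro rfl
    norm_num at hε
  have hτ1 : τ₁ ≠ 0 := by
    rintro rfl
    simp at hτ
  apply mul_left_cancel₀ (mul_ne_zero (mul_ne_zero hε0 hτ1) hE)
  unfold V3
  linear_combination ((t₁ - t₂) * (t₁ - t₃) - ε ^ 2 * τ₁ ^ 2 * τ₂ * τ₃ * (t₂ - t₄) *
      (t₃ - t₄)) * h1 -
    ((t₁ - t₂) * (t₁ - t₃) + (t₁ - t₃) * ε * τ₁ * τ₂ * (t₃ - t₄)) * h2 +
    ((t₁ - t₂) * ε * τ₁ * τ₃ * (t₂ - t₄) + (t₁ - t₃) * (t₁ - t₂)) * h3 +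
    (E₄ * (t₂ - t₃) * (t₂ - t₄) * (t₃ - t₄) * ε * τ₁ ^ 2 * (τ₁ * τ₂ * τ₃ * τ₄)) * hε +
    (E₄ * (t₂ - t₃) * (t₂ - t₄) * (t₃ - t₄) * ε * τ₁ ^ 2) * hτ

section

variable {a b c : ℂ} {l m n : ℤ} {x y : ℂ[T;T⁻¹]}

/-- the data given by the structure theorem -/
structure TT (a b c : ℂ) (l m n : ℤ) (x y : ℂ[T;T⁻¹]) : Prop where
  hab : a ^ 2 ≠ b ^ 2
  hc : c ≠ 0
  hx : x = T 1 ^ 2 + LaurentPolynomial.C a * T 1 + LaurentPolynomial.C b * T (-1) + T (-1) ^ 2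
  hadj : Algebra.adjoin ℂ {x, y} = ⊤
  hrel : ∀ t s : ℂˣ, t ≠ s → lev t x = lev s x → ((t : ℂ) * s) ^ 2 ≠ 1 ∧
    lev t y - lev s y = Ev c l m n ((t : ℂ) * s) * (t - s)

namespace TT

theorem quart (h : TT a b c l m n x y) : Quart x 2 a 0 b 1 :=
  ⟨Or.inr rfl, one_ne_zero, by
    have hTT := T_mul_T_neg
    rw [h.hx, map_zero, map_one]
    linear_combination LaurentPolynomial.C b * T 1 * hTT + (T 1 * T (-1) + 1) * hTT⟩

theorem lev_x (h : TT a b c l m n x y) {v t₁ t₂ t₃ t₄ : ℂ} (hf : Fib22 a b v t₁ t₂ t₃ t₄) :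
    lev (Units.mk0 t₁ hf.ne₁) x = v := by
  rw [h.quart.lev_iff, quartF_eval, Units.val_mk0]
  linear_combination hf.root₁

/-- the basic relation for the first two points of a fibre -/
theorem rel (h : TT a b c l m n x y) {v t₁ t₂ t₃ t₄ : ℂ} (hf : Fib22 a b v t₁ t₂ t₃ t₄) :
    (t₁ * t₂) ^ 2 ≠ 1 ∧ lev (Units.mk0 t₁ hf.ne₁) y - lev (Units.mk0 t₂ hf.ne₂) y =
      Ev c l m n (t₁ * t₂) * (t₁ - t₂) := by
  have h1 := h.lev_x hf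
  have h2 := h.lev_x hf.swap₁₂
  have h3 := h.hrel (Units.mk0 t₁ hf.ne₁) (Units.mk0 t₂ hf.ne₂) (by
    intro e
    apply hf.d₁₂
    have := congrArg (fun u : ℂˣ => (u : ℂ)) e
    simpa using this) (by rw [h1, h2])
  simpa using h3

/-- the value at the complementary pair -/
theorem Ev_compl (h : TT a b c l m n x y) {v t₁ t₂ t₃ t₄ : ℂ} (hf : Fib22 a b v t₁ t₂ t₃ t₄) :
    Ev c l m n (t₃ * t₄) = (-1) ^ m * (t₁ * t₂) ^ (-(2 * l + m + n)) * Ev c l m n (t₁ * t₂) :=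
  Ev_inv (by linear_combination hf.s₄) (h.rel hf).1

theorem copl (h : TT a b c l m n x y) : Copl a b (-(2 * l + m + n)) := by
  intro v t₁ t₂ t₃ t₄ hf
  obtain ⟨k, hk⟩ : ∃ k, k = -(2 * l + m + n) := ⟨_, rfl⟩
  have r12 := h.rel hf
  have r13 := h.rel hf.swap₂₃
  have r14 := h.rel hf.swap₃₄.swap₂₃
  have r23 := h.rel hf.swap₁₂.swap₂₃
  have r24 := h.rel hf.swap₁₂.swap₃₄.swap₂₃
  have r34 := h.rel hf.swap₂₃.swap₁₂.swap₃₄.swap₂₃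
  have c12 := h.Ev_compl hf
  have c13 := h.Ev_compl hf.swap₂₃
  have c14 := h.Ev_compl hf.swap₃₄.swap₂₃
  rw [← hk] at c12 c13 c14 ⊢
  have hε : ((-1 : ℂ) ^ m) ^ 2 = 1 := by
    rcases Int.even_or_odd m with hm | hm
    · rw [hm.neg_one_zpow, one_pow]
    · rw [hm.neg_one_zpow]; norm_num
  have hτ : t₁ ^ k * t₂ ^ k * t₃ ^ k * t₄ ^ k = 1 := by
    rw [← mul_zpow, ← mul_zpow, ← mul_zpow, hf.s₄, one_zpow]
  have hE := Ev_ne_zero (l := l) (m := m) (n := n) h.hc (mul_ne_zero hf.ne₁ hf.ne₄) r14.1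
  rw [mul_zpow] at c12 c13 c14
  apply det_zero (E₂ := Ev c l m n (t₁ * t₂)) (E₃ := Ev c l m n (t₁ * t₃)) hε hτ hE
  · rw [← c14]; linear_combination -r12.2 + r13.2 - r23.2
  · rw [← c13]; linear_combination -r12.2 - r24.2 + r14.2
  · rw [← c12]; linear_combination -r34.2 - r13.2 + r14.2

theorem sep (h : TT a b c l m n x y) (t s : ℂˣ) (hts : t ≠ s) (hx : lev t x = lev s x) :
    lev t y ≠ lev s y := fun he => hts (lev_ext h.hadj t s hx he)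

/-- comparison with a known function -/
theorem compare (h : TT a b c l m n x y) {w : ℂ[T;T⁻¹]}
    (hw : ∀ (v : ℂ) (t₁ t₂ t₃ t₄ : ℂˣ), Fib22 a b v t₁ t₂ t₃ t₄ →
      (lev t₃ w - lev t₄ w) * ((t₁ : ℂ) - t₂) = (-1) ^ m *
        ((t₁ : ℂ) * t₂) ^ (-(2 * l + m + n)) * (lev t₁ w - lev t₂ w) * ((t₃ : ℂ) - t₄))
    {Q₃ Q₂ Q₁ Q₀ : ℂ[X]} (hQw : w = aeval x Q₃ * T 1 ^ 3 + aeval x Q₂ * T 1 ^ 2 +
      aeval x Q₁ * T 1 + aeval x Q₀) {r : ℂ} (hr : r ≠ 0)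
    (hQ : Q₃ = Polynomial.C r ∨ Q₂ = Polynomial.C r ∨ Q₁ = Polynomial.C r) :
    ∃ (r' : ℂ) (B : ℂ[X]), r' ≠ 0 ∧ y = LaurentPolynomial.C r' * w + aeval x B := by
  have hpair : ∀ (v : ℂ) (t₁ t₂ t₃ t₄ : ℂˣ), Fib22 a b v t₁ t₂ t₃ t₄ →
      (lev t₃ y - lev t₄ y) * (lev t₁ w - lev t₂ w) =
        (lev t₁ y - lev t₂ y) * (lev t₃ w - lev t₄ w) := by
    intro v t₁ t₂ t₃ t₄ hf
    have r12 := (h.rel hf).2
    have r34 := (h.rel hf.swap₂₃.swap₁₂.swap₃₄.swap₂₃).2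
    have c12 := h.Ev_compl hf
    have hw' := hw v t₁ t₂ t₃ t₄ hf
    simp only [Units.mk0_val] at r12 r34
    rw [r12, r34, c12]
    linear_combination (-(Ev c l m n ((t₁ : ℂ) * t₂))) * hw'
  obtain ⟨A, B, hAB⟩ := h.quart.collinear_gen h.sep (w := w) (by
    intro v t₁ t₂ t₃ t₄ hf _ _ _ _
    have hf := hf.fib22
    exact compare₄ (hpair v t₁ t₂ t₃ t₄ hf) (hpair v t₁ t₃ t₂ t₄ hf.swap₂₃)
      (hpair v t₁ t₄ t₂ t₃ hf.swap₃₄.swap₂₃)) hQw hr hQ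
  obtain ⟨r', hr', hA⟩ := h.quart.unit_coeff h.hadj hAB
  exact ⟨r', B, hr', by rw [hAB, hA, aeval_C, LaurentPolynomial.C_eq_algebraMap]⟩

/-- conclusion of a comparison -/
theorem finish {φ : P2 →ₐ[ℂ] ℂ[T;T⁻¹]} (hφ : Function.Surjective φ)
    (h : TT a b c l m n x (φ (MvPolynomial.X 1))) (h0 : φ (MvPolynomial.X 0) = x)
    {w : ℂ[T;T⁻¹]} {F : ℂ[X]} {d : ℕ} (hF : F.natDegree ≤ 3) (hd : d ≤ 3)
    (hwF : w = toLaurent F * T (-1) ^ d)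
    (hw : ∀ (v : ℂ) (t₁ t₂ t₃ t₄ : ℂˣ), Fib22 a b v t₁ t₂ t₃ t₄ →
      (lev t₃ w - lev t₄ w) * ((t₁ : ℂ) - t₂) = (-1) ^ m *
        ((t₁ : ℂ) * t₂) ^ (-(2 * l + m + n)) * (lev t₁ w - lev t₂ w) * ((t₃ : ℂ) - t₄))
    {Q₃ Q₂ Q₁ Q₀ : ℂ[X]} (hQw : w = aeval x Q₃ * T 1 ^ 3 + aeval x Q₂ * T 1 ^ 2 +
      aeval x Q₁ * T 1 + aeval x Q₀) {r : ℂ} (hr : r ≠ 0)
    (hQ : Q₃ = Polynomial.C r ∨ Q₂ = Polynomial.C r ∨ Q₁ = Polynomial.C r) : Cls φ := by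
  obtain ⟨r', B, hr', hy⟩ := h.compare hw hQw hr hQ
  refine cls_of_X1_degree hφ hF hd hr' (H := B) ?_
  rw [h0, hy, hwF, T_pow]
  congr 4
  ring

end TT

theorem tt_aux1 {t₁ t₂ t₃ t₄ v₁ v₂ v₃ v₄ ε : ℂ} (hε : ε ^ 2 = 1)
    (h1 : t₁ * v₁ = 1) (h2 : t₂ * v₂ = 1) (h3 : t₃ * v₃ = 1) (h4 : t₄ * v₄ = 1)
    (hs : t₁ * t₂ * t₃ * t₄ = 1) :
    ((t₃ - ε * v₃) - (t₄ - ε * v₄)) * (t₁ - t₂) =
      ε * (t₁ * t₂) * ((t₁ - ε * v₁) - (t₂ - ε * v₂)) * (t₃ - t₄) := by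
  grind

theorem tt_aux2 {t₁ t₂ t₃ t₄ v₁ v₂ v₃ v₄ : ℂ}
    (h1 : t₁ * v₁ = 1) (h2 : t₂ * v₂ = 1) (h3 : t₃ * v₃ = 1) (h4 : t₄ * v₄ = 1)
    (hs : t₁ * t₂ * t₃ * t₄ = 1) :
    (v₃ - v₄) * (t₁ - t₂) = (t₁ * t₂) ^ 2 * (v₁ - v₂) * (t₃ - t₄) := by
  grind

theorem tt_inv {t₁ t₂ t₃ t₄ v₁ v₂ v₃ v₄ : ℂ}
    (h1 : t₁ * v₁ = 1) (h2 : t₂ * v₂ = 1) (h3 : t₃ * v₃ = 1) (h4 : t₄ * v₄ = 1)
    (hs : t₁ * t₂ * t₃ * t₄ = 1) : v₁ = t₂ * t₃ * t₄ ∧ v₂ = t₁ * t₃ * t₄ ∧ v₃ = t₁ * t₂ * t₄ ∧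
      v₄ = t₁ * t₂ * t₃ := by
  refine ⟨?_, ?_, ?_, ?_⟩
  · linear_combination (-v₁) * hs + t₂ * t₃ * t₄ * h1
  · linear_combination (-v₂) * hs + t₁ * t₃ * t₄ * h2
  · linear_combination (-v₃) * hs + t₁ * t₂ * t₄ * h3
  · linear_combination (-v₄) * hs + t₁ * t₂ * t₃ * h4

theorem tt_aux3 {b t₁ t₂ t₃ t₄ v₁ v₂ v₃ v₄ : ℂ}
    (h1 : t₁ * v₁ = 1) (h2 : t₂ * v₂ = 1) (h3 : t₃ * v₃ = 1) (h4 : t₄ * v₄ = 1)
    (hs : t₁ * t₂ * t₃ * t₄ = 1)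
    (s₃ : t₁ * t₂ * t₃ + t₁ * t₂ * t₄ + t₁ * t₃ * t₄ + t₂ * t₃ * t₄ = -b) :
    ((2 * v₃ ^ 2 + b * v₃) - (2 * v₄ ^ 2 + b * v₄)) * (t₁ - t₂) =
      -((t₁ * t₂) ^ 2 * ((2 * v₁ ^ 2 + b * v₁) - (2 * v₂ ^ 2 + b * v₂)) * (t₃ - t₄)) := by
  have e := tt_aux2 h1 h2 h3 h4 hs
  obtain ⟨i1, i2, i3, i4⟩ := tt_inv h1 h2 h3 h4 hs
  have s : v₁ + v₂ + v₃ + v₄ = -b := by rw [i1, i2, i3, i4]; linear_combination s₃
  linear_combination (2 * (v₃ + v₄) + b) * e +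
    2 * (t₁ * t₂) ^ 2 * (v₁ - v₂) * (t₃ - t₄) * s

theorem tt_aux4 {t₁ t₂ t₃ t₄ v₁ v₂ v₃ v₄ : ℂ}
    (h1 : t₁ * v₁ = 1) (h2 : t₂ * v₂ = 1) (h3 : t₃ * v₃ = 1) (h4 : t₄ * v₄ = 1)
    (hs : t₁ * t₂ * t₃ * t₄ = 1) (s₁ : t₁ + t₂ + t₃ + t₄ = 0) :
    (v₃ ^ 2 - v₄ ^ 2) * (t₁ - t₂) =
      -((t₁ * t₂) ^ 4 * (v₁ ^ 2 - v₂ ^ 2) * (t₃ - t₄)) := by
  have e := tt_aux2 h1 h2 h3 h4 hs
  obtain ⟨i1, i2, i3, i4⟩ := tt_inv h1 h2 h3 h4 hs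
  have e34 : v₃ + v₄ = -(t₁ * t₂) ^ 2 * (v₁ + v₂) := by
    rw [i1, i2, i3, i4]
    linear_combination t₁ * t₂ * s₁ + t₁ * t₂ * (t₁ + t₂) * hs
  linear_combination (v₃ + v₄) * e + (t₁ * t₂) ^ 2 * (v₁ - v₂) * (t₃ - t₄) * e34

theorem tt_aux5 {b t₁ t₂ t₃ t₄ v₁ v₂ v₃ v₄ : ℂ}
    (h1 : t₁ * v₁ = 1) (h2 : t₂ * v₂ = 1) (h3 : t₃ * v₃ = 1) (h4 : t₄ * v₄ = 1)
    (hs : t₁ * t₂ * t₃ * t₄ = 1) (s₁ : t₁ + t₂ + t₃ + t₄ = 0)
    (s₃ : t₁ * t₂ * t₃ + t₁ * t₂ * t₄ + t₁ * t₃ * t₄ + t₂ * t₃ * t₄ = -b) :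
    ((2 * v₃ ^ 3 + b * v₃ ^ 2) - (2 * v₄ ^ 3 + b * v₄ ^ 2)) * (t₁ - t₂) =
      (t₁ * t₂) ^ 4 * ((2 * v₁ ^ 3 + b * v₁ ^ 2) - (2 * v₂ ^ 3 + b * v₂ ^ 2)) * (t₃ - t₄) := by
  have e := tt_aux2 h1 h2 h3 h4 hs
  obtain ⟨i1, i2, i3, i4⟩ := tt_inv h1 h2 h3 h4 hs
  have e34 : v₃ + v₄ = -(t₁ * t₂) ^ 2 * (v₁ + v₂) := by
    rw [i1, i2, i3, i4]
    linear_combination t₁ * t₂ * s₁ + t₁ * t₂ * (t₁ + t₂) * hs
  have s : v₁ + v₂ + v₃ + v₄ = -b := by rw [i1, i2, i3, i4]; linear_combination s₃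
  obtain ⟨p, hp⟩ : ∃ p, p = t₁ * t₂ := ⟨_, rfl⟩
  obtain ⟨q, hq⟩ : ∃ q, q = v₁ * v₂ := ⟨_, rfl⟩
  obtain ⟨ρ, hρ⟩ : ∃ ρ, ρ = v₁ + v₂ := ⟨_, rfl⟩
  have hpq : p * q = 1 := by rw [hp, hq]; linear_combination h1 + t₁ * v₁ * h2
  have hp34 : v₃ * v₄ = p := by
    rw [i3, i4, hp]; linear_combination t₁ * t₂ * hs
  have hb : b = -(ρ * (1 - p ^ 2)) := by
    rw [hρ, hp]; linear_combination s - e34
  rw [← hρ, ← hp] at e34
  rw [← hp] at e ⊢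
  have f1 : 2 * (v₃ ^ 2 + v₃ * v₄ + v₄ ^ 2) + b * (v₃ + v₄) =
      p ^ 2 * (2 * (v₁ ^ 2 + v₁ * v₂ + v₂ ^ 2) + b * (v₁ + v₂)) := by
    have g1 : v₃ ^ 2 + v₃ * v₄ + v₄ ^ 2 = (v₃ + v₄) ^ 2 - p := by rw [← hp34]; ring
    have g2 : v₁ ^ 2 + v₁ * v₂ + v₂ ^ 2 = ρ ^ 2 - q := by rw [hq, hρ]; ring
    rw [g1, g2, e34, hb, ← hρ]
    linear_combination (2 * p) * hpq
  linear_combination (2 * (v₃ ^ 2 + v₃ * v₄ + v₄ ^ 2) + b * (v₃ + v₄)) * e +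
    p ^ 2 * (v₁ - v₂) * (t₃ - t₄) * f1

theorem tt_aux6 {t₁ t₂ t₃ t₄ : ℂ}
    (hs : t₁ * t₂ * t₃ * t₄ = 1)
    (s₃ : t₁ * t₂ * t₃ + t₁ * t₂ * t₄ + t₁ * t₃ * t₄ + t₂ * t₃ * t₄ = 0) :
    (t₃ ^ 2 - t₄ ^ 2) * (t₁ - t₂) =
      -((t₃ * t₄) ^ 2 * (t₁ ^ 2 - t₂ ^ 2) * (t₃ - t₄)) := by
  have e34 : t₃ + t₄ = -(t₃ * t₄) ^ 2 * (t₁ + t₂) := by
    linear_combination t₃ * t₄ * s₃ - (t₃ + t₄) * hs
  linear_combination (t₃ - t₄) * (t₁ - t₂) * e34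

theorem tt_aux7 {a t₁ t₂ t₃ t₄ : ℂ}
    (hs : t₁ * t₂ * t₃ * t₄ = 1) (s₁ : t₁ + t₂ + t₃ + t₄ = -a)
    (s₃ : t₁ * t₂ * t₃ + t₁ * t₂ * t₄ + t₁ * t₃ * t₄ + t₂ * t₃ * t₄ = 0) :
    ((2 * t₃ ^ 3 + a * t₃ ^ 2) - (2 * t₄ ^ 3 + a * t₄ ^ 2)) * (t₁ - t₂) =
      (t₃ * t₄) ^ 2 * ((2 * t₁ ^ 3 + a * t₁ ^ 2) - (2 * t₂ ^ 3 + a * t₂ ^ 2)) * (t₃ - t₄) := by
  have e34 : t₃ + t₄ = -(t₃ * t₄) ^ 2 * (t₁ + t₂) := by
    linear_combination t₃ * t₄ * s₃ - (t₃ + t₄) * hs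
  obtain ⟨p, hp⟩ : ∃ p, p = t₁ * t₂ := ⟨_, rfl⟩
  obtain ⟨q, hq⟩ : ∃ q, q = t₃ * t₄ := ⟨_, rfl⟩
  obtain ⟨ρ, hρ⟩ : ∃ ρ, ρ = t₁ + t₂ := ⟨_, rfl⟩
  have hpq : p * q = 1 := by rw [hp, hq]; linear_combination hs
  have ha : a = -(ρ * (1 - q ^ 2)) := by
    rw [hρ, hq]; linear_combination s₁ - e34
  rw [← hρ, ← hq] at e34
  rw [← hq]
  have f1 : 2 * (t₃ ^ 2 + t₃ * t₄ + t₄ ^ 2) + a * (t₃ + t₄) =
      q ^ 2 * (2 * (t₁ ^ 2 + t₁ * t₂ + t₂ ^ 2) + a * (t₁ + t₂)) := by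
    have g1 : t₃ ^ 2 + t₃ * t₄ + t₄ ^ 2 = (t₃ + t₄) ^ 2 - q := by rw [hq]; ring
    have g2 : t₁ ^ 2 + t₁ * t₂ + t₂ ^ 2 = ρ ^ 2 - p := by rw [hp, hρ]; ring
    rw [g1, g2, e34, ha, ← hρ]
    linear_combination (2 * q) * hpq
  linear_combination (t₃ - t₄) * (t₁ - t₂) * f1

/-- **The class of embeddings having `T ^ 2 + a T + b / T + 1 / T ^ 2`, `a ^ 2 ≠ b ^ 2`, as a
coordinate.** -/
theorem cls_two_two {a b : ℂ} (hab : a ^ 2 ≠ b ^ 2) {φ : P2 →ₐ[ℂ] ℂ[T;T⁻¹]}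
    (hφ : Function.Surjective φ)
    (h0 : φ (MvPolynomial.X 0) = T 1 ^ 2 + LaurentPolynomial.C a * T 1 +
      LaurentPolynomial.C b * T (-1) + T (-1) ^ 2) : Cls φ := by
  have hadj := adjoin_of_surjective hφ
  have hTT := T_mul_T_neg
  obtain ⟨x, hx⟩ : ∃ x, x = (T 1 ^ 2 + LaurentPolynomial.C a * T 1 +
      LaurentPolynomial.C b * T (-1) + T (-1) ^ 2 : ℂ[T;T⁻¹]) := ⟨_, rfl⟩
  rw [← hx] at h0
  rw [h0] at hadj
  obtain ⟨c, l, m, n, hc, hrel⟩ := two_two_structure hab hx hadj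
  have h : TT a b c l m n x (φ (MvPolynomial.X 1)) := ⟨hab, hc, hx, hadj, hrel⟩
  have hk := copl_cases hab h.copl
  have hinv : ∀ t : ℂˣ, (t : ℂ) * ((t⁻¹ : ℂˣ) : ℂ) = 1 := fun t => Units.mul_inv t
  have hm : (-1 : ℂ) ^ m = 1 ∨ (-1 : ℂ) ^ m = -1 := by
    rcases Int.even_or_odd m with hm | hm
    · exact Or.inl hm.neg_one_zpow
    · exact Or.inr hm.neg_one_zpow
  -- the inverse of `T` in the basis
  have hT1 : (T (-1) : ℂ[T;T⁻¹]) = x * T 1 - T 1 ^ 3 - LaurentPolynomial.C a * T 1 ^ 2 -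
      LaurentPolynomial.C b := by
    rw [hx]
    linear_combination (-(LaurentPolynomial.C b) - T (-1)) * hTT
  have hT2 : (T (-1) ^ 2 : ℂ[T;T⁻¹]) = x - T 1 ^ 2 - LaurentPolynomial.C a * T 1 -
      LaurentPolynomial.C b * T (-1) := by
    rw [hx]; ring
  rcases hk with hk | hk | hk | ⟨hk, ha⟩ | ⟨hk, hb⟩
  · rcases hm with hm | hm
    · refine h.finish hφ h0 (w := T 1) (F := X) (d := 0) (by rw [natDegree_X]; omega)
        (by omega) (by rw [toLaurent_X, pow_zero, mul_one]) ?_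
        (Q₃ := 0) (Q₂ := 0) (Q₁ := Polynomial.C 1) (Q₀ := 0) (by simp) one_ne_zero
        (Or.inr (Or.inr rfl))
      intro v t₁ t₂ t₃ t₄ hf
      rw [hk, hm, zpow_zero]
      simp only [lev_T, zpow_one]
      ring
    · refine h.finish hφ h0 (w := 2 * T 1 ^ 2 + LaurentPolynomial.C a * T 1)
        (F := 2 * X ^ 2 + Polynomial.C a * X) (d := 0) (by compute_degree!)
        (by omega) (by
          simp only [map_add, map_mul, map_pow, toLaurent_X, toLaurent_C, map_ofNat, pow_zero,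
            mul_one]) ?_
        (Q₃ := 0) (Q₂ := Polynomial.C 2) (Q₁ := Polynomial.C a) (Q₀ := 0) (by
          simp only [map_zero, aeval_C, ← LaurentPolynomial.C_eq_algebraMap, map_ofNat]; ring)
        two_ne_zero (Or.inr (Or.inl rfl))
      intro v t₁ t₂ t₃ t₄ hf
      rw [hk, hm, zpow_zero]
      simp only [map_add, map_mul, map_pow, map_ofNat, lev_C, lev_T, zpow_one,
        Algebra.algebraMap_self, RingHom.id_apply]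
      linear_combination 2 * ((t₁ : ℂ) - t₂) * ((t₃ : ℂ) - t₄) * hf.s₁
  · obtain ⟨ε, hε⟩ : ∃ ε, ε = (-1 : ℂ) ^ m := ⟨_, rfl⟩
    have hε2 : ε ^ 2 = 1 := by
      rcases hm with hm | hm <;> rw [hε, hm] <;> norm_num
    have hε0 : ε ≠ 0 := by rintro rfl; norm_num at hε2
    refine h.finish hφ h0 (w := T 1 - LaurentPolynomial.C ε * T (-1))
      (F := X ^ 2 - Polynomial.C ε) (d := 1) (by compute_degree!)
      (by omega) (by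
        simp only [map_sub, map_pow, toLaurent_X, toLaurent_C, pow_one]
        linear_combination (-T 1) * hTT) ?_
      (Q₃ := Polynomial.C ε) (Q₂ := Polynomial.C (ε * a)) (Q₁ := 1 - Polynomial.C ε * X)
      (Q₀ := Polynomial.C (ε * b)) (by
        simp only [map_sub, map_mul, map_one, aeval_C, aeval_X,
          ← LaurentPolynomial.C_eq_algebraMap]
        linear_combination (-(LaurentPolynomial.C ε)) * hT1)
      hε0 (Or.inl rfl)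
    intro v t₁ t₂ t₃ t₄ hf
    rw [hk, ← hε, zpow_one]
    simp only [map_sub, map_mul, lev_C, lev_T, zpow_one, zpow_neg,
      Algebra.algebraMap_self, RingHom.id_apply]
    exact tt_aux1 hε2 (hinv t₁) (hinv t₂) (hinv t₃) (hinv t₄) hf.s₄
  · rcases hm with hm | hm
    · refine h.finish hφ h0 (w := T (-1)) (F := 1) (d := 1) (by rw [natDegree_one]; omega)
        (by omega) (by rw [map_one, pow_one, one_mul]) ?_
        (Q₃ := Polynomial.C (-1)) (Q₂ := Polynomial.C (-a)) (Q₁ := X) (Q₀ := Polynomial.C (-b)) (by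
          simp only [map_neg, map_one, aeval_C, aeval_X,
            ← LaurentPolynomial.C_eq_algebraMap]
          linear_combination hT1) (neg_ne_zero.mpr one_ne_zero) (Or.inl rfl)
      intro v t₁ t₂ t₃ t₄ hf
      rw [hk, hm]
      simp only [lev_T, zpow_neg, zpow_one]
      have := tt_aux2 (hinv t₁) (hinv t₂) (hinv t₃) (hinv t₄) hf.s₄
      rw [this, one_mul]
      norm_cast
    · have hw : ∀ (v : ℂ) (t₁ t₂ t₃ t₄ : ℂˣ), Fib22 a b v t₁ t₂ t₃ t₄ →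
          (lev t₃ (2 * T (-1) ^ 2 + LaurentPolynomial.C b * T (-1)) -
            lev t₄ (2 * T (-1) ^ 2 + LaurentPolynomial.C b * T (-1))) *
              ((t₁ : ℂ) - t₂) = (-1) ^ m *
            ((t₁ : ℂ) * t₂) ^ (-(2 * l + m + n)) *
            (lev t₁ (2 * T (-1) ^ 2 + LaurentPolynomial.C b * T (-1)) -
              lev t₂ (2 * T (-1) ^ 2 + LaurentPolynomial.C b * T (-1))) * ((t₃ : ℂ) - t₄) := by
        intro v t₁ t₂ t₃ t₄ hf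
        rw [hk, hm]
        simp only [map_add, map_mul, map_pow, map_ofNat, lev_C, lev_T, zpow_one, zpow_neg,
          Algebra.algebraMap_self, RingHom.id_apply]
        have := tt_aux3 (hinv t₁) (hinv t₂) (hinv t₃) (hinv t₄) hf.s₄ hf.s₃
        rw [this, show ((t₁ : ℂ) * t₂) ^ (2 : ℤ) = ((t₁ : ℂ) * t₂) ^ 2 by norm_cast]
        ring
      have hdec : (2 * T (-1) ^ 2 + LaurentPolynomial.C b * T (-1) : ℂ[T;T⁻¹]) =
          aeval x (Polynomial.C b) * T 1 ^ 3 + aeval x (Polynomial.C (a * b - 2)) * T 1 ^ 2 +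
          aeval x (Polynomial.C (-2 * a) - Polynomial.C b * X) * T 1 +
          aeval x (2 * X + Polynomial.C (b ^ 2)) := by
        simp only [map_neg, map_mul, map_pow, map_sub, map_add, map_ofNat, aeval_C, aeval_X,
          ← LaurentPolynomial.C_eq_algebraMap]
        linear_combination 2 * hT2 - LaurentPolynomial.C b * hT1
      have hF : (2 * T (-1) ^ 2 + LaurentPolynomial.C b * T (-1) : ℂ[T;T⁻¹]) =
          toLaurent (2 + Polynomial.C b * X) * T (-1) ^ 2 := by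
        simp only [map_add, map_mul, toLaurent_X, toLaurent_C, map_ofNat]
        linear_combination (-(LaurentPolynomial.C b * T (-1))) * hTT
      by_cases hb : b = 0
      · refine h.finish hφ h0 (d := 2) (by compute_degree!) (by omega) hF hw hdec
          (r := -2) (by norm_num) (Or.inr (Or.inl ?_))
        rw [hb, mul_zero, zero_sub]
      · exact h.finish hφ h0 (d := 2) (by compute_degree!) (by omega) hF hw hdec
          (r := b) hb (Or.inl rfl)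
  · subst ha
    have hb : b ≠ 0 := by rintro rfl; exact hab rfl
    rcases hm with hm | hm
    · refine h.finish hφ h0 (w := 2 * T (-1) ^ 3 + LaurentPolynomial.C b * T (-1) ^ 2)
        (F := 2 + Polynomial.C b * X) (d := 3) (by compute_degree!)
        (by omega) (by
          simp only [map_add, map_mul, toLaurent_X, toLaurent_C, map_ofNat]
          linear_combination (-(LaurentPolynomial.C b * T (-1) ^ 2)) * hTT) ?_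
        (Q₃ := Polynomial.C (-2) * X - Polynomial.C (b ^ 2)) (Q₂ := Polynomial.C b)
        (Q₁ := 2 * X ^ 2 - 2 + Polynomial.C (b ^ 2) * X)
        (Q₀ := Polynomial.C (-3 * b) * X - Polynomial.C (b ^ 3)) (by
          simp only [map_neg, map_mul, map_pow, map_sub, map_add, map_ofNat, aeval_C, aeval_X,
            ← LaurentPolynomial.C_eq_algebraMap]
          rw [map_zero] at hT1 hT2
          have hT3 : (T (-1) ^ 3 : ℂ[T;T⁻¹]) = x * T (-1) - T 1 -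
              LaurentPolynomial.C b * T (-1) ^ 2 := by
            linear_combination T (-1) * hT2 - T 1 * hTT
          linear_combination 2 * hT3 - LaurentPolynomial.C b * hT2 +
            (2 * x + LaurentPolynomial.C b ^ 2) * hT1)
        hb (Or.inr (Or.inl rfl))
      intro v t₁ t₂ t₃ t₄ hf
      rw [hk, hm]
      simp only [map_add, map_mul, map_pow, map_ofNat, lev_C, lev_T, zpow_one, zpow_neg,
        Algebra.algebraMap_self, RingHom.id_apply]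
      have := tt_aux5 (hinv t₁) (hinv t₂) (hinv t₃) (hinv t₄) hf.s₄
        (by have := hf.s₁; rwa [neg_zero] at this) hf.s₃
      rw [this, show ((t₁ : ℂ) * t₂) ^ (4 : ℤ) = ((t₁ : ℂ) * t₂) ^ 4 by norm_cast]
      ring
    · refine h.finish hφ h0 (w := T (-1) ^ 2)
        (F := 1) (d := 2) (by rw [natDegree_one]; omega)
        (by omega) (by rw [map_one, one_mul]) ?_
        (Q₃ := Polynomial.C b) (Q₂ := Polynomial.C (-1))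
        (Q₁ := Polynomial.C (-b) * X)
        (Q₀ := X + Polynomial.C (b ^ 2)) (by
          simp only [map_neg, map_mul, map_pow, map_add, map_one, aeval_C, aeval_X,
            ← LaurentPolynomial.C_eq_algebraMap]
          rw [map_zero] at hT1 hT2
          linear_combination hT2 - LaurentPolynomial.C b * hT1)
        (neg_ne_zero.mpr one_ne_zero) (Or.inr (Or.inl rfl))
      intro v t₁ t₂ t₃ t₄ hf
      rw [hk, hm]
      simp only [map_pow, lev_T, zpow_one, zpow_neg]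
      have := tt_aux4 (hinv t₁) (hinv t₂) (hinv t₃) (hinv t₄) hf.s₄
        (by have := hf.s₁; rwa [neg_zero] at this)
      rw [this, show ((t₁ : ℂ) * t₂) ^ (4 : ℤ) = ((t₁ : ℂ) * t₂) ^ 4 by norm_cast]
      ring
  · subst hb
    have hpow : ∀ (v : ℂ) (t₁ t₂ t₃ t₄ : ℂˣ), Fib22 a 0 v t₁ t₂ t₃ t₄ →
        ((t₁ : ℂ) * t₂) ^ (-2 : ℤ) = ((t₃ : ℂ) * t₄) ^ 2 := by
      intro v t₁ t₂ t₃ t₄ hf
      rw [zpow_neg, show ((t₁ : ℂ) * t₂) ^ (2 : ℤ) = ((t₁ : ℂ) * t₂) ^ 2 by norm_cast]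
      apply inv_eq_of_mul_eq_one_right
      rw [← mul_pow, ← mul_assoc, hf.s₄, one_pow]
    rcases hm with hm | hm
    · refine h.finish hφ h0 (w := 2 * T 1 ^ 3 + LaurentPolynomial.C a * T 1 ^ 2)
        (F := 2 * X ^ 3 + Polynomial.C a * X ^ 2) (d := 0) (by compute_degree!)
        (by omega) (by
          simp only [map_add, map_mul, map_pow, toLaurent_X, toLaurent_C, map_ofNat, pow_zero,
            mul_one]) ?_
        (Q₃ := Polynomial.C 2) (Q₂ := Polynomial.C a) (Q₁ := 0) (Q₀ := 0) (by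
          simp only [map_zero, aeval_C, ← LaurentPolynomial.C_eq_algebraMap, map_ofNat]; ring)
        two_ne_zero (Or.inl rfl)
      intro v t₁ t₂ t₃ t₄ hf
      rw [hk, hm, hpow v t₁ t₂ t₃ t₄ hf]
      simp only [map_add, map_mul, map_pow, map_ofNat, lev_C, lev_T, zpow_one,
        Algebra.algebraMap_self, RingHom.id_apply]
      rw [tt_aux7 hf.s₄ hf.s₁ (by have := hf.s₃; rwa [neg_zero] at this)]
      ring
    · refine h.finish hφ h0 (w := T 1 ^ 2) (F := X ^ 2) (d := 0) (by compute_degree!)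
        (by omega) (by rw [map_pow, toLaurent_X, pow_zero, mul_one]) ?_
        (Q₃ := 0) (Q₂ := Polynomial.C 1) (Q₁ := 0) (Q₀ := 0) (by simp) one_ne_zero
        (Or.inr (Or.inl rfl))
      intro v t₁ t₂ t₃ t₄ hf
      rw [hk, hm, hpow v t₁ t₂ t₃ t₄ hf]
      simp only [map_pow, lev_T, zpow_one]
      rw [tt_aux6 hf.s₄ (by have := hf.s₃; rwa [neg_zero] at this)]
      ring

end

end Pool.Agent.Helper34_CStar
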