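import Pool.Agent.Helper34_CStar.ClsTwoTwo

/-!
# Embeddings with the coordinate `T ^ 2 + a T + a / T + 1 / T ^ 2`
-/

namespace Pool.Agent.Helper34_CStar

open Polynomial LaurentPolynomial

/-- polynomials in `u` over the polynomials in `u ^ 2 + a u - 2` -/
theorem span_comp {a : ℂ} {x u : ℂ[T;T⁻¹]} (hx : x = u ^ 2 + LaurentPolynomial.C a * u - 2)
    (B : ℂ[X]) : ∃ S₂ S₁ : ℂ[X], aeval u B = aeval x S₂ * u + aeval x S₁ := by
  induction B using Polynomial.induction_on with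
  | C r => exact ⟨0, Polynomial.C r, by simp⟩
  | add p q hp hq =>
    obtain ⟨S₂, S₁, h⟩ := hp
    obtain ⟨R₂, R₁, h'⟩ := hq
    exact ⟨S₂ + R₂, S₁ + R₁, by rw [map_add, h, h', map_add, map_add]; ring⟩
  | monomial n r h =>
    obtain ⟨S₂, S₁, h⟩ := h
    refine ⟨S₁ - Polynomial.C a * S₂, (X + 2) * S₂, ?_⟩
    have e : aeval u (Polynomial.C r * X ^ (n + 1)) = aeval u (Polynomial.C r * X ^ n) * u := by
      rw [pow_succ, ← mul_assoc, map_mul, aeval_X]
    rw [e, h]
    simp only [map_add, map_sub, map_mul, map_ofNat, aeval_C, aeval_X,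
      ← LaurentPolynomial.C_eq_algebraMap]
    linear_combination (-(aeval x S₂)) * hx

/-- the value of a polynomial in `x` -/
theorem lev_aeval_const {S : Type*} [CommRing S] [Algebra ℂ S] {x : ℂ[T;T⁻¹]} (u : Sˣ) {v : ℂ}
    (h : lev u x = algebraMap ℂ S v) (P : ℂ[X]) :
    lev u (aeval x P) = algebraMap ℂ S (P.eval v) := by
  have := aeval_algHom_apply (levA u) x P
  rw [levA_apply, levA_apply, h] at this
  rw [← this, aeval_algebraMap_apply, coe_aeval_eq_eval]

theorem sym_aux {s E D a : ℂ} (hs : s ≠ 0) (hE : E ≠ 0) (hD : D ≠ 0) (h1 : E = 1 + s)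
    (h2 : D = 1 + 2 * s) :
    -(s / E) - E / s + a * (-(a * s) / D) * (E / s) + (-(a * s) / D) ^ 2 * (E / s) ^ 2 =
      -((2 * s ^ 2 + 2 * s + 1) * D ^ 2 + a ^ 2 * (s * E) ^ 2) / (s * E * D ^ 2) := by
  field_simp
  rw [h1, h2]
  ring

theorem sym_aux2 {s E D a : ℂ} (hE : E ≠ 0) (hD : D ≠ 0) :
    -(a * s) / D * (D / E) = -(a * (s / E)) := by
  field_simp

theorem sym_aux3 {s E : ℂ} (hE : E ≠ 0) (h1 : E = 1 + s) : s * (1 - s / E) = s / E := by
  field_simp
  rw [h1]; ring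

/-- **The class of embeddings having `T ^ 2 + a T + a / T + 1 / T ^ 2` as a coordinate.** -/
theorem cls_two_two_sym (a : ℂ) {φ : P2 →ₐ[ℂ] ℂ[T;T⁻¹]}
    (hφ : Function.Surjective φ)
    (h0 : φ (MvPolynomial.X 0) = T 1 ^ 2 + LaurentPolynomial.C a * T 1 +
      LaurentPolynomial.C a * T (-1) + T (-1) ^ 2) : Cls φ := by
  have hadj := adjoin_of_surjective hφ
  have hTT := T_mul_T_neg
  obtain ⟨x, hx⟩ : ∃ x, x = (T 1 ^ 2 + LaurentPolynomial.C a * T 1 +
      LaurentPolynomial.C a * T (-1) + T (-1) ^ 2 : ℂ[T;T⁻¹]) := ⟨_, rfl⟩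
  rw [← hx] at h0
  rw [h0] at hadj
  obtain ⟨u, hu⟩ : ∃ u, u = (T 1 + T (-1) : ℂ[T;T⁻¹]) := ⟨_, rfl⟩
  have hxu : x = u ^ 2 + LaurentPolynomial.C a * u - 2 := by
    rw [hx, hu]; linear_combination (-2 : ℂ[T;T⁻¹]) * hTT
  obtain ⟨A, B, hAB⟩ := span_two (b := 1) one_ne_zero (x := u) (by
    rw [hu, map_one, one_mul]) (φ (MvPolynomial.X 1))
  have hlevu : ∀ {S : Type} [CommRing S] [Algebra ℂ S] (t : Sˣ),
      lev t u = (t : S) + ((t⁻¹ : Sˣ) : S) := by
    intro S _ _ t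
    rw [hu, map_add, lev_T, lev_T, zpow_one, zpow_neg, zpow_one]
  have hlevx : ∀ {S : Type} [CommRing S] [Algebra ℂ S] (t : Sˣ),
      lev t x = (lev t u) ^ 2 + algebraMap ℂ S a * lev t u - 2 := by
    intro S _ _ t
    rw [hxu]; simp only [map_add, map_sub, map_mul, map_pow, map_ofNat, lev_C]
  have hA : ∀ v, A.eval v ≠ 0 := by
    intro v hv
    obtain ⟨r, hr⟩ := IsAlgClosed.exists_pow_nat_eq (v ^ 2 - 4) (by norm_num : 0 < 2)
    obtain ⟨t, ht⟩ : ∃ t, t = (v + r) / 2 := ⟨_, rfl⟩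
    obtain ⟨s, hs⟩ : ∃ s, s = (v - r) / 2 := ⟨_, rfl⟩
    have hsum : t + s = v := by rw [ht, hs]; ring
    have hprod : t * s = 1 := by rw [ht, hs]; linear_combination (-1 / 4) * hr
    have ht0 : t ≠ 0 := left_ne_zero_of_mul_eq_one hprod
    have hs0 : s ≠ 0 := right_ne_zero_of_mul_eq_one hprod
    obtain ⟨τ, hτ⟩ : ∃ τ : ℂˣ, τ = Units.mk0 t ht0 := ⟨_, rfl⟩
    have hτv : (τ : ℂ) = t := by rw [hτ]; rfl
    have hτi : ((τ⁻¹ : ℂˣ) : ℂ) = s := by
      rw [Units.val_inv_eq_inv_val, hτv]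
      exact (eq_inv_of_mul_eq_one_right hprod).symm
    have h1 : lev τ u = v := by rw [hlevu, hτv, hτi, hsum]
    have h2 : lev τ⁻¹ u = v := by
      rw [hlevu, inv_inv, hτv, hτi, add_comm, hsum]
    have h3 := lev_ext hadj τ τ⁻¹ (by rw [hlevx, hlevx, h1, h2]) (by
      rw [hAB]
      simp only [map_add, map_mul, lev_aeval_const τ h1, lev_aeval_const τ⁻¹ h2, hv, map_zero,
        zero_mul])
    have hts : t = s := by
      have := congrArg Units.val h3
      rwa [hτv, hτi] at this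
    apply dualUnit_ne τ
    have e1 : lev (dualUnit τ) u = algebraMap ℂ (DualNumber ℂ) v := by
      rw [hlevu]
      have hu1 : ((dualUnit τ : (DualNumber ℂ)ˣ) : DualNumber ℂ) =
        algebraMap ℂ _ t * (1 + DualNumber.eps) := by rw [← hτv]; rfl
      have hu2 : (((dualUnit τ)⁻¹ : (DualNumber ℂ)ˣ) : DualNumber ℂ) =
        algebraMap ℂ _ t * (1 - DualNumber.eps) := by rw [hts, ← hτi]; rfl
      rw [hu1, hu2, ← hsum, ← hts, map_add]
      ring
    have e2 : lev (constUnit τ) u = algebraMap ℂ (DualNumber ℂ) v := by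
      rw [hlevu]
      have hu1 : ((constUnit τ : (DualNumber ℂ)ˣ) : DualNumber ℂ) =
        algebraMap ℂ _ t := by rw [← hτv]; rfl
      have hu2 : (((constUnit τ)⁻¹ : (DualNumber ℂ)ˣ) : DualNumber ℂ) =
        algebraMap ℂ _ s := by rw [← hτi]; rfl
      rw [hu1, hu2, ← hsum, map_add]
    apply lev_ext hadj
    · rw [hlevx, hlevx, e1, e2]
    · rw [hAB]
      simp only [map_add, map_mul, lev_aeval_const _ e1, lev_aeval_const _ e2, hv, map_zero,
        zero_mul]
  obtain ⟨c, hc⟩ : ∃ c, A = Polynomial.C c := by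
    have h1 : A.natDegree = 0 := by
      by_contra hne
      obtain ⟨r, hr⟩ := IsAlgClosed.exists_root A (by
        intro h0
        exact hne (natDegree_eq_of_degree_eq_some h0))
      exact hA r hr
    obtain ⟨c, hc⟩ := natDegree_eq_zero.mp h1
    exact ⟨c, hc.symm⟩
  have hc0 : c ≠ 0 := by
    rintro rfl
    apply hA 0
    rw [hc]; simp
  obtain ⟨S', S₁, hS⟩ := span_comp hxu B
  obtain ⟨S, hSd⟩ : ∃ S, S = Polynomial.C c⁻¹ * S' := ⟨_, rfl⟩
  have hS' : S' = Polynomial.C c * S := by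
    rw [hSd, ← mul_assoc, ← map_mul, mul_inv_cancel₀ hc0, map_one, one_mul]
  have hy : φ (MvPolynomial.X 1) = LaurentPolynomial.C c * (T 1 + aeval x S * u) +
      aeval x S₁ := by
    rw [hAB, hS, hc, hS', map_mul, aeval_C, aeval_C, ← LaurentPolynomial.C_eq_algebraMap]; ring
  -- the value of the second coordinate
  have hlevy : ∀ {S₀ : Type} [CommRing S₀] [Algebra ℂ S₀] (t : S₀ˣ) (v : ℂ),
      lev t x = algebraMap ℂ S₀ v → lev t (φ (MvPolynomial.X 1)) = algebraMap ℂ S₀ c *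
        ((t : S₀) + algebraMap ℂ S₀ (S.eval v) * ((t : S₀) + ((t⁻¹ : S₀ˣ) : S₀))) +
        algebraMap ℂ S₀ (S₁.eval v) := by
    intro S₀ _ _ t v hv
    rw [hy]
    simp only [map_add, map_mul, lev_aeval_const _ hv, hlevu, lev_T, zpow_one, lev_C]
  -- a pair with equal values is impossible
  have hpair : ∀ (p σ v : ℂ), p ≠ 0 → σ * (p + 1) = -(a * p) →
      v = -p - p⁻¹ + a * σ * p⁻¹ + σ ^ 2 * p⁻¹ ^ 2 → S.eval v * (1 - p) ≠ p := by
    intro p σ v hp hσ hv hcon
    obtain ⟨r, hr⟩ := IsAlgClosed.exists_pow_nat_eq (σ ^ 2 - 4 * p) (by norm_num : 0 < 2)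
    have hprod : (σ + r) / 2 * ((σ - r) / 2) = p := by linear_combination (-1 / 4) * hr
    have hne : (σ + r) / 2 * ((σ - r) / 2) ≠ 0 := by rw [hprod]; exact hp
    obtain ⟨t, ht⟩ : ∃ t : ℂˣ, (t : ℂ) = (σ + r) / 2 :=
      ⟨Units.mk0 _ (left_ne_zero_of_mul hne), rfl⟩
    obtain ⟨s, hs⟩ : ∃ s : ℂˣ, (s : ℂ) = (σ - r) / 2 :=
      ⟨Units.mk0 _ (right_ne_zero_of_mul hne), rfl⟩
    rw [← ht, ← hs] at hprod
    have hsum : (t : ℂ) + s = σ := by rw [ht, hs]; ring
    obtain ⟨q, hq⟩ : ∃ q : ℂˣ, (q : ℂ) = p := ⟨Units.mk0 p hp, rfl⟩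
    have hqi : ((q⁻¹ : ℂˣ) : ℂ) = p⁻¹ := by rw [Units.val_inv_eq_inv_val, hq]
    have ht2 : (t : ℂ) ^ 2 = σ * t - q := by
      rw [hq]; linear_combination -hprod + (t : ℂ) * hsum
    have hs2 : (s : ℂ) ^ 2 = σ * s - q := by
      rw [hq]; linear_combination -hprod + (s : ℂ) * hsum
    have hσ2 : σ * ((q : ℂ) ^ 2 - 1) = q * (algebraMap ℂ ℂ a - algebraMap ℂ ℂ a * q) := by
      rw [hq, Algebra.algebraMap_self, RingHom.id_apply]
      linear_combination (p - 1) * hσ
    have hxt := lev_pair_tt (a := a) (b := a) hx q t σ ht2 hσ2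
    have hxs := lev_pair_tt (a := a) (b := a) hx q s σ hs2 hσ2
    have hvq : v = -(q : ℂ) - ((q⁻¹ : ℂˣ) : ℂ) + algebraMap ℂ ℂ a * σ * ((q⁻¹ : ℂˣ) : ℂ) +
        σ ^ 2 * ((q⁻¹ : ℂˣ) : ℂ) ^ 2 := by
      rw [hq, hqi, hv]; rfl
    rw [← hvq] at hxt hxs
    have hti : ((t⁻¹ : ℂˣ) : ℂ) = s * p⁻¹ := by
      apply mul_left_cancel₀ t.ne_zero
      rw [Units.mul_inv, ← mul_assoc, hprod, mul_inv_cancel₀ hp]
    have hsi : ((s⁻¹ : ℂˣ) : ℂ) = t * p⁻¹ := by
      apply mul_left_cancel₀ s.ne_zero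
      rw [Units.mul_inv, ← mul_assoc, mul_comm (s : ℂ), hprod, mul_inv_cancel₀ hp]
    have hpi : p * p⁻¹ = 1 := mul_inv_cancel₀ hp
    have hcon2 : S.eval v * (p⁻¹ - 1) = 1 := by
      linear_combination p⁻¹ * hcon + (1 - S.eval v) * hpi * 0 + (1 + S.eval v) * hpi * 1 -
        S.eval v * hpi * 0
    have hts := lev_ext hadj t s (by rw [hxt, hxs]) (by
      rw [hlevy (S₀ := ℂ) t v hxt, hlevy (S₀ := ℂ) s v hxs, hti, hsi]
      simp only [Algebra.algebraMap_self, RingHom.id_apply]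
      linear_combination (-(c * ((t : ℂ) - s))) * hcon2)
    subst hts
    apply dualUnit_ne t
    obtain ⟨e, he⟩ : ∃ e : DualNumber ℂ, e = DualNumber.eps := ⟨_, rfl⟩
    have he2 : e ^ 2 = 0 := by rw [he]; exact eps_sq
    have hu1 : ((dualUnit t : (DualNumber ℂ)ˣ) : DualNumber ℂ) =
      algebraMap ℂ _ (t : ℂ) * (1 + e) := by rw [he]; rfl
    have hu1i : (((dualUnit t)⁻¹ : (DualNumber ℂ)ˣ) : DualNumber ℂ) =
      algebraMap ℂ _ ((t⁻¹ : ℂˣ) : ℂ) * (1 - e) := by rw [he]; rfl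
    have hu2 : ((constUnit t : (DualNumber ℂ)ˣ) : DualNumber ℂ) = algebraMap ℂ _ (t : ℂ) := rfl
    have hu2i : (((constUnit t)⁻¹ : (DualNumber ℂ)ˣ) : DualNumber ℂ) =
      algebraMap ℂ _ ((t⁻¹ : ℂˣ) : ℂ) := rfl
    have hu3 : ((constUnit q : (DualNumber ℂ)ˣ) : DualNumber ℂ) = algebraMap ℂ _ (q : ℂ) := rfl
    have hu4 : (((constUnit q)⁻¹ : (DualNumber ℂ)ˣ) : DualNumber ℂ) =
      algebraMap ℂ _ ((q⁻¹ : ℂˣ) : ℂ) := rfl
    have g1 : ((dualUnit t : (DualNumber ℂ)ˣ) : DualNumber ℂ) ^ 2 =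
        algebraMap ℂ _ σ * (dualUnit t : (DualNumber ℂ)ˣ) -
          ((constUnit q : (DualNumber ℂ)ˣ) : DualNumber ℂ) := by
      rw [hu1, hu3, hq, ← hprod, ← hsum, map_add, map_mul]
      linear_combination (algebraMap ℂ (DualNumber ℂ) (t : ℂ)) ^ 2 * he2
    have g2 : ((constUnit t : (DualNumber ℂ)ˣ) : DualNumber ℂ) ^ 2 =
        algebraMap ℂ _ σ * (constUnit t : (DualNumber ℂ)ˣ) -
          ((constUnit q : (DualNumber ℂ)ˣ) : DualNumber ℂ) := by
      rw [hu2, hu3, hq, ← hprod, ← hsum, map_add, map_mul]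
      ring
    have g3 : algebraMap ℂ (DualNumber ℂ) σ *
        (((constUnit q : (DualNumber ℂ)ˣ) : DualNumber ℂ) ^ 2 - 1) =
        ((constUnit q : (DualNumber ℂ)ˣ) : DualNumber ℂ) *
        (algebraMap ℂ (DualNumber ℂ) a - algebraMap ℂ (DualNumber ℂ) a *
          ((constUnit q : (DualNumber ℂ)ˣ) : DualNumber ℂ)) := by
      have h5 := congrArg (algebraMap ℂ (DualNumber ℂ)) hσ2
      simp only [map_mul, map_sub, map_pow, map_one, Algebra.algebraMap_self,
        RingHom.id_apply] at h5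
      exact h5
    have hvq2 : -((constUnit q : (DualNumber ℂ)ˣ) : DualNumber ℂ) -
        (((constUnit q)⁻¹ : (DualNumber ℂ)ˣ) : DualNumber ℂ) +
        algebraMap ℂ (DualNumber ℂ) a * algebraMap ℂ (DualNumber ℂ) σ *
          (((constUnit q)⁻¹ : (DualNumber ℂ)ˣ) : DualNumber ℂ) +
        algebraMap ℂ (DualNumber ℂ) σ ^ 2 *
          (((constUnit q)⁻¹ : (DualNumber ℂ)ˣ) : DualNumber ℂ) ^ 2 =
        algebraMap ℂ (DualNumber ℂ) v := by
      rw [hvq, hu3, hu4]
      simp only [map_mul, map_sub, map_add, map_pow, map_neg, Algebra.algebraMap_self,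
        RingHom.id_apply]
    have f1 := lev_pair_tt (a := a) (b := a) hx _ _ _ g1 g3
    have f2 := lev_pair_tt (a := a) (b := a) hx _ _ _ g2 g3
    rw [hvq2] at f1 f2
    apply lev_ext hadj
    · rw [f1, f2]
    · rw [hlevy _ v f1, hlevy _ v f2, hu1, hu1i, hu2, hu2i]
      have h6 : (t : ℂ) + S.eval v * ((t : ℂ) - ((t⁻¹ : ℂˣ) : ℂ)) = 0 := by
        rw [hti]; linear_combination (-(t : ℂ)) * hcon2
      have h7 := congrArg (algebraMap ℂ (DualNumber ℂ)) h6
      simp only [map_mul, map_sub, map_add, map_zero] at h7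
      linear_combination (algebraMap ℂ (DualNumber ℂ) c * e) * h7
  have hconst : S.natDegree = 0 := by
    by_contra hne
    by_cases ha : a = 0
    · subst ha
      -- the component `p = -1`
      obtain ⟨v, hv⟩ := IsAlgClosed.exists_root (1 + 2 * S) (by
        intro h0
        have h1 : (1 + 2 * S : ℂ[X]).natDegree = 0 := natDegree_eq_of_degree_eq_some h0
        have h2 : (1 + 2 * S : ℂ[X]).natDegree = S.natDegree := by
          rw [← map_ofNat Polynomial.C 2, ← map_one Polynomial.C, add_comm,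
            natDegree_add_C, natDegree_C_mul two_ne_zero]
        omega)
      have hv' : 1 + 2 * S.eval v = 0 := by
        have := hv.eq_zero
        simpa using this
      obtain ⟨σ, hσ⟩ := IsAlgClosed.exists_pow_nat_eq (v - 2) (by norm_num : 0 < 2)
      apply hpair (-1) σ v (by norm_num) (by ring) (by
        norm_num
        rw [hσ]; ring)
      linear_combination hv'
    · obtain ⟨R, hR⟩ : ∃ R, R = X * (S * (1 + S) * (1 + 2 * S) ^ 2) +
          ((2 * S ^ 2 + 2 * S + 1) * (1 + 2 * S) ^ 2 +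
            Polynomial.C (a ^ 2) * (S * (1 + S)) ^ 2) := ⟨_, rfl⟩
      have hRz : ∀ v, R.eval v ≠ 0 := by
        intro v hv
        rw [hR] at hv
        simp only [eval_add, eval_mul, eval_pow, eval_X, eval_C, eval_one, eval_ofNat] at hv
        obtain ⟨s₀, hs₀⟩ : ∃ s₀, s₀ = S.eval v := ⟨_, rfl⟩
        rw [← hs₀] at hv
        have n1 : s₀ ≠ 0 := by
          rintro h; rw [h] at hv; norm_num at hv
        have n2 : 1 + s₀ ≠ 0 := by
          intro h
          have h1 : s₀ = -1 := by linear_combination h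
          rw [h1] at hv; norm_num at hv
        have n3 : 1 + 2 * s₀ ≠ 0 := by
          intro h
          have h1 : s₀ = -1 / 2 := by linear_combination h / 2
          rw [h1] at hv
          apply ha
          have h2 : a ^ 2 = 0 := by linear_combination 16 * hv
          exact pow_eq_zero_iff two_ne_zero |>.mp h2
        have hp : s₀ / (1 + s₀) ≠ 0 := div_ne_zero n1 n2
        have hpp : s₀ / (1 + s₀) + 1 = (1 + 2 * s₀) / (1 + s₀) := by field_simp; ring
        have hpp0 : s₀ / (1 + s₀) + 1 ≠ 0 := by rw [hpp]; exact div_ne_zero n3 n2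
        apply hpair (s₀ / (1 + s₀)) (-(a * s₀) / (1 + 2 * s₀)) v hp
        · rw [hpp]; exact sym_aux2 n2 n3
        · rw [inv_div, sym_aux n1 n2 n3 rfl rfl,
            eq_div_iff (mul_ne_zero (mul_ne_zero n1 n2) (pow_ne_zero _ n3))]
          linear_combination hv
        · rw [← hs₀]
          exact sym_aux3 n2 rfl
      have hRd : R.natDegree = 0 := by
        by_contra hne'
        obtain ⟨r, hr⟩ := IsAlgClosed.exists_root R (by
          intro h0
          exact hne' (natDegree_eq_of_degree_eq_some h0))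
        exact hRz r hr
      have hS0 : S ≠ 0 := by rintro rfl; exact hne natDegree_zero
      have d1 : (1 + S).natDegree = S.natDegree := by
        rw [← map_one Polynomial.C, add_comm, natDegree_add_C]
      have d2 : (1 + 2 * S).natDegree = S.natDegree := by
        rw [← map_ofNat Polynomial.C 2, ← map_one Polynomial.C, add_comm,
          natDegree_add_C, natDegree_C_mul two_ne_zero]
      have m1 : (1 + S) ≠ 0 := by rintro h; rw [h, natDegree_zero] at d1; exact hne d1.symm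
      have m2 : (1 + 2 * S) ≠ 0 := by rintro h; rw [h, natDegree_zero] at d2; exact hne d2.symm
      have d3 : (X * (S * (1 + S) * (1 + 2 * S) ^ 2)).natDegree = 4 * S.natDegree + 1 := by
        rw [natDegree_mul X_ne_zero (mul_ne_zero (mul_ne_zero hS0 m1) (pow_ne_zero _ m2)),
          natDegree_mul (mul_ne_zero hS0 m1) (pow_ne_zero _ m2), natDegree_mul hS0 m1,
          natDegree_pow, d1, d2, natDegree_X]
        ring
      have d4 : ((2 * S ^ 2 + 2 * S + 1) * (1 + 2 * S) ^ 2 +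
            Polynomial.C (a ^ 2) * (S * (1 + S)) ^ 2).natDegree ≤ 4 * S.natDegree := by
        have e1 : (2 * S ^ 2 + 2 * S + 1 : ℂ[X]).natDegree ≤ 2 * S.natDegree := by
          have : (2 * S ^ 2 + 2 * S + 1 : ℂ[X]) = Polynomial.C 2 * (S * (1 + S)) +
              Polynomial.C 1 := by
            rw [map_ofNat, map_one]; ring
          rw [this, natDegree_add_C, natDegree_C_mul two_ne_zero, natDegree_mul hS0 m1, d1]
          omega
        refine (natDegree_add_le _ _).trans (max_le ?_ ?_)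
        · refine natDegree_mul_le.trans ?_
          rw [natDegree_pow, d2]; omega
        · refine (natDegree_C_mul_le _ _).trans ?_
          rw [natDegree_pow, natDegree_mul hS0 m1, d1]; omega
      have e5 : X * (S * (1 + S) * (1 + 2 * S) ^ 2) = R -
          ((2 * S ^ 2 + 2 * S + 1) * (1 + 2 * S) ^ 2 +
            Polynomial.C (a ^ 2) * (S * (1 + S)) ^ 2) := by rw [hR]; ring
      have e6 := natDegree_sub_le R ((2 * S ^ 2 + 2 * S + 1) * (1 + 2 * S) ^ 2 +
            Polynomial.C (a ^ 2) * (S * (1 + S)) ^ 2)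
      rw [← e5, d3, hRd] at e6
      have e7 := e6.trans (max_le (Nat.zero_le _) d4)
      omega
  obtain ⟨s₀, hs₀⟩ := natDegree_eq_zero.mp hconst
  refine cls_of_X1_degree (F := Polynomial.C (1 + s₀) * X ^ 2 + Polynomial.C s₀) (k := 1) hφ
    (by compute_degree!) (by omega) hc0 (H := S₁) ?_
  rw [h0, hy, ← hs₀, aeval_C, ← LaurentPolynomial.C_eq_algebraMap, hu, Nat.cast_one]
  simp only [map_add, map_mul, map_pow, map_one, toLaurent_C, toLaurent_X]
  linear_combination (-(LaurentPolynomial.C c * (1 + LaurentPolynomial.C s₀) * T 1)) * hTT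

end Pool.Agent.Helper34_CStar
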