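import Pool.Agent.Helper34_CStar.Fib40

/-!
# Comparison on the fibres of a polynomial of degree four
-/

namespace Pool.Agent.Helper34_CStar

open Polynomial LaurentPolynomial

variable {α β γ : ℂ}

/-- the coordinate -/
noncomputable def x40 (α β γ : ℂ) : ℂ[T;T⁻¹] := toLaurent (f40 α β γ)

theorem x40_eq (α β γ : ℂ) : x40 α β γ = T 1 ^ 4 + LaurentPolynomial.C α * T 1 ^ 3 +
    LaurentPolynomial.C β * T 1 ^ 2 + LaurentPolynomial.C γ * T 1 := by
  unfold x40 f40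
  simp only [map_add, map_mul, map_pow, toLaurent_C, toLaurent_X]

theorem lev_x40 (t : ℂˣ) : lev t (x40 α β γ) = (f40 α β γ).eval (t : ℂ) := by
  rw [x40, lev_toLaurent, coe_aeval_eq_eval]

theorem lev_aeval40 (t : ℂˣ) (P : ℂ[X]) :
    lev t (aeval (x40 α β γ) P) = P.eval ((f40 α β γ).eval (t : ℂ)) := by
  rw [← lev_x40, Quart.lev_aeval]

theorem x40_ne_zero : x40 α β γ ≠ 0 := by
  intro h
  have h1 : f40 α β γ = 0 := toLaurent_injective (by rw [map_zero]; exact h)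
  have h2 := f40_natDegree α β γ
  rw [h1, natDegree_zero] at h2
  omega

/-- the basis -/
theorem span_poly40 (P : ℂ[X]) : ∃ P₃ P₂ P₁ P₀ : ℂ[X],
    toLaurent P = aeval (x40 α β γ) P₃ * T 1 ^ 3 + aeval (x40 α β γ) P₂ * T 1 ^ 2 +
      aeval (x40 α β γ) P₁ * T 1 + aeval (x40 α β γ) P₀ := by
  obtain ⟨G, hG⟩ := exists_basis_repr (f40_monic α β γ) (by rw [f40_natDegree]; omega)
    P.natDegree P le_rfl
  rw [f40_natDegree] at hG
  simp only [Finset.sum_range_succ, Finset.sum_range_zero, zero_add, pow_zero, mul_one,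
    pow_one] at hG
  refine ⟨G 3, G 2, G 1, G 0, ?_⟩
  rw [x40, aeval_toLaurent, aeval_toLaurent, aeval_toLaurent, aeval_toLaurent, hG]
  simp only [map_add, map_mul, map_pow, toLaurent_X]
  ring

theorem span40 (z : ℂ[T;T⁻¹]) : ∃ (N : ℕ) (P₃ P₂ P₁ P₀ : ℂ[X]),
    x40 α β γ ^ N * z = aeval (x40 α β γ) P₃ * T 1 ^ 3 + aeval (x40 α β γ) P₂ * T 1 ^ 2 +
      aeval (x40 α β γ) P₁ * T 1 + aeval (x40 α β γ) P₀ := by
  obtain ⟨k, Y, hY⟩ := exists_T_pow z
  obtain ⟨P₃, P₂, P₁, P₀, h⟩ := span_poly40 (α := α) (β := β) (γ := γ)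
    ((X ^ 3 + Polynomial.C α * X ^ 2 + Polynomial.C β * X + Polynomial.C γ) ^ k * Y)
  refine ⟨k, P₃, P₂, P₁, P₀, ?_⟩
  rw [← h, map_mul, hY, map_pow]
  have e1 : x40 α β γ = toLaurent (X ^ 3 + Polynomial.C α * X ^ 2 + Polynomial.C β * X +
      Polynomial.C γ) * T 1 := by
    rw [x40, f40]
    simp only [map_add, map_mul, map_pow, toLaurent_C, toLaurent_X]
    ring
  rw [e1, mul_pow, T_pow, mul_one]
  ring

/-- separation of the points of a fibre -/
theorem sep40 {y : ℂ[T;T⁻¹]} (hadj : Algebra.adjoin ℂ {x40 α β γ, y} = ⊤) (t s : ℂˣ)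
    (hts : t ≠ s) (hx : (f40 α β γ).eval (t : ℂ) = (f40 α β γ).eval (s : ℂ)) :
    lev t y ≠ lev s y := fun he => hts (lev_ext hadj t s (by rw [lev_x40, lev_x40, hx]) he)

/-- a function collinear with a primitive function on fibres -/
theorem collinear40 {y w : ℂ[T;T⁻¹]} (hadj : Algebra.adjoin ℂ {x40 α β γ, y} = ⊤)
    (hz : ∀ (v : ℂ) (t₁ t₂ t₃ t₄ : ℂˣ), Fib40 α β γ v t₁ t₂ t₃ t₄ →
      (lev t₁ y - lev t₂ y) * (lev t₃ w - lev t₁ w) =
        (lev t₃ y - lev t₁ y) * (lev t₁ w - lev t₂ w) ∧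
      (lev t₁ y - lev t₂ y) * (lev t₄ w - lev t₁ w) =
        (lev t₄ y - lev t₁ y) * (lev t₁ w - lev t₂ w))
    {Q₃ Q₂ Q₁ Q₀ : ℂ[X]} (hw : w = aeval (x40 α β γ) Q₃ * T 1 ^ 3 +
      aeval (x40 α β γ) Q₂ * T 1 ^ 2 + aeval (x40 α β γ) Q₁ * T 1 + aeval (x40 α β γ) Q₀)
    {r : ℂ} (hr : r ≠ 0) (hQ : Q₃ = Polynomial.C r ∨ Q₂ = Polynomial.C r ∨ Q₁ = Polynomial.C r) :
    ∃ (N : ℕ) (A B : ℂ[X]), x40 α β γ ^ N * y = aeval (x40 α β γ) A * w +
      aeval (x40 α β γ) B := by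
  obtain ⟨N, P₃, P₂, P₁, P₀, h1⟩ := span40 (α := α) (β := β) (γ := γ) y
  obtain ⟨bad, hb, hg⟩ := exists_fib40 α β γ
  have key : ∀ v ∉ bad, ∃ a b : ℂ, b ≠ 0 ∧ a * P₃.eval v = b * Q₃.eval v ∧
      a * P₂.eval v = b * Q₂.eval v ∧ a * P₁.eval v = b * Q₁.eval v := by
    intro v hv
    obtain ⟨t₁', t₂', t₃', t₄', hf'⟩ := hg v hv
    obtain ⟨t₁, rfl⟩ : ∃ t : ℂˣ, (t : ℂ) = t₁' := ⟨Units.mk0 _ hf'.ne₁, rfl⟩
    obtain ⟨t₂, rfl⟩ : ∃ t : ℂˣ, (t : ℂ) = t₂' := ⟨Units.mk0 _ hf'.ne₂, rfl⟩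
    obtain ⟨t₃, rfl⟩ : ∃ t : ℂˣ, (t : ℂ) = t₃' := ⟨Units.mk0 _ hf'.ne₃, rfl⟩
    obtain ⟨t₄, rfl⟩ : ∃ t : ℂˣ, (t : ℂ) = t₄' := ⟨Units.mk0 _ hf'.ne₄, rfl⟩
    have hf := hf'
    have e1 := hf.eval₁
    have e2 := hf.swap₁₂.eval₁
    have e3 := hf.swap₂₃.swap₁₂.eval₁
    have e4 := hf.swap₃₄.swap₂₃.swap₁₂.eval₁
    have hv0 := hf.v_ne
    have hval : ∀ t : ℂˣ, (f40 α β γ).eval (t : ℂ) = v → v ^ N * lev t y =
        P₃.eval v * (t : ℂ) ^ 3 + P₂.eval v * (t : ℂ) ^ 2 + P₁.eval v * t + P₀.eval v := by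
      intro t ht
      have h2 := congrArg (lev t) h1
      simp only [map_add, map_mul, map_pow, lev_aeval40, lev_x40, lev_T, zpow_one, ht] at h2
      exact h2
    have hval' : ∀ t : ℂˣ, (f40 α β γ).eval (t : ℂ) = v → lev t w = Q₃.eval v * (t : ℂ) ^ 3 +
        Q₂.eval v * (t : ℂ) ^ 2 + Q₁.eval v * t + Q₀.eval v := by
      intro t ht
      rw [hw]
      simp only [map_add, map_mul, map_pow, lev_aeval40, lev_T, zpow_one, ht]
    obtain ⟨f3, f4⟩ := hz v t₁ t₂ t₃ t₄ hf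
    have d12 : t₁ ≠ t₂ := fun h => hf.d₁₂ (by rw [h])
    have hne := sep40 hadj t₁ t₂ d12 (by rw [e1, e2])
    obtain ⟨g3, g2, g1, _⟩ := cubic_zero
      (a₃ := (lev t₁ w - lev t₂ w) * P₃.eval v - v ^ N * (lev t₁ y - lev t₂ y) * Q₃.eval v)
      (a₂ := (lev t₁ w - lev t₂ w) * P₂.eval v - v ^ N * (lev t₁ y - lev t₂ y) * Q₂.eval v)
      (a₁ := (lev t₁ w - lev t₂ w) * P₁.eval v - v ^ N * (lev t₁ y - lev t₂ y) * Q₁.eval v)
      (a₀ := (lev t₁ w - lev t₂ w) * (P₀.eval v - v ^ N * lev t₁ y) -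
        v ^ N * (lev t₁ y - lev t₂ y) * (Q₀.eval v - lev t₁ w))
      hf.d₁₂ hf.d₁₃ hf.d₁₄ hf.d₂₃ hf.d₂₄ hf.d₃₄
      (by linear_combination (-(lev t₁ w - lev t₂ w)) * hval _ e1 +
            v ^ N * (lev t₁ y - lev t₂ y) * hval' _ e1)
      (by linear_combination (-(lev t₁ w - lev t₂ w)) * hval _ e2 +
            v ^ N * (lev t₁ y - lev t₂ y) * hval' _ e2)
      (by linear_combination (-(lev t₁ w - lev t₂ w)) * hval _ e3 +
            v ^ N * (lev t₁ y - lev t₂ y) * hval' _ e3 - v ^ N * f3)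
      (by linear_combination (-(lev t₁ w - lev t₂ w)) * hval _ e4 +
            v ^ N * (lev t₁ y - lev t₂ y) * hval' _ e4 - v ^ N * f4)
    exact ⟨lev t₁ w - lev t₂ w, v ^ N * (lev t₁ y - lev t₂ y),
      mul_ne_zero (pow_ne_zero _ hv0) (sub_ne_zero.mpr hne), sub_eq_zero.mp g3,
      sub_eq_zero.mp g2, sub_eq_zero.mp g1⟩
  have cross : ∀ v ∉ bad, P₃.eval v * Q₂.eval v = P₂.eval v * Q₃.eval v ∧
      P₃.eval v * Q₁.eval v = P₁.eval v * Q₃.eval v ∧
      P₂.eval v * Q₁.eval v = P₁.eval v * Q₂.eval v := by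
    intro v hv
    obtain ⟨a, b, hb, g3, g2, g1⟩ := key v hv
    refine ⟨?_, ?_, ?_⟩ <;> apply mul_left_cancel₀ hb
    · linear_combination (-P₃.eval v) * g2 + P₂.eval v * g3
    · linear_combination (-P₃.eval v) * g1 + P₁.eval v * g3
    · linear_combination (-P₂.eval v) * g1 + P₁.eval v * g2
  have c32 : P₃ * Q₂ - P₂ * Q₃ = 0 := zero_of_not_bad hb fun v hv => by
    rw [eval_sub, eval_mul, eval_mul, (cross v hv).1, sub_self]
  have c31 : P₃ * Q₁ - P₁ * Q₃ = 0 := zero_of_not_bad hb fun v hv => by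
    rw [eval_sub, eval_mul, eval_mul, (cross v hv).2.1, sub_self]
  have c21 : P₂ * Q₁ - P₁ * Q₂ = 0 := zero_of_not_bad hb fun v hv => by
    rw [eval_sub, eval_mul, eval_mul, (cross v hv).2.2, sub_self]
  have hrr : (Polynomial.C r⁻¹ : ℂ[X]) * Polynomial.C r = 1 := by
    rw [← map_mul, inv_mul_cancel₀ hr, map_one]
  have fin : ∀ P : ℂ[X], P₃ = P * Q₃ → P₂ = P * Q₂ → P₁ = P * Q₁ →
      ∃ (N : ℕ) (A B : ℂ[X]), x40 α β γ ^ N * y = aeval (x40 α β γ) A * w +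
        aeval (x40 α β γ) B := by
    intro P e3 e2 e1
    refine ⟨N, P, P₀ - P * Q₀, ?_⟩
    rw [h1, hw, e3, e2, e1]
    simp only [map_mul, map_sub]
    ring
  rcases hQ with hQ | hQ | hQ
  · apply fin (Polynomial.C r⁻¹ * P₃)
    · rw [hQ]; linear_combination (-P₃) * hrr
    · rw [hQ] at c32; linear_combination (-P₂) * hrr - Polynomial.C r⁻¹ * c32
    · rw [hQ] at c31; linear_combination (-P₁) * hrr - Polynomial.C r⁻¹ * c31
  · apply fin (Polynomial.C r⁻¹ * P₂)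
    · rw [hQ] at c32; linear_combination (-P₃) * hrr + Polynomial.C r⁻¹ * c32
    · rw [hQ]; linear_combination (-P₂) * hrr
    · rw [hQ] at c21; linear_combination (-P₁) * hrr - Polynomial.C r⁻¹ * c21
  · apply fin (Polynomial.C r⁻¹ * P₁)
    · rw [hQ] at c31; linear_combination (-P₃) * hrr + Polynomial.C r⁻¹ * c31
    · rw [hQ] at c21; linear_combination (-P₂) * hrr + Polynomial.C r⁻¹ * c21
    · rw [hQ]; linear_combination (-P₁) * hrr

/-- the coefficient of a primitive function does not vanish outside zero -/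
theorem coeff_ne40 {y w : ℂ[T;T⁻¹]} (hadj : Algebra.adjoin ℂ {x40 α β γ, y} = ⊤) {N : ℕ}
    {A B : ℂ[X]} (hy : x40 α β γ ^ N * y = aeval (x40 α β γ) A * w + aeval (x40 α β γ) B)
    {v : ℂ} (hv : v ≠ 0) : A.eval v ≠ 0 := by
  intro hA
  obtain ⟨x, hx⟩ : ∃ x, x = x40 α β γ := ⟨_, rfl⟩
  rw [← hx] at hadj hy
  have hdvd : ∀ P : ℂ[X], (x - LaurentPolynomial.C v) ∣ aeval x P -
      LaurentPolynomial.C (P.eval v) := by
    intro P
    obtain ⟨Q, hQ⟩ := X_sub_C_dvd_sub_C_eval (p := P) (a := v)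
    refine ⟨aeval x Q, ?_⟩
    have h1 := congrArg (aeval x) hQ
    simpa only [map_sub, map_mul, aeval_C, aeval_X, ← LaurentPolynomial.C_eq_algebraMap] using h1
  have key : ∀ z ∈ Algebra.adjoin ℂ {x, y}, ∃ c : ℂ,
      (x - LaurentPolynomial.C v) ∣ z - LaurentPolynomial.C c := by
    intro z hz
    induction hz using Algebra.adjoin_induction with
    | mem z hz =>
      rcases hz with rfl | rfl
      · exact ⟨v, dvd_refl _⟩
      · refine ⟨(v ^ N)⁻¹ * B.eval v, ?_⟩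
        have h1 := hdvd A
        rw [hA, map_zero, sub_zero] at h1
        have h2 := hdvd B
        have h3 := hdvd (X ^ N)
        rw [map_pow, aeval_X, eval_pow, eval_X] at h3
        have hvN : (LaurentPolynomial.C (v ^ N)⁻¹ : ℂ[T;T⁻¹]) * LaurentPolynomial.C (v ^ N) =
            1 := by
          rw [← map_mul, inv_mul_cancel₀ (pow_ne_zero _ hv), map_one]
        have h4 := ((dvd_add (h1.mul_right w) h2).sub (h3.mul_right z)).mul_left
          (LaurentPolynomial.C (v ^ N)⁻¹)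
        rw [map_mul]
        convert h4 using 1
        linear_combination (-z) * hvN + LaurentPolynomial.C (v ^ N)⁻¹ * hy
    | algebraMap r =>
      refine ⟨r, ?_⟩
      rw [← LaurentPolynomial.C_eq_algebraMap, sub_self]
      exact dvd_zero _
    | add a b _ _ ha hb =>
      obtain ⟨c, hc⟩ := ha
      obtain ⟨d, hd⟩ := hb
      refine ⟨c + d, ?_⟩
      have h3 := dvd_add hc hd
      rw [map_add]
      convert h3 using 1
      ring
    | mul a b _ _ ha hb =>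
      obtain ⟨c, hc⟩ := ha
      obtain ⟨d, hd⟩ := hb
      refine ⟨c * d, ?_⟩
      have h3 := dvd_add (hc.mul_right b) (hd.mul_left (LaurentPolynomial.C c))
      rw [map_mul]
      convert h3 using 1
      ring
  obtain ⟨r, z, hz⟩ := key (T 1) (by rw [hadj]; trivial)
  obtain ⟨P, hP⟩ : ∃ P, P = f40 α β γ - Polynomial.C v := ⟨_, rfl⟩
  have hPd : P.natDegree = 4 := by rw [hP, natDegree_sub_C, f40_natDegree]
  have hP0 : P ≠ 0 := by rintro h; rw [h, natDegree_zero] at hPd; omega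
  have hroot0 : ∀ t, P.eval t = 0 → t ≠ 0 := by
    rintro t ht rfl
    rw [hP, eval_sub, eval_C, f40_eval] at ht
    apply hv
    linear_combination -ht
  have hroot : ∀ t, P.eval t = 0 → t = r := by
    intro t ht
    have ht0 := hroot0 t ht
    have h1 : lev (Units.mk0 t ht0) x = v := by
      rw [hx, lev_x40, Units.val_mk0]
      rw [hP, eval_sub, eval_C] at ht
      exact sub_eq_zero.mp ht
    have h2 := congrArg (lev (Units.mk0 t ht0)) hz
    rw [map_mul, map_sub, map_sub, h1, lev_C, lev_C, lev_T, zpow_one, Units.val_mk0,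
      Algebra.algebraMap_self, RingHom.id_apply, RingHom.id_apply, sub_self, zero_mul] at h2
    exact sub_eq_zero.mp h2
  obtain ⟨c, b, hc, hPb⟩ := eq_of_root hP0 hroot
  have hb4 : b = 4 := by
    have h1 := congrArg natDegree hPb
    rw [hPd, natDegree_C_mul hc, natDegree_pow, natDegree_X_sub_C, mul_one] at h1
    exact h1.symm
  have hr0 : r ≠ 0 := by
    apply hroot0
    rw [hPb, hb4]; simp
  have h1 := congrArg toLaurent hPb
  rw [hP, map_sub, map_mul, map_pow, map_sub, toLaurent_C, toLaurent_C,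
    toLaurent_C, toLaurent_X, hb4] at h1
  have h2 : toLaurent (f40 α β γ) = x := by rw [hx, x40]
  rw [h2] at h1
  have h3 : (T 1 - LaurentPolynomial.C r) * 1 = (T 1 - LaurentPolynomial.C r) *
      (LaurentPolynomial.C c * (T 1 - LaurentPolynomial.C r) ^ 3 * z) := by
    linear_combination hz + z * h1
  have h4 := mul_left_cancel₀ (sub_ne_zero.mpr (T_ne_C 1 one_ne_zero r)) h3
  have h5 := congrArg (lev (Units.mk0 r hr0)) h4
  simp only [map_mul, map_pow, map_sub, map_one, lev_T, lev_C, zpow_one, Units.val_mk0,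
    Algebra.algebraMap_self, RingHom.id_apply, sub_self] at h5
  rw [zero_pow (by norm_num), mul_zero, zero_mul] at h5
  exact one_ne_zero h5

/-- reduction at two nonzero zeros of the coordinate -/
theorem red40 {y w : ℂ[T;T⁻¹]} {r₁ r₂ : ℂˣ} (h₁ : (f40 α β γ).eval (r₁ : ℂ) = 0)
    (h₂ : (f40 α β γ).eval (r₂ : ℂ) = 0) (hw : lev r₁ w ≠ lev r₂ w) : ∀ (N : ℕ) (A B : ℂ[X]),
    x40 α β γ ^ N * y = aeval (x40 α β γ) A * w + aeval (x40 α β γ) B →
    ∃ A' B' : ℂ[X], y = aeval (x40 α β γ) A' * w + aeval (x40 α β γ) B' := by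
  intro N
  induction N with
  | zero =>
    intro A B h
    exact ⟨A, B, by rw [← h, pow_zero, one_mul]⟩
  | succ N ih =>
    intro A B h
    have e : ∀ r : ℂˣ, (f40 α β γ).eval (r : ℂ) = 0 → A.eval 0 * lev r w + B.eval 0 = 0 := by
      intro r hr
      have h1 := congrArg (lev r) h
      simp only [map_add, map_mul, map_pow, lev_aeval40, lev_x40, hr] at h1
      rw [zero_pow (by omega), zero_mul] at h1
      exact h1.symm
    have e1 := e r₁ h₁
    have e2 := e r₂ h₂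
    have hA : A.eval 0 = 0 := by
      have : A.eval 0 * (lev r₁ w - lev r₂ w) = 0 := by linear_combination e1 - e2
      exact (mul_eq_zero.mp this).resolve_right (sub_ne_zero.mpr hw)
    have hB : B.eval 0 = 0 := by rw [hA, zero_mul, zero_add] at e1; exact e1
    obtain ⟨A', rfl⟩ : X ∣ A := by rw [X_dvd_iff, coeff_zero_eq_eval_zero, hA]
    obtain ⟨B', rfl⟩ : X ∣ B := by rw [X_dvd_iff, coeff_zero_eq_eval_zero, hB]
    apply ih A' B'
    apply mul_left_cancel₀ (x40_ne_zero (α := α) (β := β) (γ := γ))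
    rw [map_mul, map_mul, aeval_X, pow_succ] at h
    linear_combination h

/-- the final form of the second coordinate in the presence of two nonzero zeros -/
theorem final40 {y w : ℂ[T;T⁻¹]} (hadj : Algebra.adjoin ℂ {x40 α β γ, y} = ⊤) {r₁ r₂ : ℂˣ}
    (h₁ : (f40 α β γ).eval (r₁ : ℂ) = 0) (h₂ : (f40 α β γ).eval (r₂ : ℂ) = 0)
    (hw : lev r₁ w ≠ lev r₂ w) {N : ℕ} {A B : ℂ[X]}
    (h : x40 α β γ ^ N * y = aeval (x40 α β γ) A * w + aeval (x40 α β γ) B) :
    ∃ (c : ℂ) (B' : ℂ[X]), c ≠ 0 ∧ y = LaurentPolynomial.C c * w + aeval (x40 α β γ) B' := by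
  obtain ⟨A', B', h'⟩ := red40 h₁ h₂ hw N A B h
  have hA : ∀ v, A'.eval v ≠ 0 := by
    intro v hv
    by_cases hv0 : v = 0
    · subst hv0
      have h12 : r₁ ≠ r₂ := by rintro rfl; exact hw rfl
      apply sep40 hadj r₁ r₂ h12 (by rw [h₁, h₂])
      rw [h']
      simp only [map_add, map_mul, lev_aeval40, h₁, h₂, hv, zero_mul]
    · exact coeff_ne40 (N := 0) hadj (by rw [pow_zero, one_mul]; exact h') hv0 hv
  obtain ⟨c, hc⟩ : ∃ c, A' = Polynomial.C c := by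
    have h1 : A'.natDegree = 0 := by
      by_contra hne
      obtain ⟨r, hr⟩ := IsAlgClosed.exists_root A' (by
        intro h0
        exact hne (natDegree_eq_of_degree_eq_some h0))
      exact hA r hr
    obtain ⟨c, hc⟩ := natDegree_eq_zero.mp h1
    exact ⟨c, hc.symm⟩
  refine ⟨c, B', ?_, by rw [h', hc, aeval_C, LaurentPolynomial.C_eq_algebraMap]⟩
  rintro rfl
  apply hA 0
  rw [hc]; simp

end Pool.Agent.Helper34_CStar
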