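import Pool.Agent.Helper34_CStar.TwoTwo

/-!
# Coplanarity on the fibres of `T ^ 2 + a T + b / T + 1 / T ^ 2`
-/

namespace Pool.Agent.Helper34_CStar

open Polynomial LaurentPolynomial

/-- a fibre of `T ^ 2 + a T + b / T + 1 / T ^ 2` -/
structure Fib22 (a b v t₁ t₂ t₃ t₄ : ℂ) : Prop where
  ne₁ : t₁ ≠ 0
  ne₂ : t₂ ≠ 0
  ne₃ : t₃ ≠ 0
  ne₄ : t₄ ≠ 0
  d₁₂ : t₁ ≠ t₂
  d₁₃ : t₁ ≠ t₃
  d₁₄ : t₁ ≠ t₄
  d₂₃ : t₂ ≠ t₃
  d₂₄ : t₂ ≠ t₄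
  d₃₄ : t₃ ≠ t₄
  s₁ : t₁ + t₂ + t₃ + t₄ = -a
  s₂ : t₁ * t₂ + t₁ * t₃ + t₁ * t₄ + t₂ * t₃ + t₂ * t₄ + t₃ * t₄ = -v
  s₃ : t₁ * t₂ * t₃ + t₁ * t₂ * t₄ + t₁ * t₃ * t₄ + t₂ * t₃ * t₄ = -b
  s₄ : t₁ * t₂ * t₃ * t₄ = 1

variable {a b v t₁ t₂ t₃ t₄ : ℂ}

theorem Four.fib22 (h : Four (quartF a 0 b 1) 2 v t₁ t₂ t₃ t₄) : Fib22 a b v t₁ t₂ t₃ t₄ := by
  have h1 := h.eq
  have h2 : quartF a 0 b 1 - Polynomial.C v * X ^ 2 = Polynomial.C 1 * X ^ 4 +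
      Polynomial.C a * X ^ 3 + Polynomial.C (-v) * X ^ 2 + Polynomial.C b * X +
      Polynomial.C 1 := by
    unfold quartF
    simp only [map_one, map_zero, map_neg]
    ring
  rw [h2] at h1
  obtain ⟨e1, e2, e3, e4⟩ := four_symm h1
  exact ⟨h.ne₁, h.ne₂, h.ne₃, h.ne₄, h.d₁₂, h.d₁₃, h.d₁₄, h.d₂₃, h.d₂₄, h.d₃₄, e1, e2, e3, e4⟩

namespace Fib22

/-- exchange of the first two points -/
theorem swap₁₂ (h : Fib22 a b v t₁ t₂ t₃ t₄) : Fib22 a b v t₂ t₁ t₃ t₄ :=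
  ⟨h.ne₂, h.ne₁, h.ne₃, h.ne₄, h.d₁₂.symm, h.d₂₃, h.d₂₄, h.d₁₃, h.d₁₄, h.d₃₄,
    by linear_combination h.s₁, by linear_combination h.s₂, by linear_combination h.s₃,
    by linear_combination h.s₄⟩

/-- exchange of the second and the third point -/
theorem swap₂₃ (h : Fib22 a b v t₁ t₂ t₃ t₄) : Fib22 a b v t₁ t₃ t₂ t₄ :=
  ⟨h.ne₁, h.ne₃, h.ne₂, h.ne₄, h.d₁₃, h.d₁₂, h.d₁₄, h.d₂₃.symm, h.d₃₄, h.d₂₄,
    by linear_combination h.s₁, by linear_combination h.s₂, by linear_combination h.s₃,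
    by linear_combination h.s₄⟩

/-- exchange of the third and the fourth point -/
theorem swap₃₄ (h : Fib22 a b v t₁ t₂ t₃ t₄) : Fib22 a b v t₁ t₂ t₄ t₃ :=
  ⟨h.ne₁, h.ne₂, h.ne₄, h.ne₃, h.d₁₂, h.d₁₄, h.d₁₃, h.d₂₄, h.d₂₃, h.d₃₄.symm,
    by linear_combination h.s₁, by linear_combination h.s₂, by linear_combination h.s₃,
    by linear_combination h.s₄⟩

theorem root₁ (h : Fib22 a b v t₁ t₂ t₃ t₄) :
    t₁ ^ 4 = -a * t₁ ^ 3 + v * t₁ ^ 2 - b * t₁ - 1 := by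
  linear_combination t₁ ^ 3 * h.s₁ - t₁ ^ 2 * h.s₂ + t₁ * h.s₃ - h.s₄

theorem root₂ (h : Fib22 a b v t₁ t₂ t₃ t₄) :
    t₂ ^ 4 = -a * t₂ ^ 3 + v * t₂ ^ 2 - b * t₂ - 1 := h.swap₁₂.root₁

theorem root₃ (h : Fib22 a b v t₁ t₂ t₃ t₄) :
    t₃ ^ 4 = -a * t₃ ^ 3 + v * t₃ ^ 2 - b * t₃ - 1 := h.swap₂₃.root₂

theorem root₄ (h : Fib22 a b v t₁ t₂ t₃ t₄) :
    t₄ ^ 4 = -a * t₄ ^ 3 + v * t₄ ^ 2 - b * t₄ - 1 := h.swap₃₄.root₃

/-- the fibre of the inverses -/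
theorem inv (h : Fib22 a b v t₁ t₂ t₃ t₄) : Fib22 b a v t₁⁻¹ t₂⁻¹ t₃⁻¹ t₄⁻¹ := by
  have h1 := mul_inv_cancel₀ h.ne₁
  have h2 := mul_inv_cancel₀ h.ne₂
  have h3 := mul_inv_cancel₀ h.ne₃
  have h4 := mul_inv_cancel₀ h.ne₄
  have hs := h.s₄
  have i1 : t₁⁻¹ = t₂ * t₃ * t₄ := by
    apply mul_left_cancel₀ h.ne₁; rw [h1]; linear_combination -hs
  have i2 : t₂⁻¹ = t₁ * t₃ * t₄ := by
    apply mul_left_cancel₀ h.ne₂; rw [h2]; linear_combination -hs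
  have i3 : t₃⁻¹ = t₁ * t₂ * t₄ := by
    apply mul_left_cancel₀ h.ne₃; rw [h3]; linear_combination -hs
  have i4 : t₄⁻¹ = t₁ * t₂ * t₃ := by
    apply mul_left_cancel₀ h.ne₄; rw [h4]; linear_combination -hs
  refine ⟨inv_ne_zero h.ne₁, inv_ne_zero h.ne₂, inv_ne_zero h.ne₃, inv_ne_zero h.ne₄,
    fun e => h.d₁₂ (inv_injective e), fun e => h.d₁₃ (inv_injective e),
    fun e => h.d₁₄ (inv_injective e), fun e => h.d₂₃ (inv_injective e),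
    fun e => h.d₂₄ (inv_injective e), fun e => h.d₃₄ (inv_injective e), ?_, ?_, ?_, ?_⟩
  · rw [i1, i2, i3, i4]; linear_combination h.s₃
  · rw [i1, i2, i3, i4]
    linear_combination h.s₂ + (t₁ * t₂ + t₁ * t₃ + t₁ * t₄ + t₂ * t₃ + t₂ * t₄ + t₃ * t₄) * hs
  · rw [i1, i2, i3, i4]
    linear_combination h.s₁ + (t₁ + t₂ + t₃ + t₄) * (t₁ * t₂ * t₃ * t₄ + 1) * hs
  · rw [i1, i2, i3, i4]
    linear_combination ((t₁ * t₂ * t₃ * t₄) ^ 2 + t₁ * t₂ * t₃ * t₄ + 1) * hs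

end Fib22

theorem exists_fib22 (a b : ℂ) : ∃ bad : Set ℂ, bad.Finite ∧ ∀ v ∉ bad, ∃ t₁ t₂ t₃ t₄,
    Fib22 a b v t₁ t₂ t₃ t₄ := by
  obtain ⟨bad, hb, hg⟩ := exists_four (quartF_monic a 0 b 1) (quartF_natDegree _ _ _ _)
    (k := 2) (by omega) (Or.inr (by rw [quartF_coeff_zero]; exact one_ne_zero))
  refine ⟨bad, hb, ?_⟩
  intro v hv
  obtain ⟨t₁, t₂, t₃, t₄, hf⟩ := hg v hv
  exact ⟨t₁, t₂, t₃, t₄, hf.fib22⟩

/-- the coplanarity determinant -/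
def V3 (t₁ t₂ t₃ t₄ τ₁ τ₂ τ₃ τ₄ : ℂ) : ℂ :=
  (t₁ - t₃) * (t₁ - t₄) * (t₃ - t₄) * τ₂ - (t₁ - t₂) * (t₁ - t₄) * (t₂ - t₄) * τ₃ +
    (t₁ - t₂) * (t₁ - t₃) * (t₂ - t₃) * τ₄ - (t₂ - t₃) * (t₂ - t₄) * (t₃ - t₄) * τ₁

/-- the Vandermonde determinant -/
def Vd (t₁ t₂ t₃ t₄ : ℂ) : ℂ :=
  (t₁ - t₂) * (t₁ - t₃) * (t₁ - t₄) * (t₂ - t₃) * (t₂ - t₄) * (t₃ - t₄)

/-- the coefficient of `T ^ 3` in `T ^ k` -/
noncomputable def C22 (a b : ℂ) : ℕ → ℂ[X]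
  | 0 => 0
  | 1 => 0
  | 2 => 0
  | 3 => 1
  | (n + 4) => -Polynomial.C a * C22 a b (n + 3) + X * C22 a b (n + 2) -
      Polynomial.C b * C22 a b (n + 1) - C22 a b n

theorem C22_spec (h : Fib22 a b v t₁ t₂ t₃ t₄) : ∀ k : ℕ,
    V3 t₁ t₂ t₃ t₄ (t₁ ^ k) (t₂ ^ k) (t₃ ^ k) (t₄ ^ k) =
      -Vd t₁ t₂ t₃ t₄ * (C22 a b k).eval v
  | 0 => by simp only [C22, V3, eval_zero, pow_zero]; ring
  | 1 => by simp only [C22, V3, eval_zero, pow_one]; ring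
  | 2 => by simp only [C22, V3, eval_zero]; ring
  | 3 => by simp only [C22, V3, Vd, eval_one]; ring
  | (n + 4) => by
    have h0 := C22_spec h n
    have h1 := C22_spec h (n + 1)
    have h2 := C22_spec h (n + 2)
    have h3 := C22_spec h (n + 3)
    have e : (C22 a b (n + 4)).eval v = -a * (C22 a b (n + 3)).eval v +
        v * (C22 a b (n + 2)).eval v - b * (C22 a b (n + 1)).eval v - (C22 a b n).eval v := by
      rw [C22]; simp only [eval_add, eval_sub, eval_mul, eval_neg, eval_C, eval_X]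
    rw [e]
    unfold V3 at h0 h1 h2 h3 ⊢
    linear_combination (-a) * h3 + v * h2 - b * h1 - h0 +
      (t₁ - t₃) * (t₁ - t₄) * (t₃ - t₄) * t₂ ^ n * h.root₂ -
      (t₁ - t₂) * (t₁ - t₄) * (t₂ - t₄) * t₃ ^ n * h.root₃ +
      (t₁ - t₂) * (t₁ - t₃) * (t₂ - t₃) * t₄ ^ n * h.root₄ -
      (t₂ - t₃) * (t₂ - t₄) * (t₃ - t₄) * t₁ ^ n * h.root₁

theorem C22_natDegree (a b : ℂ) : ∀ k : ℕ, (C22 a b k).natDegree ≤ (k - 3) / 2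
  | 0 => by simp [C22]
  | 1 => by simp [C22]
  | 2 => by simp [C22]
  | 3 => by simp [C22]
  | (n + 4) => by
    have h0 := C22_natDegree a b n
    have h1 := C22_natDegree a b (n + 1)
    have h2 := C22_natDegree a b (n + 2)
    have h3 := C22_natDegree a b (n + 3)
    have e : C22 a b (n + 4) = -Polynomial.C a * C22 a b (n + 3) + X * C22 a b (n + 2) -
      Polynomial.C b * C22 a b (n + 1) - C22 a b n := rfl
    rw [e]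
    have hx : n = 0 ∨ (X * C22 a b (n + 2)).natDegree ≤ (n + 4 - 3) / 2 := by
      rcases Nat.eq_zero_or_pos n with hn | hn
      · exact Or.inl hn
      · right
        refine natDegree_mul_le.trans ?_
        rw [natDegree_X]; omega
    have hx' : (X * C22 a b (n + 2)).natDegree ≤ (n + 4 - 3) / 2 := by
      rcases hx with rfl | hx
      · simp [C22]
      · exact hx
    refine (natDegree_sub_le _ _).trans (max_le ((natDegree_sub_le _ _).trans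
      (max_le ((natDegree_add_le _ _).trans (max_le ?_ hx')) ?_)) ?_)
    · rw [← map_neg]
      exact (natDegree_C_mul_le _ _).trans (by omega)
    · exact (natDegree_C_mul_le _ _).trans (by omega)
    · omega

theorem C22_lead (a b : ℂ) : ∀ m : ℕ, (C22 a b (2 * m + 3)).coeff m = 1 ∧
    (C22 a b (2 * m + 4)).coeff m = -((m : ℂ) + 1) * a
  | 0 => by simp [C22]
  | (m + 1) => by
    obtain ⟨h1, h2⟩ := C22_lead a b m
    have e1 : C22 a b (2 * (m + 1) + 3) = -Polynomial.C a * C22 a b (2 * m + 4) +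
        X * C22 a b (2 * m + 3) - Polynomial.C b * C22 a b (2 * m + 2) -
        C22 a b (2 * m + 1) := rfl
    have e2 : C22 a b (2 * (m + 1) + 4) = -Polynomial.C a * C22 a b (2 * (m + 1) + 3) +
        X * C22 a b (2 * m + 4) - Polynomial.C b * C22 a b (2 * m + 3) -
        C22 a b (2 * m + 2) := rfl
    have z : ∀ i ≤ 2 * m + 4, (C22 a b i).coeff (m + 1) = 0 := by
      intro i hi
      apply coeff_eq_zero_of_natDegree_lt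
      have := C22_natDegree a b i
      omega
    have c1 : (C22 a b (2 * (m + 1) + 3)).coeff (m + 1) = 1 := by
      rw [e1, coeff_sub, coeff_sub, coeff_add, neg_mul, coeff_neg, coeff_C_mul, coeff_C_mul,
        coeff_X_mul, h1, z _ (by omega), z _ (by omega), z _ (by omega)]
      ring
    refine ⟨c1, ?_⟩
    rw [e2, coeff_sub, coeff_sub, coeff_add, neg_mul, coeff_neg, coeff_C_mul, coeff_C_mul,
      coeff_X_mul, h2, c1, z _ (by omega), z _ (by omega)]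
    push_cast
    ring

theorem C22_lead_zero (b : ℂ) : ∀ m : ℕ, (C22 0 b (2 * m + 6)).coeff m = -((m : ℂ) + 1) * b
  | 0 => by simp [C22]
  | (m + 1) => by
    have h1 := C22_lead_zero b m
    have e1 : C22 0 b (2 * (m + 1) + 6) = -Polynomial.C 0 * C22 0 b (2 * m + 7) +
        X * C22 0 b (2 * m + 6) - Polynomial.C b * C22 0 b (2 * (m + 1) + 3) -
        C22 0 b (2 * m + 4) := rfl
    have h2 := (C22_lead 0 b (m + 1)).1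
    have h3 : (C22 0 b (2 * m + 4)).coeff (m + 1) = 0 := by
      apply coeff_eq_zero_of_natDegree_lt
      have := C22_natDegree 0 b (2 * m + 4)
      omega
    rw [e1, coeff_sub, coeff_sub, coeff_add, map_zero, neg_zero, zero_mul, coeff_zero, coeff_C_mul,
      coeff_X_mul, h1, h2, h3]
    push_cast
    ring

theorem C22_ne_zero (hab : a ^ 2 ≠ b ^ 2) {k : ℕ} (h : 3 ≤ k) (h4 : a ≠ 0 ∨ k ≠ 4) :
    C22 a b k ≠ 0 := by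
  intro h0
  have hcast : ∀ m : ℕ, ((m : ℂ) + 1) ≠ 0 := fun m => by exact_mod_cast Nat.succ_ne_zero m
  obtain ⟨m, rfl | rfl⟩ : ∃ m, k = 2 * m + 3 ∨ k = 2 * m + 4 := ⟨(k - 3) / 2, by omega⟩
  · have h1 := (C22_lead a b m).1
    rw [h0, coeff_zero] at h1
    exact zero_ne_one h1
  · by_cases ha : a = 0
    · subst ha
      have hb : b ≠ 0 := by rintro rfl; exact hab rfl
      obtain ⟨m, rfl⟩ : ∃ i, m = i + 1 := ⟨m - 1, by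
        have := h4.resolve_left (by simp)
        omega⟩
      have h1 := C22_lead_zero b m
      rw [show 2 * m + 6 = 2 * (m + 1) + 4 by ring, h0, coeff_zero] at h1
      exact mul_ne_zero (neg_ne_zero.mpr (hcast m)) hb h1.symm
    · have h1 := (C22_lead a b m).2
      rw [h0, coeff_zero] at h1
      exact mul_ne_zero (neg_ne_zero.mpr (hcast m)) ha h1.symm

/-- coplanarity of `T ^ k` with `1, T, T ^ 2` on fibres -/
def Copl (a b : ℂ) (k : ℤ) : Prop :=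
  ∀ v t₁ t₂ t₃ t₄ : ℂ, Fib22 a b v t₁ t₂ t₃ t₄ →
    V3 t₁ t₂ t₃ t₄ (t₁ ^ k) (t₂ ^ k) (t₃ ^ k) (t₄ ^ k) = 0

theorem Fib22.Vd_ne_zero (h : Fib22 a b v t₁ t₂ t₃ t₄) : Vd t₁ t₂ t₃ t₄ ≠ 0 := by
  unfold Vd
  have s12 := sub_ne_zero.mpr h.d₁₂
  have s13 := sub_ne_zero.mpr h.d₁₃
  have s14 := sub_ne_zero.mpr h.d₁₄
  have s23 := sub_ne_zero.mpr h.d₂₃
  have s24 := sub_ne_zero.mpr h.d₂₄
  have s34 := sub_ne_zero.mpr h.d₃₄
  positivity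

theorem copl_nat (hab : a ^ 2 ≠ b ^ 2) {k : ℕ} (h : Copl a b k) : k ≤ 2 ∨ (k = 4 ∧ a = 0) := by
  by_contra hcon
  push Not at hcon
  apply C22_ne_zero hab (k := k) (by omega) (by
    by_cases ha : a = 0
    · right; intro h4; exact hcon.2 h4 ha
    · exact Or.inl ha)
  obtain ⟨bad, hb, hg⟩ := exists_fib22 a b
  apply zero_of_not_bad hb
  intro v hv
  obtain ⟨t₁, t₂, t₃, t₄, hf⟩ := hg v hv
  have h1 := h v t₁ t₂ t₃ t₄ hf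
  simp only [zpow_natCast] at h1
  rw [C22_spec hf] at h1
  exact (mul_eq_zero.mp h1).resolve_left (neg_ne_zero.mpr hf.Vd_ne_zero)

theorem copl_inv {k : ℤ} (h : Copl a b k) : Copl b a (2 - k) := by
  intro v t₁ t₂ t₃ t₄ hf
  have h1 := h v _ _ _ _ hf.inv
  have e : ∀ t : ℂ, t ≠ 0 → t ^ (2 - k) = t ^ 2 * t⁻¹ ^ k := by
    intro t ht
    rw [zpow_sub₀ ht, inv_zpow, zpow_ofNat, div_eq_mul_inv]
  rw [e _ hf.ne₁, e _ hf.ne₂, e _ hf.ne₃, e _ hf.ne₄]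
  have i1 := mul_inv_cancel₀ hf.ne₁
  have i2 := mul_inv_cancel₀ hf.ne₂
  have i3 := mul_inv_cancel₀ hf.ne₃
  have i4 := mul_inv_cancel₀ hf.ne₄
  obtain ⟨τ₁, hτ₁⟩ : ∃ τ, τ = t₁⁻¹ ^ k := ⟨_, rfl⟩
  obtain ⟨τ₂, hτ₂⟩ : ∃ τ, τ = t₂⁻¹ ^ k := ⟨_, rfl⟩
  obtain ⟨τ₃, hτ₃⟩ : ∃ τ, τ = t₃⁻¹ ^ k := ⟨_, rfl⟩
  obtain ⟨τ₄, hτ₄⟩ : ∃ τ, τ = t₄⁻¹ ^ k := ⟨_, rfl⟩
  rw [← hτ₁, ← hτ₂, ← hτ₃, ← hτ₄] at h1 ⊢
  have hs := hf.s₄
  have j1 : t₁⁻¹ = t₂ * t₃ * t₄ := by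
    apply mul_left_cancel₀ hf.ne₁; rw [i1]; linear_combination -hs
  have j2 : t₂⁻¹ = t₁ * t₃ * t₄ := by
    apply mul_left_cancel₀ hf.ne₂; rw [i2]; linear_combination -hs
  have j3 : t₃⁻¹ = t₁ * t₂ * t₄ := by
    apply mul_left_cancel₀ hf.ne₃; rw [i3]; linear_combination -hs
  have j4 : t₄⁻¹ = t₁ * t₂ * t₃ := by
    apply mul_left_cancel₀ hf.ne₄; rw [i4]; linear_combination -hs
  rw [j1, j2, j3, j4] at h1
  unfold V3 at h1 ⊢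
  obtain ⟨P, hP⟩ : ∃ P, P = t₁ * t₂ * t₃ * t₄ := ⟨_, rfl⟩
  have e1 : (t₂ * t₃ * t₄ - t₁ * t₂ * t₄) * (t₂ * t₃ * t₄ - t₁ * t₂ * t₃) *
      (t₁ * t₂ * t₄ - t₁ * t₂ * t₃) = -(P * ((t₁ - t₃) * (t₁ - t₄) * (t₃ - t₄) * t₂ ^ 2)) := by
    rw [hP]; ring
  have e2 : (t₂ * t₃ * t₄ - t₁ * t₃ * t₄) * (t₂ * t₃ * t₄ - t₁ * t₂ * t₃) *
      (t₁ * t₃ * t₄ - t₁ * t₂ * t₃) = -(P * ((t₁ - t₂) * (t₁ - t₄) * (t₂ - t₄) * t₃ ^ 2)) := by
    rw [hP]; ring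
  have e3 : (t₂ * t₃ * t₄ - t₁ * t₃ * t₄) * (t₂ * t₃ * t₄ - t₁ * t₂ * t₄) *
      (t₁ * t₃ * t₄ - t₁ * t₂ * t₄) = -(P * ((t₁ - t₂) * (t₁ - t₃) * (t₂ - t₃) * t₄ ^ 2)) := by
    rw [hP]; ring
  have e4 : (t₁ * t₃ * t₄ - t₁ * t₂ * t₄) * (t₁ * t₃ * t₄ - t₁ * t₂ * t₃) *
      (t₁ * t₂ * t₄ - t₁ * t₂ * t₃) = -(P * ((t₂ - t₃) * (t₂ - t₄) * (t₃ - t₄) * t₁ ^ 2)) := by
    rw [hP]; ring
  rw [e1, e2, e3, e4, hP, hs] at h1
  linear_combination -h1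

theorem copl_cases (hab : a ^ 2 ≠ b ^ 2) {k : ℤ} (h : Copl a b k) :
    k = 0 ∨ k = 1 ∨ k = 2 ∨ (k = 4 ∧ a = 0) ∨ (k = -2 ∧ b = 0) := by
  rcases le_or_gt 0 k with hk | hk
  · obtain ⟨n, rfl⟩ := Int.eq_ofNat_of_zero_le hk
    rcases copl_nat hab h with h1 | ⟨h1, h2⟩
    · omega
    · right; right; right; left
      exact ⟨by omega, h2⟩
  · have h' := copl_inv h
    obtain ⟨n, hn⟩ := Int.eq_ofNat_of_zero_le (by omega : 0 ≤ 2 - k)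
    rw [hn] at h'
    rcases copl_nat (fun e => hab e.symm) h' with h1 | ⟨h1, h2⟩
    · omega
    · right; right; right; right
      exact ⟨by omega, h2⟩

end Pool.Agent.Helper34_CStar
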