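import Pool.Agent.Helper34_CStar.Biv

/-!
# Decomposition of polynomials over the subring generated by a monic polynomial
-/

namespace Pool.Agent.Helper34_CStar

open Polynomial

/-- every polynomial is a combination of `1, X, .., X ^ (d - 1)` with coefficients polynomials
in `f` -/
theorem exists_basis_repr {f : ℂ[X]} (hf : f.Monic) (hd : f.natDegree ≠ 0) :
    ∀ (n : ℕ) (g : ℂ[X]), g.natDegree ≤ n → ∃ G : ℕ → ℂ[X],
      g = ∑ i ∈ Finset.range f.natDegree, (G i).comp f * X ^ i := by
  intro n
  induction n using Nat.strong_induction_on with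
  | _ n ih =>
    intro g hg
    by_cases hlt : g.natDegree < f.natDegree
    · refine ⟨fun i => C (g.coeff i), ?_⟩
      simp only [C_comp]
      exact as_sum_range_C_mul_X_pow' g hlt
    · have hdiv := modByMonic_add_div g f
      have hq : (g /ₘ f).natDegree < n := by
        rw [natDegree_divByMonic g hf]
        omega
      obtain ⟨G, hG⟩ := ih _ hq (g /ₘ f) le_rfl
      have hr : (g %ₘ f).natDegree < f.natDegree := by
        apply natDegree_modByMonic_lt _ hf
        rintro rfl
        simp at hd
      refine ⟨fun i => C ((g %ₘ f).coeff i) + X * G i, ?_⟩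
      conv_lhs => rw [← hdiv, as_sum_range_C_mul_X_pow' (g %ₘ f) hr]
      conv_lhs => rw [hG]
      rw [Finset.mul_sum, ← Finset.sum_add_distrib]
      apply Finset.sum_congr rfl
      intro i _
      simp only [add_comp, mul_comp, C_comp, X_comp]
      ring

/-- values of `f` over which the fibre is reduced -/
theorem infinite_good {f : ℂ[X]} (hd : f.natDegree ≠ 0) :
    {x : ℂ | (f - C x).roots.Nodup}.Infinite := by
  classical
  have hfin : {x : ℂ | ¬ (f - C x).roots.Nodup}.Finite := by
    apply Set.Finite.subset ((f.derivative.roots.toFinset.image fun c => f.eval c).finite_toSet)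
    intro x hx
    rw [Set.mem_ofPred_eq, Multiset.nodup_iff_count_le_one] at hx
    push Not at hx
    obtain ⟨a, ha⟩ := hx
    rw [count_roots] at ha
    have hne : f - C x ≠ 0 := by
      intro h
      have : (f - C x).natDegree = f.natDegree := natDegree_sub_C
      rw [h] at this
      simp at this
      exact hd this.symm
    have h1 := (one_lt_rootMultiplicity_iff_isRoot hne).mp ha
    obtain ⟨h2, h3⟩ := h1
    simp only [Finset.coe_image, Set.mem_image, Finset.mem_coe, Multiset.mem_toFinset]
    refine ⟨a, ?_, ?_⟩
    · rw [mem_roots]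
      · simpa using h3
      · intro h
        exact hd (derivative_eq_zero.mp h)
    · rw [IsRoot.def, eval_sub, eval_C, sub_eq_zero] at h2
      exact h2
  have : {x : ℂ | (f - C x).roots.Nodup} = {x : ℂ | ¬ (f - C x).roots.Nodup}ᶜ := by
    ext x; simp
  rw [this]
  exact hfin.infinite_compl

/-- values of `f` over which the fibre is reduced, except one -/
theorem infinite_good' {f : ℂ[X]} (hd : f.natDegree ≠ 0) (x₀ : ℂ) :
    {x : ℂ | (f - C x).roots.Nodup ∧ x ≠ x₀}.Infinite := by
  have h1 := (infinite_good hd).sdiff (Set.finite_singleton x₀)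
  refine h1.mono ?_
  intro x hx
  exact ⟨hx.1, fun h => hx.2 (by simp [h])⟩

/-- the number of points in a fibre -/
theorem card_fibre (f : ℂ[X]) (x : ℂ) : Multiset.card (f - C x).roots = f.natDegree := by
  rw [← natDegree_sub_C (p := f) (a := x)]
  exact (IsAlgClosed.splits (f - C x)).natDegree_eq_card_roots.symm

/-- A polynomial of degree less than the number of points of a fibre vanishing there is zero -/
theorem eq_zero_of_fibre {f : ℂ[X]} (hd : f.natDegree ≠ 0) {x : ℂ}
    (hx : (f - C x).roots.Nodup) {g : ℂ[X]} (hg : g.natDegree < f.natDegree)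
    (h : ∀ t : ℂ, f.eval t = x → g.eval t = 0) : g = 0 := by
  classical
  by_contra hne
  have hfx : f - C x ≠ 0 := by
    intro h
    have : (f - C x).natDegree = f.natDegree := natDegree_sub_C
    rw [h] at this
    simp at this
    exact hd this.symm
  have hsub : (f - C x).roots.toFinset ⊆ g.roots.toFinset := by
    intro t ht
    rw [Multiset.mem_toFinset, mem_roots hfx, IsRoot.def, eval_sub, eval_C, sub_eq_zero] at ht
    rw [Multiset.mem_toFinset, mem_roots hne]
    exact h t ht
  have h1 := Finset.card_le_card hsub
  rw [Multiset.toFinset_card_of_nodup hx, card_fibre] at h1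
  have h2 := Multiset.toFinset_card_le g.roots
  have h3 := g.card_roots'
  omega

/-- **Decomposition.** If the points `(t, t ^ k)`, for `t` in a fibre of `f`, are collinear then
`X ^ k` is a combination of `1` and `X` over the polynomials in `f`. -/
theorem exists_decomp {f : ℂ[X]} (hf : f.Monic) (hd : 2 ≤ f.natDegree) (g : ℂ[X]) (x₀ : ℂ)
    (h : ∀ a b c : ℂ, f.eval a = f.eval b → f.eval b = f.eval c → f.eval a ≠ x₀ →
      (a - b) * g.eval c + (b - c) * g.eval a + (c - a) * g.eval b = 0) :
    ∃ A B : ℂ[X], g = A.comp f * X + B.comp f := by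
  classical
  obtain ⟨G, hG⟩ := exists_basis_repr hf (by omega) _ g le_rfl
  have hz : ∀ i, 2 ≤ i → i < f.natDegree → G i = 0 := by
    intro i hi hid
    apply eq_zero_of_infinite_isRoot
    apply (infinite_good' (f := f) (by omega) x₀).mono
    intro x hx
    rw [Set.mem_ofPred_eq] at hx ⊢
    obtain ⟨hx, hxx₀⟩ := hx
    -- two points of the fibre
    have hcard := card_fibre f x
    have hfx : f - C x ≠ 0 := by
      intro h
      have : (f - C x).natDegree = f.natDegree := natDegree_sub_C
      rw [h] at this
      simp at this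
      omega
    have hmem : ∀ t, t ∈ (f - C x).roots ↔ f.eval t = x := by
      intro t
      rw [mem_roots hfx, IsRoot.def, eval_sub, eval_C, sub_eq_zero]
    have hfc : 1 < (f - C x).roots.toFinset.card := by
      rw [Multiset.toFinset_card_of_nodup hx, hcard]; omega
    obtain ⟨a, ha, b, hb, hab⟩ := Finset.one_lt_card.mp hfc
    rw [Multiset.mem_toFinset, hmem] at ha hb
    -- the interpolating polynomial
    set Q : ℂ[X] := ∑ j ∈ Finset.range f.natDegree, C ((G j).eval x) * X ^ j with hQ
    have hQe : ∀ t, f.eval t = x → Q.eval t = g.eval t := by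
      intro t ht
      conv_rhs => rw [hG]
      rw [hQ, eval_finsetSum, eval_finsetSum]
      apply Finset.sum_congr rfl
      intro j _
      simp [eval_comp, ht]
    have hQd : Q.natDegree < f.natDegree := by
      have : Q.degree < (f.natDegree : WithBot ℕ) := by
        rw [hQ]
        apply lt_of_le_of_lt (degree_sum_le _ _)
        rw [Finset.sup_lt_iff (WithBot.bot_lt_coe _)]
        intro l hl
        apply lt_of_le_of_lt (degree_C_mul_X_pow_le _ _)
        exact_mod_cast Finset.mem_range.mp hl
      by_cases hQ0 : Q = 0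
      · rw [hQ0]; simp; omega
      · rwa [← natDegree_lt_iff_degree_lt hQ0] at this
    have hzero : C (a - b) * Q + ((C b - X) * C (g.eval a) + (X - C a) * C (g.eval b)) = 0 := by
      apply eq_zero_of_fibre (by omega) hx
      · have h1 : (C (a - b) * Q).natDegree < f.natDegree :=
          lt_of_le_of_lt (natDegree_C_mul_le _ _) hQd
        have h2 : ((C b - X) * C (g.eval a) + (X - C a) * C (g.eval b)).natDegree ≤ 1 := by
          compute_degree
        calc _ ≤ max (C (a - b) * Q).natDegree
              ((C b - X) * C (g.eval a) + (X - C a) * C (g.eval b)).natDegree :=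
              natDegree_add_le _ _
          _ < f.natDegree := by rw [max_lt_iff]; omega
      · intro t ht
        simp only [eval_add, eval_mul, eval_sub, eval_C, eval_X]
        rw [hQe t ht]
        have := h a b t (by rw [ha, hb]) (by rw [hb, ht]) (by rw [ha]; exact hxx₀)
        linear_combination this
    -- the coefficient
    have hco := congrArg (fun q : ℂ[X] => q.coeff i) hzero
    have hQi : Q.coeff i = (G i).eval x := by
      rw [hQ, finsetSum_coeff]
      simp only [coeff_C_mul, coeff_X_pow]
      rw [Finset.sum_eq_single i]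
      · simp
      · intro b _ hb; simp [Ne.symm hb]
      · intro h; exact absurd (Finset.mem_range.mpr hid) h
    have hlin : ((C b - X) * C (g.eval a) + (X - C a) * C (g.eval b)).coeff i = 0 := by
      apply coeff_eq_zero_of_natDegree_lt
      have h2 : ((C b - X) * C (g.eval a) + (X - C a) * C (g.eval b)).natDegree ≤ 1 := by
        compute_degree
      omega
    simp only [coeff_add, coeff_C_mul, coeff_zero] at hco hlin
    rw [hlin, add_zero, hQi] at hco
    exact (mul_eq_zero.mp hco).resolve_left (sub_ne_zero.mpr hab)
  refine ⟨G 1, G 0, ?_⟩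
  conv_lhs => rw [hG]
  rw [← Finset.sum_subset (Finset.range_mono hd)]
  · rw [Finset.sum_range_succ, Finset.sum_range_succ, Finset.sum_range_zero]
    simp only [pow_zero, pow_one]
    ring
  · intro i hi hi2
    rw [Finset.mem_range] at hi
    rw [Finset.mem_range, not_lt] at hi2
    rw [hz i hi2 hi]
    simp

/-- A polynomial `W` with `W(t) / t ^ k` constant on the fibres of `f`. -/
theorem exists_quotient {f : ℂ[X]} (hf : f.Monic) (hd : 2 ≤ f.natDegree) {A B : ℂ[X]} {k : ℕ}
    (hcop : IsCoprime A B) (h : X ^ k = A.comp f * X + B.comp f) (W : ℂ[X])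
    (hW : ∀ t s : ℂ, f.eval t = f.eval s → s ^ k * W.eval t = t ^ k * W.eval s) :
    ∃ G : ℂ[X], W = X ^ k * G.comp f := by
  classical
  have hnz : ∀ a, f.eval a ≠ f.eval 0 → a ≠ 0 := by
    rintro a ha rfl
    exact ha rfl
  have hht : ∀ t : ℂ, t ^ k = A.eval (f.eval t) * t + B.eval (f.eval t) := by
    intro t
    have h1 := congrArg (eval t) h
    simpa using h1
  obtain ⟨W₁, W₀, hW10⟩ := exists_decomp hf hd W (f.eval 0) (by
    intro a b c hab hbc ha0
    have ha := hnz a ha0
    have h1 := hW a b hab
    have h2 := hW a c (hab.trans hbc)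
    have h3 := hht a
    have h4 := hht b
    have h5 := hht c
    rw [← hab] at h4
    rw [← hbc, ← hab] at h5
    apply mul_left_cancel₀ (pow_ne_zero k ha)
    rw [mul_zero]
    set x := f.eval a
    linear_combination -(a - b) * h2 - (c - a) * h1 + W.eval a * (a - b) * h5 +
      W.eval a * (b - c) * h3 + W.eval a * (c - a) * h4)
  have hWt : ∀ t : ℂ, W.eval t = W₁.eval (f.eval t) * t + W₀.eval (f.eval t) := by
    intro t
    have h1 := congrArg (eval t) hW10
    simpa using h1
  have hprod : W₁ * B = W₀ * A := by
    rw [← sub_eq_zero]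
    apply eq_zero_of_infinite_isRoot
    apply (infinite_good' (f := f) (by omega) (f.eval 0)).mono
    intro x hx
    rw [Set.mem_ofPred_eq] at hx ⊢
    obtain ⟨hx, hxx₀⟩ := hx
    have hcard := card_fibre f x
    have hfx : f - C x ≠ 0 := by
      intro h
      have : (f - C x).natDegree = f.natDegree := natDegree_sub_C
      rw [h] at this
      simp at this
      omega
    have hmem : ∀ t, t ∈ (f - C x).roots ↔ f.eval t = x := by
      intro t
      rw [mem_roots hfx, IsRoot.def, eval_sub, eval_C, sub_eq_zero]
    have hfc : 1 < (f - C x).roots.toFinset.card := by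
      rw [Multiset.toFinset_card_of_nodup hx, hcard]; omega
    obtain ⟨a, ha, b, hb, hab⟩ := Finset.one_lt_card.mp hfc
    rw [Multiset.mem_toFinset, hmem] at ha hb
    have h1 := hW a b (by rw [ha, hb])
    rw [hWt, hWt, hht a, hht b, ha, hb] at h1
    simp only [IsRoot.def, eval_sub, eval_mul]
    apply mul_left_cancel₀ (sub_ne_zero.mpr hab)
    linear_combination h1
  obtain ⟨u, v, huv⟩ := hcop
  refine ⟨u * W₁ + v * W₀, ?_⟩
  have h1 : (u * W₁ + v * W₀) * A = W₁ := by
    linear_combination W₁ * huv - v * hprod
  have h2 : (u * W₁ + v * W₀) * B = W₀ := by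
    linear_combination W₀ * huv + u * hprod
  have h3 := congrArg (fun q : ℂ[X] => q.comp f) h1
  have h4 := congrArg (fun q : ℂ[X] => q.comp f) h2
  simp only [mul_comp] at h3 h4
  rw [h, hW10]
  linear_combination -X * h3 - h4

/-- uniqueness of the decomposition -/
theorem decomp_unique {f : ℂ[X]} (hd : 2 ≤ f.natDegree) {A B : ℂ[X]}
    (h : A.comp f * X + B.comp f = 0) : A = 0 ∧ B = 0 := by
  have hd0 : f.natDegree ≠ 0 := by omega
  have hfz : ∀ P : ℂ[X], P.comp f = 0 → P = 0 := by
    intro P hP
    rw [comp_eq_zero_iff] at hP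
    rcases hP with h1 | ⟨_, h2⟩
    · exact h1
    · exfalso
      rw [h2] at hd0
      simp at hd0
  by_cases hA : A = 0
  · subst hA
    simp only [zero_comp, zero_mul, zero_add] at h
    exact ⟨rfl, hfz B h⟩
  · exfalso
    have hAf : A.comp f ≠ 0 := fun hh => hA (hfz A hh)
    have h1 : B.comp f = -(A.comp f * X) := by linear_combination h
    have h2 := congrArg natDegree h1
    rw [natDegree_neg, natDegree_mul_X hAf, natDegree_comp, natDegree_comp] at h2
    have h3 : f.natDegree ∣ A.natDegree * f.natDegree + 1 := by
      rw [← h2]; exact Dvd.intro_left _ rfl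
    have h4 : f.natDegree ∣ 1 := (Nat.dvd_add_right (Dvd.intro_left _ rfl)).mp h3
    have := Nat.le_of_dvd one_pos h4
    omega

end Pool.Agent.Helper34_CStar
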