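import Mathlib

/-!
# Definitions: polynomials in the plane with a fibre isomorphic to the punctured line
-/

namespace Pool.Agent.Helper34_CStar

open Polynomial LaurentPolynomial

/-- polynomials in two variables `x = X 0` and `y = X 1` -/
abbrev P2 := MvPolynomial (Fin 2) ℂ

/-- `p` is equivalent to `q`: `p = b ∘ q ∘ a` for an automorphism `a` of the plane and an affine
automorphism `b` of the line. -/
def Equivalent (p q : P2) : Prop :=
  ∃ (α : P2 ≃ₐ[ℂ] P2) (a b : ℂ), a ≠ 0 ∧ p = MvPolynomial.C a * α q + MvPolynomial.C b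

/-- `p` is not of the form `g ∘ h` with `g` of degree at least two. -/
def Primitive (p : P2) : Prop :=
  ∀ (g : ℂ[X]) (h : P2), p = aeval h g → g.natDegree ≤ 1

/-- `φ` identifies the coordinate ring of the (reduced) fibre of `p` over `c` with `ℂ[T;T⁻¹]`. -/
def IsFibre (p : P2) (c : ℂ) (φ : P2 →ₐ[ℂ] ℂ[T;T⁻¹]) : Prop :=
  Function.Surjective φ ∧
    RingHom.ker φ = (Ideal.span {p - MvPolynomial.C c}).radical

/-- `u` is a coordinate of the plane: the image of `x` under an automorphism. -/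
def IsCoordinate (u : P2) : Prop := ∃ α : P2 ≃ₐ[ℂ] P2, α (MvPolynomial.X 0) = u

/-- The class of degree `d`: primitive polynomials with a fibre isomorphic to the punctured line
such that some coordinate of the plane restricts to this fibre as a polynomial `f(T)` of degree `d`
with `f'(0) ≠ 0`. -/
def InClass (d : ℕ) (p : P2) : Prop :=
  Primitive p ∧ ∃ (c : ℂ) (φ : P2 →ₐ[ℂ] ℂ[T;T⁻¹]) (u : P2) (f : ℂ[X]),
    IsFibre p c φ ∧ IsCoordinate u ∧ φ u = toLaurent f ∧ f.natDegree = d ∧ f.coeff 1 ≠ 0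

/-- The pole at `T = ∞` of every function `A(u) v - P(u)` has an order divisible by `d` or prime to
`d` (here `φ (A(u) v - P(u)) = F(T) / T ^ k`, so this order is `deg F - k`): the branch of the
fibre at `T = ∞` has at most one characteristic pair. -/
def OnePair (d : ℕ) (φ : P2 →ₐ[ℂ] ℂ[T;T⁻¹]) (u v : P2) : Prop :=
  ∀ (A P F : ℂ[X]) (k : ℕ), φ (aeval u A * v - aeval u P) * T (k : ℤ) = toLaurent F →
    k ≤ F.natDegree → d ∣ F.natDegree - k ∨ Nat.Coprime d (F.natDegree - k)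

/-- The class of degree `d` with one pair: as `InClass d`, but `u` is the first member of a pair
`(u, v)` of coordinates of the plane with the property `OnePair d`. -/
def InPairClass (d : ℕ) (p : P2) : Prop :=
  Primitive p ∧ ∃ (c : ℂ) (φ : P2 →ₐ[ℂ] ℂ[T;T⁻¹]) (α : P2 ≃ₐ[ℂ] P2) (f : ℂ[X]),
    IsFibre p c φ ∧ φ (α (MvPolynomial.X 0)) = toLaurent f ∧ f.natDegree = d ∧ f.coeff 1 ≠ 0 ∧
    OnePair d φ (α (MvPolynomial.X 0)) (α (MvPolynomial.X 1))

/-- the first family: `x y ^ d - g(y)` -/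
noncomputable def q₁ (d : ℕ) (g : ℂ[X]) : P2 :=
  MvPolynomial.X 0 * MvPolynomial.X 1 ^ d - aeval (MvPolynomial.X 1 : P2) g

/-- the second polynomial: `(1 - x y) ^ d - y ^ (d - 1)` -/
noncomputable def q₂ (d : ℕ) : P2 :=
  (1 - MvPolynomial.X 0 * MvPolynomial.X 1) ^ d - MvPolynomial.X 1 ^ (d - 1)

/-- the third polynomial: `x (1 - x y) ^ d - ∑ (1 - x y - y) ^ i (1 - x y) ^ (d - 1 - i)`, which is
`((1 - x y - y) ^ d - (1 - x y) ^ (d + 1)) / y` -/
noncomputable def q₃ (d : ℕ) : P2 :=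
  MvPolynomial.X 0 * (1 - MvPolynomial.X 0 * MvPolynomial.X 1) ^ d -
    ∑ i ∈ Finset.range d, (1 - MvPolynomial.X 0 * MvPolynomial.X 1 - MvPolynomial.X 1) ^ i *
      (1 - MvPolynomial.X 0 * MvPolynomial.X 1) ^ (d - 1 - i)

/-- The representatives: the polynomials `x y ^ d - g(y)` with `g` monic of degree `d - 1` and
`g(0) = 0`, and the two polynomials `q₂ d`, `q₃ d`. -/
def IsRepresentative (d : ℕ) (q : P2) : Prop :=
  (∃ g : ℂ[X], g.Monic ∧ g.natDegree = d - 1 ∧ g.coeff 0 = 0 ∧ q = q₁ d g) ∨ q = q₂ d ∨ q = q₃ d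

end Pool.Agent.Helper34_CStar
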