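import Pool.Agent.Helper34_CStar.ClsDeg

/-!
# The degree in `y` bounds the degree of `x` on an embedded punctured line
-/

namespace Pool.Agent.Helper34_CStar

open Polynomial LaurentPolynomial

theorem hom2_eq_sum {S : Type*} [CommRing S] [Algebra ℂ S] (x y : S) (q : P2) :
    hom2 x y q = ∑ m ∈ q.support, algebraMap ℂ S (q.coeff m) * (x ^ m 0 * y ^ m 1) := by
  rw [hom2, MvPolynomial.aeval_def, MvPolynomial.eval₂_eq']
  apply Finset.sum_congr rfl
  intro m _
  rw [Fin.prod_univ_two]
  simp

theorem natDegree_hom2_le (q : P2) (x : ℂ) :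
    (hom2 (Polynomial.C x) (X : ℂ[X]) q).natDegree ≤ q.degreeOf 1 := by
  rw [hom2_eq_sum]
  apply natDegree_sum_le_of_forall_le
  intro m hm
  have h1 : m 1 ≤ q.degreeOf 1 := MvPolynomial.monomial_le_degreeOf 1 hm
  have h2 : algebraMap ℂ ℂ[X] (q.coeff m) * (Polynomial.C x ^ m 0 * X ^ m 1) =
      Polynomial.C (q.coeff m * x ^ m 0) * X ^ m 1 := by
    rw [Polynomial.algebraMap_eq, map_mul, map_pow]; ring
  rw [h2]
  exact (natDegree_C_mul_X_pow_le _ _).trans h1

/-- a nonzero polynomial does not vanish on most lines -/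
theorem finite_bad {Q : P2} (hQ : Q ≠ 0) :
    {x : ℂ | hom2 (Polynomial.C x) (X : ℂ[X]) Q = 0}.Finite := by
  obtain ⟨v, hv⟩ : ∃ v : Fin 2 → ℂ, MvPolynomial.eval v Q ≠ 0 := by
    by_contra hcon
    push Not at hcon
    exact hQ (MvPolynomial.funext (fun v => by rw [hcon v, map_zero]))
  have hval : ∀ x y : ℂ, MvPolynomial.eval ![x, y] Q = hom2 x y Q := by
    intro x y
    rw [hom2, MvPolynomial.aeval_def, MvPolynomial.eval₂_eq_eval_map]
    simp
  have hv2 : v = ![v 0, v 1] := by
    ext i; fin_cases i <;> rfl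
  rw [hv2, hval] at hv
  set R : ℂ[X] := hom2 X (Polynomial.C (v 1)) Q with hR
  have h1 : ∀ x : ℂ, R.eval x = hom2 x (v 1) Q := by
    intro x
    have : (aeval x : ℂ[X] →ₐ[ℂ] ℂ).comp (hom2 X (Polynomial.C (v 1))) = hom2 x (v 1) := by
      apply hom2_ext <;> simp
    rw [hR, ← this, AlgHom.comp_apply, coe_aeval_eq_eval]
  have hR0 : R ≠ 0 := by
    intro h0
    apply hv
    rw [← h1, h0, eval_zero]
  apply (finite_setOfPred_isRoot hR0).subset
  intro x hx
  rw [Set.mem_ofPred_eq] at hx ⊢
  have h2 : (aeval (v 1) : ℂ[X] →ₐ[ℂ] ℂ).comp (hom2 (Polynomial.C x) X) = hom2 x (v 1) := by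
    apply hom2_ext <;> simp
  rw [IsRoot.def, h1, ← h2, AlgHom.comp_apply, hx, map_zero]

theorem degree_bound {φ : P2 →ₐ[ℂ] ℂ[T;T⁻¹]} (hφ : Function.Surjective φ) {Q : P2}
    (hQ0 : Q ≠ 0) (hQ : φ Q = 0) {n : ℕ} (hn : Q.degreeOf 1 ≤ n) :
    ∃ (F : ℂ[X]) (k : ℕ), F.natDegree ≤ n ∧ k ≤ n ∧
      φ (MvPolynomial.X 0) = toLaurent F * T (-(k : ℤ)) := by
  classical
  obtain ⟨F, k, hx, hk⟩ := exists_min_repr (φ (MvPolynomial.X 0))
  have hxk : ∀ (t : ℂ) (ht : t ≠ 0) , lev (Units.mk0 t ht) (φ (MvPolynomial.X 0)) * t ^ k =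
      F.eval t := by
    intro t ht
    have := lev_y (Units.mk0 t ht) F k
    rw [← hx, Units.val_mk0, coe_aeval_eq_eval] at this
    exact this
  have hF0 : F ≠ 0 := by
    rintro rfl
    apply coord_ne_C hφ 0
    rw [hx, map_zero, zero_mul, map_zero]
  -- the ramification polynomial
  set W : ℂ[X] := X * F.derivative - Polynomial.C (k : ℂ) * F with hW
  have hWne : W ≠ 0 := by
    intro hW0
    -- then `F = c X ^ k`
    have hcoef : ∀ i : ℕ, ((i : ℂ) - k) * F.coeff i = 0 := by
      intro i
      have h1 := congrArg (fun P : ℂ[X] => P.coeff i) hW0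
      simp only [hW, coeff_sub, coeff_C_mul, coeff_zero] at h1
      cases i with
      | zero => simpa using h1
      | succ i =>
        rw [coeff_X_mul, coeff_derivative] at h1
        push_cast
        linear_combination h1
    have hFk : F = Polynomial.C (F.coeff k) * X ^ k := by
      ext i
      rw [coeff_C_mul_X_pow]
      split_ifs with h
      · rw [h]
      · rcases mul_eq_zero.mp (hcoef i) with h1 | h1
        · exfalso
          apply h
          have : (i : ℂ) = k := sub_eq_zero.mp h1
          exact_mod_cast this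
        · exact h1
    apply coord_ne_C hφ (F.coeff k)
    rw [hx]
    conv_lhs => rw [hFk]
    rw [map_mul, toLaurent_C, toLaurent_X_pow, mul_assoc, ← T_add, add_neg_cancel, T_zero, mul_one]
  set N := max F.natDegree k with hN
  -- the bad values
  set bad : Set ℂ := {0, F.leadingCoeff, F.eval 0} ∪
    (fun t => F.eval t / t ^ k) '' {t | W.IsRoot t} ∪
    {x : ℂ | hom2 (Polynomial.C x) (X : ℂ[X]) Q = 0} with hbad
  have hfin : bad.Finite := by
    apply Set.Finite.union
    · apply Set.Finite.union
      · simp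
      · exact (finite_setOfPred_isRoot hWne).image _
    · exact finite_bad hQ0
  obtain ⟨x, hxb⟩ := hfin.infinite_compl.nonempty
  simp only [hbad, Set.mem_compl_iff, Set.mem_union, Set.mem_insert_iff, Set.mem_singleton_iff,
    Set.mem_image, Set.mem_ofPred_eq, not_or, not_exists, not_and] at hxb
  obtain ⟨⟨⟨hx0, hx1, hx2⟩, hx3⟩, hx4⟩ := hxb
  set P : ℂ[X] := F - Polynomial.C x * X ^ k with hP
  have hPd : P.natDegree = N := by
    have hle : P.natDegree ≤ N := by
      refine (natDegree_sub_le _ _).trans (max_le (le_max_left _ _) ?_)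
      exact (natDegree_C_mul_X_pow_le _ _).trans (le_max_right _ _)
    apply le_antisymm hle
    apply le_natDegree_of_ne_zero
    rw [hP, coeff_sub, coeff_C_mul_X_pow]
    rcases lt_trichotomy F.natDegree k with h | h | h
    · rw [hN, max_eq_right h.le, if_pos rfl, coeff_eq_zero_of_natDegree_lt h, zero_sub]
      exact neg_ne_zero.mpr hx0
    · rw [hN, h, max_self, if_pos rfl, ← h, coeff_natDegree]
      exact sub_ne_zero.mpr (fun h' => hx1 h'.symm)
    · rw [hN, max_eq_left h.le, if_neg (by omega), sub_zero, coeff_natDegree]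
      exact leadingCoeff_ne_zero.mpr hF0
  have hPne : P ≠ 0 := by
    intro h0
    apply hx0
    have h1 : F = Polynomial.C x * X ^ k := by rw [hP, sub_eq_zero] at h0; exact h0
    exfalso
    apply coord_ne_C hφ x
    rw [hx, h1, map_mul, toLaurent_C, toLaurent_X_pow, mul_assoc, ← T_add, add_neg_cancel,
      T_zero, mul_one]
  have hroot0 : ∀ t, P.eval t = 0 → t ≠ 0 := by
    rintro t ht rfl
    rw [hP, eval_sub, eval_mul, eval_C, eval_pow, eval_X] at ht
    rcases Nat.eq_zero_or_pos k with h | h
    · rw [h, pow_zero, mul_one] at ht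
      exact hx2 (sub_eq_zero.mp ht).symm
    · rw [zero_pow (by omega), mul_zero, sub_zero, ← coeff_zero_eq_eval_zero] at ht
      rcases hk with hk | hk
      · omega
      · exact hk ht
  have hnodup : P.roots.Nodup := by
    rw [Multiset.nodup_iff_count_le_one]
    intro t
    by_contra hcon
    rw [not_le, count_roots] at hcon
    have h1 : 0 < P.rootMultiplicity t := by omega
    have h2 := (rootMultiplicity_pos hPne).mp h1
    have h3 : (derivative P).IsRoot t := by
      have := (one_lt_rootMultiplicity_iff_isRoot hPne).mp hcon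
      exact this.2
    have ht0 := hroot0 t h2
    apply hx3 t
    · have e1 : F.eval t = x * t ^ k := by
        have := h2.eq_zero
        rw [hP, eval_sub, eval_mul, eval_C, eval_pow, eval_X] at this
        exact sub_eq_zero.mp this
      have e2 := h3.eq_zero
      rw [hP, derivative_sub, derivative_C_mul, derivative_X_pow, eval_sub, eval_mul, eval_mul,
        eval_C, eval_pow, eval_X, map_natCast, eval_natCast] at e2
      rw [IsRoot.def, hW, eval_sub, eval_mul, eval_mul, eval_X, eval_C, e1]
      rcases Nat.eq_zero_or_pos k with h | h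
      · subst h
        simp only [Nat.cast_zero, zero_mul, mul_zero, sub_zero] at e2 ⊢
        rw [e2, mul_zero]
      · obtain ⟨k', rfl⟩ : ∃ k', k = k' + 1 := ⟨k - 1, by omega⟩
        rw [Nat.add_sub_cancel] at e2
        rw [pow_succ]
        linear_combination t * e2
    · have e1 : F.eval t = x * t ^ k := by
        have := h2.eq_zero
        rw [hP, eval_sub, eval_mul, eval_C, eval_pow, eval_X] at this
        exact sub_eq_zero.mp this
      rw [e1, mul_div_cancel_right₀ _ (pow_ne_zero _ ht0)]
  have hcard : P.roots.toFinset.card = N := by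
    rw [Multiset.toFinset_card_of_nodup hnodup, ← hPd]
    exact (IsAlgClosed.splits P).natDegree_eq_card_roots.symm
  -- the polynomial satisfied by the values of `y`
  set Qx : ℂ[X] := hom2 (Polynomial.C x) X Q with hQx
  have hQxd : Qx.natDegree ≤ n := (natDegree_hom2_le Q x).trans hn
  have hadj := adjoin_of_surjective hφ
  have hle : P.roots.toFinset.card ≤ Qx.roots.toFinset.card := by
    let yv : ℂ → ℂ := fun t => if ht : t = 0 then 0 else
      lev (Units.mk0 t ht) (φ (MvPolynomial.X 1))
    have hmem : ∀ t, t ∈ P.roots.toFinset → ∃ ht : t ≠ 0,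
        lev (Units.mk0 t ht) (φ (MvPolynomial.X 0)) = x ∧
        yv t = lev (Units.mk0 t ht) (φ (MvPolynomial.X 1)) := by
      intro t ht
      rw [Multiset.mem_toFinset, mem_roots hPne] at ht
      have ht0 := hroot0 t ht
      refine ⟨ht0, ?_, by simp [yv, ht0]⟩
      have e1 : F.eval t = x * t ^ k := by
        have := ht.eq_zero
        rw [hP, eval_sub, eval_mul, eval_C, eval_pow, eval_X] at this
        exact sub_eq_zero.mp this
      have e2 := hxk t ht0
      rw [e1] at e2
      exact mul_right_cancel₀ (pow_ne_zero _ ht0) e2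
    apply Finset.card_le_card_of_injOn yv
    · intro t ht
      obtain ⟨ht0, h1, h2⟩ := hmem t ht
      rw [Finset.mem_coe, Multiset.mem_toFinset, mem_roots hx4, IsRoot.def, h2]
      have h3 : (aeval (lev (Units.mk0 t ht0) (φ (MvPolynomial.X 1)) : ℂ) : ℂ[X] →ₐ[ℂ] ℂ).comp
          (hom2 (Polynomial.C x) X) = (levA (Units.mk0 t ht0)).comp φ := by
        apply hom2_ext
        · simp [h1]
        · simp
      have h4 := congrArg (fun ψ : P2 →ₐ[ℂ] ℂ => ψ Q) h3
      simp only [AlgHom.comp_apply, hQ, map_zero, coe_aeval_eq_eval] at h4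
      exact h4
    · intro t ht s hs hts
      obtain ⟨ht0, h1, h2⟩ := hmem t ht
      obtain ⟨hs0, h3, h4⟩ := hmem s hs
      rw [h2, h4] at hts
      have h5 := lev_ext hadj (Units.mk0 t ht0) (Units.mk0 s hs0) (by rw [h1, h3]) hts
      exact congrArg Units.val h5
  have hNn : N ≤ n := by
    calc N = P.roots.toFinset.card := hcard.symm
      _ ≤ Qx.roots.toFinset.card := hle
      _ ≤ Multiset.card Qx.roots := Multiset.toFinset_card_le _
      _ ≤ Qx.natDegree := card_roots' _
      _ ≤ n := hQxd
  exact ⟨F, k, (le_max_left _ _).trans hNn, (le_max_right _ _).trans hNn, hx⟩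

end Pool.Agent.Helper34_CStar
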