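import Pool.Agent.Helper34_CStar.Fibre4

/-!
# The derivation `T d/dT`
-/

namespace Pool.Agent.Helper34_CStar

open Polynomial LaurentPolynomial

/-- the unit `T` -/
noncomputable def unitT : (ℂ[T;T⁻¹])ˣ :=
  ⟨T 1, T (-1), T_mul_T_neg, by rw [mul_comm]; exact T_mul_T_neg⟩

/-- the unit `T (1 + ε)` -/
noncomputable def dU : (DualNumber ℂ[T;T⁻¹])ˣ :=
  ⟨algebraMap ℂ[T;T⁻¹] _ (T 1) * (1 + DualNumber.eps), algebraMap ℂ[T;T⁻¹] _ (T (-1)) *
    (1 - DualNumber.eps), by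
      have h1 : (algebraMap ℂ[T;T⁻¹] (DualNumber ℂ[T;T⁻¹]) (T 1)) *
          algebraMap ℂ[T;T⁻¹] (DualNumber ℂ[T;T⁻¹]) (T (-1)) = 1 := by
        rw [← map_mul, T_mul_T_neg, map_one]
      have h2 : (DualNumber.eps : DualNumber ℂ[T;T⁻¹]) ^ 2 = 0 := DualNumber.eps_pow_two
      linear_combination (1 - DualNumber.eps ^ 2) * h1 - h2, by
      have h1 : (algebraMap ℂ[T;T⁻¹] (DualNumber ℂ[T;T⁻¹]) (T 1)) *
          algebraMap ℂ[T;T⁻¹] (DualNumber ℂ[T;T⁻¹]) (T (-1)) = 1 := by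
        rw [← map_mul, T_mul_T_neg, map_one]
      have h2 : (DualNumber.eps : DualNumber ℂ[T;T⁻¹]) ^ 2 = 0 := DualNumber.eps_pow_two
      linear_combination (1 - DualNumber.eps ^ 2) * h1 - h2⟩

theorem dU_val : (dU : DualNumber ℂ[T;T⁻¹]) =
    algebraMap ℂ[T;T⁻¹] _ (T 1) * (1 + DualNumber.eps) := rfl

theorem lev_unitT (z : ℂ[T;T⁻¹]) : lev unitT z = z := by
  have : lev unitT = RingHom.id _ := by
    apply laurent_ringHom_ext
    · intro c; rw [lev_C, LaurentPolynomial.C_eq_algebraMap, RingHom.id_apply]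
    · rw [lev_T, zpow_one, RingHom.id_apply]; rfl
  rw [this, RingHom.id_apply]

theorem fst_lev (z : ℂ[T;T⁻¹]) : TrivSqZeroExt.fst (lev dU z) = z := by
  have h := map_lev (TrivSqZeroExt.fstHom ℂ ℂ[T;T⁻¹] ℂ[T;T⁻¹]) dU z
  have h2 : Units.map ((TrivSqZeroExt.fstHom ℂ ℂ[T;T⁻¹] ℂ[T;T⁻¹] :
      DualNumber ℂ[T;T⁻¹] →ₐ[ℂ] ℂ[T;T⁻¹]) : DualNumber ℂ[T;T⁻¹] →* ℂ[T;T⁻¹]) dU = unitT := by
    ext1
    change TrivSqZeroExt.fst (algebraMap ℂ[T;T⁻¹] (DualNumber ℂ[T;T⁻¹]) (T 1) *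
      (1 + DualNumber.eps)) = T 1
    rw [TrivSqZeroExt.algebraMap_eq_inl]
    simp
  rw [h2, lev_unitT] at h
  exact h

/-- the derivation `T d/dT` -/
noncomputable def tD : Derivation ℂ ℂ[T;T⁻¹] ℂ[T;T⁻¹] :=
  Derivation.mk'
    { toFun := fun z => TrivSqZeroExt.snd (lev dU z)
      map_add' := fun a b => by rw [map_add, TrivSqZeroExt.snd_add]
      map_smul' := fun r a => by
        rw [← levA_apply, map_smul, TrivSqZeroExt.snd_smul, levA_apply]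
        rfl }
    (by
      intro a b
      change TrivSqZeroExt.snd (lev dU (a * b)) = a • TrivSqZeroExt.snd (lev dU b) +
        b • TrivSqZeroExt.snd (lev dU a)
      rw [map_mul, TrivSqZeroExt.snd_mul, fst_lev, fst_lev]
      simp only [smul_eq_mul, MulOpposite.smul_eq_mul_unop, MulOpposite.unop_op]
      ring)

theorem tD_apply (z : ℂ[T;T⁻¹]) : tD z = TrivSqZeroExt.snd (lev dU z) := rfl

theorem tD_T_one : tD (T 1) = T 1 := by
  rw [tD_apply, lev_T, zpow_one, dU_val, TrivSqZeroExt.algebraMap_eq_inl]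
  simp

theorem tD_C (r : ℂ) : tD (LaurentPolynomial.C r) = 0 := by
  rw [LaurentPolynomial.C_eq_algebraMap]
  exact Derivation.map_algebraMap _ _

theorem tD_mul (a b : ℂ[T;T⁻¹]) : tD (a * b) = a * tD b + b * tD a := by
  rw [Derivation.leibniz, smul_eq_mul, smul_eq_mul]

theorem tD_T_nat (n : ℕ) : tD (T (n : ℤ)) = LaurentPolynomial.C (n : ℂ) * T (n : ℤ) := by
  induction n with
  | zero => simp
  | succ n ih =>
    rw [Nat.cast_succ, Nat.cast_succ, T_add, tD_mul, tD_T_one, ih, map_add, map_one]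
    ring

theorem tD_T (n : ℤ) : tD (T n) = LaurentPolynomial.C (n : ℂ) * T n := by
  obtain ⟨m, rfl | rfl⟩ := Int.eq_nat_or_neg n
  · rw [tD_T_nat]; norm_cast
  · have h1 : (T (m : ℤ) : ℂ[T;T⁻¹]) * T (-(m : ℤ)) = 1 := by
      rw [← T_add, add_neg_cancel, T_zero]
    have h2 := congrArg tD h1
    rw [tD_mul, tD_T_nat, Derivation.map_one_eq_zero] at h2
    have h3 : tD (T (-(m : ℤ))) = T (-(m : ℤ)) * (T (m : ℤ) * tD (T (-(m : ℤ)))) := by
      rw [← mul_assoc, mul_comm (T (-(m : ℤ))), h1, one_mul]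
    rw [h3]
    have h4 : (LaurentPolynomial.C (((-(m : ℤ) : ℤ)) : ℂ) : ℂ[T;T⁻¹]) =
        -LaurentPolynomial.C (m : ℂ) := by push_cast; rw [map_neg]
    rw [h4]
    linear_combination T (-(m : ℤ)) * h2 - T (-(m : ℤ)) * LaurentPolynomial.C (m : ℂ) * h1

theorem tD_aeval (P : ℂ[X]) (x : ℂ[T;T⁻¹]) :
    tD (aeval x P) = aeval x (derivative P) * tD x := by
  rw [Derivation.map_aeval, smul_eq_mul]

end Pool.Agent.Helper34_CStar
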