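import Pool.Agent.Helper34_CStar.Ineq4

/-!
# Two representatives are equivalent only in the obvious way
-/

namespace Pool.Agent.Helper34_CStar

open Polynomial LaurentPolynomial

/-- Equivalence of two representatives, possibly of different degrees. -/
theorem representatives_equivalent_iff {d d' : ℕ} (h3 : 3 ≤ d) (h3' : 3 ≤ d') {q q' : P2}
    (hq : IsRepresentative d q) (hq' : IsRepresentative d' q') :
    Equivalent q q' ↔ q = q' ∨ (d = d' ∧ ∃ (g g' : ℂ[X]) (l : ℂ), l ≠ 0 ∧
      g.Monic ∧ g.natDegree = d - 1 ∧ g.coeff 0 = 0 ∧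
      g'.Monic ∧ g'.natDegree = d - 1 ∧ g'.coeff 0 = 0 ∧
      q = q₁ d g ∧ q' = q₁ d g' ∧
      Polynomial.C (l ^ (d - 1)) * g' = g.comp (Polynomial.C l * X)) := by
  constructor
  · intro h
    rcases hq with ⟨g, hg, hgd, hg0, rfl⟩ | rfl | rfl
    · rcases hq' with ⟨g', hg', hgd', hg0', rfl⟩ | rfl | rfl
      · have hdd := eq_of_equivalent_q₁ (by omega) (by omega) hgd hg0 hgd' hg0' h
        subst hdd
        obtain ⟨l, hl, hlg⟩ := equivalent_q₁_imp (by omega) hg hgd hg0 hg' hgd' hg0' h
        exact Or.inr ⟨rfl, g, g', l, hl, hg, hgd, hg0, hg', hgd', hg0', rfl, rfl, hlg⟩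
      · exact absurd h.symm (not_equivalent_q₂_q₁ (by omega) (by omega) hgd hg0)
      · exact absurd h.symm (not_equivalent_q₃_q₁ (by omega) (by omega) hgd hg0)
    · rcases hq' with ⟨g', hg', hgd', hg0', rfl⟩ | rfl | rfl
      · exact absurd h (not_equivalent_q₂_q₁ (by omega) (by omega) hgd' hg0')
      · left
        rw [eq_of_equivalent_q₂ (by omega) h3' h]
      · exact absurd h.symm (not_equivalent_q₃_q₂ (by omega) h3)
    · rcases hq' with ⟨g', hg', hgd', hg0', rfl⟩ | rfl | rfl
      · exact absurd h (not_equivalent_q₃_q₁ (by omega) (by omega) hgd' hg0')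
      · exact absurd h (not_equivalent_q₃_q₂ (by omega) h3')
      · left
        rw [eq_of_equivalent_q₃ (by omega) h3' h]
  · rintro (rfl | ⟨rfl, g, g', l, hl, _, _, _, _, _, _, rfl, rfl, h⟩)
    · exact Equivalent.refl q
    · exact equivalent_q₁_of (by omega) hl h

end Pool.Agent.Helper34_CStar
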