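import Pool.Agent.Helper34_CStar.Forty

/-!
# Fibres of polynomials of degree four
-/

namespace Pool.Agent.Helper34_CStar

open Polynomial LaurentPolynomial

/-- a fibre of `T ^ 4 + α T ^ 3 + β T ^ 2 + γ T` consisting of four nonzero points -/
structure Fib40 (α β γ v t₁ t₂ t₃ t₄ : ℂ) : Prop where
  ne₁ : t₁ ≠ 0
  ne₂ : t₂ ≠ 0
  ne₃ : t₃ ≠ 0
  ne₄ : t₄ ≠ 0
  d₁₂ : t₁ ≠ t₂
  d₁₃ : t₁ ≠ t₃
  d₁₄ : t₁ ≠ t₄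
  d₂₃ : t₂ ≠ t₃
  d₂₄ : t₂ ≠ t₄
  d₃₄ : t₃ ≠ t₄
  s₁ : t₁ + t₂ + t₃ + t₄ = -α
  s₂ : t₁ * t₂ + t₁ * t₃ + t₁ * t₄ + t₂ * t₃ + t₂ * t₄ + t₃ * t₄ = β
  s₃ : t₁ * t₂ * t₃ + t₁ * t₂ * t₄ + t₁ * t₃ * t₄ + t₂ * t₃ * t₄ = -γ
  s₄ : t₁ * t₂ * t₃ * t₄ = -v

variable {α β γ v t₁ t₂ t₃ t₄ : ℂ}

theorem Four.fib40 (h : Four (f40 α β γ) 0 v t₁ t₂ t₃ t₄) : Fib40 α β γ v t₁ t₂ t₃ t₄ := by
  have h1 := h.eq
  have h2 : f40 α β γ - Polynomial.C v * X ^ 0 = Polynomial.C 1 * X ^ 4 +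
      Polynomial.C α * X ^ 3 + Polynomial.C β * X ^ 2 + Polynomial.C γ * X +
      Polynomial.C (-v) := by
    unfold f40
    simp only [map_one, map_neg]
    ring
  rw [h2] at h1
  obtain ⟨e1, e2, e3, e4⟩ := four_symm h1
  exact ⟨h.ne₁, h.ne₂, h.ne₃, h.ne₄, h.d₁₂, h.d₁₃, h.d₁₄, h.d₂₃, h.d₂₄, h.d₃₄, e1, e2, e3, e4⟩

namespace Fib40

/-- exchange of the first two points -/
theorem swap₁₂ (h : Fib40 α β γ v t₁ t₂ t₃ t₄) : Fib40 α β γ v t₂ t₁ t₃ t₄ :=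
  ⟨h.ne₂, h.ne₁, h.ne₃, h.ne₄, h.d₁₂.symm, h.d₂₃, h.d₂₄, h.d₁₃, h.d₁₄, h.d₃₄,
    by linear_combination h.s₁, by linear_combination h.s₂, by linear_combination h.s₃,
    by linear_combination h.s₄⟩

/-- exchange of the second and the third point -/
theorem swap₂₃ (h : Fib40 α β γ v t₁ t₂ t₃ t₄) : Fib40 α β γ v t₁ t₃ t₂ t₄ :=
  ⟨h.ne₁, h.ne₃, h.ne₂, h.ne₄, h.d₁₃, h.d₁₂, h.d₁₄, h.d₂₃.symm, h.d₃₄, h.d₂₄,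
    by linear_combination h.s₁, by linear_combination h.s₂, by linear_combination h.s₃,
    by linear_combination h.s₄⟩

/-- exchange of the third and the fourth point -/
theorem swap₃₄ (h : Fib40 α β γ v t₁ t₂ t₃ t₄) : Fib40 α β γ v t₁ t₂ t₄ t₃ :=
  ⟨h.ne₁, h.ne₂, h.ne₄, h.ne₃, h.d₁₂, h.d₁₄, h.d₁₃, h.d₂₄, h.d₂₃, h.d₃₄.symm,
    by linear_combination h.s₁, by linear_combination h.s₂, by linear_combination h.s₃,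
    by linear_combination h.s₄⟩

/-- exchange of the two pairs -/
theorem swapPairs (h : Fib40 α β γ v t₁ t₂ t₃ t₄) : Fib40 α β γ v t₃ t₄ t₁ t₂ :=
  h.swap₂₃.swap₁₂.swap₃₄.swap₂₃

theorem root₁ (h : Fib40 α β γ v t₁ t₂ t₃ t₄) :
    t₁ ^ 4 = -α * t₁ ^ 3 - β * t₁ ^ 2 - γ * t₁ + v := by
  linear_combination t₁ ^ 3 * h.s₁ - t₁ ^ 2 * h.s₂ + t₁ * h.s₃ - h.s₄

theorem root₂ (h : Fib40 α β γ v t₁ t₂ t₃ t₄) :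
    t₂ ^ 4 = -α * t₂ ^ 3 - β * t₂ ^ 2 - γ * t₂ + v := h.swap₁₂.root₁

theorem root₃ (h : Fib40 α β γ v t₁ t₂ t₃ t₄) :
    t₃ ^ 4 = -α * t₃ ^ 3 - β * t₃ ^ 2 - γ * t₃ + v := h.swap₂₃.root₂

theorem root₄ (h : Fib40 α β γ v t₁ t₂ t₃ t₄) :
    t₄ ^ 4 = -α * t₄ ^ 3 - β * t₄ ^ 2 - γ * t₄ + v := h.swap₃₄.root₃

theorem eval₁ (h : Fib40 α β γ v t₁ t₂ t₃ t₄) : (f40 α β γ).eval t₁ = v := by
  rw [f40_eval]; linear_combination h.root₁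

theorem v_ne (h : Fib40 α β γ v t₁ t₂ t₃ t₄) : v ≠ 0 := by
  intro h0
  have h1 := h.s₄
  rw [h0, neg_zero] at h1
  exact mul_ne_zero (mul_ne_zero (mul_ne_zero h.ne₁ h.ne₂) h.ne₃) h.ne₄ h1

theorem Vd_ne_zero (h : Fib40 α β γ v t₁ t₂ t₃ t₄) : Vd t₁ t₂ t₃ t₄ ≠ 0 := by
  unfold Vd
  have s12 := sub_ne_zero.mpr h.d₁₂
  have s13 := sub_ne_zero.mpr h.d₁₃
  have s14 := sub_ne_zero.mpr h.d₁₄
  have s23 := sub_ne_zero.mpr h.d₂₃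
  have s24 := sub_ne_zero.mpr h.d₂₄
  have s34 := sub_ne_zero.mpr h.d₃₄
  positivity

end Fib40

theorem exists_fib40 (α β γ : ℂ) : ∃ bad : Set ℂ, bad.Finite ∧ ∀ v ∉ bad, ∃ t₁ t₂ t₃ t₄,
    Fib40 α β γ v t₁ t₂ t₃ t₄ := by
  obtain ⟨bad, hb, hg⟩ := exists_four (f40_monic α β γ) (f40_natDegree _ _ _)
    (k := 0) (by omega) (Or.inl rfl)
  refine ⟨bad, hb, ?_⟩
  intro v hv
  obtain ⟨t₁, t₂, t₃, t₄, hf⟩ := hg v hv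
  exact ⟨t₁, t₂, t₃, t₄, hf.fib40⟩

/-- the determinant of the system given by the triples of a fibre -/
theorem det_zero₂ {τ₁ τ₂ τ₃ τ₄ E12 E13 E14 E23 E24 E34 ε : ℂ} (hε : ε ^ 2 = 1)
    (hτ₁ : τ₁ ≠ 0) (hτ₂ : τ₂ ≠ 0) (hτ₃ : τ₃ ≠ 0) (hτ₄ : τ₄ ≠ 0) (hE : E14 ≠ 0)
    (c12 : E34 * (τ₃ * τ₄) = ε * (τ₁ * τ₂) * E12)
    (c13 : E24 * (τ₂ * τ₄) = ε * (τ₁ * τ₃) * E13)
    (c14 : E23 * (τ₂ * τ₃) = ε * (τ₁ * τ₄) * E14)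
    (h1 : (t₁ - t₂) * E12 - (t₁ - t₃) * E13 + (t₂ - t₃) * E23 = 0)
    (h2 : (t₁ - t₂) * E12 + (t₂ - t₄) * E24 - (t₁ - t₄) * E14 = 0)
    (h3 : (t₃ - t₄) * E34 + (t₁ - t₃) * E13 - (t₁ - t₄) * E14 = 0) :
    V3 t₁ t₂ t₃ t₄ (τ₁ ^ 2) (τ₂ ^ 2) (τ₃ ^ 2) (τ₄ ^ 2) = 0 := by
  have hε0 : ε ≠ 0 := by
    rintro rfl
    norm_num at hε
  have R1 : (t₁ - t₂) * τ₂ * τ₃ * E12 - (t₁ - t₃) * τ₂ * τ₃ * E13 +
      ε * τ₁ * τ₄ * (t₂ - t₃) * E14 = 0 := by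
    linear_combination (τ₂ * τ₃) * h1 - (t₂ - t₃) * c14
  have R2 : (t₁ - t₂) * τ₂ * τ₄ * E12 + ε * τ₁ * τ₃ * (t₂ - t₄) * E13 -
      (t₁ - t₄) * τ₂ * τ₄ * E14 = 0 := by
    linear_combination (τ₂ * τ₄) * h2 - (t₂ - t₄) * c13
  have R3 : ε * τ₁ * τ₂ * (t₃ - t₄) * E12 + (t₁ - t₃) * τ₃ * τ₄ * E13 -
      (t₁ - t₄) * τ₃ * τ₄ * E14 = 0 := by
    linear_combination (τ₃ * τ₄) * h3 - (t₃ - t₄) * c12
  apply mul_left_cancel₀ (mul_ne_zero (mul_ne_zero (mul_ne_zero (mul_ne_zero (mul_ne_zero hε0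
    hτ₁) hτ₂) hτ₃) hτ₄) hE)
  unfold V3
  linear_combination ((t₁ - t₂) * τ₂ * τ₄ * ((t₁ - t₃) * τ₃ * τ₄) -
      ε * τ₁ * τ₃ * (t₂ - t₄) * (ε * τ₁ * τ₂ * (t₃ - t₄))) * R1 -
    ((t₁ - t₂) * τ₂ * τ₃ * ((t₁ - t₃) * τ₃ * τ₄) +
      (t₁ - t₃) * τ₂ * τ₃ * (ε * τ₁ * τ₂ * (t₃ - t₄))) * R2 +
    ((t₁ - t₂) * τ₂ * τ₃ * (ε * τ₁ * τ₃ * (t₂ - t₄)) +
      (t₁ - t₃) * τ₂ * τ₃ * ((t₁ - t₂) * τ₂ * τ₄)) * R3 +
    (ε * τ₁ ^ 3 * τ₂ * τ₃ * τ₄ * (t₂ - t₃) * (t₂ - t₄) * (t₃ - t₄) * E14) * hε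

/-- coplanarity of `T ^ J` with `1, T, T ^ 2` on fibres -/
def Copl40 (α β γ : ℂ) (J : ℤ) : Prop :=
  ∀ v t₁ t₂ t₃ t₄ : ℂ, Fib40 α β γ v t₁ t₂ t₃ t₄ →
    V3 t₁ t₂ t₃ t₄ (t₁ ^ J) (t₂ ^ J) (t₃ ^ J) (t₄ ^ J) = 0

/-- the coefficient of `T ^ 3` in `T ^ j` -/
noncomputable def C40 (α β γ : ℂ) : ℕ → ℂ[X]
  | 0 => 0
  | 1 => 0
  | 2 => 0
  | 3 => 1
  | (n + 4) => -Polynomial.C α * C40 α β γ (n + 3) - Polynomial.C β * C40 α β γ (n + 2) -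
      Polynomial.C γ * C40 α β γ (n + 1) + X * C40 α β γ n

theorem C40_spec (h : Fib40 α β γ v t₁ t₂ t₃ t₄) : ∀ k : ℕ,
    V3 t₁ t₂ t₃ t₄ (t₁ ^ k) (t₂ ^ k) (t₃ ^ k) (t₄ ^ k) =
      -Vd t₁ t₂ t₃ t₄ * (C40 α β γ k).eval v
  | 0 => by simp only [C40, V3, eval_zero, pow_zero]; ring
  | 1 => by simp only [C40, V3, eval_zero, pow_one]; ring
  | 2 => by simp only [C40, V3, eval_zero]; ring
  | 3 => by simp only [C40, V3, Vd, eval_one]; ring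
  | (n + 4) => by
    have h0 := C40_spec h n
    have h1 := C40_spec h (n + 1)
    have h2 := C40_spec h (n + 2)
    have h3 := C40_spec h (n + 3)
    have e : (C40 α β γ (n + 4)).eval v = -α * (C40 α β γ (n + 3)).eval v -
        β * (C40 α β γ (n + 2)).eval v - γ * (C40 α β γ (n + 1)).eval v +
        v * (C40 α β γ n).eval v := by
      rw [C40]; simp only [eval_add, eval_sub, eval_mul, eval_neg, eval_C, eval_X]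
    rw [e]
    unfold V3 at h0 h1 h2 h3 ⊢
    linear_combination (-α) * h3 - β * h2 - γ * h1 + v * h0 +
      (t₁ - t₃) * (t₁ - t₄) * (t₃ - t₄) * t₂ ^ n * h.root₂ -
      (t₁ - t₂) * (t₁ - t₄) * (t₂ - t₄) * t₃ ^ n * h.root₃ +
      (t₁ - t₂) * (t₁ - t₃) * (t₂ - t₃) * t₄ ^ n * h.root₄ -
      (t₂ - t₃) * (t₂ - t₄) * (t₃ - t₄) * t₁ ^ n * h.root₁

/-- the coefficient of `T ^ 3` in `T ^ (-j)` as a polynomial in `1 / x` -/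
noncomputable def D40 (α β γ : ℂ) : ℕ → ℂ[X]
  | 0 => 0
  | 1 => X
  | 2 => Polynomial.C γ * X ^ 2
  | 3 => Polynomial.C (γ ^ 2) * X ^ 3 + Polynomial.C β * X ^ 2
  | (n + 4) => X * (Polynomial.C γ * D40 α β γ (n + 3) + Polynomial.C β * D40 α β γ (n + 2) +
      Polynomial.C α * D40 α β γ (n + 1) + D40 α β γ n)

theorem D40_spec {w u₁ u₂ u₃ u₄ : ℂ} (h : Fib40 α β γ v t₁ t₂ t₃ t₄) (hw : v * w = 1)
    (hu₁ : t₁ * u₁ = 1) (hu₂ : t₂ * u₂ = 1) (hu₃ : t₃ * u₃ = 1) (hu₄ : t₄ * u₄ = 1) : ∀ k : ℕ,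
    V3 t₁ t₂ t₃ t₄ (u₁ ^ k) (u₂ ^ k) (u₃ ^ k) (u₄ ^ k) =
      -Vd t₁ t₂ t₃ t₄ * (D40 α β γ k).eval w := by
  have r : ∀ t u : ℂ, t * u = 1 → t ^ 4 = -α * t ^ 3 - β * t ^ 2 - γ * t + v →
      u = w * (t ^ 3 + α * t ^ 2 + β * t + γ) := by
    intro t u htu ht
    linear_combination (-u) * hw + w * (t ^ 3 + α * t ^ 2 + β * t + γ) * htu - w * u * ht
  have r₁ := r _ _ hu₁ h.root₁
  have r₂ := r _ _ hu₂ h.root₂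
  have r₃ := r _ _ hu₃ h.root₃
  have r₄ := r _ _ hu₄ h.root₄
  have q : ∀ t u : ℂ, t * u = 1 → u = w * (t ^ 3 + α * t ^ 2 + β * t + γ) →
      u ^ 2 = w * (t ^ 2 + α * t + β + γ * u) := by
    intro t u htu hu
    linear_combination u * hu + w * (t ^ 2 + α * t + β) * htu
  have q₁ := q _ _ hu₁ r₁
  have q₂ := q _ _ hu₂ r₂
  have q₃ := q _ _ hu₃ r₃
  have q₄ := q _ _ hu₄ r₄
  have g : ∀ t u : ℂ, t * u = 1 → u ^ 2 = w * (t ^ 2 + α * t + β + γ * u) →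
      u ^ 3 = w * (t + α + β * u + γ * u ^ 2) := by
    intro t u htu hu
    linear_combination u * hu + w * (t + α) * htu
  have g₁ := g _ _ hu₁ q₁
  have g₂ := g _ _ hu₂ q₂
  have g₃ := g _ _ hu₃ q₃
  have g₄ := g _ _ hu₄ q₄
  have s : ∀ (t u : ℂ) (n : ℕ), t * u = 1 → u ^ 3 = w * (t + α + β * u + γ * u ^ 2) →
      u ^ (n + 4) = w * (γ * u ^ (n + 3) + β * u ^ (n + 2) + α * u ^ (n + 1) + u ^ n) := by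
    intro t u n htu hu
    linear_combination u ^ (n + 1) * hu + w * u ^ n * htu
  have b1 : V3 t₁ t₂ t₃ t₄ u₁ u₂ u₃ u₄ = -Vd t₁ t₂ t₃ t₄ * w := by
    rw [r₁, r₂, r₃, r₄]; unfold V3 Vd; ring
  have b2 : V3 t₁ t₂ t₃ t₄ (u₁ ^ 2) (u₂ ^ 2) (u₃ ^ 2) (u₄ ^ 2) =
      -Vd t₁ t₂ t₃ t₄ * (γ * w ^ 2) := by
    have e : V3 t₁ t₂ t₃ t₄ (u₁ ^ 2) (u₂ ^ 2) (u₃ ^ 2) (u₄ ^ 2) =
        w * γ * V3 t₁ t₂ t₃ t₄ u₁ u₂ u₃ u₄ := by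
      rw [q₁, q₂, q₃, q₄]; unfold V3; ring
    rw [e, b1]; ring
  intro k
  induction k using Nat.strong_induction_on with
  | h k ih =>
    rcases k with _ | _ | _ | _ | n
    · simp only [D40, V3, eval_zero, pow_zero]; ring
    · simp only [D40, eval_X, zero_add, pow_one]; exact b1
    · simp only [D40, eval_mul, eval_C, eval_pow, eval_X, zero_add, Nat.reduceAdd]; exact b2
    · simp only [D40, eval_add, eval_mul, eval_C, eval_pow, eval_X, zero_add, Nat.reduceAdd]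
      have e : V3 t₁ t₂ t₃ t₄ (u₁ ^ 3) (u₂ ^ 3) (u₃ ^ 3) (u₄ ^ 3) =
          w * β * V3 t₁ t₂ t₃ t₄ u₁ u₂ u₃ u₄ +
          w * γ * V3 t₁ t₂ t₃ t₄ (u₁ ^ 2) (u₂ ^ 2) (u₃ ^ 2) (u₄ ^ 2) := by
        rw [g₁, g₂, g₃, g₄]; unfold V3; ring
      rw [e, b1, b2]; ring
    · have h0 := ih n (by omega)
      have h1 := ih (n + 1) (by omega)
      have h2 := ih (n + 2) (by omega)
      have h3 := ih (n + 3) (by omega)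
      have e : (D40 α β γ (n + 4)).eval w = w * (γ * (D40 α β γ (n + 3)).eval w +
          β * (D40 α β γ (n + 2)).eval w + α * (D40 α β γ (n + 1)).eval w +
          (D40 α β γ n).eval w) := by
        rw [D40]; simp only [eval_add, eval_mul, eval_C, eval_X]
      change V3 t₁ t₂ t₃ t₄ (u₁ ^ (n + 4)) (u₂ ^ (n + 4)) (u₃ ^ (n + 4)) (u₄ ^ (n + 4)) =
        -Vd t₁ t₂ t₃ t₄ * (D40 α β γ (n + 4)).eval w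
      rw [e]
      unfold V3 at h0 h1 h2 h3 ⊢
      linear_combination w * (γ * h3 + β * h2 + α * h1 + h0) +
        (t₁ - t₃) * (t₁ - t₄) * (t₃ - t₄) * s _ _ n hu₂ g₂ -
        (t₁ - t₂) * (t₁ - t₄) * (t₂ - t₄) * s _ _ n hu₃ g₃ +
        (t₁ - t₂) * (t₁ - t₃) * (t₂ - t₃) * s _ _ n hu₄ g₄ -
        (t₂ - t₃) * (t₂ - t₄) * (t₃ - t₄) * s _ _ n hu₁ g₁

theorem C40_eq_zero {k : ℕ} (h : Copl40 α β γ k) : C40 α β γ k = 0 := by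
  obtain ⟨bad, hb, hg⟩ := exists_fib40 α β γ
  apply zero_of_not_bad hb
  intro v hv
  obtain ⟨t₁, t₂, t₃, t₄, hf⟩ := hg v hv
  have h1 := h v t₁ t₂ t₃ t₄ hf
  simp only [zpow_natCast] at h1
  rw [C40_spec hf] at h1
  exact (mul_eq_zero.mp h1).resolve_left (neg_ne_zero.mpr hf.Vd_ne_zero)

theorem D40_eq_zero {k : ℕ} (h : Copl40 α β γ (-(k : ℤ))) : D40 α β γ k = 0 := by
  obtain ⟨bad, hb, hg⟩ := exists_fib40 α β γ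
  have hb' : ((fun v : ℂ => v⁻¹) '' bad ∪ {0}).Finite := (hb.image _).union (by simp)
  apply zero_of_not_bad hb'
  intro w hw
  simp only [Set.mem_union, Set.mem_image, Set.mem_singleton_iff, not_or, not_exists,
    not_and] at hw
  obtain ⟨hw1, hw0⟩ := hw
  obtain ⟨t₁, t₂, t₃, t₄, hf⟩ := hg w⁻¹ (by
    intro h1
    exact hw1 _ h1 (inv_inv w))
  have h1 := h _ t₁ t₂ t₃ t₄ hf
  simp only [zpow_neg, zpow_natCast, ← inv_pow] at h1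
  rw [D40_spec hf (inv_mul_cancel₀ hw0) (mul_inv_cancel₀ hf.ne₁) (mul_inv_cancel₀ hf.ne₂)
    (mul_inv_cancel₀ hf.ne₃) (mul_inv_cancel₀ hf.ne₄)] at h1
  exact (mul_eq_zero.mp h1).resolve_left (neg_ne_zero.mpr hf.Vd_ne_zero)

end Pool.Agent.Helper34_CStar
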