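import Pool.Agent.Helper34_CStar.Cls4

/-!
# Fibres of functions of degree four
-/

namespace Pool.Agent.Helper34_CStar

open Polynomial LaurentPolynomial

/-- the four points of a fibre of `F / X ^ k` -/
structure Four (F : ℂ[X]) (k : ℕ) (x : ℂ) (t₁ t₂ t₃ t₄ : ℂ) : Prop where
  ne₁ : t₁ ≠ 0
  ne₂ : t₂ ≠ 0
  ne₃ : t₃ ≠ 0
  ne₄ : t₄ ≠ 0
  d₁₂ : t₁ ≠ t₂
  d₁₃ : t₁ ≠ t₃
  d₁₄ : t₁ ≠ t₄
  d₂₃ : t₂ ≠ t₃
  d₂₄ : t₂ ≠ t₄
  d₃₄ : t₃ ≠ t₄
  eq : F - Polynomial.C x * X ^ k = (X - Polynomial.C t₁) * (X - Polynomial.C t₂) * (X - Polynomial.C t₃) * (X - Polynomial.C t₄)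

theorem Four.eval {F : ℂ[X]} {k : ℕ} {x t₁ t₂ t₃ t₄ : ℂ} (h : Four F k x t₁ t₂ t₃ t₄) :
    F.eval t₁ = x * t₁ ^ k ∧ F.eval t₂ = x * t₂ ^ k ∧ F.eval t₃ = x * t₃ ^ k ∧
      F.eval t₄ = x * t₄ ^ k := by
  have key : ∀ t, F.eval t - x * t ^ k = (t - t₁) * (t - t₂) * (t - t₃) * (t - t₄) := by
    intro t
    have := congrArg (Polynomial.eval t) h.eq
    simpa using this
  have h1 := key t₁
  have h2 := key t₂
  have h3 := key t₃
  have h4 := key t₄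
  simp only [sub_self, zero_mul, mul_zero] at h1 h2 h3 h4
  exact ⟨sub_eq_zero.mp h1, sub_eq_zero.mp h2, sub_eq_zero.mp h3, sub_eq_zero.mp h4⟩

/-- the elementary symmetric functions -/
theorem four_symm {t₁ t₂ t₃ t₄ a₃ a₂ a₁ a₀ : ℂ}
    (h : Polynomial.C 1 * X ^ 4 + Polynomial.C a₃ * X ^ 3 + Polynomial.C a₂ * X ^ 2 + Polynomial.C a₁ * X + Polynomial.C a₀ =
      (X - Polynomial.C t₁) * (X - Polynomial.C t₂) * (X - Polynomial.C t₃) * (X - Polynomial.C t₄)) :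
    t₁ + t₂ + t₃ + t₄ = -a₃ ∧
      t₁ * t₂ + t₁ * t₃ + t₁ * t₄ + t₂ * t₃ + t₂ * t₄ + t₃ * t₄ = a₂ ∧
      t₁ * t₂ * t₃ + t₁ * t₂ * t₄ + t₁ * t₃ * t₄ + t₂ * t₃ * t₄ = -a₁ ∧
      t₁ * t₂ * t₃ * t₄ = a₀ := by
  have h2 : (X - Polynomial.C t₁) * (X - Polynomial.C t₂) * (X - Polynomial.C t₃) * (X - Polynomial.C t₄) =
      Polynomial.C 1 * X ^ 4 + Polynomial.C (-(t₁ + t₂ + t₃ + t₄)) * X ^ 3 +
        Polynomial.C (t₁ * t₂ + t₁ * t₃ + t₁ * t₄ + t₂ * t₃ + t₂ * t₄ + t₃ * t₄) * X ^ 2 +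
        Polynomial.C (-(t₁ * t₂ * t₃ + t₁ * t₂ * t₄ + t₁ * t₃ * t₄ + t₂ * t₃ * t₄)) * X +
        Polynomial.C (t₁ * t₂ * t₃ * t₄) := by
    simp only [map_add, map_mul, map_neg, map_one]
    ring
  rw [h2] at h
  have e : ∀ (b₃ b₂ b₁ b₀ : ℂ) (n : ℕ),
      (Polynomial.C 1 * X ^ 4 + Polynomial.C b₃ * X ^ 3 + Polynomial.C b₂ * X ^ 2 + Polynomial.C b₁ * X + Polynomial.C b₀ : ℂ[X]).coeff n =
      (if n = 4 then 1 else 0) + (if n = 3 then b₃ else 0) + (if n = 2 then b₂ else 0) +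
        (if n = 1 then b₁ else 0) + (if n = 0 then b₀ else 0) := by
    intro b₃ b₂ b₁ b₀ n
    simp only [coeff_add, coeff_C_mul, coeff_X_pow, coeff_X, coeff_C, mul_ite, mul_one, mul_zero,
      eq_comm (a := 1) (b := n)]
  have h3 := congrArg (fun P : ℂ[X] => P.coeff 3) h
  have h4 := congrArg (fun P : ℂ[X] => P.coeff 2) h
  have h5 := congrArg (fun P : ℂ[X] => P.coeff 1) h
  have h6 := congrArg (fun P : ℂ[X] => P.coeff 0) h
  simp only [e] at h3 h4 h5 h6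
  norm_num at h3 h4 h5 h6
  refine ⟨?_, h4.symm, ?_, h6.symm⟩
  · linear_combination h3
  · linear_combination h5

theorem exists_four {F : ℂ[X]} {k : ℕ} (hF : F.Monic) (hd : F.natDegree = 4) (hk : k ≤ 3)
    (h0 : k = 0 ∨ F.coeff 0 ≠ 0) :
    ∃ bad : Set ℂ, bad.Finite ∧ ∀ x ∉ bad, ∃ t₁ t₂ t₃ t₄, Four F k x t₁ t₂ t₃ t₄ := by
  classical
  set W : ℂ[X] := X * F.derivative - Polynomial.C (k : ℂ) * F with hW
  have hW4 : W.coeff 4 = 4 - k := by
    rw [hW, coeff_sub, coeff_C_mul, coeff_X_mul, coeff_derivative]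
    have : F.coeff 4 = 1 := by rw [← hd]; exact hF
    rw [this]; push_cast; ring
  have hWne : W ≠ 0 := by
    intro h
    rw [h, coeff_zero] at hW4
    have : (k : ℂ) = ((4 : ℕ) : ℂ) := by push_cast; linear_combination hW4
    have := Nat.cast_injective this
    omega
  refine ⟨{0, F.eval 0} ∪ (fun t => F.eval t / t ^ k) '' {t | W.IsRoot t}, ?_, ?_⟩
  · apply Set.Finite.union
    · simp
    · exact (finite_setOfPred_isRoot hWne).image _
  intro x hxb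
  simp only [Set.mem_union, Set.mem_insert_iff, Set.mem_singleton_iff, Set.mem_image,
    Set.mem_ofPred_eq, not_or, not_exists, not_and] at hxb
  obtain ⟨⟨hx0, hx2⟩, hx3⟩ := hxb
  set P : ℂ[X] := F - Polynomial.C x * X ^ k with hP
  have hlt : (Polynomial.C x * X ^ k : ℂ[X]).degree < F.degree := by
    rw [degree_eq_natDegree hF.ne_zero, hd]
    refine lt_of_le_of_lt (degree_C_mul_X_pow_le _ _) ?_
    exact_mod_cast (by omega : k < 4)
  have hPm : P.Monic := hF.sub_of_left hlt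
  have hPd : P.natDegree = 4 := by
    rw [← hd]
    exact natDegree_eq_of_degree_eq (degree_sub_eq_left_of_degree_lt hlt)
  have hPne : P ≠ 0 := hPm.ne_zero
  have hroot0 : ∀ t, P.eval t = 0 → t ≠ 0 := by
    rintro t ht rfl
    rw [hP, eval_sub, eval_mul, eval_C, eval_pow, eval_X] at ht
    rcases Nat.eq_zero_or_pos k with h | h
    · rw [h, pow_zero, mul_one] at ht
      exact hx2 (sub_eq_zero.mp ht).symm
    · rw [zero_pow (by omega), mul_zero, sub_zero, ← coeff_zero_eq_eval_zero] at ht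
      rcases h0 with h0 | h0
      · omega
      · exact h0 ht
  have hnodup : P.roots.Nodup := by
    rw [Multiset.nodup_iff_count_le_one]
    intro t
    by_contra hcon
    rw [not_le, count_roots] at hcon
    have h1 : 0 < P.rootMultiplicity t := by omega
    have h2 := (rootMultiplicity_pos hPne).mp h1
    have h3 : (derivative P).IsRoot t := by
      have := (one_lt_rootMultiplicity_iff_isRoot hPne).mp hcon
      exact this.2
    have ht0 := hroot0 t h2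
    have e1 : F.eval t = x * t ^ k := by
      have := h2.eq_zero
      rw [hP, eval_sub, eval_mul, eval_C, eval_pow, eval_X] at this
      exact sub_eq_zero.mp this
    apply hx3 t
    · have e2 := h3.eq_zero
      rw [hP, derivative_sub, derivative_C_mul, derivative_X_pow, eval_sub, eval_mul, eval_mul,
        eval_C, eval_pow, eval_X, map_natCast, eval_natCast] at e2
      rw [IsRoot.def, hW, eval_sub, eval_mul, eval_mul, eval_X, eval_C, e1]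
      rcases Nat.eq_zero_or_pos k with h | h
      · subst h
        simp only [Nat.cast_zero, zero_mul, mul_zero, sub_zero] at e2 ⊢
        rw [e2, mul_zero]
      · obtain ⟨k', rfl⟩ : ∃ k', k = k' + 1 := ⟨k - 1, by omega⟩
        rw [Nat.add_sub_cancel] at e2
        rw [pow_succ]
        linear_combination t * e2
    · rw [e1, mul_div_cancel_right₀ _ (pow_ne_zero _ ht0)]
  have hsplit := IsAlgClosed.splits P
  have hcard : Multiset.card P.roots = 4 := by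
    rw [← hPd]
    exact hsplit.natDegree_eq_card_roots.symm
  obtain ⟨t₁, t₂, t₃, t₄, ht⟩ : ∃ t₁ t₂ t₃ t₄, P.roots = {t₁, t₂, t₃, t₄} :=
    Multiset.card_eq_four.mp hcard
  have hprod := hsplit.eq_prod_roots_of_monic hPm
  rw [ht] at hprod hnodup
  have hmem : ∀ t, t ∈ ({t₁, t₂, t₃, t₄} : Multiset ℂ) → t ≠ 0 := by
    intro t h
    rw [← ht, mem_roots hPne] at h
    exact hroot0 t h
  simp only [Multiset.insert_eq_cons, Multiset.nodup_cons, Multiset.mem_cons,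
    Multiset.mem_singleton, not_or, Multiset.nodup_singleton] at hnodup
  obtain ⟨⟨n1, n2, n3⟩, ⟨n4, n5⟩, n6, _⟩ := hnodup
  refine ⟨t₁, t₂, t₃, t₄, hmem _ (by simp), hmem _ (by simp), hmem _ (by simp),
    hmem _ (by simp), n1, n2, n3, n4, n5, n6, ?_⟩
  rw [← hP]
  conv_lhs => rw [hprod]
  simp only [Multiset.insert_eq_cons, Multiset.map_cons, Multiset.map_singleton,
    Multiset.prod_cons, Multiset.prod_singleton]
  ring

/-- a cubic polynomial with four zeros -/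
theorem cubic_zero {a₃ a₂ a₁ a₀ t₁ t₂ t₃ t₄ : ℂ} (h12 : t₁ ≠ t₂) (h13 : t₁ ≠ t₃) (h14 : t₁ ≠ t₄)
    (h23 : t₂ ≠ t₃) (h24 : t₂ ≠ t₄) (h34 : t₃ ≠ t₄)
    (h1 : a₃ * t₁ ^ 3 + a₂ * t₁ ^ 2 + a₁ * t₁ + a₀ = 0)
    (h2 : a₃ * t₂ ^ 3 + a₂ * t₂ ^ 2 + a₁ * t₂ + a₀ = 0)
    (h3 : a₃ * t₃ ^ 3 + a₂ * t₃ ^ 2 + a₁ * t₃ + a₀ = 0)
    (h4 : a₃ * t₄ ^ 3 + a₂ * t₄ ^ 2 + a₁ * t₄ + a₀ = 0) :
    a₃ = 0 ∧ a₂ = 0 ∧ a₁ = 0 ∧ a₀ = 0 := by
  have s12 := sub_ne_zero.mpr h12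
  have s13 := sub_ne_zero.mpr h13
  have s14 := sub_ne_zero.mpr h14
  have s23 := sub_ne_zero.mpr h23
  have s24 := sub_ne_zero.mpr h24
  have s34 := sub_ne_zero.mpr h34
  -- first divided differences
  have f12 : a₃ * (t₁ ^ 2 + t₁ * t₂ + t₂ ^ 2) + a₂ * (t₁ + t₂) + a₁ = 0 := by
    apply mul_left_cancel₀ s12
    linear_combination h1 - h2
  have f13 : a₃ * (t₁ ^ 2 + t₁ * t₃ + t₃ ^ 2) + a₂ * (t₁ + t₃) + a₁ = 0 := by
    apply mul_left_cancel₀ s13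
    linear_combination h1 - h3
  have f14 : a₃ * (t₁ ^ 2 + t₁ * t₄ + t₄ ^ 2) + a₂ * (t₁ + t₄) + a₁ = 0 := by
    apply mul_left_cancel₀ s14
    linear_combination h1 - h4
  have g23 : a₃ * (t₁ + t₂ + t₃) + a₂ = 0 := by
    apply mul_left_cancel₀ s23
    linear_combination f12 - f13
  have g24 : a₃ * (t₁ + t₂ + t₄) + a₂ = 0 := by
    apply mul_left_cancel₀ s24
    linear_combination f12 - f14
  have e3 : a₃ = 0 := by
    apply mul_left_cancel₀ s34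
    linear_combination g23 - g24
  have e2 : a₂ = 0 := by rw [e3] at g23; linear_combination g23
  have e1 : a₁ = 0 := by rw [e3, e2] at f12; linear_combination f12
  refine ⟨e3, e2, e1, ?_⟩
  rw [e3, e2, e1] at h1; linear_combination h1

theorem zero_of_not_bad {P : ℂ[X]} {bad : Set ℂ} (hb : bad.Finite)
    (h : ∀ x ∉ bad, P.eval x = 0) : P = 0 := by
  apply eq_zero_of_infinite_isRoot
  apply hb.infinite_compl.mono
  intro x hx
  exact h x hx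

/-- freeness of `1, T, T ^ 2, T ^ 3` over the functions of `x` -/
theorem free_four {F : ℂ[X]} {k : ℕ} (hF : F.Monic) (hd : F.natDegree = 4) (hk : k ≤ 3)
    (h0 : k = 0 ∨ F.coeff 0 ≠ 0) {P₃ P₂ P₁ P₀ : ℂ[X]}
    (h : ∀ t x : ℂ, t ≠ 0 → F.eval t = x * t ^ k →
      P₃.eval x * t ^ 3 + P₂.eval x * t ^ 2 + P₁.eval x * t + P₀.eval x = 0) :
    P₃ = 0 ∧ P₂ = 0 ∧ P₁ = 0 ∧ P₀ = 0 := by
  obtain ⟨bad, hb, hg⟩ := exists_four hF hd hk h0
  have key : ∀ x ∉ bad, P₃.eval x = 0 ∧ P₂.eval x = 0 ∧ P₁.eval x = 0 ∧ P₀.eval x = 0 := by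
    intro x hx
    obtain ⟨t₁, t₂, t₃, t₄, hf⟩ := hg x hx
    obtain ⟨e1, e2, e3, e4⟩ := hf.eval
    exact cubic_zero hf.d₁₂ hf.d₁₃ hf.d₁₄ hf.d₂₃ hf.d₂₄ hf.d₃₄ (h _ _ hf.ne₁ e1)
      (h _ _ hf.ne₂ e2) (h _ _ hf.ne₃ e3) (h _ _ hf.ne₄ e4)
  exact ⟨zero_of_not_bad hb fun x hx => (key x hx).1, zero_of_not_bad hb fun x hx => (key x hx).2.1,
    zero_of_not_bad hb fun x hx => (key x hx).2.2.1,
    zero_of_not_bad hb fun x hx => (key x hx).2.2.2⟩

end Pool.Agent.Helper34_CStar
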