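import Pool.Agent.Helper34_CStar.ClsTwoTwoSym

/-!
# Polynomials of degree four as coordinates: the structure of pairs
-/

namespace Pool.Agent.Helper34_CStar

open Polynomial LaurentPolynomial

/-- `T ^ 4 + α T ^ 3 + β T ^ 2 + γ T` -/
noncomputable def f40 (α β γ : ℂ) : ℂ[X] :=
  X ^ 4 + Polynomial.C α * X ^ 3 + Polynomial.C β * X ^ 2 + Polynomial.C γ * X

theorem f40_natDegree (α β γ : ℂ) : (f40 α β γ).natDegree = 4 := by
  unfold f40; compute_degree!

theorem f40_monic (α β γ : ℂ) : (f40 α β γ).Monic := by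
  unfold f40; monicity!

theorem f40_eval (α β γ t : ℂ) :
    (f40 α β γ).eval t = t ^ 4 + α * t ^ 3 + β * t ^ 2 + γ * t := by
  unfold f40; simp

theorem f40_aeval (α β γ : ℂ) {S : Type*} [CommRing S] [Algebra ℂ S] (t : S) :
    aeval t (f40 α β γ) = t ^ 4 + algebraMap ℂ S α * t ^ 3 + algebraMap ℂ S β * t ^ 2 +
      algebraMap ℂ S γ * t := by
  unfold f40; simp

/-- reduction on the curve of pairs -/
theorem scaled_reduce (α β γ : ℂ) (P : ℂ[X]) : ∃ (M : ℕ) (A B : ℂ[X]),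
    ∀ (S : Type) [CommRing S] [Algebra ℂ S] (t σ ω : S),
      ω * (2 * σ + algebraMap ℂ S α) = 1 →
      t ^ 2 = σ * t - ω * (σ ^ 3 + algebraMap ℂ S α * σ ^ 2 + algebraMap ℂ S β * σ +
        algebraMap ℂ S γ) →
      aeval t P = ω ^ M * (aeval σ A * t + aeval σ B) := by
  induction P using Polynomial.induction_on with
  | C r =>
    refine ⟨0, 0, Polynomial.C r, ?_⟩
    intro S _ _ t σ ω _ _
    simp
  | add p q hp hq =>
    obtain ⟨M, A, B, h⟩ := hp
    obtain ⟨M', A', B', h'⟩ := hq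
    refine ⟨M + M', A * (2 * X + Polynomial.C α) ^ M' + A' * (2 * X + Polynomial.C α) ^ M,
      B * (2 * X + Polynomial.C α) ^ M' + B' * (2 * X + Polynomial.C α) ^ M, ?_⟩
    intro S _ _ t σ ω h1 h2
    have e1 : ω ^ M * (2 * σ + algebraMap ℂ S α) ^ M = 1 := by rw [← mul_pow, h1, one_pow]
    have e2 : ω ^ M' * (2 * σ + algebraMap ℂ S α) ^ M' = 1 := by rw [← mul_pow, h1, one_pow]
    rw [map_add, h S t σ ω h1 h2, h' S t σ ω h1 h2]
    simp only [map_add, map_mul, map_pow, map_ofNat, aeval_X, aeval_C, pow_add]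
    linear_combination (-(ω ^ M * (aeval σ A * t + aeval σ B))) * e2 -
      (ω ^ M' * (aeval σ A' * t + aeval σ B')) * e1
  | monomial n r ih =>
    obtain ⟨M, A, B, h⟩ := ih
    refine ⟨M + 1, (2 * X + Polynomial.C α) * (A * X + B),
      -A * (X ^ 3 + Polynomial.C α * X ^ 2 + Polynomial.C β * X + Polynomial.C γ), ?_⟩
    intro S _ _ t σ ω h1 h2
    have e : (Polynomial.C r * X ^ (n + 1) : ℂ[X]) = Polynomial.C r * X ^ n * X := by
      rw [pow_succ]; ring
    rw [e, map_mul, aeval_X, h S t σ ω h1 h2]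
    simp only [map_add, map_mul, map_pow, map_neg, map_ofNat, aeval_X, aeval_C, pow_succ]
    linear_combination (ω ^ M * aeval σ A) * h2 -
      (ω ^ M * (aeval σ A * σ + aeval σ B) * t) * h1

/-- a polynomial whose roots are among two points -/
theorem eq_of_roots₂ {P : ℂ[X]} (hP : P ≠ 0) {a : ℂ} (h : ∀ u, P.eval u = 0 → u = a ∨ u = 0) :
    ∃ (c : ℂ) (i j : ℕ), c ≠ 0 ∧ P = Polynomial.C c * ((X - Polynomial.C a) ^ i * X ^ j) := by
  have key : ∀ s : Multiset ℂ, (∀ u ∈ s, u = a ∨ u = 0) → ∃ i j : ℕ,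
      (s.map fun r => X - Polynomial.C r).prod = (X - Polynomial.C a) ^ i * X ^ j := by
    intro s
    induction s using Multiset.induction_on with
    | empty => intro _; exact ⟨0, 0, by simp⟩
    | cons r s ih =>
      intro hs
      obtain ⟨i, j, hi⟩ := ih fun u hu => hs u (Multiset.mem_cons_of_mem hu)
      rw [Multiset.map_cons, Multiset.prod_cons, hi]
      rcases hs r (Multiset.mem_cons_self r s) with rfl | rfl
      · exact ⟨i + 1, j, by ring⟩
      · exact ⟨i, j + 1, by rw [map_zero]; ring⟩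
  obtain ⟨i, j, hi⟩ := key P.roots (by
    intro u hu
    exact h u ((mem_roots hP).mp hu))
  refine ⟨P.leadingCoeff, i, j, leadingCoeff_ne_zero.mpr hP, ?_⟩
  rw [← hi]
  exact (IsAlgClosed.splits P).eq_prod_roots

section

variable {α β γ : ℂ}

/-- the structure of the second coordinate -/
theorem forty_structure (hh : α ^ 3 - 4 * α * β + 8 * γ ≠ 0) {Y : ℂ[X]} {k : ℕ} (hk : 1 ≤ k)
    (hY : Y.coeff 0 ≠ 0)
    (hadj : Algebra.adjoin ℂ {toLaurent (f40 α β γ), toLaurent Y * T (-(k : ℤ))} = ⊤) :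
    ∃ (c : ℂ) (m : ℤ) (n : ℕ), c ≠ 0 ∧ (γ ≠ 0 → n = 0) ∧ ∀ t s : ℂ, t ≠ s →
      (f40 α β γ).eval t = (f40 α β γ).eval s → 2 * (t + s) + α ≠ 0 ∧
      s ^ k * Y.eval t - t ^ k * Y.eval s =
        c * (2 * (t + s) + α) ^ m * (t + s) ^ n * (t - s) := by
  obtain ⟨M₁, A₁, B₁, h₁⟩ := scaled_reduce α β γ Y
  obtain ⟨M₂, A₂, B₂, h₂⟩ := scaled_reduce α β γ (X ^ k)
  obtain ⟨N, hN⟩ : ∃ N, N = A₁ * B₂ - B₁ * A₂ := ⟨_, rfl⟩
  have key : ∀ (S : Type) [CommRing S] [Algebra ℂ S] (t s σ ω : S),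
      ω * (2 * σ + algebraMap ℂ S α) = 1 →
      t ^ 2 = σ * t - ω * (σ ^ 3 + algebraMap ℂ S α * σ ^ 2 + algebraMap ℂ S β * σ +
        algebraMap ℂ S γ) →
      s ^ 2 = σ * s - ω * (σ ^ 3 + algebraMap ℂ S α * σ ^ 2 + algebraMap ℂ S β * σ +
        algebraMap ℂ S γ) →
      s ^ k * aeval t Y - t ^ k * aeval s Y = ω ^ (M₁ + M₂) * aeval σ N * (t - s) := by
    intro S _ _ t s σ ω h0 ht hs
    have e1 := h₁ S t σ ω h0 ht
    have e2 := h₁ S s σ ω h0 hs
    have e3 := h₂ S t σ ω h0 ht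
    have e4 := h₂ S s σ ω h0 hs
    rw [map_pow, aeval_X] at e3 e4
    rw [e1, e2, e3, e4, hN, map_sub, map_mul, map_mul, pow_add]
    ring
  have hfib : ∀ (S : Type) [CommRing S] [Algebra ℂ S] (t σ ω : S),
      ω * (2 * σ + algebraMap ℂ S α) = 1 →
      t ^ 2 = σ * t - ω * (σ ^ 3 + algebraMap ℂ S α * σ ^ 2 + algebraMap ℂ S β * σ +
        algebraMap ℂ S γ) →
      aeval t (f40 α β γ) = -(ω * (σ ^ 3 + algebraMap ℂ S α * σ ^ 2 + algebraMap ℂ S β * σ +
        algebraMap ℂ S γ)) * (σ ^ 2 + algebraMap ℂ S α * σ + algebraMap ℂ S β -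
          ω * (σ ^ 3 + algebraMap ℂ S α * σ ^ 2 + algebraMap ℂ S β * σ +
        algebraMap ℂ S γ)) := by
    intro S _ _ t σ ω h0 ht
    rw [f40_aeval]
    obtain ⟨p, hp⟩ : ∃ p, p = ω * (σ ^ 3 + algebraMap ℂ S α * σ ^ 2 + algebraMap ℂ S β * σ +
        algebraMap ℂ S γ) := ⟨_, rfl⟩
    have h3 : p * (2 * σ + algebraMap ℂ S α) = σ ^ 3 + algebraMap ℂ S α * σ ^ 2 +
        algebraMap ℂ S β * σ + algebraMap ℂ S γ := by
      rw [hp]
      linear_combination (σ ^ 3 + algebraMap ℂ S α * σ ^ 2 + algebraMap ℂ S β * σ +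
        algebraMap ℂ S γ) * h0
    rw [← hp] at ht ⊢
    linear_combination (t ^ 2 + σ * t + σ ^ 2 - p + algebraMap ℂ S α * (t + σ) +
      algebraMap ℂ S β) * ht - t * h3
  -- zeros of `N`
  have hroot : ∀ σ : ℂ, 2 * σ + α ≠ 0 → (σ ≠ 0 ∨ γ ≠ 0) → N.eval σ ≠ 0 := by
    intro σ hθ hσ hN0
    obtain ⟨ω, hω⟩ : ∃ ω, ω = (2 * σ + α)⁻¹ := ⟨_, rfl⟩
    have hω1 : ω * (2 * σ + α) = 1 := by rw [hω]; exact inv_mul_cancel₀ hθ
    obtain ⟨p, hp⟩ : ∃ p, p = ω * (σ ^ 3 + α * σ ^ 2 + β * σ + γ) := ⟨_, rfl⟩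
    obtain ⟨r, hr⟩ := IsAlgClosed.exists_pow_nat_eq (σ ^ 2 - 4 * p) (by norm_num : 0 < 2)
    obtain ⟨t, ht⟩ : ∃ t, t = (σ + r) / 2 := ⟨_, rfl⟩
    obtain ⟨s, hs⟩ : ∃ s, s = (σ - r) / 2 := ⟨_, rfl⟩
    have hprod : t * s = p := by rw [ht, hs]; linear_combination (-1 / 4) * hr
    have hsum : t + s = σ := by rw [ht, hs]; ring
    have ht2 : t ^ 2 = σ * t - ω * (σ ^ 3 + algebraMap ℂ ℂ α * σ ^ 2 + algebraMap ℂ ℂ β * σ +
        algebraMap ℂ ℂ γ) := by
      simp only [Algebra.algebraMap_self, RingHom.id_apply]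
      linear_combination -hprod + t * hsum - hp
    have hs2 : s ^ 2 = σ * s - ω * (σ ^ 3 + algebraMap ℂ ℂ α * σ ^ 2 + algebraMap ℂ ℂ β * σ +
        algebraMap ℂ ℂ γ) := by
      simp only [Algebra.algebraMap_self, RingHom.id_apply]
      linear_combination -hprod + s * hsum - hp
    have hkey := key ℂ t s σ ω hω1 ht2 hs2
    simp only [coe_aeval_eq_eval] at hkey
    rw [hN0, mul_zero, zero_mul] at hkey
    -- a point at the origin
    have horig : ∀ t s : ℂ, s = 0 → t + s = σ → t * s = p →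
        s ^ k * Y.eval t - t ^ k * Y.eval s = 0 → False := by
      rintro t s rfl h1 h2 h3
      rw [zero_pow (by omega), zero_mul, zero_sub, neg_eq_zero, ← coeff_zero_eq_eval_zero] at h3
      have h4 : t = 0 := by
        have := (mul_eq_zero.mp h3).resolve_right hY
        exact (pow_eq_zero_iff (by omega)).mp this
      have h5 : σ = 0 := by rw [← h1, h4, add_zero]
      have h6 : γ = 0 := by
        have h7 : ω ≠ 0 := left_ne_zero_of_mul_eq_one hω1
        rw [mul_zero] at h2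
        rw [← h2, h5] at hp
        have h8 : ω * γ = 0 := by linear_combination -hp
        exact (mul_eq_zero.mp h8).resolve_left h7
      rcases hσ with h | h
      · exact h h5
      · exact h h6
    by_cases hs0 : s = 0
    · exact horig t s hs0 hsum hprod hkey
    by_cases ht0 : t = 0
    · exact horig s t ht0 (by rw [add_comm]; exact hsum) (by rw [mul_comm]; exact hprod)
        (by linear_combination -hkey)
    have hts : t = s := by
      apply geom_inj hadj t s ht0 hs0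
      · have e1 := hfib ℂ t σ ω hω1 ht2
        have e2 := hfib ℂ s σ ω hω1 hs2
        rw [coe_aeval_eq_eval] at e1
        rw [coe_aeval_eq_eval] at e2
        rw [e1, e2]
      · linear_combination hkey
    subst hts
    obtain ⟨τ, hτ⟩ : ∃ τ : ℂˣ, (τ : ℂ) = t := ⟨Units.mk0 t ht0, rfl⟩
    apply dualUnit_ne τ
    obtain ⟨e, he⟩ : ∃ e : DualNumber ℂ, e = DualNumber.eps := ⟨_, rfl⟩
    have he2 : e ^ 2 = 0 := by rw [he]; exact eps_sq
    have hu1 : ((dualUnit τ : (DualNumber ℂ)ˣ) : DualNumber ℂ) =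
      algebraMap ℂ _ t * (1 + e) := by rw [he, ← hτ]; rfl
    have hu2 : ((constUnit τ : (DualNumber ℂ)ˣ) : DualNumber ℂ) = algebraMap ℂ _ t := by
      rw [← hτ]; rfl
    have g0 : algebraMap ℂ (DualNumber ℂ) ω * (2 * algebraMap ℂ _ σ + algebraMap ℂ _ α) = 1 := by
      rw [← map_ofNat (algebraMap ℂ (DualNumber ℂ)), ← map_mul, ← map_add, ← map_mul, hω1,
        map_one]
    have gp : algebraMap ℂ (DualNumber ℂ) ω * ((algebraMap ℂ _ σ) ^ 3 + algebraMap ℂ _ α *
        (algebraMap ℂ _ σ) ^ 2 + algebraMap ℂ _ β * algebraMap ℂ _ σ + algebraMap ℂ _ γ) =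
        algebraMap ℂ (DualNumber ℂ) p := by
      rw [hp]; simp only [map_mul, map_add, map_pow]
    have g1 : ((dualUnit τ : (DualNumber ℂ)ˣ) : DualNumber ℂ) ^ 2 =
        algebraMap ℂ _ σ * (dualUnit τ : (DualNumber ℂ)ˣ) -
        algebraMap ℂ (DualNumber ℂ) ω * ((algebraMap ℂ _ σ) ^ 3 + algebraMap ℂ _ α *
        (algebraMap ℂ _ σ) ^ 2 + algebraMap ℂ _ β * algebraMap ℂ _ σ + algebraMap ℂ _ γ) := by
      rw [gp, hu1, ← hprod, ← hsum, map_add, map_mul]
      linear_combination (algebraMap ℂ (DualNumber ℂ) t) ^ 2 * he2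
    have g2 : ((constUnit τ : (DualNumber ℂ)ˣ) : DualNumber ℂ) ^ 2 =
        algebraMap ℂ _ σ * (constUnit τ : (DualNumber ℂ)ˣ) -
        algebraMap ℂ (DualNumber ℂ) ω * ((algebraMap ℂ _ σ) ^ 3 + algebraMap ℂ _ α *
        (algebraMap ℂ _ σ) ^ 2 + algebraMap ℂ _ β * algebraMap ℂ _ σ + algebraMap ℂ _ γ) := by
      rw [gp, hu2, ← hprod, ← hsum, map_add, map_mul]
      ring
    have g3 := key (DualNumber ℂ) _ _ _ _ g0 g1 g2
    have g4 : aeval (algebraMap ℂ (DualNumber ℂ) σ) N = 0 := by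
      rw [aeval_algebraMap_apply, coe_aeval_eq_eval, hN0, map_zero]
    rw [g4, mul_zero, zero_mul] at g3
    apply lev_ext hadj
    · rw [lev_toLaurent, lev_toLaurent, hfib _ _ _ _ g0 g1, hfib _ _ _ _ g0 g2]
    · have f1 := lev_y (dualUnit τ) Y k
      have f2 := lev_y (constUnit τ) Y k
      rw [← f1, ← f2] at g3
      have hun : IsUnit (((dualUnit τ : (DualNumber ℂ)ˣ) : DualNumber ℂ) ^ k *
          ((constUnit τ : (DualNumber ℂ)ˣ) : DualNumber ℂ) ^ k) :=
        ((dualUnit τ).isUnit.pow k).mul ((constUnit τ).isUnit.pow k)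
      apply hun.mul_left_cancel
      linear_combination g3
  have hθne : ∀ t s : ℂ, t ≠ s → (f40 α β γ).eval t = (f40 α β γ).eval s →
      2 * (t + s) + α ≠ 0 ∧ t * s * (2 * (t + s) + α) =
        (t + s) ^ 3 + α * (t + s) ^ 2 + β * (t + s) + γ := by
    intro t s hts hf
    rw [f40_eval, f40_eval] at hf
    have h1 : t * s * (2 * (t + s) + α) = (t + s) ^ 3 + α * (t + s) ^ 2 + β * (t + s) + γ := by
      apply mul_left_cancel₀ (sub_ne_zero.mpr hts)
      linear_combination -hf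
    refine ⟨?_, h1⟩
    intro h2
    apply hh
    rw [h2, mul_zero] at h1
    have h3 : t + s = -α / 2 := by linear_combination h2 / 2
    rw [h3] at h1
    linear_combination (-8) * h1
  -- the form of `N`
  obtain ⟨c, i, n, hc, hn, hNe⟩ : ∃ (c : ℂ) (i n : ℕ), c ≠ 0 ∧ (γ ≠ 0 → n = 0) ∧
      N = Polynomial.C c * ((X - Polynomial.C (-α / 2)) ^ i * X ^ n) := by
    have hNne : N ≠ 0 := by
      intro h0
      by_cases h1 : -α / 2 + 1 = 0
      · apply hroot (-α / 2 + 2)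
        · ring_nf; norm_num
        · left
          intro h2
          have : (1 : ℂ) = 0 := by linear_combination h2 - h1
          norm_num at this
        · rw [h0, eval_zero]
      · apply hroot (-α / 2 + 1)
        · ring_nf; norm_num
        · exact Or.inl h1
        · rw [h0, eval_zero]
    by_cases hγ : γ = 0
    · obtain ⟨c, i, j, hc, h⟩ := eq_of_roots₂ hNne (a := -α / 2) (by
        intro u hu
        by_contra hcon
        push Not at hcon
        exact hroot u (by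
          intro h1
          apply hcon.1
          linear_combination h1 / 2) (Or.inl hcon.2) hu)
      exact ⟨c, i, j, hc, fun h => absurd hγ h, h⟩
    · obtain ⟨c, b, hc, h⟩ := eq_of_root hNne (a := -α / 2) (by
        intro u hu
        by_contra hcon
        exact hroot u (by
          intro h1
          apply hcon
          linear_combination h1 / 2) (Or.inr hγ) hu)
      exact ⟨c, b, 0, hc, fun _ => rfl, by rw [h, pow_zero, mul_one]⟩
  refine ⟨c * (2 ^ i)⁻¹, (i : ℤ) - (M₁ + M₂ : ℕ), n, mul_ne_zero hc (inv_ne_zero (pow_ne_zero _ two_ne_zero)),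
    hn, ?_⟩
  intro t s hts hf
  obtain ⟨hθ, hp⟩ := hθne t s hts hf
  refine ⟨hθ, ?_⟩
  obtain ⟨ω, hω⟩ : ∃ ω, ω = (2 * (t + s) + α)⁻¹ := ⟨_, rfl⟩
  have hω1 : ω * (2 * (t + s) + α) = 1 := by rw [hω]; exact inv_mul_cancel₀ hθ
  have hp2 : ω * ((t + s) ^ 3 + α * (t + s) ^ 2 + β * (t + s) + γ) = t * s := by
    rw [← hp]; linear_combination (t * s) * hω1
  have hkey := key ℂ t s (t + s) ω hω1 (by
    simp only [Algebra.algebraMap_self, RingHom.id_apply]
    rw [hp2]; ring) (by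
    simp only [Algebra.algebraMap_self, RingHom.id_apply]
    rw [hp2]; ring)
  simp only [coe_aeval_eq_eval] at hkey
  rw [hkey, hNe]
  simp only [eval_mul, eval_C, eval_pow, eval_sub, eval_X]
  have e1 : t + s - -α / 2 = (2 * (t + s) + α) * 2⁻¹ := by ring
  rw [e1, mul_pow, zpow_sub₀ hθ, zpow_natCast, zpow_natCast, hω, inv_pow, inv_pow,
    div_eq_mul_inv]
  ring

end

end Pool.Agent.Helper34_CStar
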