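import Pool.Agent.Helper34_CStar.Decomp

/-!
# The trinomial identity `X ^ k = A(f) X + B(f)`
-/

namespace Pool.Agent.Helper34_CStar

open Polynomial UniqueFactorizationMonoid

/-- the degree of the radical is the number of roots -/
theorem natDegree_radical_le {D : ℂ[X]} (hD : D ≠ 0) :
    (radical D).natDegree ≤ D.roots.toFinset.card := by
  classical
  set S : ℂ[X] := ∏ x ∈ D.roots.toFinset, (X - C x) with hS
  have hSd : S.natDegree = D.roots.toFinset.card := by
    rw [hS, natDegree_prod_of_monic _ _ (fun x _ => monic_X_sub_C x)]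
    simp
  have hSm : S.Monic := monic_prod_of_monic _ _ (fun x _ => monic_X_sub_C x)
  have hdvd : D ∣ S ^ (D.natDegree) := by
    have h1 := (IsAlgClosed.splits D).eq_prod_roots
    have h2 : (D.roots.map fun a => X - C a).prod ∣ S ^ (D.natDegree) := by
      rw [Finset.prod_multiset_map_count, hS, ← Finset.prod_pow]
      apply Finset.prod_dvd_prod_of_dvd
      intro x _
      apply pow_dvd_pow
      exact le_trans (Multiset.count_le_card _ _) D.card_roots'
    have h3 : IsUnit (C D.leadingCoeff) := by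
      rw [isUnit_C]
      exact (leadingCoeff_ne_zero.mpr hD).isUnit
    calc D = C D.leadingCoeff * (D.roots.map fun a => X - C a).prod := h1
      _ ∣ S ^ (D.natDegree) := (h3.mul_left_dvd).mpr h2
  have h4 := (exists_dvd_pow_iff_radical_dvd hD).mp ⟨_, hdvd⟩
  rw [← hSd]
  exact natDegree_le_of_dvd h4 hSm.ne_zero

/-- a monic polynomial whose only root is zero -/
theorem eq_X_pow_of_roots {g : ℂ[X]} (hg : g.Monic) (h : ∀ t : ℂ, g.eval t = 0 → t = 0) :
    g = X ^ g.natDegree := by
  have h1 := (IsAlgClosed.splits g).eq_prod_roots_of_monic hg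
  have h2 : g.roots = Multiset.replicate g.natDegree 0 := by
    rw [Multiset.eq_replicate]
    refine ⟨(IsAlgClosed.splits g).natDegree_eq_card_roots.symm, ?_⟩
    intro b hb
    exact h b ((mem_roots hg.ne_zero).mp hb)
  conv_lhs => rw [h1, h2]
  simp

theorem trinomial_coprime {f : ℂ[X]} (hf : f.Monic) (hd : 2 ≤ f.natDegree)
    (hf1 : f.coeff 1 ≠ 0) {k : ℕ} {A B : ℂ[X]}
    (h : X ^ k = A.comp f * X + B.comp f) : IsCoprime A B := by
  rw [isCoprime_iff_aeval_ne_zero_of_isAlgClosed ℂ ℂ]
  intro x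
  by_contra hcon
  push Not at hcon
  obtain ⟨hA, hB⟩ := hcon
  rw [coe_aeval_eq_eval] at hA hB
  have hm : (f - C x).Monic := by
    apply hf.sub_of_left
    apply lt_of_le_of_lt degree_C_le
    rw [← natDegree_pos_iff_degree_pos]; omega
  have h1 : f - C x = X ^ (f - C x).natDegree := by
    apply eq_X_pow_of_roots hm
    intro t ht
    rw [eval_sub, eval_C, sub_eq_zero] at ht
    have h2 := congrArg (eval t) h
    simp only [eval_pow, eval_X, eval_add, eval_mul, eval_comp, ht, hA, hB, zero_mul,
      add_zero] at h2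
    by_contra hne
    exact pow_ne_zero _ hne h2
  have h3 := congrArg (fun q : ℂ[X] => q.coeff 1) h1
  simp only [natDegree_sub_C, coeff_sub, coeff_X_pow, coeff_C_succ] at h3
  rw [if_neg (by omega), sub_zero] at h3
  exact hf1 h3

/-- the discriminant identity -/
theorem disc_identity {R : Type*} [CommRing R] (k : ℕ) (hk : 2 ≤ k) (T A B w : R)
    (hB : T ^ k = A * T + B) (hw : w = k * T ^ (k - 1) - A) :
    ∃ Ω : R, ((k - 1 : R)) ^ (k - 1) * A ^ k + (-(k : R)) ^ k * B ^ (k - 1) = w ^ 2 * Ω := by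
  obtain ⟨l, rfl⟩ : ∃ l, k = l + 2 := ⟨k - 2, by omega⟩
  have e1 : l + 2 - 1 = l + 1 := by omega
  rw [e1] at hw ⊢
  have hA : A = (l + 2 : R) * T ^ (l + 1) + (-w) := by
    rw [hw]; push_cast; ring
  have hB2 : B = T * (-((l + 1 : R) * T ^ (l + 1)) + w) := by
    have : B = T ^ (l + 2) - A * T := by rw [hB]; ring
    rw [this, hA]; ring
  obtain ⟨p, hp⟩ := powAddExpansion ((l + 2 : R) * T ^ (l + 1)) (-w) (l + 2)
  obtain ⟨q, hq⟩ := powAddExpansion (-((l + 1 : R) * T ^ (l + 1))) w (l + 1)
  rw [← hA, e1] at hp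
  have hBp : B ^ (l + 1) = T ^ (l + 1) * ((-((l + 1 : R) * T ^ (l + 1))) ^ (l + 1) +
      ((l + 1 : ℕ) : R) * (-((l + 1 : R) * T ^ (l + 1))) ^ (l + 1 - 1) * w + q * w ^ 2) := by
    rw [hB2, mul_pow, hq]
  rw [hp, hBp]
  have e2 : l + 1 - 1 = l := by omega
  rw [e2]
  refine ⟨((l + 1 : R)) ^ (l + 1) * p + (-(l + 2 : R)) ^ (l + 2) * T ^ (l + 1) * q, ?_⟩
  push_cast
  have e3 : (-((l : R) + 1) * T ^ (l + 1)) ^ (l + 1) = (-1) ^ (l + 1) * ((l + 1 : R)) ^ (l + 1) *
    (T ^ (l + 1)) ^ (l + 1) := by
    rw [mul_pow, neg_pow]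
  have e4 : (-((l : R) + 1) * T ^ (l + 1)) ^ l = (-1) ^ l * ((l + 1 : R)) ^ l *
    (T ^ (l + 1)) ^ l := by
    rw [mul_pow, neg_pow]
  rw [← neg_mul, e3, e4, neg_pow ((l : R) + 2) (l + 2), mul_pow, mul_pow]
  set S := T ^ (l + 1)
  have e5 : ((-1 : R)) ^ (l + 2) * (-1) ^ (l + 1) = -1 := by
    rw [← pow_add]
    rw [Odd.neg_one_pow]
    exact ⟨l + 1, by ring⟩
  have e6 : ((-1 : R)) ^ (l + 2) * (-1) ^ l = 1 := by
    rw [← pow_add]
    rw [Even.neg_one_pow]
    exact ⟨l + 1, by ring⟩
  have e7 : (l : R) + 2 - 1 = l + 1 := by ring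
  rw [e7]
  linear_combination (((l : R) + 2) ^ (l + 2) * S * ((l + 1 : R)) ^ (l + 1) * S ^ (l + 1)) * e5 +
    (((l : R) + 2) ^ (l + 2) * S * ((l + 1 : R)) * ((l + 1 : R)) ^ l * S ^ l * w) * e6

theorem rootMult_pow (p : ℂ[X]) (n : ℕ) (t : ℂ) :
    rootMultiplicity t (p ^ n) = n * rootMultiplicity t p := by
  classical
  rw [← count_roots, roots_pow, Multiset.count_nsmul, count_roots]

theorem degree_arith {d α β k : ℕ} (hd : 3 ≤ d) (hβ1 : 1 ≤ β) (hfin : k + 1 ≤ α + β + d)
    (hka : α * d + 1 ≤ k) (hkb : β * d ≤ k) : α ≤ 1 ∧ β = 1 := by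
  obtain ⟨δ, rfl⟩ : ∃ δ, d = δ + 3 := ⟨d - 3, by omega⟩
  have h1 : α * δ + 2 * α ≤ β + δ + 1 := by nlinarith
  have h2 : β * δ + 2 * β ≤ α + δ + 2 := by nlinarith
  have hαβ : α + β ≤ 3 := by
    by_contra hcon
    have h3 : (α + β) * (δ + 1) ≤ 2 * δ + 3 := by nlinarith
    have h4 : 4 * (δ + 1) ≤ (α + β) * (δ + 1) := Nat.mul_le_mul_right _ (by omega)
    omega
  have hβ3 : β ≤ 1 := by
    by_contra hcon
    have h4 : 2 * δ ≤ β * δ := Nat.mul_le_mul_right _ (by omega)
    omega
  refine ⟨?_, by omega⟩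
  by_contra hcon
  have h4 : 2 * δ ≤ α * δ := Nat.mul_le_mul_right _ (by omega)
  omega

/-- **Classification of the trinomial identities.** -/
theorem trinomial_classification {f : ℂ[X]} (hf : f.Monic) (hd : 3 ≤ f.natDegree)
    (hf0 : f.coeff 0 = 0) (hf1 : f.coeff 1 ≠ 0) {k : ℕ} (hk : 1 ≤ k) {A B : ℂ[X]}
    (h : X ^ k = A.comp f * X + B.comp f) :
    (k = 1 ∧ A = 1 ∧ B = 0) ∨
    (k = f.natDegree ∧ ∃ e : ℂ, e ≠ 0 ∧ A = C e ∧ B = X ∧ f = X ^ f.natDegree - C e * X) ∨
    (k = f.natDegree + 1 ∧ ∃ r : ℂ, r ≠ 0 ∧ A = X + C (r ^ f.natDegree) ∧ B = - C r * X ∧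
      f * (X - C r) = X ^ (f.natDegree + 1) - C (r ^ f.natDegree) * X) := by
  classical
  set d := f.natDegree with hdd
  have hcop := trinomial_coprime hf (by omega) hf1 h
  have hf0' : f.eval 0 = 0 := by rw [← coeff_zero_eq_eval_zero]; exact hf0
  have hB0 : B.eval 0 = 0 := by
    have h1 := congrArg (eval 0) h
    simp only [eval_pow, eval_X, eval_add, eval_mul, eval_comp, hf0', mul_zero, zero_add] at h1
    rw [← h1, zero_pow (by omega)]
  have hA0 : A.eval 0 ≠ 0 := by
    intro h1
    obtain ⟨a, b, hab⟩ := hcop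
    have h2 := congrArg (eval 0) hab
    simp [h1, hB0] at h2
  have hA : A ≠ 0 := by rintro rfl; simp at hA0
  -- the case `k = 1`
  by_cases hk1 : k = 1
  · left
    subst hk1
    have h1 : (A - 1).comp f * X + B.comp f = 0 := by
      rw [sub_comp, one_comp]
      rw [pow_one] at h
      linear_combination -h
    obtain ⟨h2, h3⟩ := decomp_unique (by omega) h1
    exact ⟨rfl, sub_eq_zero.mp h2, h3⟩
  right
  have hk2 : 2 ≤ k := by omega
  have hB : B ≠ 0 := by
    rintro rfl
    simp only [zero_comp, add_zero] at h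
    have h1 : X ^ (k - 1) = A.comp f := by
      have h2 : (X : ℂ[X]) * X ^ (k - 1) = X * A.comp f := by
        rw [← pow_succ']
        have : k - 1 + 1 = k := by omega
        rw [this, h]; ring
      exact mul_left_cancel₀ X_ne_zero h2
    have h2 := congrArg (eval 0) h1
    simp only [eval_pow, eval_X, eval_comp, hf0'] at h2
    rw [zero_pow (by omega)] at h2
    exact hA0 h2.symm
  set α := A.natDegree with hα
  set β := B.natDegree with hβ
  have hβ1 : 1 ≤ β := by
    by_contra hcon
    have : B.natDegree = 0 := by omega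
    rw [natDegree_eq_zero] at this
    obtain ⟨b, rfl⟩ := this
    rw [eval_C] at hB0
    subst hB0
    simp at hB
  -- degrees
  have hAd : (A.comp f * X).natDegree = α * d + 1 := by
    have hAf : A.comp f ≠ 0 := by
      intro hh
      have := congrArg (eval 0) hh
      rw [eval_comp, hf0'] at this
      simp only [eval_zero] at this
      exact hA0 this
    rw [natDegree_mul_X hAf, natDegree_comp]
  have hBd : (B.comp f).natDegree = β * d := natDegree_comp
  have hne : α * d + 1 ≠ β * d := by
    intro hh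
    have h4 : d ∣ 1 := (Nat.dvd_add_right (Dvd.intro_left _ rfl)).mp
      (by rw [hh]; exact Dvd.intro_left _ rfl : d ∣ α * d + 1)
    have := Nat.le_of_dvd one_pos h4
    omega
  have hkmax : k = max (α * d + 1) (β * d) := by
    have h1 := congrArg natDegree h
    rw [natDegree_X_pow] at h1
    rw [h1]
    rcases lt_or_gt_of_ne hne with hlt | hgt
    · rw [natDegree_add_eq_right_of_natDegree_lt (by rw [hAd, hBd]; exact hlt), hBd,
        max_eq_right hlt.le]
    · rw [natDegree_add_eq_left_of_natDegree_lt (by rw [hAd, hBd]; exact hgt), hAd,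
        max_eq_left hgt.le]
  -- the derivative
  set F₁ : ℂ[X] := A.derivative.comp f * X + B.derivative.comp f with hF₁
  set w : ℂ[X] := (k : ℂ[X]) * X ^ (k - 1) - A.comp f with hw
  have hwF : w = f.derivative * F₁ := by
    have h1 := congrArg derivative h
    simp only [derivative_X_pow, derivative_add, derivative_mul, derivative_comp, derivative_X,
      mul_one, map_natCast] at h1
    rw [hw, h1, hF₁]; ring
  have hwX : w * X = C ((k : ℂ) - 1) * (A.comp f * X) + C (k : ℂ) * B.comp f := by
    rw [hw]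
    have e : (X : ℂ[X]) ^ k = X ^ (k - 1) * X := by rw [← pow_succ]; congr 1; omega
    have e2 : (k : ℂ[X]) * X ^ (k - 1) * X = (k : ℂ[X]) * (A.comp f * X + B.comp f) := by
      rw [mul_assoc, ← e, h]
    rw [sub_mul, e2]
    simp only [map_sub, map_natCast, map_one]
    ring
  have hkC : (k : ℂ) ≠ 0 := by exact_mod_cast (by omega : k ≠ 0)
  have hk1C : (k : ℂ) - 1 ≠ 0 := by
    rw [sub_ne_zero]
    exact_mod_cast hk1
  have hwXd : (w * X).natDegree = k := by
    rw [hwX]
    have h1 : (C ((k : ℂ) - 1) * (A.comp f * X)).natDegree = α * d + 1 := by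
      rw [natDegree_C_mul hk1C, hAd]
    have h2 : (C (k : ℂ) * B.comp f).natDegree = β * d := by
      rw [natDegree_C_mul hkC, hBd]
    refine Eq.trans ?_ hkmax.symm
    rcases lt_or_gt_of_ne hne with hlt | hgt
    · rw [natDegree_add_eq_right_of_natDegree_lt (by rw [h1, h2]; exact hlt), h2,
        max_eq_right hlt.le]
    · rw [natDegree_add_eq_left_of_natDegree_lt (by rw [h1, h2]; exact hgt), h1,
        max_eq_left hgt.le]
  have hw0 : w ≠ 0 := by
    rintro h1
    rw [h1] at hwXd
    simp at hwXd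
    omega
  have hwd : w.natDegree = k - 1 := by
    rw [natDegree_mul_X hw0] at hwXd; omega
  have hF₁0 : F₁ ≠ 0 := by
    rintro h1
    rw [h1, mul_zero] at hwF
    exact hw0 hwF
  have hf'0 : f.derivative ≠ 0 := by
    rintro h1
    rw [h1, zero_mul] at hwF
    exact hw0 hwF
  have hf'd : f.derivative.natDegree = d - 1 := natDegree_derivative f
  have hF₁d : F₁.natDegree + (d - 1) = k - 1 := by
    rw [← hwd, hwF, natDegree_mul hf'0 hF₁0, hf'd]; ring
  -- the discriminant
  set D : ℂ[X] := C (((k : ℂ) - 1) ^ (k - 1)) * A ^ k + C ((-(k : ℂ)) ^ k) * B ^ (k - 1) with hD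
  have hc1 : ((k : ℂ) - 1) ^ (k - 1) ≠ 0 := pow_ne_zero _ hk1C
  have hc2 : (-(k : ℂ)) ^ k ≠ 0 := pow_ne_zero _ (neg_ne_zero.mpr hkC)
  have hcopD : IsCoprime (C (((k : ℂ) - 1) ^ (k - 1)) * A ^ k)
      (C ((-(k : ℂ)) ^ k) * B ^ (k - 1)) := by
    rw [isCoprime_mul_unit_left_left ((isUnit_C).mpr hc1.isUnit),
      isCoprime_mul_unit_left_right ((isUnit_C).mpr hc2.isUnit)]
    exact hcop.pow
  have hD0 : D ≠ 0 := by
    intro h1
    have h2 : D.eval 0 = ((k : ℂ) - 1) ^ (k - 1) * (A.eval 0) ^ k := by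
      rw [hD]
      simp only [eval_add, eval_mul, eval_C, eval_pow, hB0]
      rw [zero_pow (by omega : k - 1 ≠ 0)]
      ring
    rw [h1, eval_zero] at h2
    exact mul_ne_zero hc1 (pow_ne_zero _ hA0) h2.symm
  have hDdvd : w ^ 2 ∣ D.comp f := by
    obtain ⟨Ω, hΩ⟩ := disc_identity k hk2 (X : ℂ[X]) (A.comp f) (B.comp f) w h hw
    refine ⟨Ω, ?_⟩
    rw [← hΩ, hD]
    simp only [add_comp, mul_comp, C_comp, pow_comp]
    simp only [map_pow, map_sub, map_neg, map_natCast, map_one]
  have hDf0 : D.comp f ≠ 0 := by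
    intro hh
    rw [comp_eq_zero_iff] at hh
    rcases hh with h1 | ⟨_, h2⟩
    · exact hD0 h1
    · have : d = 0 := by rw [hdd, h2]; simp
      omega
  -- the roots of `F₁`
  have hroot0 : ∀ t : ℂ, F₁.eval t = 0 → t ≠ 0 := by
    rintro t ht rfl
    have h1 : w.eval 0 = 0 := by rw [hwF, eval_mul, ht, mul_zero]
    rw [hw] at h1
    simp only [eval_sub, eval_mul, eval_natCast, eval_pow, eval_X, eval_comp, hf0'] at h1
    rw [zero_pow (by omega), mul_zero, zero_sub, neg_eq_zero] at h1
    exact hA0 h1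
  have hwt : ∀ t : ℂ, F₁.eval t = 0 → (k : ℂ) * t ^ (k - 1) = A.eval (f.eval t) := by
    intro t ht
    have h1 : w.eval t = 0 := by rw [hwF, eval_mul, ht, mul_zero]
    rw [hw] at h1
    simp only [eval_sub, eval_mul, eval_natCast, eval_pow, eval_X, eval_comp] at h1
    exact sub_eq_zero.mp h1
  have hht : ∀ t : ℂ, t ^ k = A.eval (f.eval t) * t + B.eval (f.eval t) := by
    intro t
    have h1 := congrArg (eval t) h
    simpa using h1
  have htk : ∀ t : ℂ, t ^ k = t ^ (k - 1) * t := by
    intro t; rw [← pow_succ]; congr 1; omega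
  have hinj : ∀ t s : ℂ, F₁.eval t = 0 → F₁.eval s = 0 → f.eval t = f.eval s → t = s := by
    intro t s ht hs hts
    have h1 := hwt t ht
    have h2 := hwt s hs
    have h3 := hht t
    have h4 := hht s
    rw [htk] at h3 h4
    rw [hts] at h1 h3
    have h5 : ((k : ℂ) - 1) * A.eval (f.eval s) * t = -(k * B.eval (f.eval s)) := by
      linear_combination t * h1 - (k : ℂ) * h3
    have h6 : ((k : ℂ) - 1) * A.eval (f.eval s) * s = -(k * B.eval (f.eval s)) := by
      linear_combination s * h2 - (k : ℂ) * h4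
    have h7 : ((k : ℂ) - 1) * A.eval (f.eval s) ≠ 0 := by
      apply mul_ne_zero hk1C
      rw [← h2]
      exact mul_ne_zero hkC (pow_ne_zero _ (hroot0 s hs))
    exact mul_left_cancel₀ h7 (h5.trans h6.symm)
  -- multiplicities
  have hmult : ∀ t : ℂ, F₁.eval t = 0 →
      rootMultiplicity t F₁ + 1 ≤ rootMultiplicity (f.eval t) D := by
    intro t ht
    have ht0 := hroot0 t ht
    set x := f.eval t with hx
    have hfx : f - C x ≠ 0 := by
      intro h
      have : (f - C x).natDegree = f.natDegree := natDegree_sub_C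
      rw [h] at this
      simp at this
      omega
    have hfr : (f - C x).IsRoot t := by simp [hx]
    set ρ := rootMultiplicity t f.derivative with hρ
    have hρ1 : rootMultiplicity t (f - C x) = ρ + 1 := by
      have h1 := derivative_rootMultiplicity_of_root hfr
      have h2 : (f - C x).derivative = f.derivative := by simp
      rw [h2] at h1
      have h3 : 0 < rootMultiplicity t (f - C x) := (rootMultiplicity_pos hfx).mpr hfr
      omega
    -- `ρ ≤ 1`
    have hρle : ρ ≤ 1 := by
      by_contra hcon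
      have h1 : (X - C t) ^ 3 ∣ f - C x := by
        rw [← le_rootMultiplicity_iff hfx]; omega
      have h2 : f - C x ∣ X ^ k - C (A.eval x) * X - C (B.eval x) := by
        have e : X ^ k - C (A.eval x) * X - C (B.eval x) =
          (A.comp f - C (A.eval x)) * X + (B.comp f - C (B.eval x)) := by
          rw [h]; ring
        rw [e]
        have h3 : ∀ P : ℂ[X], f - C x ∣ P.comp f - C (P.eval x) := by
          intro P
          have h4 : X - C x ∣ P - C (P.eval x) := by
            rw [dvd_iff_isRoot]; simp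
          obtain ⟨q, hq⟩ := h4
          refine ⟨q.comp f, ?_⟩
          have h5 := congrArg (fun g : ℂ[X] => g.comp f) hq
          simpa using h5
        exact dvd_add (Dvd.dvd.mul_right (h3 A) _) (h3 B)
      have h3 := pow_sub_dvd_iterate_derivative_of_pow_dvd 2 (h1.trans h2)
      have h4 : derivative^[2] (X ^ k - C (A.eval x) * X - C (B.eval x)) =
          C (k : ℂ) * (C ((k : ℂ) - 1) * X ^ (k - 2)) := by
        simp only [Function.iterate_succ, Function.iterate_zero, Function.comp_apply, id,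
          derivative_sub, derivative_X_pow, derivative_C_mul, derivative_X, derivative_C,
          mul_one, sub_zero]
        simp only [map_natCast, derivative_natCast_mul, derivative_X_pow]
        rw [Nat.cast_sub (by omega : 1 ≤ k)]
        simp only [Nat.cast_one, map_sub, map_natCast, map_one]
        have : k - 1 - 1 = k - 2 := by omega
        rw [this]
      rw [h4] at h3
      have h5 := (dvd_pow_self (X - C t) (by norm_num : 3 - 2 ≠ 0)).trans h3
      rw [dvd_iff_isRoot, IsRoot.def] at h5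
      simp only [eval_mul, eval_C, eval_pow, eval_X] at h5
      exact mul_ne_zero hkC (mul_ne_zero hk1C (pow_ne_zero _ ht0)) h5
    set m := rootMultiplicity x D with hm
    obtain ⟨D₁, hD₁, hD₁x⟩ := exists_eq_pow_rootMultiplicity_mul_and_not_dvd D hD0 x
    rw [← hm] at hD₁
    have hDc : D.comp f = (f - C x) ^ m * D₁.comp f := by
      conv_lhs => rw [hD₁]
      simp
    have hD₁t : rootMultiplicity t (D₁.comp f) = 0 := by
      apply rootMultiplicity_eq_zero
      intro h1
      apply hD₁x
      rw [dvd_iff_isRoot]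
      rw [IsRoot.def, eval_comp, ← hx] at h1
      exact h1
    have hmD : rootMultiplicity t (D.comp f) = m * (ρ + 1) := by
      rw [hDc] at hDf0 ⊢
      rw [rootMultiplicity_mul hDf0, hD₁t, add_zero, rootMult_pow, hρ1]
    have hw2 : rootMultiplicity t (w ^ 2) = 2 * (ρ + rootMultiplicity t F₁) := by
      rw [rootMult_pow, hwF, rootMultiplicity_mul (by rw [← hwF]; exact hw0)]
    have hle : 2 * (ρ + rootMultiplicity t F₁) ≤ m * (ρ + 1) := by
      rw [← hmD, ← hw2]
      exact rootMultiplicity_le_rootMultiplicity_of_dvd hDf0 hDdvd t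
    have hμ : 1 ≤ rootMultiplicity t F₁ := (rootMultiplicity_pos hF₁0).mpr ht
    interval_cases ρ
    · omega
    · omega
  -- counting
  have hcount : D.roots.toFinset.card + F₁.natDegree ≤ D.natDegree := by
    have h1 : D.natDegree = Multiset.card D.roots :=
      (IsAlgClosed.splits D).natDegree_eq_card_roots
    have h2 : F₁.natDegree = Multiset.card F₁.roots :=
      (IsAlgClosed.splits F₁).natDegree_eq_card_roots
    rw [h1, h2, ← Multiset.toFinset_sum_count_eq D.roots,
      ← Multiset.toFinset_sum_count_eq F₁.roots, Finset.card_eq_sum_ones]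
    set I := F₁.roots.toFinset.image (fun t => f.eval t) with hI
    have hIsub : I ⊆ D.roots.toFinset := by
      intro x hx
      rw [hI, Finset.mem_image] at hx
      obtain ⟨t, ht, rfl⟩ := hx
      rw [Multiset.mem_toFinset, mem_roots hF₁0] at ht
      have h3 := hmult t ht
      rw [Multiset.mem_toFinset, ← Multiset.count_pos, count_roots]
      omega
    have h4 : ∑ t ∈ F₁.roots.toFinset, Multiset.count t F₁.roots ≤
        ∑ x ∈ D.roots.toFinset, (Multiset.count x D.roots - 1) := by
      calc ∑ t ∈ F₁.roots.toFinset, Multiset.count t F₁.roots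
          ≤ ∑ t ∈ F₁.roots.toFinset, (Multiset.count (f.eval t) D.roots - 1) := by
            apply Finset.sum_le_sum
            intro t ht
            rw [Multiset.mem_toFinset, mem_roots hF₁0] at ht
            have h3 := hmult t ht
            rw [count_roots, count_roots]
            omega
        _ = ∑ x ∈ I, (Multiset.count x D.roots - 1) := by
            rw [hI, Finset.sum_image]
            intro t ht s hs hts
            rw [Finset.mem_coe, Multiset.mem_toFinset, mem_roots hF₁0] at ht hs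
            exact hinj t s ht hs hts
        _ ≤ ∑ x ∈ D.roots.toFinset, (Multiset.count x D.roots - 1) :=
            Finset.sum_le_sum_of_subset hIsub
    calc _ ≤ ∑ x ∈ D.roots.toFinset, 1 + ∑ x ∈ D.roots.toFinset,
          (Multiset.count x D.roots - 1) := Nat.add_le_add_left h4 _
      _ = ∑ x ∈ D.roots.toFinset, Multiset.count x D.roots := by
          rw [← Finset.sum_add_distrib]
          apply Finset.sum_congr rfl
          intro x hx
          rw [Multiset.mem_toFinset, ← Multiset.count_pos] at hx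
          omega
  -- Mason and Stothers
  have hCA : C (((k : ℂ) - 1) ^ (k - 1)) * A ^ k ≠ 0 :=
    mul_ne_zero (C_ne_zero.mpr hc1) (pow_ne_zero _ hA)
  have hCB : C ((-(k : ℂ)) ^ k) * B ^ (k - 1) ≠ 0 :=
    mul_ne_zero (C_ne_zero.mpr hc2) (pow_ne_zero _ hB)
  have hCAd : (C (((k : ℂ) - 1) ^ (k - 1)) * A ^ k).natDegree = k * α := by
    rw [natDegree_C_mul hc1, natDegree_pow]
  have hCBd : (C ((-(k : ℂ)) ^ k) * B ^ (k - 1)).natDegree = (k - 1) * β := by
    rw [natDegree_C_mul hc2, natDegree_pow]
  have hms := Polynomial.abc hCA hCB (neg_ne_zero.mpr hD0) hcopD (by rw [hD]; ring)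
  have hrad : (radical (C (((k : ℂ) - 1) ^ (k - 1)) * A ^ k *
      (C ((-(k : ℂ)) ^ k) * B ^ (k - 1)) * (-D))).natDegree ≤
      α + β + D.roots.toFinset.card := by
    have h1 : radical (C (((k : ℂ) - 1) ^ (k - 1)) * A ^ k) = radical A := by
      rw [radical_mul_of_isUnit_left (isUnit_C.mpr hc1.isUnit), radical_pow _ (by omega)]
    have h2 : radical (C ((-(k : ℂ)) ^ k) * B ^ (k - 1)) = radical B := by
      rw [radical_mul_of_isUnit_left (isUnit_C.mpr hc2.isUnit), radical_pow _ (by omega)]
    have h3 : radical (C (((k : ℂ) - 1) ^ (k - 1)) * A ^ k *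
      (C ((-(k : ℂ)) ^ k) * B ^ (k - 1)) * (-D)) ∣ radical A * radical B * radical D := by
      refine radical_mul_dvd.trans ?_
      rw [UniqueFactorizationDomain.radical_neg]
      apply mul_dvd_mul_right
      refine radical_mul_dvd.trans ?_
      rw [h1, h2]
    have h4 := natDegree_le_of_dvd h3 (mul_ne_zero (mul_ne_zero radical_ne_zero radical_ne_zero)
      radical_ne_zero)
    rw [natDegree_mul (mul_ne_zero radical_ne_zero radical_ne_zero) radical_ne_zero,
      natDegree_mul radical_ne_zero radical_ne_zero] at h4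
    have h5 := natDegree_le_of_dvd (radical_dvd_self (a := A)) hA
    have h6 := natDegree_le_of_dvd (radical_dvd_self (a := B)) hB
    have h7 := natDegree_radical_le hD0
    omega
  have hmain : k * α + 1 ≤ α + β + D.roots.toFinset.card ∧
      (k - 1) * β + 1 ≤ α + β + D.roots.toFinset.card := by
    rcases hms with ⟨h1, h2, _⟩ | ⟨_, h2, _⟩
    · rw [hCAd] at h1
      rw [hCBd] at h2
      exact ⟨h1.trans hrad, h2.trans hrad⟩
    · exfalso
      have h3 := derivative_eq_zero.mp h2
      rw [hCBd] at h3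
      rcases Nat.mul_eq_zero.mp h3 with h4 | h4 <;> omega
  have hDd : D.natDegree ≤ max (k * α) ((k - 1) * β) := by
    rw [← hCAd, ← hCBd, hD]
    exact natDegree_add_le _ _
  have hfin : k + 1 ≤ α + β + d := by
    obtain ⟨h1, h2⟩ := hmain
    rcases le_total (k * α) ((k - 1) * β) with h3 | h3
    · rw [max_eq_right h3] at hDd
      omega
    · rw [max_eq_left h3] at hDd
      omega
  have hka : α * d + 1 ≤ k := by rw [hkmax]; exact le_max_left _ _
  have hkb : β * d ≤ k := by rw [hkmax]; exact le_max_right _ _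
  have hnum : α ≤ 1 ∧ β = 1 := degree_arith hd hβ1 hfin hka hkb
  obtain ⟨hα1, hβ2⟩ := hnum
  -- the shape of `B`
  obtain ⟨b, hb⟩ : ∃ b : ℂ, B = C b * X := by
    refine ⟨B.coeff 1, ?_⟩
    have h1 := eq_X_add_C_of_natDegree_le_one (p := B) (by omega)
    rw [← coeff_zero_eq_eval_zero] at hB0
    rw [hB0] at h1
    simpa using h1
  have hb0 : b ≠ 0 := by
    rintro rfl
    rw [map_zero, zero_mul] at hb
    exact hB hb
  have hfd : f.coeff d = 1 := hf
  rcases Nat.le_one_iff_eq_zero_or_eq_one.mp hα1 with hα0 | hα1'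
  · -- the first case
    left
    have hkd : k = d := by
      rw [hkmax, hα0, hβ2, zero_mul, zero_add, one_mul]
      exact max_eq_right (by omega)
    obtain ⟨e, he⟩ := natDegree_eq_zero.mp (hα.symm.trans hα0)
    have he0 : e ≠ 0 := by
      rintro rfl
      rw [map_zero] at he
      exact hA he.symm
    rw [← he, hb, hkd] at h
    simp only [C_comp, mul_comp, X_comp] at h
    have hb1 : b = 1 := by
      have h1 := congrArg (fun q : ℂ[X] => q.coeff d) h
      simp only [coeff_X_pow, coeff_add, coeff_C_mul, coeff_X, hfd] at h1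
      rw [if_pos trivial, if_neg (by omega), mul_zero, zero_add, mul_one] at h1
      exact h1.symm
    subst hb1
    refine ⟨hkd, e, he0, he.symm, by rw [hb, map_one, one_mul], ?_⟩
    rw [map_one, one_mul] at h
    rw [h]; ring
  · -- the second case
    right
    have hkd : k = d + 1 := by
      rw [hkmax, hα1', hβ2, one_mul]
      exact max_eq_left (by omega)
    have he := eq_X_add_C_of_natDegree_le_one (p := A) (by omega)
    set a₁ := A.coeff 1
    set a₀ := A.coeff 0
    rw [he, hb, hkd] at h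
    simp only [C_comp, mul_comp, X_comp, add_comp] at h
    have ha1 : a₁ = 1 := by
      have h1 := congrArg (fun q : ℂ[X] => q.coeff (d + 1)) h
      simp only [coeff_X_pow, coeff_add, coeff_C_mul, coeff_mul_X, hfd, coeff_C_succ] at h1
      have h2 : f.coeff (d + 1) = 0 := coeff_eq_zero_of_natDegree_lt (by omega)
      have h3 : (C a₀ : ℂ[X]).coeff d = 0 := coeff_C_of_ne_zero (by omega)
      rw [if_pos trivial, h2, h3, mul_zero, add_zero, add_zero, mul_one] at h1
      exact h1.symm
    rw [ha1, map_one, one_mul] at h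
    have hr : a₀ = (-b) ^ d := by
      have h1 := congrArg (eval (-b)) h
      simp only [eval_pow, eval_X, eval_add, eval_mul, eval_C] at h1
      have h2 : (-b) * ((-b) ^ d - a₀) = 0 := by
        rw [pow_succ] at h1
        linear_combination h1
      exact (sub_eq_zero.mp ((mul_eq_zero.mp h2).resolve_left (neg_ne_zero.mpr hb0))).symm
    refine ⟨hkd, -b, neg_ne_zero.mpr hb0, ?_, ?_, ?_⟩
    · rw [he, ha1, hr, map_one, one_mul]
    · rw [hb, map_neg, neg_neg]
    · rw [← hr, h, map_neg]; ring

end Pool.Agent.Helper34_CStar
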