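import Pool.Agent.Helper34_CStar.Key
import Pool.Agent.Helper34_CStar.Mason

/-!
# From closed embeddings of the punctured line to polynomial identities
-/

namespace Pool.Agent.Helper34_CStar

open Polynomial LaurentPolynomial

/-- evaluation of a Laurent polynomial at a unit -/
noncomputable def lev {S : Type*} [CommRing S] [Algebra ℂ S] (u : Sˣ) : ℂ[T;T⁻¹] →+* S :=
  LaurentPolynomial.eval₂ (algebraMap ℂ S) u

section

variable {S : Type*} [CommRing S] [Algebra ℂ S]

@[simp] theorem lev_toLaurent (u : Sˣ) (f : ℂ[X]) : lev u (toLaurent f) = aeval (u : S) f := by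
  simp [lev, aeval_def]

theorem lev_y (u : Sˣ) (Y : ℂ[X]) (k : ℕ) :
    lev u (toLaurent Y * T (-(k : ℤ))) * (u : S) ^ k = aeval (u : S) Y := by
  rw [map_mul, lev_toLaurent, lev, eval₂_T_neg_n, mul_assoc, ← mul_pow, Units.inv_mul, one_pow,
    mul_one]

theorem lev_ext {x y : ℂ[T;T⁻¹]} (h : Algebra.adjoin ℂ {x, y} = ⊤) (u w : Sˣ)
    (hx : lev u x = lev w x) (hy : lev u y = lev w y) : u = w := by
  have hT : (T 1 : ℂ[T;T⁻¹]) ∈ Algebra.adjoin ℂ {x, y} := by rw [h]; trivial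
  have key : ∀ z ∈ Algebra.adjoin ℂ {x, y}, lev u z = lev w z := by
    intro z hz
    induction hz using Algebra.adjoin_induction with
    | mem z hz =>
      rcases hz with rfl | rfl
      · exact hx
      · exact hy
    | algebraMap r =>
      rw [← LaurentPolynomial.C_eq_algebraMap]
      simp [lev]
    | add a b _ _ ha hb => rw [map_add, map_add, ha, hb]
    | mul a b _ _ ha hb => rw [map_mul, map_mul, ha, hb]
  have := key _ hT
  simp only [lev, LaurentPolynomial.eval₂_T, zpow_one] at this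
  exact Units.ext this

end

/-- an embedding is injective -/
theorem geom_inj {f Y : ℂ[X]} {k : ℕ}
    (h : Algebra.adjoin ℂ {toLaurent f, toLaurent Y * T (-(k : ℤ))} = ⊤) :
    ∀ t s : ℂ, t ≠ 0 → s ≠ 0 → f.eval t = f.eval s →
      s ^ k * Y.eval t = t ^ k * Y.eval s → t = s := by
  intro t s ht hs hts hY
  have h1 := lev_ext h (Units.mk0 t ht) (Units.mk0 s hs) (by simpa using hts) (by
    have h2 := lev_y (Units.mk0 t ht) Y k
    have h3 := lev_y (Units.mk0 s hs) Y k
    simp only [Units.val_mk0, coe_aeval_eq_eval] at h2 h3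
    rw [← h2, ← h3] at hY
    have h4 : t ^ k * s ^ k ≠ 0 := mul_ne_zero (pow_ne_zero _ ht) (pow_ne_zero _ hs)
    apply mul_left_cancel₀ h4
    linear_combination hY)
  exact congrArg Units.val h1

/-- an embedding is an immersion -/
theorem geom_imm {f Y : ℂ[X]} {k : ℕ} (hk : 1 ≤ k)
    (h : Algebra.adjoin ℂ {toLaurent f, toLaurent Y * T (-(k : ℤ))} = ⊤) :
    ∀ t : ℂ, t ≠ 0 → f.derivative.eval t = 0 →
      t * Y.derivative.eval t - k * Y.eval t ≠ 0 := by
  intro t ht hf' hY'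
  set ε : DualNumber ℂ := DualNumber.eps with hε
  have hε2 : ε ^ 2 = 0 := DualNumber.eps_pow_two
  set τ : DualNumber ℂ := algebraMap ℂ _ t with hτ
  have hτi : τ * algebraMap ℂ _ t⁻¹ = 1 := by
    rw [hτ, ← map_mul, mul_inv_cancel₀ ht, map_one]
  let w : (DualNumber ℂ)ˣ := ⟨τ, algebraMap ℂ _ t⁻¹, hτi, by rw [mul_comm]; exact hτi⟩
  set σ : DualNumber ℂ := algebraMap ℂ _ t⁻¹ with hσ
  have hui : (τ + ε) * (σ - σ ^ 2 * ε) = 1 := by
    linear_combination (1 - σ * ε) * hτi - σ ^ 2 * hε2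
  let u : (DualNumber ℂ)ˣ := ⟨τ + ε, σ - σ ^ 2 * ε, hui, by rw [mul_comm]; exact hui⟩
  have hu : (u : DualNumber ℂ) = τ + ε := rfl
  have hw : (w : DualNumber ℂ) = τ := rfl
  have ha : ∀ P : ℂ[X], aeval τ P = algebraMap ℂ (DualNumber ℂ) (P.eval t) := by
    intro P
    rw [hτ, aeval_algebraMap_apply, coe_aeval_eq_eval]
  have h1 := lev_ext h u w (by
    rw [lev_toLaurent, lev_toLaurent, hu, hw, aeval_add_of_sq_eq_zero _ _ _ hε2, ha, ha, hf',
      map_zero, zero_mul, add_zero]) (by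
    have h2 := lev_y u Y k
    have h3 := lev_y w Y k
    rw [hu, aeval_add_of_sq_eq_zero _ _ _ hε2, ha, ha] at h2
    rw [hw, ha] at h3
    set η := lev w (toLaurent Y * T (-(k : ℤ))) with hη
    have h4 : (τ + ε) ^ k = τ ^ k + (k : DualNumber ℂ) * τ ^ (k - 1) * ε := by
      have := aeval_add_of_sq_eq_zero (X ^ k : ℂ[X]) τ ε hε2
      simpa [derivative_X_pow] using this
    have h5 : τ * τ ^ (k - 1) = τ ^ k := by rw [← pow_succ']; congr 1; omega
    have h6 : τ * algebraMap ℂ (DualNumber ℂ) (Y.derivative.eval t) =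
        (k : DualNumber ℂ) * algebraMap ℂ (DualNumber ℂ) (Y.eval t) := by
      rw [hτ, ← map_mul, ← map_natCast (algebraMap ℂ (DualNumber ℂ)), ← map_mul]
      congr 1
      linear_combination hY'
    have hunit : IsUnit ((τ + ε) ^ k) := u.isUnit.pow k
    apply hunit.mul_right_cancel
    rw [h2]
    have h7 : η * ((k : DualNumber ℂ) * τ ^ (k - 1)) =
        algebraMap ℂ (DualNumber ℂ) (Y.derivative.eval t) := by
      have hτu : IsUnit τ := w.isUnit
      apply hτu.mul_left_cancel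
      rw [h6, ← h3, ← h5]; ring
    rw [h4, ← h3, ← h7]; ring)
  have h2 := congrArg Units.val h1
  rw [hu, hw, add_eq_left] at h2
  have h3 := congrArg TrivSqZeroExt.snd h2
  rw [hε, DualNumber.snd_eps, TrivSqZeroExt.snd_zero] at h3
  exact one_ne_zero h3

/-- the function without pole at infinity must have a pole at zero -/
theorem exists_pole {f : ℂ[X]} {y : ℂ[T;T⁻¹]}
    (h : Algebra.adjoin ℂ {toLaurent f, y} = ⊤) :
    ∃ (Y : ℂ[X]) (k : ℕ), 1 ≤ k ∧ Y.coeff 0 ≠ 0 ∧ y = toLaurent Y * T (-(k : ℤ)) := by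
  have hnr : ∀ Y : ℂ[X], y ≠ toLaurent Y := by
    rintro Y rfl
    have h1 : Algebra.adjoin ℂ {toLaurent f, toLaurent Y} ≤ (toLaurentAlg : ℂ[X] →ₐ[ℂ] _).range := by
      rw [Algebra.adjoin_le_iff]
      rintro z (rfl | rfl)
      · exact ⟨f, by simp⟩
      · exact ⟨Y, by simp⟩
    rw [h] at h1
    have h2 : (T (-1) : ℂ[T;T⁻¹]) ∈ (toLaurentAlg : ℂ[X] →ₐ[ℂ] _).range := h1 trivial
    obtain ⟨P, hP⟩ := h2
    have hP' : toLaurent P = (T (-1) : ℂ[T;T⁻¹]) := by simpa using hP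
    have h3 : toLaurent (P * X) = toLaurent (1 : ℂ[X]) := by
      rw [map_mul, hP', toLaurent_X, map_one, ← T_add]
      simp
    have h4 := toLaurent_injective h3
    have h5 := congrArg (fun q : ℂ[X] => q.coeff 0) h4
    simp at h5
  obtain ⟨n, Y₀, hY₀⟩ := exists_T_pow y
  have hY₀0 : Y₀ ≠ 0 := by
    rintro rfl
    rw [map_zero] at hY₀
    have h1 : y = 0 := by
      have := (isUnit_T (R := ℂ) (n : ℤ)).mul_left_eq_zero.mp hY₀.symm
      exact this
    exact hnr 0 (by rw [h1, map_zero])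
  obtain ⟨Y, hY, hYd⟩ := exists_eq_pow_rootMultiplicity_mul_and_not_dvd Y₀ hY₀0 0
  set j := rootMultiplicity 0 Y₀ with hj
  rw [map_zero, sub_zero] at hY hYd
  have hYc : Y.coeff 0 ≠ 0 := by
    intro h1
    exact hYd (X_dvd_iff.mpr h1)
  have hy : y = toLaurent Y * T ((j : ℤ) - n) := by
    have h1 : y = toLaurent Y₀ * T (-(n : ℤ)) := by
      rw [hY₀, mul_T_assoc]; simp
    rw [h1, hY, map_mul, toLaurent_X_pow, mul_comm (T (j : ℤ)), mul_T_assoc]
    congr 2
  by_cases hjn : n ≤ j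
  · exfalso
    apply hnr (Y * X ^ (j - n))
    rw [hy, map_mul, toLaurent_X_pow]
    congr 2
    omega
  · refine ⟨Y, n - j, by omega, hYc, ?_⟩
    rw [hy]
    congr 2
    omega

end Pool.Agent.Helper34_CStar
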