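import Pool.Agent.Helper34_CStar.Class

/-!
# The classification theorem in prime degree
-/

namespace Pool.Agent.Helper34_CStar

open Polynomial LaurentPolynomial

theorem inClass_of_std {d : ℕ} {q : P2} {c : ℂ} {x₀ y₀ : ℂ[T;T⁻¹]}
    (hstd : IsStd x₀ y₀ (q - MvPolynomial.C c)) (hq0 : q - MvPolynomial.C c ≠ 0) {f : ℂ[X]}
    (hf : x₀ = toLaurent f) (hfd : f.natDegree = d) (hf1 : f.coeff 1 ≠ 0) : InClass d q := by
  have hp := prime_of_ker hq0 hstd.mem_ker_iff
  exact ⟨primitive_of_prime hp, c, hom2 x₀ y₀, MvPolynomial.X 0, f,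
    isFibre_of_ker hstd.surjective hp hstd.mem_ker_iff, ⟨AlgEquiv.refl, rfl⟩,
    by rw [hom2_X0, hf], hfd, hf1⟩

theorem inClass_q₁ {d : ℕ} (hd : 2 ≤ d) {g : ℂ[X]} (hg : g.Monic) (hgd : g.natDegree = d - 1)
    (hg0 : g.coeff 0 = 0) : InClass d (q₁ d g) := by
  set h : ℂ[X] := Polynomial.C 1 + g with hh
  have hhd : h.natDegree = d - 1 := by rw [hh, add_comm, natDegree_add_C, hgd]
  have hh0 : h.coeff 0 = 1 := by rw [hh, coeff_add, coeff_C_zero, hg0, add_zero]
  have hhl : h.leadingCoeff = 1 := by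
    rw [leadingCoeff, hhd, hh, coeff_add, coeff_C_of_ne_zero (by omega), zero_add, ← hgd]
    exact hg
  have hrd : h.reverse.natDegree = d - 1 := by
    rw [reverse_natDegree, hhd]
    have : h.natTrailingDegree = 0 := by
      apply natTrailingDegree_eq_zero_of_constantCoeff_ne_zero
      rw [constantCoeff_apply, hh0]; exact one_ne_zero
    rw [this, Nat.sub_zero]
  have hr0 : h.reverse.coeff 0 = 1 := by rw [coeff_zero_reverse, hhl]
  refine inClass_of_std (isStd_first (by omega) hg0 one_ne_zero) ?_ (f := X * h.reverse)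
    ?_ ?_ ?_
  · intro h1
    have h2 := congrArg (hom2 (0 : ℂ) (0 : ℂ)) h1
    rw [map_sub, hom2_q₁, hom2_C, map_zero, zero_mul, zero_sub, coe_aeval_eq_eval,
      ← coeff_zero_eq_eval_zero, hg0] at h2
    simp at h2
  · rw [map_mul, toLaurent_X, toLaurent_reverse, ← hh, hhd]
    have : (T 1 : ℂ[T;T⁻¹]) * T ((d - 1 : ℕ) : ℤ) = T (d : ℤ) := by
      rw [← T_add]; congr 1; omega
    linear_combination (-(invert (toLaurent h) : ℂ[T;T⁻¹])) * this
  · rw [natDegree_X_mul (by intro h0; rw [h0] at hr0; simp at hr0), hrd]; omega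
  · rw [coeff_X_mul, hr0]; exact one_ne_zero

theorem inClass_q₂ {d : ℕ} (hd : 2 ≤ d) : InClass d (q₂ d) := by
  have h0 : q₂ d - MvPolynomial.C 0 = q₂ d := by rw [map_zero, sub_zero]
  refine inClass_of_std (c := 0) (by rw [h0]; exact isStd_second hd) ?_ (f := X ^ d - X)
    ?_ ?_ ?_
  · rw [h0]
    intro h1
    have h2 := congrArg (hom2 (0 : ℂ) (0 : ℂ)) h1
    rw [hom2_q₂, map_zero, zero_pow (by omega)] at h2
    simp at h2
  · simp
  · rw [natDegree_sub_eq_left_of_natDegree_lt]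
    · simp
    · simp; omega
  · rw [coeff_sub, coeff_X_pow, if_neg (by omega), coeff_X_one]; simp

theorem inClass_q₃ {d : ℕ} (hd : 2 ≤ d) : InClass d (q₃ d) := by
  have h0 : q₃ d - MvPolynomial.C 0 = q₃ d := by rw [map_zero, sub_zero]
  have hco : ∀ n, 1 ≤ n → n ≤ d → (∑ i ∈ Finset.range d, (X : ℂ[X]) ^ (i + 1)).coeff n = 1 := by
    intro n hn hnd
    rw [finsetSum_coeff, Finset.sum_eq_single (n - 1)]
    · rw [coeff_X_pow, if_pos (by omega)]
    · intro b _ hb
      rw [coeff_X_pow, if_neg (by omega)]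
    · intro h
      exact absurd (Finset.mem_range.mpr (by omega)) h
  refine inClass_of_std (c := 0) (by rw [h0]; exact isStd_third (by omega)) ?_
    (f := ∑ i ∈ Finset.range d, X ^ (i + 1)) ?_ ?_ ?_
  · rw [h0]
    intro h1
    have h2 := congrArg (hom2 (0 : ℂ) (0 : ℂ)) h1
    rw [hom2_q₃, map_zero] at h2
    simp at h2
    omega
  · rw [map_sum]
    apply Finset.sum_congr rfl
    intro i _
    rw [toLaurent_X_pow]
  · apply le_antisymm
    · apply natDegree_sum_le_of_forall_le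
      intro i hi
      rw [Finset.mem_range] at hi
      rw [natDegree_X_pow]; omega
    · apply le_natDegree_of_ne_zero
      rw [hco d (by omega) le_rfl]; exact one_ne_zero
  · rw [hco 1 le_rfl (by omega)]; exact one_ne_zero

theorem onePair_of_prime {d : ℕ} (hp : d.Prime) (φ : P2 →ₐ[ℂ] ℂ[T;T⁻¹]) (u v : P2) :
    OnePair d φ u v := by
  intro A P F k _ _
  rcases Nat.coprime_or_dvd_of_prime hp (F.natDegree - k) with h | h
  · exact Or.inr h
  · exact Or.inl h

theorem inPairClass_imp {d : ℕ} (h3 : 3 ≤ d) {p : P2} (h : InPairClass d p) :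
    ∃ q, IsRepresentative d q ∧ Equivalent p q := by
  obtain ⟨hprim, c, φ, α, f, ⟨hs, hker⟩, hu, hfd, hf1, hpair⟩ := h
  subst hfd
  have hs' : Function.Surjective (φ.comp (α : P2 →ₐ[ℂ] P2)) := by
    rw [AlgHom.coe_comp]; exact hs.comp α.surjective
  obtain ⟨β, q, h1, h2⟩ := exists_rep h3 hf1 (φ.comp (α : P2 →ₐ[ℂ] P2)) hs' (by
    have : (φ.comp (α : P2 →ₐ[ℂ] P2)) (MvPolynomial.X 0) = φ (α (MvPolynomial.X 0)) := rfl
    rw [this, hu]) (by
    intro A P F k hF hk
    apply hpair A P F k _ hk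
    rw [← hF]
    congr 1
    have h4 : ∀ B : ℂ[X], α (aeval (MvPolynomial.X 0 : P2) B) =
        aeval (α (MvPolynomial.X 0) : P2) B := by
      intro B
      have h5 := aeval_algHom_apply (α : P2 →ₐ[ℂ] P2) (MvPolynomial.X 0 : P2) B
      exact h5.symm
    have h5 : (φ.comp (α : P2 →ₐ[ℂ] P2)) (aeval (MvPolynomial.X 0 : P2) A *
        MvPolynomial.X 1 - aeval (MvPolynomial.X 0 : P2) P) =
        φ (α (aeval (MvPolynomial.X 0 : P2) A *
        MvPolynomial.X 1 - aeval (MvPolynomial.X 0 : P2) P)) := rfl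
    rw [h5, map_sub α, map_mul α, h4, h4])
  have h4 : ∀ r, φ r = 0 ↔ (β.trans α) q ∣ r := by
    intro r
    obtain ⟨r', rfl⟩ := α.surjective r
    have h5 := h1 r'
    have h6 : (φ.comp (α : P2 →ₐ[ℂ] P2)) r' = φ (α r') := rfl
    rw [h6] at h5
    rw [h5, AlgEquiv.trans_apply, map_dvd_iff]
  obtain ⟨a, ha, hpa⟩ := eq_of_primitive hprim hker h4
  rcases h2 with ⟨g, c₀, hg, hgd, hg0, _, hq⟩ | hq | hq
  · refine ⟨q₁ f.natDegree g, Or.inl ⟨g, hg, hgd, hg0, rfl⟩, β.trans α, a, c - a * c₀, ha, ?_⟩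
    have h5 : (β.trans α) (MvPolynomial.C c₀) = (MvPolynomial.C c₀ : P2) := by
      rw [← MvPolynomial.algebraMap_eq]; exact (β.trans α).commutes c₀
    rw [hpa, hq, map_sub, h5, map_sub, map_mul]
    ring
  · exact ⟨q₂ f.natDegree, Or.inr (Or.inl rfl), β.trans α, a, c, ha, by rw [← hq]; exact hpa⟩
  · exact ⟨q₃ f.natDegree, Or.inr (Or.inr rfl), β.trans α, a, c, ha, by rw [← hq]; exact hpa⟩

theorem inClass_iff_inPairClass {d : ℕ} (hp : d.Prime) (p : P2) :
    InClass d p ↔ InPairClass d p := by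
  constructor
  · rintro ⟨hprim, c, φ, u, f, hfib, ⟨α, hα⟩, hu, hfd, hf1⟩
    exact ⟨hprim, c, φ, α, f, hfib, by rw [hα, hu], hfd, hf1, onePair_of_prime hp _ _ _⟩
  · rintro ⟨hprim, c, φ, α, f, hfib, hu, hfd, hf1, _⟩
    exact ⟨hprim, c, φ, α (MvPolynomial.X 0), f, hfib, ⟨α, rfl⟩, hu, hfd, hf1⟩

/-- **Classification in prime degree.** -/
theorem classification_prime {d : ℕ} (hp : d.Prime) (h3 : 3 ≤ d) (p : P2) :
    InClass d p ↔ ∃ q, IsRepresentative d q ∧ Equivalent p q := by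
  constructor
  · intro h
    exact inPairClass_imp h3 ((inClass_iff_inPairClass hp p).mp h)
  · rintro ⟨q, hq, hpq⟩
    apply inClass_of_equivalent hpq
    rcases hq with ⟨g, hg, hgd, hg0, rfl⟩ | rfl | rfl
    · exact inClass_q₁ (by omega) hg hgd hg0
    · exact inClass_q₂ (by omega)
    · exact inClass_q₃ (by omega)

end Pool.Agent.Helper34_CStar
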