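import Pool.Agent.Helper34_CStar.Unique2
import Pool.Agent.Helper34_CStar.MainPrime

/-!
# The representatives are pairwise inequivalent
-/

namespace Pool.Agent.Helper34_CStar

open Polynomial LaurentPolynomial

theorem exists_min_repr (z : ℂ[T;T⁻¹]) :
    ∃ (V : ℂ[X]) (a : ℕ), z = toLaurent V * T (-(a : ℤ)) ∧ (a = 0 ∨ V.coeff 0 ≠ 0) := by
  obtain ⟨n, Y₀, hY₀⟩ := exists_T_pow z
  have hz : z = toLaurent Y₀ * T (-(n : ℤ)) := by rw [hY₀, mul_T_assoc]; simp
  by_cases h0 : Y₀ = 0
  · exact ⟨0, 0, by rw [hz, h0]; simp, Or.inl rfl⟩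
  obtain ⟨Y, hY, hYd⟩ := exists_eq_pow_rootMultiplicity_mul_and_not_dvd Y₀ h0 0
  set j := rootMultiplicity 0 Y₀ with hj
  rw [map_zero, sub_zero] at hY hYd
  have hYc : Y.coeff 0 ≠ 0 := fun h1 => hYd (X_dvd_iff.mpr h1)
  have hy : z = toLaurent Y * T ((j : ℤ) - n) := by
    rw [hz, hY, map_mul, toLaurent_X_pow, mul_comm (T (j : ℤ)), mul_T_assoc]
    congr 2
  by_cases hjn : n ≤ j
  · refine ⟨Y * X ^ (j - n), 0, ?_, Or.inl rfl⟩
    rw [hy, map_mul, toLaurent_X_pow]
    simp only [Nat.cast_zero, neg_zero, T_zero, mul_one]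
    congr 2
    omega
  · refine ⟨Y, n - j, ?_, Or.inr hYc⟩
    rw [hy]
    congr 2
    omega

open UniqueFactorizationMonoid in
/-- Davenport's inequality in the form needed here -/
theorem davenport_poly {V Y : ℂ[X]} {d m : ℕ} (hd : 3 ≤ d) {c : ℂ} (hc : c ≠ 0)
    (h : V ^ d - Y ^ (d - 1) = Polynomial.C c * X ^ m)
    (hm : m = 0 ∨ (V.coeff 0 ≠ 0 ∧ Y.coeff 0 ≠ 0)) :
    m = 0 ∧ V.natDegree = 0 ∧ Y.natDegree = 0 := by
  have hV0 : V.natDegree = 0 ∧ Y.natDegree = 0 := by
    by_cases hV : V = 0
    · subst hV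
      rw [zero_pow (by omega), zero_sub] at h
      rcases hm with hm | hm
      · subst hm
        rw [pow_zero, mul_one] at h
        have h1 := congrArg natDegree h
        rw [natDegree_neg, natDegree_pow, natDegree_C] at h1
        refine ⟨natDegree_zero, ?_⟩
        rcases Nat.mul_eq_zero.mp h1 with h2 | h2
        · omega
        · exact h2
      · exact absurd rfl hm.1
    by_cases hY : Y = 0
    · subst hY
      rw [zero_pow (by omega), sub_zero] at h
      rcases hm with hm | hm
      · subst hm
        rw [pow_zero, mul_one] at h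
        have h1 := congrArg natDegree h
        rw [natDegree_pow, natDegree_C] at h1
        refine ⟨?_, natDegree_zero⟩
        rcases Nat.mul_eq_zero.mp h1 with h2 | h2
        · omega
        · exact h2
      · exact absurd rfl hm.2
    have hcop : IsCoprime V Y := by
      rw [isCoprime_iff_aeval_ne_zero_of_isAlgClosed ℂ ℂ]
      intro x
      by_contra hcon
      push Not at hcon
      obtain ⟨h1, h2⟩ := hcon
      rw [coe_aeval_eq_eval] at h1 h2
      have h3 := congrArg (eval x) h
      rw [eval_sub, eval_pow, eval_pow, h1, h2, zero_pow (by omega), zero_pow (by omega),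
        eval_mul, eval_C, eval_pow, eval_X, sub_zero] at h3
      have h4 := (mul_eq_zero.mp h3.symm).resolve_left hc
      by_cases hm0 : m = 0
      · subst hm0; simp at h4
      · have hx : x = 0 := by
          by_contra hne
          exact pow_ne_zero _ hne h4
        subst hx
        rcases hm with hm | hm
        · exact hm0 hm
        · apply hm.1
          rw [coeff_zero_eq_eval_zero]; exact h1
    have ha : V ^ d ≠ 0 := pow_ne_zero _ hV
    have hb : -Y ^ (d - 1) ≠ 0 := neg_ne_zero.mpr (pow_ne_zero _ hY)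
    have hcc : -(Polynomial.C c * X ^ m) ≠ 0 :=
      neg_ne_zero.mpr (mul_ne_zero (C_ne_zero.mpr hc) (pow_ne_zero _ X_ne_zero))
    have hms := Polynomial.abc ha hb hcc ((hcop.pow).neg_right) (by rw [← h]; ring)
    have hrad : (radical (V ^ d * -Y ^ (d - 1) * -(Polynomial.C c * X ^ m))).natDegree ≤
        V.natDegree + Y.natDegree + 1 := by
      have h1 : radical (V ^ d * -Y ^ (d - 1) * -(Polynomial.C c * X ^ m)) ∣
          radical V * radical Y * X := by
        refine radical_mul_dvd.trans ?_
        apply mul_dvd_mul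
        · refine radical_mul_dvd.trans ?_
          rw [UniqueFactorizationDomain.radical_neg, radical_pow _ (by omega),
            radical_pow _ (by omega)]
        · rw [UniqueFactorizationDomain.radical_neg,
            radical_mul_of_isUnit_left (isUnit_C.mpr hc.isUnit)]
          refine radical_pow_dvd.trans ?_
          exact radical_dvd_self
      have h2 := natDegree_le_of_dvd h1 (mul_ne_zero (mul_ne_zero radical_ne_zero
        radical_ne_zero) X_ne_zero)
      rw [natDegree_mul (mul_ne_zero radical_ne_zero radical_ne_zero) X_ne_zero,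
        natDegree_mul radical_ne_zero radical_ne_zero, natDegree_X] at h2
      have h5 := natDegree_le_of_dvd (radical_dvd_self (a := V)) hV
      have h6 := natDegree_le_of_dvd (radical_dvd_self (a := Y)) hY
      omega
    rcases hms with ⟨h1, h2, _⟩ | ⟨h1, h2, _⟩
    · rw [natDegree_pow] at h1
      rw [natDegree_neg, natDegree_pow] at h2
      have h3 := h1.trans hrad
      have h4 := h2.trans hrad
      obtain ⟨e, rfl⟩ : ∃ e, d = e + 3 := ⟨d - 3, by omega⟩
      have e1 : e + 3 - 1 = e + 2 := by omega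
      rw [e1] at h4
      have h5 : (e + 2) * V.natDegree ≤ Y.natDegree := by nlinarith
      have h6 : (e + 1) * Y.natDegree ≤ V.natDegree := by nlinarith
      have h7 : (e + 1) * ((e + 2) * V.natDegree) ≤ V.natDegree :=
        le_trans (Nat.mul_le_mul_left _ h5) h6
      have h8 : V.natDegree = 0 := by
        by_contra hne
        have h9 : 1 * (2 * V.natDegree) ≤ (e + 1) * ((e + 2) * V.natDegree) :=
          Nat.mul_le_mul (by omega) (Nat.mul_le_mul_right _ (by omega))
        omega
      refine ⟨h8, ?_⟩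
      rw [h8] at h6
      rcases Nat.mul_eq_zero.mp (Nat.le_zero.mp h6) with h9 | h9
      · omega
      · exact h9
    · have h3 := derivative_eq_zero.mp h1
      have h4 := derivative_eq_zero.mp h2
      rw [natDegree_pow] at h3
      rw [natDegree_neg, natDegree_pow] at h4
      constructor
      · rcases Nat.mul_eq_zero.mp h3 with h9 | h9
        · omega
        · exact h9
      · rcases Nat.mul_eq_zero.mp h4 with h9 | h9
        · omega
        · exact h9
  refine ⟨?_, hV0⟩
  obtain ⟨h1, h2⟩ := hV0
  obtain ⟨v, rfl⟩ := natDegree_eq_zero.mp h1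
  obtain ⟨y, rfl⟩ := natDegree_eq_zero.mp h2
  have h3 := congrArg natDegree h
  rw [← C_pow, ← C_pow, ← C_sub, natDegree_C, natDegree_C_mul_X_pow _ _ hc] at h3
  exact h3.symm

/-- the same for Laurent polynomials -/
theorem davenport {v y : ℂ[T;T⁻¹]} {d : ℕ} (hd : 3 ≤ d) {c : ℂ} (hc : c ≠ 0)
    (h : v ^ d - y ^ (d - 1) = LaurentPolynomial.C c) :
    (∃ a, v = LaurentPolynomial.C a) ∧ ∃ b, y = LaurentPolynomial.C b := by
  obtain ⟨V, a, hv, ha⟩ := exists_min_repr v
  obtain ⟨Y, b, hy, hb⟩ := exists_min_repr y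
  set M := max (d * a) ((d - 1) * b) with hM
  have hMa : d * a ≤ M := le_max_left _ _
  have hMb : (d - 1) * b ≤ M := le_max_right _ _
  have key : V ^ d * X ^ (M - d * a) - Y ^ (d - 1) * X ^ (M - (d - 1) * b) =
      Polynomial.C c * X ^ M := by
    apply toLaurent_injective
    rw [map_sub, map_mul, map_mul, map_mul, toLaurent_X_pow, toLaurent_X_pow, toLaurent_X_pow,
      toLaurent_C, ← h, hv, hy, mul_pow, mul_pow, T_neg_pow, T_neg_pow, map_pow, map_pow]
    have e1 : (T ((M - d * a : ℕ) : ℤ) : ℂ[T;T⁻¹]) = T (-((a * d : ℕ) : ℤ)) * T (M : ℤ) := by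
      rw [← T_add]; congr 1; push_cast [Nat.cast_sub hMa]; ring
    have e2 : (T ((M - (d - 1) * b : ℕ) : ℤ) : ℂ[T;T⁻¹]) =
        T (-((b * (d - 1) : ℕ) : ℤ)) * T (M : ℤ) := by
      rw [← T_add]; congr 1; rw [Nat.cast_sub hMb]; push_cast; ring
    rw [e1, e2]; ring
  have hlt1 : ¬ (d - 1) * b < d * a := by
    intro hlt
    have hM' : M = d * a := max_eq_left hlt.le
    rw [hM', Nat.sub_self, pow_zero, mul_one] at key
    have h1 := congrArg (eval 0) key
    have ha0 : 0 < a := by
      rcases Nat.eq_zero_or_pos a with h0 | h0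
      · rw [h0] at hlt; simp at hlt
      · exact h0
    rw [eval_sub, eval_mul, eval_mul, eval_pow, eval_pow, eval_pow, eval_X,
      zero_pow (by omega), mul_zero, sub_zero, eval_C, eval_pow, eval_X,
      zero_pow (by positivity), mul_zero] at h1
    rcases ha with h2 | h2
    · omega
    · rw [coeff_zero_eq_eval_zero] at h2
      exact pow_ne_zero _ h2 h1
  have hlt2 : ¬ d * a < (d - 1) * b := by
    intro hlt
    have hM' : M = (d - 1) * b := max_eq_right hlt.le
    rw [hM', Nat.sub_self, pow_zero, mul_one] at key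
    have h1 := congrArg (eval 0) key
    have hb0 : 0 < b := by
      rcases Nat.eq_zero_or_pos b with h0 | h0
      · rw [h0] at hlt; simp at hlt
      · exact h0
    rw [eval_sub, eval_mul, eval_mul, eval_pow, eval_pow, eval_pow, eval_X,
      zero_pow (by omega), mul_zero, zero_sub, eval_C, eval_pow, eval_X,
      zero_pow (by have : 0 < d - 1 := by omega
                   positivity), mul_zero] at h1
    rcases hb with h2 | h2
    · omega
    · rw [coeff_zero_eq_eval_zero] at h2
      exact pow_ne_zero _ h2 (neg_eq_zero.mp h1)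
  have heq : d * a = (d - 1) * b := by omega
  have hM' : M = d * a := max_eq_left heq.ge
  have key2 : V ^ d - Y ^ (d - 1) = Polynomial.C c * X ^ (d * a) := by
    rw [hM', ← heq, Nat.sub_self, pow_zero, mul_one, mul_one] at key
    exact key
  obtain ⟨hm, hV, hY⟩ := davenport_poly hd hc key2 (by
    rcases Nat.eq_zero_or_pos a with h0 | h0
    · left; rw [h0, mul_zero]
    · right
      have hb0 : b ≠ 0 := by
        rintro rfl
        rw [mul_zero] at heq
        have : 0 < d * a := by positivity
        omega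
      exact ⟨ha.resolve_left (by omega), hb.resolve_left hb0⟩)
  have ha0 : a = 0 := by
    rcases Nat.mul_eq_zero.mp hm with h0 | h0
    · omega
    · exact h0
  have hb0 : b = 0 := by
    rw [hm] at heq
    rcases Nat.mul_eq_zero.mp heq.symm with h0 | h0
    · omega
    · exact h0
  obtain ⟨v', rfl⟩ := natDegree_eq_zero.mp hV
  obtain ⟨y', rfl⟩ := natDegree_eq_zero.mp hY
  refine ⟨⟨v', ?_⟩, ⟨y', ?_⟩⟩
  · rw [hv, ha0]; simp
  · rw [hy, hb0]; simp

end Pool.Agent.Helper34_CStar
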