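import Pool.Agent.Helper34_CStar.Ineq

/-!
# The representatives are pairwise inequivalent: the two ends
-/

namespace Pool.Agent.Helper34_CStar

open Polynomial LaurentPolynomial

/-- degrees of the coordinates bounded at the two ends -/
def Ends (φ : P2 →ₐ[ℂ] ℂ[T;T⁻¹]) (a b : ℕ) : Prop :=
  ∃ (γ γ' : P2 ≃ₐ[ℂ] P2) (f f' : ℂ[X]), φ (γ (MvPolynomial.X 0)) = toLaurent f ∧
    f.natDegree = a ∧ φ (γ' (MvPolynomial.X 0)) = invert (toLaurent f') ∧ f'.natDegree = b

theorem natDegree_of_affine {f f' : ℂ[X]} {a b : ℂ} (ha : a ≠ 0)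
    (h : toLaurent f' = LaurentPolynomial.C a * toLaurent f + LaurentPolynomial.C b) :
    f'.natDegree = f.natDegree := by
  have h1 : f' = Polynomial.C a * f + Polynomial.C b := by
    apply toLaurent_injective
    rw [h, map_add, map_mul, toLaurent_C, toLaurent_C]
  rw [h1, natDegree_add_C, natDegree_C_mul ha]

theorem Ends.unique {φ : P2 →ₐ[ℂ] ℂ[T;T⁻¹]} (hφ : Function.Surjective φ) {a b a' b' : ℕ}
    (h : Ends φ a b) (h' : Ends φ a' b') : a = a' ∧ b = b' := by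
  obtain ⟨γ, δ, f, g, h1, h2, h3, h4⟩ := h
  obtain ⟨γ', δ', f', g', h1', h2', h3', h4'⟩ := h'
  constructor
  · obtain ⟨p, q, hp, hpq⟩ := coord_unique hφ γ γ' h1 h1'
    have h5 := congrArg φ hpq
    rw [h1', map_add, map_mul, h1, ← MvPolynomial.algebraMap_eq, AlgHom.commutes,
      AlgHom.commutes, ← LaurentPolynomial.C_eq_algebraMap,
      ← LaurentPolynomial.C_eq_algebraMap] at h5
    rw [← h2, ← h2', natDegree_of_affine hp h5]
  · obtain ⟨p, q, hp, hpq⟩ := coord_unique' hφ δ δ' h3 h3'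
    have h5 := congrArg φ hpq
    rw [h3', map_add, map_mul, h3, ← MvPolynomial.algebraMap_eq, AlgHom.commutes,
      AlgHom.commutes, ← LaurentPolynomial.C_eq_algebraMap,
      ← LaurentPolynomial.C_eq_algebraMap] at h5
    have hii : ∀ z : ℂ[T;T⁻¹], (invert (invert z) : ℂ[T;T⁻¹]) = z := involutive_invert
    have h6 := congrArg (fun z : ℂ[T;T⁻¹] => (invert z : ℂ[T;T⁻¹])) h5
    simp only [map_add, map_mul, invert_C, hii] at h6
    rw [← h4, ← h4', natDegree_of_affine hp h6]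

theorem lev_sc_toLaurent (s : ℂ) (hs : s ≠ 0) (f : ℂ[X]) :
    lev (sc s hs) (toLaurent f) = toLaurent (f.comp (Polynomial.C s * X)) := by
  rw [lev_toLaurent, sc_val]
  have : (LaurentPolynomial.C s * T 1 : ℂ[T;T⁻¹]) = toLaurent (Polynomial.C s * X) := by simp
  rw [this, aeval_toLaurent]

theorem lev_sc_invert (s : ℂ) (hs : s ≠ 0) (f : ℂ[X]) :
    lev (sc s hs) (invert (toLaurent f)) =
      invert (toLaurent (f.comp (Polynomial.C s⁻¹ * X))) := by
  rw [invert_toLaurent_eq, invert_toLaurent_eq]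
  have h1 := aeval_algHom_apply (levA (sc s hs)) (T (-1) : ℂ[T;T⁻¹]) f
  rw [levA_apply, levA_apply] at h1
  rw [← h1, aeval_comp]
  congr 1
  have h2 := lev_sc_neg s hs 1
  rw [Nat.cast_one, pow_one] at h2
  rw [h2, map_mul, aeval_C, aeval_X, LaurentPolynomial.C_eq_algebraMap]

theorem natDegree_comp_scale (f : ℂ[X]) {s : ℂ} (hs : s ≠ 0) :
    (f.comp (Polynomial.C s * X)).natDegree = f.natDegree := by
  rw [natDegree_comp, natDegree_C_mul_X s hs, mul_one]

theorem Ends.scale {φ φ' : P2 →ₐ[ℂ] ℂ[T;T⁻¹]} {a b : ℕ} (h : Ends φ a b) (s : ℂ) (hs : s ≠ 0)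
    (h' : ∀ r, φ' r = lev (sc s hs) (φ r)) : Ends φ' a b := by
  obtain ⟨γ, δ, f, g, h1, h2, h3, h4⟩ := h
  refine ⟨γ, δ, f.comp (Polynomial.C s * X), g.comp (Polynomial.C s⁻¹ * X), ?_, ?_, ?_, ?_⟩
  · rw [h', h1, lev_sc_toLaurent]
  · rw [natDegree_comp_scale f hs, h2]
  · rw [h', h3, lev_sc_invert]
  · rw [natDegree_comp_scale g (inv_ne_zero hs), h4]

theorem Ends.swap {φ φ' : P2 →ₐ[ℂ] ℂ[T;T⁻¹]} {a b : ℕ} (h : Ends φ a b) (s : ℂ) (hs : s ≠ 0)
    (h' : ∀ r, φ' r = invert (lev (sc s hs) (φ r))) : Ends φ' b a := by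
  obtain ⟨γ, δ, f, g, h1, h2, h3, h4⟩ := h
  refine ⟨δ, γ, g.comp (Polynomial.C s⁻¹ * X), f.comp (Polynomial.C s * X), ?_, ?_, ?_, ?_⟩
  · rw [h', h3, lev_sc_invert]
    exact involutive_invert _
  · rw [natDegree_comp_scale g (inv_ne_zero hs), h4]
  · rw [h', h1, lev_sc_toLaurent]
  · rw [natDegree_comp_scale f hs, h2]

/-- two parametrizations of the same curve have the same degrees at the ends, up to order -/
theorem Ends.of_ker {φ φ' : P2 →ₐ[ℂ] ℂ[T;T⁻¹]} (hφ : Function.Surjective φ)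
    (hφ' : Function.Surjective φ') (hk : ∀ r, φ r = 0 ↔ φ' r = 0) {a b : ℕ}
    (h : Ends φ a b) : Ends φ' a b ∨ Ends φ' b a := by
  obtain ⟨s, hs, h1⟩ := same_ker hφ hφ' hk
  rcases h1 with h1 | h1
  · exact Or.inl (h.scale s hs h1)
  · exact Or.inr (h.swap s hs h1)

/-- transport by an automorphism of the plane -/
theorem Ends.transport {φ : P2 →ₐ[ℂ] ℂ[T;T⁻¹]} {a b : ℕ} (h : Ends φ a b) (α : P2 ≃ₐ[ℂ] P2) :
    Ends (φ.comp (α.symm : P2 →ₐ[ℂ] P2)) a b := by
  obtain ⟨γ, δ, f, g, h1, h2, h3, h4⟩ := h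
  refine ⟨γ.trans α, δ.trans α, f, g, ?_, h2, ?_, h4⟩
  · rw [AlgHom.comp_apply, AlgEquiv.trans_apply]
    have : (α.symm : P2 →ₐ[ℂ] P2) (α (γ (MvPolynomial.X 0))) = γ (MvPolynomial.X 0) :=
      α.symm_apply_apply _
    rw [this, h1]
  · rw [AlgHom.comp_apply, AlgEquiv.trans_apply]
    have : (α.symm : P2 →ₐ[ℂ] P2) (α (δ (MvPolynomial.X 0))) = δ (MvPolynomial.X 0) :=
      α.symm_apply_apply _
    rw [this, h3]

/-- exchange of the variables -/
noncomputable def swapXY : P2 ≃ₐ[ℂ] P2 :=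
  AlgEquiv.ofAlgHom (hom2 (MvPolynomial.X 1) (MvPolynomial.X 0))
    (hom2 (MvPolynomial.X 1) (MvPolynomial.X 0))
    (by apply hom2_ext <;> simp) (by apply hom2_ext <;> simp)

theorem swapXY_X0 : swapXY (MvPolynomial.X 0) = MvPolynomial.X 1 := hom2_X0 _ _

theorem ends_first {d : ℕ} (hd : 2 ≤ d) {g : ℂ[X]} (hgd : g.natDegree = d - 1)
    {c : ℂ} (hc : c ≠ 0) (hg0 : g.coeff 0 = 0) :
    Ends (hom2 (T (d : ℤ) * invert (toLaurent (Polynomial.C c + g))) (T (-1))) d 1 := by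
  set h : ℂ[X] := Polynomial.C c + g with hh
  have hhd : h.natDegree = d - 1 := by rw [hh, add_comm, natDegree_add_C, hgd]
  have hh0 : h.coeff 0 = c := by rw [hh, coeff_add, coeff_C_zero, hg0, add_zero]
  have hh0' : h ≠ 0 := by rintro h1; rw [h1] at hhd; simp at hhd; omega
  have hrd : h.reverse.natDegree = d - 1 := by
    rw [reverse_natDegree, hhd]
    have : h.natTrailingDegree = 0 := by
      apply natTrailingDegree_eq_zero_of_constantCoeff_ne_zero
      rw [constantCoeff_apply, hh0]; exact hc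
    rw [this, Nat.sub_zero]
  have hr0 : h.reverse ≠ 0 := by rwa [ne_eq, reverse_eq_zero]
  refine ⟨AlgEquiv.refl, swapXY, X * h.reverse, X, ?_, ?_, ?_, natDegree_X⟩
  · change hom2 _ _ (MvPolynomial.X 0) = _
    rw [hom2_X0, map_mul, toLaurent_X, toLaurent_reverse, hhd]
    have : (T 1 : ℂ[T;T⁻¹]) * T ((d - 1 : ℕ) : ℤ) = T (d : ℤ) := by
      rw [← T_add]; congr 1; omega
    linear_combination (-(invert (toLaurent h) : ℂ[T;T⁻¹])) * this
  · rw [natDegree_X_mul hr0, hrd]; omega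
  · rw [swapXY_X0, hom2_X1]; simp

theorem ends_second {d : ℕ} (hd : 2 ≤ d) :
    Ends (hom2 (T (d : ℤ) - T 1) (T (-(d : ℤ)))) d d := by
  refine ⟨AlgEquiv.refl, swapXY, X ^ d - X, X ^ d, ?_, ?_, ?_, natDegree_X_pow d⟩
  · change hom2 _ _ (MvPolynomial.X 0) = _
    rw [hom2_X0]; simp
  · rw [natDegree_sub_eq_left_of_natDegree_lt]
    · simp
    · simp; omega
  · rw [swapXY_X0, hom2_X1]; simp

theorem ends_third {d : ℕ} (hd : 1 ≤ d) :
    Ends (hom2 (∑ i ∈ Finset.range d, T ((i + 1 : ℕ) : ℤ))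
      (T (-(d : ℤ)) - T (-((d + 1 : ℕ) : ℤ)))) d (d + 1) := by
  refine ⟨AlgEquiv.refl, swapXY, ∑ i ∈ Finset.range d, X ^ (i + 1), X ^ d - X ^ (d + 1),
    ?_, ?_, ?_, ?_⟩
  · change hom2 _ _ (MvPolynomial.X 0) = _
    rw [hom2_X0, map_sum]
    apply Finset.sum_congr rfl
    intro i _
    rw [toLaurent_X_pow]
  · apply le_antisymm
    · apply natDegree_sum_le_of_forall_le
      intro i hi
      rw [Finset.mem_range] at hi
      rw [natDegree_X_pow]; omega
    · apply le_natDegree_of_ne_zero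
      rw [finsetSum_coeff, Finset.sum_eq_single (d - 1)]
      · rw [coeff_X_pow, if_pos (by omega)]; exact one_ne_zero
      · intro b _ hb
        rw [coeff_X_pow, if_neg (by omega)]
      · intro h
        exact absurd (Finset.mem_range.mpr (by omega)) h
  · rw [swapXY_X0, hom2_X1]; simp
  · rw [natDegree_sub_eq_right_of_natDegree_lt]
    · simp
    · simp

end Pool.Agent.Helper34_CStar
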