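import Pool.Agent.Helper34_CStar.NonEq2

/-!
# The third polynomial has only one fibre isomorphic to the punctured line
-/

namespace Pool.Agent.Helper34_CStar

open Polynomial LaurentPolynomial

theorem pq_crit {d : ℕ} (hd : 3 ≤ d) {c v w : ℂ} (hc : c ≠ 0)
    (h : w ^ d + c * w = v ^ (d + 1) + c * v) (hv : ((d : ℂ) + 1) * v ^ d + c = 0)
    (hw : (d : ℂ) * w ^ (d - 1) + c = 0) :
    v = d * (d ^ 2 / (d ^ 2 - 1)) ^ (d - 1) / (d + 1) := by
  have hd0 : (d : ℂ) ≠ 0 := by exact_mod_cast (by omega : d ≠ 0)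
  have hd1 : (d : ℂ) + 1 ≠ 0 := by exact_mod_cast (by omega : d + 1 ≠ 0)
  have hdm : (d : ℂ) - 1 ≠ 0 := by
    intro h0
    have : (d : ℂ) = 1 := sub_eq_zero.mp h0
    have : d = 1 := by exact_mod_cast this
    omega
  have hd2 : (d : ℂ) ^ 2 - 1 ≠ 0 := by
    have : (d : ℂ) ^ 2 - 1 = (d - 1) * (d + 1) := by ring
    rw [this]; exact mul_ne_zero hdm hd1
  have hv0 : v ≠ 0 := by
    rintro rfl
    rw [zero_pow (by omega), mul_zero, zero_add] at hv
    exact hc hv
  have e1 : w ^ d = w * w ^ (d - 1) := by rw [← pow_succ']; congr 1; omega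
  have e2 : v ^ (d + 1) = v * v ^ d := pow_succ' v d
  have e3 : v ^ d = v * v ^ (d - 1) := by rw [← pow_succ']; congr 1; omega
  have hwv : w = (d ^ 2 / (d ^ 2 - 1)) * v := by
    rw [e1, e2] at h
    have h1 : c * (w * (d - 1) * (d + 1) - v * d ^ 2) = 0 := by
      linear_combination (d * (d + 1)) * h - (d + 1) * w * hw + d * v * hv
    have h2 := (mul_eq_zero.mp h1).resolve_left hc
    field_simp
    linear_combination h2
  have h3 : v ^ (d - 1) * ((d + 1) * v - d * (d ^ 2 / (d ^ 2 - 1)) ^ (d - 1)) = 0 := by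
    rw [hwv, mul_pow] at hw
    rw [e3] at hv
    linear_combination hv - hw
  have h4 := (mul_eq_zero.mp h3).resolve_left (pow_ne_zero _ hv0)
  field_simp
  linear_combination h4

theorem card_roots_scaled {d : ℕ} (hd : 1 ≤ d) {a : ℂ} (ha : a ≠ 0) :
    ∃ S : Finset ℂ, S.card = d ∧ ∀ z ∈ S, z ^ d = a := by
  classical
  obtain ⟨r, hr⟩ := IsAlgClosed.exists_pow_nat_eq a (by omega : 0 < d)
  have hr0 : r ≠ 0 := by
    rintro rfl
    rw [zero_pow (by omega)] at hr
    exact ha hr.symm
  refine ⟨(nthRootsFinset d (1 : ℂ)).image (fun z => z * r), ?_, ?_⟩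
  · rw [Finset.card_image_of_injective _ (mul_left_injective₀ hr0)]
    exact (Complex.isPrimitiveRoot_exp d (by omega)).card_nthRootsFinset
  · intro z hz
    rw [Finset.mem_image] at hz
    obtain ⟨u, hu, rfl⟩ := hz
    rw [mem_nthRootsFinset (by omega)] at hu
    rw [mul_pow, hu, hr, one_mul]

theorem pq_poly {V W : ℂ[X]} {d n : ℕ} (hd : 3 ≤ d) {c : ℂ} (hc : c ≠ 0)
    (h : W ^ d + Polynomial.C c * W * X ^ ((d - 1) * ((d + 1) * n)) =
      V ^ (d + 1) + Polynomial.C c * V * X ^ (d * (d * n)))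
    (h0 : n = 0 ∨ (V.coeff 0 ≠ 0 ∧ W.coeff 0 ≠ 0)) (hV : d * n < V.natDegree)
    (hW : (d + 1) * n < W.natDegree) : False := by
  classical
  have hV0 : V ≠ 0 := by rintro rfl; simp at hV
  have hW0 : W ≠ 0 := by rintro rfl; simp at hW
  -- degrees
  have hdeg : d * W.natDegree = (d + 1) * V.natDegree := by
    have h1 : (W ^ d + Polynomial.C c * W * X ^ ((d - 1) * ((d + 1) * n))).natDegree =
        d * W.natDegree := by
      rw [natDegree_add_eq_left_of_natDegree_lt, natDegree_pow]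
      rw [natDegree_mul_X_pow _ (mul_ne_zero (C_ne_zero.mpr hc) hW0), natDegree_C_mul hc,
        natDegree_pow]
      obtain ⟨m, rfl⟩ : ∃ m, d = m + 1 := ⟨d - 1, by omega⟩
      rw [Nat.add_sub_cancel]
      have : m * ((m + 1 + 1) * n) < m * W.natDegree := Nat.mul_lt_mul_of_pos_left hW (by omega)
      linarith [Nat.add_mul m 1 W.natDegree]
    have h2 : (V ^ (d + 1) + Polynomial.C c * V * X ^ (d * (d * n))).natDegree =
        (d + 1) * V.natDegree := by
      rw [natDegree_add_eq_left_of_natDegree_lt, natDegree_pow]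
      rw [natDegree_mul_X_pow _ (mul_ne_zero (C_ne_zero.mpr hc) hV0), natDegree_C_mul hc,
        natDegree_pow]
      have : d * (d * n) < d * V.natDegree := Nat.mul_lt_mul_of_pos_left hV (by omega)
      linarith [Nat.add_mul d 1 V.natDegree]
    rw [← h1, h, h2]
  set a := (d + 1) * n with ha
  set b := d * n with hb
  have hd1 : (d : ℂ) + 1 ≠ 0 := by exact_mod_cast (by omega : d + 1 ≠ 0)
  -- the differentiated identity
  set P₁ : ℂ[X] := (d : ℂ[X]) * W ^ (d - 1) + Polynomial.C c * X ^ ((d - 1) * a) with hP₁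
  set Q₁ : ℂ[X] := ((d : ℂ[X]) + 1) * V ^ d + Polynomial.C c * X ^ (d * b) with hQ₁
  set W₁ : ℂ[X] := X * derivative W - (a : ℂ[X]) * W with hW₁
  set V₁ : ℂ[X] := X * derivative V - (b : ℂ[X]) * V with hV₁
  have hXp : ∀ m : ℕ, (X : ℂ[X]) * derivative (X ^ m : ℂ[X]) = (m : ℂ[X]) * X ^ m := by
    intro m
    rcases Nat.eq_zero_or_pos m with rfl | hm
    · simp
    · rw [derivative_X_pow]
      have : (X : ℂ[X]) ^ m = X * X ^ (m - 1) := by rw [← pow_succ']; congr 1; omega
      rw [this, map_natCast]; ring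
  have hder : P₁ * W₁ = Q₁ * V₁ := by
    have e3 := hXp ((d - 1) * a)
    have e4 := hXp (d * b)
    have e5 : (((d - 1) * a : ℕ) : ℂ[X]) = ((d : ℂ[X]) - 1) * a := by
      rw [Nat.cast_mul, Nat.cast_sub (by omega)]; simp
    have e6 : ((d * b : ℕ) : ℂ[X]) = (d : ℂ[X]) * b := by push_cast; ring
    have e7 : (d : ℂ[X]) * a = ((d : ℂ[X]) + 1) * b := by
      rw [ha, hb]; push_cast; ring
    have e1 : W ^ d = W * W ^ (d - 1) := by rw [← pow_succ']; congr 1; omega
    rw [e5] at e3
    rw [e6] at e4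
    obtain ⟨Z, hZ⟩ : ∃ Z : ℂ[X], Z = X ^ ((d - 1) * a) := ⟨_, rfl⟩
    obtain ⟨Z', hZ'⟩ : ∃ Z : ℂ[X], Z = X ^ (d * b) := ⟨_, rfl⟩
    rw [← hZ] at e3 h
    rw [← hZ'] at e4 h
    have h1 := congrArg derivative h
    rw [derivative_add, derivative_add, derivative_mul, derivative_mul, derivative_mul,
      derivative_mul, derivative_C, derivative_pow, derivative_pow, zero_mul, zero_add,
      zero_mul, zero_add, Nat.add_sub_cancel, map_natCast, map_natCast] at h1
    push_cast at h1
    rw [hP₁, hQ₁, hW₁, hV₁, ← hZ, ← hZ']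
    linear_combination X * h1 - ((d : ℂ[X]) * a) * h - Polynomial.C c * W * e3 +
      Polynomial.C c * V * e4 + (d : ℂ[X]) * a * e1 +
      (-(V ^ (d + 1) + Polynomial.C c * V * Z')) * e7
  have hW₁0 : W₁ ≠ 0 := by
    intro h1
    have h2 := congrArg (fun q : ℂ[X] => q.coeff W.natDegree) h1
    obtain ⟨A, hA⟩ : ∃ A, W.natDegree = A + 1 := ⟨W.natDegree - 1, by omega⟩
    have h3 : ((a : ℂ[X]) * W).coeff W.natDegree = (a : ℂ) * W.coeff W.natDegree := by
      rw [← map_natCast (Polynomial.C : ℂ →+* ℂ[X]), coeff_C_mul]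
    simp only [hW₁, coeff_sub, coeff_zero, h3] at h2
    rw [hA, coeff_X_mul, coeff_derivative] at h2
    have h4 : W.coeff (A + 1) * ((A + 1 : ℕ) - (a : ℂ)) = 0 := by
      push_cast; linear_combination h2
    rcases mul_eq_zero.mp h4 with h5 | h5
    · rw [← hA] at h5
      exact hW0 (leadingCoeff_eq_zero.mp h5)
    · have h6 : ((A + 1 : ℕ) : ℂ) = (a : ℂ) := sub_eq_zero.mp h5
      have h7 : A + 1 = a := by exact_mod_cast h6
      omega
  have hW₁d : W₁.natDegree ≤ W.natDegree := by
    rw [hW₁]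
    apply (natDegree_sub_le _ _).trans
    apply max_le
    · apply natDegree_mul_le.trans
      rw [natDegree_X]
      have := natDegree_derivative_le W
      omega
    · apply natDegree_mul_le.trans
      rw [natDegree_natCast]; omega
  -- the roots
  obtain ⟨S, hScard, hS⟩ := card_roots_scaled (d := d) (by omega)
    (a := -(c / ((d : ℂ) + 1))) (neg_ne_zero.mpr (div_ne_zero hc hd1))
  set v₀ : ℂ := d * (d ^ 2 / (d ^ 2 - 1)) ^ (d - 1) / (d + 1) with hv₀
  set S' := S.erase v₀ with hS'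
  have hS'card : d - 1 ≤ S'.card := by
    have := Finset.pred_card_le_card_erase (s := S) (a := v₀)
    rw [hScard] at this
    exact this
  set R : ℂ → ℂ[X] := fun z => V - Polynomial.C z * X ^ b with hR
  have hRd : ∀ z, (R z).natDegree = V.natDegree := by
    intro z
    rw [hR]
    apply natDegree_sub_eq_left_of_natDegree_lt
    exact lt_of_le_of_lt (natDegree_C_mul_X_pow_le _ _) hV
  have hpair : (S' : Set ℂ).Pairwise (Function.onFun IsCoprime R) := by
    intro z _ z' _ hzz
    rw [Function.onFun, isCoprime_iff_aeval_ne_zero_of_isAlgClosed ℂ ℂ]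
    intro x
    by_contra hcon
    push Not at hcon
    obtain ⟨h1, h2⟩ := hcon
    rw [coe_aeval_eq_eval] at h1 h2
    simp only [hR, eval_sub, eval_mul, eval_C, eval_pow, eval_X] at h1 h2
    have h3 : (z - z') * x ^ b = 0 := by linear_combination h2 - h1
    have h4 := (mul_eq_zero.mp h3).resolve_left (sub_ne_zero.mpr hzz)
    rw [h4, mul_zero, sub_zero] at h1
    rcases h0 with h5 | h5
    · have hb0 : b = 0 := by rw [hb, h5, mul_zero]
      rw [hb0, pow_zero] at h4
      exact one_ne_zero h4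
    · have hx : x = 0 := by
        by_contra hne
        exact pow_ne_zero _ hne h4
      rw [hx, ← coeff_zero_eq_eval_zero] at h1
      exact h5.1 h1
  have hdvd : ∀ z ∈ S', R z ∣ W₁ := by
    intro z hz
    rw [hS', Finset.mem_erase] at hz
    obtain ⟨hz0, hzS⟩ := hz
    have hzd := hS z hzS
    have hz1 : ((d : ℂ) + 1) * z ^ d + c = 0 := by
      rw [hzd]; field_simp; ring
    have h1 : R z ∣ Q₁ := by
      have h2 : (V : ℂ[X]) - Polynomial.C z * X ^ b ∣ V ^ d - (Polynomial.C z * X ^ b) ^ d :=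
        sub_dvd_pow_sub_pow _ _ _
      obtain ⟨r, hr⟩ := h2
      refine ⟨((d : ℂ[X]) + 1) * r, ?_⟩
      have h3 : ((d : ℂ[X]) + 1) * Polynomial.C z ^ d + Polynomial.C c = 0 := by
        rw [← map_natCast (Polynomial.C : ℂ →+* ℂ[X]), ← C_1, ← C_add, ← C_pow, ← C_mul, ← C_add,
          hz1, C_0]
      have h4 : (X : ℂ[X]) ^ (d * b) = (X ^ b) ^ d := by rw [← pow_mul, mul_comm]
      rw [hQ₁, hR, h4]
      rw [mul_pow] at hr
      simp only
      linear_combination ((d : ℂ[X]) + 1) * hr + (X ^ b) ^ d * h3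
    have h2 : IsCoprime (R z) P₁ := by
      rw [isCoprime_iff_aeval_ne_zero_of_isAlgClosed ℂ ℂ]
      intro x
      by_contra hcon
      push Not at hcon
      obtain ⟨h3, h4⟩ := hcon
      rw [coe_aeval_eq_eval] at h3 h4
      have h5 := congrArg (eval x) h
      simp only [hR, hP₁, eval_sub, eval_mul, eval_C, eval_pow, eval_X, eval_add,
        eval_natCast] at h3 h4 h5
      set τ := x ^ n with hτ
      have e1 : x ^ b = τ ^ d := by rw [hb, hτ, ← pow_mul, mul_comm]
      have e2 : x ^ ((d - 1) * a) = (τ ^ (d + 1)) ^ (d - 1) := by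
        rw [ha, hτ, ← pow_mul, ← pow_mul]; congr 1; ring
      have e3 : x ^ (d * b) = (τ ^ d) ^ d := by
        rw [hb, hτ, ← pow_mul, ← pow_mul]; congr 1; ring
      rw [e1] at h3
      rw [e2] at h4
      rw [e2, e3] at h5
      by_cases hτ0 : τ = 0
      · rw [hτ0, zero_pow (by omega), mul_zero, sub_zero] at h3
        rcases h0 with h6 | h6
        · rw [hτ, h6, pow_zero] at hτ0
          exact one_ne_zero hτ0
        · have hx : x = 0 := by
            by_contra hne
            exact pow_ne_zero _ hne hτ0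
          rw [hx, ← coeff_zero_eq_eval_zero] at h3
          exact h6.1 h3
      · have hVx : V.eval x = z * τ ^ d := by linear_combination h3
        set w := W.eval x / τ ^ (d + 1) with hw
        have hWx : W.eval x = w * τ ^ (d + 1) := by
          rw [hw, div_mul_cancel₀ _ (pow_ne_zero _ hτ0)]
        rw [hWx] at h4 h5
        rw [hVx] at h5
        apply hz0
        apply pq_crit hd hc (w := w) _ hz1
        · have h6 : (τ ^ (d + 1)) ^ (d - 1) * (d * w ^ (d - 1) + c) = 0 := by
            rw [mul_pow] at h4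
            linear_combination h4
          exact (mul_eq_zero.mp h6).resolve_left (pow_ne_zero _ (pow_ne_zero _ hτ0))
        · have e4 : (τ ^ (d + 1)) ^ d = τ ^ (d + 1) * (τ ^ (d + 1)) ^ (d - 1) := by
            rw [← pow_succ']; congr 1; omega
          have e5 : (τ ^ d) ^ (d + 1) = (τ ^ (d + 1)) ^ d := by
            rw [← pow_mul τ d (d + 1), ← pow_mul τ (d + 1) d, Nat.mul_comm]
          have e6 : (τ ^ d) ^ (d + 1) = τ ^ d * (τ ^ d) ^ d := pow_succ' _ _
          have h6 : (τ ^ d) ^ (d + 1) * (w ^ d + c * w - (z ^ (d + 1) + c * z)) = 0 := by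
            rw [mul_pow, mul_pow] at h5
            linear_combination h5 + (w ^ d + c * w) * e5 + (c * w) * e4 - (c * z) * e6
          have h7 := (mul_eq_zero.mp h6).resolve_left (pow_ne_zero _ (pow_ne_zero _ hτ0))
          linear_combination h7
    have h3 : R z ∣ P₁ * W₁ := by rw [hder]; exact h1.mul_right _
    exact h2.dvd_of_dvd_mul_left h3
  have hprod : (∏ z ∈ S', R z) ∣ W₁ := Finset.prod_dvd_of_coprime hpair hdvd
  have hle := natDegree_le_of_dvd hprod hW₁0
  rw [natDegree_prod _ _ (fun z _ => by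
    intro h1
    have := hRd z
    rw [h1, natDegree_zero] at this
    omega), Finset.sum_congr rfl (fun z _ => hRd z), Finset.sum_const, smul_eq_mul] at hle
  have h1 : (d - 1) * V.natDegree ≤ W.natDegree :=
    (Nat.mul_le_mul_right _ hS'card).trans (hle.trans hW₁d)
  have h2 : d * ((d - 1) * V.natDegree) ≤ (d + 1) * V.natDegree := by
    rw [← hdeg]; exact Nat.mul_le_mul_left _ h1
  have hVpos : 0 < V.natDegree := by omega
  have h3 : d * (d - 1) ≤ d + 1 := by
    by_contra hcon
    rw [not_le] at hcon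
    have := Nat.mul_lt_mul_of_pos_right hcon hVpos
    rw [mul_assoc] at this
    omega
  obtain ⟨e, rfl⟩ : ∃ e, d = e + 3 := ⟨d - 3, by omega⟩
  have e1 : e + 3 - 1 = e + 2 := by omega
  rw [e1] at h3
  nlinarith

end Pool.Agent.Helper34_CStar
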