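import Pool.Agent.Helper34_CStar.Ineq3

/-!
# The fibres of the third polynomial
-/

namespace Pool.Agent.Helper34_CStar

open Polynomial LaurentPolynomial

theorem pq_laurent {v w : ℂ[T;T⁻¹]} {d : ℕ} (hd : 3 ≤ d) {c : ℂ} (hc : c ≠ 0)
    (h : w ^ d + LaurentPolynomial.C c * w = v ^ (d + 1) + LaurentPolynomial.C c * v) :
    (∃ a, v = LaurentPolynomial.C a) ∧ ∃ b, w = LaurentPolynomial.C b := by
  obtain ⟨V, b, hv, hb⟩ := exists_min_repr v
  obtain ⟨W, a, hw, ha⟩ := exists_min_repr w
  set M := max (d * a) ((d + 1) * b) with hM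
  have hMa : d * a ≤ M := le_max_left _ _
  have hMb : (d + 1) * b ≤ M := le_max_right _ _
  have hada : a ≤ d * a := Nat.le_mul_of_pos_left a (by omega)
  have hbdb : b ≤ (d + 1) * b := Nat.le_mul_of_pos_left b (by omega)
  have haM : a ≤ M := le_trans hada hMa
  have hbM : b ≤ M := le_trans hbdb hMb
  have key : W ^ d * X ^ (M - d * a) + Polynomial.C c * W * X ^ (M - a) =
      V ^ (d + 1) * X ^ (M - (d + 1) * b) + Polynomial.C c * V * X ^ (M - b) := by
    apply toLaurent_injective
    rw [map_add, map_add, map_mul, map_mul, map_mul, map_mul, map_mul, map_mul, toLaurent_X_pow,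
      toLaurent_X_pow, toLaurent_X_pow, toLaurent_X_pow, toLaurent_C, map_pow, map_pow]
    have e1 : (T ((M - d * a : ℕ) : ℤ) : ℂ[T;T⁻¹]) = T (-((a * d : ℕ) : ℤ)) * T (M : ℤ) := by
      rw [← T_add]; congr 1; push_cast [Nat.cast_sub hMa]; ring
    have e2 : (T ((M - (d + 1) * b : ℕ) : ℤ) : ℂ[T;T⁻¹]) =
        T (-((b * (d + 1) : ℕ) : ℤ)) * T (M : ℤ) := by
      rw [← T_add]; congr 1; rw [Nat.cast_sub hMb]; push_cast; ring
    have e3 : (T ((M - a : ℕ) : ℤ) : ℂ[T;T⁻¹]) = T (-(a : ℤ)) * T (M : ℤ) := by
      rw [← T_add]; congr 1; rw [Nat.cast_sub haM]; ring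
    have e4 : (T ((M - b : ℕ) : ℤ) : ℂ[T;T⁻¹]) = T (-(b : ℤ)) * T (M : ℤ) := by
      rw [← T_add]; congr 1; rw [Nat.cast_sub hbM]; ring
    rw [hv, hw, mul_pow, mul_pow, T_neg_pow, T_neg_pow] at h
    rw [e1, e2, e3, e4]
    linear_combination T (M : ℤ) * h
  have hlt1 : ¬ (d + 1) * b < d * a := by
    intro hlt
    have hM' : M = d * a := max_eq_left hlt.le
    rw [hM', Nat.sub_self, pow_zero, mul_one] at key
    have h1 := congrArg (eval 0) key
    have ha0 : 0 < a := by
      rcases Nat.eq_zero_or_pos a with h0 | h0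
      · rw [h0] at hlt; simp at hlt
      · exact h0
    have hda : a < d * a := by
      calc a = 1 * a := (one_mul a).symm
        _ < d * a := Nat.mul_lt_mul_of_pos_right (by omega) ha0
    simp only [eval_add, eval_mul, eval_pow, eval_X, eval_C] at h1
    rw [zero_pow (by omega : d * a - a ≠ 0), zero_pow (by omega : d * a - (d + 1) * b ≠ 0),
      zero_pow (by omega : d * a - b ≠ 0), mul_zero, mul_zero, mul_zero, add_zero, add_zero] at h1
    rcases ha with h2 | h2
    · omega
    · rw [coeff_zero_eq_eval_zero] at h2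
      exact pow_ne_zero _ h2 h1
  have hlt2 : ¬ d * a < (d + 1) * b := by
    intro hlt
    have hM' : M = (d + 1) * b := max_eq_right hlt.le
    rw [hM', Nat.sub_self, pow_zero, mul_one] at key
    have h1 := congrArg (eval 0) key
    have hb0 : 0 < b := by
      rcases Nat.eq_zero_or_pos b with h0 | h0
      · rw [h0] at hlt; simp at hlt
      · exact h0
    have hdb : b < (d + 1) * b := by
      calc b = 1 * b := (one_mul b).symm
        _ < (d + 1) * b := Nat.mul_lt_mul_of_pos_right (by omega) hb0
    simp only [eval_add, eval_mul, eval_pow, eval_X, eval_C] at h1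
    rw [zero_pow (by omega : (d + 1) * b - d * a ≠ 0), zero_pow (by omega : (d + 1) * b - a ≠ 0),
      zero_pow (by omega : (d + 1) * b - b ≠ 0), mul_zero, mul_zero, mul_zero, add_zero,
      add_zero] at h1
    rcases hb with h2 | h2
    · omega
    · rw [coeff_zero_eq_eval_zero] at h2
      exact pow_ne_zero _ h2 h1.symm
  have heq : d * a = (d + 1) * b := by omega
  have hcop : Nat.Coprime d (d + 1) := by simp
  obtain ⟨n, hn⟩ : d ∣ b := hcop.dvd_of_dvd_mul_left ⟨a, heq.symm⟩
  have han : a = (d + 1) * n := by
    have : d * a = d * ((d + 1) * n) := by rw [heq, hn]; ring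
    exact Nat.eq_of_mul_eq_mul_left (by omega) this
  have hM' : M = d * a := max_eq_left heq.ge
  have key2 : W ^ d + Polynomial.C c * W * X ^ ((d - 1) * ((d + 1) * n)) =
      V ^ (d + 1) + Polynomial.C c * V * X ^ (d * (d * n)) := by
    rw [hM', ← heq, Nat.sub_self, pow_zero, mul_one, mul_one] at key
    have e1 : d * a - a = (d - 1) * ((d + 1) * n) := by
      rw [← han, Nat.sub_mul, one_mul]
    have e2 : d * a - b = d * (d * n) := by
      rw [heq, Nat.add_mul, one_mul, Nat.add_sub_cancel, hn]
    rw [e1, e2] at key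
    exact key
  have h0 : n = 0 ∨ (V.coeff 0 ≠ 0 ∧ W.coeff 0 ≠ 0) := by
    rcases Nat.eq_zero_or_pos n with h1 | h1
    · exact Or.inl h1
    · right
      have ha0 : a ≠ 0 := by rw [han]; positivity
      have hb0 : b ≠ 0 := by rw [hn]; have : 0 < d := by omega
                             positivity
      exact ⟨hb.resolve_left hb0, ha.resolve_left ha0⟩
  have hN : (d - 1) * a + a = d * a := by
    rw [Nat.sub_mul, one_mul]; omega
  have hN' : d * b + b = (d + 1) * b := by ring
  by_cases hA : a < W.natDegree
  · exfalso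
    by_cases hB : b < V.natDegree
    · exact pq_poly hd hc key2 h0 (by rw [← hn]; exact hB) (by rw [← han]; exact hA)
    · have hW0 : W ≠ 0 := by rintro rfl; simp at hA
      rw [← han, ← hn] at key2
      have h1 : (W ^ d + Polynomial.C c * W * X ^ ((d - 1) * a)).natDegree =
          d * W.natDegree := by
        rw [natDegree_add_eq_left_of_natDegree_lt, natDegree_pow]
        rw [natDegree_mul_X_pow _ (mul_ne_zero (C_ne_zero.mpr hc) hW0), natDegree_C_mul hc,
          natDegree_pow]
        have h3 : (d - 1) * a < (d - 1) * W.natDegree := Nat.mul_lt_mul_of_pos_left hA (by omega)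
        have h4 : (d - 1) * W.natDegree + W.natDegree = d * W.natDegree := by
          rw [Nat.sub_mul, one_mul]
          have : W.natDegree ≤ d * W.natDegree := Nat.le_mul_of_pos_left _ (by omega)
          omega
        omega
      have h2 : (V ^ (d + 1) + Polynomial.C c * V * X ^ (d * b)).natDegree ≤ (d + 1) * b := by
        apply natDegree_add_le_of_degree_le
        · rw [natDegree_pow]
          exact Nat.mul_le_mul_left _ (by omega)
        · apply natDegree_mul_le.trans
          rw [natDegree_C_mul hc, natDegree_X_pow]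
          omega
      rw [← key2, h1, ← heq] at h2
      have h3 : d * a < d * W.natDegree := Nat.mul_lt_mul_of_pos_left hA (by omega)
      omega
  · by_cases hB : b < V.natDegree
    · exfalso
      have hV0 : V ≠ 0 := by rintro rfl; simp at hB
      rw [← han, ← hn] at key2
      have h1 : (V ^ (d + 1) + Polynomial.C c * V * X ^ (d * b)).natDegree =
          (d + 1) * V.natDegree := by
        rw [natDegree_add_eq_left_of_natDegree_lt, natDegree_pow]
        rw [natDegree_mul_X_pow _ (mul_ne_zero (C_ne_zero.mpr hc) hV0), natDegree_C_mul hc,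
          natDegree_pow]
        have h3 : d * b < d * V.natDegree := Nat.mul_lt_mul_of_pos_left hB (by omega)
        have h4 : (d + 1) * V.natDegree = d * V.natDegree + V.natDegree := by ring
        omega
      have h2 : (W ^ d + Polynomial.C c * W * X ^ ((d - 1) * a)).natDegree ≤ d * a := by
        apply natDegree_add_le_of_degree_le
        · rw [natDegree_pow]
          exact Nat.mul_le_mul_left _ (by omega)
        · apply natDegree_mul_le.trans
          rw [natDegree_C_mul hc, natDegree_X_pow]
          omega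
      rw [key2, h1, heq] at h2
      have h3 : (d + 1) * b < (d + 1) * V.natDegree := Nat.mul_lt_mul_of_pos_left hB (by omega)
      omega
    · rcases Nat.eq_zero_or_pos n with hn0 | hn0
      · subst hn0
        rw [mul_zero] at hn han
        subst hn han
        have h1 : V.natDegree = 0 := by omega
        have h2 : W.natDegree = 0 := by omega
        obtain ⟨x, rfl⟩ := natDegree_eq_zero.mp h1
        obtain ⟨y, rfl⟩ := natDegree_eq_zero.mp h2
        refine ⟨⟨x, ?_⟩, ⟨y, ?_⟩⟩
        · rw [hv]; simp
        · rw [hw]; simp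
      · exfalso
        obtain ⟨hV0, hW0⟩ := h0.resolve_left (by omega)
        have hVr : V.reverse.natDegree = V.natDegree := by
          rw [reverse_natDegree]
          have : V.natTrailingDegree = 0 := by
            apply natTrailingDegree_eq_zero_of_constantCoeff_ne_zero
            rw [constantCoeff_apply]; exact hV0
          rw [this, Nat.sub_zero]
        have hWr : W.reverse.natDegree = W.natDegree := by
          rw [reverse_natDegree]
          have : W.natTrailingDegree = 0 := by
            apply natTrailingDegree_eq_zero_of_constantCoeff_ne_zero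
            rw [constantCoeff_apply]; exact hW0
          rw [this, Nat.sub_zero]
        have hV1 : V.reverse ≠ 0 := by
          rw [ne_eq, reverse_eq_zero]; rintro rfl; simp at hV0
        have hW1 : W.reverse ≠ 0 := by
          rw [ne_eq, reverse_eq_zero]; rintro rfl; simp at hW0
        have hvi : (invert v : ℂ[T;T⁻¹]) = toLaurent (V.reverse * X ^ (b - V.natDegree)) := by
          rw [hv, map_mul, map_mul, toLaurent_reverse, toLaurent_X_pow, invert_T, neg_neg,
            mul_assoc, ← T_add]
          congr 2
          omega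
        have hwi : (invert w : ℂ[T;T⁻¹]) = toLaurent (W.reverse * X ^ (a - W.natDegree)) := by
          rw [hw, map_mul, map_mul, toLaurent_reverse, toLaurent_X_pow, invert_T, neg_neg,
            mul_assoc, ← T_add]
          congr 2
          omega
        have h1 := congrArg (fun z : ℂ[T;T⁻¹] => (invert z : ℂ[T;T⁻¹])) h
        simp only [map_add, map_mul, map_pow, invert_C] at h1
        rw [hvi, hwi] at h1
        have h2 : (W.reverse * X ^ (a - W.natDegree)) ^ d +
            Polynomial.C c * (W.reverse * X ^ (a - W.natDegree)) * X ^ ((d - 1) * ((d + 1) * 0)) =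
            (V.reverse * X ^ (b - V.natDegree)) ^ (d + 1) +
            Polynomial.C c * (V.reverse * X ^ (b - V.natDegree)) * X ^ (d * (d * 0)) := by
          apply toLaurent_injective
          rw [mul_zero, mul_zero, mul_zero, mul_zero, pow_zero, mul_one, mul_one, map_add, map_add,
            map_pow, map_pow, map_mul toLaurent (Polynomial.C c),
            map_mul toLaurent (Polynomial.C c), toLaurent_C]
          exact h1
        have hb0 : 0 < b := by rw [hn]; have : 0 < d := by omega
                               positivity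
        have ha0 : 0 < a := by rw [han]; positivity
        apply pq_poly hd hc h2 (Or.inl rfl)
        · rw [natDegree_mul_X_pow _ hV1, hVr]; omega
        · rw [natDegree_mul_X_pow _ hW1, hWr]; omega

/-- only one fibre of the third polynomial is a punctured line -/
theorem q₃_fibre_eq_zero {d : ℕ} (hd : 3 ≤ d) {c : ℂ} {φ : P2 →ₐ[ℂ] ℂ[T;T⁻¹]}
    (hφ : Function.Surjective φ) (hker : ∀ r, φ r = 0 ↔ q₃ d - MvPolynomial.C c ∣ r) : c = 0 := by
  by_contra hc
  have h1 : φ (q₃ d - MvPolynomial.C c) = 0 := (hker _).mpr dvd_rfl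
  rw [eq_hom2 φ, map_sub, hom2_q₃, hom2_C, ← LaurentPolynomial.C_eq_algebraMap] at h1
  set x := φ (MvPolynomial.X 0) with hx
  set y := φ (MvPolynomial.X 1) with hy
  obtain ⟨v, hv⟩ : ∃ v, v = 1 - x * y := ⟨_, rfl⟩
  rw [← hv] at h1
  have hg : (∑ i ∈ Finset.range d, (v - y) ^ i * v ^ (d - 1 - i)) * ((v - y) - v) =
      (v - y) ^ d - v ^ d := (Commute.all _ _).geom_sum₂_mul d
  have h2 : (v - y) ^ d + LaurentPolynomial.C c * (v - y) =
      v ^ (d + 1) + LaurentPolynomial.C c * v := by
    have e : v ^ (d + 1) = v * v ^ d := pow_succ' v d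
    rw [e]
    linear_combination (-1) * hg + y * h1 - (v ^ d) * hv
  obtain ⟨⟨a, ha⟩, b, hb⟩ := pq_laurent hd hc h2
  apply not_surjective_of_const (φ := φ) (b := a - b) _ hφ
  rw [← hy, map_sub, ← ha, ← hb]; ring

theorem ends_q₃ {d : ℕ} (hd : 3 ≤ d) {c : ℂ} {φ : P2 →ₐ[ℂ] ℂ[T;T⁻¹]}
    (hφ : Function.Surjective φ) (hker : ∀ r, φ r = 0 ↔ q₃ d - MvPolynomial.C c ∣ r) :
    Ends φ d (d + 1) ∨ Ends φ (d + 1) d := by
  have hc := q₃_fibre_eq_zero hd hφ hker
  subst hc
  rw [map_zero] at hker
  simp only [sub_zero] at hker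
  have hstd := isStd_third (d := d) (by omega)
  exact Ends.of_ker hstd.surjective hφ
    (fun r => (hstd.mem_ker_iff r).trans (hker r).symm) (ends_third (by omega))

theorem eq_of_equivalent_q₃ {d d' : ℕ} (hd : 2 ≤ d) (hd' : 3 ≤ d')
    (h : Equivalent (q₃ d) (q₃ d')) : d = d' := by
  have hstd := isStd_third (d := d) (by omega)
  obtain ⟨α, c', hs, hk⟩ := h.fibre (c := 0) hstd.surjective (by
    intro r; rw [map_zero, sub_zero]; exact hstd.mem_ker_iff r)
  have h1 : Ends _ d (d + 1) := (ends_third (by omega)).comp α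
  rcases ends_q₃ hd' hs hk with h2 | h2
  · exact (h1.unique hs h2).1
  · have := h1.unique hs h2
    omega

end Pool.Agent.Helper34_CStar
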