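import Pool.Agent.Helper34_CStar.Geom

/-!
# Classification in terms of polynomials
-/

namespace Pool.Agent.Helper34_CStar

open Polynomial

theorem poly_classification {f Y : ℂ[X]} {k : ℕ} (hf : f.Monic) (hd : 3 ≤ f.natDegree)
    (hf0 : f.coeff 0 = 0) (hf1 : f.coeff 1 ≠ 0) (hk : 1 ≤ k) {c : ℂ} (hc : c ≠ 0)
    (hkey : ∀ t s : ℂ, f.eval t = f.eval s →
      s ^ k * Y.eval t - t ^ k * Y.eval s = c * (t - s)) :
    ∃ (c' : ℂ) (G : ℂ[X]), c' ≠ 0 ∧
      ((k = 1 ∧ Y = C c' + X * G.comp f) ∨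
      (k = f.natDegree ∧ (∃ e : ℂ, e ≠ 0 ∧ f = X ^ f.natDegree - C e * X) ∧
        Y = C c' + X ^ f.natDegree * G.comp f) ∨
      (k = f.natDegree + 1 ∧ ∃ r : ℂ, r ≠ 0 ∧
        f * (X - C r) = X ^ (f.natDegree + 1) - C (r ^ f.natDegree) * X ∧
        Y = C c' * (X - C r) + X ^ (f.natDegree + 1) * G.comp f)) := by
  set d := f.natDegree with hdd
  obtain ⟨A, B, hAB⟩ := exists_decomp hf (by omega) (X ^ k) (f.eval 0 + 1) (by
    intro u v w huv hvw _
    simp only [eval_pow, eval_X]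
    have h1 := hkey u v huv
    have h2 := hkey v w hvw
    have h3 := hkey w u (huv.trans hvw).symm
    apply mul_left_cancel₀ hc
    rw [mul_zero]
    linear_combination -(w ^ k) * h1 - u ^ k * h2 - v ^ k * h3)
  have hcop := trinomial_coprime hf (by omega) hf1 hAB
  have hht : ∀ t : ℂ, t ^ k = A.eval (f.eval t) * t + B.eval (f.eval t) := by
    intro t
    have h1 := congrArg (eval t) hAB
    simpa using h1
  rcases trinomial_classification hf hd hf0 hf1 hk hAB with
    ⟨hk1, _, _⟩ | ⟨hkd, e, he0, hA, hB, hfe⟩ | ⟨hkd, r, hr0, hA, hB, hfr⟩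
  · obtain ⟨G, hG⟩ := exists_quotient hf (by omega) hcop hAB (Y - C (-c)) (by
      intro t s hts
      have h1 := hkey t s hts
      subst hk1
      simp only [eval_sub, eval_C]
      linear_combination h1)
    refine ⟨-c, G, neg_ne_zero.mpr hc, Or.inl ⟨hk1, ?_⟩⟩
    subst hk1
    linear_combination hG
  · obtain ⟨G, hG⟩ := exists_quotient hf (by omega) hcop hAB (Y - C (-(c / e))) (by
      intro t s hts
      have h1 := hkey t s hts
      have h2 := hht t
      have h3 := hht s
      rw [hA, hB] at h2 h3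
      simp only [eval_sub, eval_C, eval_X] at h2 h3 ⊢
      rw [hts] at h2
      have h4 : c / e * e = c := div_mul_cancel₀ c he0
      linear_combination h1 + (c / e) * h3 - (c / e) * h2 - (t - s) * h4)
    refine ⟨-(c / e), G, neg_ne_zero.mpr (div_ne_zero hc he0), Or.inr (Or.inl
      ⟨hkd, ⟨e, he0, hfe⟩, ?_⟩)⟩
    rw [hkd] at hG
    linear_combination hG
  · have hrd : r ^ (d + 1) ≠ 0 := pow_ne_zero _ hr0
    obtain ⟨G, hG⟩ := exists_quotient hf (by omega) hcop hAB
      (Y - C (c / r ^ (d + 1)) * (X - C r)) (by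
      intro t s hts
      have h1 := hkey t s hts
      have h2 := hht t
      have h3 := hht s
      rw [hA, hB] at h2 h3
      simp only [eval_add, eval_sub, eval_C, eval_X, eval_mul, eval_neg] at h2 h3 ⊢
      rw [hts] at h2
      have h4 : c / r ^ (d + 1) * r ^ (d + 1) = c := div_mul_cancel₀ c hrd
      have h5 : r ^ (d + 1) = r ^ d * r := pow_succ r d
      set q := c / r ^ (d + 1)
      rw [h5] at h4
      linear_combination h1 - q * (t - r) * h3 + q * (s - r) * h2 + (s - t) * (-1) * (-h4))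
    refine ⟨c / r ^ (d + 1), G, div_ne_zero hc hrd, Or.inr (Or.inr ⟨hkd, r, hr0, hfr, ?_⟩)⟩
    rw [hkd] at hG
    linear_combination hG

end Pool.Agent.Helper34_CStar
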