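import Pool.Agent.Helper34_CStar.StdThree
import Pool.Agent.Helper34_CStar.PolyClass

/-!
# Generators of the ideal of an embedded punctured line
-/

namespace Pool.Agent.Helper34_CStar

open Polynomial LaurentPolynomial

/-- triangular automorphisms -/
noncomputable def tri (μ ν κ : ℂ) (hμ : μ ≠ 0) (hκ : κ ≠ 0) (H : ℂ[X]) : P2 ≃ₐ[ℂ] P2 :=
  AlgEquiv.ofAlgHom
    (hom2 (MvPolynomial.C μ * MvPolynomial.X 0 + MvPolynomial.C ν)
      (MvPolynomial.C κ * MvPolynomial.X 1 + aeval (MvPolynomial.X 0 : P2) H))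
    (hom2 (MvPolynomial.C μ⁻¹ * (MvPolynomial.X 0 - MvPolynomial.C ν))
      (MvPolynomial.C κ⁻¹ * (MvPolynomial.X 1 -
        aeval (MvPolynomial.C μ⁻¹ * (MvPolynomial.X 0 - MvPolynomial.C ν) : P2) H)))
    (by
      have h1 : (MvPolynomial.C μ⁻¹ : P2) * MvPolynomial.C μ = 1 := by
        rw [← map_mul, inv_mul_cancel₀ hμ, map_one]
      have h2 : (MvPolynomial.C κ⁻¹ : P2) * MvPolynomial.C κ = 1 := by
        rw [← map_mul, inv_mul_cancel₀ hκ, map_one]
      have e0 : hom2 (MvPolynomial.C μ * MvPolynomial.X 0 + MvPolynomial.C ν)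
          (MvPolynomial.C κ * MvPolynomial.X 1 + aeval (MvPolynomial.X 0 : P2) H)
          (MvPolynomial.C μ⁻¹ * (MvPolynomial.X 0 - MvPolynomial.C ν)) =
          (MvPolynomial.X 0 : P2) := by
        simp only [map_mul, map_sub, hom2_C, hom2_X0, MvPolynomial.algebraMap_eq]
        linear_combination (MvPolynomial.X 0 : P2) * h1
      apply hom2_ext
      · rw [AlgHom.comp_apply, hom2_X0, e0]; rfl
      · rw [AlgHom.comp_apply, hom2_X1, map_mul, map_sub, hom2_aeval, e0, hom2_X1, hom2_C,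
          MvPolynomial.algebraMap_eq, AlgHom.id_apply]
        linear_combination (MvPolynomial.X 1 : P2) * h2)
    (by
      have h1 : (MvPolynomial.C μ : P2) * MvPolynomial.C μ⁻¹ = 1 := by
        rw [← map_mul, mul_inv_cancel₀ hμ, map_one]
      have h2 : (MvPolynomial.C κ : P2) * MvPolynomial.C κ⁻¹ = 1 := by
        rw [← map_mul, mul_inv_cancel₀ hκ, map_one]
      apply hom2_ext
      · rw [AlgHom.comp_apply, hom2_X0, map_add, map_mul, hom2_X0, hom2_C, hom2_C,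
          MvPolynomial.algebraMap_eq, AlgHom.id_apply]
        linear_combination (MvPolynomial.X 0 - MvPolynomial.C ν : P2) * h1
      · rw [AlgHom.comp_apply, hom2_X1, map_add, map_mul, hom2_X1, hom2_C, hom2_aeval, hom2_X0,
          MvPolynomial.algebraMap_eq, AlgHom.id_apply]
        linear_combination (MvPolynomial.X 1 - aeval (MvPolynomial.C μ⁻¹ *
          (MvPolynomial.X 0 - MvPolynomial.C ν) : P2) H : P2) * h2)

section

variable {S : Type*} [CommRing S] [Algebra ℂ S]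

theorem tri_X0 (μ ν κ : ℂ) (hμ : μ ≠ 0) (hκ : κ ≠ 0) (H : ℂ[X]) (φ : P2 →ₐ[ℂ] S) :
    φ (tri μ ν κ hμ hκ H (MvPolynomial.X 0)) =
      algebraMap ℂ S μ * φ (MvPolynomial.X 0) + algebraMap ℂ S ν := by
  have : tri μ ν κ hμ hκ H (MvPolynomial.X 0) =
      MvPolynomial.C μ * MvPolynomial.X 0 + MvPolynomial.C ν := hom2_X0 _ _
  rw [this, map_add, map_mul, ← MvPolynomial.algebraMap_eq, AlgHom.commutes, AlgHom.commutes]

theorem tri_X1 (μ ν κ : ℂ) (hμ : μ ≠ 0) (hκ : κ ≠ 0) (H : ℂ[X]) (φ : P2 →ₐ[ℂ] S) :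
    φ (tri μ ν κ hμ hκ H (MvPolynomial.X 1)) =
      algebraMap ℂ S κ * φ (MvPolynomial.X 1) + aeval (φ (MvPolynomial.X 0)) H := by
  have : tri μ ν κ hμ hκ H (MvPolynomial.X 1) =
      MvPolynomial.C κ * MvPolynomial.X 1 + aeval (MvPolynomial.X 0 : P2) H := hom2_X1 _ _
  rw [this, map_add, map_mul, ← MvPolynomial.algebraMap_eq, AlgHom.commutes,
    aeval_algHom_apply]

end

/-- scaling of the variable -/
noncomputable def sc (s : ℂ) (hs : s ≠ 0) : (ℂ[T;T⁻¹])ˣ :=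
  ⟨LaurentPolynomial.C s * T 1, LaurentPolynomial.C s⁻¹ * T (-1), by
    have h1 : (LaurentPolynomial.C s : ℂ[T;T⁻¹]) * LaurentPolynomial.C s⁻¹ = 1 := by
      rw [← map_mul, mul_inv_cancel₀ hs, map_one]
    linear_combination (T 1 * T (-1)) * h1 + T_mul_T_neg, by
    have h1 : (LaurentPolynomial.C s : ℂ[T;T⁻¹]) * LaurentPolynomial.C s⁻¹ = 1 := by
      rw [← map_mul, mul_inv_cancel₀ hs, map_one]
    linear_combination (T 1 * T (-1)) * h1 + T_mul_T_neg⟩

theorem sc_val (s : ℂ) (hs : s ≠ 0) :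
    ((sc s hs : (ℂ[T;T⁻¹])ˣ) : ℂ[T;T⁻¹]) = LaurentPolynomial.C s * T 1 := rfl

theorem sc_inv_val (s : ℂ) (hs : s ≠ 0) :
    (((sc s hs)⁻¹ : (ℂ[T;T⁻¹])ˣ) : ℂ[T;T⁻¹]) = LaurentPolynomial.C s⁻¹ * T (-1) := rfl

theorem sc_injective (s : ℂ) (hs : s ≠ 0) (z : ℂ[T;T⁻¹]) (h : lev (sc s hs) z = 0) : z = 0 := by
  have h1 := map_lev (levA (sc s⁻¹ (inv_ne_zero hs))) (sc s hs) z
  rw [h, map_zero] at h1
  have h2 : lev (Units.map ((levA (sc s⁻¹ (inv_ne_zero hs)) : ℂ[T;T⁻¹] →ₐ[ℂ] ℂ[T;T⁻¹]) :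
      ℂ[T;T⁻¹] →* ℂ[T;T⁻¹]) (sc s hs)) = RingHom.id ℂ[T;T⁻¹] := by
    apply laurent_ringHom_ext
    · intro c
      rw [lev_C, ← LaurentPolynomial.C_eq_algebraMap]; rfl
    · rw [lev_T, zpow_one]
      change levA (sc s⁻¹ (inv_ne_zero hs)) (LaurentPolynomial.C s * T 1) = _
      rw [levA_apply, map_mul, lev_C, lev_T, zpow_one, sc_val, ← LaurentPolynomial.C_eq_algebraMap,
        ← mul_assoc, ← map_mul, mul_inv_cancel₀ hs, map_one, one_mul]
      rfl
  rw [h2] at h1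
  exact h1.symm

/-- transport of a generator of the kernel by an automorphism -/
theorem ker_transport {φ : P2 →ₐ[ℂ] ℂ[T;T⁻¹]} {x₀ y₀ : ℂ[T;T⁻¹]} {q : P2}
    (hstd : IsStd x₀ y₀ q) (β : P2 ≃ₐ[ℂ] P2) (s : ℂ) (hs : s ≠ 0)
    (h0 : φ (β (MvPolynomial.X 0)) = lev (sc s hs) x₀)
    (h1 : φ (β (MvPolynomial.X 1)) = lev (sc s hs) y₀) (p : P2) :
    φ p = 0 ↔ β q ∣ p := by
  have hcomp : φ.comp (β : P2 →ₐ[ℂ] P2) = (levA (sc s hs)).comp (hom2 x₀ y₀) := by
    apply hom2_ext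
    · simpa using h0
    · simpa using h1
  have h2 : ∀ r : P2, φ (β r) = lev (sc s hs) (hom2 x₀ y₀ r) := fun r =>
    congrArg (fun ψ : P2 →ₐ[ℂ] ℂ[T;T⁻¹] => ψ r) hcomp
  obtain ⟨r, rfl⟩ := β.surjective p
  rw [h2, map_dvd_iff, ← hstd.mem_ker_iff]
  constructor
  · intro h; exact sc_injective s hs _ h
  · intro h; rw [h, map_zero]

/-- the range of a surjective homomorphism is generated by the images of the variables -/
theorem adjoin_of_surjective {φ : P2 →ₐ[ℂ] ℂ[T;T⁻¹]} (hφ : Function.Surjective φ) :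
    Algebra.adjoin ℂ {φ (MvPolynomial.X 0), φ (MvPolynomial.X 1)} = ⊤ := by
  have h1 : Set.range (MvPolynomial.X : Fin 2 → P2) = {MvPolynomial.X 0, MvPolynomial.X 1} := by
    ext z
    simp only [Set.mem_range, Fin.exists_fin_two, Set.mem_insert_iff, Set.mem_singleton_iff]
    constructor
    · rintro (h | h)
      · exact Or.inl h.symm
      · exact Or.inr h.symm
    · rintro (h | h)
      · exact Or.inl h.symm
      · exact Or.inr h.symm
  have h2 := AlgHom.map_adjoin φ (Set.range (MvPolynomial.X : Fin 2 → P2))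
  rw [MvPolynomial.adjoin_range_X, h1, Set.image_pair] at h2
  rw [← h2, Algebra.map_top, AlgHom.range_eq_top]
  exact hφ

end Pool.Agent.Helper34_CStar
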