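import Pool.Agent.Helper34_CStar.Kernel

/-!
# The prime degree case
-/

namespace Pool.Agent.Helper34_CStar

open Polynomial LaurentPolynomial

/-- the list of standard equations -/
def IsRep (d : ℕ) (q : P2) : Prop :=
  (∃ (g : ℂ[X]) (c : ℂ), g.Monic ∧ g.natDegree = d - 1 ∧ g.coeff 0 = 0 ∧ c ≠ 0 ∧
    q = q₁ d g - MvPolynomial.C c) ∨ q = q₂ d ∨ q = q₃ d

theorem aeval_toLaurent (f G : ℂ[X]) : aeval (toLaurent f) G = toLaurent (G.comp f) := by
  have : (aeval (toLaurent f) : ℂ[X] →ₐ[ℂ] ℂ[T;T⁻¹]) =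
      (toLaurentAlg : ℂ[X] →ₐ[ℂ] ℂ[T;T⁻¹]).comp (aeval f : ℂ[X] →ₐ[ℂ] ℂ[X]) := by
    apply Polynomial.algHom_ext
    simp
  rw [this]
  simp only [AlgHom.comp_apply, toLaurentAlg_apply]
  rfl

/-- reversal -/
theorem exists_reverse {f : ℂ[X]} (hf : f.Monic) (hd : 2 ≤ f.natDegree) (hf0 : f.coeff 0 = 0)
    (hf1 : f.coeff 1 ≠ 0) : ∃ (g : ℂ[X]) (c : ℂ), g.Monic ∧ g.natDegree = f.natDegree - 1 ∧
      g.coeff 0 = 0 ∧ c ≠ 0 ∧ LaurentPolynomial.C (f.coeff 1)⁻¹ * toLaurent f =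
        T (f.natDegree : ℤ) * invert (toLaurent (Polynomial.C c + g)) := by
  set a := f.coeff 1 with ha
  have ha' : a⁻¹ ≠ 0 := inv_ne_zero hf1
  set h : ℂ[X] := Polynomial.C a⁻¹ * f with hh
  have hd' : h.natDegree = f.natDegree := natDegree_C_mul ha'
  have hr : ∀ n, n ≤ f.natDegree → h.reverse.coeff n = h.coeff (f.natDegree - n) := by
    intro n hn
    rw [coeff_reverse, hd', revAt_le hn]
  have hrd : h.reverse.natDegree ≤ f.natDegree := hd' ▸ reverse_natDegree_le h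
  set c := h.reverse.coeff 0 with hc
  have hcv : c = a⁻¹ := by
    rw [hc, hr 0 (Nat.zero_le _), Nat.sub_zero, hh, coeff_C_mul]
    have : f.coeff f.natDegree = 1 := hf
    rw [this, mul_one]
  set g := h.reverse - Polynomial.C c with hg
  have hgc : ∀ n, n ≠ 0 → g.coeff n = h.reverse.coeff n := by
    intro n hn
    rw [hg, coeff_sub, coeff_C_of_ne_zero hn, sub_zero]
  have hgd1 : g.coeff (f.natDegree - 1) = 1 := by
    rw [hgc _ (by omega), hr _ (by omega)]
    have : f.natDegree - (f.natDegree - 1) = 1 := by omega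
    rw [this, hh, coeff_C_mul, ← ha, inv_mul_cancel₀ hf1]
  have hgle : g.natDegree ≤ f.natDegree - 1 := by
    rw [natDegree_le_iff_coeff_eq_zero]
    intro n hn
    rw [hgc n (by omega)]
    by_cases hn2 : n ≤ f.natDegree
    · rw [hr n hn2]
      have : f.natDegree - n = 0 := by omega
      rw [this, hh, coeff_C_mul, hf0, mul_zero]
    · exact coeff_eq_zero_of_natDegree_lt (by omega)
  have hgd : g.natDegree = f.natDegree - 1 := by
    apply le_antisymm hgle
    apply le_natDegree_of_ne_zero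
    rw [hgd1]; exact one_ne_zero
  refine ⟨g, c, ?_, hgd, ?_, by rw [hcv]; exact ha', ?_⟩
  · rw [Monic, leadingCoeff, hgd]; exact hgd1
  · rw [hg, coeff_sub, coeff_C_zero, ← hc, sub_self]
  · have h1 : Polynomial.C c + g = h.reverse := by rw [hg]; ring
    rw [h1, toLaurent_reverse, hd', map_mul, invert_T]
    have h2 : (invert (invert (toLaurent h)) : ℂ[T;T⁻¹]) = toLaurent h := involutive_invert _
    rw [h2, hh, map_mul, toLaurent_C]
    have h3 : (T (f.natDegree : ℤ) : ℂ[T;T⁻¹]) * T (-(f.natDegree : ℤ)) = 1 := by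
      rw [← T_add]; simp
    linear_combination (-(LaurentPolynomial.C a⁻¹ * toLaurent f)) * h3

theorem lev_sc_nat (s : ℂ) (hs : s ≠ 0) (n : ℕ) :
    lev (sc s hs) (T (n : ℤ)) = LaurentPolynomial.C (s ^ n) * T (n : ℤ) := by
  rw [lev_T_nat, sc_val, mul_pow, ← T_natCast_pow, map_pow]

theorem lev_sc_neg (s : ℂ) (hs : s ≠ 0) (n : ℕ) :
    lev (sc s hs) (T (-(n : ℤ))) = LaurentPolynomial.C (s⁻¹ ^ n) * T (-(n : ℤ)) := by
  rw [lev_T_neg, sc_inv_val, mul_pow, ← T_neg_natCast_pow, map_pow]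

theorem lev_sc_one (z : ℂ[T;T⁻¹]) : lev (sc 1 one_ne_zero) z = z := by
  have : lev (sc 1 one_ne_zero) = RingHom.id ℂ[T;T⁻¹] := by
    apply laurent_ringHom_ext
    · intro c
      rw [lev_C, ← LaurentPolynomial.C_eq_algebraMap]; rfl
    · rw [lev_T, zpow_one, sc_val, map_one, one_mul]; rfl
  rw [this]; rfl

theorem tri_X1' {φ : P2 →ₐ[ℂ] ℂ[T;T⁻¹]} {f G : ℂ[X]} {y₁ : ℂ[T;T⁻¹]} {c' : ℂ}
    (h0 : φ (MvPolynomial.X 0) = toLaurent f)
    (h1 : φ (MvPolynomial.X 1) = LaurentPolynomial.C c' * y₁ + toLaurent (G.comp f))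
    (μ ν κ : ℂ) (hμ : μ ≠ 0) (hκ : κ ≠ 0) :
    φ (tri μ ν κ hμ hκ (Polynomial.C (-κ) * G) (MvPolynomial.X 1)) =
      LaurentPolynomial.C (κ * c') * y₁ := by
  rw [tri_X1, h0, h1, aeval_toLaurent, mul_comp, C_comp, map_mul, toLaurent_C, map_neg,
    ← LaurentPolynomial.C_eq_algebraMap, map_mul]
  ring

theorem exists_rep_monic {f : ℂ[X]} (hf : f.Monic)
    (h3 : 3 ≤ f.natDegree) (hf0 : f.coeff 0 = 0) (hf1 : f.coeff 1 ≠ 0)
    (φ : P2 →ₐ[ℂ] ℂ[T;T⁻¹]) (hφ : Function.Surjective φ)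
    (hφ0 : φ (MvPolynomial.X 0) = toLaurent f)
    (hpair : OnePair f.natDegree φ (MvPolynomial.X 0) (MvPolynomial.X 1)) :
    ∃ (β : P2 ≃ₐ[ℂ] P2) (q : P2), (∀ p, φ p = 0 ↔ β q ∣ p) ∧ IsRep f.natDegree q := by
  set d := f.natDegree with hd
  have hadj := adjoin_of_surjective hφ
  rw [hφ0] at hadj
  obtain ⟨Y, k, hk, hY, hy⟩ := exists_pole hadj
  have hadj2 := hadj
  rw [hy] at hadj2
  obtain ⟨c, hc, hkey⟩ := key_const hf (by omega) hf1 hY hk (geom_inj hadj2) (geom_imm hk hadj2)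
    (by
      intro M P hkM
      apply hpair (X ^ M) P (f ^ M * Y - X ^ k * P.comp f) k _ hkM
      have e1 := aeval_algHom_apply φ (MvPolynomial.X 0) (X ^ M : ℂ[X])
      have e2 := aeval_algHom_apply φ (MvPolynomial.X 0) P
      have e3 : (T (-(k : ℤ)) : ℂ[T;T⁻¹]) * T (k : ℤ) = 1 := by rw [← T_add]; simp
      rw [map_sub, map_mul, ← e1, ← e2, hφ0, hy, map_pow, aeval_X, aeval_toLaurent, map_sub,
        map_mul, map_mul, map_pow, toLaurent_X_pow]
      linear_combination (toLaurent f ^ M * toLaurent Y) * e3)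
  obtain ⟨c', G, hc', hcase⟩ := poly_classification hf h3 hf0 hf1 hk hc hkey
  have hTk : ∀ n : ℕ, (T (n : ℤ) : ℂ[T;T⁻¹]) * T (-(n : ℤ)) = 1 := by
    intro n; rw [← T_add]; simp
  rcases hcase with ⟨hk1, hYe⟩ | ⟨hkd, ⟨e, he, hfe⟩, hYe⟩ | ⟨hkd, r, hr, hfr, hYe⟩
  · -- the first family
    obtain ⟨g, c₀, hg, hgd, hg0, hc₀, hrev⟩ := exists_reverse hf (by omega) hf0 hf1
    have hy' : φ (MvPolynomial.X 1) = LaurentPolynomial.C c' * T (-1) +
        toLaurent (G.comp f) := by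
      rw [hy, hYe, hk1, map_add, map_mul, toLaurent_C, toLaurent_X]
      have := T_mul_T_neg
      simp only [Nat.cast_one]
      linear_combination toLaurent (G.comp f) * this
    refine ⟨tri (f.coeff 1)⁻¹ 0 c'⁻¹ (inv_ne_zero hf1) (inv_ne_zero hc')
      (Polynomial.C (-c'⁻¹) * G), _, ker_transport (isStd_first (by omega) hg0 hc₀) _ 1
      one_ne_zero ?_ ?_, Or.inl ⟨g, c₀, hg, hgd, hg0, hc₀, rfl⟩⟩
    · rw [tri_X0, hφ0, map_zero, add_zero, ← LaurentPolynomial.C_eq_algebraMap, hrev,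
        lev_sc_one]
    · rw [tri_X1' hφ0 hy', lev_sc_one, inv_mul_cancel₀ hc', map_one, one_mul]
  · -- the second family
    obtain ⟨s, hs⟩ := IsAlgClosed.exists_pow_nat_eq e⁻¹ (by omega : 0 < d - 1)
    have hs0 : s ≠ 0 := by
      rintro rfl
      rw [zero_pow (by omega)] at hs
      exact inv_ne_zero he hs.symm
    have hsd : s ^ d * e = s := by
      have : s ^ d = s * s ^ (d - 1) := by rw [← pow_succ']; congr 1; omega
      rw [this, hs]; field_simp
    have hy' : φ (MvPolynomial.X 1) = LaurentPolynomial.C c' * T (-(d : ℤ)) +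
        toLaurent (G.comp f) := by
      rw [hy, hYe, hkd, map_add, map_mul, toLaurent_C, toLaurent_X_pow]
      linear_combination toLaurent (G.comp f) * hTk d
    have hκ : s⁻¹ ^ d * c'⁻¹ ≠ 0 := mul_ne_zero (pow_ne_zero _ (inv_ne_zero hs0))
      (inv_ne_zero hc')
    refine ⟨tri (s ^ d) 0 (s⁻¹ ^ d * c'⁻¹) (pow_ne_zero _ hs0) hκ
      (Polynomial.C (-(s⁻¹ ^ d * c'⁻¹)) * G), _, ker_transport (isStd_second (by omega)) _ s hs0
      ?_ ?_, Or.inr (Or.inl rfl)⟩
    · rw [tri_X0, hφ0, map_zero, add_zero, ← LaurentPolynomial.C_eq_algebraMap, map_sub,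
        lev_sc_nat, lev_T, zpow_one, sc_val]
      conv_lhs => rw [hfe]
      rw [map_sub, map_mul, toLaurent_C, toLaurent_X_pow, toLaurent_X]
      have h4 : (LaurentPolynomial.C (s ^ d) : ℂ[T;T⁻¹]) * LaurentPolynomial.C e =
          LaurentPolynomial.C s := by rw [← map_mul, hsd]
      linear_combination (-T 1) * h4
    · rw [tri_X1' hφ0 hy', lev_sc_neg, mul_assoc, inv_mul_cancel₀ hc', mul_one]
  · -- the third family
    have hs0 : r⁻¹ ≠ 0 := inv_ne_zero hr
    have hfs : f = ∑ i ∈ Finset.range d, Polynomial.C (r ^ (d - 1 - i)) * X ^ (i + 1) := by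
      have h4 : (∑ i ∈ Finset.range d, Polynomial.C (r ^ (d - 1 - i)) * X ^ (i + 1)) *
          (X - Polynomial.C r) = X ^ (d + 1) - Polynomial.C (r ^ d) * X := by
        have h5 := (Commute.all (X : ℂ[X]) (Polynomial.C r)).geom_sum₂_mul d
        calc _ = X * ((∑ i ∈ Finset.range d, X ^ i * Polynomial.C r ^ (d - 1 - i)) *
              (X - Polynomial.C r)) := by
              rw [← mul_assoc, Finset.mul_sum]
              congr 1
              apply Finset.sum_congr rfl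
              intro i _
              rw [map_pow]; ring
          _ = _ := by rw [h5, map_pow]; ring
      exact mul_right_cancel₀ (X_sub_C_ne_zero r) (hfr.trans h4.symm)
    have hy' : φ (MvPolynomial.X 1) = LaurentPolynomial.C c' *
        (T (-(d : ℤ)) - LaurentPolynomial.C r * T (-((d + 1 : ℕ) : ℤ))) +
        toLaurent (G.comp f) := by
      rw [hy, hYe, hkd, map_add, map_mul, map_mul, map_sub, toLaurent_C, toLaurent_C,
        toLaurent_X, toLaurent_X_pow]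
      have h4 : (T 1 : ℂ[T;T⁻¹]) * T (-((d + 1 : ℕ) : ℤ)) = T (-(d : ℤ)) := by
        rw [← T_add]; congr 1; push_cast; ring
      linear_combination toLaurent (G.comp f) * hTk (d + 1) + LaurentPolynomial.C c' * h4
    have hκ : r ^ d * c'⁻¹ ≠ 0 := mul_ne_zero (pow_ne_zero _ hr) (inv_ne_zero hc')
    refine ⟨tri (r⁻¹ ^ d) 0 (r ^ d * c'⁻¹) (pow_ne_zero _ hs0) hκ
      (Polynomial.C (-(r ^ d * c'⁻¹)) * G), _, ker_transport (isStd_third (by omega)) _ r⁻¹ hs0
      ?_ ?_, Or.inr (Or.inr rfl)⟩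
    · rw [tri_X0, hφ0, map_zero, add_zero, ← LaurentPolynomial.C_eq_algebraMap, map_sum]
      conv_lhs => rw [hfs]
      rw [map_sum, Finset.mul_sum]
      apply Finset.sum_congr rfl
      intro i hi
      rw [Finset.mem_range] at hi
      rw [lev_sc_nat, map_mul, toLaurent_C, toLaurent_X_pow, ← mul_assoc, ← map_mul]
      congr 2
      have h4 : d = (i + 1) + (d - 1 - i) := by omega
      have h5 : r⁻¹ ^ d = r⁻¹ ^ (i + 1) * r⁻¹ ^ (d - 1 - i) := by rw [← pow_add, ← h4]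
      rw [h5, mul_assoc, ← mul_pow, inv_mul_cancel₀ hr, one_pow, mul_one]
    · rw [tri_X1' hφ0 hy', map_sub, lev_sc_neg, lev_sc_neg, inv_inv, mul_assoc,
        inv_mul_cancel₀ hc', mul_one, pow_succ, map_mul]
      ring

end Pool.Agent.Helper34_CStar
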