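import Pool.Agent.Helper34_CStar.Biv

/-!
# The key proposition: the divided difference of `y` is a power of `t s` on the double curve
-/

namespace Pool.Agent.Helper34_CStar

open Polynomial

/-- Nullstellensatz for polynomials in two variables. -/
theorem null2 (g h : (ℂ[X])[X]) (H : ∀ t s : ℂ, ev t s g = 0 → ev t s h ≠ 0) :
    ∃ U V : (ℂ[X])[X], U * g + V * h = 1 := by
  classical
  by_contra hcon
  let e := Bivariate.equivMvPolynomial ℂ
  let I : Ideal ((ℂ[X])[X]) := Ideal.span {g, h}
  have hI : I ≠ ⊤ := by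
    intro hI
    apply hcon
    have h1 : (1 : (ℂ[X])[X]) ∈ I := by rw [hI]; trivial
    rw [Ideal.mem_span_pair] at h1
    obtain ⟨a, b, hab⟩ := h1
    exact ⟨a, b, hab⟩
  obtain ⟨m, hm, hIm⟩ := Ideal.exists_le_maximal I hI
  let m' : Ideal (MvPolynomial (Fin 2) ℂ) := Ideal.comap (e.symm : _ →+* _) m
  have hm' : m'.IsMaximal := Ideal.comap_isMaximal_of_surjective _ e.symm.surjective
  obtain ⟨x, hx⟩ := MvPolynomial.isMaximal_iff_eq_vanishingIdeal_singleton.mp hm'
  have hev : ∀ p : (ℂ[X])[X], ev (x 0) (x 1) p = MvPolynomial.aeval x (e p) := by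
    intro p
    have h2 : (ev (x 0) (x 1)) =
        ((MvPolynomial.aeval x : MvPolynomial (Fin 2) ℂ →ₐ[ℂ] ℂ) : _ →+* ℂ).comp
          (e : (ℂ[X])[X] →+* MvPolynomial (Fin 2) ℂ) := by
      apply Polynomial.ringHom_ext
      · intro a
        have h3 : ((ev (x 0) (x 1)).comp C) =
          (((MvPolynomial.aeval x : MvPolynomial (Fin 2) ℂ →ₐ[ℂ] ℂ) : _ →+* ℂ).comp
          (e : (ℂ[X])[X] →+* MvPolynomial (Fin 2) ℂ)).comp C := by
          apply Polynomial.ringHom_ext
          · intro b
            simp [e]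
          · simp [e]
        exact congrArg (fun φ : ℂ[X] →+* ℂ => φ a) h3
      · simp [e]
    exact congrArg (fun φ : (ℂ[X])[X] →+* ℂ => φ p) h2
  have hmem : ∀ p : (ℂ[X])[X], p ∈ I → ev (x 0) (x 1) p = 0 := by
    intro p hp
    rw [hev]
    have h1 : e p ∈ m' := by
      rw [Ideal.mem_comap]
      change e.symm (e p) ∈ m
      rw [AlgEquiv.symm_apply_apply]
      exact hIm hp
    rw [hx, MvPolynomial.mem_vanishingIdeal_singleton_iff] at h1
    exact h1
  exact H (x 0) (x 1) (hmem g (Ideal.subset_span (by simp)))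
    (hmem h (Ideal.subset_span (by simp)))

/-- the divided difference of `Y(t) / t ^ k` times `(t s) ^ k` -/
theorem exists_En (Y : ℂ[X]) (k : ℕ) :
    ∃ En : (ℂ[X])[X], (X - C X) * En = C Y * X ^ k - Y.map C * C (X ^ k) := by
  have h : (C Y * X ^ k - Y.map C * C (X ^ k)).IsRoot (X : ℂ[X]) := by
    simp [IsRoot.def, eval_map, eval₂_C_X]
  obtain ⟨q, hq⟩ := dvd_iff_isRoot.mpr h
  exact ⟨q, hq.symm⟩

/-- reduction of the degree by polynomials in `f` -/
theorem exists_reduction (f : ℂ[X]) (hf : f.Monic) (k : ℕ) :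
    ∀ (n : ℕ) (V : ℂ[X]), V.natDegree ≤ n → ∃ P : ℂ[X],
      (V - X ^ k * P.comp f).natDegree < k ∨ V - X ^ k * P.comp f = 0 ∨
      (k ≤ (V - X ^ k * P.comp f).natDegree ∧
        ¬ f.natDegree ∣ (V - X ^ k * P.comp f).natDegree - k) := by
  intro n
  induction n with
  | zero =>
    intro V hV
    by_cases hk : V.natDegree < k
    · exact ⟨0, Or.inl (by simpa using hk)⟩
    · have hk0 : k = 0 := by omega
      subst hk0
      refine ⟨C (V.coeff 0), Or.inr (Or.inl ?_)⟩
      simp only [pow_zero, C_comp, one_mul]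
      rw [sub_eq_zero]
      exact eq_C_of_natDegree_le_zero hV
  | succ n ih =>
    intro V hV
    by_cases hk : V.natDegree < k
    · exact ⟨0, Or.inl (by simpa using hk)⟩
    by_cases hdv : f.natDegree ∣ V.natDegree - k
    · obtain ⟨l, hl⟩ := hdv
      by_cases hV0 : V = 0
      · exact ⟨0, Or.inr (Or.inl (by simp [hV0]))⟩
      set V' := V - X ^ k * (C V.leadingCoeff * X ^ l).comp f with hV'
      have hmon : (X ^ k * f ^ l).Monic := (monic_X_pow k).mul (hf.pow l)
      have hdeg : (X ^ k * f ^ l).natDegree = V.natDegree := by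
        rw [(monic_X_pow k).natDegree_mul (hf.pow l), natDegree_X_pow, hf.natDegree_pow]
        rw [mul_comm] at hl
        omega
      have hform : X ^ k * (C V.leadingCoeff * X ^ l).comp f = C V.leadingCoeff * (X ^ k * f ^ l) := by
        simp only [mul_comp, C_comp, pow_comp, X_comp]; ring
      have hlt : V' = 0 ∨ V'.natDegree < V.natDegree := by
        by_cases hz : V' = 0
        · exact Or.inl hz
        · right
          have : V'.degree < V.degree := by
            rw [hV', hform]
            apply degree_sub_lt _ hV0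
            · rw [leadingCoeff_mul, leadingCoeff_C, hmon.leadingCoeff, mul_one]
            · rw [degree_C_mul (leadingCoeff_ne_zero.mpr hV0),
                degree_eq_natDegree hV0, degree_eq_natDegree hmon.ne_zero, hdeg]
          exact natDegree_lt_natDegree hz this
      rcases hlt with hz | hlt
      · exact ⟨C V.leadingCoeff * X ^ l, Or.inr (Or.inl hz)⟩
      · obtain ⟨P, hP⟩ := ih V' (by omega)
        refine ⟨P + C V.leadingCoeff * X ^ l, ?_⟩
        have : V - X ^ k * (P + C V.leadingCoeff * X ^ l).comp f = V' - X ^ k * P.comp f := by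
          rw [hV', add_comp]; ring
        rw [this]
        exact hP
    · refine ⟨0, Or.inr (Or.inr ?_)⟩
      simp only [zero_comp, mul_zero, sub_zero]
      exact ⟨by omega, hdv⟩

/-- there is a root of `f s = f t` different from `t` -/
theorem exists_other_root {L : Type*} [Field L] [Algebra ℂ L] {Γ : Type*}
    [LinearOrderedCommGroupWithZero Γ] {v : Valuation L Γ} [IsAlgClosed L] (hv : TrivOn v)
    {t : L} (ht : 1 < v t) {f : ℂ[X]} (hf : f.Monic) (hd : 2 ≤ f.natDegree) :
    ∃ s : L, aeval s f = aeval t f ∧ s ≠ t := by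
  classical
  have h1 := card_roots_of_unity f.natDegree (by omega)
  have h2 : ((nthRootsFinset f.natDegree (1 : ℂ)).erase 1).Nonempty := by
    rw [← Finset.card_pos, h1]; omega
  obtain ⟨ζ, hζ⟩ := h2
  rw [Finset.mem_erase, mem_nthRootsFinset (by omega)] at hζ
  obtain ⟨hζ1, hζd⟩ := hζ
  obtain ⟨s, hs1, hs2⟩ := hv.exists_root ht hf (by omega) hζd
  refine ⟨s, hs1, ?_⟩
  rintro rfl
  have : s - algebraMap ℂ L ζ * s = algebraMap ℂ L (1 - ζ) * s := by
    rw [map_sub, map_one]; ring
  rw [this, map_mul, hv _ (sub_ne_zero.mpr (Ne.symm hζ1)), one_mul] at hs2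
  exact lt_irrefl _ hs2

/-- **Key proposition.** -/
theorem key_const {f Y : ℂ[X]} {k : ℕ} (hf : f.Monic) (hd : 2 ≤ f.natDegree)
    (hf1 : f.coeff 1 ≠ 0) (hY : Y.coeff 0 ≠ 0) (hk : 1 ≤ k)
    (hinj : ∀ t s : ℂ, t ≠ 0 → s ≠ 0 → f.eval t = f.eval s →
      s ^ k * Y.eval t = t ^ k * Y.eval s → t = s)
    (himm : ∀ t : ℂ, t ≠ 0 → f.derivative.eval t = 0 →
      t * Y.derivative.eval t - k * Y.eval t ≠ 0)
    (hcop : ∀ (M : ℕ) (P : ℂ[X]), k ≤ (f ^ M * Y - X ^ k * P.comp f).natDegree →
      f.natDegree ∣ (f ^ M * Y - X ^ k * P.comp f).natDegree - k ∨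
      Nat.Coprime f.natDegree ((f ^ M * Y - X ^ k * P.comp f).natDegree - k)) :
    ∃ c : ℂ, c ≠ 0 ∧ ∀ t s : ℂ, f.eval t = f.eval s →
      s ^ k * Y.eval t - t ^ k * Y.eval s = c * (t - s) := by
  classical
  obtain ⟨En, hEn⟩ := exists_En Y k
  have hEn' : ∀ {L : Type} [CommRing L] [Algebra ℂ L] (t s : L),
      (s - t) * ev t s En = s ^ k * aeval t Y - t ^ k * aeval s Y := by
    intro L _ _ t s
    have h1 := congrArg (ev t s) hEn
    simp only [map_mul, map_sub, map_pow, ev_X, ev_C, aeval_X, ev_map_C] at h1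
    rw [h1]; ring
  -- no common zeros
  have hnz : ∀ t s : ℂ, ev t s (Dl f) = 0 → ev t s En ≠ 0 := by
    intro t s h1 h2
    have h3 := Dl_ev f t s
    rw [h1, mul_zero] at h3
    have h4 := hEn' t s
    rw [h2, mul_zero] at h4
    simp only [coe_aeval_eq_eval] at h3 h4
    by_cases hts : t = s
    · subst hts
      rw [Dl_ev_diag] at h1
      have ht0 : t ≠ 0 := by
        rintro rfl
        rw [← coeff_zero_eq_eval_zero, coeff_derivative] at h1
        simp at h1
        exact hf1 h1
      apply himm t ht0 h1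
      -- differentiate
      have h5 := congrArg derivative hEn
      have h6 := congrArg (ev t t) h5
      simp only [derivative_mul, derivative_X, derivative_C, sub_zero, one_mul,
        map_add, map_mul, map_sub, ev_X, ev_C, aeval_X, sub_self, zero_mul, add_zero,
        derivative_map, ev_map_C, h2, map_pow, zero_add, derivative_pow,
        coe_aeval_eq_eval, mul_zero, map_natCast, map_one, mul_one] at h6
      have h7 : t * (eval t Y * (k * t ^ (k - 1)) - eval t (derivative Y) * t ^ k) = 0 := by
        rw [← mul_zero t]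
        congr 1
        linear_combination -h6
      have h8 : t * t ^ (k - 1) = t ^ k := by rw [← pow_succ']; congr 1; omega
      have h9 : t ^ k * (t * Y.derivative.eval t - k * Y.eval t) = 0 := by
        have : t * (eval t Y * (k * t ^ (k - 1)) - eval t (derivative Y) * t ^ k) =
          eval t Y * k * (t * t ^ (k - 1)) - t * eval t (derivative Y) * t ^ k := by ring
        rw [this, h8] at h7
        linear_combination -h7
      exact (mul_eq_zero.mp h9).resolve_left (pow_ne_zero _ ht0)
    · by_cases hs0 : s = 0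
      · subst hs0
        have ht0 : t ≠ 0 := hts
        rw [zero_pow (by omega), zero_mul, zero_sub, ← coeff_zero_eq_eval_zero] at h4
        have h5 := (neg_eq_zero.mp h4.symm)
        rcases mul_eq_zero.mp h5 with h6 | h6
        · exact pow_ne_zero _ ht0 h6
        · exact hY h6
      · by_cases ht0 : t = 0
        · subst ht0
          rw [zero_pow (by omega), zero_mul, sub_zero, ← coeff_zero_eq_eval_zero] at h4
          rcases mul_eq_zero.mp h4.symm with h6 | h6
          · exact pow_ne_zero _ hs0 h6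
          · exact hY h6
        · exact hts (hinj t s ht0 hs0 (sub_eq_zero.mp h3.symm).symm (sub_eq_zero.mp h4.symm))
  obtain ⟨U, V, hUV⟩ := null2 (Dl f) En hnz
  obtain ⟨L, _, _, _, B, t, hv, ht⟩ := exists_valuation
  set v := B.valuation with hvdef
  set d := f.natDegree with hdd
  have ht0 : t ≠ 0 := by rintro rfl; simp at ht
  have hvt0 : 0 < v t := lt_trans zero_lt_one ht
  -- on the double curve `V` is the inverse of `En`
  have hinv : ∀ s : L, aeval s f = aeval t f → s ≠ t → ev t s V * ev t s En = 1 := by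
    intro s hs hst
    have := congrArg (ev t s) hUV
    rwa [map_add, map_mul, map_mul, Dl_ev_ne hs hst, mul_zero, zero_add, map_one] at this
  obtain ⟨s₁, hs₁, hs₁t⟩ := exists_other_root hv ht hf hd
  -- `En` cannot be small at all the points, and its inverse neither
  have hsmallE : (∀ s : L, aeval s f = aeval t f → s ≠ t → v (ev t s En) < 1) → False := by
    intro hsm
    obtain ⟨c, q, hcq⟩ := bounded_const hv ht hf hd En (fun s h1 h2 => (hsm s h1 h2).le)
    have h1 := hsm s₁ hs₁ hs₁t
    rw [hcq, map_add, map_mul, Dl_ev_ne hs₁ hs₁t, zero_mul, add_zero, ev_C, aeval_C] at h1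
    have hc := hv.eq_zero h1
    have h2 := hinv s₁ hs₁ hs₁t
    rw [hcq, map_add, map_mul (ev t s₁) (Dl f), Dl_ev_ne hs₁ hs₁t, zero_mul, add_zero, ev_C,
      aeval_C, hc, map_zero, mul_zero] at h2
    exact zero_ne_one h2
  have hsmallV : (∀ s : L, aeval s f = aeval t f → s ≠ t → v (ev t s V) < 1) → False := by
    intro hsm
    obtain ⟨c, q, hcq⟩ := bounded_const hv ht hf hd V (fun s h1 h2 => (hsm s h1 h2).le)
    have h1 := hsm s₁ hs₁ hs₁t
    rw [hcq, map_add, map_mul, Dl_ev_ne hs₁ hs₁t, zero_mul, add_zero, ev_C, aeval_C] at h1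
    have hc := hv.eq_zero h1
    have h2 := hinv s₁ hs₁ hs₁t
    rw [hcq, map_add, map_mul (ev t s₁) (Dl f), Dl_ev_ne hs₁ hs₁t, zero_mul, add_zero, ev_C,
      aeval_C, hc, map_zero, zero_mul] at h2
    exact zero_ne_one h2
  -- sizes
  have hsize : ∀ s : L, aeval s f = aeval t f → s ≠ t → v (s - t) = v t := by
    intro s hs hst
    apply le_antisymm
    · exact Valuation.map_sub_le v (hv.v_root ht (by omega) hs).le le_rfl
    · exact hv.root_ne_near ht hf (by omega) hs hst
  have hft : v (aeval t f) = v t ^ d := hv.v_aeval ht hf.ne_zero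
  set M := 2 * k with hM
  obtain ⟨P, hP⟩ := exists_reduction f hf k _ (f ^ M * Y) le_rfl
  set H := f ^ M * Y - X ^ k * P.comp f with hH
  have hnum : ∀ s : L, aeval s f = aeval t f →
      aeval t f ^ M * ((s - t) * ev t s En) = s ^ k * aeval t H - t ^ k * aeval s H := by
    intro s hs
    rw [hEn']
    simp only [hH, map_sub, map_mul, map_pow, aeval_X, aeval_comp, hs]
    ring
  -- the case of small degree
  have hcase1 : H.natDegree < k → False := by
    intro hHk
    apply hsmallE
    intro s hs hst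
    have h1 := hnum s hs
    have hvs : v s = v t := hv.v_root ht (by omega) hs
    have h2 : v (s ^ k * aeval t H - t ^ k * aeval s H) ≤ v t ^ (k + (k - 1)) := by
      apply Valuation.map_sub_le
      · rw [map_mul, map_pow, hvs, pow_add]
        exact mul_le_mul_right (hv.aeval_le ht H (k - 1) (by omega)) _
      · rw [map_mul, map_pow, pow_add]
        have := hv.aeval_le (s := s) (by rw [hvs]; exact ht) H (k - 1) (by omega)
        rw [hvs] at this
        exact mul_le_mul_right this _
    rw [← h1, map_mul, map_pow, hft, map_mul, hsize s hs hst, ← pow_mul] at h2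
    by_contra hcon
    rw [not_lt] at hcon
    have h3 : v t ^ (d * M + 1) ≤ v t ^ (k + (k - 1)) := by
      calc v t ^ (d * M + 1) = v t ^ (d * M) * (v t * 1) := by rw [mul_one, pow_succ]
        _ ≤ v t ^ (d * M) * (v t * v (ev t s En)) :=
            mul_le_mul_right (mul_le_mul_right hcon _) _
        _ ≤ _ := h2
    have h4 : k + (k - 1) < d * M + 1 := by
      have : 2 * (2 * k) ≤ d * M := by rw [hM]; exact Nat.mul_le_mul_right _ hd
      omega
    exact absurd (pow_lt_pow_right₀ ht h4) (not_lt.mpr h3)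
  have hcase2 : k ≤ H.natDegree ∧ ¬ d ∣ H.natDegree - k := by
    rcases hP with h | h | h
    · exact absurd (hcase1 h) id
    · have : H.natDegree = 0 := by rw [h]; simp
      exact absurd (hcase1 (by omega)) id
    · exact h
  obtain ⟨hkn, hdn⟩ := hcase2
  have hcop' : Nat.Coprime d (H.natDegree - k) := (hcop M P hkn).resolve_left hdn
  set n := H.natDegree with hn
  have hH0 : H ≠ 0 := by
    intro h
    apply hdn
    have : n = 0 := by rw [hn, h]; simp
    have hk0 : n - k = 0 := by omega
    rw [hk0]; exact dvd_zero _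
  -- the size of the numerator
  have hnumv : ∀ s : L, aeval s f = aeval t f → s ≠ t →
      v (s ^ k * aeval t H - t ^ k * aeval s H) = v t ^ (k + n) := by
    intro s hs hst
    have hvs : v s = v t := hv.v_root ht (by omega) hs
    obtain ⟨ζ, hζd, hζ⟩ := hv.root_near ht hf (by omega) hs
    have hζ0 : ζ ≠ 0 := by
      rintro rfl
      rw [zero_pow (by omega)] at hζd
      exact zero_ne_one hζd
    have hζ1 : ζ ≠ 1 := by
      rintro rfl
      rw [map_one, one_mul] at hζ
      exact absurd hζ (not_lt.mpr (hv.root_ne_near ht hf (by omega) hs hst))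
    have hzt : v (algebraMap ℂ L ζ * t) = v t := by rw [map_mul, hv ζ hζ0, one_mul]
    set η := H.leadingCoeff with hη
    have hη0 : η ≠ 0 := leadingCoeff_ne_zero.mpr hH0
    have hlt := hv.lead ht H n le_rfl
    have hls := hv.lead (s := s) (by rw [hvs]; exact ht) H n le_rfl
    rw [hvs] at hls
    have hηt : v (algebraMap ℂ L (H.coeff n) * t ^ n) ≤ v t ^ n := by
      rw [map_mul, map_pow]
      calc _ ≤ 1 * v t ^ n := mul_le_mul_left (hv.le_one _) _
        _ = _ := one_mul _
    -- first product
    have hA : v (s ^ k * aeval t H - (algebraMap ℂ L ζ * t) ^ k *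
        (algebraMap ℂ L (H.coeff n) * t ^ n)) < v t ^ k * v t ^ n := by
      apply close_mul (close_pow hζ hzt.le k) hlt _ hηt
      rw [map_pow, hzt]
    -- second product
    have hB0 : v (aeval s H - algebraMap ℂ L (H.coeff n) * (algebraMap ℂ L ζ * t) ^ n) <
        v t ^ n := by
      have e : aeval s H - algebraMap ℂ L (H.coeff n) * (algebraMap ℂ L ζ * t) ^ n =
        (aeval s H - algebraMap ℂ L (H.coeff n) * s ^ n) +
        algebraMap ℂ L (H.coeff n) * (s ^ n - (algebraMap ℂ L ζ * t) ^ n) := by ring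
      rw [e]
      apply Valuation.map_add_lt v hls
      rw [map_mul]
      calc _ ≤ 1 * v (s ^ n - (algebraMap ℂ L ζ * t) ^ n) := mul_le_mul_left (hv.le_one _) _
        _ = v (s ^ n - (algebraMap ℂ L ζ * t) ^ n) := one_mul _
        _ < _ := close_pow hζ hzt.le n
    have hB : v (t ^ k * aeval s H - t ^ k * (algebraMap ℂ L (H.coeff n) *
        (algebraMap ℂ L ζ * t) ^ n)) < v t ^ k * v t ^ n := by
      rw [← mul_sub, map_mul, map_pow]
      exact mul_lt_mul_of_pos_left hB0 (pow_pos hvt0 _)
    -- the main term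
    have hmain : (algebraMap ℂ L ζ * t) ^ k * (algebraMap ℂ L (H.coeff n) * t ^ n) -
        t ^ k * (algebraMap ℂ L (H.coeff n) * (algebraMap ℂ L ζ * t) ^ n) =
        algebraMap ℂ L (η * (ζ ^ k - ζ ^ n)) * t ^ (k + n) := by
      rw [hη, leadingCoeff, ← hn]
      simp only [map_mul, map_sub, map_pow]
      ring
    have hne : η * (ζ ^ k - ζ ^ n) ≠ 0 := by
      apply mul_ne_zero hη0
      intro h
      rw [sub_eq_zero] at h
      apply hζ1
      have h1 : ζ ^ (n - k) = 1 := by
        have h2 : ζ ^ n = ζ ^ k * ζ ^ (n - k) := by rw [← pow_add]; congr 1; omega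
        rw [h2] at h
        exact (mul_right_eq_self₀.mp h.symm).resolve_right (pow_ne_zero _ hζ0)
      have h2 := orderOf_dvd_of_pow_eq_one h1
      have h3 := orderOf_dvd_of_pow_eq_one hζd
      have h4 := Nat.dvd_gcd h3 h2
      rw [hcop'] at h4
      exact orderOf_eq_one_iff.mp (Nat.dvd_one.mp h4)
    have hmainv : v (algebraMap ℂ L (η * (ζ ^ k - ζ ^ n)) * t ^ (k + n)) = v t ^ (k + n) := by
      rw [map_mul, hv _ hne, one_mul, map_pow]
    have hdiff : v ((s ^ k * aeval t H - t ^ k * aeval s H) -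
        algebraMap ℂ L (η * (ζ ^ k - ζ ^ n)) * t ^ (k + n)) < v t ^ (k + n) := by
      rw [← hmain, pow_add (v t)]
      have e : (s ^ k * aeval t H - t ^ k * aeval s H) -
        ((algebraMap ℂ L ζ * t) ^ k * (algebraMap ℂ L (H.coeff n) * t ^ n) -
        t ^ k * (algebraMap ℂ L (H.coeff n) * (algebraMap ℂ L ζ * t) ^ n)) =
        (s ^ k * aeval t H - (algebraMap ℂ L ζ * t) ^ k *
        (algebraMap ℂ L (H.coeff n) * t ^ n)) - (t ^ k * aeval s H - t ^ k *
        (algebraMap ℂ L (H.coeff n) * (algebraMap ℂ L ζ * t) ^ n)) := by ring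
      rw [e]
      exact Valuation.map_sub_lt v hA hB
    rw [← hmainv] at hdiff ⊢
    have h5 := Valuation.map_add_eq_of_lt_left v hdiff
    rw [add_sub_cancel] at h5
    exact h5
  have hEv : ∀ s : L, aeval s f = aeval t f → s ≠ t →
      v t ^ (d * M + 1) * v (ev t s En) = v t ^ (k + n) := by
    intro s hs hst
    have h1 := hnumv s hs hst
    rw [← hnum s hs, map_mul, map_pow, hft, map_mul, hsize s hs hst, ← pow_mul] at h1
    rw [← h1, pow_succ, mul_assoc]
  rcases lt_trichotomy (d * M + 1) (k + n) with hlt | heq | hgt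
  · -- `En` is large, its inverse is small
    exfalso
    apply hsmallV
    intro s hs hst
    have h1 := hEv s hs hst
    have h2 := hinv s hs hst
    have h3 : v (ev t s V) * v (ev t s En) = 1 := by rw [← map_mul, h2, map_one]
    by_contra hcon
    rw [not_lt] at hcon
    have h4 : v (ev t s En) ≤ 1 := by
      calc v (ev t s En) = 1 * v (ev t s En) := (one_mul _).symm
        _ ≤ v (ev t s V) * v (ev t s En) := mul_le_mul_left hcon _
        _ = 1 := h3
    have h5 : v t ^ (k + n) ≤ v t ^ (d * M + 1) := by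
      rw [← h1]
      calc _ ≤ v t ^ (d * M + 1) * 1 := mul_le_mul_right h4 _
        _ = _ := mul_one _
    exact absurd (pow_lt_pow_right₀ ht hlt) (not_lt.mpr h5)
  · -- `En` is bounded
    have hb : ∀ s : L, aeval s f = aeval t f → s ≠ t → v (ev t s En) ≤ 1 := by
      intro s hs hst
      have h1 := hEv s hs hst
      rw [heq] at h1
      exact ((mul_eq_left₀ (pow_pos hvt0 _).ne').mp h1).le
    obtain ⟨c, q, hcq⟩ := bounded_const hv ht hf hd En hb
    have hc0 : c ≠ 0 := by
      rintro rfl
      have h2 := hinv s₁ hs₁ hs₁t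
      rw [hcq, map_add, map_mul (ev t s₁) (Dl f), Dl_ev_ne hs₁ hs₁t, zero_mul, add_zero, ev_C,
        aeval_C, map_zero, mul_zero] at h2
      exact zero_ne_one h2
    refine ⟨-c, neg_ne_zero.mpr hc0, ?_⟩
    intro a b hab
    by_cases hne : a = b
    · subst hne; ring
    · have h1 := hEn' a b
      have h2 : aeval b f = aeval a f := by simpa using hab.symm
      rw [hcq, map_add, map_mul, Dl_ev_ne h2 (Ne.symm hne), zero_mul, add_zero, ev_C,
        aeval_C] at h1
      simp only [coe_aeval_eq_eval] at h1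
      rw [← h1]
      simp
      ring
  · exfalso
    apply hsmallE
    intro s hs hst
    have h1 := hEv s hs hst
    by_contra hcon
    rw [not_lt] at hcon
    have h5 : v t ^ (d * M + 1) ≤ v t ^ (k + n) := by
      rw [← h1]
      calc _ = v t ^ (d * M + 1) * 1 := (mul_one _).symm
        _ ≤ _ := mul_le_mul_right hcon _
    exact absurd (pow_lt_pow_right₀ ht hgt) (not_lt.mpr h5)

end Pool.Agent.Helper34_CStar
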