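import Pool.Agent.Helper34_CStar.DegBound

/-!
# The classification in degree at most three
-/

namespace Pool.Agent.Helper34_CStar

open Polynomial LaurentPolynomial

/-- `p` is primitive and has a fibre isomorphic to the punctured line. -/
def HasCStarFibre (p : P2) : Prop :=
  Primitive p ∧ ∃ (c : ℂ) (φ : P2 →ₐ[ℂ] ℂ[T;T⁻¹]), IsFibre p c φ

/-- `p` is equivalent to a polynomial of degree at most `n` in `y`. -/
def HasYDegree (n : ℕ) (p : P2) : Prop := ∃ q : P2, Equivalent p q ∧ q.degreeOf 1 ≤ n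

theorem Equivalent.hasCStarFibre {p q : P2} (h : Equivalent p q) (hq : HasCStarFibre q) :
    HasCStarFibre p := by
  obtain ⟨α, a, b, ha, hpq⟩ := h
  obtain ⟨hprim, c, φ, hs, hker⟩ := hq
  have hCa := C_inv_mul ha
  refine ⟨?_, a * c + b, φ.comp (α.symm : P2 →ₐ[ℂ] P2), ?_, ?_⟩
  · intro g z hz
    have h1 : q = aeval (α.symm z) (Polynomial.C a⁻¹ * g + Polynomial.C (-(a⁻¹ * b))) := by
      apply α.injective
      have h2 : α (aeval (α.symm z) (Polynomial.C a⁻¹ * g + Polynomial.C (-(a⁻¹ * b)))) =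
          aeval z (Polynomial.C a⁻¹ * g + Polynomial.C (-(a⁻¹ * b))) := by
        have h3 := aeval_algHom_apply (α : P2 →ₐ[ℂ] P2) (α.symm z)
          (Polynomial.C a⁻¹ * g + Polynomial.C (-(a⁻¹ * b)))
        have h4 : (α : P2 →ₐ[ℂ] P2) (α.symm z) = z := α.apply_symm_apply z
        rw [h4] at h3
        exact h3.symm
      rw [h2, map_add, map_mul, aeval_C, aeval_C, ← hz, MvPolynomial.algebraMap_eq, hpq, map_neg,
        map_mul]
      linear_combination (-(α q)) * hCa
    have h2 := hprim _ _ h1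
    rwa [natDegree_add_C, natDegree_C_mul (inv_ne_zero ha)] at h2
  · rw [AlgHom.coe_comp]
    exact hs.comp α.symm.surjective
  · ext r
    rw [RingHom.mem_ker, AlgHom.comp_apply]
    have h1 : (φ (α.symm r) = 0) ↔ (α.symm r) ∈ RingHom.ker φ := Iff.rfl
    have h2 : ((α.symm : P2 →ₐ[ℂ] P2) r) = α.symm r := rfl
    rw [h2, h1, hker, Ideal.mem_radical_iff, Ideal.mem_radical_iff]
    apply exists_congr
    intro N
    rw [Ideal.mem_span_singleton, Ideal.mem_span_singleton, ← map_dvd_iff α, map_pow,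
      AlgEquiv.apply_symm_apply, map_sub, equiv_C]
    have h3 : p - MvPolynomial.C (a * c + b) =
        MvPolynomial.C a * (α q - MvPolynomial.C c) := by
      rw [hpq, map_add, map_mul]; ring
    rw [h3]
    have h4 : IsUnit (MvPolynomial.C a : P2) := (isUnit_iff_ne_zero.mpr ha).map MvPolynomial.C
    exact h4.mul_left_dvd.symm

theorem hasCStarFibre_of_std {q : P2} {c : ℂ} {x₁ y₁ : ℂ[T;T⁻¹]}
    (hstd : IsStd x₁ y₁ (q - MvPolynomial.C c)) (hq0 : q - MvPolynomial.C c ≠ 0) :
    HasCStarFibre q := by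
  have hp := prime_of_ker hq0 hstd.mem_ker_iff
  exact ⟨primitive_of_prime hp, c, hom2 x₁ y₁,
    isFibre_of_ker hstd.surjective hp hstd.mem_ker_iff⟩

/-- a nonzero element is not in the kernel of all evaluations -/
theorem ne_zero_of_eval {q : P2} {x y : ℂ} (h : hom2 x y q ≠ 0) : q ≠ 0 := by
  rintro rfl
  exact h (map_zero _)

theorem degreeOf_X0 : (MvPolynomial.X 0 : P2).degreeOf 1 = 0 :=
  MvPolynomial.degreeOf_X_of_ne (by decide)

theorem degreeOf_X1 : (MvPolynomial.X 1 : P2).degreeOf 1 = 1 :=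
  MvPolynomial.degreeOf_X_self 1

theorem deg_add {p q : P2} {n : ℕ} (hp : p.degreeOf 1 ≤ n) (hq : q.degreeOf 1 ≤ n) :
    (p + q).degreeOf 1 ≤ n :=
  (MvPolynomial.degreeOf_add_le 1 p q).trans (max_le hp hq)

theorem deg_neg {p : P2} {n : ℕ} (hp : p.degreeOf 1 ≤ n) : (-p).degreeOf 1 ≤ n := by
  have : -p = MvPolynomial.C (-1) * p := by rw [map_neg, map_one]; ring
  rw [this]
  exact (MvPolynomial.degreeOf_C_mul_le p 1 (-1)).trans hp

theorem deg_sub {p q : P2} {n : ℕ} (hp : p.degreeOf 1 ≤ n) (hq : q.degreeOf 1 ≤ n) :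
    (p - q).degreeOf 1 ≤ n := by
  rw [sub_eq_add_neg]; exact deg_add hp (deg_neg hq)

theorem deg_mul {p q : P2} {m n : ℕ} (hp : p.degreeOf 1 ≤ m) (hq : q.degreeOf 1 ≤ n) :
    (p * q).degreeOf 1 ≤ m + n :=
  (MvPolynomial.degreeOf_mul_le 1 p q).trans (add_le_add hp hq)

theorem deg_pow {p : P2} {n : ℕ} (hp : p.degreeOf 1 ≤ n) (k : ℕ) :
    (p ^ k).degreeOf 1 ≤ k * n :=
  (MvPolynomial.degreeOf_pow_le 1 p k).trans (Nat.mul_le_mul_left k hp)

theorem deg_aeval (g : ℂ[X]) : (aeval (MvPolynomial.X 0 : P2) g).degreeOf 1 ≤ 0 := by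
  induction g using Polynomial.induction_on' with
  | add p q hp hq => rw [map_add]; exact deg_add hp hq
  | monomial n a =>
    rw [aeval_monomial, MvPolynomial.algebraMap_eq]
    refine (MvPolynomial.degreeOf_C_mul_le _ 1 a).trans ?_
    have := deg_pow (n := 0) (p := (MvPolynomial.X 0 : P2)) degreeOf_X0.le n
    simpa using this

theorem deg_one : (1 : P2).degreeOf 1 ≤ 0 := by
  rw [← map_one MvPolynomial.C, MvPolynomial.degreeOf_C]

theorem deg_X0_pow (n : ℕ) : ((MvPolynomial.X 0 : P2) ^ n).degreeOf 1 ≤ 0 := by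
  simpa using deg_pow (n := 0) (p := (MvPolynomial.X 0 : P2)) degreeOf_X0.le n

theorem deg_mono {p : P2} {m n : ℕ} (hp : p.degreeOf 1 ≤ m) (h : m ≤ n) : p.degreeOf 1 ≤ n :=
  hp.trans h

theorem deg_lin (n : ℕ) (g : ℂ[X]) : (MvPolynomial.X 0 ^ n * MvPolynomial.X 1 -
    aeval (MvPolynomial.X 0 : P2) g).degreeOf 1 ≤ 1 := by
  apply deg_sub
  · exact deg_mul (m := 0) (n := 1) (deg_X0_pow n) degreeOf_X1.le
  · exact deg_mono (deg_aeval g) (by omega)

theorem deg_rel (j : Fin 4) {i : ℕ} {τ : ℂ[X]} {q : P2}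
    (hq : MvPolynomial.X 0 ^ i * q = rel j (MvPolynomial.X 0) (MvPolynomial.X 0 ^ i *
      MvPolynomial.X 1 + aeval (MvPolynomial.X 0 : P2) τ)) : q.degreeOf 1 ≤ 3 := by
  obtain ⟨ρ, hρ⟩ := dvd_of_trunc j hq
  have h1 := congrArg (aeval (MvPolynomial.X 0 : P2)) hρ
  rw [map_rel, map_mul, map_pow, aeval_X] at h1
  set w : P2 := MvPolynomial.X 0 ^ i * MvPolynomial.X 1 + aeval (MvPolynomial.X 0 : P2) τ with hw
  set w' : P2 := aeval (MvPolynomial.X 0 : P2) τ with hw'
  have h2 := rel_sub j (MvPolynomial.X 0 : P2) w w'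
  have h3 : q = MvPolynomial.X 1 * relD j (MvPolynomial.X 0 : P2) w w' +
      aeval (MvPolynomial.X 0 : P2) ρ := by
    apply mul_left_cancel₀ (pow_ne_zero i (MvPolynomial.X_ne_zero (R := ℂ) (0 : Fin 2)))
    have : w - w' = MvPolynomial.X 0 ^ i * MvPolynomial.X 1 := by rw [hw]; ring
    rw [this] at h2
    rw [hq]
    linear_combination h2 + h1
  have d1 : w.degreeOf 1 ≤ 1 := by
    apply deg_add
    · exact deg_mul (m := 0) (n := 1) (deg_X0_pow i) degreeOf_X1.le
    · exact deg_mono (deg_aeval τ) (by omega)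
  have d0 : w'.degreeOf 1 ≤ 0 := deg_aeval τ
  have dX : (MvPolynomial.X 0 : P2).degreeOf 1 ≤ 0 := degreeOf_X0.le
  have d2 : (relD j (MvPolynomial.X 0 : P2) w w').degreeOf 1 ≤ 2 := by
    have hsq : (w ^ 2 + w * w' + w' ^ 2).degreeOf 1 ≤ 2 := by
      refine deg_add (deg_add ?_ ?_) ?_
      · simpa using deg_pow d1 2
      · exact deg_mono (deg_mul d1 d0) (by omega)
      · exact deg_mono (deg_pow d0 2) (by omega)
    have hlin : (w + w').degreeOf 1 ≤ 2 :=
      deg_add (deg_mono d1 (by omega)) (deg_mono d0 (by omega))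
    fin_cases j <;> simp only [relD]
    · exact deg_sub hlin (deg_mono deg_one (by omega))
    · exact deg_sub hsq hlin
    · exact deg_sub (deg_sub hsq hlin) (deg_add (deg_mono dX (by omega)) (deg_mono dX (by omega)))
    · exact deg_add (deg_mono (deg_mul dX hsq) (by omega)) (deg_mono deg_one (by omega))
  rw [h3]
  apply deg_add
  · exact deg_mono (deg_mul degreeOf_X1.le d2) (by omega)
  · exact deg_mono (deg_aeval ρ) (by omega)

/-- each representative is primitive, has a fibre isomorphic to the punctured line and degree at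
most three in `y` -/
theorem isRepr_good {q : P2} (h : IsRepr q) : HasCStarFibre q ∧ q.degreeOf 1 ≤ 3 := by
  have htrunc : ∀ (j : Fin 4) (i : ℕ), 1 ≤ i → IsTrunc j i q →
      HasCStarFibre q ∧ q.degreeOf 1 ≤ 3 := by
    rintro j i hi ⟨τ, hd, h0, hq⟩
    obtain ⟨y₁, hy₁⟩ := exists_y₀ j h0 (dvd_of_trunc j hq)
    have hstd := isStd_trunc j hi h0 hq hy₁
    refine ⟨hasCStarFibre_of_std (c := 0) (by rw [map_zero, sub_zero]; exact hstd) ?_, deg_rel j hq⟩
    rw [map_zero, sub_zero]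
    rintro rfl
    rw [mul_zero] at hq
    -- evaluate at a point where the relation does not hold
    obtain ⟨q', hq'⟩ := exists_series j (i + 1) (by omega)
    have h1 := congrArg (hom2 (X : ℂ[X]) (0 : ℂ[X])) hq
    have h2 := congrArg (hom2 (X : ℂ[X]) (1 : ℂ[X])) hq
    rw [map_zero, map_rel, map_add, map_mul, map_pow, hom2_X0, hom2_X1, hom2_aeval, hom2_X0,
      aeval_X_left_apply] at h1 h2
    have h3 := rel_sub j (X : ℂ[X]) (X ^ i * 1 + τ) (X ^ i * 0 + τ)
    rw [← h1, ← h2, sub_zero, mul_one, mul_zero, zero_add, add_sub_cancel_right] at h3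
    have h4 := (mul_eq_zero.mp h3.symm).resolve_left (pow_ne_zero i X_ne_zero)
    obtain ⟨a, b, c, hD⟩ := relD_one j (X : ℂ[X]) (X ^ i + τ) τ
    rw [h4] at hD
    have h5 := congrArg (eval 0) hD
    rw [coeff_zero_eq_eval_zero] at h0
    simp only [eval_zero, eval_add, eval_one, eval_mul, eval_X, eval_sub, eval_pow, h0,
      zero_mul, sub_self, add_zero, zero_pow (by omega : i ≠ 0), zero_add] at h5
    exact zero_ne_one h5
  rcases h with ⟨k, g, hk, hgd, hg0, rfl⟩ | ⟨d, n, l, g, hd, hl, hld, hgn, hg0, rfl⟩ |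
    ⟨d, n, l, g, hd, hl, hld, hng, rfl⟩ | ⟨i, hi, hq⟩ | ⟨j, i, hj, hi, hq⟩ | rfl
  · refine ⟨hasCStarFibre_of_std (isStd_r₀ hk one_ne_zero hg0) ?_, ?_⟩
    · apply ne_zero_of_eval (x := 0) (y := 0)
      rw [map_sub, hom2_r₀, hom2_C, zero_pow (by omega), coe_aeval_eq_eval,
        ← coeff_zero_eq_eval_zero, hg0]
      simp
    · rw [r₀]
      exact deg_mono (deg_lin k g) (by omega)
  · have hn : 1 ≤ n := by omega
    refine ⟨hasCStarFibre_of_std (c := 0) (by
      rw [map_zero, sub_zero]; exact isStd_r₁ (by omega) hn hl hld hg0) ?_, ?_⟩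
    · apply ne_zero_of_eval (x := 0) (y := 0)
      rw [map_sub, hom2_r₁, hom2_C, coe_aeval_eq_eval, ← coeff_zero_eq_eval_zero, hg0,
        zero_pow (by omega), zero_pow (by omega)]
      simp
    · rw [r₁]
      apply deg_sub
      · exact deg_mono (deg_pow (deg_lin n g) d) (by omega)
      · exact deg_mono (deg_X0_pow l) (by omega)
  · refine ⟨hasCStarFibre_of_std (isStd_r₂ (by omega) hl hld g) ?_, ?_⟩
    · apply ne_zero_of_eval (x := 0) (y := 0)
      rw [map_sub, hom2_r₂, hom2_C, zero_pow (by omega)]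
      simp
    · rw [r₂]
      exact deg_mono (deg_mul (m := 0) (n := 3) (deg_X0_pow l)
        (deg_mono (deg_pow (deg_lin n g) d) (by omega))) (by omega)
  · exact htrunc 0 i (by omega) hq
  · exact htrunc j i (by omega) hq
  · refine ⟨hasCStarFibre_of_std (c := 0) (by
      rw [map_zero, sub_zero]; exact isStd_third (d := 3) (by omega)) ?_, ?_⟩
    · apply ne_zero_of_eval (x := 0) (y := 0)
      rw [map_sub, hom2_q₃, hom2_C]
      norm_num [Finset.sum_range_succ]
    · have d1 : (1 - MvPolynomial.X 0 * MvPolynomial.X 1 : P2).degreeOf 1 ≤ 1 :=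
        deg_sub (deg_mono deg_one (by omega)) (deg_mul degreeOf_X0.le degreeOf_X1.le)
      have d2 : (1 - MvPolynomial.X 0 * MvPolynomial.X 1 - MvPolynomial.X 1 : P2).degreeOf 1 ≤ 1 :=
        deg_sub d1 degreeOf_X1.le
      rw [q₃]
      apply deg_sub
      · exact deg_mono (deg_mul (m := 0) (n := 3) degreeOf_X0.le (by simpa using deg_pow d1 3))
          (by omega)
      · refine (MvPolynomial.degreeOf_sum_le 1 _ _).trans ?_
        apply Finset.sup_le
        intro i hi
        rw [Finset.mem_range] at hi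
        exact deg_mono (deg_mul (deg_pow d2 i) (deg_pow d1 (3 - 1 - i))) (by omega)

/-- **Classification in degree at most three.** -/
theorem classification_three (p : P2) :
    (HasCStarFibre p ∧ HasYDegree 3 p) ↔ ∃ q, IsRepr q ∧ Equivalent p q := by
  constructor
  · rintro ⟨hp, q, hpq, hqd⟩
    obtain ⟨hprim, c, φ, hs, hker⟩ := hpq.symm.hasCStarFibre hp
    have hmem : φ (q - MvPolynomial.C c) = 0 := by
      have : q - MvPolynomial.C c ∈ RingHom.ker φ := by
        rw [hker]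
        exact Ideal.le_radical (Ideal.mem_span_singleton_self _)
      exact this
    have hne : q - MvPolynomial.C c ≠ 0 := by
      intro h0
      have h1 : q = aeval (MvPolynomial.C c : P2) (X ^ 2 + Polynomial.C (c - c ^ 2)) := by
        rw [sub_eq_zero] at h0
        rw [h0, map_add, map_pow, aeval_X, aeval_C, MvPolynomial.algebraMap_eq, ← map_pow,
          ← map_add]
        congr 1; ring
      have h2 := hprim _ _ h1
      rw [natDegree_add_C, natDegree_X_pow] at h2
      omega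
    have hdeg : (q - MvPolynomial.C c).degreeOf 1 ≤ 3 :=
      deg_sub hqd (by rw [MvPolynomial.degreeOf_C]; omega)
    obtain ⟨F, k, hF, hk, hx⟩ := degree_bound hs hne hmem hdeg
    obtain ⟨β, r, e, hr, h1⟩ := cls_degree hs hF hk hx
    obtain ⟨a, ha, hqa⟩ := eq_of_primitive hprim hker h1
    refine ⟨r, hr, hpq.trans ⟨β, a, c - a * e, ha, ?_⟩⟩
    rw [hqa, map_sub, equiv_C, map_sub, map_mul]
    ring
  · rintro ⟨q, hq, hpq⟩
    obtain ⟨h1, h2⟩ := isRepr_good hq
    exact ⟨hpq.hasCStarFibre h1, q, hpq, h2⟩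

end Pool.Agent.Helper34_CStar
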