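import Pool.Agent.Helper34_CStar.ClsForty0
import Pool.Agent.Helper34_CStar.Main3

/-!
# The classification in degree at most four
-/

namespace Pool.Agent.Helper34_CStar

open Polynomial LaurentPolynomial

/-- **Embeddings having a monic polynomial of degree four as a coordinate.** -/
theorem cls_forty {α β γ : ℂ} {φ : P2 →ₐ[ℂ] ℂ[T;T⁻¹]} (hφ : Function.Surjective φ)
    (h0 : φ (MvPolynomial.X 0) = x40 α β γ) : Cls₄ φ := by
  by_cases hh : α ^ 3 - 4 * α * β + 8 * γ = 0
  · obtain ⟨b, hb⟩ : ∃ b, b = β - α ^ 2 / 4 := ⟨_, rfl⟩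
    have hβ : β = α ^ 2 / 4 + b := by rw [hb]; ring
    have hγ : γ = α * b / 2 := by rw [hb]; linear_combination (1 / 8) * hh
    by_cases hab : α = 0 ∧ b = 0
    · obtain ⟨hα, hb0⟩ := hab
      apply cls₄_pow hφ
      rw [h0, x40_eq, hβ, hγ, hα, hb0]
      simp only [ne_eq, OfNat.ofNat_ne_zero, not_false_eq_true, zero_pow, zero_div, add_zero,
        mul_zero, map_zero, zero_mul]
      rw [T_pow]; norm_num
    · apply cls_forty_zero hβ hγ _ hφ h0
      by_cases hα : α = 0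
      · right; intro hb0; exact hab ⟨hα, hb0⟩
      · exact Or.inl hα
  · by_cases hγ : γ = 0
    · subst hγ
      have hα : α ≠ 0 := by
        rintro rfl
        apply hh; ring
      have h4 : α ^ 2 ≠ 4 * β := by
        intro h4
        apply hh
        linear_combination α * h4
      by_cases hβ : β = 0
      · subst hβ
        refine cls₄_scale hφ (neg_ne_zero.mpr hα) (fun φ' h1 h2 => ?_)
        refine cls₄_affine h1 (pow_ne_zero 4 hα) (x := T 1 ^ 4 - T 1 ^ 3) (ν := 0) ?_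
          (fun φ'' h3 h4 => cls_forty_three h3 h4)
        rw [h2, h0, x40_eq]
        simp only [map_add, map_mul, map_pow, lev_C, lev_sc_T, zpow_one,
          ← LaurentPolynomial.C_eq_algebraMap, map_neg, map_zero]
        ring
      · exact cls_forty_two hα hβ h4 hφ h0
    · exact cls_forty_one hγ hh hφ h0

/-- **One-ended coordinates of degree at most four.** -/
theorem cls₄_poly {φ : P2 →ₐ[ℂ] ℂ[T;T⁻¹]} (hφ : Function.Surjective φ) {V : ℂ[X]}
    (hV : V.natDegree ≤ 4) (h0 : φ (MvPolynomial.X 0) = toLaurent V) : Cls₄ φ := by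
  by_cases h4 : V.coeff 4 = 0
  · apply Cls.cls₄
    refine cls_degree (k := 0) hφ (F := V) ?_ (by omega) ?_
    · rw [natDegree_le_iff_coeff_eq_zero]
      intro n hn
      by_cases hn4 : n = 4
      · rw [hn4]; exact h4
      · exact coeff_eq_zero_of_natDegree_lt (by omega)
    · rw [h0]; simp
  · have hVe : V = Polynomial.C (V.coeff 4) * X ^ 4 + Polynomial.C (V.coeff 3) * X ^ 3 +
        Polynomial.C (V.coeff 2) * X ^ 2 + Polynomial.C (V.coeff 1) * X +
        Polynomial.C (V.coeff 0) := by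
      conv_lhs => rw [as_sum_range_C_mul_X_pow' (n := 5) V (by omega)]
      simp only [Finset.sum_range_succ, Finset.sum_range_zero, pow_zero, mul_one, pow_one]
      ring
    obtain ⟨o, ho⟩ : ∃ o, o = V.coeff 4 := ⟨_, rfl⟩
    obtain ⟨p, hp⟩ : ∃ p, p = V.coeff 3 := ⟨_, rfl⟩
    obtain ⟨q, hq⟩ : ∃ q, q = V.coeff 2 := ⟨_, rfl⟩
    obtain ⟨r, hr⟩ : ∃ r, r = V.coeff 1 := ⟨_, rfl⟩
    obtain ⟨s, hs⟩ : ∃ s, s = V.coeff 0 := ⟨_, rfl⟩
    rw [← ho, ← hp, ← hq, ← hr, ← hs] at hVe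
    rw [← ho] at h4
    refine cls₄_affine hφ h4 (x := x40 (p / o) (q / o) (r / o)) (ν := s) ?_
      (fun φ' h1 h2 => cls_forty h1 h2)
    have hdivC : ∀ a : ℂ, (LaurentPolynomial.C o : ℂ[T;T⁻¹]) *
        LaurentPolynomial.C (a / o) = LaurentPolynomial.C a := by
      intro a
      rw [← map_mul, mul_div_cancel₀ _ h4]
    rw [h0, hVe, x40_eq]
    simp only [map_add, map_mul, map_pow, toLaurent_C, toLaurent_X]
    linear_combination (-T 1 ^ 3) * hdivC p - T 1 ^ 2 * hdivC q - T 1 * hdivC r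

/-- **Coordinates of degree four with a simple pole at one end.** -/
theorem cls₄_three_one {φ : P2 →ₐ[ℂ] ℂ[T;T⁻¹]} (hφ : Function.Surjective φ) {F : ℂ[X]}
    (hF : F.natDegree ≤ 4) (h0 : φ (MvPolynomial.X 0) = toLaurent F * T (-1)) : Cls₄ φ := by
  have hTT := T_mul_T_neg
  by_cases h4 : F.coeff 4 = 0
  · apply Cls.cls₄
    refine cls_degree (k := 1) hφ (F := F) ?_ (by omega) ?_
    · rw [natDegree_le_iff_coeff_eq_zero]
      intro n hn
      by_cases hn4 : n = 4
      · rw [hn4]; exact h4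
      · exact coeff_eq_zero_of_natDegree_lt (by omega)
    · rw [h0]; simp
  · by_cases h0' : F.coeff 0 = 0
    · obtain ⟨G, rfl⟩ := X_dvd_iff.mpr h0'
      apply cls₄_poly hφ (V := G)
      · by_cases hG : G = 0
        · rw [hG, natDegree_zero]; omega
        · rw [natDegree_X_mul hG] at hF
          omega
      · rw [h0, map_mul, toLaurent_X]
        linear_combination toLaurent G * hTT
    · have hVe : F = Polynomial.C (F.coeff 4) * X ^ 4 + Polynomial.C (F.coeff 3) * X ^ 3 +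
          Polynomial.C (F.coeff 2) * X ^ 2 + Polynomial.C (F.coeff 1) * X +
          Polynomial.C (F.coeff 0) := by
        conv_lhs => rw [as_sum_range_C_mul_X_pow' (n := 5) F (by omega)]
        simp only [Finset.sum_range_succ, Finset.sum_range_zero, pow_zero, mul_one, pow_one]
        ring
      obtain ⟨o, ho⟩ : ∃ o, o = F.coeff 4 := ⟨_, rfl⟩
      obtain ⟨p, hp⟩ : ∃ p, p = F.coeff 3 := ⟨_, rfl⟩
      obtain ⟨q, hq⟩ : ∃ q, q = F.coeff 2 := ⟨_, rfl⟩
      obtain ⟨r, hr⟩ : ∃ r, r = F.coeff 1 := ⟨_, rfl⟩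
      obtain ⟨s, hs⟩ : ∃ s, s = F.coeff 0 := ⟨_, rfl⟩
      rw [← ho, ← hp, ← hq, ← hr, ← hs] at hVe
      rw [← ho] at h4
      rw [← hs] at h0'
      refine cls₄_affine hφ h4 (x := T 1 ^ 3 + LaurentPolynomial.C (p / o) * T 1 ^ 2 +
        LaurentPolynomial.C (q / o) * T 1 + LaurentPolynomial.C (s / o) * T (-1)) (ν := r) ?_
        (fun φ' h1 h2 => (cls_three_one (div_ne_zero h0' h4) h1 h2).cls₄)
      have hdivC : ∀ a : ℂ, (LaurentPolynomial.C o : ℂ[T;T⁻¹]) *
          LaurentPolynomial.C (a / o) = LaurentPolynomial.C a := by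
        intro a
        rw [← map_mul, mul_div_cancel₀ _ h4]
      rw [h0, hVe]
      simp only [map_add, map_mul, map_pow, toLaurent_C, toLaurent_X]
      linear_combination (-T 1 ^ 2) * hdivC p - T 1 * hdivC q - T (-1) * hdivC s +
        (LaurentPolynomial.C o * T 1 ^ 3 + LaurentPolynomial.C p * T 1 ^ 2 +
          LaurentPolynomial.C q * T 1 + LaurentPolynomial.C r) * hTT

theorem cls₄_two_two_norm {a b : ℂ} {φ : P2 →ₐ[ℂ] ℂ[T;T⁻¹]} (hφ : Function.Surjective φ)
    (h0 : φ (MvPolynomial.X 0) = T 1 ^ 2 + LaurentPolynomial.C a * T 1 +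
      LaurentPolynomial.C b * T (-1) + T (-1) ^ 2) : Cls₄ φ := by
  by_cases hab : a ^ 2 = b ^ 2
  · rcases sq_eq_sq_iff_eq_or_eq_neg.mp hab with h | h
    · subst h
      exact (cls_two_two_sym a hφ h0).cls₄
    · have hI := Complex.I_ne_zero
      refine cls₄_scale hφ hI (fun φ' h1 h2 => ?_)
      refine cls₄_affine h1 (neg_ne_zero.mpr one_ne_zero : (-1 : ℂ) ≠ 0)
        (x := T 1 ^ 2 + LaurentPolynomial.C (Complex.I * b) * T 1 +
          LaurentPolynomial.C (Complex.I * b) * T (-1) + T (-1) ^ 2) (ν := 0) ?_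
        (fun φ'' h3 h4 => (cls_two_two_sym (Complex.I * b) h3 h4).cls₄)
      have hII : (LaurentPolynomial.C Complex.I : ℂ[T;T⁻¹]) ^ 2 = -1 := by
        rw [← map_pow, Complex.I_sq, map_neg, map_one]
      have hI' : (LaurentPolynomial.C (Complex.I⁻¹) : ℂ[T;T⁻¹]) =
          -LaurentPolynomial.C Complex.I := by
        rw [Complex.inv_I, map_neg]
      rw [h2, h0, h]
      simp only [map_add, map_mul, map_pow, map_neg, lev_C, lev_sc_T, zpow_one, zpow_neg_one,
        ← LaurentPolynomial.C_eq_algebraMap, map_zero, map_one, hI']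
      linear_combination (T 1 ^ 2 + T (-1) ^ 2) * hII
  · exact (cls_two_two hab hφ h0).cls₄

/-- **Coordinates of degree four with double poles at both ends.** -/
theorem cls₄_two_two {φ : P2 →ₐ[ℂ] ℂ[T;T⁻¹]} (hφ : Function.Surjective φ) {F : ℂ[X]}
    (hF : F.natDegree ≤ 4) (h0 : φ (MvPolynomial.X 0) = toLaurent F * T (-1) ^ 2) : Cls₄ φ := by
  have hTT := T_mul_T_neg
  by_cases h4 : F.coeff 4 = 0
  · apply Cls.cls₄
    refine cls_degree (k := 2) hφ (F := F) ?_ (by omega) ?_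
    · rw [natDegree_le_iff_coeff_eq_zero]
      intro n hn
      by_cases hn4 : n = 4
      · rw [hn4]; exact h4
      · exact coeff_eq_zero_of_natDegree_lt (by omega)
    · rw [h0, T_pow]; norm_num
  · by_cases h0' : F.coeff 0 = 0
    · obtain ⟨G, rfl⟩ := X_dvd_iff.mpr h0'
      apply cls₄_three_one hφ (F := G)
      · by_cases hG : G = 0
        · rw [hG, natDegree_zero]; omega
        · rw [natDegree_X_mul hG] at hF
          omega
      · rw [h0, map_mul, toLaurent_X]
        linear_combination toLaurent G * T (-1) * hTT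
    · have hVe : F = Polynomial.C (F.coeff 4) * X ^ 4 + Polynomial.C (F.coeff 3) * X ^ 3 +
          Polynomial.C (F.coeff 2) * X ^ 2 + Polynomial.C (F.coeff 1) * X +
          Polynomial.C (F.coeff 0) := by
        conv_lhs => rw [as_sum_range_C_mul_X_pow' (n := 5) F (by omega)]
        simp only [Finset.sum_range_succ, Finset.sum_range_zero, pow_zero, mul_one, pow_one]
        ring
      obtain ⟨o, ho⟩ : ∃ o, o = F.coeff 4 := ⟨_, rfl⟩
      obtain ⟨p, hp⟩ : ∃ p, p = F.coeff 3 := ⟨_, rfl⟩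
      obtain ⟨q, hq⟩ : ∃ q, q = F.coeff 2 := ⟨_, rfl⟩
      obtain ⟨r, hr⟩ : ∃ r, r = F.coeff 1 := ⟨_, rfl⟩
      obtain ⟨s, hs⟩ : ∃ s, s = F.coeff 0 := ⟨_, rfl⟩
      rw [← ho, ← hp, ← hq, ← hr, ← hs] at hVe
      rw [← ho] at h4
      rw [← hs] at h0'
      obtain ⟨z, hz⟩ := IsAlgClosed.exists_pow_nat_eq (s / o) (by norm_num : 0 < 4)
      have hz0 : z ≠ 0 := by
        rintro rfl
        rw [zero_pow (by norm_num)] at hz
        exact div_ne_zero h0' h4 hz.symm
      have hzo : o * z ^ 4 = s := by rw [hz, mul_div_cancel₀ _ h4]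
      refine cls₄_scale hφ hz0 (fun φ' h1 h2 => ?_)
      have hμ : o * z ^ 2 ≠ 0 := mul_ne_zero h4 (pow_ne_zero 2 hz0)
      refine cls₄_affine h1 hμ (x := T 1 ^ 2 + LaurentPolynomial.C (p * z / (o * z ^ 2)) * T 1 +
        LaurentPolynomial.C (r * z⁻¹ / (o * z ^ 2)) * T (-1) + T (-1) ^ 2) (ν := q) ?_
        (fun φ'' h3 h4 => cls₄_two_two_norm h3 h4)
      have hdivC : ∀ a : ℂ, (LaurentPolynomial.C (o * z ^ 2) : ℂ[T;T⁻¹]) *
          LaurentPolynomial.C (a / (o * z ^ 2)) = LaurentPolynomial.C a := by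
        intro a
        rw [← map_mul, mul_div_cancel₀ _ hμ]
      have hx : φ (MvPolynomial.X 0) = LaurentPolynomial.C o * T 1 ^ 2 +
          LaurentPolynomial.C p * T 1 + LaurentPolynomial.C q + LaurentPolynomial.C r * T (-1) +
          LaurentPolynomial.C s * T (-1) ^ 2 := by
        rw [h0, hVe]
        simp only [map_add, map_mul, map_pow, toLaurent_C, toLaurent_X]
        linear_combination (LaurentPolynomial.C o * T 1 ^ 2 * (T 1 * T (-1) + 1) +
          LaurentPolynomial.C p * T 1 * (T 1 * T (-1) + 1) +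
          LaurentPolynomial.C q * (T 1 * T (-1) + 1) + LaurentPolynomial.C r * T (-1)) * hTT
      have e1 := hdivC (p * z)
      have e2 := hdivC (r * z⁻¹)
      have e3 : (LaurentPolynomial.C s : ℂ[T;T⁻¹]) * LaurentPolynomial.C z⁻¹ ^ 2 =
          LaurentPolynomial.C (o * z ^ 2) := by
        rw [← map_pow, ← map_mul]
        congr 1
        rw [← hzo]
        field_simp
      rw [h2, hx]
      simp only [map_add, map_mul, map_pow, lev_C, lev_sc_T, zpow_one, zpow_neg_one,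
        ← LaurentPolynomial.C_eq_algebraMap] at e1 e2 e3 ⊢
      linear_combination (-T 1) * e1 - T (-1) * e2 + T (-1) ^ 2 * e3

/-- **Embeddings with a coordinate of degree at most four.** -/
theorem cls₄_degree {φ : P2 →ₐ[ℂ] ℂ[T;T⁻¹]} (hφ : Function.Surjective φ) {F : ℂ[X]} {k : ℕ}
    (hF : F.natDegree ≤ 4) (hk : k ≤ 4)
    (h0 : φ (MvPolynomial.X 0) = toLaurent F * T (-(k : ℤ))) : Cls₄ φ := by
  have hTT := T_mul_T_neg
  have hFe : F = Polynomial.C (F.coeff 4) * X ^ 4 + Polynomial.C (F.coeff 3) * X ^ 3 +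
      Polynomial.C (F.coeff 2) * X ^ 2 + Polynomial.C (F.coeff 1) * X +
      Polynomial.C (F.coeff 0) := by
    conv_lhs => rw [as_sum_range_C_mul_X_pow' (n := 5) F (by omega)]
    simp only [Finset.sum_range_succ, Finset.sum_range_zero, pow_zero, mul_one, pow_one]
    ring
  obtain ⟨o, ho⟩ : ∃ o, o = F.coeff 4 := ⟨_, rfl⟩
  obtain ⟨p, hp⟩ : ∃ p, p = F.coeff 3 := ⟨_, rfl⟩
  obtain ⟨q, hq⟩ : ∃ q, q = F.coeff 2 := ⟨_, rfl⟩
  obtain ⟨r, hr⟩ : ∃ r, r = F.coeff 1 := ⟨_, rfl⟩
  obtain ⟨s, hs⟩ : ∃ s, s = F.coeff 0 := ⟨_, rfl⟩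
  rw [← ho, ← hp, ← hq, ← hr, ← hs] at hFe
  have hG : ∀ a b c d e : ℂ, (Polynomial.C a * X ^ 4 + Polynomial.C b * X ^ 3 +
      Polynomial.C c * X ^ 2 + Polynomial.C d * X + Polynomial.C e).natDegree ≤ 4 := by
    intro a b c d e
    compute_degree
  obtain rfl | rfl | rfl | rfl | rfl : k = 0 ∨ k = 1 ∨ k = 2 ∨ k = 3 ∨ k = 4 := by omega
  · apply cls₄_poly hφ hF
    rw [h0]; simp
  · apply cls₄_three_one hφ hF
    rw [h0]; simp
  · apply cls₄_two_two hφ hF
    rw [h0, T_neg_natCast_pow]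
  · apply cls₄_inv hφ
    intro φ' h1 h2
    apply cls₄_three_one h1 (hG s r q p o)
    rw [h2, h0, hFe, T_neg_natCast_pow]
    simp only [map_add, map_mul, map_pow, toLaurent_C, toLaurent_X, inv'_C, inv'_T, neg_neg]
    linear_combination (LaurentPolynomial.C o * T (-1) * ((T 1 * T (-1)) ^ 2 + T 1 * T (-1) + 1) +
      (LaurentPolynomial.C p * ((T 1 * T (-1)) ^ 2 + T 1 * T (-1) + 1) -
        LaurentPolynomial.C p) +
      LaurentPolynomial.C q * T 1 * (T 1 * T (-1)) -
      LaurentPolynomial.C s * T 1 ^ 3) * hTT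
  · apply cls₄_inv hφ
    intro φ' h1 h2
    apply cls₄_poly h1 (hG s r q p o)
    rw [h2, h0, hFe, T_neg_natCast_pow]
    simp only [map_add, map_mul, map_pow, toLaurent_C, toLaurent_X, inv'_C, inv'_T, neg_neg]
    linear_combination (LaurentPolynomial.C o * ((T 1 * T (-1)) ^ 3 + (T 1 * T (-1)) ^ 2 +
        T 1 * T (-1) + 1) +
      LaurentPolynomial.C p * T 1 * ((T 1 * T (-1)) ^ 2 + T 1 * T (-1) + 1) +
      LaurentPolynomial.C q * T 1 ^ 2 * (T 1 * T (-1) + 1) +
      LaurentPolynomial.C r * T 1 ^ 3) * hTT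

theorem deg_rel₄ (j : Fin 6) {i : ℕ} {τ : ℂ[X]} {q : P2}
    (hq : MvPolynomial.X 0 ^ i * q = rel₄ j (MvPolynomial.X 0) (MvPolynomial.X 0 ^ i *
      MvPolynomial.X 1 + aeval (MvPolynomial.X 0 : P2) τ)) : q.degreeOf 1 ≤ 4 := by
  obtain ⟨ρ, hρ⟩ := dvd_of_trunc₄ j hq
  have h1 := congrArg (aeval (MvPolynomial.X 0 : P2)) hρ
  rw [map_rel₄, map_mul, map_pow, aeval_X] at h1
  set w : P2 := MvPolynomial.X 0 ^ i * MvPolynomial.X 1 + aeval (MvPolynomial.X 0 : P2) τ with hw
  set w' : P2 := aeval (MvPolynomial.X 0 : P2) τ with hw'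
  have h2 := rel₄_sub j (MvPolynomial.X 0 : P2) w w'
  have h3 : q = MvPolynomial.X 1 * relD₄ j (MvPolynomial.X 0 : P2) w w' +
      aeval (MvPolynomial.X 0 : P2) ρ := by
    apply mul_left_cancel₀ (pow_ne_zero i (MvPolynomial.X_ne_zero (R := ℂ) (0 : Fin 2)))
    have : w - w' = MvPolynomial.X 0 ^ i * MvPolynomial.X 1 := by rw [hw]; ring
    rw [this] at h2
    rw [hq]
    linear_combination h2 + h1
  have d1 : w.degreeOf 1 ≤ 1 := by
    apply deg_add
    · exact deg_mul (m := 0) (n := 1) (deg_X0_pow i) degreeOf_X1.le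
    · exact deg_mono (deg_aeval τ) (by omega)
  have d0 : w'.degreeOf 1 ≤ 1 := deg_mono (deg_aeval τ) (by omega)
  have dX : (MvPolynomial.X 0 : P2).degreeOf 1 ≤ 0 := degreeOf_X0.le
  have dC : ∀ c : ℕ, ((c : P2)).degreeOf 1 ≤ 0 := by
    intro c
    rw [← map_natCast MvPolynomial.C, MvPolynomial.degreeOf_C]
  have two : (2 : P2).degreeOf 1 ≤ 0 := by exact_mod_cast dC 2
  have four : (4 : P2).degreeOf 1 ≤ 0 := by exact_mod_cast dC 4
  have eight : (8 : P2).degreeOf 1 ≤ 0 := by exact_mod_cast dC 8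
  have p2 : ∀ {p : P2}, p.degreeOf 1 ≤ 1 → (p ^ 2).degreeOf 1 ≤ 2 := by
    intro p hp
    simpa using deg_pow hp 2
  have p3 : ∀ {p : P2}, p.degreeOf 1 ≤ 1 → (p ^ 3).degreeOf 1 ≤ 3 := by
    intro p hp
    simpa using deg_pow hp 3
  have hcub : (w ^ 3 + w ^ 2 * w' + w * w' ^ 2 + w' ^ 3).degreeOf 1 ≤ 3 :=
    deg_add (deg_add (deg_add (p3 d1) (deg_mul (p2 d1) d0)) (deg_mul d1 (p2 d0))) (p3 d0)
  have hsq : (w ^ 2 + w * w' + w' ^ 2).degreeOf 1 ≤ 2 :=
    deg_add (deg_add (p2 d1) (deg_mul d1 d0)) (p2 d0)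
  have hlin : (w + w').degreeOf 1 ≤ 1 := deg_add d1 d0
  have hs2 : (w ^ 2 + w' ^ 2).degreeOf 1 ≤ 2 := deg_add (p2 d1) (p2 d0)
  have d2 : (relD₄ j (MvPolynomial.X 0 : P2) w w').degreeOf 1 ≤ 3 := by
    fin_cases j <;> simp only [relD₄]
    · exact deg_sub hcub (deg_mono hsq (by omega))
    · exact deg_add (deg_mono (deg_mul dX hcub) (by omega)) (deg_mono deg_one (by omega))
    · exact deg_sub (deg_mono (deg_mul hlin (deg_sub hs2 (deg_mono (deg_mul two dX) (by omega))))
        (by omega)) (deg_mono hsq (by omega))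
    · refine deg_add (deg_mono deg_one (by omega)) (deg_mono (deg_mul dX (deg_mul hlin
        (deg_sub (deg_mono two (by omega)) (deg_mul dX hs2)))) (by omega))
    · exact deg_add (deg_sub (deg_sub hcub (deg_mono hsq (by omega)))
        (deg_mono (deg_mul (deg_mul eight dX) hlin) (by omega)))
        (deg_mono (deg_mul four dX) (by omega))
    · have e1 : (MvPolynomial.X 0 + w).degreeOf 1 ≤ 1 := deg_add (deg_mono dX (by omega)) d1
      have e2 : (MvPolynomial.X 0 + w').degreeOf 1 ≤ 1 := deg_add (deg_mono dX (by omega)) d0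
      exact deg_sub hcub (deg_mono (deg_add (deg_add (p2 e1) (deg_mul e1 e2)) (p2 e2)) (by omega))
  rw [h3]
  apply deg_add
  · exact deg_mono (deg_mul degreeOf_X1.le d2) (by omega)
  · exact deg_mono (deg_aeval ρ) (by omega)

/-- each representative is primitive, has a fibre isomorphic to the punctured line and degree at
most four in `y` -/
theorem isRepr₄_good {q : P2} (h : IsRepr₄ q) : HasCStarFibre q ∧ q.degreeOf 1 ≤ 4 := by
  have htrunc : ∀ (j : Fin 6) (i : ℕ), 1 ≤ i → IsTrunc₄ j i q →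
      HasCStarFibre q ∧ q.degreeOf 1 ≤ 4 := by
    rintro j i hi ⟨τ, hd, h0, hq⟩
    obtain ⟨y₁, hy₁⟩ := exists_y₄ j h0 (dvd_of_trunc₄ j hq)
    have hstd := isStd_trunc₄ j hi h0 hq hy₁
    refine ⟨hasCStarFibre_of_std (c := 0) (by rw [map_zero, sub_zero]; exact hstd) ?_, deg_rel₄ j hq⟩
    rw [map_zero, sub_zero]
    rintro rfl
    rw [mul_zero] at hq
    have h1 := congrArg (hom2 (X : ℂ[X]) (0 : ℂ[X])) hq
    have h2 := congrArg (hom2 (X : ℂ[X]) (1 : ℂ[X])) hq
    rw [map_zero, map_rel₄, map_add, map_mul, map_pow, hom2_X0, hom2_X1, hom2_aeval, hom2_X0,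
      aeval_X_left_apply] at h1 h2
    have h3 := rel₄_sub j (X : ℂ[X]) (X ^ i * 1 + τ) (X ^ i * 0 + τ)
    rw [← h1, ← h2, sub_zero, mul_one, mul_zero, zero_add, add_sub_cancel_right] at h3
    have h4 := (mul_eq_zero.mp h3.symm).resolve_left (pow_ne_zero i X_ne_zero)
    obtain ⟨a, b, c, hD⟩ := relD₄_one j (X : ℂ[X]) (X ^ i + τ) τ
    rw [h4] at hD
    have h5 := congrArg (eval 0) hD
    rw [coeff_zero_eq_eval_zero] at h0
    simp only [eval_zero, eval_add, eval_one, eval_mul, eval_X, eval_sub, eval_pow, h0,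
      zero_mul, sub_self, add_zero, zero_pow (by omega : i ≠ 0), zero_add] at h5
    exact zero_ne_one h5
  rcases h with h | ⟨n, l, g, hl, hld, hgn, hg0, rfl⟩ | ⟨n, l, g, hl, hld, hng, rfl⟩ |
    ⟨j, i, hi, _, hq⟩ | rfl | rfl
  · obtain ⟨h1, h2⟩ := isRepr_good h
    exact ⟨h1, deg_mono h2 (by omega)⟩
  · have hn : 1 ≤ n := by omega
    refine ⟨hasCStarFibre_of_std (c := 0) (by
      rw [map_zero, sub_zero]; exact isStd_r₁ (by omega) hn hl hld hg0) ?_, ?_⟩
    · apply ne_zero_of_eval (x := 0) (y := 0)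
      rw [map_sub, hom2_r₁, hom2_C, coe_aeval_eq_eval, ← coeff_zero_eq_eval_zero, hg0,
        zero_pow (by omega), zero_pow (by omega)]
      simp
    · rw [r₁]
      apply deg_sub
      · exact deg_mono (deg_pow (deg_lin n g) 4) (by omega)
      · exact deg_mono (deg_X0_pow l) (by omega)
  · refine ⟨hasCStarFibre_of_std (isStd_r₂ (by omega) hl hld g) ?_, ?_⟩
    · apply ne_zero_of_eval (x := 0) (y := 0)
      rw [map_sub, hom2_r₂, hom2_C, zero_pow (by omega)]
      simp
    · rw [r₂]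
      exact deg_mono (deg_mul (m := 0) (n := 4) (deg_X0_pow l)
        (deg_mono (deg_pow (deg_lin n g) 4) (by omega))) (by omega)
  · exact htrunc j i hi hq
  · refine ⟨hasCStarFibre_of_std (c := 0) (by
      rw [map_zero, sub_zero]; exact isStd_third (d := 4) (by omega)) ?_, ?_⟩
    · apply ne_zero_of_eval (x := 0) (y := 0)
      rw [map_sub, hom2_q₃, hom2_C]
      norm_num [Finset.sum_range_succ]
    · have d1 : (1 - MvPolynomial.X 0 * MvPolynomial.X 1 : P2).degreeOf 1 ≤ 1 :=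
        deg_sub (deg_mono deg_one (by omega)) (deg_mul degreeOf_X0.le degreeOf_X1.le)
      have d2 : (1 - MvPolynomial.X 0 * MvPolynomial.X 1 - MvPolynomial.X 1 : P2).degreeOf 1 ≤ 1 :=
        deg_sub d1 degreeOf_X1.le
      rw [q₃]
      apply deg_sub
      · exact deg_mono (deg_mul (m := 0) (n := 4) degreeOf_X0.le (by simpa using deg_pow d1 4))
          (by omega)
      · refine (MvPolynomial.degreeOf_sum_le 1 _ _).trans ?_
        apply Finset.sup_le
        intro i hi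
        rw [Finset.mem_range] at hi
        exact deg_mono (deg_mul (deg_pow d2 i) (deg_pow d1 (4 - 1 - i))) (by omega)
  · refine ⟨hasCStarFibre_of_std (c := 0) (by
      rw [map_zero, sub_zero]; exact isStd_qR) ?_, ?_⟩
    · apply ne_zero_of_eval (x := 0) (y := 0)
      rw [map_sub, hom2_qR, hom2_C]
      norm_num
    · have dC : ∀ c : ℕ, ((c : P2)).degreeOf 1 ≤ 0 := by
        intro c
        rw [← map_natCast MvPolynomial.C, MvPolynomial.degreeOf_C]
      have four : (4 : P2).degreeOf 1 ≤ 0 := by exact_mod_cast dC 4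
      have eight : (8 : P2).degreeOf 1 ≤ 0 := by exact_mod_cast dC 8
      have d32 : (32 : P2).degreeOf 1 ≤ 0 := by exact_mod_cast dC 32
      have dX : (MvPolynomial.X 0 : P2).degreeOf 1 ≤ 0 := degreeOf_X0.le
      have dY : (MvPolynomial.X 1 : P2).degreeOf 1 ≤ 1 := degreeOf_X1.le
      have dv : (MvPolynomial.X 0 * MvPolynomial.X 1 - 4 : P2).degreeOf 1 ≤ 1 :=
        deg_sub (deg_mono (deg_mul dX dY) (by omega)) (deg_mono four (by omega))
      have dv2 : ((MvPolynomial.X 0 * MvPolynomial.X 1 - 4 : P2) ^ 2).degreeOf 1 ≤ 2 := by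
        simpa using deg_pow dv 2
      have du : (MvPolynomial.X 0 * (MvPolynomial.X 0 * MvPolynomial.X 1 - 4) ^ 2 :
          P2).degreeOf 1 ≤ 2 := deg_mono (deg_mul dX dv2) (by omega)
      rw [qR]
      refine deg_add (deg_sub ?_ ?_) ?_
      · have := deg_pow (deg_sub (deg_mono dY (by omega)) du) 2
        exact deg_mono this (by omega)
      · exact deg_mono (deg_mul (deg_mul eight dv) (deg_add (deg_mono dY (by omega)) du))
          (by omega)
      · exact deg_mono (deg_mul d32 dv2) (by omega)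

/-- **Classification in degree at most four.** -/
theorem classification_four (p : P2) :
    (HasCStarFibre p ∧ HasYDegree 4 p) ↔ ∃ q, IsRepr₄ q ∧ Equivalent p q := by
  constructor
  · rintro ⟨hp, q, hpq, hqd⟩
    obtain ⟨hprim, c, φ, hs, hker⟩ := hpq.symm.hasCStarFibre hp
    have hmem : φ (q - MvPolynomial.C c) = 0 := by
      have : q - MvPolynomial.C c ∈ RingHom.ker φ := by
        rw [hker]
        exact Ideal.le_radical (Ideal.mem_span_singleton_self _)
      exact this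
    have hne : q - MvPolynomial.C c ≠ 0 := by
      intro h0
      have h1 : q = aeval (MvPolynomial.C c : P2) (X ^ 2 + Polynomial.C (c - c ^ 2)) := by
        rw [sub_eq_zero] at h0
        rw [h0, map_add, map_pow, aeval_X, aeval_C, MvPolynomial.algebraMap_eq, ← map_pow,
          ← map_add]
        congr 1; ring
      have h2 := hprim _ _ h1
      rw [natDegree_add_C, natDegree_X_pow] at h2
      omega
    have hdeg : (q - MvPolynomial.C c).degreeOf 1 ≤ 4 :=
      deg_sub hqd (by rw [MvPolynomial.degreeOf_C]; omega)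
    obtain ⟨F, k, hF, hk, hx⟩ := degree_bound hs hne hmem hdeg
    obtain ⟨β, r, e, hr, h1⟩ := cls₄_degree hs hF hk hx
    obtain ⟨a, ha, hqa⟩ := eq_of_primitive hprim hker h1
    refine ⟨r, hr, hpq.trans ⟨β, a, c - a * e, ha, ?_⟩⟩
    rw [hqa, map_sub, equiv_C, map_sub, map_mul]
    ring
  · rintro ⟨q, hq, hpq⟩
    obtain ⟨h1, h2⟩ := isRepr₄_good hq
    exact ⟨hpq.hasCStarFibre h1, q, hpq, h2⟩

end Pool.Agent.Helper34_CStar
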