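import Pool.Agent.Helper34_CStar.Ineq2
import Pool.Agent.Helper34_CStar.MainPrime

/-!
# The representatives are pairwise inequivalent
-/

namespace Pool.Agent.Helper34_CStar

open Polynomial LaurentPolynomial

theorem equiv_C (e : P2 ≃ₐ[ℂ] P2) (x : ℂ) : e (MvPolynomial.C x) = MvPolynomial.C x := by
  rw [← MvPolynomial.algebraMap_eq]; exact e.commutes x

theorem C_inv_mul {a : ℂ} (ha : a ≠ 0) : (MvPolynomial.C a⁻¹ : P2) * MvPolynomial.C a = 1 := by
  rw [← map_mul, inv_mul_cancel₀ ha, map_one]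

theorem Equivalent.symm {p q : P2} (h : Equivalent p q) : Equivalent q p := by
  obtain ⟨α, a, b, ha, hpq⟩ := h
  refine ⟨α.symm, a⁻¹, -(a⁻¹ * b), inv_ne_zero ha, ?_⟩
  apply α.injective
  rw [map_add, map_mul, AlgEquiv.apply_symm_apply, equiv_C, equiv_C, hpq, map_neg, map_mul]
  linear_combination (-(α q)) * C_inv_mul ha

theorem Equivalent.trans {p q r : P2} (h : Equivalent p q) (h' : Equivalent q r) :
    Equivalent p r := by
  obtain ⟨α, a, b, ha, hpq⟩ := h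
  obtain ⟨β, c, d, hc, hqr⟩ := h'
  refine ⟨β.trans α, a * c, a * d + b, mul_ne_zero ha hc, ?_⟩
  rw [hpq, hqr, map_add, map_mul, equiv_C, equiv_C, AlgEquiv.trans_apply]
  simp only [map_add, map_mul]
  ring

theorem Equivalent.refl (p : P2) : Equivalent p p :=
  ⟨AlgEquiv.refl, 1, 0, one_ne_zero, by simp⟩

/-- transport of a parametrized fibre along an equivalence -/
theorem Equivalent.fibre {q q' : P2} (h : Equivalent q q') {c : ℂ}
    {ψ : P2 →ₐ[ℂ] ℂ[T;T⁻¹]} (hψ : Function.Surjective ψ)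
    (hker : ∀ r, ψ r = 0 ↔ q - MvPolynomial.C c ∣ r) :
    ∃ (α : P2 ≃ₐ[ℂ] P2) (c' : ℂ), Function.Surjective (ψ.comp (α : P2 →ₐ[ℂ] P2)) ∧
      ∀ r, (ψ.comp (α : P2 →ₐ[ℂ] P2)) r = 0 ↔ q' - MvPolynomial.C c' ∣ r := by
  obtain ⟨α, a, b, ha, hpq⟩ := h
  refine ⟨α, a⁻¹ * (c - b), ?_, ?_⟩
  · rw [AlgHom.coe_comp]; exact hψ.comp α.surjective
  · intro r
    have h1 : (ψ.comp (α : P2 →ₐ[ℂ] P2)) r = ψ (α r) := rfl
    have h2 : q - MvPolynomial.C c =
        MvPolynomial.C a * (α (q' - MvPolynomial.C (a⁻¹ * (c - b)))) := by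
      rw [map_sub, equiv_C, hpq, map_mul, map_sub]
      linear_combination (MvPolynomial.C c - MvPolynomial.C b : P2) * C_inv_mul ha
    have h4 : IsUnit (MvPolynomial.C a : P2) := (isUnit_iff_ne_zero.mpr ha).map MvPolynomial.C
    rw [h1, hker, h2, h4.mul_left_dvd, map_dvd_iff α]

theorem Ends.comp {φ : P2 →ₐ[ℂ] ℂ[T;T⁻¹]} {a b : ℕ} (h : Ends φ a b) (α : P2 ≃ₐ[ℂ] P2) :
    Ends (φ.comp (α : P2 →ₐ[ℂ] P2)) a b := by
  have := h.transport α.symm
  exact this

/-- if `X 1` divides `q`, the fibre over zero is not a punctured line -/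
theorem q₁_fibre_ne_zero {d : ℕ} (hd : 2 ≤ d) {g : ℂ[X]} (hg0 : g.coeff 0 = 0) {c : ℂ}
    {φ : P2 →ₐ[ℂ] ℂ[T;T⁻¹]} (hker : ∀ r, φ r = 0 ↔ q₁ d g - MvPolynomial.C c ∣ r) : c ≠ 0 := by
  rintro rfl
  rw [map_zero] at hker
  simp only [sub_zero] at hker
  obtain ⟨g₁, hg₁⟩ := X_dvd_iff.mpr hg0
  set r : P2 := MvPolynomial.X 0 * MvPolynomial.X 1 ^ (d - 1) - aeval (MvPolynomial.X 1 : P2) g₁
    with hr
  have hfac : q₁ d g = MvPolynomial.X 1 * r := by
    rw [q₁, hr, hg₁, map_mul, aeval_X]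
    have : (MvPolynomial.X 1 : P2) ^ d = MvPolynomial.X 1 * MvPolynomial.X 1 ^ (d - 1) := by
      rw [← pow_succ']; congr 1; omega
    rw [this]; ring
  have hx : (MvPolynomial.X 1 : P2) ≠ 0 := MvPolynomial.X_ne_zero 1
  have hrz : hom2 (g₁.eval 1) (1 : ℂ) r = 0 := by
    rw [hr, map_sub, map_mul, map_pow, hom2_X0, hom2_X1, hom2_aeval, hom2_X1, one_pow, mul_one,
      coe_aeval_eq_eval, sub_self]
  have hr0 : r ≠ 0 := by
    intro h0
    have h1 := congrArg (hom2 (g₁.eval 1 + 1) (1 : ℂ)) h0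
    rw [hr, map_sub, map_mul, map_pow, hom2_X0, hom2_X1, hom2_aeval, hom2_X1, one_pow, mul_one,
      coe_aeval_eq_eval, map_zero] at h1
    simp at h1
  have h1 : φ (MvPolynomial.X 1) * φ r = 0 := by
    rw [← map_mul, ← hfac]; exact (hker _).mpr dvd_rfl
  rcases mul_eq_zero.mp h1 with h | h
  · rw [hker, hfac] at h
    obtain ⟨s, hs⟩ := h
    have h2 : r * s = 1 := by
      apply mul_left_cancel₀ hx
      rw [← mul_assoc, ← hs, mul_one]
    have h3 := congrArg (hom2 (g₁.eval 1) (1 : ℂ)) h2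
    rw [map_mul, hrz, zero_mul, map_one] at h3
    exact zero_ne_one h3
  · rw [hker, hfac] at h
    obtain ⟨s, hs⟩ := h
    have h2 : (MvPolynomial.X 1 : P2) * s = 1 := by
      apply mul_left_cancel₀ hr0
      rw [mul_one]
      calc r * (MvPolynomial.X 1 * s) = MvPolynomial.X 1 * r * s := by ring
        _ = r := hs.symm
    have h3 := congrArg (hom2 (0 : ℂ) (0 : ℂ)) h2
    rw [map_mul, hom2_X1, zero_mul, map_one] at h3
    exact zero_ne_one h3

/-- every parametrized fibre of `q₁ d g` -/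
theorem ends_q₁ {d : ℕ} (hd : 2 ≤ d) {g : ℂ[X]} (hgd : g.natDegree = d - 1)
    (hg0 : g.coeff 0 = 0) {c : ℂ} {φ : P2 →ₐ[ℂ] ℂ[T;T⁻¹]} (hφ : Function.Surjective φ)
    (hker : ∀ r, φ r = 0 ↔ q₁ d g - MvPolynomial.C c ∣ r) : Ends φ d 1 ∨ Ends φ 1 d := by
  have hc := q₁_fibre_ne_zero hd hg0 hker
  have hstd := isStd_first (d := d) (by omega) hg0 hc
  exact Ends.of_ker hstd.surjective hφ
    (fun r => (hstd.mem_ker_iff r).trans (hker r).symm) (ends_first hd hgd hc hg0)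

theorem not_surjective_of_const {φ : P2 →ₐ[ℂ] ℂ[T;T⁻¹]} {b : ℂ}
    (h : φ (MvPolynomial.X 1) = LaurentPolynomial.C b) : ¬ Function.Surjective φ := by
  intro hφ
  set x := φ (MvPolynomial.X 0) with hx
  have h1 : ∀ r, ∃ z : ℂ[X], aeval x z = φ r := by
    intro r
    refine ⟨hom2 X (Polynomial.C b) r, ?_⟩
    have : (aeval x : ℂ[X] →ₐ[ℂ] ℂ[T;T⁻¹]).comp (hom2 X (Polynomial.C b)) = φ := by
      apply hom2_ext
      · rw [AlgHom.comp_apply, hom2_X0, aeval_X]
      · rw [AlgHom.comp_apply, hom2_X1, aeval_C, h, LaurentPolynomial.C_eq_algebraMap]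
    exact congrArg (fun ψ : P2 →ₐ[ℂ] ℂ[T;T⁻¹] => ψ r) this
  obtain ⟨r, hr⟩ := hφ (T 1)
  obtain ⟨s, hs⟩ := hφ (T (-1))
  obtain ⟨z, hz⟩ := h1 r
  obtain ⟨w, hw⟩ := h1 s
  rw [hr] at hz
  rw [hs] at hw
  have hev : ∀ (u : ℂˣ) (g : ℂ[X]), lev u (aeval x g) = g.eval (lev u x) := by
    intro u g
    have h2 := aeval_algHom_apply (levA u) x g
    rw [levA_apply, levA_apply, coe_aeval_eq_eval] at h2
    exact h2.symm
  have h2 : ∀ u : ℂˣ, z.eval (lev u x) = u := by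
    intro u
    rw [← hev, hz, lev_T, zpow_one]
  have h3 : ∀ u : ℂˣ, (z * w - 1).eval (lev u x) = 0 := by
    intro u
    rw [← hev, map_sub, map_mul, hz, hw, T_mul_T_neg, map_one, sub_self, map_zero]
  have hinj : Function.Injective (fun u : ℂˣ => lev u x) := by
    intro u v huv
    have h4 : lev u x = lev v x := huv
    apply Units.ext
    rw [← h2 u, ← h2 v, h4]
  by_cases h0 : z * w - 1 = 0
  · have hu : IsUnit z := IsUnit.of_mul_eq_one w (sub_eq_zero.mp h0)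
    obtain ⟨a, _, rfl⟩ := Polynomial.isUnit_iff.mp hu
    have h4 := h2 1
    have h5 := h2 (Units.mk0 2 two_ne_zero)
    rw [eval_C] at h4 h5
    rw [h4] at h5
    norm_num at h5
  · have hfin : (Set.range (fun u : ℂˣ => lev u x)).Finite := by
      apply Set.Finite.subset (z * w - 1).roots.toFinset.finite_toSet
      rintro _ ⟨u, rfl⟩
      rw [Finset.mem_coe, Multiset.mem_toFinset, mem_roots h0]
      exact h3 u
    have hinf : Infinite ℂˣ := by
      apply Infinite.of_injective (fun n : ℕ => Units.mk0 ((n : ℂ) + 1)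
        (by exact_mod_cast Nat.succ_ne_zero n))
      intro a b hab
      have := congrArg Units.val hab
      simpa using this
    exact Set.infinite_range_of_injective hinj hfin

/-- every parametrized fibre of `q₂ d` -/
theorem q₂_fibre_eq_zero {d : ℕ} (hd : 3 ≤ d) {c : ℂ} {φ : P2 →ₐ[ℂ] ℂ[T;T⁻¹]}
    (hφ : Function.Surjective φ) (hker : ∀ r, φ r = 0 ↔ q₂ d - MvPolynomial.C c ∣ r) : c = 0 := by
  by_contra hc
  have h1 : φ (q₂ d - MvPolynomial.C c) = 0 := (hker _).mpr dvd_rfl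
  rw [eq_hom2 φ, map_sub, hom2_q₂, hom2_C, ← LaurentPolynomial.C_eq_algebraMap, sub_eq_zero] at h1
  obtain ⟨_, b, hb⟩ := davenport hd hc h1
  exact not_surjective_of_const hb hφ

theorem ends_q₂ {d : ℕ} (hd : 3 ≤ d) {c : ℂ} {φ : P2 →ₐ[ℂ] ℂ[T;T⁻¹]}
    (hφ : Function.Surjective φ) (hker : ∀ r, φ r = 0 ↔ q₂ d - MvPolynomial.C c ∣ r) :
    Ends φ d d := by
  have hc := q₂_fibre_eq_zero hd hφ hker
  subst hc
  rw [map_zero] at hker
  simp only [sub_zero] at hker
  have hstd := isStd_second (d := d) (by omega)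
  rcases Ends.of_ker hstd.surjective hφ
    (fun r => (hstd.mem_ker_iff r).trans (hker r).symm) (ends_second (by omega)) with h | h
  · exact h
  · exact h

theorem not_equivalent_q₂_q₁ {d d' : ℕ} (hd : 2 ≤ d) (hd' : 2 ≤ d') {g : ℂ[X]}
    (hgd : g.natDegree = d' - 1) (hg0 : g.coeff 0 = 0) : ¬ Equivalent (q₂ d) (q₁ d' g) := by
  intro h
  have hstd := isStd_second (d := d) hd
  obtain ⟨α, c', hs, hk⟩ := h.fibre (c := 0) hstd.surjective (by
    intro r; rw [map_zero, sub_zero]; exact hstd.mem_ker_iff r)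
  have h1 : Ends _ d d := (ends_second hd).comp α
  rcases ends_q₁ hd' hgd hg0 hs hk with h2 | h2
  · have := h1.unique hs h2
    omega
  · have := h1.unique hs h2
    omega

theorem not_equivalent_q₃_q₁ {d d' : ℕ} (hd : 2 ≤ d) (hd' : 2 ≤ d') {g : ℂ[X]}
    (hgd : g.natDegree = d' - 1) (hg0 : g.coeff 0 = 0) : ¬ Equivalent (q₃ d) (q₁ d' g) := by
  intro h
  have hstd := isStd_third (d := d) (by omega)
  obtain ⟨α, c', hs, hk⟩ := h.fibre (c := 0) hstd.surjective (by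
    intro r; rw [map_zero, sub_zero]; exact hstd.mem_ker_iff r)
  have h1 : Ends _ d (d + 1) := (ends_third (by omega)).comp α
  rcases ends_q₁ hd' hgd hg0 hs hk with h2 | h2
  · have := h1.unique hs h2
    omega
  · have := h1.unique hs h2
    omega

theorem not_equivalent_q₃_q₂ {d d' : ℕ} (hd : 2 ≤ d) (hd' : 3 ≤ d') :
    ¬ Equivalent (q₃ d) (q₂ d') := by
  intro h
  have hstd := isStd_third (d := d) (by omega)
  obtain ⟨α, c', hs, hk⟩ := h.fibre (c := 0) hstd.surjective (by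
    intro r; rw [map_zero, sub_zero]; exact hstd.mem_ker_iff r)
  have h1 : Ends _ d (d + 1) := (ends_third (by omega)).comp α
  have h2 := ends_q₂ hd' hs hk
  have := h1.unique hs h2
  omega

theorem eq_of_equivalent_q₂ {d d' : ℕ} (hd : 2 ≤ d) (hd' : 3 ≤ d')
    (h : Equivalent (q₂ d) (q₂ d')) : d = d' := by
  have hstd := isStd_second (d := d) hd
  obtain ⟨α, c', hs, hk⟩ := h.fibre (c := 0) hstd.surjective (by
    intro r; rw [map_zero, sub_zero]; exact hstd.mem_ker_iff r)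
  have h1 : Ends _ d d := (ends_second hd).comp α
  have h2 := ends_q₂ hd' hs hk
  exact (h1.unique hs h2).1

theorem eq_of_equivalent_q₁ {d d' : ℕ} (hd : 2 ≤ d) (hd' : 2 ≤ d') {g g' : ℂ[X]}
    (hgd : g.natDegree = d - 1) (hg0 : g.coeff 0 = 0)
    (hgd' : g'.natDegree = d' - 1) (hg0' : g'.coeff 0 = 0)
    (h : Equivalent (q₁ d g) (q₁ d' g')) : d = d' := by
  have hstd := isStd_first (d := d) (by omega) hg0 one_ne_zero
  obtain ⟨α, c', hs, hk⟩ := h.fibre (c := 1) hstd.surjective hstd.mem_ker_iff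
  have h1 : Ends _ d 1 := (ends_first hd hgd one_ne_zero hg0).comp α
  rcases ends_q₁ hd' hgd' hg0' hs hk with h2 | h2
  · exact (h1.unique hs h2).1
  · have := h1.unique hs h2
    omega

end Pool.Agent.Helper34_CStar
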