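import Pool.Agent.Helper34_CStar.NonEq

/-!
# Equivalence inside the first family
-/

namespace Pool.Agent.Helper34_CStar

open Polynomial LaurentPolynomial

theorem invert_invert (z : ℂ[T;T⁻¹]) : (invert (invert z) : ℂ[T;T⁻¹]) = z := involutive_invert z

/-- polynomials in `T⁻¹` are determined by their coefficients -/
theorem invert_toLaurent_injective {f g : ℂ[X]}
    (h : (invert (toLaurent f) : ℂ[T;T⁻¹]) = invert (toLaurent g)) : f = g := by
  apply toLaurent_injective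
  rw [← invert_invert (toLaurent f), h, invert_invert]

theorem T_neg_one_eq : (T (-1) : ℂ[T;T⁻¹]) = invert (toLaurent X) := by simp

/-- the first coordinate of the standard embedding as a polynomial -/
theorem first_coord {d : ℕ} (hd : 2 ≤ d) {h : ℂ[X]} (hhd : h.natDegree = d - 1) :
    T (d : ℤ) * invert (toLaurent h) = toLaurent (X * h.reverse) := by
  rw [map_mul, toLaurent_X, toLaurent_reverse, hhd]
  have : (T 1 : ℂ[T;T⁻¹]) * T ((d - 1 : ℕ) : ℤ) = T (d : ℤ) := by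
    rw [← T_add]; congr 1; omega
  linear_combination (-(invert (toLaurent h) : ℂ[T;T⁻¹])) * this

theorem sc_inj {s : ℂ} (hs0 : s ≠ 0) {z w : ℂ[T;T⁻¹]}
    (hzw : lev (sc s hs0) z = lev (sc s hs0) w) : z = w := by
  apply sub_eq_zero.mp
  apply sc_injective s hs0
  rw [map_sub, hzw, sub_self]

theorem lev_sc_C (s : ℂ) (hs0 : s ≠ 0) (c : ℂ) :
    lev (sc s hs0) (LaurentPolynomial.C c) = LaurentPolynomial.C c := by
  rw [lev_C, LaurentPolynomial.C_eq_algebraMap]

theorem equivalent_q₁_imp {d : ℕ} (hd : 2 ≤ d) {g g' : ℂ[X]}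
    (hg : g.Monic) (hgd : g.natDegree = d - 1) (hg0 : g.coeff 0 = 0)
    (hg' : g'.Monic) (hgd' : g'.natDegree = d - 1) (hg0' : g'.coeff 0 = 0)
    (h : Equivalent (q₁ d g) (q₁ d g')) :
    ∃ l : ℂ, l ≠ 0 ∧ Polynomial.C (l ^ (d - 1)) * g' = g.comp (Polynomial.C l * X) := by
  have hstd := isStd_first (d := d) (by omega) hg0 one_ne_zero
  obtain ⟨ψ, hψ⟩ : ∃ ψ, ψ = hom2 (T (d : ℤ) * invert (toLaurent (Polynomial.C 1 + g)) :
    ℂ[T;T⁻¹]) (T (-1)) := ⟨_, rfl⟩
  have hψs : Function.Surjective ψ := by rw [hψ]; exact hstd.surjective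
  obtain ⟨α, c', hs, hk⟩ := h.fibre (c := 1) hψs (by rw [hψ]; exact hstd.mem_ker_iff)
  have hc' := q₁_fibre_ne_zero hd hg0' hk
  have hstd' := isStd_first (d := d) (by omega) hg0' hc'
  obtain ⟨ψ', hψ'⟩ : ∃ ψ', ψ' = hom2 (T (d : ℤ) * invert (toLaurent (Polynomial.C c' + g')) :
    ℂ[T;T⁻¹]) (T (-1)) := ⟨_, rfl⟩
  have hψs' : Function.Surjective ψ' := by rw [hψ']; exact hstd'.surjective
  have hE : Ends (ψ.comp (α : P2 →ₐ[ℂ] P2)) d 1 := by
    rw [hψ]; exact (ends_first hd hgd one_ne_zero hg0).comp α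
  have hE' : Ends ψ' d 1 := by rw [hψ']; exact ends_first hd hgd' hc' hg0'
  obtain ⟨s, hs0, hcase⟩ := same_ker hs hψs'
    (fun r => (hk r).trans (by rw [hψ']; exact (hstd'.mem_ker_iff r).symm))
  have hcomp : ∀ r, (ψ.comp (α : P2 →ₐ[ℂ] P2)) r = ψ (α r) := fun r => rfl
  have hhd : (Polynomial.C 1 + g).natDegree = d - 1 := by rw [add_comm, natDegree_add_C, hgd]
  have hhd' : (Polynomial.C c' + g').natDegree = d - 1 := by rw [add_comm, natDegree_add_C, hgd']
  rcases hcase with h1 | h1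
  · -- orientation preserving
    have hX1 := h1 (MvPolynomial.X 1)
    have hX0 := h1 (MvPolynomial.X 0)
    rw [hcomp] at hX0 hX1
    have hψ'0 : ψ' (MvPolynomial.X 0) = T (d : ℤ) * invert (toLaurent (Polynomial.C c' + g')) := by
      rw [hψ', hom2_X0]
    have hψ'1 : ψ' (MvPolynomial.X 1) = T (-1) := by rw [hψ', hom2_X1]
    have hψ0 : ψ (MvPolynomial.X 0) = T (d : ℤ) * invert (toLaurent (Polynomial.C 1 + g)) := by
      rw [hψ, hom2_X0]
    -- the image of the first coordinate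
    obtain ⟨F, hF⟩ : ∃ F : ℂ[X], ψ (α (MvPolynomial.X 0)) = toLaurent F := by
      refine ⟨(X * (Polynomial.C c' + g').reverse).comp (Polynomial.C s⁻¹ * X), ?_⟩
      apply sc_inj hs0
      rw [← hX0, hψ'0, first_coord hd hhd', lev_sc_toLaurent, comp_assoc]
      have : (Polynomial.C s⁻¹ * X : ℂ[X]).comp (Polynomial.C s * X) = X := by
        rw [mul_comp, C_comp, X_comp, ← mul_assoc, ← C_mul, inv_mul_cancel₀ hs0, C_1, one_mul]
      rw [this, comp_X]
    obtain ⟨a, b, ha, hab⟩ := coord_unique (φ := ψ) hψs AlgEquiv.refl α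
      (f := X * (Polynomial.C 1 + g).reverse) (f' := F) (by
        rw [← first_coord hd hhd]; exact hψ0) hF
    have hab' : α (MvPolynomial.X 0) = MvPolynomial.C a * MvPolynomial.X 0 + MvPolynomial.C b :=
      hab
    rw [hab', map_add, map_mul, ← MvPolynomial.algebraMap_eq, AlgHom.commutes, AlgHom.commutes,
      ← LaurentPolynomial.C_eq_algebraMap, ← LaurentPolynomial.C_eq_algebraMap, map_add, map_mul,
      lev_sc_C, lev_sc_C, hψ'0, hψ0, map_mul, lev_sc_invert, lev_sc_nat] at hX0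
    -- compare in the form of polynomials in the inverse
    have h3 : (invert (toLaurent (Polynomial.C c' + g')) : ℂ[T;T⁻¹]) =
        invert (toLaurent (Polynomial.C (a * s ^ d) *
          (Polynomial.C 1 + g).comp (Polynomial.C s⁻¹ * X) + Polynomial.C b * X ^ d)) := by
      obtain ⟨G₁, hG₁⟩ : ∃ G₁, G₁ = (Polynomial.C 1 + g).comp (Polynomial.C s⁻¹ * X) := ⟨_, rfl⟩
      obtain ⟨G₂, hG₂⟩ : ∃ G₂, G₂ = Polynomial.C c' + g' := ⟨_, rfl⟩
      rw [← hG₁, ← hG₂] at hX0 ⊢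
      have h5 : (T (-(d : ℤ)) : ℂ[T;T⁻¹]) * T (d : ℤ) = 1 := by rw [← T_add]; simp
      have h6 : (invert (toLaurent (Polynomial.C (a * s ^ d) * G₁ + Polynomial.C b * X ^ d)) :
          ℂ[T;T⁻¹]) = LaurentPolynomial.C a * LaurentPolynomial.C (s ^ d) *
            invert (toLaurent G₁) + LaurentPolynomial.C b * T (-(d : ℤ)) := by
        simp only [map_add, map_mul, toLaurent_C, invert_C, toLaurent_X_pow, invert_T]
      rw [h6]
      obtain ⟨I₁, hI₁⟩ : ∃ I : ℂ[T;T⁻¹], I = invert (toLaurent G₁) := ⟨_, rfl⟩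
      obtain ⟨I₂, hI₂⟩ : ∃ I : ℂ[T;T⁻¹], I = invert (toLaurent G₂) := ⟨_, rfl⟩
      rw [← hI₁, ← hI₂] at hX0 ⊢
      linear_combination T (-(d : ℤ)) * hX0 - I₂ * h5 +
        LaurentPolynomial.C a * LaurentPolynomial.C (s ^ d) * I₁ * h5
    have h4 := invert_toLaurent_injective h3
    have hb : b = 0 := by
      have h5 := congrArg (fun q : ℂ[X] => q.coeff d) h4
      simp only [coeff_add, coeff_C_mul, coeff_X_pow, if_true, mul_one] at h5
      rw [coeff_C_of_ne_zero (by omega), coeff_eq_zero_of_natDegree_lt (by omega : g'.natDegree < d),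
        coeff_eq_zero_of_natDegree_lt] at h5
      · simpa using h5.symm
      · rw [natDegree_comp_scale _ (inv_ne_zero hs0), add_comm, natDegree_add_C]; omega
    subst hb
    rw [map_zero, zero_mul, add_zero] at h4
    have hlead : a * s = 1 := by
      have h5 := congrArg (fun q : ℂ[X] => q.coeff (d - 1)) h4
      have h6 : g'.coeff (d - 1) = 1 := by rw [← hgd']; exact hg'
      have h7 : g.coeff (d - 1) = 1 := by rw [← hgd]; exact hg
      simp only [coeff_add, coeff_C_mul, comp_C_mul_X_coeff] at h5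
      rw [coeff_C_of_ne_zero (by omega), coeff_C_of_ne_zero (by omega), h6, h7] at h5
      have h8 : s ^ d = s * s ^ (d - 1) := by rw [← pow_succ']; congr 1; omega
      have h9 : s ^ (d - 1) * s⁻¹ ^ (d - 1) = 1 := by
        rw [← mul_pow, mul_inv_cancel₀ hs0, one_pow]
      rw [h8] at h5
      linear_combination (-1) * h5 - (a * s) * h9
    refine ⟨s⁻¹, inv_ne_zero hs0, ?_⟩
    have h8 : s ^ d = s * s ^ (d - 1) := by rw [← pow_succ']; congr 1; omega
    have h9 : s⁻¹ ^ (d - 1) * s ^ (d - 1) = 1 := by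
      rw [← mul_pow, inv_mul_cancel₀ hs0, one_pow]
    have hk0 : a * s ^ d = s ^ (d - 1) := by rw [h8, ← mul_assoc, hlead, one_mul]
    rw [hk0, add_comp, C_comp] at h4
    have hcc : c' = s ^ (d - 1) := by
      have h5 := congrArg (fun q : ℂ[X] => q.coeff 0) h4
      simp only [coeff_add, coeff_C_mul, comp_C_mul_X_coeff, hg0, hg0', coeff_C_zero] at h5
      linear_combination h5
    rw [hcc] at h4
    have h10 : Polynomial.C (s⁻¹ ^ (d - 1)) * Polynomial.C (s ^ (d - 1)) = (1 : ℂ[X]) := by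
      rw [← C_mul, h9, C_1]
    rw [C_1] at h4
    linear_combination Polynomial.C (s⁻¹ ^ (d - 1)) * h4 +
      g.comp (Polynomial.C s⁻¹ * X) * h10
  · exfalso
    have h2 := hE.swap s hs0 h1
    have h3 := h2.unique hψs' hE'
    omega

theorem equivalent_q₁_of {d : ℕ} (hd : 2 ≤ d) {g g' : ℂ[X]} {l : ℂ} (hl : l ≠ 0)
    (h : Polynomial.C (l ^ (d - 1)) * g' = g.comp (Polynomial.C l * X)) :
    Equivalent (q₁ d g) (q₁ d g') := by
  refine ⟨tri l 0 l⁻¹ hl (inv_ne_zero hl) 0, l ^ (d - 1), 0, pow_ne_zero _ hl, ?_⟩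
  have h0 : tri l 0 l⁻¹ hl (inv_ne_zero hl) 0 (MvPolynomial.X 0) =
      (MvPolynomial.C l * MvPolynomial.X 0 : P2) := by
    have := tri_X0 l 0 l⁻¹ hl (inv_ne_zero hl) 0 (AlgHom.id ℂ P2)
    simpa [MvPolynomial.algebraMap_eq] using this
  have h1 : tri l 0 l⁻¹ hl (inv_ne_zero hl) 0 (MvPolynomial.X 1) =
      (MvPolynomial.C l⁻¹ * MvPolynomial.X 1 : P2) := by
    have := tri_X1 l 0 l⁻¹ hl (inv_ne_zero hl) 0 (AlgHom.id ℂ P2)
    simpa [MvPolynomial.algebraMap_eq] using this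
  have h2 : (tri l 0 l⁻¹ hl (inv_ne_zero hl) 0) (aeval (MvPolynomial.X 1 : P2) g') =
      aeval (MvPolynomial.C l⁻¹ * MvPolynomial.X 1 : P2) g' := by
    have h3 := aeval_algHom_apply ((tri l 0 l⁻¹ hl (inv_ne_zero hl) 0 : P2 ≃ₐ[ℂ] P2) :
      P2 →ₐ[ℂ] P2) (MvPolynomial.X 1 : P2) g'
    have h4 : ((tri l 0 l⁻¹ hl (inv_ne_zero hl) 0 : P2 ≃ₐ[ℂ] P2) : P2 →ₐ[ℂ] P2)
      (MvPolynomial.X 1) = MvPolynomial.C l⁻¹ * MvPolynomial.X 1 := h1
    rw [h4] at h3
    exact h3.symm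
  have h3 : MvPolynomial.C (l ^ (d - 1)) * aeval (MvPolynomial.C l⁻¹ * MvPolynomial.X 1 : P2) g' =
      aeval (MvPolynomial.X 1 : P2) g := by
    have h4 := congrArg (aeval (MvPolynomial.C l⁻¹ * MvPolynomial.X 1 : P2)) h
    rw [map_mul, aeval_C, aeval_comp, map_mul, aeval_C, aeval_X, MvPolynomial.algebraMap_eq,
      ← mul_assoc, ← map_mul, mul_inv_cancel₀ hl, map_one, one_mul] at h4
    exact h4
  have h5 : (MvPolynomial.C (l ^ (d - 1)) * MvPolynomial.C l * MvPolynomial.C l⁻¹ ^ d : P2) = 1 := by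
    rw [← map_pow, ← map_mul, ← map_mul]
    have : l ^ (d - 1) * l * l⁻¹ ^ d = 1 := by
      rw [← pow_succ, Nat.sub_add_cancel (by omega), ← mul_pow, mul_inv_cancel₀ hl, one_pow]
    rw [this, map_one]
  have h6 : (tri l 0 l⁻¹ hl (inv_ne_zero hl) 0) (q₁ d g') =
      MvPolynomial.C l * MvPolynomial.X 0 * (MvPolynomial.C l⁻¹ * MvPolynomial.X 1) ^ d -
        aeval (MvPolynomial.C l⁻¹ * MvPolynomial.X 1 : P2) g' := by
    rw [q₁, map_sub, map_mul, map_pow, h0, h1, h2]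
  rw [h6, q₁, map_zero, add_zero, mul_sub, h3]
  linear_combination (-(MvPolynomial.X 0 * MvPolynomial.X 1 ^ d : P2)) * h5

end Pool.Agent.Helper34_CStar
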