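import Pool.Agent.Helper34_CStar.Distinct

/-!
# The standard embeddings have at most one characteristic pair at infinity
-/

namespace Pool.Agent.Helper34_CStar

open Polynomial LaurentPolynomial

theorem OnePair.of_repr {d : ℕ} {φ : P2 →ₐ[ℂ] ℂ[T;T⁻¹]} {u v : P2}
    (h : ∀ A P : ℂ[X], ∃ (G : ℂ[X]) (s : ℕ),
      φ (aeval u A * v - aeval u P) * T (s : ℤ) = toLaurent G ∧
      (s ≤ G.natDegree → d ∣ G.natDegree - s ∨ Nat.Coprime d (G.natDegree - s))) :
    OnePair d φ u v := by
  intro A P F k hF hk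
  obtain ⟨G, s, hG, hs⟩ := h A P
  have h1 : F * X ^ s = G * X ^ k := by
    apply toLaurent_injective
    rw [map_mul, map_mul, ← hF, ← hG, toLaurent_X_pow, toLaurent_X_pow]
    ring
  by_cases hF0 : F = 0
  · left
    have h2 : F.natDegree - k = 0 := by rw [hF0, natDegree_zero]; omega
    rw [h2]; exact dvd_zero _
  · have hG0 : G ≠ 0 := by
      rintro rfl
      rw [zero_mul] at h1
      exact hF0 ((mul_eq_zero.mp h1).resolve_right (pow_ne_zero _ X_ne_zero))
    have h2 := congrArg natDegree h1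
    rw [natDegree_mul_X_pow _ hF0, natDegree_mul_X_pow _ hG0] at h2
    have h3 : F.natDegree - k = G.natDegree - s := by omega
    rw [h3]
    exact hs (by omega)

theorem natDegree_add_cases (U V : ℂ[X]) (h : U ≠ 0 → V ≠ 0 → U.natDegree ≠ V.natDegree) :
    (U + V).natDegree = 0 ∨ (U ≠ 0 ∧ (U + V).natDegree = U.natDegree) ∨
      (V ≠ 0 ∧ (U + V).natDegree = V.natDegree) := by
  by_cases hU : U = 0
  · by_cases hV : V = 0
    · left; rw [hU, hV]; simp
    · right; right; exact ⟨hV, by rw [hU, zero_add]⟩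
  · by_cases hV : V = 0
    · right; left; exact ⟨hU, by rw [hV, add_zero]⟩
    · rcases lt_or_gt_of_ne (h hU hV) with h1 | h1
      · right; right; exact ⟨hV, natDegree_add_eq_right_of_natDegree_lt h1⟩
      · right; left; exact ⟨hU, natDegree_add_eq_left_of_natDegree_lt h1⟩

theorem natDegree_comp_pos {A f : ℂ[X]} : (A.comp f).natDegree = A.natDegree * f.natDegree :=
  natDegree_comp

theorem phi_aeval {φ : P2 →ₐ[ℂ] ℂ[T;T⁻¹]} {u : P2} {f : ℂ[X]} (hu : φ u = toLaurent f) (A : ℂ[X]) :
    φ (aeval u A) = toLaurent (A.comp f) := by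
  rw [← aeval_algHom_apply, hu, aeval_toLaurent]

theorem coprime_mul_sub_one {d m : ℕ} (h : 1 ≤ m * d) : Nat.Coprime d (m * d - 1) := by
  have h1 : Nat.gcd d (m * d - 1) ∣ 1 := by
    have h2 : Nat.gcd d (m * d - 1) ∣ m * d := (Nat.gcd_dvd_left _ _).trans (Dvd.intro_left _ rfl)
    have h3 := Nat.dvd_sub h2 (Nat.gcd_dvd_right d (m * d - 1))
    have h4 : m * d - (m * d - 1) = 1 := by omega
    rwa [h4] at h3
  exact Nat.dvd_one.mp h1

theorem coprime_mul_add_one (d m : ℕ) : Nat.Coprime d (m * d + 1) := by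
  simp

theorem mod_ne {d a b : ℕ} (hd : 2 ≤ d) (h : a * d = b * d + 1) : False := by
  have h2 : d ∣ b * d + 1 := by rw [← h]; exact Dvd.intro_left _ rfl
  have h3 : d ∣ 1 := (Nat.dvd_add_right (Dvd.intro_left _ rfl)).mp h2
  have h4 : d = 1 := Nat.dvd_one.mp h3
  omega

theorem onePair_first {d : ℕ} (hd : 2 ≤ d) {φ : P2 →ₐ[ℂ] ℂ[T;T⁻¹]} {u v : P2} {f : ℂ[X]}
    (hu : φ u = toLaurent f) (hfd : f.natDegree = d) (hv : φ v = T (-1)) : OnePair d φ u v := by
  apply OnePair.of_repr
  intro A P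
  refine ⟨A.comp f + -(X * P.comp f), 1, ?_, ?_⟩
  · have h1 : (T (-1) : ℂ[T;T⁻¹]) * T 1 = 1 := by rw [← T_add]; simp
    rw [map_sub, map_mul, phi_aeval hu, phi_aeval hu, hv, map_add, map_neg, map_mul, toLaurent_X,
      Nat.cast_one]
    linear_combination toLaurent (A.comp f) * h1
  · intro hs
    have hV : (-(X * P.comp f)) ≠ 0 → (-(X * P.comp f)).natDegree = P.natDegree * d + 1 := by
      intro h1
      have h2 : P.comp f ≠ 0 := by
        intro h3; apply h1; rw [h3]; simp
      rw [natDegree_neg, natDegree_X_mul h2, natDegree_comp, hfd]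
    rcases natDegree_add_cases (A.comp f) (-(X * P.comp f)) (by
      intro hU' hV'
      rw [hV hV', natDegree_comp, hfd]
      exact fun h1 => mod_ne hd h1) with h | ⟨h0, h⟩ | ⟨h0, h⟩
    · omega
    · rw [h, natDegree_comp, hfd] at hs ⊢
      right
      exact coprime_mul_sub_one hs
    · rw [h, hV h0]
      left
      rw [Nat.add_sub_cancel]
      exact Dvd.intro_left _ rfl

theorem onePair_second {d : ℕ} (hd : 2 ≤ d) {φ : P2 →ₐ[ℂ] ℂ[T;T⁻¹]} {u v : P2}
    (hu : φ u = toLaurent (X ^ d - X)) (hv : φ v = T (-(d : ℤ))) : OnePair d φ u v := by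
  set f : ℂ[X] := X ^ d - X with hf
  have hfd : f.natDegree = d := by
    rw [hf, natDegree_sub_eq_left_of_natDegree_lt]
    · simp
    · simp; omega
  apply OnePair.of_repr
  intro A P
  obtain ⟨A₁, a₀, hA⟩ : ∃ (A₁ : ℂ[X]) (a₀ : ℂ), A = X * A₁ + Polynomial.C a₀ :=
    ⟨divX A, A.coeff 0, (X_mul_divX_add A).symm⟩
  refine ⟨X ^ d * (A₁ - P).comp f + (-(X * A₁.comp f) + Polynomial.C a₀), d, ?_, ?_⟩
  · have h1 : (T (-(d : ℤ)) : ℂ[T;T⁻¹]) * T (d : ℤ) = 1 := by rw [← T_add]; simp
    rw [map_sub, map_mul, phi_aeval hu, phi_aeval hu, hv, hA, add_comp, mul_comp, X_comp, C_comp,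
      sub_comp, map_add toLaurent, map_mul toLaurent, map_add toLaurent, map_add toLaurent,
      map_neg toLaurent, map_mul toLaurent, map_mul toLaurent, map_sub toLaurent,
      map_sub toLaurent, toLaurent_X_pow, toLaurent_X]
    linear_combination ((T (d : ℤ) - T 1) * toLaurent (A₁.comp f) +
      toLaurent (Polynomial.C a₀)) * h1
  · intro hs
    have hU : (X ^ d * (A₁ - P).comp f) ≠ 0 →
        (X ^ d * (A₁ - P).comp f).natDegree = (A₁ - P).natDegree * d + d := by
      intro h1
      have h2 : (A₁ - P).comp f ≠ 0 := by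
        intro h3; apply h1; rw [h3, mul_zero]
      rw [natDegree_X_pow_mul _ h2, natDegree_comp, hfd]
    have hV : (-(X * A₁.comp f) + Polynomial.C a₀).natDegree = 0 ∨
        (-(X * A₁.comp f) + Polynomial.C a₀).natDegree = A₁.natDegree * d + 1 := by
      by_cases h1 : A₁.comp f = 0
      · left; rw [h1]; simp
      · right
        rw [natDegree_add_C, natDegree_neg, natDegree_X_mul h1, natDegree_comp, hfd]
    rcases natDegree_add_cases (X ^ d * (A₁ - P).comp f) (-(X * A₁.comp f) + Polynomial.C a₀) (by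
      intro hU' _
      rw [hU hU']
      rcases hV with h1 | h1
      · rw [h1]; omega
      · rw [h1]
        intro h2
        apply mod_ne hd (a := (A₁ - P).natDegree + 1) (b := A₁.natDegree)
        rw [Nat.add_mul, one_mul]; exact h2) with h | ⟨h0, h⟩ | ⟨h0, h⟩
    · omega
    · rw [h, hU h0]
      left
      rw [Nat.add_sub_cancel]
      exact Dvd.intro_left _ rfl
    · rw [h] at hs ⊢
      rcases hV with h1 | h1
      · omega
      · rw [h1] at hs ⊢
        right
        have hpos : 1 ≤ A₁.natDegree := by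
          by_contra hcon
          have : A₁.natDegree = 0 := by omega
          rw [this] at hs
          omega
        have h2 : A₁.natDegree * d + 1 - d = (A₁.natDegree - 1) * d + 1 := by
          obtain ⟨m, hm⟩ : ∃ m, A₁.natDegree = m + 1 := ⟨A₁.natDegree - 1, by omega⟩
          rw [hm, Nat.add_sub_cancel, Nat.add_mul, one_mul]
          omega
        rw [h2]
        exact coprime_mul_add_one d _

theorem onePair_third {d : ℕ} (hd : 2 ≤ d) {φ : P2 →ₐ[ℂ] ℂ[T;T⁻¹]} {u v : P2}
    (hu : φ u = toLaurent (∑ i ∈ Finset.range d, X ^ (i + 1)))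
    (hv : φ v = T (-(d : ℤ)) - T (-((d + 1 : ℕ) : ℤ))) : OnePair d φ u v := by
  set f : ℂ[X] := ∑ i ∈ Finset.range d, X ^ (i + 1) with hf
  have hfX : f * (X - 1) = X ^ (d + 1) - X := by
    have h5 := geom_sum_mul (X : ℂ[X]) d
    calc f * (X - 1) = X * ((∑ i ∈ Finset.range d, X ^ i) * (X - 1)) := by
          rw [hf, ← mul_assoc, Finset.mul_sum]
          congr 1
          apply Finset.sum_congr rfl
          intro i _
          ring
      _ = _ := by rw [h5]; ring
  have hfd : f.natDegree = d := by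
    have h1 := congrArg natDegree hfX
    have h2 : f ≠ 0 := by
      intro h0
      rw [h0, zero_mul] at hfX
      have h3 := congrArg (fun q : ℂ[X] => q.coeff 1) hfX
      simp only [coeff_zero, coeff_sub, coeff_X_pow, coeff_X_one] at h3
      rw [if_neg (by omega)] at h3
      simp at h3
    have h3 : (X - 1 : ℂ[X]) = X - Polynomial.C 1 := by rw [C_1]
    rw [h3, natDegree_mul h2 (X_sub_C_ne_zero 1), natDegree_X_sub_C,
      natDegree_sub_eq_left_of_natDegree_lt (by simp; omega), natDegree_X_pow] at h1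
    omega
  -- the part of lower degree
  obtain ⟨S, hS⟩ : ∃ S : ℂ[X], S = ∑ i ∈ Finset.range (d - 1), X ^ (i + 2) := ⟨_, rfl⟩
  have hXf : X * f = X ^ (d + 1) + S := by
    obtain ⟨m, rfl⟩ : ∃ m, d = m + 1 := ⟨d - 1, by omega⟩
    rw [hS, hf, Finset.sum_range_succ, mul_add, Finset.mul_sum, Nat.add_sub_cancel, add_comm]
    congr 1
    · ring
    · apply Finset.sum_congr rfl
      intro i _
      ring
  have hSd : S.natDegree = d := by
    apply le_antisymm
    · rw [hS]
      apply natDegree_sum_le_of_forall_le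
      intro i hi
      rw [Finset.mem_range] at hi
      rw [natDegree_X_pow]; omega
    · apply le_natDegree_of_ne_zero
      rw [hS, finsetSum_coeff, Finset.sum_eq_single (d - 2)]
      · rw [coeff_X_pow, if_pos (by omega)]; exact one_ne_zero
      · intro b _ hb
        rw [coeff_X_pow, if_neg (by omega)]
      · intro h
        exact absurd (Finset.mem_range.mpr (by omega)) h
  have hS0 : S ≠ 0 := by rintro h0; rw [h0, natDegree_zero] at hSd; omega
  apply OnePair.of_repr
  intro A P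
  obtain ⟨A₁, a₀, hA⟩ : ∃ (A₁ : ℂ[X]) (a₀ : ℂ), A = X * A₁ + Polynomial.C a₀ :=
    ⟨divX A, A.coeff 0, (X_mul_divX_add A).symm⟩
  obtain ⟨A₂, a₁, hA₁⟩ : ∃ (A₂ : ℂ[X]) (a₁ : ℂ), A₁ = X * A₂ + Polynomial.C a₁ :=
    ⟨divX A₁, A₁.coeff 0, (X_mul_divX_add A₁).symm⟩
  refine ⟨X ^ (d + 1) * (X * A₂ + Polynomial.C a₁ - A₂ - P).comp f +
    (-(S * A₂.comp f) + (Polynomial.C a₀ * (X - 1) - Polynomial.C a₁ * X)), d + 1, ?_, ?_⟩
  · have h1 : (T (-(d : ℤ)) - T (-((d + 1 : ℕ) : ℤ)) : ℂ[T;T⁻¹]) * T ((d + 1 : ℕ) : ℤ) =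
        toLaurent (X - 1) := by
      rw [sub_mul, ← T_add, ← T_add, map_sub, toLaurent_X, map_one]
      have e1 : -(d : ℤ) + ((d + 1 : ℕ) : ℤ) = 1 := by push_cast; ring
      have e2 : -((d + 1 : ℕ) : ℤ) + ((d + 1 : ℕ) : ℤ) = 0 := by ring
      rw [e1, e2, T_zero]
    have h2 : A.comp f * (X - 1) - P.comp f * X ^ (d + 1) =
        X ^ (d + 1) * (X * A₂ + Polynomial.C a₁ - A₂ - P).comp f +
        (-(S * A₂.comp f) + (Polynomial.C a₀ * (X - 1) - Polynomial.C a₁ * X)) := by
      rw [hA, hA₁]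
      simp only [add_comp, mul_comp, X_comp, C_comp, sub_comp]
      linear_combination (f * A₂.comp f + Polynomial.C a₁) * hfX - A₂.comp f * hXf
    rw [map_sub, map_mul, phi_aeval hu, phi_aeval hu, hv, ← h2, map_sub toLaurent,
      map_mul toLaurent, map_mul toLaurent, ← h1, toLaurent_X_pow]
    ring
  · intro hs
    set R := X * A₂ + Polynomial.C a₁ - A₂ - P with hR
    have hU : (X ^ (d + 1) * R.comp f) ≠ 0 →
        (X ^ (d + 1) * R.comp f).natDegree = R.natDegree * d + (d + 1) := by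
      intro h1
      have h2 : R.comp f ≠ 0 := by
        intro h3; apply h1; rw [h3, mul_zero]
      rw [natDegree_X_pow_mul _ h2, natDegree_comp, hfd]
    have hlow : (Polynomial.C a₀ * (X - 1) - Polynomial.C a₁ * X : ℂ[X]).natDegree ≤ 1 := by
      apply (natDegree_sub_le _ _).trans
      apply max_le
      · apply natDegree_C_mul_le _ _ |>.trans
        rw [← C_1, natDegree_X_sub_C]
      · apply natDegree_C_mul_le _ _ |>.trans
        rw [natDegree_X]
    have hV : (-(S * A₂.comp f) + (Polynomial.C a₀ * (X - 1) - Polynomial.C a₁ * X)).natDegree ≤ 1 ∨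
        (-(S * A₂.comp f) + (Polynomial.C a₀ * (X - 1) - Polynomial.C a₁ * X)).natDegree =
          (A₂.natDegree + 1) * d := by
      by_cases h1 : A₂.comp f = 0
      · left; rw [h1, mul_zero, neg_zero, zero_add]; exact hlow
      · right
        have h2 : (-(S * A₂.comp f)).natDegree = (A₂.natDegree + 1) * d := by
          rw [natDegree_neg, natDegree_mul hS0 h1, natDegree_comp, hfd, hSd]; ring
        rw [natDegree_add_eq_left_of_natDegree_lt, h2]
        rw [h2]
        have : 1 * d ≤ (A₂.natDegree + 1) * d := Nat.mul_le_mul_right _ (by omega)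
        omega
    rcases natDegree_add_cases (X ^ (d + 1) * R.comp f)
      (-(S * A₂.comp f) + (Polynomial.C a₀ * (X - 1) - Polynomial.C a₁ * X)) (by
      intro hU' _
      rw [hU hU']
      rcases hV with h1 | h1
      · omega
      · rw [h1]
        intro h2
        apply mod_ne hd (a := A₂.natDegree + 1) (b := R.natDegree + 1)
        rw [← h2]; ring) with h | ⟨h0, h⟩ | ⟨h0, h⟩
    · omega
    · rw [h, hU h0]
      left
      rw [Nat.add_sub_cancel]
      exact Dvd.intro_left _ rfl
    · rw [h] at hs ⊢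
      rcases hV with h1 | h1
      · omega
      · rw [h1] at hs ⊢
        right
        have h2 : (A₂.natDegree + 1) * d - (d + 1) = A₂.natDegree * d - 1 := by
          rw [Nat.add_mul, one_mul]; omega
        rw [h2]
        apply coprime_mul_sub_one
        rw [Nat.add_mul, one_mul] at hs
        omega

/-- the class with one pair is invariant under equivalence -/
theorem inPairClass_of_equivalent {d : ℕ} {p q : P2} (h : Equivalent p q)
    (hq : InPairClass d q) : InPairClass d p := by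
  obtain ⟨hprim, c, φ, γ, f, hfib, hu, hfd, hf1, hpair⟩ := hq
  -- use the other invariance statement for the common part
  obtain ⟨α, a, b, ha, hpq⟩ := h
  have hcl : InClass d q := ⟨hprim, c, φ, γ (MvPolynomial.X 0), f, hfib, ⟨γ, rfl⟩, hu, hfd, hf1⟩
  have hprim' := (inClass_of_equivalent ⟨α, a, b, ha, hpq⟩ hcl).1
  obtain ⟨hs, hker⟩ := hfib
  refine ⟨hprim', a * c + b, φ.comp (α.symm : P2 →ₐ[ℂ] P2), γ.trans α, f, ⟨?_, ?_⟩, ?_, hfd, hf1,
    ?_⟩
  · rw [AlgHom.coe_comp]
    exact hs.comp α.symm.surjective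
  · ext r
    rw [RingHom.mem_ker, AlgHom.comp_apply]
    have h1 : (φ (α.symm r) = 0) ↔ (α.symm r) ∈ RingHom.ker φ := Iff.rfl
    have h2 : ((α.symm : P2 →ₐ[ℂ] P2) r) = α.symm r := rfl
    rw [h2, h1, hker, Ideal.mem_radical_iff, Ideal.mem_radical_iff]
    apply exists_congr
    intro N
    rw [Ideal.mem_span_singleton, Ideal.mem_span_singleton, ← map_dvd_iff α, map_pow,
      AlgEquiv.apply_symm_apply, map_sub, equiv_C]
    have h3 : p - MvPolynomial.C (a * c + b) =
        MvPolynomial.C a * (α q - MvPolynomial.C c) := by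
      rw [hpq, map_add, map_mul]; ring
    rw [h3]
    have h4 : IsUnit (MvPolynomial.C a : P2) := (isUnit_iff_ne_zero.mpr ha).map MvPolynomial.C
    exact h4.mul_left_dvd.symm
  · rw [AlgHom.comp_apply, AlgEquiv.trans_apply]
    have h2 : ((α.symm : P2 →ₐ[ℂ] P2) (α (γ (MvPolynomial.X 0)))) = γ (MvPolynomial.X 0) :=
      α.symm_apply_apply _
    rw [h2, hu]
  · intro A P F k hF hk
    apply hpair A P F k _ hk
    rw [← hF]
    congr 1
    rw [AlgHom.comp_apply]
    congr 1
    rw [AlgEquiv.trans_apply, AlgEquiv.trans_apply]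
    have h4 : ∀ B : ℂ[X], aeval (α (γ (MvPolynomial.X 0))) B = α (aeval (γ (MvPolynomial.X 0)) B) := by
      intro B
      exact aeval_algHom_apply (α : P2 →ₐ[ℂ] P2) (γ (MvPolynomial.X 0)) B
    rw [h4, h4, ← map_mul α, ← map_sub α]
    exact (α.symm_apply_apply _).symm

end Pool.Agent.Helper34_CStar
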