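import Pool.Agent.Helper34_CStar.ClsForty3

/-!
# Powers of the parameter on the fibres of a polynomial of degree four
-/

namespace Pool.Agent.Helper34_CStar

open Polynomial LaurentPolynomial

variable {α β γ : ℂ}

theorem pow40 {v t : ℂ} (ht : t ^ 4 = -α * t ^ 3 - β * t ^ 2 - γ * t + v) : ∀ k : ℕ,
    t ^ k = (C40 α β γ k).eval v * t ^ 3 +
      ((C40 α β γ (k + 1)).eval v + α * (C40 α β γ k).eval v) * t ^ 2 +
      ((C40 α β γ (k + 2)).eval v + α * (C40 α β γ (k + 1)).eval v +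
        β * (C40 α β γ k).eval v) * t +
      ((C40 α β γ (k + 3)).eval v + α * (C40 α β γ (k + 2)).eval v +
        β * (C40 α β γ (k + 1)).eval v + γ * (C40 α β γ k).eval v)
  | 0 => by
    have e0 : C40 α β γ 0 = 0 := rfl
    have e1 : C40 α β γ 1 = 0 := rfl
    have e2 : C40 α β γ 2 = 0 := rfl
    have e3 : C40 α β γ 3 = 1 := rfl
    simp only [zero_add]
    rw [e0, e1, e2, e3, eval_zero, eval_one]
    ring
  | (k + 1) => by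
    have h := pow40 ht k
    have e : (C40 α β γ (k + 4)).eval v = -α * (C40 α β γ (k + 3)).eval v -
        β * (C40 α β γ (k + 2)).eval v - γ * (C40 α β γ (k + 1)).eval v +
        v * (C40 α β γ k).eval v := by
      have e : C40 α β γ (k + 4) = -Polynomial.C α * C40 α β γ (k + 3) -
        Polynomial.C β * C40 α β γ (k + 2) - Polynomial.C γ * C40 α β γ (k + 1) +
        X * C40 α β γ k := rfl
      rw [e]; simp only [eval_add, eval_sub, eval_mul, eval_neg, eval_C, eval_X]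
    rw [show k + 1 + 1 = k + 2 by ring, show k + 1 + 2 = k + 3 by ring,
      show k + 1 + 3 = k + 4 by ring, e, pow_succ]
    linear_combination t * h + (C40 α β γ k).eval v * ht

/-- the leading coefficients -/
theorem C40_lead4 (α β γ : ℂ) : ∀ l : ℕ,
    (C40 α β γ (4 * l + 3)).coeff l = 1 ∧
    (C40 α β γ (4 * l + 4)).coeff l = -((l : ℂ) + 1) * α ∧
    (C40 α β γ (4 * l + 5)).coeff l = ((l : ℂ) + 1) * (l + 2) / 2 * α ^ 2 - (l + 1) * β ∧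
    (C40 α β γ (4 * l + 6)).coeff l = -(((l : ℂ) + 1) * (l + 2) * (l + 3) / 6) * α ^ 3 +
      (l + 1) * (l + 2) * α * β - (l + 1) * γ
  | 0 => by
    have s : ∀ n, (C40 α β γ (n + 4)).coeff 0 = -α * (C40 α β γ (n + 3)).coeff 0 -
        β * (C40 α β γ (n + 2)).coeff 0 - γ * (C40 α β γ (n + 1)).coeff 0 := by
      intro n
      have e : C40 α β γ (n + 4) = -Polynomial.C α * C40 α β γ (n + 3) -
        Polynomial.C β * C40 α β γ (n + 2) - Polynomial.C γ * C40 α β γ (n + 1) +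
        X * C40 α β γ n := rfl
      rw [e, coeff_add, coeff_sub, coeff_sub, neg_mul, coeff_neg, coeff_C_mul, coeff_C_mul,
        coeff_C_mul, coeff_X_mul_zero]
      ring
    have c1 : (C40 α β γ 1).coeff 0 = 0 := by rw [C40]; simp
    have c2 : (C40 α β γ 2).coeff 0 = 0 := by rw [C40]; simp
    have c3 : (C40 α β γ 3).coeff 0 = 1 := by rw [C40]; simp
    have c4 := s 0
    have c5 := s 1
    have c6 := s 2
    norm_num only at c4 c5 c6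
    refine ⟨?_, ?_, ?_, ?_⟩ <;> push_cast <;> norm_num only
    · rw [c3]
    · rw [c4, c3, c2, c1]; ring
    · rw [c5, c4, c3, c2, c1]; ring
    · rw [c6, c5, c4, c3, c2, c1]; ring
  | (l + 1) => by
    obtain ⟨h3, h4, h5, h6⟩ := C40_lead4 α β γ l
    have z : ∀ i ≤ 4 * l + 6, (C40 α β γ i).coeff (l + 1) = 0 := by
      intro i hi
      apply coeff_eq_zero_of_natDegree_lt
      have := C40_natDegree α β γ i
      omega
    have c3 := C40_step α β γ (4 * l + 3) l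
    have c4 := C40_step α β γ (4 * l + 4) l
    have c5 := C40_step α β γ (4 * l + 5) l
    have c6 := C40_step α β γ (4 * l + 6) l
    simp only [add_assoc, Nat.reduceAdd] at c3 c4 c5 c6
    have z4 := z (4 * l + 4) (by omega)
    have z5 := z (4 * l + 5) (by omega)
    have z6 := z (4 * l + 6) (by omega)
    rw [z6, z5, z4, h3] at c3
    rw [c3, z6, z5, h4] at c4
    rw [c4, c3, z6, h5] at c5
    rw [c5, c4, c3, h6] at c6
    have e : ∀ d, 4 * (l + 1) + d = 4 * l + (4 + d) := by intro d; ring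
    rw [e, e, e, e]
    norm_num only
    rw [c3, c4, c5, c6]
    refine ⟨?_, ?_, ?_, ?_⟩ <;> push_cast <;> ring

/-- the coefficients above the leading one vanish -/
theorem C40_coeff_zero (α β γ : ℂ) {i l : ℕ} (h : i ≤ 4 * l + 2) : (C40 α β γ i).coeff l = 0 := by
  by_cases hi : i ≤ 2
  · interval_cases i <;> simp [C40]
  · apply coeff_eq_zero_of_natDegree_lt
    have := C40_natDegree α β γ i
    omega

/-- the values on a good fibre -/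
theorem fib_units {v t₁ t₂ t₃ t₄ : ℂ} (hf : Fib40 α β γ v t₁ t₂ t₃ t₄) :
    ∃ u₁ u₂ u₃ u₄ : ℂˣ, (u₁ : ℂ) = t₁ ∧ (u₂ : ℂ) = t₂ ∧ (u₃ : ℂ) = t₃ ∧ (u₄ : ℂ) = t₄ :=
  ⟨Units.mk0 _ hf.ne₁, Units.mk0 _ hf.ne₂, Units.mk0 _ hf.ne₃, Units.mk0 _ hf.ne₄, rfl, rfl, rfl,
    rfl⟩

/-- consequences of a relation with one function -/
theorem span_key {y : ℂ[T;T⁻¹]} {k : ℕ} {c g₂ g₁ : ℂ}
    (hadj : Algebra.adjoin ℂ {x40 α β γ, y} = ⊤)
    (hrel : ∀ t s : ℂˣ, t ≠ s → (f40 α β γ).eval (t : ℂ) = (f40 α β γ).eval (s : ℂ) →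
      (t : ℂ) ^ k * (s : ℂ) ^ k * (lev t y - lev s y) =
        c * ((g₂ * (t : ℂ) ^ 2 + g₁ * t) - (g₂ * (s : ℂ) ^ 2 + g₁ * s))) :
    C40 α β γ k = 0 ∧ Polynomial.C g₁ * C40 α β γ (k + 1) =
      Polynomial.C g₂ * (C40 α β γ (k + 2) + Polynomial.C α * C40 α β γ (k + 1)) := by
  obtain ⟨bad, hb, hg⟩ := exists_fib40 α β γ
  have key : ∀ v ∉ bad, (C40 α β γ k).eval v = 0 ∧ g₁ * (C40 α β γ (k + 1)).eval v =
      g₂ * ((C40 α β γ (k + 2)).eval v + α * (C40 α β γ (k + 1)).eval v) := by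
    intro v hv
    obtain ⟨t₁', t₂', t₃', t₄', hf⟩ := hg v hv
    obtain ⟨t₁, t₂, t₃, t₄, rfl, rfl, rfl, rfl⟩ := fib_units hf
    have e1 := hf.eval₁
    have e2 := hf.swap₁₂.eval₁
    have e3 := hf.swapPairs.eval₁
    have e4 := hf.swapPairs.swap₁₂.eval₁
    have d12 : t₁ ≠ t₂ := fun h => hf.d₁₂ (by rw [h])
    have d13 : t₁ ≠ t₃ := fun h => hf.d₁₃ (by rw [h])
    have d14 : t₁ ≠ t₄ := fun h => hf.d₁₄ (by rw [h])
    have d23 : t₂ ≠ t₃ := fun h => hf.d₂₃ (by rw [h])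
    have d24 : t₂ ≠ t₄ := fun h => hf.d₂₄ (by rw [h])
    have r12 := hrel t₁ t₂ d12 (by rw [e1, e2])
    have r13 := hrel t₁ t₃ d13 (by rw [e1, e3])
    have r14 := hrel t₁ t₄ d14 (by rw [e1, e4])
    have r23 := hrel t₂ t₃ d23 (by rw [e2, e3])
    have r24 := hrel t₂ t₄ d24 (by rw [e2, e4])
    have hsep := sep40 hadj t₁ t₂ d12 (by rw [e1, e2])
    have q1 := pow40 hf.root₁ k
    have q2 := pow40 hf.root₂ k
    have q3 := pow40 hf.root₃ k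
    have q4 := pow40 hf.root₄ k
    obtain ⟨P₃, hP₃⟩ : ∃ P, P = (C40 α β γ k).eval v := ⟨_, rfl⟩
    obtain ⟨a₁, ha₁⟩ : ∃ P, P = (C40 α β γ (k + 1)).eval v := ⟨_, rfl⟩
    obtain ⟨a₂, ha₂⟩ : ∃ P, P = (C40 α β γ (k + 2)).eval v := ⟨_, rfl⟩
    obtain ⟨a₃, ha₃⟩ : ∃ P, P = (C40 α β γ (k + 3)).eval v := ⟨_, rfl⟩
    rw [← hP₃, ← ha₁, ← ha₂, ← ha₃] at q1 q2 q3 q4
    rw [← hP₃, ← ha₁, ← ha₂]
    have hn1 := pow_ne_zero k hf.ne₁
    have hn2 := pow_ne_zero k hf.ne₂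
    obtain ⟨T₁, hT₁⟩ : ∃ P, P = (t₁ : ℂ) ^ k := ⟨_, rfl⟩
    obtain ⟨T₂, hT₂⟩ : ∃ P, P = (t₂ : ℂ) ^ k := ⟨_, rfl⟩
    obtain ⟨T₃, hT₃⟩ : ∃ P, P = (t₃ : ℂ) ^ k := ⟨_, rfl⟩
    obtain ⟨T₄, hT₄⟩ : ∃ P, P = (t₄ : ℂ) ^ k := ⟨_, rfl⟩
    rw [← hT₁] at q1 r12 r13 r14 hn1
    rw [← hT₂] at q2 r12 r23 r24 hn2
    rw [← hT₃] at q3 r13 r23
    rw [← hT₄] at q4 r14 r24
    have hG : (g₂ * (t₁ : ℂ) ^ 2 + g₁ * t₁) - (g₂ * (t₂ : ℂ) ^ 2 + g₁ * t₂) ≠ 0 := by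
      intro h0
      rw [h0, mul_zero] at r12
      exact mul_ne_zero (mul_ne_zero hn1 hn2) (sub_ne_zero.mpr hsep) r12
    have hc : c ≠ 0 := by
      rintro rfl
      rw [zero_mul] at r12
      exact mul_ne_zero (mul_ne_zero hn1 hn2) (sub_ne_zero.mpr hsep) r12
    have m3 : T₃ * ((g₂ * (t₁ : ℂ) ^ 2 + g₁ * t₁) - (g₂ * (t₂ : ℂ) ^ 2 + g₁ * t₂)) +
        T₁ * ((g₂ * (t₂ : ℂ) ^ 2 + g₁ * t₂) - (g₂ * (t₃ : ℂ) ^ 2 + g₁ * t₃)) +
        T₂ * ((g₂ * (t₃ : ℂ) ^ 2 + g₁ * t₃) - (g₂ * (t₁ : ℂ) ^ 2 + g₁ * t₁)) = 0 := by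
      apply mul_left_cancel₀ hc
      linear_combination (-T₃) * r12 - T₁ * r23 + T₂ * r13
    have m4 : T₄ * ((g₂ * (t₁ : ℂ) ^ 2 + g₁ * t₁) - (g₂ * (t₂ : ℂ) ^ 2 + g₁ * t₂)) +
        T₁ * ((g₂ * (t₂ : ℂ) ^ 2 + g₁ * t₂) - (g₂ * (t₄ : ℂ) ^ 2 + g₁ * t₄)) +
        T₂ * ((g₂ * (t₄ : ℂ) ^ 2 + g₁ * t₄) - (g₂ * (t₁ : ℂ) ^ 2 + g₁ * t₁)) = 0 := by
      apply mul_left_cancel₀ hc
      linear_combination (-T₄) * r12 - T₁ * r24 + T₂ * r14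
    obtain ⟨D, hD⟩ : ∃ D, D = (g₂ * (t₁ : ℂ) ^ 2 + g₁ * t₁) - (g₂ * (t₂ : ℂ) ^ 2 + g₁ * t₂) :=
      ⟨_, rfl⟩
    obtain ⟨f3, f2, f1, _⟩ := cubic_zero (a₃ := D * P₃)
      (a₂ := D * (a₁ + α * P₃) - (T₁ - T₂) * g₂)
      (a₁ := D * (a₂ + α * a₁ + β * P₃) - (T₁ - T₂) * g₁)
      (a₀ := D * (a₃ + α * a₂ + β * a₁ + γ * P₃) + (T₁ - T₂) * (g₂ * (t₁ : ℂ) ^ 2 + g₁ * t₁) -
        D * T₁) hf.d₁₂ hf.d₁₃ hf.d₁₄ hf.d₂₃ hf.d₂₄ hf.d₃₄
      (by rw [hD]; linear_combination (-D) * q1 +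
            (T₁ - P₃ * (t₁ : ℂ) ^ 3 - (a₁ + α * P₃) * (t₁ : ℂ) ^ 2 -
              (a₂ + α * a₁ + β * P₃) * t₁ - (a₃ + α * a₂ + β * a₁ + γ * P₃)) * hD)
      (by rw [hD]; linear_combination (-D) * q2 +
            (T₂ - P₃ * (t₂ : ℂ) ^ 3 - (a₁ + α * P₃) * (t₂ : ℂ) ^ 2 -
              (a₂ + α * a₁ + β * P₃) * t₂ - (a₃ + α * a₂ + β * a₁ + γ * P₃)) * hD)
      (by rw [hD]; linear_combination (-D) * q3 + m3 +
            (T₃ - P₃ * (t₃ : ℂ) ^ 3 - (a₁ + α * P₃) * (t₃ : ℂ) ^ 2 -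
              (a₂ + α * a₁ + β * P₃) * t₃ - (a₃ + α * a₂ + β * a₁ + γ * P₃)) * hD)
      (by rw [hD]; linear_combination (-D) * q4 + m4 +
            (T₄ - P₃ * (t₄ : ℂ) ^ 3 - (a₁ + α * P₃) * (t₄ : ℂ) ^ 2 -
              (a₂ + α * a₁ + β * P₃) * t₄ - (a₃ + α * a₂ + β * a₁ + γ * P₃)) * hD)
    rw [← hD] at hG
    have hP : P₃ = 0 := (mul_eq_zero.mp f3).resolve_left hG
    refine ⟨hP, ?_⟩
    rw [hP] at f2 f1
    apply mul_left_cancel₀ hG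
    linear_combination g₁ * f2 - g₂ * f1
  constructor
  · exact zero_of_not_bad hb fun v hv => (key v hv).1
  · have := zero_of_not_bad (P := Polynomial.C g₁ * C40 α β γ (k + 1) -
      Polynomial.C g₂ * (C40 α β γ (k + 2) + Polynomial.C α * C40 α β γ (k + 1))) hb fun v hv => by
        simp only [eval_sub, eval_mul, eval_add, eval_C]
        rw [(key v hv).2, sub_self]
    exact sub_eq_zero.mp this

/-- consequences of the relation with two functions -/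
theorem span_key3 {y : ℂ[T;T⁻¹]} {k : ℕ} {c a g : ℂ}
    (hadj : Algebra.adjoin ℂ {x40 α β γ, y} = ⊤)
    (hrel : ∀ t s : ℂˣ, t ≠ s → (f40 α β γ).eval (t : ℂ) = (f40 α β γ).eval (s : ℂ) →
      (t : ℂ) ^ k * (s : ℂ) ^ k * (lev t y - lev s y) =
        c * ((2 * ((t : ℂ) + a) ^ 3 + g) * (s + a) - (2 * ((s : ℂ) + a) ^ 3 + g) * (t + a))) :
    C40 α β γ (k + 1) + Polynomial.C α * C40 α β γ k = Polynomial.C (3 * a) * C40 α β γ k ∧
    C40 α β γ (k + 3) + Polynomial.C α * C40 α β γ (k + 2) +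
      Polynomial.C β * C40 α β γ (k + 1) + Polynomial.C γ * C40 α β γ k =
      Polynomial.C a * (C40 α β γ (k + 2) + Polynomial.C α * C40 α β γ (k + 1) +
        Polynomial.C β * C40 α β γ k) + Polynomial.C (g / 2 - 2 * a ^ 3) * C40 α β γ k := by
  obtain ⟨bad, hb, hg⟩ := exists_fib40 α β γ
  have key : ∀ v ∉ bad, (C40 α β γ (k + 1)).eval v + α * (C40 α β γ k).eval v =
      3 * a * (C40 α β γ k).eval v ∧
      (C40 α β γ (k + 3)).eval v + α * (C40 α β γ (k + 2)).eval v +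
        β * (C40 α β γ (k + 1)).eval v + γ * (C40 α β γ k).eval v =
      a * ((C40 α β γ (k + 2)).eval v + α * (C40 α β γ (k + 1)).eval v +
        β * (C40 α β γ k).eval v) + (g / 2 - 2 * a ^ 3) * (C40 α β γ k).eval v := by
    intro v hv
    obtain ⟨t₁', t₂', t₃', t₄', hf⟩ := hg v hv
    obtain ⟨t₁, t₂, t₃, t₄, rfl, rfl, rfl, rfl⟩ := fib_units hf
    have e1 := hf.eval₁
    have e2 := hf.swap₁₂.eval₁
    have e3 := hf.swapPairs.eval₁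
    have e4 := hf.swapPairs.swap₁₂.eval₁
    have d12 : t₁ ≠ t₂ := fun h => hf.d₁₂ (by rw [h])
    have d13 : t₁ ≠ t₃ := fun h => hf.d₁₃ (by rw [h])
    have d14 : t₁ ≠ t₄ := fun h => hf.d₁₄ (by rw [h])
    have d23 : t₂ ≠ t₃ := fun h => hf.d₂₃ (by rw [h])
    have d24 : t₂ ≠ t₄ := fun h => hf.d₂₄ (by rw [h])
    have r12 := hrel t₁ t₂ d12 (by rw [e1, e2])
    have r13 := hrel t₁ t₃ d13 (by rw [e1, e3])
    have r14 := hrel t₁ t₄ d14 (by rw [e1, e4])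
    have r23 := hrel t₂ t₃ d23 (by rw [e2, e3])
    have r24 := hrel t₂ t₄ d24 (by rw [e2, e4])
    have hsep := sep40 hadj t₁ t₂ d12 (by rw [e1, e2])
    have q1 := pow40 hf.root₁ k
    have q2 := pow40 hf.root₂ k
    have q3 := pow40 hf.root₃ k
    have q4 := pow40 hf.root₄ k
    obtain ⟨P₃, hP₃⟩ : ∃ P, P = (C40 α β γ k).eval v := ⟨_, rfl⟩
    obtain ⟨a₁, ha₁⟩ : ∃ P, P = (C40 α β γ (k + 1)).eval v := ⟨_, rfl⟩
    obtain ⟨a₂, ha₂⟩ : ∃ P, P = (C40 α β γ (k + 2)).eval v := ⟨_, rfl⟩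
    obtain ⟨a₃, ha₃⟩ : ∃ P, P = (C40 α β γ (k + 3)).eval v := ⟨_, rfl⟩
    rw [← hP₃, ← ha₁, ← ha₂, ← ha₃] at q1 q2 q3 q4
    rw [← hP₃, ← ha₁, ← ha₂, ← ha₃]
    have hn1 := pow_ne_zero k hf.ne₁
    have hn2 := pow_ne_zero k hf.ne₂
    obtain ⟨T₁, hT₁⟩ : ∃ P, P = (t₁ : ℂ) ^ k := ⟨_, rfl⟩
    obtain ⟨T₂, hT₂⟩ : ∃ P, P = (t₂ : ℂ) ^ k := ⟨_, rfl⟩
    obtain ⟨T₃, hT₃⟩ : ∃ P, P = (t₃ : ℂ) ^ k := ⟨_, rfl⟩
    obtain ⟨T₄, hT₄⟩ : ∃ P, P = (t₄ : ℂ) ^ k := ⟨_, rfl⟩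
    rw [← hT₁] at q1 r12 r13 r14 hn1
    rw [← hT₂] at q2 r12 r23 r24 hn2
    rw [← hT₃] at q3 r13 r23
    rw [← hT₄] at q4 r14 r24
    obtain ⟨V₁, hV₁⟩ : ∃ V, V = (t₁ : ℂ) + a := ⟨_, rfl⟩
    obtain ⟨V₂, hV₂⟩ : ∃ V, V = (t₂ : ℂ) + a := ⟨_, rfl⟩
    obtain ⟨V₃, hV₃⟩ : ∃ V, V = (t₃ : ℂ) + a := ⟨_, rfl⟩
    obtain ⟨V₄, hV₄⟩ : ∃ V, V = (t₄ : ℂ) + a := ⟨_, rfl⟩
    rw [← hV₁] at r12 r13 r14
    rw [← hV₂] at r12 r23 r24
    rw [← hV₃] at r13 r23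
    rw [← hV₄] at r14 r24
    have hG : (2 * V₁ ^ 3 + g) * V₂ - (2 * V₂ ^ 3 + g) * V₁ ≠ 0 := by
      intro h0
      rw [h0, mul_zero] at r12
      exact mul_ne_zero (mul_ne_zero hn1 hn2) (sub_ne_zero.mpr hsep) r12
    have hc : c ≠ 0 := by
      rintro rfl
      rw [zero_mul] at r12
      exact mul_ne_zero (mul_ne_zero hn1 hn2) (sub_ne_zero.mpr hsep) r12
    have m3 : T₃ * ((2 * V₁ ^ 3 + g) * V₂ - (2 * V₂ ^ 3 + g) * V₁) +
        T₁ * ((2 * V₂ ^ 3 + g) * V₃ - (2 * V₃ ^ 3 + g) * V₂) -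
        T₂ * ((2 * V₁ ^ 3 + g) * V₃ - (2 * V₃ ^ 3 + g) * V₁) = 0 := by
      apply mul_left_cancel₀ hc
      linear_combination (-T₃) * r12 - T₁ * r23 + T₂ * r13
    have m4 : T₄ * ((2 * V₁ ^ 3 + g) * V₂ - (2 * V₂ ^ 3 + g) * V₁) +
        T₁ * ((2 * V₂ ^ 3 + g) * V₄ - (2 * V₄ ^ 3 + g) * V₂) -
        T₂ * ((2 * V₁ ^ 3 + g) * V₄ - (2 * V₄ ^ 3 + g) * V₁) = 0 := by
      apply mul_left_cancel₀ hc
      linear_combination (-T₄) * r12 - T₁ * r24 + T₂ * r14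
    obtain ⟨D, hD⟩ : ∃ D, D = (2 * V₁ ^ 3 + g) * V₂ - (2 * V₂ ^ 3 + g) * V₁ := ⟨_, rfl⟩
    rw [← hD] at hG m3 m4
    obtain ⟨l, hl⟩ : ∃ l, l = T₂ * V₁ - T₁ * V₂ := ⟨_, rfl⟩
    obtain ⟨m, hm⟩ : ∃ m, m = T₁ * (2 * V₂ ^ 3 + g) - T₂ * (2 * V₁ ^ 3 + g) := ⟨_, rfl⟩
    obtain ⟨f3, f2, f1, f0⟩ := cubic_zero (a₃ := D * P₃ + 2 * l)
      (a₂ := D * (a₁ + α * P₃) + 6 * a * l)
      (a₁ := D * (a₂ + α * a₁ + β * P₃) + 6 * a ^ 2 * l + m)
      (a₀ := D * (a₃ + α * a₂ + β * a₁ + γ * P₃) + (2 * a ^ 3 + g) * l + a * m)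
      hf.d₁₂ hf.d₁₃ hf.d₁₄ hf.d₂₃ hf.d₂₄ hf.d₃₄
      (by
        have e : D * T₁ + (2 * V₁ ^ 3 + g) * l + V₁ * m = 0 := by rw [hD, hl, hm]; ring
        rw [hV₁] at e
        linear_combination e - D * q1)
      (by
        have e : D * T₂ + (2 * V₂ ^ 3 + g) * l + V₂ * m = 0 := by rw [hD, hl, hm]; ring
        rw [hV₂] at e
        linear_combination e - D * q2)
      (by
        have e : D * T₃ + (2 * V₃ ^ 3 + g) * l + V₃ * m = 0 := by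
          rw [hl, hm]; linear_combination m3
        rw [hV₃] at e
        linear_combination e - D * q3)
      (by
        have e : D * T₄ + (2 * V₄ ^ 3 + g) * l + V₄ * m = 0 := by
          rw [hl, hm]; linear_combination m4
        rw [hV₄] at e
        linear_combination e - D * q4)
    constructor
    · apply mul_left_cancel₀ hG
      linear_combination f2 - 3 * a * f3
    · apply mul_left_cancel₀ hG
      linear_combination f0 - a * f1 - (g / 2 - 2 * a ^ 3) * f3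
  constructor
  · have := zero_of_not_bad (P := C40 α β γ (k + 1) + Polynomial.C α * C40 α β γ k -
      Polynomial.C (3 * a) * C40 α β γ k) hb fun v hv => by
        simp only [eval_sub, eval_mul, eval_add, eval_C]
        rw [(key v hv).1, sub_self]
    exact sub_eq_zero.mp this
  · have := zero_of_not_bad (P := C40 α β γ (k + 3) + Polynomial.C α * C40 α β γ (k + 2) +
      Polynomial.C β * C40 α β γ (k + 1) + Polynomial.C γ * C40 α β γ k -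
      (Polynomial.C a * (C40 α β γ (k + 2) + Polynomial.C α * C40 α β γ (k + 1) +
        Polynomial.C β * C40 α β γ k) + Polynomial.C (g / 2 - 2 * a ^ 3) * C40 α β γ k)) hb
      fun v hv => by
        simp only [eval_sub, eval_mul, eval_add, eval_C]
        rw [(key v hv).2, sub_self]
    exact sub_eq_zero.mp this

/-- functions constant on fibres -/
theorem const40 {r : ℂˣ} (hr : (f40 α β γ).eval (r : ℂ) = 0) {z : ℂ[T;T⁻¹]}
    (h : ∀ t s : ℂˣ, t ≠ s → (f40 α β γ).eval (t : ℂ) = (f40 α β γ).eval (s : ℂ) →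
      lev t z = lev s z) : ∃ G : ℂ[X], z = aeval (x40 α β γ) G := by
  obtain ⟨N, P₃, P₂, P₁, P₀, h1⟩ := span40 (α := α) (β := β) (γ := γ) z
  obtain ⟨bad, hb, hg⟩ := exists_fib40 α β γ
  have key : ∀ v ∉ bad, P₃.eval v = 0 ∧ P₂.eval v = 0 ∧ P₁.eval v = 0 := by
    intro v hv
    obtain ⟨t₁', t₂', t₃', t₄', hf⟩ := hg v hv
    obtain ⟨t₁, t₂, t₃, t₄, rfl, rfl, rfl, rfl⟩ := fib_units hf
    have e1 := hf.eval₁
    have e2 := hf.swap₁₂.eval₁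
    have e3 := hf.swapPairs.eval₁
    have e4 := hf.swapPairs.swap₁₂.eval₁
    have d12 : t₁ ≠ t₂ := fun h => hf.d₁₂ (by rw [h])
    have d13 : t₁ ≠ t₃ := fun h => hf.d₁₃ (by rw [h])
    have d14 : t₁ ≠ t₄ := fun h => hf.d₁₄ (by rw [h])
    have hval : ∀ t : ℂˣ, (f40 α β γ).eval (t : ℂ) = v → v ^ N * lev t z =
        P₃.eval v * (t : ℂ) ^ 3 + P₂.eval v * (t : ℂ) ^ 2 + P₁.eval v * t + P₀.eval v := by
      intro t ht
      have h2 := congrArg (lev t) h1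
      simp only [map_add, map_mul, map_pow, lev_aeval40, lev_x40, lev_T, zpow_one, ht] at h2
      exact h2
    have g2 := h t₁ t₂ d12 (by rw [e1, e2])
    have g3 := h t₁ t₃ d13 (by rw [e1, e3])
    have g4 := h t₁ t₄ d14 (by rw [e1, e4])
    obtain ⟨f3, f2, f1, _⟩ := cubic_zero (a₃ := P₃.eval v) (a₂ := P₂.eval v) (a₁ := P₁.eval v)
      (a₀ := P₀.eval v - v ^ N * lev t₁ z)
      hf.d₁₂ hf.d₁₃ hf.d₁₄ hf.d₂₃ hf.d₂₄ hf.d₃₄
      (by linear_combination -hval t₁ e1)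
      (by rw [g2]; linear_combination -hval t₂ e2)
      (by rw [g3]; linear_combination -hval t₃ e3)
      (by rw [g4]; linear_combination -hval t₄ e4)
    exact ⟨f3, f2, f1⟩
  have h3 : P₃ = 0 := zero_of_not_bad hb fun v hv => (key v hv).1
  have h2 : P₂ = 0 := zero_of_not_bad hb fun v hv => (key v hv).2.1
  have h1' : P₁ = 0 := zero_of_not_bad hb fun v hv => (key v hv).2.2
  rw [h3, h2, h1', map_zero, zero_mul, zero_mul, zero_mul, add_zero, add_zero, zero_add] at h1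
  have hx := x40_ne_zero (α := α) (β := β) (γ := γ)
  obtain ⟨Q, rfl⟩ : X ^ N ∣ P₀ := by
    apply dvd_of_aeval_dvd hx (a := r) (by rw [lev_x40, hr])
    exact ⟨z, h1.symm⟩
  refine ⟨Q, ?_⟩
  apply mul_left_cancel₀ (pow_ne_zero N hx)
  rw [h1, map_mul, map_pow, aeval_X]

end Pool.Agent.Helper34_CStar
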