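import Pool.Agent.Helper34_CStar.Deriv

/-!
# Functions of degree four with poles at both ends
-/

namespace Pool.Agent.Helper34_CStar

open Polynomial LaurentPolynomial

/-- `x = (T ^ 4 + a₃ T ^ 3 + a₂ T ^ 2 + a₁ T + a₀) / T ^ k` with `k = 1, 2` -/
structure Quart (x : ℂ[T;T⁻¹]) (k : ℕ) (a₃ a₂ a₁ a₀ : ℂ) : Prop where
  hk : k = 1 ∨ k = 2
  h0 : a₀ ≠ 0
  eq : x * T 1 ^ k = T 1 ^ 4 + LaurentPolynomial.C a₃ * T 1 ^ 3 +
    LaurentPolynomial.C a₂ * T 1 ^ 2 + LaurentPolynomial.C a₁ * T 1 + LaurentPolynomial.C a₀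

/-- the numerator -/
noncomputable def quartF (a₃ a₂ a₁ a₀ : ℂ) : ℂ[X] :=
  X ^ 4 + Polynomial.C a₃ * X ^ 3 + Polynomial.C a₂ * X ^ 2 + Polynomial.C a₁ * X + Polynomial.C a₀

theorem quartF_natDegree (a₃ a₂ a₁ a₀ : ℂ) : (quartF a₃ a₂ a₁ a₀).natDegree = 4 := by
  unfold quartF; compute_degree!

theorem quartF_monic (a₃ a₂ a₁ a₀ : ℂ) : (quartF a₃ a₂ a₁ a₀).Monic := by
  unfold quartF; monicity!

theorem quartF_coeff_zero (a₃ a₂ a₁ a₀ : ℂ) : (quartF a₃ a₂ a₁ a₀).coeff 0 = a₀ := by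
  unfold quartF; simp

theorem quartF_eval (a₃ a₂ a₁ a₀ t : ℂ) :
    (quartF a₃ a₂ a₁ a₀).eval t = t ^ 4 + a₃ * t ^ 3 + a₂ * t ^ 2 + a₁ * t + a₀ := by
  unfold quartF; simp

variable {x : ℂ[T;T⁻¹]} {k : ℕ} {a₃ a₂ a₁ a₀ : ℂ}

namespace Quart

theorem lev_eq (h : Quart x k a₃ a₂ a₁ a₀) (t : ℂˣ) :
    lev t x * (t : ℂ) ^ k = (quartF a₃ a₂ a₁ a₀).eval (t : ℂ) := by
  have h1 := congrArg (lev t) h.eq
  simp only [map_add, map_mul, map_pow, lev_C, lev_T, zpow_one, Algebra.algebraMap_self,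
    RingHom.id_apply] at h1
  rw [quartF_eval, h1]

theorem lev_iff (h : Quart x k a₃ a₂ a₁ a₀) (t : ℂˣ) (v : ℂ) :
    lev t x = v ↔ (quartF a₃ a₂ a₁ a₀).eval (t : ℂ) = v * (t : ℂ) ^ k := by
  rw [← h.lev_eq]
  constructor
  · intro h1; rw [h1]
  · intro h1; exact mul_right_cancel₀ (pow_ne_zero _ t.ne_zero) h1

/-- good fibres -/
theorem exists_fibre (h : Quart x k a₃ a₂ a₁ a₀) :
    ∃ bad : Set ℂ, bad.Finite ∧ ∀ v ∉ bad, ∃ t₁ t₂ t₃ t₄ : ℂˣ,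
      Four (quartF a₃ a₂ a₁ a₀) k v t₁ t₂ t₃ t₄ ∧
      lev t₁ x = v ∧ lev t₂ x = v ∧ lev t₃ x = v ∧ lev t₄ x = v := by
  obtain ⟨bad, hb, hg⟩ := exists_four (quartF_monic a₃ a₂ a₁ a₀) (quartF_natDegree _ _ _ _)
    (k := k) (by rcases h.hk with h | h <;> omega) (Or.inr (by
      rw [quartF_coeff_zero]; exact h.h0))
  refine ⟨bad, hb, ?_⟩
  intro v hv
  obtain ⟨t₁, t₂, t₃, t₄, hf⟩ := hg v hv
  obtain ⟨e1, e2, e3, e4⟩ := hf.eval
  refine ⟨Units.mk0 t₁ hf.ne₁, Units.mk0 t₂ hf.ne₂, Units.mk0 t₃ hf.ne₃, Units.mk0 t₄ hf.ne₄,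
    hf, ?_, ?_, ?_, ?_⟩
  · rw [h.lev_iff]; exact e1
  · rw [h.lev_iff]; exact e2
  · rw [h.lev_iff]; exact e3
  · rw [h.lev_iff]; exact e4

theorem lev_aeval (t : ℂˣ) (P : ℂ[X]) : lev t (aeval x P) = P.eval (lev t x) := by
  have := aeval_algHom_apply (levA (S := ℂ) t) x P
  rw [levA_apply, levA_apply, coe_aeval_eq_eval] at this
  exact this.symm

/-- `1, T, T ^ 2, T ^ 3` generate over the ring generated by `x` -/
theorem span (h : Quart x k a₃ a₂ a₁ a₀) (z : ℂ[T;T⁻¹]) :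
    ∃ P₃ P₂ P₁ P₀ : ℂ[X], z = aeval x P₃ * T 1 ^ 3 + aeval x P₂ * T 1 ^ 2 +
      aeval x P₁ * T 1 + aeval x P₀ := by
  have hTT := T_mul_T_neg
  have hx := h.eq
  have hCb : (LaurentPolynomial.C a₀⁻¹ : ℂ[T;T⁻¹]) * LaurentPolynomial.C a₀ = 1 := by
    rw [← map_mul, inv_mul_cancel₀ h.h0, map_one]
  induction z using laurent_ind with
  | hC a =>
    exact ⟨0, 0, 0, Polynomial.C a, by
      rw [map_zero, zero_mul, zero_mul, zero_mul, zero_add, zero_add, zero_add, aeval_C,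
        LaurentPolynomial.C_eq_algebraMap]⟩
  | hadd p q hp hq =>
    obtain ⟨P₃, P₂, P₁, P₀, h⟩ := hp
    obtain ⟨Q₃, Q₂, Q₁, Q₀, h'⟩ := hq
    exact ⟨P₃ + Q₃, P₂ + Q₂, P₁ + Q₁, P₀ + Q₀, by
      rw [h, h', map_add, map_add, map_add, map_add]; ring⟩
  | hT z ih =>
    obtain ⟨P₃, P₂, P₁, P₀, h1⟩ := ih
    rcases h.hk with rfl | rfl
    · refine ⟨P₂ - Polynomial.C a₃ * P₃, P₁ - Polynomial.C a₂ * P₃,
        P₀ - Polynomial.C a₁ * P₃ + X * P₃, -Polynomial.C a₀ * P₃, ?_⟩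
      rw [h1]
      simp only [map_add, map_sub, map_mul, map_neg, aeval_C, aeval_X,
        ← LaurentPolynomial.C_eq_algebraMap]
      linear_combination (-(aeval x P₃)) * hx
    · refine ⟨P₂ - Polynomial.C a₃ * P₃, P₁ - Polynomial.C a₂ * P₃ + X * P₃,
        P₀ - Polynomial.C a₁ * P₃, -Polynomial.C a₀ * P₃, ?_⟩
      rw [h1]
      simp only [map_add, map_sub, map_mul, map_neg, aeval_C, aeval_X,
        ← LaurentPolynomial.C_eq_algebraMap]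
      linear_combination (-(aeval x P₃)) * hx
  | hT' z ih =>
    obtain ⟨P₃, P₂, P₁, P₀, h1⟩ := ih
    rcases h.hk with rfl | rfl
    · refine ⟨-Polynomial.C a₀⁻¹ * P₀, P₃ - Polynomial.C (a₀⁻¹ * a₃) * P₀,
        P₂ - Polynomial.C (a₀⁻¹ * a₂) * P₀,
        P₁ + Polynomial.C a₀⁻¹ * (X - Polynomial.C a₁) * P₀, ?_⟩
      rw [h1]
      simp only [map_add, map_sub, map_mul, map_neg, aeval_C, aeval_X,
        ← LaurentPolynomial.C_eq_algebraMap]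
      linear_combination (aeval x P₃ * T 1 ^ 2 + aeval x P₂ * T 1 + aeval x P₁ +
        aeval x P₀ * LaurentPolynomial.C a₀⁻¹ * (x - LaurentPolynomial.C a₁ -
          LaurentPolynomial.C a₂ * T 1 - LaurentPolynomial.C a₃ * T 1 ^ 2 - T 1 ^ 3)) * hTT -
        aeval x P₀ * LaurentPolynomial.C a₀⁻¹ * T (-1) * hx - aeval x P₀ * T (-1) * hCb
    · refine ⟨-Polynomial.C a₀⁻¹ * P₀, P₃ - Polynomial.C (a₀⁻¹ * a₃) * P₀,
        P₂ + Polynomial.C a₀⁻¹ * (X - Polynomial.C a₂) * P₀,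
        P₁ - Polynomial.C (a₀⁻¹ * a₁) * P₀, ?_⟩
      rw [h1]
      simp only [map_add, map_sub, map_mul, map_neg, aeval_C, aeval_X,
        ← LaurentPolynomial.C_eq_algebraMap]
      linear_combination (aeval x P₃ * T 1 ^ 2 + aeval x P₂ * T 1 + aeval x P₁ +
        aeval x P₀ * LaurentPolynomial.C a₀⁻¹ * (x * T 1 - LaurentPolynomial.C a₁ -
          LaurentPolynomial.C a₂ * T 1 - LaurentPolynomial.C a₃ * T 1 ^ 2 - T 1 ^ 3)) * hTT -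
        aeval x P₀ * LaurentPolynomial.C a₀⁻¹ * T (-1) * hx - aeval x P₀ * T (-1) * hCb

/-- `1, T, T ^ 2, T ^ 3` are free over the ring generated by `x` -/
theorem free (h : Quart x k a₃ a₂ a₁ a₀) {P₃ P₂ P₁ P₀ : ℂ[X]}
    (hz : aeval x P₃ * T 1 ^ 3 + aeval x P₂ * T 1 ^ 2 + aeval x P₁ * T 1 + aeval x P₀ = 0) :
    P₃ = 0 ∧ P₂ = 0 ∧ P₁ = 0 ∧ P₀ = 0 := by
  apply free_four (quartF_monic a₃ a₂ a₁ a₀) (quartF_natDegree _ _ _ _)
    (k := k) (by rcases h.hk with h | h <;> omega) (Or.inr (by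
      rw [quartF_coeff_zero]; exact h.h0))
  intro t v ht htv
  have h1 := congrArg (lev (Units.mk0 t ht)) hz
  have h2 : lev (Units.mk0 t ht) x = v := by rw [h.lev_iff]; exact htv
  simp only [map_add, map_mul, map_pow, lev_aeval, lev_T, zpow_one, Units.val_mk0, h2,
    map_zero] at h1
  exact h1

/-- functions constant on fibres -/
theorem const (h : Quart x k a₃ a₂ a₁ a₀) {z : ℂ[T;T⁻¹]}
    (hz : ∀ t s : ℂˣ, t ≠ s → lev t x = lev s x → lev t z = lev s z) :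
    ∃ G : ℂ[X], z = aeval x G := by
  obtain ⟨P₃, P₂, P₁, P₀, h1⟩ := h.span z
  obtain ⟨bad, hb, hg⟩ := h.exists_fibre
  have key : ∀ v ∉ bad, P₃.eval v = 0 ∧ P₂.eval v = 0 ∧ P₁.eval v = 0 := by
    intro v hv
    obtain ⟨t₁, t₂, t₃, t₄, hf, e1, e2, e3, e4⟩ := hg v hv
    have hval : ∀ t : ℂˣ, lev t x = v → lev t z = P₃.eval v * (t : ℂ) ^ 3 +
        P₂.eval v * (t : ℂ) ^ 2 + P₁.eval v * t + P₀.eval v := by
      intro t ht
      rw [h1]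
      simp only [map_add, map_mul, map_pow, lev_aeval, lev_T, zpow_one, ht]
    have d12 : t₂ ≠ t₁ := fun h => hf.d₁₂ (by rw [h])
    have d13 : t₃ ≠ t₁ := fun h => hf.d₁₃ (by rw [h])
    have d14 : t₄ ≠ t₁ := fun h => hf.d₁₄ (by rw [h])
    have f2 := hz t₂ t₁ d12 (by rw [e1, e2])
    have f3 := hz t₃ t₁ d13 (by rw [e1, e3])
    have f4 := hz t₄ t₁ d14 (by rw [e1, e4])
    rw [hval _ e2] at f2
    rw [hval _ e3] at f3
    rw [hval _ e4] at f4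
    obtain ⟨g1, g2, g3, _⟩ := cubic_zero (a₃ := P₃.eval v) (a₂ := P₂.eval v) (a₁ := P₁.eval v)
      (a₀ := P₀.eval v - lev t₁ z) hf.d₁₂ hf.d₁₃ hf.d₁₄ hf.d₂₃ hf.d₂₄ hf.d₃₄
      (by rw [hval _ e1]; ring) (by linear_combination f2) (by linear_combination f3)
      (by linear_combination f4)
    exact ⟨g1, g2, g3⟩
  refine ⟨P₀, ?_⟩
  rw [h1, zero_of_not_bad hb fun v hv => (key v hv).1, zero_of_not_bad hb fun v hv =>
    (key v hv).2.1, zero_of_not_bad hb fun v hv => (key v hv).2.2]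
  simp

/-- functions collinear with `T` on fibres -/
theorem collinear (h : Quart x k a₃ a₂ a₁ a₀) {z : ℂ[T;T⁻¹]}
    (hz : ∀ t s u : ℂˣ, t ≠ s → s ≠ u → u ≠ t → lev t x = lev s x → lev s x = lev u x →
      ((t : ℂ) - s) * lev u z + ((s : ℂ) - u) * lev t z + ((u : ℂ) - t) * lev s z = 0) :
    ∃ A B : ℂ[X], z = aeval x A * T 1 + aeval x B := by
  obtain ⟨P₃, P₂, P₁, P₀, h1⟩ := h.span z
  obtain ⟨bad, hb, hg⟩ := h.exists_fibre
  have key : ∀ v ∉ bad, P₃.eval v = 0 ∧ P₂.eval v = 0 := by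
    intro v hv
    obtain ⟨t₁, t₂, t₃, t₄, hf, e1, e2, e3, e4⟩ := hg v hv
    have hval : ∀ t : ℂˣ, lev t x = v → lev t z = P₃.eval v * (t : ℂ) ^ 3 +
        P₂.eval v * (t : ℂ) ^ 2 + P₁.eval v * t + P₀.eval v := by
      intro t ht
      rw [h1]
      simp only [map_add, map_mul, map_pow, lev_aeval, lev_T, zpow_one, ht]
    have d12 : t₁ ≠ t₂ := fun h => hf.d₁₂ (by rw [h])
    have d13 : t₁ ≠ t₃ := fun h => hf.d₁₃ (by rw [h])
    have d14 : t₁ ≠ t₄ := fun h => hf.d₁₄ (by rw [h])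
    have d23 : t₂ ≠ t₃ := fun h => hf.d₂₃ (by rw [h])
    have d24 : t₂ ≠ t₄ := fun h => hf.d₂₄ (by rw [h])
    have f3 := hz t₁ t₂ t₃ d12 d23 d13.symm (by rw [e1, e2]) (by rw [e2, e3])
    have f4 := hz t₁ t₂ t₄ d12 d24 d14.symm (by rw [e1, e2]) (by rw [e2, e4])
    have hd : (t₁ : ℂ) - t₂ ≠ 0 := sub_ne_zero.mpr hf.d₁₂
    obtain ⟨g1, g2, _, _⟩ := cubic_zero (a₃ := P₃.eval v * ((t₁ : ℂ) - t₂))
      (a₂ := P₂.eval v * ((t₁ : ℂ) - t₂))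
      (a₁ := P₁.eval v * ((t₁ : ℂ) - t₂) - (lev t₁ z - lev t₂ z))
      (a₀ := P₀.eval v * ((t₁ : ℂ) - t₂) + (lev t₁ z * t₂ - lev t₂ z * t₁))
      hf.d₁₂ hf.d₁₃ hf.d₁₄ hf.d₂₃ hf.d₂₄ hf.d₃₄
      (by rw [hval _ e1]; ring) (by rw [hval _ e2]; ring)
      (by linear_combination f3 - ((t₁ : ℂ) - t₂) * hval _ e3)
      (by linear_combination f4 - ((t₁ : ℂ) - t₂) * hval _ e4)
    exact ⟨(mul_eq_zero.mp g1).resolve_right hd, (mul_eq_zero.mp g2).resolve_right hd⟩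
  refine ⟨P₁, P₀, ?_⟩
  rw [h1, zero_of_not_bad hb fun v hv => (key v hv).1, zero_of_not_bad hb fun v hv =>
    (key v hv).2]
  simp

end Quart

end Pool.Agent.Helper34_CStar
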