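import Pool.Agent.Helper34_CStar.ClsThreeOne

/-!
# Functions of degree four with poles at both ends, continued
-/

namespace Pool.Agent.Helper34_CStar

open Polynomial LaurentPolynomial

/-- comparison of two functions on four points -/
theorem compare₄ {y1 y2 y3 y4 z1 z2 z3 z4 : ℂ} (h12 : (y3 - y4) * (z1 - z2) = (y1 - y2) * (z3 - z4))
    (h13 : (y2 - y4) * (z1 - z3) = (y1 - y3) * (z2 - z4))
    (h14 : (y2 - y3) * (z1 - z4) = (y1 - y4) * (z2 - z3)) :
    (y1 - y2) * (z3 - z1) = (y3 - y1) * (z1 - z2) ∧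
    (y1 - y2) * (z4 - z1) = (y4 - y1) * (z1 - z2) := by
  constructor <;> grind

variable {x : ℂ[T;T⁻¹]} {k : ℕ} {a₃ a₂ a₁ a₀ : ℂ}

namespace Quart

/-- a function collinear with a primitive function on fibres -/
theorem collinear_gen (h : Quart x k a₃ a₂ a₁ a₀) {z w : ℂ[T;T⁻¹]}
    (hsep : ∀ t s : ℂˣ, t ≠ s → lev t x = lev s x → lev t z ≠ lev s z)
    (hz : ∀ (v : ℂ) (t₁ t₂ t₃ t₄ : ℂˣ), Four (quartF a₃ a₂ a₁ a₀) k v t₁ t₂ t₃ t₄ →
      lev t₁ x = v → lev t₂ x = v → lev t₃ x = v → lev t₄ x = v →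
      (lev t₁ z - lev t₂ z) * (lev t₃ w - lev t₁ w) =
        (lev t₃ z - lev t₁ z) * (lev t₁ w - lev t₂ w) ∧
      (lev t₁ z - lev t₂ z) * (lev t₄ w - lev t₁ w) =
        (lev t₄ z - lev t₁ z) * (lev t₁ w - lev t₂ w))
    {Q₃ Q₂ Q₁ Q₀ : ℂ[X]} (hw : w = aeval x Q₃ * T 1 ^ 3 + aeval x Q₂ * T 1 ^ 2 +
      aeval x Q₁ * T 1 + aeval x Q₀) {r : ℂ} (hr : r ≠ 0)
    (hQ : Q₃ = Polynomial.C r ∨ Q₂ = Polynomial.C r ∨ Q₁ = Polynomial.C r) :
    ∃ A B : ℂ[X], z = aeval x A * w + aeval x B := by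
  obtain ⟨P₃, P₂, P₁, P₀, h1⟩ := h.span z
  obtain ⟨bad, hb, hg⟩ := h.exists_fibre
  have key : ∀ v ∉ bad, ∃ α β : ℂ, β ≠ 0 ∧ α * P₃.eval v = β * Q₃.eval v ∧
      α * P₂.eval v = β * Q₂.eval v ∧ α * P₁.eval v = β * Q₁.eval v := by
    intro v hv
    obtain ⟨t₁, t₂, t₃, t₄, hf, e1, e2, e3, e4⟩ := hg v hv
    have hval : ∀ t : ℂˣ, lev t x = v → lev t z = P₃.eval v * (t : ℂ) ^ 3 +
        P₂.eval v * (t : ℂ) ^ 2 + P₁.eval v * t + P₀.eval v := by
      intro t ht
      rw [h1]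
      simp only [map_add, map_mul, map_pow, lev_aeval, lev_T, zpow_one, ht]
    have hval' : ∀ t : ℂˣ, lev t x = v → lev t w = Q₃.eval v * (t : ℂ) ^ 3 +
        Q₂.eval v * (t : ℂ) ^ 2 + Q₁.eval v * t + Q₀.eval v := by
      intro t ht
      rw [hw]
      simp only [map_add, map_mul, map_pow, lev_aeval, lev_T, zpow_one, ht]
    obtain ⟨f3, f4⟩ := hz v t₁ t₂ t₃ t₄ hf e1 e2 e3 e4
    have d12 : t₁ ≠ t₂ := fun h => hf.d₁₂ (by rw [h])
    have hne := hsep t₁ t₂ d12 (by rw [e1, e2])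
    obtain ⟨g3, g2, g1, _⟩ := cubic_zero
      (a₃ := (lev t₁ w - lev t₂ w) * P₃.eval v - (lev t₁ z - lev t₂ z) * Q₃.eval v)
      (a₂ := (lev t₁ w - lev t₂ w) * P₂.eval v - (lev t₁ z - lev t₂ z) * Q₂.eval v)
      (a₁ := (lev t₁ w - lev t₂ w) * P₁.eval v - (lev t₁ z - lev t₂ z) * Q₁.eval v)
      (a₀ := (lev t₁ w - lev t₂ w) * (P₀.eval v - lev t₁ z) -
        (lev t₁ z - lev t₂ z) * (Q₀.eval v - lev t₁ w))
      hf.d₁₂ hf.d₁₃ hf.d₁₄ hf.d₂₃ hf.d₂₄ hf.d₃₄
      (by linear_combination (-(lev t₁ w - lev t₂ w)) * hval _ e1 +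
            (lev t₁ z - lev t₂ z) * hval' _ e1)
      (by linear_combination (-(lev t₁ w - lev t₂ w)) * hval _ e2 +
            (lev t₁ z - lev t₂ z) * hval' _ e2)
      (by linear_combination (-(lev t₁ w - lev t₂ w)) * hval _ e3 +
            (lev t₁ z - lev t₂ z) * hval' _ e3 - f3)
      (by linear_combination (-(lev t₁ w - lev t₂ w)) * hval _ e4 +
            (lev t₁ z - lev t₂ z) * hval' _ e4 - f4)
    exact ⟨lev t₁ w - lev t₂ w, lev t₁ z - lev t₂ z, sub_ne_zero.mpr hne, sub_eq_zero.mp g3,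
      sub_eq_zero.mp g2, sub_eq_zero.mp g1⟩
  have cross : ∀ v ∉ bad, P₃.eval v * Q₂.eval v = P₂.eval v * Q₃.eval v ∧
      P₃.eval v * Q₁.eval v = P₁.eval v * Q₃.eval v ∧
      P₂.eval v * Q₁.eval v = P₁.eval v * Q₂.eval v := by
    intro v hv
    obtain ⟨α, β, hβ, g3, g2, g1⟩ := key v hv
    refine ⟨?_, ?_, ?_⟩ <;> apply mul_left_cancel₀ hβ
    · linear_combination (-P₃.eval v) * g2 + P₂.eval v * g3
    · linear_combination (-P₃.eval v) * g1 + P₁.eval v * g3
    · linear_combination (-P₂.eval v) * g1 + P₁.eval v * g2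
  have c32 : P₃ * Q₂ - P₂ * Q₃ = 0 := zero_of_not_bad hb fun v hv => by
    rw [eval_sub, eval_mul, eval_mul, (cross v hv).1, sub_self]
  have c31 : P₃ * Q₁ - P₁ * Q₃ = 0 := zero_of_not_bad hb fun v hv => by
    rw [eval_sub, eval_mul, eval_mul, (cross v hv).2.1, sub_self]
  have c21 : P₂ * Q₁ - P₁ * Q₂ = 0 := zero_of_not_bad hb fun v hv => by
    rw [eval_sub, eval_mul, eval_mul, (cross v hv).2.2, sub_self]
  have hrr : (Polynomial.C r⁻¹ : ℂ[X]) * Polynomial.C r = 1 := by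
    rw [← map_mul, inv_mul_cancel₀ hr, map_one]
  have fin : ∀ P : ℂ[X], P₃ = P * Q₃ → P₂ = P * Q₂ → P₁ = P * Q₁ →
      ∃ A B : ℂ[X], z = aeval x A * w + aeval x B := by
    intro P e3 e2 e1
    refine ⟨P, P₀ - P * Q₀, ?_⟩
    rw [h1, hw, e3, e2, e1]
    simp only [map_mul, map_sub]
    ring
  rcases hQ with hQ | hQ | hQ
  · apply fin (Polynomial.C r⁻¹ * P₃)
    · rw [hQ]; linear_combination (-P₃) * hrr
    · rw [hQ] at c32; linear_combination (-P₂) * hrr - Polynomial.C r⁻¹ * c32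
    · rw [hQ] at c31; linear_combination (-P₁) * hrr - Polynomial.C r⁻¹ * c31
  · apply fin (Polynomial.C r⁻¹ * P₂)
    · rw [hQ] at c32; linear_combination (-P₃) * hrr + Polynomial.C r⁻¹ * c32
    · rw [hQ]; linear_combination (-P₂) * hrr
    · rw [hQ] at c21; linear_combination (-P₁) * hrr - Polynomial.C r⁻¹ * c21
  · apply fin (Polynomial.C r⁻¹ * P₁)
    · rw [hQ] at c31; linear_combination (-P₃) * hrr + Polynomial.C r⁻¹ * c31
    · rw [hQ] at c21; linear_combination (-P₂) * hrr + Polynomial.C r⁻¹ * c21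
    · rw [hQ]; linear_combination (-P₁) * hrr

/-- the coefficient of a primitive function is constant -/
theorem unit_coeff (h : Quart x k a₃ a₂ a₁ a₀) {y w : ℂ[T;T⁻¹]}
    (hadj : Algebra.adjoin ℂ {x, y} = ⊤) {A B : ℂ[X]}
    (hy : y = aeval x A * w + aeval x B) : ∃ r : ℂ, r ≠ 0 ∧ A = Polynomial.C r := by
  by_contra hcon
  push Not at hcon
  obtain ⟨v, hv⟩ : ∃ v, A.eval v = 0 := by
    by_cases h0 : A.natDegree = 0
    · have h1 := eq_C_of_natDegree_eq_zero h0
      have h2 : A.coeff 0 = 0 := by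
        by_contra h2
        exact hcon _ h2 h1
      exact ⟨0, by rw [h1, h2]; simp⟩
    · obtain ⟨v, hv⟩ := IsAlgClosed.exists_root A (by
        intro h1
        exact h0 (natDegree_eq_of_degree_eq_some h1))
      exact ⟨v, hv⟩
  have hdvd : ∀ P : ℂ[X], (x - LaurentPolynomial.C v) ∣ aeval x P -
      LaurentPolynomial.C (P.eval v) := by
    intro P
    obtain ⟨Q, hQ⟩ := X_sub_C_dvd_sub_C_eval (p := P) (a := v)
    refine ⟨aeval x Q, ?_⟩
    have h1 := congrArg (aeval x) hQ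
    simpa only [map_sub, map_mul, aeval_C, aeval_X, ← LaurentPolynomial.C_eq_algebraMap] using h1
  have key : ∀ z ∈ Algebra.adjoin ℂ {x, y}, ∃ c : ℂ,
      (x - LaurentPolynomial.C v) ∣ z - LaurentPolynomial.C c := by
    intro z hz
    induction hz using Algebra.adjoin_induction with
    | mem z hz =>
      rcases hz with rfl | rfl
      · exact ⟨v, dvd_refl _⟩
      · refine ⟨B.eval v, ?_⟩
        have h1 := hdvd A
        rw [hv, map_zero, sub_zero] at h1
        have h2 := hdvd B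
        have h3 := dvd_add (h1.mul_right w) h2
        rw [hy]
        convert h3 using 1
        ring
    | algebraMap r =>
      refine ⟨r, ?_⟩
      rw [← LaurentPolynomial.C_eq_algebraMap, sub_self]
      exact dvd_zero _
    | add a b _ _ ha hb =>
      obtain ⟨c, hc⟩ := ha
      obtain ⟨d, hd⟩ := hb
      refine ⟨c + d, ?_⟩
      have h3 := dvd_add hc hd
      rw [map_add]
      convert h3 using 1
      ring
    | mul a b _ _ ha hb =>
      obtain ⟨c, hc⟩ := ha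
      obtain ⟨d, hd⟩ := hb
      refine ⟨c * d, ?_⟩
      have h3 := dvd_add (hc.mul_right b) (hd.mul_left (LaurentPolynomial.C c))
      rw [map_mul]
      convert h3 using 1
      ring
  obtain ⟨r, z, hz⟩ := key (T 1) (by rw [hadj]; trivial)
  set P : ℂ[X] := quartF a₃ a₂ a₁ a₀ - Polynomial.C v * X ^ k with hP
  have hk3 : k ≤ 3 := by rcases h.hk with h | h <;> omega
  have hlt : (Polynomial.C v * X ^ k : ℂ[X]).degree < (quartF a₃ a₂ a₁ a₀).degree := by
    rw [degree_eq_natDegree (quartF_monic a₃ a₂ a₁ a₀).ne_zero, quartF_natDegree]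
    refine lt_of_le_of_lt (degree_C_mul_X_pow_le _ _) ?_
    exact_mod_cast (by omega : k < 4)
  have hPm : P.Monic := (quartF_monic a₃ a₂ a₁ a₀).sub_of_left hlt
  have hPd : P.natDegree = 4 := by
    rw [← quartF_natDegree a₃ a₂ a₁ a₀]
    exact natDegree_eq_of_degree_eq (degree_sub_eq_left_of_degree_lt hlt)
  have hroot0 : ∀ t, P.eval t = 0 → t ≠ 0 := by
    rintro t ht rfl
    rw [hP, eval_sub, eval_mul, eval_C, eval_pow, eval_X, zero_pow (by
      rcases h.hk with h | h <;> omega), mul_zero, sub_zero, ← coeff_zero_eq_eval_zero,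
      quartF_coeff_zero] at ht
    exact h.h0 ht
  have hroot : ∀ t, P.eval t = 0 → t = r := by
    intro t ht
    have ht0 := hroot0 t ht
    have h1 : lev (Units.mk0 t ht0) x = v := by
      rw [h.lev_iff]
      rw [hP, eval_sub, eval_mul, eval_C, eval_pow, eval_X] at ht
      exact sub_eq_zero.mp ht
    have h2 := congrArg (lev (Units.mk0 t ht0)) hz
    rw [map_mul, map_sub, map_sub, h1, lev_C, lev_C, lev_T, zpow_one, Units.val_mk0,
      Algebra.algebraMap_self, RingHom.id_apply, RingHom.id_apply, sub_self, zero_mul] at h2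
    exact sub_eq_zero.mp h2
  obtain ⟨c, b, hc, hPb⟩ := eq_of_root hPm.ne_zero hroot
  have hb4 : b = 4 := by
    have h1 := congrArg natDegree hPb
    rw [hPd, natDegree_C_mul hc, natDegree_pow, natDegree_X_sub_C, mul_one] at h1
    exact h1.symm
  have hr0 : r ≠ 0 := by
    apply hroot0
    rw [hPb, hb4]; simp
  have h1 := congrArg toLaurent hPb
  rw [hP, map_sub, map_mul, map_mul, map_pow, map_pow, map_sub, toLaurent_C, toLaurent_C,
    toLaurent_C, toLaurent_X] at h1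
  have h2 : toLaurent (quartF a₃ a₂ a₁ a₀) = x * T 1 ^ k := by
    rw [h.eq, quartF]
    simp only [map_add, map_mul, map_pow, toLaurent_C, toLaurent_X]
  rw [h2, hb4] at h1
  have h3 : (T 1 - LaurentPolynomial.C r) * (T 1 ^ k) = (T 1 - LaurentPolynomial.C r) *
      (LaurentPolynomial.C c * (T 1 - LaurentPolynomial.C r) ^ 3 * z) := by
    linear_combination T 1 ^ k * hz + z * h1
  have h4 := mul_left_cancel₀ (sub_ne_zero.mpr (T_ne_C 1 one_ne_zero r)) h3
  have h5 := congrArg (lev (Units.mk0 r hr0)) h4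
  simp only [map_mul, map_pow, map_sub, lev_T, lev_C, zpow_one, Units.val_mk0,
    Algebra.algebraMap_self, RingHom.id_apply, sub_self] at h5
  rw [zero_pow (by norm_num), mul_zero, zero_mul] at h5
  exact pow_ne_zero k hr0 h5

end Quart

end Pool.Agent.Helper34_CStar
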