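import Pool.Agent.Helper34_CStar.Cmp40

/-!
# Reference functions on the fibres of a polynomial of degree four
-/

namespace Pool.Agent.Helper34_CStar

open Polynomial LaurentPolynomial

variable {α β γ : ℂ}

/-- the relation between the differences on the fibres -/
def Ref40 (α β γ : ℂ) (κ : ℤ) (ε : ℂ) (w : ℂ[T;T⁻¹]) : Prop :=
  ∀ (v : ℂ) (t₁ t₂ t₃ t₄ : ℂˣ), Fib40 α β γ v t₁ t₂ t₃ t₄ →
    (lev t₃ w - lev t₄ w) * ((t₁ : ℂ) - t₂) * ((t₃ : ℂ) * t₄) ^ κ =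
      ε * ((t₁ : ℂ) * t₂) ^ κ * (lev t₁ w - lev t₂ w) * ((t₃ : ℂ) - t₄)

theorem ref40_of_structure (hh : α ^ 3 - 4 * α * β + 8 * γ ≠ 0) {Y : ℂ[X]} {k : ℕ} (hk : 1 ≤ k)
    (hY : Y.coeff 0 ≠ 0)
    (hadj : Algebra.adjoin ℂ {x40 α β γ, toLaurent Y * T (-(k : ℤ))} = ⊤) :
    ∃ (κ : ℤ) (ε : ℂ), (ε = 1 ∨ ε = -1) ∧ (γ ≠ 0 → κ = k) ∧
      Ref40 α β γ κ ε (toLaurent Y * T (-(k : ℤ))) := by
  obtain ⟨c, m, n, hc, hn, hrel⟩ := forty_structure hh hk hY hadj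
  refine ⟨(k : ℤ) - n, (-1) ^ (m + n), ?_, ?_, ?_⟩
  · rcases Int.even_or_odd (m + n) with hm | hm
    · exact Or.inl hm.neg_one_zpow
    · exact Or.inr hm.neg_one_zpow
  · intro h; rw [hn h]; simp
  intro v t₁ t₂ t₃ t₄ hf
  have e1 := hf.eval₁
  have e2 := hf.swap₁₂.eval₁
  have e3 := hf.swapPairs.eval₁
  have e4 := hf.swapPairs.swap₁₂.eval₁
  obtain ⟨hθ12, h12⟩ := hrel t₁ t₂ hf.d₁₂ (by rw [e1, e2])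
  obtain ⟨hθ34, h34⟩ := hrel t₃ t₄ hf.d₃₄ (by rw [e3, e4])
  have hy : ∀ t : ℂˣ, (t : ℂ) ^ k * lev t (toLaurent Y * T (-(k : ℤ))) = Y.eval (t : ℂ) := by
    intro t
    have := lev_y t Y k
    rw [coe_aeval_eq_eval] at this
    rw [mul_comm]; exact this
  obtain ⟨y, hyy⟩ : ∃ y, y = toLaurent Y * T (-(k : ℤ)) := ⟨_, rfl⟩
  rw [← hyy] at hy ⊢
  have hP12 : ((t₁ : ℂ) * t₂) ≠ 0 := mul_ne_zero hf.ne₁ hf.ne₂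
  have hP34 : ((t₃ : ℂ) * t₄) ≠ 0 := mul_ne_zero hf.ne₃ hf.ne₄
  have g12 : ((t₁ : ℂ) * t₂) ^ k * (lev t₁ y - lev t₂ y) =
      c * (2 * ((t₁ : ℂ) + t₂) + α) ^ m * ((t₁ : ℂ) + t₂) ^ n * (t₁ - t₂) := by
    rw [← h12, ← hy t₁, ← hy t₂]; ring
  have g34 : ((t₃ : ℂ) * t₄) ^ k * (lev t₃ y - lev t₄ y) =
      c * (2 * ((t₃ : ℂ) + t₄) + α) ^ m * ((t₃ : ℂ) + t₄) ^ n * (t₃ - t₄) := by
    rw [← h34, ← hy t₃, ← hy t₄]; ring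
  have hθ : 2 * ((t₃ : ℂ) + t₄) + α = (-1) * (2 * ((t₁ : ℂ) + t₂) + α) := by
    linear_combination 2 * hf.s₁
  have hσ : ((t₃ : ℂ) + t₄) ^ n * ((t₁ : ℂ) * t₂) ^ n =
      (-1) ^ n * (((t₁ : ℂ) + t₂) ^ n * ((t₃ : ℂ) * t₄) ^ n) := by
    rw [← mul_pow, ← mul_pow, ← mul_pow]
    by_cases hγ : γ = 0
    · congr 1
      have := hf.s₃
      rw [hγ] at this
      linear_combination this
    · rw [hn hγ, pow_zero, pow_zero]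
  rw [hθ, mul_zpow] at g34
  have hs : ((-1 : ℂ)) ^ (m + n) = (-1) ^ m * (-1) ^ n := by
    rw [zpow_add₀ (by norm_num), zpow_natCast]
  rw [hs, zpow_sub₀ hP12, zpow_sub₀ hP34, zpow_natCast, zpow_natCast, zpow_natCast, zpow_natCast]
  have hP12n := pow_ne_zero n hP12
  have hP34n := pow_ne_zero n hP34
  rw [mul_div_assoc', mul_div_assoc', div_mul_eq_mul_div, div_mul_eq_mul_div,
    div_eq_div_iff hP34n hP12n]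
  linear_combination (((t₁ : ℂ) - t₂) * ((t₁ : ℂ) * t₂) ^ n) * g34 -
    ((-1) ^ m * (-1) ^ n * ((t₃ : ℂ) - t₄) * ((t₃ : ℂ) * t₄) ^ n) * g12 +
    (c * (-1) ^ m * (2 * ((t₁ : ℂ) + t₂) + α) ^ m * ((t₁ : ℂ) - t₂) * ((t₃ : ℂ) - t₄)) * hσ

theorem Ref40.mul_aeval {κ : ℤ} {ε : ℂ} {w : ℂ[T;T⁻¹]} (h : Ref40 α β γ κ ε w) (P : ℂ[X]) :
    Ref40 α β γ κ ε (aeval (x40 α β γ) P * w) := by
  intro v t₁ t₂ t₃ t₄ hf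
  have e1 := hf.eval₁
  have e2 := hf.swap₁₂.eval₁
  have e3 := hf.swapPairs.eval₁
  have e4 := hf.swapPairs.swap₁₂.eval₁
  have h1 := h v t₁ t₂ t₃ t₄ hf
  simp only [map_mul, lev_aeval40, e1, e2, e3, e4]
  linear_combination P.eval v * h1

theorem copl_of_ref40 {κ : ℤ} {ε : ℂ} (hε : ε ^ 2 = 1) {y : ℂ[T;T⁻¹]}
    (hadj : Algebra.adjoin ℂ {x40 α β γ, y} = ⊤) (h : Ref40 α β γ κ ε y) :
    Copl40 α β γ (2 * κ) := by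
  intro v t₁' t₂' t₃' t₄' hf
  obtain ⟨t₁, rfl⟩ : ∃ t : ℂˣ, (t : ℂ) = t₁' := ⟨Units.mk0 _ hf.ne₁, rfl⟩
  obtain ⟨t₂, rfl⟩ : ∃ t : ℂˣ, (t : ℂ) = t₂' := ⟨Units.mk0 _ hf.ne₂, rfl⟩
  obtain ⟨t₃, rfl⟩ : ∃ t : ℂˣ, (t : ℂ) = t₃' := ⟨Units.mk0 _ hf.ne₃, rfl⟩
  obtain ⟨t₄, rfl⟩ : ∃ t : ℂˣ, (t : ℂ) = t₄' := ⟨Units.mk0 _ hf.ne₄, rfl⟩
  have s12 := sub_ne_zero.mpr hf.d₁₂
  have s13 := sub_ne_zero.mpr hf.d₁₃
  have s14 := sub_ne_zero.mpr hf.d₁₄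
  have s23 := sub_ne_zero.mpr hf.d₂₃
  have s24 := sub_ne_zero.mpr hf.d₂₄
  have s34 := sub_ne_zero.mpr hf.d₃₄
  have e1 := hf.eval₁
  have e4 := hf.swapPairs.swap₁₂.eval₁
  have hne : lev t₁ y ≠ lev t₄ y := by
    apply sep40 hadj t₁ t₄ _ (by rw [e1, e4])
    intro e; apply hf.d₁₄; rw [e]
  have c12 := h v t₁ t₂ t₃ t₄ hf
  have c13 := h v t₁ t₃ t₂ t₄ hf.swap₂₃
  have c14 := h v t₁ t₄ t₂ t₃ hf.swap₃₄.swap₂₃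
  rw [mul_zpow, mul_zpow] at c12 c13 c14
  have e : ∀ t : ℂ, t ^ (2 * κ) = (t ^ κ) ^ 2 := by
    intro t; rw [mul_comm, zpow_mul, zpow_ofNat]
  rw [e, e, e, e]
  apply det_zero₂ (E12 := (lev t₁ y - lev t₂ y) / (t₁ - t₂))
    (E13 := (lev t₁ y - lev t₃ y) / (t₁ - t₃)) (E14 := (lev t₁ y - lev t₄ y) / (t₁ - t₄))
    (E23 := (lev t₂ y - lev t₃ y) / (t₂ - t₃)) (E24 := (lev t₂ y - lev t₄ y) / (t₂ - t₄))
    (E34 := (lev t₃ y - lev t₄ y) / (t₃ - t₄)) hε (zpow_ne_zero _ hf.ne₁) (zpow_ne_zero _ hf.ne₂)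
    (zpow_ne_zero _ hf.ne₃) (zpow_ne_zero _ hf.ne₄) (div_ne_zero (sub_ne_zero.mpr hne) s14)
  · field_simp; linear_combination c12
  · field_simp; linear_combination c13
  · field_simp; linear_combination c14
  · field_simp; ring
  · field_simp; ring
  · field_simp; ring

theorem compare40 {κ : ℤ} {ε : ℂ} {y w : ℂ[T;T⁻¹]}
    (hadj : Algebra.adjoin ℂ {x40 α β γ, y} = ⊤) (h : Ref40 α β γ κ ε y)
    (h' : Ref40 α β γ κ ε w)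
    {Q₃ Q₂ Q₁ Q₀ : ℂ[X]} (hw : w = aeval (x40 α β γ) Q₃ * T 1 ^ 3 +
      aeval (x40 α β γ) Q₂ * T 1 ^ 2 + aeval (x40 α β γ) Q₁ * T 1 + aeval (x40 α β γ) Q₀)
    {r : ℂ} (hr : r ≠ 0) (hQ : Q₃ = Polynomial.C r ∨ Q₂ = Polynomial.C r ∨ Q₁ = Polynomial.C r) :
    ∃ (N : ℕ) (A B : ℂ[X]), x40 α β γ ^ N * y = aeval (x40 α β γ) A * w +
      aeval (x40 α β γ) B := by
  refine collinear40 hadj ?_ hw hr hQ
  have hpair : ∀ (v : ℂ) (t₁ t₂ t₃ t₄ : ℂˣ), Fib40 α β γ v t₁ t₂ t₃ t₄ →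
      (lev t₃ y - lev t₄ y) * (lev t₁ w - lev t₂ w) =
        (lev t₁ y - lev t₂ y) * (lev t₃ w - lev t₄ w) := by
    intro v t₁ t₂ t₃ t₄ hf
    have s12 := sub_ne_zero.mpr hf.d₁₂
    have s34 := sub_ne_zero.mpr hf.d₃₄
    have h1 := h v t₁ t₂ t₃ t₄ hf
    have h2 := h' v t₁ t₂ t₃ t₄ hf
    have hP34 := zpow_ne_zero κ (mul_ne_zero hf.ne₃ hf.ne₄)
    have hne := mul_ne_zero s12 hP34
    apply mul_left_cancel₀ hne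
    linear_combination (lev t₁ w - lev t₂ w) * h1 - (lev t₁ y - lev t₂ y) * h2
  intro v t₁ t₂ t₃ t₄ hf
  exact compare₄ (hpair v t₁ t₂ t₃ t₄ hf) (hpair v t₁ t₃ t₂ t₄ hf.swap₂₃)
    (hpair v t₁ t₄ t₂ t₃ hf.swap₃₄.swap₂₃)

end Pool.Agent.Helper34_CStar
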