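import Pool.Agent.Helper34_CStar.Unique2

/-!
# Four cubic or quadratic relations and the truncations of their solutions
-/

namespace Pool.Agent.Helper34_CStar

open Polynomial LaurentPolynomial

/-- the four relations between `w` and `x` -/
def rel {S : Type*} [CommRing S] (j : Fin 4) (x w : S) : S :=
  match j with
  | 0 => w ^ 2 - w - x
  | 1 => w ^ 3 - w ^ 2 - x
  | 2 => w ^ 3 - (x + w) ^ 2
  | 3 => x * w ^ 3 + w - 1

/-- the divided difference of `rel` -/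
def relD {S : Type*} [CommRing S] (j : Fin 4) (x w w' : S) : S :=
  match j with
  | 0 => w + w' - 1
  | 1 => w ^ 2 + w * w' + w' ^ 2 - (w + w')
  | 2 => w ^ 2 + w * w' + w' ^ 2 - (w + w') - (x + x)
  | 3 => x * (w ^ 2 + w * w' + w' ^ 2) + 1

section

variable {S : Type*} [CommRing S]

theorem rel_sub (j : Fin 4) (x w w' : S) : rel j x w - rel j x w' = (w - w') * relD j x w w' := by
  fin_cases j <;> simp only [rel, relD] <;> ring

theorem relD_one (j : Fin 4) (x w w' : S) :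
    ∃ a b c : S, relD j x w w' = 1 + x * a + (w - 1) * b + (w' - 1) * c := by
  fin_cases j <;> simp only [relD]
  · exact ⟨0, 1, 1, by ring⟩
  · exact ⟨0, w + w', w' + 1, by ring⟩
  · exact ⟨-2, w + w', w' + 1, by ring⟩
  · exact ⟨w ^ 2 + w * w' + w' ^ 2, 0, 0, by ring⟩

theorem rel_one (j : Fin 4) (x : S) : ∃ a : S, rel j x 1 = x * a := by
  fin_cases j <;> simp only [rel]
  · exact ⟨-1, by ring⟩
  · exact ⟨-1, by ring⟩
  · exact ⟨-x - 2, by ring⟩
  · exact ⟨1, by ring⟩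

theorem map_rel {S' F : Type*} [CommRing S'] [FunLike F S S'] [RingHomClass F S S'] (φ : F)
    (j : Fin 4) (x w : S) : φ (rel j x w) = rel j (φ x) (φ w) := by
  fin_cases j <;> simp [rel]

theorem map_relD {S' F : Type*} [CommRing S'] [FunLike F S S'] [RingHomClass F S S'] (φ : F)
    (j : Fin 4) (x w w' : S) : φ (relD j x w w') = relD j (φ x) (φ w) (φ w') := by
  fin_cases j <;> simp [relD]

end

/-- the parameter expressions of `x` -/
noncomputable def x₀ (j : Fin 4) : ℂ[T;T⁻¹] :=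
  match j with
  | 0 => T 1 ^ 2 - T 1
  | 1 => T 1 ^ 3 - T 1 ^ 2
  | 2 => T 1 ^ 3 - T 1 ^ 2
  | 3 => T 1 ^ 3 - T 1 ^ 2

/-- the parameter expressions of `w` -/
noncomputable def w₀ (j : Fin 4) : ℂ[T;T⁻¹] :=
  match j with
  | 0 => T 1
  | 1 => T 1
  | 2 => T 1 ^ 2
  | 3 => T (-1)

theorem rel_std (j : Fin 4) : rel j (x₀ j) (w₀ j) = 0 := by
  have h := T_mul_T_neg
  fin_cases j <;> simp only [rel, x₀, w₀]
  · ring
  · ring
  · ring
  · linear_combination (1 + T 1 * T (-1) + T 1 ^ 2 * T (-1) ^ 2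
      - T (-1) * (1 + T 1 * T (-1))) * h

/-- the relation with `w ≡ 1` modulo `x` gives the parameter -/
theorem rel_unit (j : Fin 4) {S : Type*} [CommRing S] [Algebra ℂ S] {x w A : S}
    (h : rel j x w = 0) (hw : w = 1 + x * A) :
    ∃ u : Sˣ, lev u (x₀ j) = x ∧ lev u (w₀ j) = w := by
  fin_cases j <;> simp only [rel, x₀, w₀] at h ⊢
  · have h1 : w * (1 - (w - 1) * A) = 1 := by
      linear_combination -A * h + hw
    obtain ⟨u, hu, hu'⟩ := unit_mul_inv h1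
    refine ⟨u, ?_, ?_⟩
    · rw [map_sub, map_pow, lev_T, zpow_one, hu]; linear_combination h
    · rw [lev_T, zpow_one, hu]
  · have h1 : w * (1 - (w ^ 2 - w) * A) = 1 := by
      linear_combination -A * h + hw
    obtain ⟨u, hu, hu'⟩ := unit_mul_inv h1
    refine ⟨u, ?_, ?_⟩
    · rw [map_sub, map_pow, map_pow, lev_T, zpow_one, hu]; linear_combination h
    · rw [lev_T, zpow_one, hu]
  · have h1 : w * (2 - w + (w ^ 2 - 2 * x - w) * A ^ 2) = 1 := by
      linear_combination A ^ 2 * h - (w - 1 + x * A) * hw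
    obtain ⟨v, hv⟩ : ∃ v, v = 2 - w + (w ^ 2 - 2 * x - w) * A ^ 2 := ⟨_, rfl⟩
    rw [← hv] at h1
    -- `t = (x + w) v`
    have h2 : (x + w) * v * ((x + w) * v * v) = 1 := by
      linear_combination (-v ^ 3) * h + (w ^ 2 * v ^ 2 + w * v + 1) * h1
    obtain ⟨u, hu, hu'⟩ := unit_mul_inv h2
    have h3 : ((x + w) * v) ^ 2 = w := by
      linear_combination (-v ^ 2) * h + w * (w * v + 1) * h1
    refine ⟨u, ?_, ?_⟩
    · rw [map_sub, map_pow, map_pow, lev_T, zpow_one, hu]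
      linear_combination ((x + w) * v - 1) * h3 + (x + w) * h1
    · rw [map_pow, lev_T, zpow_one, hu, h3]
  · have h1 : (x * w ^ 2 + 1) * w = 1 := by linear_combination h
    obtain ⟨u, hu, hu'⟩ := unit_mul_inv h1
    refine ⟨u, ?_, ?_⟩
    · rw [map_sub, map_pow, map_pow, lev_T, zpow_one, hu]
      obtain ⟨v, hv⟩ : ∃ v, v = x * w ^ 2 + 1 := ⟨_, rfl⟩
      rw [← hv] at h1 ⊢
      linear_combination (-v ^ 3) * h + (v ^ 2 + x * (v ^ 2 * w ^ 2 + v * w + 1)) * h1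
    · rw [lev_T]; simpa using hu'

theorem rel_rigid (j : Fin 4) {τ : (ℂ[T;T⁻¹])ˣ} (h0 : lev τ (x₀ j) = x₀ j)
    (h1 : lev τ (w₀ j) = w₀ j) : (τ : ℂ[T;T⁻¹]) = T 1 := by
  fin_cases j <;> simp only [x₀, w₀] at h0 h1
  · rwa [lev_T, zpow_one] at h1
  · rwa [lev_T, zpow_one] at h1
  · rw [map_pow, lev_T, zpow_one] at h1
    rw [map_sub, map_pow, map_pow, lev_T, zpow_one] at h0
    have h2 : (τ : ℂ[T;T⁻¹]) ^ 3 = T 1 ^ 3 := by linear_combination h0 + h1
    have h3 : ((τ : ℂ[T;T⁻¹]) - T 1) * T 1 ^ 2 = 0 := by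
      linear_combination h2 - (τ : ℂ[T;T⁻¹]) * h1
    have h4 := T_mul_T_neg
    have h5 : (τ : ℂ[T;T⁻¹]) - T 1 = 0 := by
      linear_combination T (-1) ^ 2 * h3 - ((τ : ℂ[T;T⁻¹]) - T 1) * (T 1 * T (-1) + 1) * h4
    exact sub_eq_zero.mp h5
  · apply unit_eq_T
    rw [lev_T] at h1
    simpa using h1

/-- `q` is the `i`-th truncated equation of type `j` -/
def IsTrunc (j : Fin 4) (i : ℕ) (q : P2) : Prop :=
  ∃ τ : ℂ[X], τ.natDegree < i ∧ τ.coeff 0 = 1 ∧
    MvPolynomial.X 0 ^ i * q =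
      rel j (MvPolynomial.X 0) (MvPolynomial.X 0 ^ i * MvPolynomial.X 1 +
        aeval (MvPolynomial.X 0 : P2) τ)

theorem aeval_eq_one_add {S : Type*} [CommRing S] [Algebra ℂ S] {τ : ℂ[X]} (h : τ.coeff 0 = 1)
    (x : S) : ∃ A : S, aeval x τ = 1 + x * A := by
  obtain ⟨σ, hσ⟩ : (X : ℂ[X]) ∣ τ - Polynomial.C 1 := by
    rw [X_dvd_iff, coeff_sub, coeff_C_zero, h, sub_self]
  refine ⟨aeval x σ, ?_⟩
  have : τ = Polynomial.C 1 + X * σ := by rw [← hσ]; ring
  rw [this, map_add, map_mul, aeval_C, aeval_X, map_one]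

/-- the solution of the relation as a truncated series: existence -/
theorem exists_series (j : Fin 4) (i : ℕ) (hi : 1 ≤ i) :
    ∃ τ : ℂ[X], τ.natDegree < i ∧ τ.coeff 0 = 1 ∧ X ^ i ∣ rel j X τ := by
  induction i, hi using Nat.le_induction with
  | base =>
    refine ⟨1, by simp, by simp, ?_⟩
    obtain ⟨a, ha⟩ := rel_one j (X : ℂ[X])
    rw [ha, pow_one]
    exact Dvd.intro _ rfl
  | succ i hi ih =>
    obtain ⟨τ, hd, h0, ρ, hρ⟩ := ih
    set c := -ρ.coeff 0 with hc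
    set τ' := τ + Polynomial.C c * X ^ i with hτ'
    have h0' : τ'.coeff 0 = 1 := by
      rw [hτ', coeff_add, coeff_C_mul, coeff_X_pow, if_neg (by omega), mul_zero, add_zero, h0]
    refine ⟨τ', ?_, h0', ?_⟩
    · refine lt_of_le_of_lt (natDegree_add_le _ _) ?_
      have : (Polynomial.C c * X ^ i : ℂ[X]).natDegree ≤ i := natDegree_C_mul_X_pow_le _ _
      omega
    · have h1 := rel_sub j (X : ℂ[X]) τ' τ
      obtain ⟨a, b, e, hD⟩ := relD_one j (X : ℂ[X]) τ' τ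
      have h2 : rel j (X : ℂ[X]) τ' = X ^ i * (ρ + Polynomial.C c * relD j X τ' τ) := by
        have : τ' - τ = Polynomial.C c * X ^ i := by rw [hτ']; ring
        rw [this] at h1
        linear_combination h1 + hρ
      rw [h2, pow_succ]
      apply mul_dvd_mul_left
      rw [X_dvd_iff, hD, coeff_zero_eq_eval_zero]
      rw [coeff_zero_eq_eval_zero] at h0 h0' hc
      simp only [eval_add, eval_mul, eval_C, eval_X, eval_one, eval_sub, h0, h0', zero_mul,
        sub_self, add_zero, mul_one]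
      rw [hc]; ring

/-- the solution of the relation as a truncated series: uniqueness -/
theorem series_unique (j : Fin 4) {i : ℕ} {τ τ' : ℂ[X]} (hd : τ.natDegree < i)
    (hd' : τ'.natDegree < i) (h0 : τ.coeff 0 = 1) (h0' : τ'.coeff 0 = 1)
    (h : X ^ i ∣ rel j X τ) (h' : X ^ i ∣ rel j X τ') : τ = τ' := by
  have h1 := dvd_sub h h'
  rw [rel_sub] at h1
  obtain ⟨a, b, e, hD⟩ := relD_one j (X : ℂ[X]) τ τ'
  have hc : IsCoprime ((X : ℂ[X]) ^ i) (relD j X τ τ') := by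
    apply IsCoprime.pow_left
    rw [Polynomial.irreducible_X.coprime_iff_not_dvd]
    rw [X_dvd_iff, hD, coeff_zero_eq_eval_zero]
    rw [coeff_zero_eq_eval_zero] at h0 h0'
    simp [h0, h0']
  have h2 := hc.dvd_of_dvd_mul_right h1
  by_contra hne
  have h3 := natDegree_le_of_dvd h2 (sub_ne_zero.mpr hne)
  rw [natDegree_X_pow] at h3
  have h4 := natDegree_sub_le τ τ'
  omega

theorem rel_trunc_dvd (j : Fin 4) {i : ℕ} {τ : ℂ[X]} (h : X ^ i ∣ rel j X τ) :
    ∃ q : P2, MvPolynomial.X 0 ^ i * q = rel j (MvPolynomial.X 0) (MvPolynomial.X 0 ^ i *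
      MvPolynomial.X 1 + aeval (MvPolynomial.X 0 : P2) τ) := by
  obtain ⟨ρ, hρ⟩ := h
  have h1 := congrArg (aeval (MvPolynomial.X 0 : P2)) hρ
  rw [map_rel, map_mul, map_pow, aeval_X] at h1
  have h2 := rel_sub j (MvPolynomial.X 0 : P2) (MvPolynomial.X 0 ^ i *
      MvPolynomial.X 1 + aeval (MvPolynomial.X 0 : P2) τ) (aeval (MvPolynomial.X 0 : P2) τ)
  refine ⟨MvPolynomial.X 1 * relD j (MvPolynomial.X 0 : P2) (MvPolynomial.X 0 ^ i *
      MvPolynomial.X 1 + aeval (MvPolynomial.X 0 : P2) τ) (aeval (MvPolynomial.X 0 : P2) τ) +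
      aeval (MvPolynomial.X 0 : P2) ρ, ?_⟩
  linear_combination (-h2) - h1

theorem dvd_of_trunc (j : Fin 4) {i : ℕ} {τ : ℂ[X]} {q : P2}
    (h : MvPolynomial.X 0 ^ i * q = rel j (MvPolynomial.X 0) (MvPolynomial.X 0 ^ i *
      MvPolynomial.X 1 + aeval (MvPolynomial.X 0 : P2) τ)) : X ^ i ∣ rel j X τ := by
  have h1 := congrArg (hom2 (X : ℂ[X]) (0 : ℂ[X])) h
  rw [map_rel, map_add, map_mul, map_mul, map_pow, hom2_X0, hom2_X1, mul_zero, zero_add,
    hom2_aeval, hom2_X0, aeval_X_left_apply] at h1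
  exact Dvd.intro _ h1

/-- for each `i ≥ 1` and each type there is exactly one truncated equation -/
theorem existsUnique_trunc (j : Fin 4) {i : ℕ} (hi : 1 ≤ i) : ∃! q : P2, IsTrunc j i q := by
  obtain ⟨τ, hd, h0, hdvd⟩ := exists_series j i hi
  obtain ⟨q, hq⟩ := rel_trunc_dvd j hdvd
  refine ⟨q, ⟨τ, hd, h0, hq⟩, ?_⟩
  rintro q' ⟨τ', hd', h0', hq'⟩
  have h1 := series_unique j hd hd' h0 h0' hdvd (dvd_of_trunc j hq')
  rw [← h1, ← hq] at hq'
  exact mul_left_cancel₀ (pow_ne_zero i (MvPolynomial.X_ne_zero 0)) hq'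

end Pool.Agent.Helper34_CStar
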