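import Pool.Agent.Helper34_CStar.ClsDeg

/-!
# Six quartic relations and the truncations of their solutions
-/

namespace Pool.Agent.Helper34_CStar

open Polynomial LaurentPolynomial

/-- the six relations between `w` and `x` -/
def rel₄ {S : Type*} [CommRing S] (j : Fin 6) (x w : S) : S :=
  match j with
  | 0 => w ^ 4 - w ^ 3 - x
  | 1 => x * w ^ 4 + w - 1
  | 2 => (w ^ 2 - x) ^ 2 - w ^ 3
  | 3 => w - (1 - x * w ^ 2) ^ 2
  | 4 => w ^ 4 - w ^ 3 - 8 * x * w ^ 2 + 4 * x * w + 16 * x ^ 2 + x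
  | 5 => w ^ 4 - (x + w) ^ 3

/-- the divided difference of `rel₄` -/
def relD₄ {S : Type*} [CommRing S] (j : Fin 6) (x w w' : S) : S :=
  match j with
  | 0 => w ^ 3 + w ^ 2 * w' + w * w' ^ 2 + w' ^ 3 - (w ^ 2 + w * w' + w' ^ 2)
  | 1 => x * (w ^ 3 + w ^ 2 * w' + w * w' ^ 2 + w' ^ 3) + 1
  | 2 => (w + w') * (w ^ 2 + w' ^ 2 - 2 * x) - (w ^ 2 + w * w' + w' ^ 2)
  | 3 => 1 + x * ((w + w') * (2 - x * (w ^ 2 + w' ^ 2)))
  | 4 => w ^ 3 + w ^ 2 * w' + w * w' ^ 2 + w' ^ 3 - (w ^ 2 + w * w' + w' ^ 2) -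
      8 * x * (w + w') + 4 * x
  | 5 => w ^ 3 + w ^ 2 * w' + w * w' ^ 2 + w' ^ 3 -
      ((x + w) ^ 2 + (x + w) * (x + w') + (x + w') ^ 2)

section

variable {S : Type*} [CommRing S]

theorem rel₄_sub (j : Fin 6) (x w w' : S) :
    rel₄ j x w - rel₄ j x w' = (w - w') * relD₄ j x w w' := by
  fin_cases j <;> simp only [rel₄, relD₄] <;> ring

theorem relD₄_one (j : Fin 6) (x w w' : S) :
    ∃ a b c : S, relD₄ j x w w' = 1 + x * a + (w - 1) * b + (w' - 1) * c := by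
  fin_cases j <;> simp only [relD₄]
  · exact ⟨0, w ^ 2 + w * w' + w' ^ 2, w' ^ 2 + w' + 1, by ring⟩
  · exact ⟨w ^ 3 + w ^ 2 * w' + w * w' ^ 2 + w' ^ 3, 0, 0, by ring⟩
  · exact ⟨-2 * (w + w'), w ^ 2 + w * w' + w' ^ 2, w' ^ 2 + w' + 1, by ring⟩
  · exact ⟨(w + w') * (2 - x * (w ^ 2 + w' ^ 2)), 0, 0, by ring⟩
  · exact ⟨-8 * (w + w') + 4, w ^ 2 + w * w' + w' ^ 2, w' ^ 2 + w' + 1, by ring⟩
  · exact ⟨-(3 * x + 3 * w + 3 * w'), w ^ 2 + w * w' + w' ^ 2, w' ^ 2 + w' + 1, by ring⟩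

theorem rel₄_one (j : Fin 6) (x : S) : ∃ a : S, rel₄ j x 1 = x * a := by
  fin_cases j <;> simp only [rel₄]
  · exact ⟨-1, by ring⟩
  · exact ⟨1, by ring⟩
  · exact ⟨x - 2, by ring⟩
  · exact ⟨2 - x, by ring⟩
  · exact ⟨16 * x - 3, by ring⟩
  · exact ⟨-(3 + 3 * x + x ^ 2), by ring⟩

theorem map_rel₄ {S' F : Type*} [CommRing S'] [FunLike F S S'] [RingHomClass F S S'] (φ : F)
    (j : Fin 6) (x w : S) : φ (rel₄ j x w) = rel₄ j (φ x) (φ w) := by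
  fin_cases j <;> simp [rel₄, map_ofNat]

theorem map_relD₄ {S' F : Type*} [CommRing S'] [FunLike F S S'] [RingHomClass F S S'] (φ : F)
    (j : Fin 6) (x w w' : S) : φ (relD₄ j x w w') = relD₄ j (φ x) (φ w) (φ w') := by
  fin_cases j <;> simp [relD₄, map_ofNat]

end

/-- the parameter expression of `x` -/
noncomputable def x₄ (_ : Fin 6) : ℂ[T;T⁻¹] := T 1 ^ 4 - T 1 ^ 3

/-- the parameter expressions of `w` -/
noncomputable def w₄ (j : Fin 6) : ℂ[T;T⁻¹] :=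
  match j with
  | 0 => T 1
  | 1 => T (-1)
  | 2 => T 1 ^ 2
  | 3 => T (-1) ^ 2
  | 4 => 2 * T 1 ^ 2 - T 1
  | 5 => T 1 ^ 3

theorem rel₄_std (j : Fin 6) : rel₄ j (x₄ j) (w₄ j) = 0 := by
  have h := T_mul_T_neg
  fin_cases j <;> simp only [rel₄, x₄, w₄] <;> grind

/-- the relation with `w ≡ 1` modulo `x` gives the parameter -/
theorem rel₄_unit (j : Fin 6) {S : Type*} [CommRing S] [Algebra ℂ S] {x w A : S}
    (h : rel₄ j x w = 0) (hw : w = 1 + x * A) :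
    ∃ u : Sˣ, lev u (x₄ j) = x ∧ lev u (w₄ j) = w := by
  have key : ∀ t t' : S, t * t' = 1 → t ^ 4 - t ^ 3 = x →
      ((j = 0 → t = w) ∧ (j = 1 → t' = w) ∧ (j = 2 → t ^ 2 = w) ∧ (j = 3 → t' ^ 2 = w) ∧
        (j = 4 → 2 * t ^ 2 - t = w) ∧ (j = 5 → t ^ 3 = w)) →
      ∃ u : Sˣ, lev u (x₄ j) = x ∧ lev u (w₄ j) = w := by
    intro t t' h1 h2 h3
    obtain ⟨u, hu, hu'⟩ := unit_mul_inv h1
    refine ⟨u, ?_, ?_⟩
    · rw [x₄, map_sub, map_pow, map_pow, lev_T, zpow_one, hu, h2]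
    · obtain ⟨h30, h31, h32, h33, h34, h35⟩ := h3
      fin_cases j <;> simp only [w₄]
      · rw [lev_T, zpow_one, hu]; exact h30 rfl
      · rw [lev_T, zpow_neg, zpow_one, hu']; exact h31 rfl
      · rw [map_pow, lev_T, zpow_one, hu]; exact h32 rfl
      · rw [map_pow, lev_T, zpow_neg, zpow_one, hu']; exact h33 rfl
      · rw [map_sub, map_mul, map_ofNat, map_pow, lev_T, zpow_one, hu]; exact h34 rfl
      · rw [map_pow, lev_T, zpow_one, hu]; exact h35 rfl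
  fin_cases j <;> simp only [rel₄] at h
  · apply key w (1 - (w ^ 3 - w ^ 2) * A)
    · linear_combination -A * h + hw
    · linear_combination h
    · simp
  · apply key (1 + x * w ^ 3) w
    · linear_combination h
    · have h1 : (1 + x * w ^ 3) * w = 1 := by linear_combination h
      obtain ⟨v, hv⟩ : ∃ v, v = 1 + x * w ^ 3 := ⟨_, rfl⟩
      rw [← hv] at h1 ⊢
      linear_combination v ^ 3 * hv + x * (v ^ 2 * w ^ 2 + v * w + 1) * h1
    · simp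
  · have h1 : w * (w - 2 * x * A + w * (w - w ^ 2 + 2 * x) * A ^ 2) = 1 := by
      linear_combination -A ^ 2 * h + (w - x * A + 1) * hw
    obtain ⟨v, hv⟩ : ∃ v, v = w - 2 * x * A + w * (w - w ^ 2 + 2 * x) * A ^ 2 := ⟨_, rfl⟩
    rw [← hv] at h1
    have h2 : ((w ^ 2 - x) * v) ^ 2 = w := by
      linear_combination v ^ 2 * h + w * (w * v + 1) * h1
    apply key ((w ^ 2 - x) * v) ((w ^ 2 - x) * v * v)
    · linear_combination v * h2 + h1
    · linear_combination (((w ^ 2 - x) * v) ^ 2 + w - (w ^ 2 - x) * v) * h2 - (w ^ 2 - x) * h1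
    · simpa using h2
  · have h2 : (1 - x * w ^ 2) ^ 2 = w := by linear_combination -h
    obtain ⟨s, hs⟩ : ∃ s, s = 1 - x * w ^ 2 := ⟨_, rfl⟩
    rw [← hs] at h2
    have h1 : (1 + x * s ^ 3) * s = 1 := by
      linear_combination hs + x * (s ^ 2 + w) * h2
    apply key (1 + x * s ^ 3) s h1
    · obtain ⟨v, hv⟩ : ∃ v, v = 1 + x * s ^ 3 := ⟨_, rfl⟩
      rw [← hv] at h1 ⊢
      linear_combination v ^ 3 * hv + x * (v ^ 2 * s ^ 2 + v * s + 1) * h1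
    · simpa using h2
  · obtain ⟨t, ht⟩ : ∃ t, t = 2 * w ^ 2 - w - 8 * x := ⟨_, rfl⟩
    have h2 : t ^ 2 = w ^ 2 - 4 * x := by
      rw [ht]; linear_combination 4 * h
    have h3 : 2 * t ^ 2 - t = w := by linear_combination 2 * h2 - ht
    have hx4 : t ^ 4 - t ^ 3 = x := by
      have e : (algebraMap ℂ S 4⁻¹) * 4 = 1 := by
        rw [← map_ofNat (algebraMap ℂ S) 4, ← map_mul, inv_mul_cancel₀ (by norm_num), map_one]
      have e2 : 4 * (t ^ 4 - t ^ 3) = 4 * x := by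
        linear_combination (2 * t ^ 2 - t + w) * h3 - h2
      linear_combination algebraMap ℂ S 4⁻¹ * e2 + (x - (t ^ 4 - t ^ 3)) * e
    apply key t ((2 * t - 1) - (t ^ 3 - t ^ 2) * A) _ hx4
    · simpa using h3
    · linear_combination h3 + hw - A * hx4
  · obtain ⟨v, hv⟩ : ∃ v, v = w ^ 2 - 3 * w * x * A + 3 * x ^ 2 * A ^ 2 -
      (w ^ 3 - 3 * x ^ 2 - 3 * x * w - w ^ 2) * A ^ 3 := ⟨_, rfl⟩
    have h1 : w * v = 1 := by
      rw [hv]
      linear_combination -A ^ 3 * h + ((w - x * A) ^ 2 + (w - x * A) + 1) * hw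
    have h2 : ((x + w) * v) ^ 3 = w := by
      linear_combination (-v ^ 3) * h + w * (w ^ 2 * v ^ 2 + w * v + 1) * h1
    apply key ((x + w) * v) (((x + w) * v) ^ 2 * v)
    · linear_combination v * h2 + h1
    · linear_combination ((x + w) * v - 1) * h2 + (x + w) * h1
    · simpa using h2

theorem rel₄_rigid (j : Fin 6) {τ : (ℂ[T;T⁻¹])ˣ} (h0 : lev τ (x₄ j) = x₄ j)
    (h1 : lev τ (w₄ j) = w₄ j) : (τ : ℂ[T;T⁻¹]) = T 1 := by
  have hTT := T_mul_T_neg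
  have hττ : (τ : ℂ[T;T⁻¹]) * ((τ⁻¹ : (ℂ[T;T⁻¹])ˣ) : ℂ[T;T⁻¹]) = 1 := Units.mul_inv τ
  rw [x₄, map_sub, map_pow, map_pow, lev_T, zpow_one] at h0
  have e1 : ∀ t t' a b : ℂ[T;T⁻¹], a * b = 1 → t * t' = 1 → t ^ 4 - t ^ 3 = a ^ 4 - a ^ 3 →
      t' = b → t = a := by grind
  have e2 : ∀ t t' a b : ℂ[T;T⁻¹], a * b = 1 → t * t' = 1 → t ^ 4 - t ^ 3 = a ^ 4 - a ^ 3 →
      t ^ 2 = a ^ 2 → t = a := by grind
  have e3 : ∀ t t' a b : ℂ[T;T⁻¹], a * b = 1 → t * t' = 1 → t ^ 4 - t ^ 3 = a ^ 4 - a ^ 3 →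
      t' ^ 2 = b ^ 2 → t = a := by grind
  have e4 : ∀ t t' a b : ℂ[T;T⁻¹], a * b = 1 → t * t' = 1 → t ^ 4 - t ^ 3 = a ^ 4 - a ^ 3 →
      2 * t ^ 2 - t = 2 * a ^ 2 - a → t = a := by
    intro t t' a b _ _ h3 h4
    linear_combination (-8) * h3 + (2 * (2 * t ^ 2 - t + 2 * a ^ 2 - a) - 1) * h4
  have e5 : ∀ t t' a b : ℂ[T;T⁻¹], a * b = 1 → t * t' = 1 → t ^ 4 - t ^ 3 = a ^ 4 - a ^ 3 →
      t ^ 3 = a ^ 3 → t = a := by grind
  fin_cases j <;> simp only [w₄, map_pow, map_sub, map_mul, map_ofNat, lev_T, zpow_one,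
    zpow_neg] at h1
  · exact h1
  · exact e1 _ _ _ _ hTT hττ h0 h1
  · exact e2 _ _ _ _ hTT hττ h0 h1
  · exact e3 _ _ _ _ hTT hττ h0 h1
  · exact e4 _ _ _ _ hTT hττ h0 h1
  · exact e5 _ _ _ _ hTT hττ h0 h1

/-- `q` is the `i`-th truncated equation of type `j` -/
def IsTrunc₄ (j : Fin 6) (i : ℕ) (q : P2) : Prop :=
  ∃ τ : ℂ[X], τ.natDegree < i ∧ τ.coeff 0 = 1 ∧
    MvPolynomial.X 0 ^ i * q =
      rel₄ j (MvPolynomial.X 0) (MvPolynomial.X 0 ^ i * MvPolynomial.X 1 +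
        aeval (MvPolynomial.X 0 : P2) τ)

/-- the solution of the relation as a truncated series: existence -/
theorem exists_series₄ (j : Fin 6) (i : ℕ) (hi : 1 ≤ i) :
    ∃ τ : ℂ[X], τ.natDegree < i ∧ τ.coeff 0 = 1 ∧ X ^ i ∣ rel₄ j X τ := by
  induction i, hi using Nat.le_induction with
  | base =>
    refine ⟨1, by simp, by simp, ?_⟩
    obtain ⟨a, ha⟩ := rel₄_one j (X : ℂ[X])
    rw [ha, pow_one]
    exact Dvd.intro _ rfl
  | succ i hi ih =>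
    obtain ⟨τ, hd, h0, ρ, hρ⟩ := ih
    set c := -ρ.coeff 0 with hc
    set τ' := τ + Polynomial.C c * X ^ i with hτ'
    have h0' : τ'.coeff 0 = 1 := by
      rw [hτ', coeff_add, coeff_C_mul, coeff_X_pow, if_neg (by omega), mul_zero, add_zero, h0]
    refine ⟨τ', ?_, h0', ?_⟩
    · refine lt_of_le_of_lt (natDegree_add_le _ _) ?_
      have : (Polynomial.C c * X ^ i : ℂ[X]).natDegree ≤ i := natDegree_C_mul_X_pow_le _ _
      omega
    · have h1 := rel₄_sub j (X : ℂ[X]) τ' τ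
      obtain ⟨a, b, e, hD⟩ := relD₄_one j (X : ℂ[X]) τ' τ
      have h2 : rel₄ j (X : ℂ[X]) τ' = X ^ i * (ρ + Polynomial.C c * relD₄ j X τ' τ) := by
        have : τ' - τ = Polynomial.C c * X ^ i := by rw [hτ']; ring
        rw [this] at h1
        linear_combination h1 + hρ
      rw [h2, pow_succ]
      apply mul_dvd_mul_left
      rw [X_dvd_iff, hD, coeff_zero_eq_eval_zero]
      rw [coeff_zero_eq_eval_zero] at h0 h0' hc
      simp only [eval_add, eval_mul, eval_C, eval_X, eval_one, eval_sub, h0, h0', zero_mul,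
        sub_self, add_zero, mul_one]
      rw [hc]; ring

/-- the solution of the relation as a truncated series: uniqueness -/
theorem series₄_unique (j : Fin 6) {i : ℕ} {τ τ' : ℂ[X]} (hd : τ.natDegree < i)
    (hd' : τ'.natDegree < i) (h0 : τ.coeff 0 = 1) (h0' : τ'.coeff 0 = 1)
    (h : X ^ i ∣ rel₄ j X τ) (h' : X ^ i ∣ rel₄ j X τ') : τ = τ' := by
  have h1 := dvd_sub h h'
  rw [rel₄_sub] at h1
  obtain ⟨a, b, e, hD⟩ := relD₄_one j (X : ℂ[X]) τ τ'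
  have hc : IsCoprime ((X : ℂ[X]) ^ i) (relD₄ j X τ τ') := by
    apply IsCoprime.pow_left
    rw [Polynomial.irreducible_X.coprime_iff_not_dvd]
    rw [X_dvd_iff, hD, coeff_zero_eq_eval_zero]
    rw [coeff_zero_eq_eval_zero] at h0 h0'
    simp [h0, h0']
  have h2 := hc.dvd_of_dvd_mul_right h1
  by_contra hne
  have h3 := natDegree_le_of_dvd h2 (sub_ne_zero.mpr hne)
  rw [natDegree_X_pow] at h3
  have h4 := natDegree_sub_le τ τ'
  omega

theorem rel₄_trunc_dvd (j : Fin 6) {i : ℕ} {τ : ℂ[X]} (h : X ^ i ∣ rel₄ j X τ) :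
    ∃ q : P2, MvPolynomial.X 0 ^ i * q = rel₄ j (MvPolynomial.X 0) (MvPolynomial.X 0 ^ i *
      MvPolynomial.X 1 + aeval (MvPolynomial.X 0 : P2) τ) := by
  obtain ⟨ρ, hρ⟩ := h
  have h1 := congrArg (aeval (MvPolynomial.X 0 : P2)) hρ
  rw [map_rel₄, map_mul, map_pow, aeval_X] at h1
  have h2 := rel₄_sub j (MvPolynomial.X 0 : P2) (MvPolynomial.X 0 ^ i *
      MvPolynomial.X 1 + aeval (MvPolynomial.X 0 : P2) τ) (aeval (MvPolynomial.X 0 : P2) τ)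
  refine ⟨MvPolynomial.X 1 * relD₄ j (MvPolynomial.X 0 : P2) (MvPolynomial.X 0 ^ i *
      MvPolynomial.X 1 + aeval (MvPolynomial.X 0 : P2) τ) (aeval (MvPolynomial.X 0 : P2) τ) +
      aeval (MvPolynomial.X 0 : P2) ρ, ?_⟩
  linear_combination (-h2) - h1

theorem dvd_of_trunc₄ (j : Fin 6) {i : ℕ} {τ : ℂ[X]} {q : P2}
    (h : MvPolynomial.X 0 ^ i * q = rel₄ j (MvPolynomial.X 0) (MvPolynomial.X 0 ^ i *
      MvPolynomial.X 1 + aeval (MvPolynomial.X 0 : P2) τ)) : X ^ i ∣ rel₄ j X τ := by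
  have h1 := congrArg (hom2 (X : ℂ[X]) (0 : ℂ[X])) h
  rw [map_rel₄, map_add, map_mul, map_mul, map_pow, hom2_X0, hom2_X1, mul_zero, zero_add,
    hom2_aeval, hom2_X0, aeval_X_left_apply] at h1
  exact Dvd.intro _ h1

/-- for each `i ≥ 1` and each type there is exactly one truncated equation -/
theorem existsUnique_trunc₄ (j : Fin 6) {i : ℕ} (hi : 1 ≤ i) : ∃! q : P2, IsTrunc₄ j i q := by
  obtain ⟨τ, hd, h0, hdvd⟩ := exists_series₄ j i hi
  obtain ⟨q, hq⟩ := rel₄_trunc_dvd j hdvd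
  refine ⟨q, ⟨τ, hd, h0, hq⟩, ?_⟩
  rintro q' ⟨τ', hd', h0', hq'⟩
  have h1 := series₄_unique j hd hd' h0 h0' hdvd (dvd_of_trunc₄ j hq')
  rw [← h1, ← hq] at hq'
  exact mul_left_cancel₀ (pow_ne_zero i (MvPolynomial.X_ne_zero 0)) hq'

end Pool.Agent.Helper34_CStar
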