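import Mathlib

/-!
# The three families of equations, in an arbitrary commutative ring
-/

namespace Pool.Agent.Helper34_CStar

section

variable {R : Type*} [CommRing R]

/-- an element killed by two coprime elements is zero -/
theorem eq_zero_of_coprime {a b z : R} (h : IsCoprime a b) (ha : a * z = 0) (hb : b * z = 0) :
    z = 0 := by
  obtain ⟨u, v, huv⟩ := h
  linear_combination u * ha + v * hb - z * huv

/-- a pair `y`, `v` of coprime elements with `v ^ (m + 2) = y ^ (m + 1)` -/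
theorem unit_of_cusp {y v : R} {m : ℕ} (hcop : IsCoprime y v) (h : v ^ (m + 2) = y ^ (m + 1)) :
    ∃ τ τ' : R, τ * τ' = 1 ∧ v = τ' ^ (m + 1) ∧ y = τ' ^ (m + 2) := by
  obtain ⟨a, b, hab⟩ := (hcop.pow_right (n := m + 1) : IsCoprime y (v ^ (m + 1)))
  obtain ⟨a', b', hab'⟩ := (hcop.pow_left (m := m) : IsCoprime (y ^ m) v)
  obtain ⟨τ, hτ⟩ : ∃ τ, τ = a * v + b * y ^ m := ⟨_, rfl⟩
  obtain ⟨τ', hτ'⟩ : ∃ τ', τ' = a' * v ^ (m + 1) + b' * y := ⟨_, rfl⟩
  have h1 : τ * y = v := by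
    rw [hτ]; linear_combination v * hab - b * h
  have h3 : τ' * v = y := by
    rw [hτ']; linear_combination y * hab' + a' * h
  clear hτ hτ' hab hab'
  have h5 : τ * τ' = 1 := by
    have e2 : v * (τ * τ' - 1) = 0 := by linear_combination τ * h3 + h1
    have e3 : y * (τ * τ' - 1) = 0 := by linear_combination τ' * h1 + h3
    exact sub_eq_zero.mp (eq_zero_of_coprime hcop e3 e2)
  have h6 : v = τ' ^ (m + 1) := by
    have e2 : v ^ (m + 1) * (v - τ' ^ (m + 1)) = 0 := by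
      rw [← h3, mul_pow] at h
      linear_combination h
    have e3 : y ^ (m + 1) * (v - τ' ^ (m + 1)) = 0 := by
      rw [← h3, mul_pow]
      linear_combination τ' ^ (m + 1) * e2
    exact sub_eq_zero.mp (eq_zero_of_coprime (hcop.pow (m := m + 1) (n := m + 1)) e3 e2)
  refine ⟨τ, τ', h5, h6, ?_⟩
  rw [← h3]
  conv_lhs => rw [h6]
  ring

/-- `y` and `v = 1 - x y` with `v ^ d = y ^ (d - 1)`: a unit `τ` with `y = τ⁻ᵈ`, `x = τᵈ - τ`. -/
theorem unit_of_second {x y : R} {d : ℕ} (hd : 2 ≤ d) (h : (1 - x * y) ^ d = y ^ (d - 1)) :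
    ∃ τ τ' : R, τ * τ' = 1 ∧ y = τ' ^ d ∧ x = τ ^ d - τ := by
  obtain ⟨v, hv⟩ : ∃ v, v = 1 - x * y := ⟨_, rfl⟩
  obtain ⟨m, rfl⟩ : ∃ m, d = m + 2 := ⟨d - 2, by omega⟩
  have e1 : m + 2 - 1 = m + 1 := by omega
  rw [e1, ← hv] at h
  have hcop : IsCoprime y v := ⟨x, 1, by rw [hv]; ring⟩
  obtain ⟨τ, τ', h5, h6, h8⟩ := unit_of_cusp hcop h
  have hone : x * y + v = 1 := by rw [hv]; ring
  have h7 : τ ^ (m + 1) * τ' ^ (m + 1) = 1 := by rw [← mul_pow, h5, one_pow]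
  refine ⟨τ, τ', h5, h8, ?_⟩
  have h9 : τ ^ (m + 2) * τ' ^ (m + 2) = 1 := by rw [← mul_pow, h5, one_pow]
  rw [h6, h8] at hone
  linear_combination τ ^ (m + 2) * hone - x * h9 - τ * h7

/-- the third family -/
theorem unit_of_third {x y : R} {d : ℕ} (hd : 1 ≤ d)
    (h : x * (1 - x * y) ^ d =
      ∑ i ∈ Finset.range d, (1 - x * y - y) ^ i * (1 - x * y) ^ (d - 1 - i)) :
    ∃ τ τ' : R, τ * τ' = 1 ∧ y = τ' ^ d - τ' ^ (d + 1) ∧
      x = ∑ i ∈ Finset.range d, τ ^ (i + 1) := by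
  obtain ⟨w, hw⟩ : ∃ w, w = 1 - x * y := ⟨_, rfl⟩
  obtain ⟨v, hv⟩ : ∃ v, v = w - y := ⟨_, rfl⟩
  rw [← hw, ← hv] at h
  obtain ⟨m, rfl⟩ : ∃ m, d = m + 1 := ⟨d - 1, by omega⟩
  have e1 : m + 1 - 1 = m := by omega
  rw [e1] at h
  have hcop : IsCoprime w v := ⟨x + 1, -x, by rw [hv, hw]; ring⟩
  -- `v ^ d = w ^ (d + 1)`
  have hvw : v ^ (m + 1) = w ^ (m + 2) := by
    have h1 := (Commute.all v w).geom_sum₂_mul (m + 1)
    rw [e1, ← h] at h1
    have h2 : x * (v - w) = w - 1 := by rw [hv, hw]; ring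
    linear_combination -h1 + w ^ (m + 1) * h2
  obtain ⟨τ', τ, h5, h6, h7⟩ : ∃ τ' τ : R, τ * τ' = 1 ∧ w = τ' ^ (m + 1) ∧ v = τ' ^ (m + 2) := by
    obtain ⟨a, b, hab⟩ := (hcop.symm.pow_right (n := m + 1) : IsCoprime v (w ^ (m + 1)))
    obtain ⟨a', b', hab'⟩ := (hcop.pow_right (n := m) : IsCoprime w (v ^ m))
    obtain ⟨τ, hτ⟩ : ∃ τ, τ = a * w + b * v ^ m := ⟨_, rfl⟩
    obtain ⟨τ', hτ'⟩ : ∃ τ', τ' = a' * v + b' * w ^ (m + 1) := ⟨_, rfl⟩
    have h1 : τ * v = w := by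
      rw [hτ]; linear_combination w * hab + b * hvw
    have h3 : τ' * w = v := by
      rw [hτ']; linear_combination v * hab' - b' * hvw
    clear hτ hτ' hab hab'
    have h5 : τ * τ' = 1 := by
      have e2 : v * (τ * τ' - 1) = 0 := by linear_combination τ' * h1 + h3
      have e3 : w * (τ * τ' - 1) = 0 := by linear_combination τ * h3 + h1
      exact sub_eq_zero.mp (eq_zero_of_coprime hcop e3 e2)
    have h6 : w = τ' ^ (m + 1) := by
      have e2 : w ^ (m + 1) * (w - τ' ^ (m + 1)) = 0 := by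
        rw [← h3, mul_pow] at hvw
        linear_combination -hvw
      have e3 : v ^ (m + 1) * (w - τ' ^ (m + 1)) = 0 := by
        rw [← h3, mul_pow]
        linear_combination τ' ^ (m + 1) * e2
      exact sub_eq_zero.mp (eq_zero_of_coprime (hcop.pow (m := m + 1) (n := m + 1)) e2 e3)
    refine ⟨τ', τ, h5, h6, ?_⟩
    rw [← h3]
    conv_lhs => rw [h6]
    ring
  refine ⟨τ, τ', h5, ?_, ?_⟩
  · have : y = w - v := by rw [hv]; ring
    rw [this, h6, h7]
  · have h8 : ∀ n : ℕ, τ ^ n * τ' ^ n = 1 := by intro n; rw [← mul_pow, h5, one_pow]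
    have h3 : v = τ' * w := by rw [h7, h6]; ring
    have h9 : w ^ (m + 1) * (x - ∑ i ∈ Finset.range (m + 1), τ ^ (i + 1)) = 0 := by
      rw [mul_sub, mul_comm (w ^ (m + 1)) x, h, sub_eq_zero, Finset.mul_sum,
        ← Finset.sum_range_reflect]
      apply Finset.sum_congr rfl
      intro j hj
      rw [Finset.mem_range] at hj
      have e3 : m - (m + 1 - 1 - j) = j := by omega
      rw [e3, h3, mul_pow]
      have e5 : w ^ (m + 1) = w ^ (m + 1 - 1 - j) * w ^ j * w := by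
        rw [← pow_add, ← pow_succ]; congr 1; omega
      have e6 : τ ^ (j + 1) * w = τ' ^ (m + 1 - 1 - j) := by
        have e4 : w = τ' ^ (j + 1) * τ' ^ (m + 1 - 1 - j) := by
          rw [← pow_add, h6]; congr 1; omega
        rw [e4, ← mul_assoc, h8, one_mul]
      rw [e5]
      linear_combination -(w ^ (m + 1 - 1 - j) * w ^ j) * e6
    have h10 : IsUnit (w ^ (m + 1)) := by
      rw [h6]
      exact ((IsUnit.of_mul_eq_one τ (by rw [mul_comm]; exact h5)).pow _).pow _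
    exact sub_eq_zero.mp (h10.mul_right_eq_zero.mp h9)

end

end Pool.Agent.Helper34_CStar
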