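import Pool.Agent.Helper34_CStar.Ref40

/-!
# The exponents with coplanarity
-/

namespace Pool.Agent.Helper34_CStar

open Polynomial LaurentPolynomial

theorem C40_natDegree (α β γ : ℂ) : ∀ k : ℕ, (C40 α β γ k).natDegree ≤ (k - 3) / 4
  | 0 => by simp [C40]
  | 1 => by simp [C40]
  | 2 => by simp [C40]
  | 3 => by simp [C40]
  | (n + 4) => by
    have h0 := C40_natDegree α β γ n
    have h1 := C40_natDegree α β γ (n + 1)
    have h2 := C40_natDegree α β γ (n + 2)
    have h3 := C40_natDegree α β γ (n + 3)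
    have e : C40 α β γ (n + 4) = -Polynomial.C α * C40 α β γ (n + 3) -
      Polynomial.C β * C40 α β γ (n + 2) - Polynomial.C γ * C40 α β γ (n + 1) +
      X * C40 α β γ n := rfl
    rw [e]
    have hx : (X * C40 α β γ n).natDegree ≤ (n + 4 - 3) / 4 := by
      by_cases hn : n ≤ 2
      · interval_cases n <;> simp [C40]
      · refine natDegree_mul_le.trans ?_
        rw [natDegree_X]; omega
    refine (natDegree_add_le _ _).trans (max_le ((natDegree_sub_le _ _).trans
      (max_le ((natDegree_sub_le _ _).trans (max_le ?_ ?_)) ?_)) hx)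
    · rw [← map_neg]
      exact (natDegree_C_mul_le _ _).trans (by omega)
    · exact (natDegree_C_mul_le _ _).trans (by omega)
    · exact (natDegree_C_mul_le _ _).trans (by omega)

theorem C40_step (α β γ : ℂ) (n l : ℕ) : (C40 α β γ (n + 4)).coeff (l + 1) =
    -α * (C40 α β γ (n + 3)).coeff (l + 1) - β * (C40 α β γ (n + 2)).coeff (l + 1) -
      γ * (C40 α β γ (n + 1)).coeff (l + 1) + (C40 α β γ n).coeff l := by
  have e : C40 α β γ (n + 4) = -Polynomial.C α * C40 α β γ (n + 3) -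
      Polynomial.C β * C40 α β γ (n + 2) - Polynomial.C γ * C40 α β γ (n + 1) +
      X * C40 α β γ n := rfl
  rw [e, coeff_add, coeff_sub, coeff_sub, neg_mul, coeff_neg, coeff_C_mul, coeff_C_mul,
    coeff_C_mul, coeff_X_mul]
  ring

/-- the two leading coefficients for `γ = 0` -/
theorem C40_lead (α β : ℂ) : ∀ l : ℕ,
    (C40 α β 0 (4 * l + 3)).coeff l = 1 ∧
    (C40 α β 0 (4 * l + 4)).coeff l = -((l : ℂ) + 1) * α ∧
    (C40 α β 0 (4 * l + 5)).coeff l = ((l : ℂ) + 1) * (l + 2) / 2 * α ^ 2 - (l + 1) * β ∧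
    (C40 α β 0 (4 * l + 6)).coeff l = -(((l : ℂ) + 1) * (l + 2) * (l + 3) / 6) * α ^ 3 +
      (l + 1) * (l + 2) * α * β ∧
    (C40 α β 0 (4 * l + 7)).coeff l = ((l : ℂ) + 1) * (l + 2) * (l + 3) * (l + 4) / 24 * α ^ 4 -
      (l + 1) * (l + 2) * (l + 3) / 2 * α ^ 2 * β + (l + 1) * (l + 2) / 2 * β ^ 2 ∧
    (C40 α β 0 (4 * l + 8)).coeff l =
      -(((l : ℂ) + 1) * (l + 2) * (l + 3) * (l + 4) * (l + 5) / 120) * α ^ 5 +
      (l + 1) * (l + 2) * (l + 3) * (l + 4) / 6 * α ^ 3 * β -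
      (l + 1) * (l + 2) * (l + 3) / 2 * α * β ^ 2 ∧
    (C40 α β 0 (4 * l + 9)).coeff l =
      ((l : ℂ) + 1) * (l + 2) * (l + 3) * (l + 4) * (l + 5) * (l + 6) / 720 * α ^ 6 -
      (l + 1) * (l + 2) * (l + 3) * (l + 4) * (l + 5) / 24 * α ^ 4 * β +
      (l + 1) * (l + 2) * (l + 3) * (l + 4) / 4 * α ^ 2 * β ^ 2 -
      (l + 1) * (l + 2) * (l + 3) / 6 * β ^ 3 ∧
    (C40 α β 0 (4 * l + 10)).coeff l =
      -(((l : ℂ) + 1) * (l + 2) * (l + 3) * (l + 4) * (l + 5) * (l + 6) * (l + 7) / 5040) * α ^ 7 +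
      (l + 1) * (l + 2) * (l + 3) * (l + 4) * (l + 5) * (l + 6) / 120 * α ^ 5 * β -
      (l + 1) * (l + 2) * (l + 3) * (l + 4) * (l + 5) / 12 * α ^ 3 * β ^ 2 +
      (l + 1) * (l + 2) * (l + 3) * (l + 4) / 6 * α * β ^ 3
  | 0 => by
    have e3 : C40 α β 0 3 = 1 := rfl
    have s : ∀ n, (C40 α β 0 (n + 4)).coeff 0 = -α * (C40 α β 0 (n + 3)).coeff 0 -
        β * (C40 α β 0 (n + 2)).coeff 0 := by
      intro n
      have e : C40 α β 0 (n + 4) = -Polynomial.C α * C40 α β 0 (n + 3) -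
        Polynomial.C β * C40 α β 0 (n + 2) - Polynomial.C 0 * C40 α β 0 (n + 1) +
        X * C40 α β 0 n := rfl
      rw [e, coeff_add, coeff_sub, coeff_sub, neg_mul, coeff_neg, coeff_C_mul, coeff_C_mul,
        coeff_C_mul, coeff_X_mul_zero]
      ring
    have c2 : (C40 α β 0 2).coeff 0 = 0 := by rw [C40]; simp
    have c3 : (C40 α β 0 3).coeff 0 = 1 := by rw [C40]; simp
    have c4 := s 0
    have c5 := s 1
    have c6 := s 2
    have c7 := s 3
    have c8 := s 4
    have c9 := s 5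
    have c10 := s 6
    norm_num only at c4 c5 c6 c7 c8 c9 c10
    refine ⟨?_, ?_, ?_, ?_, ?_, ?_, ?_, ?_⟩ <;> push_cast <;> norm_num only
    · rw [c3]
    · rw [c4, c3, c2]; ring
    · rw [c5, c4, c3, c2]; ring
    · rw [c6, c5, c4, c3, c2]; ring
    · rw [c7, c6, c5, c4, c3, c2]; ring
    · rw [c8, c7, c6, c5, c4, c3, c2]; ring
    · rw [c9, c8, c7, c6, c5, c4, c3, c2]; ring
    · rw [c10, c9, c8, c7, c6, c5, c4, c3, c2]; ring
  | (l + 1) => by
    obtain ⟨h3, h4, h5, h6, h7, h8, h9, h10⟩ := C40_lead α β l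
    have z : ∀ i ≤ 4 * l + 6, (C40 α β 0 i).coeff (l + 1) = 0 := by
      intro i hi
      apply coeff_eq_zero_of_natDegree_lt
      have := C40_natDegree α β 0 i
      omega
    have c3 := C40_step α β 0 (4 * l + 3) l
    have c4 := C40_step α β 0 (4 * l + 4) l
    have c5 := C40_step α β 0 (4 * l + 5) l
    have c6 := C40_step α β 0 (4 * l + 6) l
    have c7 := C40_step α β 0 (4 * l + 7) l
    have c8 := C40_step α β 0 (4 * l + 8) l
    have c9 := C40_step α β 0 (4 * l + 9) l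
    have c10 := C40_step α β 0 (4 * l + 10) l
    simp only [add_assoc, Nat.reduceAdd] at c3 c4 c5 c6 c7 c8 c9 c10
    have z4 := z (4 * l + 4) (by omega)
    have z5 := z (4 * l + 5) (by omega)
    have z6 := z (4 * l + 6) (by omega)
    rw [z6, z5, z4, h3] at c3
    rw [c3, z6, z5, h4] at c4
    rw [c4, c3, z6, h5] at c5
    rw [c5, c4, c3, h6] at c6
    rw [c6, c5, c4, h7] at c7
    rw [c7, c6, c5, h8] at c8
    rw [c8, c7, c6, h9] at c9
    rw [c9, c8, c7, h10] at c10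
    have e : ∀ d, 4 * (l + 1) + d = 4 * l + (4 + d) := by intro d; ring
    rw [e, e, e, e, e, e, e, e]
    norm_num only
    rw [c3, c4, c5, c6, c7, c8, c9, c10]
    refine ⟨?_, ?_, ?_, ?_, ?_, ?_, ?_, ?_⟩ <;> push_cast <;> ring

/-- the exponents with coplanarity for `γ = 0`, nonnegative case -/
theorem C40_ne_two {α β : ℂ} (hα : α ≠ 0) {κ : ℕ} (h : C40 α β 0 (2 * κ) = 0) :
    κ = 0 ∨ κ = 1 ∨ (κ = 3 ∧ α ^ 2 = 2 * β) := by
  by_contra hcon
  push Not at hcon
  obtain ⟨h0, h1, h3⟩ := hcon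
  have hcast : ∀ m : ℕ, ((m : ℂ) + 1) ≠ 0 := fun m => by exact_mod_cast Nat.succ_ne_zero m
  have hcast2 : ∀ m : ℕ, ((m : ℂ) + 2) ≠ 0 := fun m => by
    have : ((m + 1 : ℕ) : ℂ) + 1 ≠ 0 := hcast (m + 1)
    intro h
    apply this
    push_cast
    linear_combination h
  obtain ⟨l, rfl | rfl⟩ : ∃ l, κ = 2 * l + 2 ∨ κ = 2 * l + 3 := ⟨(κ - 2) / 2, by omega⟩
  · have h2 := (C40_lead α β l).2.1
    rw [show 4 * l + 4 = 2 * (2 * l + 2) by ring, h, coeff_zero] at h2
    exact mul_ne_zero (neg_ne_zero.mpr (hcast l)) hα h2.symm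
  · have h2 := (C40_lead α β l).2.2.2.1
    rw [show 4 * l + 6 = 2 * (2 * l + 3) by ring, h, coeff_zero] at h2
    have h4 : ((l : ℂ) + 3) * α ^ 2 = 6 * β := by
      apply mul_left_cancel₀ (mul_ne_zero (mul_ne_zero (hcast l) (hcast2 l)) hα)
      linear_combination 6 * h2
    rcases l with _ | l
    · apply h3 rfl
      push_cast at h4
      linear_combination h4 / 3
    · push_cast at h4
      have h5 := (C40_lead α β l).2.2.2.2.2.2.2
      rw [show 4 * l + 10 = 2 * (2 * (l + 1) + 3) by ring, h, coeff_zero] at h5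
      have hβe : β = ((l : ℂ) + 4) * α ^ 2 / 6 := by linear_combination (-1 / 6) * h4
      rw [hβe] at h5
      have hl3 : ((l : ℂ) + 3) ≠ 0 := by
        have := hcast (l + 2)
        intro h
        apply this
        push_cast
        linear_combination h
      have hl4 : ((l : ℂ) + 4) ≠ 0 := by
        have := hcast (l + 3)
        intro h
        apply this
        push_cast
        linear_combination h
      have h6 : -16 * ((l : ℂ) + 4) ^ 3 + 30 * (l + 4) ^ 2 + 27 * (l + 4) - 54 = 0 := by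
        apply mul_left_cancel₀ (mul_ne_zero (mul_ne_zero (mul_ne_zero (mul_ne_zero (hcast l)
          (hcast2 l)) hl3) hl4) (pow_ne_zero 7 hα))
        linear_combination (-45360) * h5
      have h7 : (16 * (l + 4) ^ 3 + 54 : ℕ) = 30 * (l + 4) ^ 2 + 27 * (l + 4) := by
        have : ((16 * (l + 4) ^ 3 + 54 : ℕ) : ℂ) = ((30 * (l + 4) ^ 2 + 27 * (l + 4) : ℕ) : ℂ) := by
          push_cast
          linear_combination -h6
        exact_mod_cast this
      nlinarith [h7, sq_nonneg l]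

theorem D40_natDegree (α β : ℂ) : ∀ k : ℕ, (D40 α β 0 k).natDegree ≤ (k + 1) / 2
  | 0 => by simp [D40]
  | 1 => by simp [D40]
  | 2 => by simp [D40]
  | 3 => by
    simp only [D40, ne_eq, OfNat.ofNat_ne_zero, not_false_eq_true, zero_pow, map_zero, zero_mul,
      zero_add]
    exact natDegree_C_mul_X_pow_le _ _
  | (n + 4) => by
    have h0 := D40_natDegree α β n
    have h1 := D40_natDegree α β (n + 1)
    have h2 := D40_natDegree α β (n + 2)
    have e : D40 α β 0 (n + 4) = X * (Polynomial.C 0 * D40 α β 0 (n + 3) +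
      Polynomial.C β * D40 α β 0 (n + 2) + Polynomial.C α * D40 α β 0 (n + 1) +
      D40 α β 0 n) := rfl
    rw [e, map_zero, zero_mul, zero_add]
    refine natDegree_mul_le.trans ?_
    rw [natDegree_X]
    have h5 : (Polynomial.C β * D40 α β 0 (n + 2) + Polynomial.C α * D40 α β 0 (n + 1) +
        D40 α β 0 n).natDegree ≤ (n + 3) / 2 := by
      refine (natDegree_add_le _ _).trans (max_le ((natDegree_add_le _ _).trans
        (max_le ?_ ?_)) (by omega))
      · exact (natDegree_C_mul_le _ _).trans (by omega)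
      · exact (natDegree_C_mul_le _ _).trans (by omega)
    omega

theorem D40_step (α β : ℂ) (n l : ℕ) : (D40 α β 0 (n + 4)).coeff (l + 1) =
    β * (D40 α β 0 (n + 2)).coeff l + α * (D40 α β 0 (n + 1)).coeff l +
      (D40 α β 0 n).coeff l := by
  have e : D40 α β 0 (n + 4) = X * (Polynomial.C 0 * D40 α β 0 (n + 3) +
      Polynomial.C β * D40 α β 0 (n + 2) + Polynomial.C α * D40 α β 0 (n + 1) +
      D40 α β 0 n) := rfl
  rw [e, coeff_X_mul, map_zero, zero_mul, zero_add, coeff_add, coeff_add, coeff_C_mul,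
    coeff_C_mul]

theorem D40_lead (α β : ℂ) : ∀ l : ℕ, (D40 α β 0 (2 * l + 3)).coeff (l + 2) = β ^ (l + 1) ∧
    (D40 α β 0 (2 * l + 4)).coeff (l + 2) = ((l : ℂ) + 1) * α * β ^ l
  | 0 => by
    constructor
    · have e : D40 α β 0 3 = Polynomial.C (0 ^ 2) * X ^ 3 + Polynomial.C β * X ^ 2 := rfl
      simp only [mul_zero, zero_add]
      rw [e, coeff_add, coeff_C_mul, coeff_C_mul, coeff_X_pow, coeff_X_pow]
      norm_num
    · have h := D40_step α β 0 1
      have e0 : D40 α β 0 0 = 0 := rfl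
      have e1 : D40 α β 0 1 = X := rfl
      have e2 : D40 α β 0 2 = Polynomial.C 0 * X ^ 2 := rfl
      simp only [zero_add, Nat.reduceAdd] at h
      rw [e0, e1, e2, map_zero, zero_mul, coeff_zero, coeff_X_one] at h
      simp only [mul_zero, zero_add]
      rw [h]
      push_cast
      ring
  | (l + 1) => by
    obtain ⟨h1, h2⟩ := D40_lead α β l
    have z : ∀ i ≤ 2 * l + 2, (D40 α β 0 i).coeff (l + 2) = 0 := by
      intro i hi
      apply coeff_eq_zero_of_natDegree_lt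
      have := D40_natDegree α β i
      omega
    have c1 := D40_step α β (2 * l + 1) (l + 2)
    have c2 := D40_step α β (2 * l + 2) (l + 2)
    simp only [add_assoc, Nat.reduceAdd] at c1 c2
    rw [h1, z _ (by omega), z _ (by omega)] at c1
    rw [h2, h1, z _ (by omega)] at c2
    have e : ∀ d, 2 * (l + 1) + d = 2 * l + (2 + d) := by intro d; ring
    rw [e, e]
    norm_num only
    rw [show l + 1 + 2 = l + 3 by ring, c1, c2]
    constructor
    · ring
    · push_cast; ring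

/-- the exponents with coplanarity for `γ = 0` -/
theorem copl40_two {α β : ℂ} (hα : α ≠ 0) (hβ : β ≠ 0) {κ : ℤ} (h : Copl40 α β 0 (2 * κ)) :
    κ = -1 ∨ κ = 0 ∨ κ = 1 ∨ (κ = 3 ∧ α ^ 2 = 2 * β) := by
  rcases le_or_gt 0 κ with hκ | hκ
  · obtain ⟨n, rfl⟩ := Int.eq_ofNat_of_zero_le hκ
    have h1 : C40 α β 0 (2 * n) = 0 := by
      apply C40_eq_zero
      have e : ((2 * n : ℕ) : ℤ) = 2 * (n : ℤ) := by push_cast; ring
      rw [e]; exact h
    rcases C40_ne_two hα h1 with h2 | h2 | ⟨h2, h3⟩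
    · omega
    · omega
    · right; right; right; exact ⟨by omega, h3⟩
  · by_contra hcon
    push Not at hcon
    obtain ⟨l, hl⟩ : ∃ l : ℕ, κ = -((l : ℤ) + 2) := ⟨(-κ - 2).toNat, by omega⟩
    have h1 : D40 α β 0 (2 * l + 4) = 0 := by
      apply D40_eq_zero
      have e : (-((2 * l + 4 : ℕ) : ℤ)) = 2 * κ := by rw [hl]; push_cast; ring
      rw [e]; exact h
    have h2 := (D40_lead α β l).2
    rw [h1, coeff_zero] at h2
    have hcast : ((l : ℂ) + 1) ≠ 0 := by exact_mod_cast Nat.succ_ne_zero l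
    exact mul_ne_zero (mul_ne_zero hcast hα) (pow_ne_zero l hβ) h2.symm

/-- the exponents with coplanarity for `T ^ 4 - T ^ 3`: nonnegative case -/
theorem C40_three : ∀ n : ℕ, (C40 (-1) 0 0 (n + 3)).coeff 0 = 1
  | 0 => by
    have e : C40 (-1) 0 0 3 = 1 := rfl
    rw [zero_add, e, coeff_one_zero]
  | (n + 1) => by
    have h := C40_three n
    have e : C40 (-1) 0 0 (n + 4) = -Polynomial.C (-1) * C40 (-1) 0 0 (n + 3) -
      Polynomial.C 0 * C40 (-1) 0 0 (n + 2) - Polynomial.C 0 * C40 (-1) 0 0 (n + 1) +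
      X * C40 (-1) 0 0 n := rfl
    rw [show n + 1 + 3 = n + 4 by ring, e, coeff_add, coeff_sub, coeff_sub, neg_mul, coeff_neg,
      coeff_C_mul, coeff_C_mul, coeff_C_mul, coeff_X_mul_zero, h]
    ring

theorem D40_three_natDegree : ∀ k : ℕ, (D40 (-1) 0 0 k).natDegree ≤ (k + 2) / 3
  | 0 => by simp [D40]
  | 1 => by simp [D40]
  | 2 => by simp [D40]
  | 3 => by simp [D40]
  | (n + 4) => by
    have h0 := D40_three_natDegree n
    have h1 := D40_three_natDegree (n + 1)
    have e : D40 (-1) 0 0 (n + 4) = X * (Polynomial.C 0 * D40 (-1) 0 0 (n + 3) +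
      Polynomial.C 0 * D40 (-1) 0 0 (n + 2) + Polynomial.C (-1) * D40 (-1) 0 0 (n + 1) +
      D40 (-1) 0 0 n) := rfl
    rw [e, map_zero, zero_mul, zero_add, zero_mul, zero_add]
    refine natDegree_mul_le.trans ?_
    rw [natDegree_X]
    have h5 : (Polynomial.C (-1) * D40 (-1) 0 0 (n + 1) + D40 (-1) 0 0 n).natDegree ≤
        (n + 3) / 3 := by
      refine (natDegree_add_le _ _).trans (max_le ?_ (by omega))
      exact (natDegree_C_mul_le _ _).trans (by omega)
    omega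

theorem D40_three_lead : ∀ i : ℕ, (D40 (-1) 0 0 (3 * i + 1)).coeff (i + 1) = (-1) ^ i ∧
    (D40 (-1) 0 0 (3 * i + 2)).coeff (i + 1) = -(i : ℂ) * (-1) ^ i ∧
    (D40 (-1) 0 0 (3 * i + 3)).coeff (i + 1) = (i : ℂ) * (i - 1) / 2 * (-1) ^ i
  | 0 => by
    have e1 : D40 (-1) 0 0 1 = X := rfl
    have e2 : D40 (-1) 0 0 2 = Polynomial.C 0 * X ^ 2 := rfl
    have e3 : D40 (-1) 0 0 3 = Polynomial.C (0 ^ 2) * X ^ 3 + Polynomial.C 0 * X ^ 2 := rfl
    simp only [mul_zero, zero_add]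
    rw [e1, e2, e3]
    refine ⟨by simp, by simp, by simp⟩
  | (i + 1) => by
    obtain ⟨h1, h2, h3⟩ := D40_three_lead i
    have z : (D40 (-1) 0 0 (3 * i)).coeff (i + 1) = 0 := by
      apply coeff_eq_zero_of_natDegree_lt
      have := D40_three_natDegree (3 * i)
      omega
    have c1 := D40_step (-1) 0 (3 * i) (i + 1)
    have c2 := D40_step (-1) 0 (3 * i + 1) (i + 1)
    have c3 := D40_step (-1) 0 (3 * i + 2) (i + 1)
    simp only [add_assoc, Nat.reduceAdd, zero_mul, zero_add] at c1 c2 c3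
    rw [h1, z] at c1
    rw [h2, h1] at c2
    rw [h3, h2] at c3
    have e : ∀ d, 3 * (i + 1) + d = 3 * i + (3 + d) := by intro d; ring
    rw [e, e, e]
    norm_num only
    rw [show i + 1 + 1 = i + 2 by ring, c1, c2, c3]
    refine ⟨?_, ?_, ?_⟩
    · ring
    · push_cast; ring
    · push_cast; ring

/-- the exponents with coplanarity for `T ^ 4 - T ^ 3` -/
theorem copl40_three {κ : ℤ} (h : Copl40 (-1) 0 0 (2 * κ)) :
    κ = -3 ∨ κ = -1 ∨ κ = 0 ∨ κ = 1 := by
  rcases le_or_gt 0 κ with hκ | hκ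
  · by_contra hcon
    push Not at hcon
    obtain ⟨n, hn⟩ : ∃ n : ℕ, 2 * κ = ((n + 3 : ℕ) : ℤ) := ⟨(2 * κ - 3).toNat, by omega⟩
    rw [hn] at h
    have h1 := C40_eq_zero h
    have h2 := C40_three n
    rw [h1, coeff_zero] at h2
    exact zero_ne_one h2
  · by_contra hcon
    push Not at hcon
    obtain ⟨l, hl⟩ : ∃ l : ℕ, 2 * κ = -(l : ℤ) := ⟨(-(2 * κ)).toNat, by omega⟩
    rw [hl] at h
    have h1 := D40_eq_zero h
    have hneg : ∀ i : ℕ, (-1 : ℂ) ^ i ≠ 0 := fun i => pow_ne_zero i (by norm_num)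
    obtain ⟨i, hi | hi | hi⟩ : ∃ i, l = 3 * i + 1 ∨ l = 3 * i + 2 ∨ l = 3 * i + 3 :=
      ⟨(l - 1) / 3, by omega⟩
    · have h2 := (D40_three_lead i).1
      rw [← hi, h1, coeff_zero] at h2
      exact hneg i h2.symm
    · have h2 := (D40_three_lead i).2.1
      rw [← hi, h1, coeff_zero] at h2
      have hi0 : (i : ℂ) ≠ 0 := by
        have : i ≠ 0 := by omega
        exact_mod_cast this
      exact mul_ne_zero (neg_ne_zero.mpr hi0) (hneg i) h2.symm
    · have h2 := (D40_three_lead i).2.2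
      rw [← hi, h1, coeff_zero] at h2
      have hi0 : (i : ℂ) ≠ 0 := by
        have : i ≠ 0 := by omega
        exact_mod_cast this
      have hi1 : (i : ℂ) - 1 ≠ 0 := by
        have : i ≠ 1 := by omega
        rw [sub_ne_zero]
        exact_mod_cast this
      exact mul_ne_zero (div_ne_zero (mul_ne_zero hi0 hi1) two_ne_zero) (hneg i) h2.symm

end Pool.Agent.Helper34_CStar
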