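import Pool.Agent.Helper34_CStar.Trunc4

/-!
# Russell's embedding of the punctured line
-/

namespace Pool.Agent.Helper34_CStar

open Polynomial LaurentPolynomial

/-- the equation of Russell's embedding: `(y - x v ^ 2) ^ 2 - 8 v (y + x v ^ 2) + 32 v ^ 2` with
`v = x y - 4` -/
noncomputable def qR : P2 :=
  (MvPolynomial.X 1 - MvPolynomial.X 0 * (MvPolynomial.X 0 * MvPolynomial.X 1 - 4) ^ 2) ^ 2 -
    8 * (MvPolynomial.X 0 * MvPolynomial.X 1 - 4) *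
      (MvPolynomial.X 1 + MvPolynomial.X 0 * (MvPolynomial.X 0 * MvPolynomial.X 1 - 4) ^ 2) +
    32 * (MvPolynomial.X 0 * MvPolynomial.X 1 - 4) ^ 2

theorem hom2_qR {S : Type*} [CommRing S] [Algebra ℂ S] (x y : S) :
    hom2 x y qR = (y - x * (x * y - 4) ^ 2) ^ 2 - 8 * (x * y - 4) * (y + x * (x * y - 4) ^ 2) +
      32 * (x * y - 4) ^ 2 := by
  simp [qR, map_ofNat]

/-- the first coordinate -/
noncomputable def xR : ℂ[T;T⁻¹] := 2 * T 1 ^ 4 + 2 * T 1 ^ 3 + T 1 ^ 2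

/-- the second coordinate -/
noncomputable def yR : ℂ[T;T⁻¹] := 2 * T (-1) ^ 4 - 2 * T (-1) ^ 5 + T (-1) ^ 6

theorem xyR_aux {S : Type*} [CommRing S] (a b : S) (h : a * b = 1) :
    (2 * a ^ 4 + 2 * a ^ 3 + a ^ 2) * (2 * b ^ 4 - 2 * b ^ 5 + b ^ 6) - 4 = b ^ 4 := by
  grind

theorem xyR_aux2 {S : Type*} [CommRing S] (a b : S) (h : a * b = 1) :
    (2 * a ^ 4 + 2 * a ^ 3 + a ^ 2) * b ^ 4 = 2 + 2 * b + b ^ 2 := by
  grind

theorem xyR_aux3 {S : Type*} [CommRing S] (a b : S) (h : a * b = 1) :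
    4 * b ^ 5 = (2 * a ^ 4 + 2 * a ^ 3 + a ^ 2) * (b ^ 4) ^ 2 -
      (2 * b ^ 4 - 2 * b ^ 5 + b ^ 6) := by
  grind

theorem xyR : xR * yR - 4 = T (-1) ^ 4 := by
  exact xyR_aux _ _ T_mul_T_neg

theorem isStd_qR : IsStd xR yR qR where
  zero := by
    rw [hom2_qR, xyR]
    rw [xR, yR]
    have h := T_mul_T_neg
    obtain ⟨a, ha⟩ : ∃ a, a = (T 1 : ℂ[T;T⁻¹]) := ⟨_, rfl⟩
    obtain ⟨b, hb⟩ : ∃ b, b = (T (-1) : ℂ[T;T⁻¹]) := ⟨_, rfl⟩
    rw [← ha, ← hb] at h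
    rw [← ha, ← hb]
    have e := xyR_aux2 a b h
    have e2 : (2 * a ^ 4 + 2 * a ^ 3 + a ^ 2) * (b ^ 4) ^ 2 = b ^ 4 * (2 + 2 * b + b ^ 2) := by
      rw [← e]; ring
    rw [e2]; ring
  unit := by
    intro S _ _ x y h
    rw [hom2_qR] at h
    have e4 : (algebraMap ℂ S 4⁻¹) * 4 = 1 := by
      rw [← map_ofNat (algebraMap ℂ S) 4, ← map_mul, inv_mul_cancel₀ (by norm_num), map_one]
    obtain ⟨q, hq⟩ : ∃ q, q = algebraMap ℂ S 4⁻¹ := ⟨_, rfl⟩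
    rw [← hq] at e4
    obtain ⟨v, hv⟩ : ∃ v, v = x * y - 4 := ⟨_, rfl⟩
    rw [← hv] at h
    obtain ⟨s₅, hs₅⟩ : ∃ s₅, s₅ = q * (x * v ^ 2 - y) := ⟨_, rfl⟩
    have h4 : 4 * s₅ = x * v ^ 2 - y := by rw [hs₅]; linear_combination (x * v ^ 2 - y) * e4
    have hP : s₅ ^ 2 = v * (x * v ^ 2 - 2 * s₅ - 2 * v) := by
      have e16 : 16 * s₅ ^ 2 = 16 * (v * (x * v ^ 2 - 2 * s₅ - 2 * v)) := by
        linear_combination h + (4 * s₅ + (x * v ^ 2 - y) + 8 * v) * h4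
      have e16' : q * q * 16 = 1 := by linear_combination (4 * q + 1) * e4
      linear_combination q * q * e16 +
        (v * (x * v ^ 2 - 2 * s₅ - 2 * v) - s₅ ^ 2) * e16'
    have hQ : 4 * (1 + x * s₅) = v * (x ^ 2 * v - 1) := by
      linear_combination x * h4 + hv
    obtain ⟨v', hv'⟩ : ∃ v', v' = q * (x ^ 2 * v - 1) * (1 - x * s₅) +
      x ^ 2 * (x * v ^ 2 - 2 * s₅ - 2 * v) := ⟨_, rfl⟩
    have hvv : v * v' = 1 := by
      rw [hv']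
      linear_combination (-q * (1 - x * s₅)) * hQ - x ^ 2 * hP + (1 + x * s₅) * (1 - x * s₅) * e4
    obtain ⟨s, hs⟩ : ∃ s, s = s₅ * v' := ⟨_, rfl⟩
    have hsv : s * v = s₅ := by rw [hs]; linear_combination s₅ * hvv
    have hs2 : s ^ 2 + 2 * s + 2 = x * v := by
      rw [hs]
      linear_combination v' ^ 2 * hP +
        ((x * v - 2) * (v * v' + 1) - 2 * s₅ * v') * hvv
    have hs4 : s ^ 4 = v := by
      linear_combination (s ^ 2 - 2 * s + 2 + x * v) * hs2 - hQ - 4 * x * hsv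
    obtain ⟨u, hu, hu'⟩ := unit_mul_inv (a := s ^ 3 * v') (b := s) (by
      linear_combination v' * hs4 + hvv)
    refine ⟨u, ?_, ?_⟩
    · rw [xR]
      simp only [map_add, map_mul, map_pow, map_ofNat, lev_T, zpow_one, hu]
      have e5 : (s ^ 3 * v') ^ 4 = v' := by
        have : (s ^ 3 * v') ^ 4 = (s ^ 4) ^ 3 * v' ^ 4 := by ring
        rw [this, hs4]
        linear_combination v' * ((v * v') ^ 2 + v * v' + 1) * hvv
      have e6 : (s ^ 3 * v') ^ 3 = s * v' := by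
        have : (s ^ 3 * v') ^ 3 = s * (s ^ 4) ^ 2 * v' ^ 3 := by ring
        rw [this, hs4]
        linear_combination s * v' * (v * v' + 1) * hvv
      have e7 : (s ^ 3 * v') ^ 2 = s ^ 2 * v' := by
        have : (s ^ 3 * v') ^ 2 = s ^ 2 * (s ^ 4) * v' ^ 2 := by ring
        rw [this, hs4]
        linear_combination s ^ 2 * v' * hvv
      rw [e5, e6, e7]
      linear_combination v' * hs2 + x * hvv
    · rw [yR]
      simp only [map_add, map_sub, map_mul, map_pow, map_ofNat, lev_T, zpow_one, zpow_neg, hu']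
      have e8 : s ^ 5 = s₅ := by linear_combination s * hs4 + hsv
      have e9 : s ^ 6 = s * s₅ := by linear_combination s * e8
      rw [e8, e9, hs4]
      linear_combination -h4 + v * hs2 - (s + 2) * hsv
  rigid := by
    intro τ h0 h1
    have hv : ((τ⁻¹ : (ℂ[T;T⁻¹])ˣ) : ℂ[T;T⁻¹]) ^ 4 = T (-1) ^ 4 := by
      have h2 := congrArg (lev τ) xyR
      rw [map_sub, map_mul, h0, h1, map_ofNat, xyR, map_pow, lev_T, zpow_neg, zpow_one] at h2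
      exact h2.symm
    have hs5 : 4 * ((τ⁻¹ : (ℂ[T;T⁻¹])ˣ) : ℂ[T;T⁻¹]) ^ 5 = 4 * T (-1) ^ 5 := by
      have e : 4 * T (-1) ^ 5 = xR * (T (-1) ^ 4) ^ 2 - yR := by
        exact xyR_aux3 _ _ T_mul_T_neg
      have h2 := congrArg (lev τ) e
      rw [map_sub, map_mul, map_mul, h0, h1, map_ofNat, map_pow, map_pow, map_pow, lev_T, zpow_neg,
        zpow_one, hv, ← e] at h2
      exact h2
    apply unit_eq_T
    have h := T_mul_T_neg
    have hττ : (τ : ℂ[T;T⁻¹]) * ((τ⁻¹ : (ℂ[T;T⁻¹])ˣ) : ℂ[T;T⁻¹]) = 1 := Units.mul_inv τ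
    obtain ⟨a, ha⟩ : ∃ a, a = (T 1 : ℂ[T;T⁻¹]) := ⟨_, rfl⟩
    obtain ⟨b, hb⟩ : ∃ b, b = (T (-1) : ℂ[T;T⁻¹]) := ⟨_, rfl⟩
    obtain ⟨σ, hσ⟩ : ∃ σ, σ = ((τ⁻¹ : (ℂ[T;T⁻¹])ˣ) : ℂ[T;T⁻¹]) := ⟨_, rfl⟩
    rw [← hσ, ← hb] at hv hs5
    rw [← ha, ← hb] at h
    rw [← hσ, ← hb]
    have h4 : (4 : ℂ[T;T⁻¹]) ≠ 0 := by
      intro h0
      have := congrArg (lev (1 : ℂˣ)) h0
      rw [map_ofNat, map_zero] at this
      norm_num at this
    have h6 : σ ^ 5 = b ^ 5 := mul_left_cancel₀ h4 hs5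
    have h7 : (σ - b) * b ^ 4 = 0 := by linear_combination h6 - σ * hv
    have h8 : a ^ 4 * b ^ 4 = 1 := by rw [← mul_pow, h, one_pow]
    linear_combination a ^ 4 * h7 - (σ - b) * h8

end Pool.Agent.Helper34_CStar
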