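import Pool.Agent.Helper34_CStar.Defs
import Pool.Agent.Helper34_CStar.Geom
import Pool.Agent.Helper34_CStar.Rings

/-!
# Standard embeddings and their equations
-/

namespace Pool.Agent.Helper34_CStar

open Polynomial LaurentPolynomial

/-- the homomorphism given by a pair of Laurent polynomials -/
noncomputable def hom2 {S : Type*} [CommRing S] [Algebra ℂ S] (x y : S) : P2 →ₐ[ℂ] S :=
  MvPolynomial.aeval ![x, y]

section

variable {S : Type*} [CommRing S] [Algebra ℂ S]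

@[simp] theorem hom2_X0 (x y : S) : hom2 x y (MvPolynomial.X 0) = x := by
  simp [hom2]

@[simp] theorem hom2_X1 (x y : S) : hom2 x y (MvPolynomial.X 1) = y := by
  simp [hom2]

@[simp] theorem hom2_C (x y : S) (c : ℂ) : hom2 x y (MvPolynomial.C c) = algebraMap ℂ S c := by
  simp [hom2]

theorem hom2_aeval (x y : S) (z : P2) (g : ℂ[X]) :
    hom2 x y (aeval z g) = aeval (hom2 x y z) g := by
  rw [aeval_algHom_apply]

theorem hom2_ext {φ ψ : P2 →ₐ[ℂ] S} (h0 : φ (MvPolynomial.X 0) = ψ (MvPolynomial.X 0))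
    (h1 : φ (MvPolynomial.X 1) = ψ (MvPolynomial.X 1)) : φ = ψ := by
  apply MvPolynomial.algHom_ext
  intro i
  fin_cases i
  · exact h0
  · exact h1

omit [Algebra ℂ S] in
theorem laurent_ringHom_ext {φ ψ : ℂ[T;T⁻¹] →+* S}
    (hC : ∀ c : ℂ, φ (LaurentPolynomial.C c) = ψ (LaurentPolynomial.C c))
    (hT : φ (T 1) = ψ (T 1)) : φ = ψ := by
  apply IsLocalization.ringHom_ext (Submonoid.powers (X : ℂ[X]))
  apply Polynomial.ringHom_ext
  · intro c
    simpa [algebraMap_eq_toLaurent] using hC c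
  · simpa [algebraMap_eq_toLaurent] using hT

@[simp] theorem lev_C (u : Sˣ) (c : ℂ) : lev u (LaurentPolynomial.C c) = algebraMap ℂ S c := by
  simp [lev]

@[simp] theorem lev_T (u : Sˣ) (n : ℤ) : lev u (T n) = ((u ^ n : Sˣ) : S) := by
  simp [lev]

/-- `lev` as an algebra homomorphism -/
noncomputable def levA (u : Sˣ) : ℂ[T;T⁻¹] →ₐ[ℂ] S :=
  { lev u with
    commutes' := by
      intro r
      have : lev u (LaurentPolynomial.C r) = algebraMap ℂ S r := lev_C u r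
      rw [LaurentPolynomial.C_eq_algebraMap] at this
      exact this }

@[simp] theorem levA_apply (u : Sˣ) (z : ℂ[T;T⁻¹]) : levA u z = lev u z := rfl

theorem map_lev {S' : Type*} [CommRing S'] [Algebra ℂ S'] (φ : S →ₐ[ℂ] S') (u : Sˣ)
    (z : ℂ[T;T⁻¹]) : φ (lev u z) = lev (Units.map (φ : S →* S') u) z := by
  have : (φ : S →+* S').comp (lev u) = lev (Units.map (φ : S →* S') u) := by
    apply laurent_ringHom_ext
    · intro c; simp
    · simp
  exact congrArg (fun ψ : ℂ[T;T⁻¹] →+* S' => ψ z) this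

end

/-- `q` is an equation of the standard embedding `(x₀, y₀)` -/
structure IsStd (x₀ y₀ : ℂ[T;T⁻¹]) (q : P2) : Prop where
  zero : hom2 x₀ y₀ q = 0
  unit : ∀ (S : Type) [CommRing S] [Algebra ℂ S] (x y : S), hom2 x y q = 0 →
    ∃ τ : Sˣ, lev τ x₀ = x ∧ lev τ y₀ = y
  rigid : ∀ τ : (ℂ[T;T⁻¹])ˣ, lev τ x₀ = x₀ → lev τ y₀ = y₀ → (τ : ℂ[T;T⁻¹]) = T 1

theorem IsStd.mem_ker_iff {x₀ y₀ : ℂ[T;T⁻¹]} {q : P2} (h : IsStd x₀ y₀ q) (p : P2) :
    hom2 x₀ y₀ p = 0 ↔ q ∣ p := by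
  constructor
  · intro hp
    let I : Ideal P2 := Ideal.span {q}
    have hmk : ∀ p : P2, (Ideal.Quotient.mkₐ ℂ I) p =
        hom2 (Ideal.Quotient.mkₐ ℂ I (MvPolynomial.X 0))
          (Ideal.Quotient.mkₐ ℂ I (MvPolynomial.X 1)) p := by
      intro p
      have : (Ideal.Quotient.mkₐ ℂ I) = hom2 (Ideal.Quotient.mkₐ ℂ I (MvPolynomial.X 0))
          (Ideal.Quotient.mkₐ ℂ I (MvPolynomial.X 1)) := by
        apply hom2_ext <;> simp
      exact congrArg (fun ψ : P2 →ₐ[ℂ] (P2 ⧸ I) => ψ p) this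
    have hq : (Ideal.Quotient.mkₐ ℂ I) q = 0 := by
      rw [Ideal.Quotient.mkₐ_eq_mk, Ideal.Quotient.eq_zero_iff_mem]
      exact Ideal.mem_span_singleton_self q
    rw [hmk] at hq
    obtain ⟨τ, hτ0, hτ1⟩ := h.unit _ _ _ hq
    have hcomp : (levA τ).comp (hom2 x₀ y₀) = Ideal.Quotient.mkₐ ℂ I := by
      apply hom2_ext
      · simp only [AlgHom.comp_apply, hom2_X0, levA_apply, hτ0]
      · simp only [AlgHom.comp_apply, hom2_X1, levA_apply, hτ1]
    have h2 : (Ideal.Quotient.mkₐ ℂ I) p = 0 := by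
      rw [← hcomp, AlgHom.comp_apply, hp, map_zero]
    rw [Ideal.Quotient.mkₐ_eq_mk, Ideal.Quotient.eq_zero_iff_mem, Ideal.mem_span_singleton] at h2
    exact h2
  · rintro ⟨r, rfl⟩
    rw [map_mul, h.zero, zero_mul]

theorem IsStd.surjective {x₀ y₀ : ℂ[T;T⁻¹]} {q : P2} (h : IsStd x₀ y₀ q) :
    Function.Surjective (hom2 x₀ y₀) := by
  set φ := hom2 x₀ y₀ with hφ
  let x₁ : φ.range := ⟨x₀, MvPolynomial.X 0, by simp [hφ]⟩
  let y₁ : φ.range := ⟨y₀, MvPolynomial.X 1, by simp [hφ]⟩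
  have hval : ∀ p : P2, φ.range.val (hom2 x₁ y₁ p) = φ p := by
    intro p
    have : (φ.range.val).comp (hom2 x₁ y₁) = φ := by
      apply hom2_ext
      · simp [x₁, hφ]
      · simp [y₁, hφ]
    exact congrArg (fun ψ : P2 →ₐ[ℂ] ℂ[T;T⁻¹] => ψ p) this
  have hq : hom2 x₁ y₁ q = 0 := by
    apply Subtype.val_injective
    have := hval q
    rw [h.zero] at this
    simpa using this
  obtain ⟨τ, hτ0, hτ1⟩ := h.unit _ x₁ y₁ hq
  have h0 := map_lev φ.range.val τ x₀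
  have h1 := map_lev φ.range.val τ y₀
  rw [hτ0] at h0
  rw [hτ1] at h1
  have hT := h.rigid _ h0.symm h1.symm
  have hT1 : ((τ : φ.range) : ℂ[T;T⁻¹]) = T 1 := hT
  have hT2 : (((τ⁻¹ : (φ.range)ˣ) : φ.range) : ℂ[T;T⁻¹]) = T (-1) := by
    have h2 : ((τ : φ.range) : ℂ[T;T⁻¹]) * (((τ⁻¹ : (φ.range)ˣ) : φ.range) : ℂ[T;T⁻¹]) = 1 :=
      congrArg (Subtype.val) (Units.mul_inv τ)
    rw [hT1] at h2
    have h3 : (T (-1) : ℂ[T;T⁻¹]) * T 1 = 1 := by rw [← T_add]; simp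
    calc _ = (T (-1) * T 1) * (((τ⁻¹ : (φ.range)ˣ) : φ.range) : ℂ[T;T⁻¹]) := by
          rw [h3, one_mul]
      _ = T (-1) * (T 1 * (((τ⁻¹ : (φ.range)ˣ) : φ.range) : ℂ[T;T⁻¹])) := by ring
      _ = _ := by rw [h2, mul_one]
  have hmem1 : (T 1 : ℂ[T;T⁻¹]) ∈ φ.range := by rw [← hT1]; exact (τ : φ.range).2
  have hmem2 : (T (-1) : ℂ[T;T⁻¹]) ∈ φ.range := by
    rw [← hT2]; exact ((τ⁻¹ : (φ.range)ˣ) : φ.range).2
  have hall : ∀ z : ℂ[T;T⁻¹], z ∈ φ.range := by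
    intro z
    induction z using LaurentPolynomial.induction_on' with
    | add p q hp hq => exact add_mem hp hq
    | C_mul_T n a =>
      apply mul_mem
      · rw [LaurentPolynomial.C_eq_algebraMap]
        exact φ.range.algebraMap_mem a
      · rcases Int.eq_nat_or_neg n with ⟨m, rfl | rfl⟩
        · have : (T (m : ℤ) : ℂ[T;T⁻¹]) = T 1 ^ m := by rw [T_pow]; simp
          rw [this]
          exact pow_mem hmem1 m
        · have : (T (-(m : ℤ)) : ℂ[T;T⁻¹]) = T (-1) ^ m := by rw [T_pow]; simp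
          rw [this]
          exact pow_mem hmem2 m
  intro z
  obtain ⟨p, hp⟩ := hall z
  exact ⟨p, hp⟩

end Pool.Agent.Helper34_CStar
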