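import Pool.Agent.Helper34_CStar.Trunc

/-!
# The families of embeddings with a coordinate which is a power of the parameter
-/

namespace Pool.Agent.Helper34_CStar

open Polynomial LaurentPolynomial

/-- `x ^ k y - g(x)` -/
noncomputable def r₀ (k : ℕ) (g : ℂ[X]) : P2 :=
  MvPolynomial.X 0 ^ k * MvPolynomial.X 1 - aeval (MvPolynomial.X 0 : P2) g

/-- `(x ^ n y - g(x)) ^ d - x ^ l` -/
noncomputable def r₁ (d n l : ℕ) (g : ℂ[X]) : P2 :=
  (MvPolynomial.X 0 ^ n * MvPolynomial.X 1 - aeval (MvPolynomial.X 0 : P2) g) ^ d -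
    MvPolynomial.X 0 ^ l

/-- `x ^ l (x ^ n y - g(x)) ^ d` -/
noncomputable def r₂ (d n l : ℕ) (g : ℂ[X]) : P2 :=
  MvPolynomial.X 0 ^ l *
    (MvPolynomial.X 0 ^ n * MvPolynomial.X 1 - aeval (MvPolynomial.X 0 : P2) g) ^ d

section

variable {S : Type*} [CommRing S] [Algebra ℂ S]

theorem hom2_r₀ (x y : S) (k : ℕ) (g : ℂ[X]) :
    hom2 x y (r₀ k g) = x ^ k * y - aeval x g := by
  simp [r₀, hom2_aeval]

theorem hom2_r₁ (x y : S) (d n l : ℕ) (g : ℂ[X]) :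
    hom2 x y (r₁ d n l g) = (x ^ n * y - aeval x g) ^ d - x ^ l := by
  simp [r₁, hom2_aeval]

theorem hom2_r₂ (x y : S) (d n l : ℕ) (g : ℂ[X]) :
    hom2 x y (r₂ d n l g) = x ^ l * (x ^ n * y - aeval x g) ^ d := by
  simp [r₂, hom2_aeval]

omit [Algebra ℂ S] in
theorem isUnit_of_coprime_pow {x : S} {l : ℕ} (hl : 1 ≤ l) (h : IsCoprime x (x ^ l)) :
    IsUnit x := by
  obtain ⟨a, b, hab⟩ := h
  obtain ⟨m, rfl⟩ : ∃ m, l = m + 1 := ⟨l - 1, by omega⟩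
  apply IsUnit.of_mul_eq_one (a + b * x ^ m)
  linear_combination hab

/-- a common root in a group -/
theorem exists_common_root {G : Type*} [CommGroup G] {u x : G} {m d : ℤ} (h : IsCoprime m d)
    (hux : u ^ d = x ^ m) : ∃ τ : G, τ ^ d = x ∧ τ ^ m = u := by
  obtain ⟨a, b, hab⟩ := h
  refine ⟨u ^ a * x ^ b, ?_, ?_⟩
  · rw [mul_zpow, ← zpow_mul, ← zpow_mul, mul_comm a d, zpow_mul, hux, ← zpow_mul, ← zpow_add]
    have : m * a + b * d = 1 := by rw [mul_comm m a]; exact hab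
    rw [this, zpow_one]
  · rw [mul_zpow, ← zpow_mul, ← zpow_mul, mul_comm b m, zpow_mul x, ← hux, ← zpow_mul, ← zpow_add]
    have : a * m + d * b = 1 := by rw [mul_comm d b]; exact hab
    rw [this, zpow_one]

theorem eq_of_zpow_eq {G : Type*} [CommGroup G] {u v : G} {m d : ℤ} (h : IsCoprime m d)
    (hm : u ^ m = v ^ m) (hd : u ^ d = v ^ d) : u = v := by
  obtain ⟨a, b, hab⟩ := h
  have h1 : ∀ w : G, w = (w ^ m) ^ a * (w ^ d) ^ b := by
    intro w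
    rw [← zpow_mul, ← zpow_mul, ← zpow_add]
    have : m * a + d * b = 1 := by rw [mul_comm m a, mul_comm d b]; exact hab
    rw [this, zpow_one]
  rw [h1 u, h1 v, hm, hd]

end

/-- the second coordinate of the families with `x = T ^ d` -/
noncomputable def yPow (d n : ℕ) (m : ℤ) (g : ℂ[X]) : ℂ[T;T⁻¹] :=
  T (-((n * d : ℕ) : ℤ)) * (aeval (T (d : ℤ) : ℂ[T;T⁻¹]) g + T m)

theorem yPow_eq (d n : ℕ) (m : ℤ) (g : ℂ[X]) :
    (T (d : ℤ) : ℂ[T;T⁻¹]) ^ n * yPow d n m g - aeval (T (d : ℤ) : ℂ[T;T⁻¹]) g = T m := by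
  rw [yPow, T_pow]
  have h : (T ((n : ℤ) * (d : ℤ)) : ℂ[T;T⁻¹]) * T (-((n * d : ℕ) : ℤ)) = 1 := by
    rw [← T_add]
    have : (n : ℤ) * (d : ℤ) + -((n * d : ℕ) : ℤ) = 0 := by push_cast; ring
    rw [this, T_zero]
  linear_combination (aeval (T (d : ℤ) : ℂ[T;T⁻¹]) g + T m) * h

theorem pow_unit {S : Type*} [CommRing S] [Algebra ℂ S] {d n : ℕ} {m : ℤ}
    (hmd : IsCoprime m (d : ℤ)) (g : ℂ[X]) (x u : Sˣ) (y : S)
    (h1 : (x : S) ^ n * y - aeval (x : S) g = u) (h2 : u ^ (d : ℤ) = x ^ m) :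
    ∃ τ : Sˣ, lev τ (T (d : ℤ)) = (x : S) ∧ lev τ (yPow d n m g) = y := by
  obtain ⟨τ, hτ1, hτ2⟩ := exists_common_root hmd h2
  have hx : lev τ (T (d : ℤ)) = (x : S) := by rw [lev_T, hτ1]
  refine ⟨τ, hx, ?_⟩
  have h3 := congrArg (levA τ) (yPow_eq d n m g)
  rw [map_sub, map_mul, map_pow, ← aeval_algHom_apply, levA_apply, levA_apply, levA_apply, hx,
    lev_T, hτ2, ← h1] at h3
  have h4 : IsUnit ((x : S) ^ n) := x.isUnit.pow n
  apply h4.mul_left_cancel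
  linear_combination h3

theorem pow_rigid {d n : ℕ} {m : ℤ} (hmd : IsCoprime m (d : ℤ)) (g : ℂ[X])
    (τ : (ℂ[T;T⁻¹])ˣ) (h0 : lev τ (T (d : ℤ)) = T (d : ℤ))
    (h1 : lev τ (yPow d n m g) = yPow d n m g) : (τ : ℂ[T;T⁻¹]) = T 1 := by
  have h2 := congrArg (levA τ) (yPow_eq d n m g)
  rw [map_sub, map_mul, map_pow, ← aeval_algHom_apply, levA_apply, levA_apply, levA_apply, h0,
    h1, yPow_eq] at h2
  have hT : ∀ k : ℤ, (((sc 1 one_ne_zero) ^ k : (ℂ[T;T⁻¹])ˣ) : ℂ[T;T⁻¹]) = T k := by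
    intro k
    have := lev_T (sc 1 one_ne_zero) k
    rw [lev_sc_one] at this
    exact this.symm
  rw [lev_T, ← hT] at h2 h0
  have h3 := eq_of_zpow_eq hmd (Units.ext h2.symm) (Units.ext h0)
  rw [h3, sc_val, map_one, one_mul]

theorem isStd_r₁ {d n l : ℕ} (hd : 1 ≤ d) (hn : 1 ≤ n) (hl : 1 ≤ l) (hld : Nat.Coprime l d)
    {g : ℂ[X]} (hg : g.coeff 0 = 1) :
    IsStd (T (d : ℤ)) (yPow d n (l : ℤ) g) (r₁ d n l g) where
  zero := by
    rw [hom2_r₁, yPow_eq, T_pow, T_pow, mul_comm (l : ℤ), sub_self]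
  unit := by
    intro S _ _ x y h
    rw [hom2_r₁, sub_eq_zero] at h
    obtain ⟨A, hA⟩ := aeval_eq_one_add hg x
    obtain ⟨u, hu⟩ : ∃ u, u = x ^ n * y - aeval x g := ⟨_, rfl⟩
    rw [← hu] at h
    have hcop : IsCoprime x u := by
      obtain ⟨n', rfl⟩ : ∃ n', n = n' + 1 := ⟨n - 1, by omega⟩
      refine ⟨x ^ n' * y - A, -1, ?_⟩
      rw [hu, hA]; ring
    have hxu : IsUnit x := by
      have h1 := hcop.pow_right (n := d)
      rw [h] at h1
      exact isUnit_of_coprime_pow hl h1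
    have huu : IsUnit u := by
      have h1 := hcop.symm.pow_right (n := l)
      rw [← h] at h1
      exact isUnit_of_coprime_pow hd h1
    obtain ⟨x', rfl⟩ := hxu
    obtain ⟨u', rfl⟩ := huu
    apply pow_unit ((Nat.isCoprime_iff_coprime).mpr hld) g x' u' y hu.symm
    rw [zpow_natCast, zpow_natCast]
    exact Units.ext (by simpa using h)
  rigid := pow_rigid ((Nat.isCoprime_iff_coprime).mpr hld) g

theorem isStd_r₂ {d n l : ℕ} (hd : 1 ≤ d) (hl : 1 ≤ l) (hld : Nat.Coprime l d) (g : ℂ[X]) :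
    IsStd (T (d : ℤ)) (yPow d n (-(l : ℤ)) g) (r₂ d n l g - MvPolynomial.C 1) where
  zero := by
    rw [map_sub, hom2_r₂, yPow_eq, T_pow, T_pow, hom2_C, map_one, ← T_add]
    have : (l : ℤ) * (d : ℤ) + (d : ℤ) * -(l : ℤ) = 0 := by ring
    rw [this, T_zero, sub_self]
  unit := by
    intro S _ _ x y h
    rw [map_sub, hom2_r₂, hom2_C, map_one, sub_eq_zero] at h
    obtain ⟨u, hu⟩ : ∃ u, u = x ^ n * y - aeval x g := ⟨_, rfl⟩
    rw [← hu] at h
    have hxu : IsUnit x := by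
      apply isUnit_of_dvd_one
      rw [← h]
      exact Dvd.dvd.mul_right (dvd_pow_self x (by omega)) _
    have huu : IsUnit u := by
      apply isUnit_of_dvd_one
      rw [← h]
      exact Dvd.dvd.mul_left (dvd_pow_self u (by omega)) _
    obtain ⟨x', rfl⟩ := hxu
    obtain ⟨u', rfl⟩ := huu
    apply pow_unit (((Nat.isCoprime_iff_coprime).mpr hld).neg_left) g x' u' y hu.symm
    rw [zpow_neg, zpow_natCast, zpow_natCast, eq_comm, inv_eq_iff_mul_eq_one]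
    exact Units.ext (by simpa using h)
  rigid := pow_rigid (((Nat.isCoprime_iff_coprime).mpr hld).neg_left) g

/-- the second coordinate of the first family -/
noncomputable def yLin (k : ℕ) (c : ℂ) (g : ℂ[X]) : ℂ[T;T⁻¹] :=
  T (-(k : ℤ)) * toLaurent (Polynomial.C c + g)

theorem isStd_r₀ {k : ℕ} (hk : 1 ≤ k) {c : ℂ} (hc : c ≠ 0) {g : ℂ[X]} (hg : g.coeff 0 = 0) :
    IsStd (T 1) (yLin k c g) (r₀ k g - MvPolynomial.C c) where
  zero := by
    have e1 : (T (k : ℤ) : ℂ[T;T⁻¹]) * T (-(k : ℤ)) = 1 := by rw [← T_add]; simp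
    have e2 : aeval (T 1 : ℂ[T;T⁻¹]) g = toLaurent g := by
      have h1 : (T 1 : ℂ[T;T⁻¹]) = toLaurent X := by simp
      rw [h1, aeval_toLaurent, comp_X]
    rw [map_sub, hom2_r₀, hom2_C, ← T_natCast_pow, yLin, e2, map_add, toLaurent_C,
      ← LaurentPolynomial.C_eq_algebraMap]
    linear_combination (LaurentPolynomial.C c + toLaurent g) * e1
  unit := by
    intro S _ _ x y h
    rw [map_sub, hom2_r₀, hom2_C] at h
    obtain ⟨g₁, hg₁⟩ := X_dvd_iff.mpr hg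
    obtain ⟨m, rfl⟩ : ∃ m, k = m + 1 := ⟨k - 1, by omega⟩
    have h2 : algebraMap ℂ S c⁻¹ * algebraMap ℂ S c = 1 := by
      rw [← map_mul, inv_mul_cancel₀ hc, map_one]
    have h1 : x * (algebraMap ℂ S c⁻¹ * (x ^ m * y - aeval x g₁)) = 1 := by
      rw [hg₁, map_mul, aeval_X] at h
      linear_combination algebraMap ℂ S c⁻¹ * h + h2
    obtain ⟨τ, hτ, hτ'⟩ := unit_mul_inv h1
    refine ⟨τ, by rw [lev_T, zpow_one, hτ], ?_⟩
    rw [yLin, map_mul, lev_T_neg, lev_toLaurent, hτ, map_add, aeval_C]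
    have h3 : (((τ⁻¹ : Sˣ) : S)) ^ (m + 1) * x ^ (m + 1) = 1 := by
      rw [← hτ, ← mul_pow, Units.inv_mul, one_pow]
    linear_combination (-(((τ⁻¹ : Sˣ) : S)) ^ (m + 1)) * h + y * h3
  rigid := by
    intro τ h0 _
    rwa [lev_T, zpow_one] at h0

end Pool.Agent.Helper34_CStar
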