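import Pool.Agent.Helper34_CStar.Std

/-!
# The three standard families
-/

namespace Pool.Agent.Helper34_CStar

open Polynomial LaurentPolynomial

theorem unit_mul_inv {S : Type*} [CommRing S] {a b : S} (h : a * b = 1) :
    ∃ u : Sˣ, (u : S) = a ∧ ((u⁻¹ : Sˣ) : S) = b :=
  ⟨⟨a, b, h, by rw [mul_comm]; exact h⟩, rfl, rfl⟩

theorem T_natCast_pow (n : ℕ) : (T (n : ℤ) : ℂ[T;T⁻¹]) = T 1 ^ n := by
  rw [T_pow]; simp

theorem T_neg_natCast_pow (n : ℕ) : (T (-(n : ℤ)) : ℂ[T;T⁻¹]) = T (-1) ^ n := by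
  rw [T_pow]; simp

theorem T_mul_T_neg : (T 1 : ℂ[T;T⁻¹]) * T (-1) = 1 := by rw [← T_add]; simp

/-- a unit with the inverse of the variable as inverse is the variable -/
theorem unit_eq_T {τ : (ℂ[T;T⁻¹])ˣ} (h : ((τ⁻¹ : (ℂ[T;T⁻¹])ˣ) : ℂ[T;T⁻¹]) = T (-1)) :
    (τ : ℂ[T;T⁻¹]) = T 1 := by
  have h1 : (τ : ℂ[T;T⁻¹]) * T (-1) = 1 := by rw [← h]; exact Units.mul_inv τ
  calc (τ : ℂ[T;T⁻¹]) = (τ : ℂ[T;T⁻¹]) * (T 1 * T (-1)) := by rw [T_mul_T_neg, mul_one]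
    _ = (τ : ℂ[T;T⁻¹]) * T (-1) * T 1 := by ring
    _ = T 1 := by rw [h1, one_mul]

theorem lev_T_neg {S : Type*} [CommRing S] [Algebra ℂ S] (u : Sˣ) (n : ℕ) :
    lev u (T (-(n : ℤ))) = ((u⁻¹ : Sˣ) : S) ^ n := by
  rw [T_neg_natCast_pow, map_pow, lev_T]
  simp

theorem lev_T_nat {S : Type*} [CommRing S] [Algebra ℂ S] (u : Sˣ) (n : ℕ) :
    lev u (T (n : ℤ)) = (u : S) ^ n := by
  rw [T_natCast_pow, map_pow, lev_T]
  simp

theorem invert_toLaurent_eq (g : ℂ[X]) :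
    (invert (toLaurent g) : ℂ[T;T⁻¹]) = aeval (T (-1) : ℂ[T;T⁻¹]) g := by
  have : ((invert : ℂ[T;T⁻¹] ≃ₐ[ℂ] ℂ[T;T⁻¹]) : ℂ[T;T⁻¹] →ₐ[ℂ] ℂ[T;T⁻¹]).comp
      (toLaurentAlg : ℂ[X] →ₐ[ℂ] ℂ[T;T⁻¹]) = aeval (T (-1) : ℂ[T;T⁻¹]) := by
    apply Polynomial.algHom_ext
    simp
  exact congrArg (fun ψ : ℂ[X] →ₐ[ℂ] ℂ[T;T⁻¹] => ψ g) this

theorem hom2_q₁ {S : Type*} [CommRing S] [Algebra ℂ S] (x y : S) (d : ℕ) (g : ℂ[X]) :
    hom2 x y (q₁ d g) = x * y ^ d - aeval y g := by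
  simp [q₁, hom2_aeval]

theorem hom2_q₂ {S : Type*} [CommRing S] [Algebra ℂ S] (x y : S) (d : ℕ) :
    hom2 x y (q₂ d) = (1 - x * y) ^ d - y ^ (d - 1) := by
  simp [q₂]

theorem hom2_q₃ {S : Type*} [CommRing S] [Algebra ℂ S] (x y : S) (d : ℕ) :
    hom2 x y (q₃ d) = x * (1 - x * y) ^ d -
      ∑ i ∈ Finset.range d, (1 - x * y - y) ^ i * (1 - x * y) ^ (d - 1 - i) := by
  simp [q₃]

theorem isStd_first {d : ℕ} (hd : 1 ≤ d) {g : ℂ[X]} (hg : g.coeff 0 = 0) {c : ℂ} (hc : c ≠ 0) :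
    IsStd (T (d : ℤ) * invert (toLaurent (Polynomial.C c + g))) (T (-1)) (q₁ d g - MvPolynomial.C c) where
  zero := by
    rw [map_sub, hom2_q₁, invert_toLaurent_eq, hom2_C]
    rw [T_natCast_pow, map_add, aeval_C]
    have h : (T 1 : ℂ[T;T⁻¹]) ^ d * T (-1) ^ d = 1 := by rw [← mul_pow, T_mul_T_neg, one_pow]
    linear_combination (algebraMap ℂ ℂ[T;T⁻¹] c + aeval (T (-1) : ℂ[T;T⁻¹]) g) * h
  unit := by
    intro S _ _ x y h
    rw [map_sub, hom2_q₁, hom2_C] at h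
    obtain ⟨g₁, hg₁⟩ := X_dvd_iff.mpr hg
    obtain ⟨m, rfl⟩ : ∃ m, d = m + 1 := ⟨d - 1, by omega⟩
    have h1 : (algebraMap ℂ S c⁻¹ * (x * y ^ m - aeval y g₁)) * y = 1 := by
      have h2 : algebraMap ℂ S c⁻¹ * algebraMap ℂ S c = 1 := by
        rw [← map_mul, inv_mul_cancel₀ hc, map_one]
      rw [hg₁, map_mul, aeval_X] at h
      linear_combination algebraMap ℂ S c⁻¹ * h + h2
    obtain ⟨τ, hτ, hτ'⟩ := unit_mul_inv h1
    have hτy : (τ : S) * y = 1 := by rw [hτ]; exact h1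
    refine ⟨τ, ?_, ?_⟩
    · rw [map_mul, lev_T_nat, invert_toLaurent_eq]
      have h3 : lev τ (aeval (T (-1) : ℂ[T;T⁻¹]) (Polynomial.C c + g)) =
          aeval y (Polynomial.C c + g) := by
        have h4 := aeval_algHom_apply (levA τ) (T (-1) : ℂ[T;T⁻¹]) (Polynomial.C c + g)
        have h6 : lev τ (T (-1)) = y := by
          rw [lev_T]
          simpa using hτ'
        simp only [levA_apply, h6] at h4
        exact h4.symm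
      rw [h3, map_add, aeval_C]
      have h5 : (τ : S) ^ (m + 1) * y ^ (m + 1) = 1 := by rw [← mul_pow, hτy, one_pow]
      linear_combination -((τ : S) ^ (m + 1)) * h + x * h5
    · rw [lev_T]
      simpa using hτ'
  rigid := by
    intro τ _ h1
    apply unit_eq_T
    rw [lev_T] at h1
    simpa using h1

theorem isStd_second {d : ℕ} (hd : 2 ≤ d) :
    IsStd (T (d : ℤ) - T 1) (T (-(d : ℤ))) (q₂ d) where
  zero := by
    rw [hom2_q₂, T_natCast_pow, T_neg_natCast_pow]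
    obtain ⟨m, rfl⟩ : ∃ m, d = m + 1 := ⟨d - 1, by omega⟩
    have h : ∀ n : ℕ, (T 1 : ℂ[T;T⁻¹]) ^ n * T (-1) ^ n = 1 := by
      intro n; rw [← mul_pow, T_mul_T_neg, one_pow]
    have h1 : 1 - (T 1 ^ (m + 1) - T 1) * (T (-1) : ℂ[T;T⁻¹]) ^ (m + 1) = T (-1) ^ m := by
      linear_combination -h (m + 1) + T (-1) ^ m * T_mul_T_neg
    rw [h1, Nat.add_sub_cancel, ← pow_mul, ← pow_mul, mul_comm m, sub_self]
  unit := by
    intro S _ _ x y h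
    rw [hom2_q₂, sub_eq_zero] at h
    obtain ⟨τ, τ', h1, h2, h3⟩ := unit_of_second hd h
    obtain ⟨u, hu, hu'⟩ := unit_mul_inv h1
    refine ⟨u, ?_, ?_⟩
    · rw [map_sub, lev_T_nat, lev_T, hu, h3]
      simp [hu]
    · rw [lev_T_neg, hu', h2]
  rigid := by
    intro τ h0 h1
    rw [map_sub, lev_T_nat, lev_T, zpow_one] at h0
    rw [lev_T_neg, T_neg_natCast_pow] at h1
    rw [T_natCast_pow] at h0
    have h2 : (τ : ℂ[T;T⁻¹]) ^ d = T 1 ^ d := by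
      have h3 : (τ : ℂ[T;T⁻¹]) ^ d * ((τ⁻¹ : (ℂ[T;T⁻¹])ˣ) : ℂ[T;T⁻¹]) ^ d = 1 := by
        rw [← mul_pow, Units.mul_inv, one_pow]
      have h4 : (T 1 : ℂ[T;T⁻¹]) ^ d * T (-1) ^ d = 1 := by
        rw [← mul_pow, T_mul_T_neg, one_pow]
      rw [h1] at h3
      linear_combination T 1 ^ d * h3 - (τ : ℂ[T;T⁻¹]) ^ d * h4
    linear_combination h2 - h0

theorem third_identity {d : ℕ} :
    1 - (∑ i ∈ Finset.range d, T ((i + 1 : ℕ) : ℤ)) *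
      (T (-(d : ℤ)) - T (-((d + 1 : ℕ) : ℤ))) = (T (-(d : ℤ)) : ℂ[T;T⁻¹]) := by
  simp only [T_natCast_pow, T_neg_natCast_pow]
  obtain ⟨a, ha⟩ : ∃ a, a = (T 1 : ℂ[T;T⁻¹]) := ⟨_, rfl⟩
  obtain ⟨b, hb⟩ : ∃ b, b = (T (-1) : ℂ[T;T⁻¹]) := ⟨_, rfl⟩
  rw [← ha, ← hb]
  have hab : ∀ n : ℕ, a ^ n * b ^ n = 1 := by
    intro n; rw [ha, hb, ← mul_pow, T_mul_T_neg, one_pow]
  have hab1 : a * b = 1 := by simpa using hab 1
  obtain ⟨x, hx⟩ : ∃ x, x = ∑ i ∈ Finset.range d, a ^ (i + 1) := ⟨_, rfl⟩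
  rw [← hx]
  have hgs : x * (a - 1) = a * (a ^ d - 1) := by
    rw [hx, ← geom_sum_mul a d, ← mul_assoc, Finset.mul_sum]
    congr 1
    apply Finset.sum_congr rfl
    intro i _
    ring
  have h2 := hab d
  linear_combination (-b ^ (d + 1)) * hgs + (b ^ d * (x - (a ^ d - 1)) ) * hab1 - h2

theorem isStd_third {d : ℕ} (hd : 1 ≤ d) :
    IsStd (∑ i ∈ Finset.range d, T ((i + 1 : ℕ) : ℤ)) (T (-(d : ℤ)) - T (-((d + 1 : ℕ) : ℤ)))
      (q₃ d) where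
  zero := by
    rw [hom2_q₃]
    simp only [T_natCast_pow, T_neg_natCast_pow]
    have h : ∀ n : ℕ, (T 1 : ℂ[T;T⁻¹]) ^ n * T (-1) ^ n = 1 := by
      intro n; rw [← mul_pow, T_mul_T_neg, one_pow]
    obtain ⟨a, ha⟩ : ∃ a, a = (T 1 : ℂ[T;T⁻¹]) := ⟨_, rfl⟩
    obtain ⟨b, hb⟩ : ∃ b, b = (T (-1) : ℂ[T;T⁻¹]) := ⟨_, rfl⟩
    rw [← ha, ← hb]
    have hab : ∀ n : ℕ, a ^ n * b ^ n = 1 := by intro n; rw [ha, hb]; exact h n
    have hw := third_identity (d := d)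
    simp only [T_natCast_pow, T_neg_natCast_pow] at hw
    rw [← ha, ← hb] at hw
    rw [hw]
    have hv : b ^ d - (b ^ d - b ^ (d + 1)) = b ^ (d + 1) := by ring
    rw [hv, Finset.sum_mul, sub_eq_zero, ← Finset.sum_range_reflect]
    apply Finset.sum_congr rfl
    intro j hj
    rw [Finset.mem_range] at hj
    rw [← pow_mul, ← pow_mul, ← pow_mul, ← pow_add]
    have e1 : d - 1 - j + 1 = d - j := by omega
    rw [e1]
    have e2 : d * d = (d - j) + ((d + 1) * j + d * (d - 1 - j)) := by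
      obtain ⟨m, rfl⟩ : ∃ m, d = j + 1 + m := ⟨d - j - 1, by omega⟩
      have e3 : j + 1 + m - j = m + 1 := by omega
      have e4 : j + 1 + m - 1 - j = m := by omega
      rw [e3, e4]; ring
    rw [e2, pow_add, ← mul_assoc, hab, one_mul]
  unit := by
    intro S _ _ x y h
    rw [hom2_q₃, sub_eq_zero] at h
    obtain ⟨τ, τ', h1, h2, h3⟩ := unit_of_third hd h
    obtain ⟨u, hu, hu'⟩ := unit_mul_inv h1
    refine ⟨u, ?_, ?_⟩
    · rw [map_sum, h3]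
      apply Finset.sum_congr rfl
      intro i _
      rw [lev_T_nat, hu]
    · rw [map_sub, lev_T_neg, lev_T_neg, hu', h2]
  rigid := by
    intro τ h0 h1
    have h2 := congrArg (lev τ) (third_identity (d := d))
    rw [map_sub, map_mul, h0, h1, map_one, third_identity, lev_T_neg, T_neg_natCast_pow] at h2
    rw [map_sub, lev_T_neg, lev_T_neg, T_neg_natCast_pow, T_neg_natCast_pow] at h1
    apply unit_eq_T
    have h3 : (T 1 : ℂ[T;T⁻¹]) ^ d * T (-1) ^ d = 1 := by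
      rw [← mul_pow, T_mul_T_neg, one_pow]
    obtain ⟨b, hb⟩ : ∃ b, b = (T (-1) : ℂ[T;T⁻¹]) := ⟨_, rfl⟩
    obtain ⟨a, ha⟩ : ∃ a, a = (T 1 : ℂ[T;T⁻¹]) := ⟨_, rfl⟩
    obtain ⟨σ, hσ⟩ : ∃ σ, σ = ((τ⁻¹ : (ℂ[T;T⁻¹])ˣ) : ℂ[T;T⁻¹]) := ⟨_, rfl⟩
    rw [← hσ, ← hb] at h1 h2
    rw [← hb, ← ha] at h3
    rw [← hσ, ← hb]
    have h4 : (σ - b) * b ^ d = 0 := by
      have e1 : σ ^ (d + 1) = σ * σ ^ d := pow_succ' σ d
      have e2 : b ^ (d + 1) = b * b ^ d := pow_succ' b d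
      rw [e1, e2, ← h2] at h1
      linear_combination -h1
    linear_combination a ^ d * h4 - (σ - b) * h3

end Pool.Agent.Helper34_CStar
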