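import Pool.Agent.Helper34_CStar.Rel4

/-!
# The truncated quartic equations define embedded punctured lines
-/

namespace Pool.Agent.Helper34_CStar

open Polynomial LaurentPolynomial

theorem trunc₄_diff (j : Fin 6) {i : ℕ} {τ : ℂ[X]} {q : P2}
    (hq : MvPolynomial.X 0 ^ i * q = rel₄ j (MvPolynomial.X 0) (MvPolynomial.X 0 ^ i *
      MvPolynomial.X 1 + aeval (MvPolynomial.X 0 : P2) τ))
    {S : Type*} [CommRing S] [Algebra ℂ S] (x y y' : S) :
    hom2 x y q - hom2 x y' q =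
      (y - y') * relD₄ j x (x ^ i * y + aeval x τ) (x ^ i * y' + aeval x τ) := by
  -- the universal case
  have huniv : hom2 (MvPolynomial.X 0 : MvPolynomial (Fin 3) ℂ) (MvPolynomial.X 1) q -
      hom2 (MvPolynomial.X 0 : MvPolynomial (Fin 3) ℂ) (MvPolynomial.X 2) q =
      (MvPolynomial.X 1 - MvPolynomial.X 2) * relD₄ j (MvPolynomial.X 0)
        (MvPolynomial.X 0 ^ i * MvPolynomial.X 1 + aeval (MvPolynomial.X 0) τ)
        (MvPolynomial.X 0 ^ i * MvPolynomial.X 2 + aeval (MvPolynomial.X 0) τ) := by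
    have h1 := congrArg (hom2 (MvPolynomial.X 0 : MvPolynomial (Fin 3) ℂ) (MvPolynomial.X 1)) hq
    have h2 := congrArg (hom2 (MvPolynomial.X 0 : MvPolynomial (Fin 3) ℂ) (MvPolynomial.X 2)) hq
    rw [map_rel₄, map_add, map_mul, map_mul, map_pow, hom2_X0, hom2_X1, hom2_aeval, hom2_X0]
      at h1 h2
    have h3 := rel₄_sub j (MvPolynomial.X 0 : MvPolynomial (Fin 3) ℂ)
      (MvPolynomial.X 0 ^ i * MvPolynomial.X 1 + aeval (MvPolynomial.X 0) τ)
      (MvPolynomial.X 0 ^ i * MvPolynomial.X 2 + aeval (MvPolynomial.X 0) τ)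
    apply mul_left_cancel₀ (pow_ne_zero i (MvPolynomial.X_ne_zero (R := ℂ) (0 : Fin 3)))
    linear_combination h1 - h2 + h3
  let ψ : MvPolynomial (Fin 3) ℂ →ₐ[ℂ] S := MvPolynomial.aeval ![x, y, y']
  have hψ : ∀ (a b : MvPolynomial (Fin 3) ℂ) (r : P2), ψ (hom2 a b r) = hom2 (ψ a) (ψ b) r := by
    intro a b r
    have : ψ.comp (hom2 a b) = hom2 (ψ a) (ψ b) := by
      apply hom2_ext <;> simp
    exact congrArg (fun χ : P2 →ₐ[ℂ] S => χ r) this
  have h0 : ψ (MvPolynomial.X 0) = x := by simp [ψ]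
  have h1 : ψ (MvPolynomial.X 1) = y := by simp [ψ]
  have h2 : ψ (MvPolynomial.X 2) = y' := by simp [ψ]
  have h3 := congrArg ψ huniv
  have h4 : ψ (aeval (MvPolynomial.X 0 : MvPolynomial (Fin 3) ℂ) τ) = aeval x τ := by
    rw [← aeval_algHom_apply, h0]
  rw [map_sub, map_mul, map_sub, map_relD₄, map_add, map_add, map_mul, map_mul, map_pow, h4, hψ,
    hψ, h0, h1, h2] at h3
  exact h3

theorem x₄_ne_zero (j : Fin 6) : x₄ j ≠ 0 := by
  intro h
  have h1 := congrArg (lev (Units.mk0 (2 : ℂ) two_ne_zero)) h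
  simp [x₄] at h1
  norm_num at h1

theorem isStd_trunc₄ (j : Fin 6) {i : ℕ} (hi : 1 ≤ i) {τ : ℂ[X]} {q : P2} (h0 : τ.coeff 0 = 1)
    (hq : MvPolynomial.X 0 ^ i * q = rel₄ j (MvPolynomial.X 0) (MvPolynomial.X 0 ^ i *
      MvPolynomial.X 1 + aeval (MvPolynomial.X 0 : P2) τ)) {y₀ : ℂ[T;T⁻¹]}
    (hy : x₄ j ^ i * y₀ + aeval (x₄ j) τ = w₄ j) : IsStd (x₄ j) y₀ q := by
  have hrel : ∀ {S : Type} [CommRing S] [Algebra ℂ S] (x y : S),
      x ^ i * hom2 x y q = rel₄ j x (x ^ i * y + aeval x τ) := by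
    intro S _ _ x y
    have h1 := congrArg (hom2 x y) hq
    rwa [map_rel₄, map_add, map_mul, map_mul, map_pow, hom2_X0, hom2_X1, hom2_aeval, hom2_X0]
      at h1
  have hzero : hom2 (x₄ j) y₀ q = 0 := by
    have h1 := hrel (x₄ j) y₀
    rw [hy, rel₄_std] at h1
    exact (mul_eq_zero.mp h1).resolve_left (pow_ne_zero i (x₄_ne_zero j))
  refine ⟨hzero, ?_, ?_⟩
  · intro S _ _ x y h
    have h1 := hrel x y
    rw [h, mul_zero] at h1
    obtain ⟨B, hB⟩ := aeval_eq_one_add h0 x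
    obtain ⟨m, rfl⟩ : ∃ m, i = m + 1 := ⟨i - 1, by omega⟩
    have h2 : x ^ (m + 1) * y + aeval x τ = 1 + x * (x ^ m * y + B) := by
      rw [hB]; ring
    obtain ⟨u, hu0, hu1⟩ := rel₄_unit j h1.symm h2
    refine ⟨u, hu0, ?_⟩
    set y₁ := lev u y₀ with hy₁
    have h3 := congrArg (levA u) hy
    rw [map_add, map_mul, map_pow, ← aeval_algHom_apply, levA_apply, levA_apply, levA_apply, hu0,
      hu1, ← hy₁] at h3
    have h4 := trunc₄_diff j hq x y y₁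
    have h5 : hom2 x y₁ q = 0 := by
      have h6 := congrArg (levA u) hzero
      have h7 : (levA u).comp (hom2 (x₄ j) y₀) = hom2 x y₁ := by
        apply hom2_ext
        · rw [AlgHom.comp_apply, hom2_X0, levA_apply, hu0, hom2_X0]
        · rw [AlgHom.comp_apply, hom2_X1, levA_apply, hom2_X1]
      rw [map_zero] at h6
      rw [← h7]; exact h6
    rw [h, h5, sub_zero] at h4
    have h6 : x ^ (m + 1) * (y - y₁) = 0 := by linear_combination -h3
    obtain ⟨a, b, c, hD⟩ := relD₄_one j x (x ^ (m + 1) * y + aeval x τ)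
      (x ^ (m + 1) * y₁ + aeval x τ)
    -- `relD₄ = 1 + x * e`
    obtain ⟨e, he⟩ : ∃ e, relD₄ j x (x ^ (m + 1) * y + aeval x τ)
        (x ^ (m + 1) * y₁ + aeval x τ) = 1 + x * e := by
      refine ⟨a + (x ^ m * y + B) * b + (x ^ m * y₁ + B) * c, ?_⟩
      rw [hD, hB]; ring
    rw [he] at h4
    have hcop : IsCoprime (x ^ (m + 1)) (1 + x * e) := by
      apply IsCoprime.pow_left
      exact ⟨-e, 1, by ring⟩
    exact (sub_eq_zero.mp (eq_zero_of_coprime hcop h6 (by linear_combination -h4))).symm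
  · intro u h1 h2
    apply rel₄_rigid j h1
    have h3 := congrArg (levA u) hy
    rw [map_add, map_mul, map_pow, ← aeval_algHom_apply, levA_apply, levA_apply, levA_apply, h1,
      h2, hy] at h3
    exact h3.symm

theorem lev_x₄_one (j : Fin 6) : lev (1 : ℂˣ) (x₄ j) = 0 := by
  simp [x₄]

theorem lev_w₄_one (j : Fin 6) : lev (1 : ℂˣ) (w₄ j) = 1 := by
  fin_cases j <;> simp [w₄, map_ofNat]
  norm_num

/-- `x₄` is a unit times `T - 1` -/
theorem x₄_eq (j : Fin 6) : ∃ u : ℂ[T;T⁻¹], IsUnit u ∧ x₄ j = (T 1 - 1) * u :=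
  ⟨T 1 ^ 3, (isUnit_T 1).pow 3, by rw [x₄]; ring⟩

/-- the second coordinate exists -/
theorem exists_y₄ (j : Fin 6) {i : ℕ} {τ : ℂ[X]} (h0 : τ.coeff 0 = 1)
    (h : X ^ i ∣ rel₄ j X τ) : ∃ y₀ : ℂ[T;T⁻¹], x₄ j ^ i * y₀ + aeval (x₄ j) τ = w₄ j := by
  obtain ⟨u, hu, hx⟩ := x₄_eq j
  obtain ⟨ρ, hρ⟩ := h
  have h1 := congrArg (aeval (x₄ j)) hρ
  rw [map_rel₄, map_mul, map_pow, aeval_X] at h1
  have h2 := rel₄_sub j (x₄ j) (w₄ j) (aeval (x₄ j) τ)
  rw [rel₄_std, h1, zero_sub] at h2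
  obtain ⟨a, b, c, hD⟩ := relD₄_one j (x₄ j) (w₄ j) (aeval (x₄ j) τ)
  have hb : ∃ e, w₄ j - 1 = (T 1 - 1) * e := by
    fin_cases j <;> simp only [w₄]
    · exact ⟨1, by ring⟩
    · exact ⟨-T (-1), by linear_combination T_mul_T_neg⟩
    · exact ⟨T 1 + 1, by ring⟩
    · exact ⟨-T (-1) * (T (-1) + 1), by linear_combination (T (-1) + 1) * T_mul_T_neg⟩
    · exact ⟨2 * T 1 + 1, by ring⟩
    · exact ⟨T 1 ^ 2 + T 1 + 1, by ring⟩
  obtain ⟨e, he⟩ := hb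
  obtain ⟨B, hB⟩ := aeval_eq_one_add h0 (x₄ j)
  have hcop : IsCoprime ((T 1 - 1 : ℂ[T;T⁻¹]) ^ i)
      (relD₄ j (x₄ j) (w₄ j) (aeval (x₄ j) τ)) := by
    apply IsCoprime.pow_left
    refine ⟨-(u * a + e * b + u * B * c), 1, ?_⟩
    rw [hD, he, hB, hx]; ring
  have h3 : (T 1 - 1 : ℂ[T;T⁻¹]) ^ i ∣ (w₄ j - aeval (x₄ j) τ) *
      relD₄ j (x₄ j) (w₄ j) (aeval (x₄ j) τ) := by
    rw [← h2, dvd_neg]
    refine Dvd.dvd.mul_right ?_ _
    rw [hx, mul_pow]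
    exact Dvd.intro _ rfl
  obtain ⟨z, hz⟩ := hcop.dvd_of_dvd_mul_right h3
  obtain ⟨v, hv⟩ := hu.exists_right_inv
  refine ⟨z * v ^ i, ?_⟩
  have h4 : u ^ i * v ^ i = 1 := by rw [← mul_pow, hv, one_pow]
  rw [hx, mul_pow] at *
  linear_combination -hz + (T 1 - 1) ^ i * z * h4

end Pool.Agent.Helper34_CStar
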