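import Pool.Agent.Helper34_CStar.Quart2

/-!
# The structure of pairs for `T ^ 2 + a T + b / T + 1 / T ^ 2`
-/

namespace Pool.Agent.Helper34_CStar

open Polynomial LaurentPolynomial

section

variable {a b : ℂ}

/-- reduction on the curve of pairs -/
theorem pair_reduce_tt (z : ℂ[T;T⁻¹]) : ∃ (M : ℕ) (A B : ℂ[T;T⁻¹]),
    ∀ (S : Type) [CommRing S] [Algebra ℂ S] (p t : Sˣ) (ω : S),
      ω * ((p : S) ^ 2 - 1) = 1 →
      (t : S) ^ 2 = ω * p * (algebraMap ℂ S b - algebraMap ℂ S a * p) * t - p →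
      lev t z = ω ^ M * (lev p A + lev p B * t) := by
  induction z using laurent_ind with
  | hC r =>
    refine ⟨0, LaurentPolynomial.C r, 0, ?_⟩
    intro S _ _ p t ω _ _
    rw [map_zero, zero_mul, lev_C, lev_C]; ring
  | hadd z w hz hw =>
    obtain ⟨M, A, B, h⟩ := hz
    obtain ⟨M', A', B', h'⟩ := hw
    refine ⟨M + M', A * (T 1 ^ 2 - 1) ^ M' + A' * (T 1 ^ 2 - 1) ^ M,
      B * (T 1 ^ 2 - 1) ^ M' + B' * (T 1 ^ 2 - 1) ^ M, ?_⟩
    intro S _ _ p t ω h1 h2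
    have e1 : ω ^ M * ((p : S) ^ 2 - 1) ^ M = 1 := by rw [← mul_pow, h1, one_pow]
    have e2 : ω ^ M' * ((p : S) ^ 2 - 1) ^ M' = 1 := by rw [← mul_pow, h1, one_pow]
    rw [map_add, h S p t ω h1 h2, h' S p t ω h1 h2]
    simp only [map_add, map_sub, map_mul, map_pow, map_one, lev_T, zpow_one, pow_add]
    linear_combination (-(ω ^ M * (lev p A + lev p B * t))) * e2 -
      (ω ^ M' * (lev p A' + lev p B' * t)) * e1
  | hT z ih =>
    obtain ⟨M, A, B, h⟩ := ih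
    refine ⟨M + 1, -T 1 * B * (T 1 ^ 2 - 1), A * (T 1 ^ 2 - 1) +
      B * T 1 * (LaurentPolynomial.C b - LaurentPolynomial.C a * T 1), ?_⟩
    intro S _ _ p t ω h1 h2
    rw [map_mul, h S p t ω h1 h2]
    simp only [map_add, map_sub, map_mul, map_neg, map_pow, map_one, lev_C, lev_T, zpow_one,
      pow_succ]
    linear_combination (ω ^ M * lev p B) * h2 - ω ^ M * (lev p A * t - lev p B * p) * h1
  | hT' z ih =>
    obtain ⟨M, A, B, h⟩ := ih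
    refine ⟨M + 1, B * (T 1 ^ 2 - 1) + A * (LaurentPolynomial.C b - LaurentPolynomial.C a * T 1),
      -A * T (-1) * (T 1 ^ 2 - 1), ?_⟩
    intro S _ _ p t ω h1 h2
    have ht : (t : S) * ((t⁻¹ : Sˣ) : S) = 1 := Units.mul_inv t
    have hp : (p : S) * ((p⁻¹ : Sˣ) : S) = 1 := Units.mul_inv p
    have h3 : ((t⁻¹ : Sˣ) : S) = (ω * p * (algebraMap ℂ S b - algebraMap ℂ S a * p) - t) *
        ((p⁻¹ : Sˣ) : S) := by
      apply t.isUnit.mul_left_cancel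
      linear_combination ht - hp + ((p⁻¹ : Sˣ) : S) * h2
    rw [map_mul, h S p t ω h1 h2]
    simp only [map_add, map_sub, map_mul, map_neg, map_pow, map_one, lev_C, lev_T, zpow_one,
      zpow_neg, pow_succ]
    linear_combination (ω ^ M * lev p A) * h3 + (ω ^ M * lev p B) * ht +
      ω ^ M * (-(lev p B) + lev p A * ((p⁻¹ : Sˣ) : S) * t) * h1 +
      ω ^ M * lev p A * ω * (algebraMap ℂ S b - algebraMap ℂ S a * p) * hp

/-- the value of `x` in terms of the pair -/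
theorem lev_pair_tt {x : ℂ[T;T⁻¹]} (hx : x = T 1 ^ 2 + LaurentPolynomial.C a * T 1 +
    LaurentPolynomial.C b * T (-1) + T (-1) ^ 2)
    {S : Type*} [CommRing S] [Algebra ℂ S] (p t : Sˣ) (σ : S) (h1 : (t : S) ^ 2 = σ * t - p)
    (h2 : σ * ((p : S) ^ 2 - 1) = p * (algebraMap ℂ S b - algebraMap ℂ S a * p)) :
    lev t x = -p - ((p⁻¹ : Sˣ) : S) + algebraMap ℂ S b * σ * ((p⁻¹ : Sˣ) : S) +
      σ ^ 2 * ((p⁻¹ : Sˣ) : S) ^ 2 := by
  have ht : (t : S) * ((t⁻¹ : Sˣ) : S) = 1 := Units.mul_inv t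
  have hp : (p : S) * ((p⁻¹ : Sˣ) : S) = 1 := Units.mul_inv p
  have h3 : ((t⁻¹ : Sˣ) : S) = (σ - t) * ((p⁻¹ : Sˣ) : S) := by
    apply t.isUnit.mul_left_cancel
    linear_combination ht - hp + ((p⁻¹ : Sˣ) : S) * h1
  rw [hx]
  simp only [map_add, map_mul, map_pow, lev_C, lev_T, zpow_one, zpow_neg]
  rw [h3]
  obtain ⟨q, hq⟩ : ∃ q, q = ((p⁻¹ : Sˣ) : S) := ⟨_, rfl⟩
  rw [← hq] at hp ⊢
  linear_combination (1 + q ^ 2) * h1 + (t : S) * q ^ 2 * h2 -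
    (t : S) * σ * (p * q + 1) * hp + (t : S) * q * algebraMap ℂ S b * hp -
      algebraMap ℂ S a * (t : S) * (p * q + 1) * hp - q * hp

/-- a polynomial whose roots are among three points -/
theorem eq_of_roots₃ {P : ℂ[X]} (hP : P ≠ 0) (h : ∀ u, P.eval u = 0 → u = 0 ∨ u = 1 ∨ u = -1) :
    ∃ (c : ℂ) (i j k : ℕ), c ≠ 0 ∧ P = Polynomial.C c * (X ^ i * (X - 1) ^ j * (X + 1) ^ k) := by
  have key : ∀ s : Multiset ℂ, (∀ u ∈ s, u = 0 ∨ u = 1 ∨ u = -1) → ∃ i j k : ℕ,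
      (s.map fun r => X - Polynomial.C r).prod = X ^ i * (X - 1) ^ j * (X + 1) ^ k := by
    intro s
    induction s using Multiset.induction_on with
    | empty => intro _; exact ⟨0, 0, 0, by simp⟩
    | cons r s ih =>
      intro hs
      obtain ⟨i, j, k, hi⟩ := ih fun u hu => hs u (Multiset.mem_cons_of_mem hu)
      rw [Multiset.map_cons, Multiset.prod_cons, hi]
      rcases hs r (Multiset.mem_cons_self r s) with rfl | rfl | rfl
      · exact ⟨i + 1, j, k, by rw [map_zero]; ring⟩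
      · exact ⟨i, j + 1, k, by rw [map_one]; ring⟩
      · exact ⟨i, j, k + 1, by rw [map_neg, map_one]; ring⟩
  obtain ⟨i, j, k, hi⟩ := key P.roots (by
    intro u hu
    exact h u ((mem_roots hP).mp hu))
  refine ⟨P.leadingCoeff, i, j, k, leadingCoeff_ne_zero.mpr hP, ?_⟩
  rw [← hi]
  exact (IsAlgClosed.splits P).eq_prod_roots

/-- the structure of the second coordinate -/
theorem two_two_structure (hab : a ^ 2 ≠ b ^ 2) {x y : ℂ[T;T⁻¹]}
    (hx : x = T 1 ^ 2 + LaurentPolynomial.C a * T 1 +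
    LaurentPolynomial.C b * T (-1) + T (-1) ^ 2)
    (hadj : Algebra.adjoin ℂ {x, y} = ⊤) :
    ∃ (c : ℂ) (l m n : ℤ), c ≠ 0 ∧ ∀ t s : ℂˣ, t ≠ s → lev t x = lev s x →
      ((t : ℂ) * s) ^ 2 ≠ 1 ∧
      lev t y - lev s y = c * ((t : ℂ) * s) ^ l * ((t : ℂ) * s - 1) ^ m *
        ((t : ℂ) * s + 1) ^ n * (t - s) := by
  obtain ⟨M, A, B, hAB⟩ := pair_reduce_tt (a := a) (b := b) y
  have hB : ∀ p : ℂˣ, (p : ℂ) ^ 2 ≠ 1 → lev p B ≠ 0 := by
    intro p hp1 h0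
    have hω : ((p : ℂ) ^ 2 - 1)⁻¹ * ((p : ℂ) ^ 2 - 1) = 1 :=
      inv_mul_cancel₀ (sub_ne_zero.mpr hp1)
    obtain ⟨ω, hωd⟩ : ∃ ω, ω = ((p : ℂ) ^ 2 - 1)⁻¹ := ⟨_, rfl⟩
    rw [← hωd] at hω
    obtain ⟨σ, hσ⟩ : ∃ σ, σ = ω * p * (b - a * p) := ⟨_, rfl⟩
    have hσ2 : σ * ((p : ℂ) ^ 2 - 1) = p * (b - a * p) := by
      rw [hσ]; linear_combination (p : ℂ) * (b - a * p) * hω
    obtain ⟨r, hr⟩ := IsAlgClosed.exists_pow_nat_eq (σ ^ 2 - 4 * (p : ℂ)) (by norm_num : 0 < 2)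
    have hprod : (σ + r) / 2 * ((σ - r) / 2) = p := by linear_combination (-1 / 4) * hr
    have hne : (σ + r) / 2 * ((σ - r) / 2) ≠ 0 := by rw [hprod]; exact p.ne_zero
    obtain ⟨t, ht⟩ : ∃ t : ℂˣ, (t : ℂ) = (σ + r) / 2 :=
      ⟨Units.mk0 _ (left_ne_zero_of_mul hne), rfl⟩
    obtain ⟨s, hs⟩ : ∃ s : ℂˣ, (s : ℂ) = (σ - r) / 2 :=
      ⟨Units.mk0 _ (right_ne_zero_of_mul hne), rfl⟩
    rw [← ht, ← hs] at hprod
    have hsum : (t : ℂ) + s = σ := by rw [ht, hs]; ring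
    have ht2 : (t : ℂ) ^ 2 = σ * t - p := by linear_combination -hprod + (t : ℂ) * hsum
    have hs2 : (s : ℂ) ^ 2 = σ * s - p := by linear_combination -hprod + (s : ℂ) * hsum
    have ht3 : (t : ℂ) ^ 2 = ω * p * (algebraMap ℂ ℂ b - algebraMap ℂ ℂ a * p) * t - p := by
      rw [ht2, hσ]; rfl
    have hs3 : (s : ℂ) ^ 2 = ω * p * (algebraMap ℂ ℂ b - algebraMap ℂ ℂ a * p) * s - p := by
      rw [hs2, hσ]; rfl
    have hts := lev_ext hadj t s
      (by rw [lev_pair_tt hx p t σ ht2 hσ2, lev_pair_tt hx p s σ hs2 hσ2])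
      (by rw [hAB ℂ p t ω hω ht3, hAB ℂ p s ω hω hs3, h0, zero_mul, zero_mul])
    subst hts
    apply dualUnit_ne t
    obtain ⟨e, he⟩ : ∃ e : DualNumber ℂ, e = DualNumber.eps := ⟨_, rfl⟩
    have he2 : e ^ 2 = 0 := by rw [he]; exact eps_sq
    have hu1 : ((dualUnit t : (DualNumber ℂ)ˣ) : DualNumber ℂ) =
      algebraMap ℂ _ (t : ℂ) * (1 + e) := by rw [he]; rfl
    have hu2 : ((constUnit t : (DualNumber ℂ)ˣ) : DualNumber ℂ) = algebraMap ℂ _ (t : ℂ) := rfl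
    have hu3 : ((constUnit p : (DualNumber ℂ)ˣ) : DualNumber ℂ) = algebraMap ℂ _ (p : ℂ) := rfl
    have g0 : algebraMap ℂ (DualNumber ℂ) ω *
        (((constUnit p : (DualNumber ℂ)ˣ) : DualNumber ℂ) ^ 2 - 1) = 1 := by
      rw [hu3, ← map_pow, ← map_one (algebraMap ℂ (DualNumber ℂ)), ← map_sub, ← map_mul, hω]
    have gσ : algebraMap ℂ (DualNumber ℂ) ω * ((constUnit p : (DualNumber ℂ)ˣ) : DualNumber ℂ) *
        (algebraMap ℂ (DualNumber ℂ) b - algebraMap ℂ (DualNumber ℂ) a *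
          ((constUnit p : (DualNumber ℂ)ˣ) : DualNumber ℂ)) = algebraMap ℂ (DualNumber ℂ) σ := by
      rw [hu3, hσ]; simp only [map_mul, map_sub]
    have g1 : ((dualUnit t : (DualNumber ℂ)ˣ) : DualNumber ℂ) ^ 2 =
        algebraMap ℂ _ σ * (dualUnit t : (DualNumber ℂ)ˣ) -
          ((constUnit p : (DualNumber ℂ)ˣ) : DualNumber ℂ) := by
      rw [hu1, hu3, ← hprod, ← hsum, map_add, map_mul]
      linear_combination (algebraMap ℂ (DualNumber ℂ) (t : ℂ)) ^ 2 * he2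
    have g2 : ((constUnit t : (DualNumber ℂ)ˣ) : DualNumber ℂ) ^ 2 =
        algebraMap ℂ _ σ * (constUnit t : (DualNumber ℂ)ˣ) -
          ((constUnit p : (DualNumber ℂ)ˣ) : DualNumber ℂ) := by
      rw [hu2, hu3, ← hprod, ← hsum, map_add, map_mul]
      ring
    have g3 : algebraMap ℂ (DualNumber ℂ) σ *
        (((constUnit p : (DualNumber ℂ)ˣ) : DualNumber ℂ) ^ 2 - 1) =
        ((constUnit p : (DualNumber ℂ)ˣ) : DualNumber ℂ) *
        (algebraMap ℂ (DualNumber ℂ) b - algebraMap ℂ (DualNumber ℂ) a *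
          ((constUnit p : (DualNumber ℂ)ˣ) : DualNumber ℂ)) := by
      have h5 := congrArg (algebraMap ℂ (DualNumber ℂ)) hσ2
      simp only [map_mul, map_sub, map_pow, map_one] at h5
      exact h5
    have g4 : lev (constUnit p) B = 0 := by
      have h5 := map_lev (Algebra.ofId ℂ (DualNumber ℂ)) p B
      rw [h0, map_zero] at h5
      exact h5.symm
    apply lev_ext hadj
    · rw [lev_pair_tt hx _ _ _ g1 g3, lev_pair_tt hx _ _ _ g2 g3]
    · rw [← gσ] at g1 g2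
      rw [hAB _ _ _ _ g0 g1, hAB _ _ _ _ g0 g2, g4, zero_mul, zero_mul]
  obtain ⟨r, Q, hQ⟩ := exists_T_pow B
  have hBQ : B = toLaurent Q * T (-(r : ℤ)) := by rw [hQ, mul_T_assoc]; simp
  have hlevB : ∀ p : ℂˣ, lev p B = Q.eval (p : ℂ) * (p : ℂ) ^ (-(r : ℤ)) := by
    intro p
    rw [hBQ, map_mul, lev_toLaurent, coe_aeval_eq_eval, lev_T, Units.val_zpow_eq_zpow_val]
  have hQ0 : Q ≠ 0 := by
    rintro rfl
    apply hB (Units.mk0 2 two_ne_zero)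
    · rw [Units.val_mk0]; norm_num
    · rw [hlevB]; simp
  obtain ⟨c, i, j, k, hc, hQe⟩ := eq_of_roots₃ hQ0 (by
    intro u hu
    by_contra hcon
    push Not at hcon
    apply hB (Units.mk0 u hcon.1)
    · rw [Units.val_mk0]
      intro h1
      have : (u - 1) * (u + 1) = 0 := by linear_combination h1
      rcases mul_eq_zero.mp this with h2 | h2
      · exact hcon.2.1 (by linear_combination h2)
      · exact hcon.2.2 (by linear_combination h2)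
    · rw [hlevB, Units.val_mk0, hu, zero_mul])
  refine ⟨c, (i : ℤ) - r, (j : ℤ) - M, (k : ℤ) - M, hc, ?_⟩
  intro t s hts hlev
  have hd : (t : ℂ) - s ≠ 0 := sub_ne_zero.mpr fun h => hts (Units.ext h)
  have htt : (t : ℂ) * ((t⁻¹ : ℂˣ) : ℂ) = 1 := Units.mul_inv t
  have hss : (s : ℂ) * ((s⁻¹ : ℂˣ) : ℂ) = 1 := Units.mul_inv s
  have hrel : ((t : ℂ) + s) * (((t : ℂ) * s) ^ 2 - 1) = ((t : ℂ) * s) * (b - a * ((t : ℂ) * s)) := by
    apply mul_left_cancel₀ hd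
    rw [hx] at hlev
    simp only [map_add, map_mul, map_pow, lev_C, lev_T, zpow_one, zpow_neg,
      Algebra.algebraMap_self, RingHom.id_apply] at hlev
    obtain ⟨v, hv⟩ : ∃ v, v = ((t⁻¹ : ℂˣ) : ℂ) := ⟨_, rfl⟩
    obtain ⟨w, hw⟩ : ∃ w, w = ((s⁻¹ : ℂˣ) : ℂ) := ⟨_, rfl⟩
    rw [← hv] at htt hlev
    rw [← hw] at hss hlev
    grind
  have hp1 : ((t : ℂ) * s) ^ 2 ≠ 1 := by
    intro h1
    rw [h1, sub_self, mul_zero] at hrel
    have h2 : b - a * ((t : ℂ) * s) = 0 := by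
      rcases mul_eq_zero.mp hrel.symm with h | h
      · rw [h] at h1; norm_num at h1
      · exact h
    apply hab
    have h3 : b = a * ((t : ℂ) * s) := by linear_combination h2
    rw [h3, mul_pow, h1, mul_one]
  refine ⟨hp1, ?_⟩
  have hω : (((t : ℂ) * s) ^ 2 - 1)⁻¹ * (((t : ℂ) * s) ^ 2 - 1) = 1 :=
    inv_mul_cancel₀ (sub_ne_zero.mpr hp1)
  obtain ⟨ω, hωd⟩ : ∃ ω, ω = (((t : ℂ) * s) ^ 2 - 1)⁻¹ := ⟨_, rfl⟩
  rw [← hωd] at hω
  have hσ : ω * ((t : ℂ) * s) * (b - a * ((t : ℂ) * s)) = t + s := by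
    linear_combination (-ω) * hrel + ((t : ℂ) + s) * hω
  have ht3 : (t : ℂ) ^ 2 = ω * ((t * s : ℂˣ) : ℂ) *
      (algebraMap ℂ ℂ b - algebraMap ℂ ℂ a * ((t * s : ℂˣ) : ℂ)) * t - ((t * s : ℂˣ) : ℂ) := by
    rw [Units.val_mul, Algebra.algebraMap_self, RingHom.id_apply, RingHom.id_apply, hσ]; ring
  have hs3 : (s : ℂ) ^ 2 = ω * ((t * s : ℂˣ) : ℂ) *
      (algebraMap ℂ ℂ b - algebraMap ℂ ℂ a * ((t * s : ℂˣ) : ℂ)) * s - ((t * s : ℂˣ) : ℂ) := by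
    rw [Units.val_mul, Algebra.algebraMap_self, RingHom.id_apply, RingHom.id_apply, hσ]; ring
  rw [hAB ℂ _ _ _ (by rw [Units.val_mul]; exact hω) ht3,
    hAB ℂ _ _ _ (by rw [Units.val_mul]; exact hω) hs3, hlevB, Units.val_mul, hQe]
  obtain ⟨p, hp⟩ : ∃ p, p = (t : ℂ) * s := ⟨_, rfl⟩
  rw [← hp] at hωd hp1 ⊢
  have hp0 : p ≠ 0 := by rw [hp]; exact mul_ne_zero t.ne_zero s.ne_zero
  have hpm : p - 1 ≠ 0 := by
    intro h1; apply hp1; linear_combination (p + 1) * h1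
  have hpp : p + 1 ≠ 0 := by
    intro h1; apply hp1; linear_combination (p - 1) * h1
  have e1 : ω ^ M = (p - 1) ^ (-(M : ℤ)) * (p + 1) ^ (-(M : ℤ)) := by
    rw [hωd, show p ^ 2 - 1 = (p - 1) * (p + 1) by ring, inv_pow, mul_pow, mul_inv, zpow_neg,
      zpow_neg, zpow_natCast, zpow_natCast]
  rw [e1, sub_eq_add_neg (i : ℤ), sub_eq_add_neg (j : ℤ), sub_eq_add_neg (k : ℤ),
    zpow_add₀ hp0, zpow_add₀ hpm, zpow_add₀ hpp, zpow_natCast, zpow_natCast, zpow_natCast]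
  simp only [eval_mul, eval_C, eval_pow, eval_X, eval_sub, eval_add, eval_one]
  ring

end

end Pool.Agent.Helper34_CStar
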