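import Pool.Agent.Helper34_CStar.Class

/-!
# Coordinates of the plane: the leading coefficient, and uniqueness of a bounded coordinate
-/

namespace Pool.Agent.Helper34_CStar

open Polynomial

/-- the projection to the line `x = 0` -/
theorem X0_dvd_iff (r : P2) :
    hom2 (0 : ℂ[X]) (X : ℂ[X]) r = 0 ↔ (MvPolynomial.X 0 : P2) ∣ r := by
  constructor
  · intro h
    let I : Ideal P2 := Ideal.span {MvPolynomial.X 0}
    have h0 : Ideal.Quotient.mkₐ ℂ I (MvPolynomial.X 0) = 0 := by
      rw [Ideal.Quotient.mkₐ_eq_mk, Ideal.Quotient.eq_zero_iff_mem]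
      exact Ideal.mem_span_singleton_self _
    have hcomp : ((Ideal.Quotient.mkₐ ℂ I).comp (aeval (MvPolynomial.X 1 : P2))).comp
        (hom2 (0 : ℂ[X]) (X : ℂ[X])) = Ideal.Quotient.mkₐ ℂ I := by
      apply hom2_ext
      · rw [AlgHom.comp_apply, hom2_X0, map_zero, h0]
      · rw [AlgHom.comp_apply, hom2_X1, AlgHom.comp_apply, aeval_X]
    have h2 : Ideal.Quotient.mkₐ ℂ I r = 0 := by
      rw [← hcomp, AlgHom.comp_apply, h, map_zero]
    rw [Ideal.Quotient.mkₐ_eq_mk, Ideal.Quotient.eq_zero_iff_mem, Ideal.mem_span_singleton] at h2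
    exact h2
  · rintro ⟨s, rfl⟩
    rw [map_mul, hom2_X0, zero_mul]

/-- the homomorphism killing the coordinate `α x` -/
noncomputable def killer (α : P2 ≃ₐ[ℂ] P2) : P2 →ₐ[ℂ] ℂ[X] :=
  (hom2 (0 : ℂ[X]) (X : ℂ[X])).comp (α.symm : P2 →ₐ[ℂ] P2)

theorem killer_eq_zero (α : P2 ≃ₐ[ℂ] P2) (r : P2) :
    killer α r = 0 ↔ α (MvPolynomial.X 0) ∣ r := by
  have h1 : killer α r = hom2 (0 : ℂ[X]) (X : ℂ[X]) (α.symm r) := rfl
  rw [h1, X0_dvd_iff, ← map_dvd_iff α, AlgEquiv.apply_symm_apply]

/-- every polynomial is integral over the subring generated by a nonconstant one -/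
theorem integral_over {a : ℂ[X]} (ha : a.natDegree ≠ 0) (b : ℂ[X]) :
    ((aeval a : ℂ[X] →ₐ[ℂ] ℂ[X]) : ℂ[X] →+* ℂ[X]).IsIntegralElem b := by
  set ρ : ℂ[X] →+* ℂ[X] := ((aeval a : ℂ[X] →ₐ[ℂ] ℂ[X]) : ℂ[X] →+* ℂ[X]) with hρ
  have hρC : ∀ c : ℂ, ρ (C c) = C c := by intro c; simp [hρ]
  have hX : ρ.IsIntegralElem X := by
    set l := a.leadingCoeff with hl
    have ha0 : a ≠ 0 := by rintro rfl; simp at ha
    have hl0 : l ≠ 0 := leadingCoeff_ne_zero.mpr ha0
    have hinj : Function.Injective (C : ℂ →+* ℂ[X]) := C_injective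
    have hd : (a.map (C : ℂ →+* ℂ[X]) - C X).natDegree = a.natDegree := by
      rw [natDegree_sub_C, natDegree_map_eq_of_injective hinj]
    refine ⟨C (C l⁻¹) * (a.map C - C X), ?_, ?_⟩
    · rw [Monic, leadingCoeff_mul, leadingCoeff_C]
      have h1 : (a.map (C : ℂ →+* ℂ[X]) - C X).leadingCoeff = C l := by
        rw [leadingCoeff, hd, coeff_sub, coeff_map, coeff_C_of_ne_zero ha, sub_zero, ← leadingCoeff]
      rw [h1, ← C_mul, inv_mul_cancel₀ hl0, C_1]
    · rw [eval₂_mul, eval₂_sub, eval₂_map, eval₂_C, eval₂_C]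
      have h1 : ρ.comp C = (C : ℂ →+* ℂ[X]) := by
        ext c; simp [hρ]
      rw [h1, eval₂_C_X]
      have h2 : ρ X = a := by simp [hρ]
      rw [h2, sub_self, mul_zero]
  induction b using Polynomial.induction_on' with
  | add p q hp hq => exact RingHom.IsIntegralElem.add _ hp hq
  | monomial n c =>
    rw [← C_mul_X_pow_eq_monomial]
    apply RingHom.IsIntegralElem.mul
    · rw [← hρC]; exact ρ.isIntegralElem_map
    · induction n with
      | zero => rw [pow_zero, ← map_one ρ]; exact ρ.isIntegralElem_map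
      | succ n ih => rw [pow_succ]; exact RingHom.IsIntegralElem.mul _ ih hX

/-- A coordinate of the plane, as a polynomial in `y` over `ℂ[x]`, is either a polynomial in `x`
or has a constant leading coefficient. -/
theorem coordinate_leadingCoeff (α : P2 ≃ₐ[ℂ] P2) :
    ((Bivariate.equivMvPolynomial ℂ).symm (α (MvPolynomial.X 0))).natDegree = 0 ∨
    ∃ c : ℂ, c ≠ 0 ∧
      ((Bivariate.equivMvPolynomial ℂ).symm (α (MvPolynomial.X 0))).leadingCoeff = C c := by
  set e := Bivariate.equivMvPolynomial ℂ with he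
  set P := e.symm (α (MvPolynomial.X 0)) with hP
  by_cases ha : (killer α (MvPolynomial.X 0)).natDegree = 0
  · left
    obtain ⟨a₀, ha₀⟩ := natDegree_eq_zero.mp ha
    have h1 : killer α (MvPolynomial.X 0 - MvPolynomial.C a₀) = 0 := by
      rw [map_sub, ← ha₀, ← MvPolynomial.algebraMap_eq, AlgHom.commutes, Polynomial.algebraMap_eq,
        sub_self]
    rw [killer_eq_zero] at h1
    have h2 : P ∣ C (X - C a₀) := by
      have := map_dvd e.symm h1
      simpa [hP, he] using this
    have h3 : (C (X - C a₀) : ℂ[X][X]) ≠ 0 := by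
      rw [ne_eq, C_eq_zero]; exact X_sub_C_ne_zero a₀
    have h4 := natDegree_le_of_dvd h2 h3
    rw [natDegree_C] at h4
    omega
  · right
    obtain ⟨Q, hQm, hQ⟩ := integral_over ha (killer α (MvPolynomial.X 1))
    have h1 : killer α (e Q) = 0 := by
      rw [← hQ]
      have h2 : ((killer α : P2 →+* ℂ[X])).comp (e : ℂ[X][X] →+* P2) =
          eval₂RingHom ((aeval (killer α (MvPolynomial.X 0)) : ℂ[X] →ₐ[ℂ] ℂ[X]) : ℂ[X] →+* ℂ[X])
            (killer α (MvPolynomial.X 1)) := by
        apply Polynomial.ringHom_ext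
        · intro r
          have h3 : (((killer α : P2 →+* ℂ[X])).comp (e : ℂ[X][X] →+* P2)).comp C =
            (eval₂RingHom ((aeval (killer α (MvPolynomial.X 0)) : ℂ[X] →ₐ[ℂ] ℂ[X]) :
              ℂ[X] →+* ℂ[X]) (killer α (MvPolynomial.X 1))).comp C := by
            apply Polynomial.ringHom_ext
            · intro c
              simp only [he, RingHom.comp_apply, RingHom.coe_coe,
                Bivariate.equivMvPolynomial_C_C, coe_eval₂RingHom, eval₂_C, aeval_C]
              rw [← MvPolynomial.algebraMap_eq, AlgHom.commutes]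
            · simp [he]
          exact congrArg (fun ψ : ℂ[X] →+* ℂ[X] => ψ r) h3
        · simp [he]
      exact congrArg (fun ψ : ℂ[X][X] →+* ℂ[X] => ψ Q) h2
    rw [killer_eq_zero] at h1
    have h2 : P ∣ Q := by
      have := map_dvd e.symm h1
      simpa [hP] using this
    obtain ⟨R, hR⟩ := h2
    have h3 : P.leadingCoeff * R.leadingCoeff = 1 := by
      rw [← leadingCoeff_mul, ← hR]; exact hQm
    have h4 : IsUnit P.leadingCoeff := IsUnit.of_mul_eq_one _ h3
    rw [Polynomial.isUnit_iff] at h4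
    obtain ⟨c, hc, hc2⟩ := h4
    exact ⟨c, hc.ne_zero, hc2.symm⟩

/-- the shape of an element of the ring of polynomials in terms of its `y`-expansion -/
theorem hom2_equiv {S : Type*} [CommRing S] [Algebra ℂ S] (x y : S) (Q : ℂ[X][X]) :
    hom2 x y (Bivariate.equivMvPolynomial ℂ Q) =
      ∑ j ∈ Finset.range (Q.natDegree + 1), aeval x (Q.coeff j) * y ^ j := by
  have h2 : ((hom2 x y : P2 →+* S)).comp ((Bivariate.equivMvPolynomial ℂ : ℂ[X][X] ≃ₐ[ℂ] P2) :
      ℂ[X][X] →+* P2) = eval₂RingHom ((aeval x : ℂ[X] →ₐ[ℂ] S) : ℂ[X] →+* S) y := by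
    apply Polynomial.ringHom_ext
    · intro r
      have h3 : (((hom2 x y : P2 →+* S)).comp ((Bivariate.equivMvPolynomial ℂ :
          ℂ[X][X] ≃ₐ[ℂ] P2) : ℂ[X][X] →+* P2)).comp C =
          (eval₂RingHom ((aeval x : ℂ[X] →ₐ[ℂ] S) : ℂ[X] →+* S) y).comp C := by
        apply Polynomial.ringHom_ext
        · intro c
          simp only [RingHom.comp_apply, RingHom.coe_coe,
            Bivariate.equivMvPolynomial_C_C, coe_eval₂RingHom, eval₂_C, aeval_C]
          rw [← MvPolynomial.algebraMap_eq, AlgHom.commutes]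
        · simp
      exact congrArg (fun ψ : ℂ[X] →+* S => ψ r) h3
    · simp
  have h4 := congrArg (fun ψ : ℂ[X][X] →+* S => ψ Q) h2
  simp only [RingHom.comp_apply, RingHom.coe_coe, coe_eval₂RingHom] at h4
  rw [h4, eval₂_eq_sum_range]
  rfl

/-- a coordinate which is a polynomial in `x` is affine in `x` -/
theorem coordinate_affine (α : P2 ≃ₐ[ℂ] P2) (G : ℂ[X])
    (h : α (MvPolynomial.X 0) = aeval (MvPolynomial.X 0 : P2) G) :
    ∃ a b : ℂ, a ≠ 0 ∧
      α (MvPolynomial.X 0) = MvPolynomial.C a * MvPolynomial.X 0 + MvPolynomial.C b := by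
  have hprime : Prime (α (MvPolynomial.X 0) - MvPolynomial.C 0) := by
    rw [map_zero, sub_zero]
    have h1 : ∀ r, killer α r = 0 ↔ α (MvPolynomial.X 0) ∣ r := killer_eq_zero α
    have h0 : killer α (α (MvPolynomial.X 0)) = 0 := (h1 _).mpr dvd_rfl
    refine ⟨?_, ?_, ?_⟩
    · intro h2
      have h3 : (MvPolynomial.X 0 : P2) = 0 := by
        apply α.injective
        rw [h2, map_zero]
      exact MvPolynomial.X_ne_zero 0 h3
    · intro hu
      have := hu.map (killer α)
      rw [h0] at this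
      exact not_isUnit_zero this
    · intro a b hab
      rw [← h1, map_mul] at hab
      rcases mul_eq_zero.mp hab with h | h
      · exact Or.inl ((h1 a).mp h)
      · exact Or.inr ((h1 b).mp h)
  have hprim := primitive_of_prime hprime
  have hd := hprim _ _ h
  have hG := eq_X_add_C_of_natDegree_le_one hd
  refine ⟨G.coeff 1, G.coeff 0, ?_, ?_⟩
  · intro h1
    rw [h1, map_zero, zero_mul, zero_add] at hG
    rw [hG, aeval_C, MvPolynomial.algebraMap_eq] at h
    apply hprime.irreducible.1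
    rw [map_zero, sub_zero, h]
    by_cases h2 : G.coeff 0 = 0
    · exfalso
      rw [h2, map_zero] at h
      apply hprime.ne_zero
      rw [map_zero, sub_zero, h]
    · exact (isUnit_iff_ne_zero.mpr h2).map MvPolynomial.C
  · rw [h]
    conv_lhs => rw [hG]
    rw [map_add, map_mul, aeval_C, aeval_C, aeval_X, MvPolynomial.algebraMap_eq]

end Pool.Agent.Helper34_CStar
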