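import Pool.Agent.Helper34_CStar.Unique

/-!
# Uniqueness of the bounded coordinate, and automorphisms of the Laurent polynomials
-/

namespace Pool.Agent.Helper34_CStar

open Polynomial LaurentPolynomial

theorem T_neg_pow (k j : ℕ) :
    (T (-(k : ℤ)) : ℂ[T;T⁻¹]) ^ j = T (-((k * j : ℕ) : ℤ)) := by
  rw [T_pow]; congr 1; push_cast; ring

theorem eq_hom2 {S : Type*} [CommRing S] [Algebra ℂ S] (φ : P2 →ₐ[ℂ] S) :
    φ = hom2 (φ (MvPolynomial.X 0)) (φ (MvPolynomial.X 1)) := by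
  apply hom2_ext <;> simp

theorem coord_unique_X0 {φ : P2 →ₐ[ℂ] ℂ[T;T⁻¹]} (hφ : Function.Surjective φ) {f f' : ℂ[X]}
    (hf : φ (MvPolynomial.X 0) = toLaurent f) (α : P2 ≃ₐ[ℂ] P2)
    (hα : φ (α (MvPolynomial.X 0)) = toLaurent f') :
    ∃ a b : ℂ, a ≠ 0 ∧
      α (MvPolynomial.X 0) = MvPolynomial.C a * MvPolynomial.X 0 + MvPolynomial.C b := by
  have hadj := adjoin_of_surjective hφ
  rw [hf] at hadj
  obtain ⟨Y, k, hk, hY, hy⟩ := exists_pole hadj
  rcases coordinate_leadingCoeff α with hd | ⟨c, hc, hlc⟩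
  · obtain ⟨G, hG⟩ := natDegree_eq_zero.mp hd
    apply coordinate_affine α G
    have h1 : α (MvPolynomial.X 0) = Bivariate.equivMvPolynomial ℂ (Polynomial.C G) := by
      rw [hG, AlgEquiv.apply_symm_apply]
    have h2 := eq_hom2 (AlgHom.id ℂ P2)
    have h3 : hom2 (MvPolynomial.X 0 : P2) (MvPolynomial.X 1)
        (Bivariate.equivMvPolynomial ℂ (Polynomial.C G)) = aeval (MvPolynomial.X 0 : P2) G := by
      rw [hom2_equiv]; simp
    rw [h1, ← h3]
    exact congrArg (fun ψ : P2 →ₐ[ℂ] P2 =>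
      ψ (Bivariate.equivMvPolynomial ℂ (Polynomial.C G))) h2
  · by_cases hJ : ((Bivariate.equivMvPolynomial ℂ).symm (α (MvPolynomial.X 0))).natDegree = 0
    · obtain ⟨G, hG⟩ := natDegree_eq_zero.mp hJ
      apply coordinate_affine α G
      have h1 : α (MvPolynomial.X 0) = Bivariate.equivMvPolynomial ℂ (Polynomial.C G) := by
        rw [hG, AlgEquiv.apply_symm_apply]
      have h2 := eq_hom2 (AlgHom.id ℂ P2)
      have h3 : hom2 (MvPolynomial.X 0 : P2) (MvPolynomial.X 1)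
          (Bivariate.equivMvPolynomial ℂ (Polynomial.C G)) = aeval (MvPolynomial.X 0 : P2) G := by
        rw [hom2_equiv]; simp
      rw [h1, ← h3]
      exact congrArg (fun ψ : P2 →ₐ[ℂ] P2 =>
        ψ (Bivariate.equivMvPolynomial ℂ (Polynomial.C G))) h2
    · exfalso
      set P := (Bivariate.equivMvPolynomial ℂ).symm (α (MvPolynomial.X 0)) with hP
      set J := P.natDegree with hJd
      have h1 : φ (α (MvPolynomial.X 0)) =
          ∑ j ∈ Finset.range (J + 1), aeval (toLaurent f) (P.coeff j) *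
            (toLaurent Y * T (-(k : ℤ))) ^ j := by
        have h2 : α (MvPolynomial.X 0) = Bivariate.equivMvPolynomial ℂ P := by
          rw [hP, AlgEquiv.apply_symm_apply]
        rw [h2, eq_hom2 φ, hom2_equiv, hf, hy]
      rw [hα] at h1
      have h2 : toLaurent (f' * X ^ (k * J)) = toLaurent (∑ j ∈ Finset.range (J + 1),
          (P.coeff j).comp f * Y ^ j * X ^ (k * (J - j))) := by
        rw [map_mul, h1, toLaurent_X_pow, map_sum, Finset.sum_mul]
        apply Finset.sum_congr rfl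
        intro j hj
        rw [Finset.mem_range] at hj
        rw [aeval_toLaurent, map_mul, map_mul, toLaurent_X_pow, map_pow, mul_pow, T_neg_pow]
        have e : (T (-((k * j : ℕ) : ℤ)) : ℂ[T;T⁻¹]) * T ((k * J : ℕ) : ℤ) =
            T ((k * (J - j) : ℕ) : ℤ) := by
          rw [← T_add]
          congr 1
          have : J = j + (J - j) := by omega
          push_cast [Nat.cast_sub (by omega : j ≤ J)]
          ring
        rw [← e]; ring
      have h3 := congrArg (eval 0) (toLaurent_injective h2)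
      rw [eval_mul, eval_pow, eval_X, zero_pow (by positivity), mul_zero, eval_finsetSum,
        Finset.sum_range_succ, Finset.sum_eq_zero] at h3
      · rw [zero_add, Nat.sub_self, mul_zero, pow_zero, mul_one, eval_mul, eval_comp, eval_pow] at h3
        have h4 : P.coeff J = Polynomial.C c := by rw [← hlc]; rfl
        rw [h4, eval_C, ← coeff_zero_eq_eval_zero] at h3
        exact mul_ne_zero hc (pow_ne_zero _ hY) h3.symm
      · intro j hj
        rw [Finset.mem_range] at hj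
        rw [eval_mul, eval_pow, eval_X, zero_pow, mul_zero]
        have : 0 < J - j := by omega
        positivity

/-- two coordinates which are bounded at the same end are affinely related -/
theorem coord_unique {φ : P2 →ₐ[ℂ] ℂ[T;T⁻¹]} (hφ : Function.Surjective φ) {f f' : ℂ[X]}
    (γ γ' : P2 ≃ₐ[ℂ] P2) (hf : φ (γ (MvPolynomial.X 0)) = toLaurent f)
    (hf' : φ (γ' (MvPolynomial.X 0)) = toLaurent f') :
    ∃ a b : ℂ, a ≠ 0 ∧ γ' (MvPolynomial.X 0) =
      MvPolynomial.C a * γ (MvPolynomial.X 0) + MvPolynomial.C b := by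
  have h1 : Function.Surjective (φ.comp (γ : P2 →ₐ[ℂ] P2)) := by
    rw [AlgHom.coe_comp]; exact hφ.comp γ.surjective
  obtain ⟨a, b, ha, hab⟩ := coord_unique_X0 h1 (f := f) (f' := f') hf (γ'.trans γ.symm) (by
    rw [AlgHom.comp_apply, AlgEquiv.trans_apply]
    have : (γ : P2 →ₐ[ℂ] P2) (γ.symm (γ' (MvPolynomial.X 0))) = γ' (MvPolynomial.X 0) :=
      γ.apply_symm_apply _
    rw [this, hf'])
  refine ⟨a, b, ha, ?_⟩
  have h2 := congrArg γ hab
  rw [AlgEquiv.trans_apply, AlgEquiv.apply_symm_apply, map_add, map_mul,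
    ← MvPolynomial.algebraMap_eq, AlgEquiv.commutes, AlgEquiv.commutes] at h2
  rw [h2, MvPolynomial.algebraMap_eq]

/-- the same at the other end -/
theorem coord_unique' {φ : P2 →ₐ[ℂ] ℂ[T;T⁻¹]} (hφ : Function.Surjective φ) {f f' : ℂ[X]}
    (γ γ' : P2 ≃ₐ[ℂ] P2) (hf : φ (γ (MvPolynomial.X 0)) = invert (toLaurent f))
    (hf' : φ (γ' (MvPolynomial.X 0)) = invert (toLaurent f')) :
    ∃ a b : ℂ, a ≠ 0 ∧ γ' (MvPolynomial.X 0) =
      MvPolynomial.C a * γ (MvPolynomial.X 0) + MvPolynomial.C b := by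
  have hii : ∀ z : ℂ[T;T⁻¹], (invert (invert z) : ℂ[T;T⁻¹]) = z := involutive_invert
  apply coord_unique (φ := ((invert : ℂ[T;T⁻¹] ≃ₐ[ℂ] ℂ[T;T⁻¹]) : ℂ[T;T⁻¹] →ₐ[ℂ] ℂ[T;T⁻¹]).comp φ)
    (f := f) (f' := f')
  · rw [AlgHom.coe_comp]
    exact (AlgEquiv.surjective _).comp hφ
  · rw [AlgHom.comp_apply, hf]; exact hii _
  · rw [AlgHom.comp_apply, hf']; exact hii _

/-- units of the ring of Laurent polynomials -/
theorem laurent_unit {u : ℂ[T;T⁻¹]} (hu : IsUnit u) :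
    ∃ (c : ℂ) (n : ℤ), c ≠ 0 ∧ u = LaurentPolynomial.C c * T n := by
  obtain ⟨w, hw⟩ := hu.exists_right_inv
  obtain ⟨n, U, hU⟩ := exists_T_pow u
  obtain ⟨m, W, hW⟩ := exists_T_pow w
  have h1 : toLaurent (U * W) = toLaurent (X ^ (n + m) : ℂ[X]) := by
    rw [map_mul, hU, hW, toLaurent_X_pow]
    have : (T ((n + m : ℕ) : ℤ) : ℂ[T;T⁻¹]) = T (n : ℤ) * T (m : ℤ) := by
      rw [← T_add]; congr 1
    rw [this]
    linear_combination T (n : ℤ) * T (m : ℤ) * hw
  have h2 : U ∣ X ^ (n + m) := Dvd.intro _ (toLaurent_injective h1)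
  obtain ⟨j, _, hj⟩ := (dvd_prime_pow prime_X (n + m)).mp h2
  obtain ⟨v, hv⟩ := hj.symm
  obtain ⟨c, hc, hcv⟩ := Polynomial.isUnit_iff.mp v.isUnit
  refine ⟨c, (j : ℤ) - n, hc.ne_zero, ?_⟩
  have h3 : u = toLaurent U * T (-(n : ℤ)) := by rw [hU, mul_T_assoc]; simp
  rw [h3, ← hv, ← hcv, map_mul, toLaurent_C, toLaurent_X_pow, mul_comm (T (j : ℤ)), mul_assoc,
    ← T_add]
  rfl

theorem exists_root_of_unity {n : ℤ} (h1 : n ≠ 1) (h2 : n ≠ -1) :
    ∃ ζ : ℂˣ, ζ ^ n = 1 ∧ ζ ≠ 1 := by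
  by_cases hn : n = 0
  · refine ⟨Units.mk0 2 two_ne_zero, by rw [hn, zpow_zero], ?_⟩
    intro h
    have := congrArg Units.val h
    simp at this
  · have hN : 2 ≤ n.natAbs := by omega
    have hprim := Complex.isPrimitiveRoot_exp n.natAbs (by omega)
    obtain ⟨u, hu⟩ := hprim.isUnit (by omega)
    rw [← hu] at hprim
    have hu1 : u ^ n.natAbs = 1 := by
      apply Units.ext
      rw [Units.val_pow_eq_pow_val, hprim.pow_eq_one, Units.val_one]
    refine ⟨u, ?_, ?_⟩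
    · rcases Int.natAbs_eq n with h | h
      · rw [h, zpow_natCast, hu1]
      · rw [h, zpow_neg, zpow_natCast, hu1, inv_one]
    · rintro rfl
      have := hprim.unique IsPrimitiveRoot.one
      omega

/-- a unit whose powers generate the ring of Laurent polynomials -/
theorem unit_gen {τ : (ℂ[T;T⁻¹])ˣ} (hs : Function.Surjective (lev τ)) :
    ∃ c : ℂ, c ≠ 0 ∧ ((τ : ℂ[T;T⁻¹]) = LaurentPolynomial.C c * T 1 ∨
      (τ : ℂ[T;T⁻¹]) = LaurentPolynomial.C c * T (-1)) := by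
  obtain ⟨c, n, hc, hτ⟩ := laurent_unit τ.isUnit
  refine ⟨c, hc, ?_⟩
  by_contra hcon
  push Not at hcon
  obtain ⟨ζ, hζn, hζ1⟩ := exists_root_of_unity (n := n)
    (by rintro rfl; exact hcon.1 hτ) (by rintro rfl; exact hcon.2 hτ)
  obtain ⟨z, hz⟩ := hs (T 1)
  have h1 := map_lev (levA (S := ℂ) ζ) τ z
  have h2 := map_lev (levA (S := ℂ) 1) τ z
  have h3 : Units.map ((levA (S := ℂ) ζ : ℂ[T;T⁻¹] →ₐ[ℂ] ℂ) : ℂ[T;T⁻¹] →* ℂ) τ =
      Units.map ((levA (S := ℂ) 1 : ℂ[T;T⁻¹] →ₐ[ℂ] ℂ) : ℂ[T;T⁻¹] →* ℂ) τ := by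
    apply Units.ext
    change levA (S := ℂ) ζ (τ : ℂ[T;T⁻¹]) = levA (S := ℂ) 1 (τ : ℂ[T;T⁻¹])
    rw [levA_apply, levA_apply, hτ, map_mul, map_mul, lev_C, lev_C, lev_T, lev_T, hζn, one_zpow]
  rw [h3, ← h2, hz, levA_apply, levA_apply, lev_T, lev_T, zpow_one, zpow_one] at h1
  exact hζ1 (Units.ext h1)

/-- two surjections onto the Laurent polynomials with the same kernel -/
theorem same_ker {φ φ' : P2 →ₐ[ℂ] ℂ[T;T⁻¹]} (hφ : Function.Surjective φ)
    (hφ' : Function.Surjective φ') (h : ∀ r, φ r = 0 ↔ φ' r = 0) :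
    ∃ (s : ℂ) (hs : s ≠ 0), (∀ r, φ' r = lev (sc s hs) (φ r)) ∨
      (∀ r, φ' r = invert (lev (sc s hs) (φ r))) := by
  have hker : ∀ a, a ∈ RingHom.ker φ → φ' a = 0 := fun a ha => (h a).mp ha
  let σ : ℂ[T;T⁻¹] →ₐ[ℂ] ℂ[T;T⁻¹] :=
    (Ideal.Quotient.liftₐ (RingHom.ker φ) φ' hker).comp
      (Ideal.quotientKerAlgEquivOfSurjective hφ).symm.toAlgHom
  have hσ : ∀ r, σ (φ r) = φ' r := by
    intro r
    have h1 : (Ideal.quotientKerAlgEquivOfSurjective hφ).symm (φ r) =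
        Ideal.Quotient.mk (RingHom.ker φ) r := by
      rw [AlgEquiv.symm_apply_eq]; rfl
    change (Ideal.Quotient.liftₐ (RingHom.ker φ) φ' hker)
      ((Ideal.quotientKerAlgEquivOfSurjective hφ).symm (φ r)) = φ' r
    rw [h1]; rfl
  have hσs : Function.Surjective σ := by
    intro z
    obtain ⟨r, hr⟩ := hφ' z
    exact ⟨φ r, by rw [hσ, hr]⟩
  let τ : (ℂ[T;T⁻¹])ˣ := Units.map ((σ : ℂ[T;T⁻¹] →* ℂ[T;T⁻¹])) (sc 1 one_ne_zero)
  have hlev : ∀ z, σ z = lev τ z := by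
    intro z
    have h1 := map_lev σ (sc 1 one_ne_zero) z
    rw [lev_sc_one] at h1
    exact h1
  obtain ⟨c, hc, hcase⟩ := unit_gen (τ := τ) (fun z => by
    obtain ⟨w, hw⟩ := hσs z
    exact ⟨w, by rw [← hlev, hw]⟩)
  refine ⟨c, hc, ?_⟩
  rcases hcase with h1 | h1
  · left
    intro r
    have h2 : τ = sc c hc := Units.ext h1
    rw [← hσ, hlev, h2]
  · right
    intro r
    have h2 : lev τ = ((invert : ℂ[T;T⁻¹] ≃ₐ[ℂ] ℂ[T;T⁻¹]) : ℂ[T;T⁻¹] →+* ℂ[T;T⁻¹]).comp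
        (lev (sc c hc)) := by
      apply laurent_ringHom_ext
      · intro x
        rw [lev_C, RingHom.comp_apply, lev_C, ← LaurentPolynomial.C_eq_algebraMap]
        exact (invert_C x).symm
      · rw [lev_T, zpow_one, h1, RingHom.comp_apply, lev_T, zpow_one, sc_val]
        change _ = invert (LaurentPolynomial.C c * T 1)
        rw [map_mul, invert_C, invert_T]
    rw [← hσ, hlev, h2]; rfl

end Pool.Agent.Helper34_CStar
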