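import Mathlib

/-!
# Valuations at infinity

`v` is a valuation of a field `L` containing `ℂ`, trivial on `ℂ`; `t` is an element with `1 < v t`.
-/

namespace Pool.Agent.Helper34_CStar

open Polynomial

section Basic

variable {L : Type*} [Field L] [Algebra ℂ L] {Γ : Type*} [LinearOrderedCommGroupWithZero Γ]
  (v : Valuation L Γ)

/-- trivial on the constants -/
def TrivOn : Prop := ∀ c : ℂ, c ≠ 0 → v (algebraMap ℂ L c) = 1

variable {v}

theorem TrivOn.le_one (hv : TrivOn v) (c : ℂ) : v (algebraMap ℂ L c) ≤ 1 := by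
  by_cases hc : c = 0
  · simp [hc]
  · exact (hv c hc).le

theorem TrivOn.eq_zero (hv : TrivOn v) {c : ℂ} (h : v (algebraMap ℂ L c) < 1) : c = 0 := by
  by_contra hc
  rw [hv c hc] at h
  exact lt_irrefl _ h

/-- the leading term dominates -/
theorem TrivOn.lead (hv : TrivOn v) {s : L} (hs : 1 < v s) (F : ℂ[X]) (n : ℕ)
    (hn : F.natDegree ≤ n) :
    v (aeval s F - algebraMap ℂ L (F.coeff n) * s ^ n) < v s ^ n := by
  have hs0 : v s ≠ 0 := (lt_trans zero_lt_one hs).ne'
  have h1 : aeval s F - algebraMap ℂ L (F.coeff n) * s ^ n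
      = ∑ i ∈ Finset.range n, algebraMap ℂ L (F.coeff i) * s ^ i := by
    rw [aeval_eq_sum_range' (Nat.lt_succ_of_le hn), Finset.sum_range_succ]
    simp [Algebra.smul_def]
  rw [h1]
  apply Valuation.map_sum_lt
  · exact pow_ne_zero _ hs0
  · intro i hi
    rw [Finset.mem_range] at hi
    rw [map_mul, map_pow]
    calc v (algebraMap ℂ L (F.coeff i)) * v s ^ i ≤ 1 * v s ^ i :=
          mul_le_mul_left (hv.le_one _) _
      _ = v s ^ i := one_mul _
      _ < v s ^ n := pow_lt_pow_right₀ hs hi

theorem TrivOn.aeval_le_one (hv : TrivOn v) {s : L} (hs : v s ≤ 1) (F : ℂ[X]) :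
    v (aeval s F) ≤ 1 := by
  rw [aeval_eq_sum_range]
  apply Valuation.map_sum_le
  intro i _
  rw [Algebra.smul_def, map_mul, map_pow]
  calc v (algebraMap ℂ L (F.coeff i)) * v s ^ i ≤ 1 * 1 :=
        mul_le_mul' (hv.le_one _) (pow_le_one' hs i)
    _ = 1 := one_mul _

theorem TrivOn.aeval_le (hv : TrivOn v) {s : L} (hs : 1 < v s) (F : ℂ[X]) (n : ℕ)
    (hn : F.natDegree ≤ n) : v (aeval s F) ≤ v s ^ n := by
  rw [aeval_eq_sum_range]
  apply Valuation.map_sum_le
  intro i hi
  rw [Finset.mem_range] at hi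
  rw [Algebra.smul_def, map_mul, map_pow]
  calc v (algebraMap ℂ L (F.coeff i)) * v s ^ i ≤ 1 * v s ^ i :=
        mul_le_mul_left (hv.le_one _) _
    _ = v s ^ i := one_mul _
    _ ≤ v s ^ n := pow_le_pow_right' hs.le (by omega)

theorem TrivOn.v_aeval (hv : TrivOn v) {s : L} (hs : 1 < v s) {F : ℂ[X]} (hF : F ≠ 0) :
    v (aeval s F) = v s ^ F.natDegree := by
  have h := hv.lead hs F F.natDegree le_rfl
  have hl : v (algebraMap ℂ L (F.coeff F.natDegree) * s ^ F.natDegree) = v s ^ F.natDegree := by
    rw [map_mul, map_pow, hv _ (by simpa using hF), one_mul]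
  rw [← hl] at h
  rw [← hl]
  have h2 := Valuation.map_add_eq_of_lt_left v h
  rw [add_sub_cancel] at h2
  exact h2

/-- If `f s = f t` then `s` and `t` have the same size. -/
theorem TrivOn.v_root (hv : TrivOn v) {s t : L} (ht : 1 < v t) {f : ℂ[X]}
    (hd : f.natDegree ≠ 0) (h : aeval s f = aeval t f) : v s = v t := by
  have hf : f ≠ 0 := by rintro rfl; simp at hd
  have h1 : v (aeval t f) = v t ^ f.natDegree := hv.v_aeval ht hf
  have hs : 1 < v s := by
    by_contra hs
    rw [not_lt] at hs
    have := hv.aeval_le_one hs f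
    rw [h, h1] at this
    exact absurd this (not_le.mpr (one_lt_pow₀ ht hd))
  have h2 : v (aeval s f) = v s ^ f.natDegree := hv.v_aeval hs hf
  rw [h, h1] at h2
  exact ((pow_left_inj₀ zero_le zero_le hd).mp h2).symm

/-- a small value of a polynomial comes from a nearby root -/
theorem TrivOn.close_root (hv : TrivOn v) {q : ℂ[X]} (hq : q ≠ 0) {z : L}
    (h : v (aeval z q) < 1) : ∃ ρ : ℂ, q.IsRoot ρ ∧ v (z - algebraMap ℂ L ρ) < 1 := by
  by_contra hcon
  push Not at hcon
  have h1 : aeval z q = algebraMap ℂ L q.leadingCoeff *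
      ((q.roots.map fun a => z - algebraMap ℂ L a)).prod := by
    conv_lhs => rw [(IsAlgClosed.splits q).eq_prod_roots]
    rw [map_mul, aeval_C, map_multiset_prod, Multiset.map_map]
    simp
  have h2 : 1 ≤ v (aeval z q) := by
    rw [h1, map_mul, hv _ (leadingCoeff_ne_zero.mpr hq), one_mul, map_multiset_prod,
      Multiset.map_map]
    apply Multiset.one_le_prod_of_one_le
    intro x hx
    rw [Multiset.mem_map] at hx
    obtain ⟨a, ha, rfl⟩ := hx
    exact hcon a ((mem_roots hq).mp ha)
  exact absurd h (not_lt.mpr h2)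

/-- polynomials with constant coefficients respect closeness -/
theorem TrivOn.close_aeval (hv : TrivOn v) {z : L} {ρ : ℂ} (h : v (z - algebraMap ℂ L ρ) < 1)
    (q : ℂ[X]) : v (aeval z q - algebraMap ℂ L (q.eval ρ)) < 1 := by
  have hz : v z ≤ 1 := by
    have : z = (z - algebraMap ℂ L ρ) + algebraMap ℂ L ρ := by ring
    rw [this]
    exact Valuation.map_add_le v h.le (hv.le_one _)
  obtain ⟨r, hr⟩ : (X - C ρ) ∣ q - C (q.eval ρ) := by
    rw [dvd_iff_isRoot]; simp
  have h1 : aeval z q - algebraMap ℂ L (q.eval ρ) = (z - algebraMap ℂ L ρ) * aeval z r := by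
    have := congrArg (aeval z) hr
    simpa using this
  rw [h1, map_mul]
  calc v (z - algebraMap ℂ L ρ) * v (aeval z r) ≤ v (z - algebraMap ℂ L ρ) * 1 :=
        mul_le_mul_right (hv.aeval_le_one hz r) _
    _ < 1 := by rwa [mul_one]

/-- near every `ζ t` there is a root of `f s = f t` -/
theorem TrivOn.exists_root [IsAlgClosed L] (hv : TrivOn v) {t : L} (ht : 1 < v t) {f : ℂ[X]}
    (hf : f.Monic) (hd : f.natDegree ≠ 0) {ζ : ℂ} (hζ : ζ ^ f.natDegree = 1) :
    ∃ s : L, aeval s f = aeval t f ∧ v (s - algebraMap ℂ L ζ * t) < v t := by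
  have hζ0 : ζ ≠ 0 := by
    rintro rfl
    rw [zero_pow hd] at hζ
    exact zero_ne_one hζ
  set P : L[X] := f.map (algebraMap ℂ L) - C (aeval t f) with hP
  have hdeg : (f.map (algebraMap ℂ L)).natDegree = f.natDegree := natDegree_map _
  have hlt : (C (aeval t f)).degree < (f.map (algebraMap ℂ L)).degree := by
    apply lt_of_le_of_lt degree_C_le
    rw [← natDegree_pos_iff_degree_pos, hdeg]
    omega
  have hPm : P.Monic := (hf.map (algebraMap ℂ L)).sub_of_left hlt
  have hPd : P.natDegree = f.natDegree := by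
    rw [hP, natDegree_sub_C, hdeg]
  have hPs : P.Splits := IsAlgClosed.splits P
  have hcard : Multiset.card P.roots = f.natDegree := by
    rw [← hPd]; exact hPs.natDegree_eq_card_roots.symm
  have hval : ∀ x : L, P.eval x = aeval x f - aeval t f := by
    intro x
    rw [hP, eval_sub, eval_C, eval_map_algebraMap]
  have hvt0 : v t ≠ 0 := (lt_trans zero_lt_one ht).ne'
  have hzt : v (algebraMap ℂ L ζ * t) = v t := by rw [map_mul, hv ζ hζ0, one_mul]
  have hsmall : v (P.eval (algebraMap ℂ L ζ * t)) < v t ^ f.natDegree := by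
    rw [hval]
    have h1 := hv.lead (s := algebraMap ℂ L ζ * t) (by rw [hzt]; exact ht) f f.natDegree le_rfl
    have h2 := hv.lead ht f f.natDegree le_rfl
    rw [hzt] at h1
    rw [hf.coeff_natDegree, map_one, one_mul] at h1 h2
    rw [mul_pow, ← map_pow, hζ, map_one, one_mul] at h1
    have h3 : aeval (algebraMap ℂ L ζ * t) f - aeval t f =
        (aeval (algebraMap ℂ L ζ * t) f - t ^ f.natDegree) - (aeval t f - t ^ f.natDegree) := by
      ring
    rw [h3]
    exact Valuation.map_sub_lt v h1 h2
  by_contra hcon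
  push Not at hcon
  have hprod : v t ^ f.natDegree ≤ v (P.eval (algebraMap ℂ L ζ * t)) := by
    rw [hPs.eval_eq_prod_roots_of_monic hPm, map_multiset_prod, Multiset.map_map, ← hcard]
    have := Multiset.pow_card_le_prod (s := P.roots.map (v ∘ fun a => algebraMap ℂ L ζ * t - a))
      (a := v t) ?_
    · simpa using this
    · intro x hx
      rw [Multiset.mem_map] at hx
      obtain ⟨a, ha, rfl⟩ := hx
      have hr : P.eval a = 0 := (mem_roots hPm.ne_zero).mp ha
      rw [hval, sub_eq_zero] at hr
      have := hcon a hr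
      rwa [Function.comp_apply, Valuation.map_sub_swap]
  exact absurd hsmall (not_lt.mpr hprod)

/-- every root of `f s = f t` is near some `ζ t` -/
theorem TrivOn.root_near (hv : TrivOn v) {s t : L} (ht : 1 < v t) {f : ℂ[X]}
    (hf : f.Monic) (hd : f.natDegree ≠ 0) (h : aeval s f = aeval t f) :
    ∃ ζ : ℂ, ζ ^ f.natDegree = 1 ∧ v (s - algebraMap ℂ L ζ * t) < v t := by
  have ht0 : t ≠ 0 := by rintro rfl; simp at ht
  have hvt0 : v t ≠ 0 := (lt_trans zero_lt_one ht).ne'
  have hst : v s = v t := hv.v_root ht hd h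
  have hs : 1 < v s := by rw [hst]; exact ht
  have h1 := hv.lead hs f f.natDegree le_rfl
  have h2 := hv.lead ht f f.natDegree le_rfl
  rw [hf.coeff_natDegree, map_one, one_mul] at h1 h2
  rw [hst] at h1
  have h3 : v (s ^ f.natDegree - t ^ f.natDegree) < v t ^ f.natDegree := by
    have : s ^ f.natDegree - t ^ f.natDegree =
      (aeval t f - t ^ f.natDegree) - (aeval s f - s ^ f.natDegree) := by rw [h]; ring
    rw [this]
    exact Valuation.map_sub_lt v h2 h1
  have h4 : v (aeval (s / t) (X ^ f.natDegree - 1 : ℂ[X])) < 1 := by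
    have : aeval (s / t) (X ^ f.natDegree - 1 : ℂ[X]) =
        (s ^ f.natDegree - t ^ f.natDegree) / t ^ f.natDegree := by
      simp only [map_sub, map_pow, aeval_X, map_one]
      rw [div_pow, sub_div, div_self (pow_ne_zero _ ht0)]
    rw [this, map_div₀, map_pow]
    exact (div_lt_one₀ (pow_pos (zero_lt_iff.mpr hvt0) _)).mpr h3
  obtain ⟨ρ, hρ, hρ2⟩ := hv.close_root (X_pow_sub_C_ne_zero (Nat.pos_of_ne_zero hd) 1) h4
  refine ⟨ρ, ?_, ?_⟩
  · have := hρ.eq_zero
    simp only [eval_sub, eval_pow, eval_X, eval_C] at this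
    exact sub_eq_zero.mp this
  · have : s - algebraMap ℂ L ρ * t = (s / t - algebraMap ℂ L ρ) * t := by field_simp
    rw [this, map_mul]
    calc v (s / t - algebraMap ℂ L ρ) * v t < 1 * v t :=
          mul_lt_mul_of_pos_right hρ2 (zero_lt_iff.mpr hvt0)
      _ = v t := one_mul _

/-- a root `s ≠ t` of `f s = f t` is not near `t` -/
theorem TrivOn.root_ne_near [IsAlgClosed L] (hv : TrivOn v) {s t : L} (ht : 1 < v t) {f : ℂ[X]}
    (hf : f.Monic) (hd : f.natDegree ≠ 0) (h : aeval s f = aeval t f) (hne : s ≠ t) :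
    v t ≤ v (s - t) := by
  classical
  by_contra hlt
  rw [not_le] at hlt
  have hvt0 : v t ≠ 0 := (lt_trans zero_lt_one ht).ne'
  set P : L[X] := f.map (algebraMap ℂ L) - C (aeval t f) with hP
  have hdeg : (f.map (algebraMap ℂ L)).natDegree = f.natDegree := natDegree_map _
  have hlt' : (C (aeval t f)).degree < (f.map (algebraMap ℂ L)).degree := by
    apply lt_of_le_of_lt degree_C_le
    rw [← natDegree_pos_iff_degree_pos, hdeg]
    omega
  have hPm : P.Monic := (hf.map (algebraMap ℂ L)).sub_of_left hlt'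
  have hPd : P.natDegree = f.natDegree := by
    rw [hP, natDegree_sub_C, hdeg]
  have hPs : P.Splits := IsAlgClosed.splits P
  have hcard : Multiset.card P.roots = f.natDegree := by
    rw [← hPd]; exact hPs.natDegree_eq_card_roots.symm
  have hval : ∀ x : L, P.eval x = aeval x f - aeval t f := by
    intro x
    rw [hP, eval_sub, eval_C, eval_map_algebraMap]
  have hmem : ∀ x : L, x ∈ P.roots ↔ aeval x f = aeval t f := by
    intro x
    rw [mem_roots hPm.ne_zero, IsRoot.def, hval, sub_eq_zero]
  have htm : t ∈ P.roots := (hmem t).mpr rfl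
  have hsm : s ∈ P.roots.erase t := (Multiset.mem_erase_of_ne hne).mpr ((hmem s).mpr h)
  have hder := hPs.eval_root_derivative hPm htm
  have hder' : P.derivative.eval t = aeval t f.derivative := by
    rw [hP, derivative_sub, derivative_C, sub_zero, derivative_map, eval_map_algebraMap]
  obtain ⟨m, hm⟩ := Multiset.exists_cons_of_mem hsm
  have hmc : Multiset.card m + 2 = f.natDegree := by
    have h1 := Multiset.card_erase_of_mem htm
    rw [hm, Multiset.card_cons, hcard] at h1
    have h2 : 0 < Multiset.card P.roots := Multiset.card_pos_iff_exists_mem.mpr ⟨t, htm⟩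
    rw [hcard] at h2
    simp only [Nat.pred_eq_sub_one] at h1
    omega
  have hf'0 : f.derivative ≠ 0 := by
    intro h0
    exact hd (derivative_eq_zero.mp h0)
  have hf'd : f.derivative.natDegree = f.natDegree - 1 := natDegree_derivative _
  have hv1 : v (aeval t f.derivative) = v t ^ (f.natDegree - 1) := by
    rw [hv.v_aeval ht hf'0, hf'd]
  rw [hder', hm, Multiset.map_cons, Multiset.prod_cons] at hder
  have hv2 : v (m.map fun x => t - x).prod ≤ v t ^ Multiset.card m := by
    rw [map_multiset_prod, Multiset.map_map]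
    have := Multiset.prod_le_pow_card (m.map (v ∘ fun a => t - a)) (v t) ?_
    · simpa using this
    · intro x hx
      rw [Multiset.mem_map] at hx
      obtain ⟨a, ha, rfl⟩ := hx
      have ha' : a ∈ P.roots := by
        apply Multiset.mem_of_mem_erase (b := t)
        rw [hm]; exact Multiset.mem_cons_of_mem ha
      have hva : v a = v t := hv.v_root ht hd ((hmem a).mp ha')
      rw [Function.comp_apply]
      exact Valuation.map_sub_le v le_rfl hva.le
  have hv3 : v (aeval t f.derivative) < v t ^ (f.natDegree - 1) := by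
    rw [hder, map_mul]
    have h5 : f.natDegree - 1 = Multiset.card m + 1 := by omega
    rw [h5, pow_succ']
    calc v (t - s) * v (m.map fun x => t - x).prod ≤ v (t - s) * v t ^ Multiset.card m :=
          mul_le_mul_right hv2 _
      _ < v t * v t ^ Multiset.card m := by
          apply mul_lt_mul_of_pos_right
          · rwa [Valuation.map_sub_swap]
          · exact pow_pos (zero_lt_iff.mpr hvt0) _
  rw [hv1] at hv3
  exact lt_irrefl _ hv3

end Basic

/-- There is an algebraically closed field with a valuation trivial on `ℂ` and an element of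
size larger than one. -/
theorem exists_valuation : ∃ (L : Type) (_ : Field L) (_ : Algebra ℂ L) (_ : IsAlgClosed L)
    (B : ValuationSubring L) (t : L), TrivOn B.valuation ∧ 1 < B.valuation t := by
  let L := AlgebraicClosure (RatFunc ℂ)
  let τ : L := algebraMap (RatFunc ℂ) L RatFunc.X
  have hτtr : Transcendental ℂ τ := by
    have h1 : Transcendental ℂ (RatFunc.X : RatFunc ℂ) := RatFunc.transcendental_X
    exact (transcendental_algebraMap_iff (algebraMap (RatFunc ℂ) L).injective).mpr h1
  let φ : ℂ[X] →+* L := (aeval τ : ℂ[X] →ₐ[ℂ] L).toRingHom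
  have hφ : Function.Injective φ := transcendental_iff_injective.mp hτtr
  let e : ℂ[X] ≃+* φ.range := RingEquiv.ofBijective φ.rangeRestrict
    ⟨fun a b h => hφ (congrArg Subtype.val h), φ.rangeRestrict_surjective⟩
  let I : Ideal φ.range := Ideal.map (e : ℂ[X] →+* φ.range) (Ideal.span {X})
  have hI : I ≠ ⊤ := by
    intro h
    have h1 : Ideal.comap (e : ℂ[X] →+* φ.range) I = ⊤ := by rw [h, Ideal.comap_top]
    have h2 : Ideal.comap (e : ℂ[X] →+* φ.range) I = Ideal.span {X} :=
      Ideal.comap_map_of_bijective (e : ℂ[X] →+* φ.range) e.bijective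
    rw [h2, Ideal.span_singleton_eq_top] at h1
    exact not_isUnit_X h1
  obtain ⟨B, hAB, hIB⟩ := Ideal.image_subset_nonunits_valuationSubring I hI
  have hτ : B.valuation τ < 1 := by
    rw [← ValuationSubring.mem_nonunits_iff]
    apply hIB
    refine ⟨e X, Ideal.mem_map_of_mem _ (Ideal.subset_span rfl), ?_⟩
    change (aeval τ) X = τ
    simp
  have hc : ∀ c : ℂ, B.valuation (algebraMap ℂ L c) ≤ 1 := by
    intro c
    rw [ValuationSubring.valuation_le_one_iff]
    apply hAB
    refine ⟨C c, ?_⟩
    change (aeval τ) (C c) = _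
    simp
  have hτ0 : τ ≠ 0 := by
    rintro h
    apply hτtr
    rw [h]
    exact isAlgebraic_zero
  refine ⟨L, inferInstance, inferInstance, inferInstance, B, τ⁻¹, ?_, ?_⟩
  · intro c hc0
    apply le_antisymm (hc c)
    have h1 := hc c⁻¹
    rw [map_inv₀, map_inv₀] at h1
    have h2 : B.valuation (algebraMap ℂ L c) ≠ 0 := by
      rw [ne_eq, map_eq_zero, map_eq_zero]; exact hc0
    exact (inv_le_one₀ (zero_lt_iff.mpr h2)).mp h1
  · rw [map_inv₀]
    exact (one_lt_inv₀ (zero_lt_iff.mpr (by rw [ne_eq, map_eq_zero]; exact hτ0))).mpr hτ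

end Pool.Agent.Helper34_CStar
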